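import Pool.Agent.Lib.MP_eeed5c_co_C.An1

/-!
# Lower part, large `n`

NOTATION. `y_j = yy P j`, `G_j = GA n P j`, `r = 2`, `s = 10`.

PROOFS. `F ≥ .3612 n`, `F ≤ .3614 n + 1`.
`hc` (`3 ≤ j < F`, so `j ≤ .3614 n`, i.e. `10000 j ≤ 3614 n`).
First part of `CF` (`3j ≤ n`): `10(j-1) ≤ 6(2n+3-3j)`, i.e. `28 j ≤ 12 n + 28`.
Second part (`n < 3j`). (a) `3(3j-n)(2n+6-3j) ≤ j(n+2-j)` is `hmin` (expand).
(b) `min 2 10 = 2`. Let `a1 = (6(2n+3-3j) + 9(3j-n)(3j-3-n)/j)/(j-1)` and `t = 3j-n`: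
`9 t (t-3)/j ≥ -9 * (9/4)/j ≥ -1`, so `a1 ≥ (6(2n+3-3j) - 1)/(j-1) ≥ 15`, because
`15 (j-1) ≤ 12 n + 17 - 18 j`, i.e. `33 j ≤ 12 n + 32`, true for `j ≤ .3614 n` (`11.93 n`).
`18(3j-n)(n+3-j)/(j(j-3))/2 ≤ 4.1`: the difference
`9(3j-n)(n+3-j) - 4.1 j(j-3) = -31.1 j^2 + 36 n j + 93.3 j - 9 n^2 - 27 n` is increasing in
`j ≤ .3614 n` (`36 n - 62.2 j > 0`), and at `.3614 n` equals `-.0515 n^2 + 6.8 n < 0`. So `2 + 4.1 ≤ 15`.
(c) `10 + 3(3j-n)/j * G_{j-2} ≤ 15`: `100 (j-2) ≥ 32 n + 500` (`n < 3j`), so (`GA_mid`)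
`G_{j-2} = 1/y_i`, `i = min (j-7) (33n/50) = j-7` and `328 n ≤ 1000 (j-7)`, so `G_{j-2} ≤ 5` (`y_lo3`);
`3(3j-n) * 5 ≤ 5 j`: `8 j ≤ 3 n`, true (`j ≤ .3614 n`).
`hY1`: `YA F F = 7/5` (empty sum). `T := G_{F-2} G_{F-3} = 1/(y_{F-7} y_{F-8}) ≤ (200/49)^2 ≤ 17`
(`y_lo1`: `355 n ≤ 1000 (F-9)` because `.3612 n - 9 ≥ .355 n`). `(7/5) T ≤ T + 10`.
`hY2`: `YA F (F-1) = 7/5` (empty sum). Divide by `P_F`: `P_{F-1}/P_F = y_{F-1}`. `T' := G_{F-3}G_{F-4} ≤ 17`;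
`y_{F-1} G_{F-2} = y_{F-1}/y_{F-7} ≤ (201/200)^6 ≤ 1.031` (`step_lo` at `F-1, ..., F-6`;
`355 n + 1000 ≤ 1000(F-6)`, `10000 F ≤ 3685 n`). `(7/5)(1.031) T' ≤ 1.4434 T' ≤ T' + 10`, `F - 1 ≤ F`.
-/

set_option autoImplicit false

namespace Pool.Agent.Lib.MP_eeed5c_coC

private theorem LowA_CF {n : ℕ} {P E d : ℕ → ℝ} (h : Sys n P E d) (hn : 1500 ≤ n) {j : ℕ}
    (h3 : 3 ≤ j) (hj : 10000 * j ≤ 3614 * n)
    (hmin : n < 3 * j → 26 * n * j + 52 * j ≤ 26 * j ^ 2 + 6 * n ^ 2 + 18 * n) :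
    CF n (GA n P) 2 10 j := by
  have hnR : (1500 : ℝ) ≤ n := by exact_mod_cast hn
  have hjR : 10000 * (j : ℝ) ≤ 3614 * n := by exact_mod_cast hj
  have h3R : (3 : ℝ) ≤ j := by exact_mod_cast h3
  constructor
  · intro _
    rw [max_eq_right (by norm_num : (2 : ℝ) ≤ 10)]
    linarith
  · intro hlt
    have hltN : n + 1 ≤ 3 * j := hlt
    have hltR : (n : ℝ) + 1 ≤ 3 * j := by exact_mod_cast hltN
    have hj500 : (500 : ℝ) < j := by linarith
    have hj0 : (0 : ℝ) < j := by linarith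
    have hb1 : -1 ≤ 9 * (3 * (j : ℝ) - n) * (3 * (j : ℝ) - 3 - n) / j := by
      rw [le_div_iff₀ hj0]
      nlinarith [sq_nonneg (2 * (3 * (j : ℝ) - n) - 3)]
    have ha1 : 15 ≤ (6 * (2 * (n : ℝ) + 3 - 3 * j) +
        9 * (3 * (j : ℝ) - n) * (3 * (j : ℝ) - 3 - n) / j) / ((j : ℝ) - 1) := by
      rw [le_div_iff₀ (by linarith)]
      linarith
    refine ⟨?_, ?_, ?_⟩
    · have hm := hmin hlt
      have hmR : 26 * (n : ℝ) * j + 52 * j ≤ 26 * (j : ℝ) ^ 2 + 6 * (n : ℝ) ^ 2 + 18 * n := by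
        exact_mod_cast hm
      linarith
    · rw [min_eq_left (by norm_num : (2 : ℝ) ≤ 10)]
      refine le_trans ?_ ha1
      have hq : 18 * (3 * (j : ℝ) - n) * ((n : ℝ) + 3 - j) / (j * ((j : ℝ) - 3)) / 2 ≤ 41 / 10 := by
        rw [div_div, div_le_iff₀ (by nlinarith)]
        have g1 : 0 ≤ 3614 / 10000 * (n : ℝ) - j := by linarith
        have g2 : 0 ≤ 36 * (n : ℝ) + 933 / 10 - 311 / 10 * (3614 / 10000 * (n : ℝ) + j) := by
          linarith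
        nlinarith [mul_nonneg g1 g2, mul_nonneg (sub_nonneg.mpr hnR) (by linarith : (0 : ℝ) ≤ n)]
      linarith
    · refine le_trans ?_ ha1
      have hG : GA n P (j - 2) ≤ 5 := by
        rw [GA_mid (by omega) (by omega)]
        have hmn : min (j - 2 - 5) (33 * n / 50) = j - 7 := by omega
        rw [hmn]
        have hy := y_lo3 h hn (j := j - 7) (by omega) (by omega)
        rw [div_le_iff₀ (by linarith)]
        linarith
      have hc0 : 0 ≤ 3 * (3 * (j : ℝ) - n) / j := div_nonneg (by linarith) hj0.le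
      have hc1 : 3 * (3 * (j : ℝ) - n) / j ≤ 1 := by
        rw [div_le_iff₀ hj0]
        linarith
      have h5 := mul_le_mul_of_nonneg_left hG hc0
      linarith

theorem low_an {n : ℕ} {P E d : ℕ → ℝ} (h : Sys n P E d) (hn : 1500 ≤ n) {F : ℕ}
    (hF1 : 3612 * n ≤ 10000 * F) (hF2 : 10000 * F ≤ 3614 * n + 10000)
    (hmin : ∀ j, n < 3 * j → j < F → 26 * n * j + 52 * j ≤ 26 * j ^ 2 + 6 * n ^ 2 + 18 * n) :
    Low n F P (GA n P) (YA F) 2 10 := by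
  obtain ⟨f, rfl⟩ : ∃ f, F = f + 9 := ⟨F - 9, by omega⟩
  have e2 : f + 9 - 2 = f + 7 := rfl
  have e3 : f + 9 - 3 = f + 6 := rfl
  have e4 : f + 9 - 4 = f + 5 := rfl
  have e1 : f + 9 - 1 = f + 8 := rfl
  have hG : ∀ i, 5 ≤ i → i ≤ 7 → GA n P (f + i) = 1 / yy P (f + i - 5) := by
    intro i h5 h7
    rw [GA_mid (by omega) (by omega)]
    have hmn : min (f + i - 5) (33 * n / 50) = f + i - 5 := by omega
    rw [hmn]
  have hy : ∀ i, i ≤ 8 → 49 / 200 < yy P (f + i) := fun i hi =>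
    y_lo1 h hn (by omega) (by omega)
  have hGle : ∀ i, 5 ≤ i → i ≤ 7 → 0 < GA n P (f + i) ∧ GA n P (f + i) ≤ 200 / 49 := by
    intro i h5 h7
    rw [hG i h5 h7]
    have h1 := hy (i - 5) (by omega)
    have e : f + (i - 5) = f + i - 5 := by omega
    rw [e] at h1
    have h0 : 0 < yy P (f + i - 5) := by linarith
    refine ⟨one_div_pos.mpr h0, ?_⟩
    rw [div_le_iff₀ h0]
    linarith
  have hYA1 : YA (f + 9) (f + 9) = 7 / 5 := by
    unfold YA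
    rw [Finset.Ico_self, Finset.sum_empty, mul_zero, sub_zero]
  have hYA2 : YA (f + 9) (f + 8) = 7 / 5 := by
    unfold YA
    rw [Finset.Ico_eq_empty (by omega), Finset.sum_empty, mul_zero, sub_zero]
  obtain ⟨p5, q5⟩ := hGle 5 (by norm_num) (by norm_num)
  obtain ⟨p6, q6⟩ := hGle 6 (by norm_num) (by norm_num)
  obtain ⟨p7, q7⟩ := hGle 7 (by norm_num) (by norm_num)
  refine ⟨by norm_num, by norm_num, ?_, ?_, ?_⟩
  · intro j h3 hj
    exact LowA_CF h hn h3 (by omega) (fun hlt => hmin j hlt hj)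
  · rw [hYA1, e2, e3]
    have hT : GA n P (f + 7) * GA n P (f + 6) ≤ 200 / 49 * (200 / 49) :=
      mul_le_mul q7 q6 p6.le (by norm_num)
    linarith
  · rw [e1, e2, e3, e4, hYA2]
    have hT : GA n P (f + 6) * GA n P (f + 5) ≤ 200 / 49 * (200 / 49) :=
      mul_le_mul q6 q5 p5.le (by norm_num)
    have hT0 : 0 < GA n P (f + 6) * GA n P (f + 5) := mul_pos p6 p5
    obtain ⟨T, hTd⟩ : ∃ T, T = GA n P (f + 6) * GA n P (f + 5) := ⟨_, rfl⟩
    rw [← hTd] at hT hT0 ⊢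
    have hst : ∀ i, 3 ≤ i → i ≤ 8 → yy P (f + i) ≤ 201 / 200 * yy P (f + i - 1) := by
      intro i h3 h8
      exact step_lo h hn (by omega) (by omega)
    have s8 := hst 8 (by norm_num) (by norm_num)
    have s7 := hst 7 (by norm_num) (by norm_num)
    have s6 := hst 6 (by norm_num) (by norm_num)
    have s5 := hst 5 (by norm_num) (by norm_num)
    have s4 := hst 4 (by norm_num) (by norm_num)
    have s3 := hst 3 (by norm_num) (by norm_num)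
    have t8 : f + 8 - 1 = f + 7 := rfl
    have t7 : f + 7 - 1 = f + 6 := rfl
    have t6 : f + 6 - 1 = f + 5 := rfl
    have t5 : f + 5 - 1 = f + 4 := rfl
    have t4 : f + 4 - 1 = f + 3 := rfl
    have t3 : f + 3 - 1 = f + 2 := rfl
    rw [t8] at s8
    rw [t7] at s7
    rw [t6] at s6
    rw [t5] at s5
    rw [t4] at s4
    rw [t3] at s3
    have hw := hy 2 (by norm_num)
    have hr : yy P (f + 8) ≤ 1031 / 1000 * yy P (f + 2) := by
      have c1 : yy P (f + 8) ≤ (201 / 200) ^ 6 * yy P (f + 2) := by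
        linarith
      have c2 : ((201 : ℝ) / 200) ^ 6 ≤ 1031 / 1000 := by norm_num
      exact c1.trans (mul_le_mul_of_nonneg_right c2 (by linarith))
    have hG7 := hG 7 (by norm_num) (by norm_num)
    have u7 : f + 7 - 5 = f + 2 := rfl
    rw [u7] at hG7
    have hw0 : 0 < yy P (f + 2) := by linarith
    have hq : yy P (f + 8) * GA n P (f + 7) ≤ 1031 / 1000 := by
      rw [hG7, mul_one_div, div_le_iff₀ hw0]
      exact hr
    have hP9 : 0 < P (f + 9) := h.P_pos _ (by omega)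
    have hP8 : P (f + 8) = yy P (f + 8) * P (f + 9) := by
      unfold yy
      rw [div_mul_cancel₀ _ hP9.ne']
    have hy8 := hy 8 (by norm_num)
    have hf : ((f + 9 : ℕ) : ℝ) = (f : ℝ) + 9 := by push_cast; rfl
    rw [hP8, hf]
    have hf0 : (0 : ℝ) ≤ f := Nat.cast_nonneg f
    have k1 : 7 / 5 * ((f : ℝ) + 9 - 1) * (yy P (f + 8) * P (f + 9)) * GA n P (f + 7) * T =
        (((f : ℝ) + 8) * P (f + 9)) * (7 / 5 * (yy P (f + 8) * GA n P (f + 7)) * T) := by ring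
    rw [k1]
    have k2 : 7 / 5 * (yy P (f + 8) * GA n P (f + 7)) * T ≤ T + 10 := by
      have k3 : 7 / 5 * (yy P (f + 8) * GA n P (f + 7)) * T ≤ 7 / 5 * (1031 / 1000) * T :=
        mul_le_mul_of_nonneg_right (by linarith) hT0.le
      linarith
    have hy80 : 0 < yy P (f + 8) := by linarith
    have k4 : 0 ≤ ((f : ℝ) + 9) * P (f + 9) := mul_nonneg (by linarith) hP9.le
    have k5 : 0 ≤ 7 / 5 * (yy P (f + 8) * GA n P (f + 7)) * T :=
      mul_nonneg (mul_nonneg (by norm_num) (mul_nonneg hy80.le p7.le)) hT0.le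
    refine mul_le_mul ?_ k2 k5 k4
    exact mul_le_mul_of_nonneg_right (by linarith) hP9.le

end Pool.Agent.Lib.MP_eeed5c_coC
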