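import Pool.Agent.Lib.MP_eeed5c_co_C.An1

/-!
# Middle part, large `n`: the conditions `hK` and `ha`

NOTATION. `y_j = yy P j`, `κ_j = 3(3j-n) - 6(n+2-j) y_{j-1} y_{j-2}`,
`g(j) = 3(3j-n)(2n+3-3j) - (j-1)(n-j) = 26 j(n-j) + 26 j - 6n^2 - 8n`,
`D_j = (2n+3-3j) + (j-1)(n-j+1) y_{j-1}/j`. `.3612 n ≤ F ≤ .3614 n + 1`.
`hlt` says `26F^2 + 6n^2 + 18n < 26nF + 52F`, i.e. `g(F) > 10 n - 26 F ≥ .6036 n - 26`.

PROOFS.
Bounds of `g` and `D`: let `m = j - F`. `g(j) = g(F) + 26 m (n - 2F - m + 1)` and `n - 2F ≥ .2772 n - 2`,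
so `g(j) ≥ .6036 n - 26 + 26 m (.2772 n - 1 - m)`. If `2j ≤ n`:
`0 < D_j ≤ 2n+3-3j + .55 (j-1) ≤ 2n + 3 - 2.45 j` (`z_up1` at `j-1`: `(n-j+1) y_{j-1} ≤ .55 j`).
`kappa_lb` (`F < j ≤ F+10`): by `kap`, `κ_j D_j ≥ g(j)`, so it is enough that `6.3 m D_j ≤ g(j)`.
`6.3 m D_j ≤ 6.3 m (2n + 3 - 2.45 (.3612 n + m)) = 6.3 m (1.11506 n + 3 - 2.45 m)
≤ 7.0249 m n + 18.9 m - 15.435 m^2`, `g(j) ≥ .6036 n + 7.2072 m n - 26 - 26 m - 26 m^2`. Enough:
`26 + 44.9 m + 10.565 m^2 ≤ (.6036 + .1823 m) n`: `26 ≤ .6036 * 1500`,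
`44.9 m + 10.565 m^2 ≤ (44.9 + 105.65) m ≤ .1823 * 1500 m`.
`kappa_60` (`F + 10 ≤ j`, `2j ≤ n`): `g(j) ≥ g(F+10)` (`g(j) - g(i) = 26 (j-i)(n - i - j + 1) ≥ 0` for
`i ≤ j`, `2j ≤ n`) `≥ .6036 n + 72.072 n - 2886`, and `60 D_j ≤ 60 (2n + 3 - 2.45 (.3612 n + 10))
≤ 66.91 n - 1290`.
`mid_hK` (`F < j ≤ J`): if `n ≤ 2j+1` this is `hKJ`. Otherwise `κ_j ≥ 0` by `kappa_lb` or `kappa_60`;
multiply by `P_j/3` (`kap_P`).
`sup_ha` (`F < j ≤ F+9`). Put `a = y_{F+4}`. Divide by `P_j` and multiply by `y_j > 0`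
(`P_{j+1}/P_j = 1/y_j`, `P_{j-1}/P_j = y_{j-1}`; `cc n P (j+1) = 6(n+1-j)P_{j-1}`). To show:
`j y_j ≤ a (j+1) + a y_j (3(3j-n) - 6a(n+1-j) y_{j-1})`. Since
`3(3j-n) = κ_j + 6(n+2-j) y_{j-1} y_{j-2}`, the last bracket is
`κ_j + 6 y_{j-1} (y_{j-2} + (n+1-j)(y_{j-2} - a))`. Let `m = j - F ∈ {1, ..., 9}`. `step_lo2` (the indices
`F, ..., F+9` satisfy `359 n ≤ 1000 i`, `10000 i ≤ 3685 n`), `τ = 33/(20 n)`:
`y_j - a ≤ (m-4)^+ τ` (`y_mono` if `m ≤ 4`), `a - y_{j-2} ≤ (6-m)^+ τ` (here `F+4 - (j-2) = 6-m`; the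
lowest step is at `i = j-1 ≥ F`). So `j (y_j - a) ≤ .61 (m-4)^+` (`j τ ≤ .3685 * 1.65 = .6081`) and
`6 y_{j-1}(n+1-j)(y_{j-2} - a) ≥ -1.72 (6-m)^+` (`y_{j-1} ≤ .27`, `n+1-j ≤ n - F ≤ .6388 n`,
`6 * .27 * .6388 * 1.65 = 1.7075`). It remains:
`.61 (m-4)^+ ≤ a + a y_j (κ_j - 1.72 (6-m)^+)` with `κ_j ≥ 6.3 m`, `1/4 < a ≤ .27`, `1/4 < y_j ≤ .27`
(`y_lo2`, `y_up1`): `m = 1`: `κ_j - 8.6 ≥ -2.3`, `a y_j ≤ .0729`, `.25 - .0729*2.3 > 0`. For
`m = 2, ..., 9`: `κ_j - 1.72(6-m)^+ > 0` and `a y_j ≥ .0625`: `m = 2, 3, 4`: clear. `m = 5`: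
`.61 ≤ .25 + .0625 (31.5 - 1.72)`; `m = 6`: `1.22 ≤ .25 + .0625 * 37.8`; `m = 7`:
`1.83 ≤ .25 + .0625 * 44.1`; `m = 8`: `2.44 ≤ .25 + 3.15`; `m = 9`: `3.05 ≤ .25 + 3.54`.
`m2_ha` (`F + 10 ≤ j`, `2j ≤ n`): as before, to show
`j y_j ≤ y_{j-6} ((j+1) + y_j (3(3j-n) - 6 y_{j-5} (n+1-j) y_{j-1}))`, and the bracket
`3(3j-n) - 6 y_{j-5}(n+1-j) y_{j-1} = κ_j + 6 y_{j-1}((n+2-j) y_{j-2} - (n+1-j) y_{j-5}) ≥ κ_j ≥ 60`.
Enough: `j (y_j - y_{j-6}) ≤ y_{j-6} (1 + 60 y_j)`. Put `y = y_j`, `.25 < y ≤ .55` (`y_lo2`, `y_up2`).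
`y_inc` at `i = j-5, ..., j` with `ζ = .44` (`z_lo1` at `i-1 ≥ j-6`): `i (y_i - y_{i-1}) ≤
y_{i-1}(1 + 4.36 y_i) ≤ y (1 + 4.36 y)`, so (sum of six, `i ≥ j-5`)
`(j-5)(y - y_{j-6}) ≤ 6 y (1 + 4.36 y)`; `j ≤ 1.01 (j-5)` gives `j (y - y_{j-6}) ≤ 6.06 y (1+4.36y)`, and
`1 + 4.36 y ≤ 3.4`, `j-5 ≥ 546` give `y - y_{j-6} ≤ .041 y`. Enough:
`6.06 (1 + 4.36 y) ≤ .959 (1 + 60 y)`, i.e. `5.101 ≤ 31.11 y`, true for `y > .25`.
`mid_ha`. `j ≤ F+9`: `aA n F P (j-1) = y_{F+4}` and `aA n F P j = y_{F+4}` (for `j = F+9`: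
`2j ≤ n`, `y_{j-5}`), `min .. ≤ aA_j cc_{j+1}` and `sup_ha`. `F+10 ≤ j`, `2j ≤ n`: `aA (j-1) = y_{j-6}`,
`aA j = y_{j-5}`, `m2_ha`. `2(j-1) ≤ n < 2j`: `aA (j-1) = y_{j-6} ≥ 1/2` (`y_lo4`,
`495 n ≤ 1000 (j-6)`), use `min .. ≤ (j+1) P_{j+1}`: `bb n P j - (j+1)P_{j+1} = 3(3j-n) P_j` and
`j ≤ (3/2)(3j-n)` (`3n ≤ 7j`). `n < 2(j-1)`: `aA (j-1) = j/(3(3j-n))`, again
`min .. ≤ (j+1) P_{j+1}`: equality.
-/

set_option autoImplicit false

namespace Pool.Agent.Lib.MP_eeed5c_coC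

section

variable {n : ℕ} {P E d : ℕ → ℝ}

private theorem midA_gF {F : ℕ}
    (hlt : 26 * F ^ 2 + 6 * n ^ 2 + 18 * n < 26 * n * F + 52 * F) :
    10 * (n : ℝ) - 26 * F < 26 * (F : ℝ) * (n - F) + 26 * F - 6 * (n : ℝ) ^ 2 - 8 * n := by
  have h1 : 26 * (F : ℝ) ^ 2 + 6 * (n : ℝ) ^ 2 + 18 * n < 26 * n * F + 52 * F := by exact_mod_cast hlt
  nlinarith [h1]

/-- The numbers `D_j`. -/
private theorem midA_D (h : Sys n P E d) (hn : 1500 ≤ n) {j : ℕ} (h1 : 2 ≤ j) (h2 : 2 * j ≤ n + 2)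
    (h3 : 3 * j ≤ 2 * n) :
    0 < (2 * (n : ℝ) + 3 - 3 * j) + ((j : ℝ) - 1) * ((n : ℝ) - j + 1) / j * yy P (j - 1) ∧
    (2 * (n : ℝ) + 3 - 3 * j) + ((j : ℝ) - 1) * ((n : ℝ) - j + 1) / j * yy P (j - 1) ≤
      2 * (n : ℝ) + 3 - 49 / 20 * j := by
  have hj0 : (2 : ℝ) ≤ j := by exact_mod_cast h1
  have hj3 : 3 * (j : ℝ) ≤ 2 * n := by exact_mod_cast h3
  have hz := z_up1 h hn (j := j - 1) (by omega)
  have hc : ((j - 1 : ℕ) : ℝ) = (j : ℝ) - 1 := by
    rw [Nat.cast_sub (by omega : 1 ≤ j), Nat.cast_one]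
  rw [hc] at hz
  have hz' : ((n : ℝ) - j + 1) * yy P (j - 1) ≤ 11 / 20 * j := by linarith
  have hy := y_pos h (j := j - 1) (by omega)
  have hnj : 0 ≤ (n : ℝ) - j + 1 := by linarith
  have he : ((j : ℝ) - 1) * ((n : ℝ) - j + 1) / j * yy P (j - 1) =
      ((j : ℝ) - 1) / j * (((n : ℝ) - j + 1) * yy P (j - 1)) := by ring
  have hq0 : 0 ≤ ((j : ℝ) - 1) / j := div_nonneg (by linarith) (by linarith)
  have hq1 : ((j : ℝ) - 1) / j * (11 / 20 * j) = 11 / 20 * (j - 1) := by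
    field_simp
  rw [he]
  constructor
  · have := mul_nonneg hq0 (mul_nonneg hnj hy.le)
    linarith
  · have := mul_le_mul_of_nonneg_left hz' hq0
    rw [hq1] at this
    linarith

theorem kappa_lb (h : Sys n P E d) (hn : 1500 ≤ n) {F : ℕ} (hF1 : 3612 * n ≤ 10000 * F)
    (hF2 : 10000 * F ≤ 3614 * n + 10000)
    (hlt : 26 * F ^ 2 + 6 * n ^ 2 + 18 * n < 26 * n * F + 52 * F) {j : ℕ} (h1 : F < j)
    (h2 : j ≤ F + 10) : 63 / 10 * ((j : ℝ) - F) ≤
      3 * (3 * (j : ℝ) - n) - 6 * ((n : ℝ) + 2 - j) * yy P (j - 1) * yy P (j - 2) := by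
  have hg := midA_gF hlt
  obtain ⟨hD0, hD1⟩ := midA_D h hn (j := j) (by omega) (by omega) (by omega)
  have hk := kap h (j := j) (by omega) (by omega) (by omega)
  have hF2' : 10000 * (F : ℝ) ≤ 3614 * n + 10000 := by exact_mod_cast hF2
  have hn' : (1500 : ℝ) ≤ n := by exact_mod_cast hn
  obtain ⟨m, hm⟩ : ∃ m : ℝ, m = (j : ℝ) - F := ⟨_, rfl⟩
  have hm1 : 1 ≤ m := by
    have : (F : ℝ) + 1 ≤ j := by exact_mod_cast h1
    linarith
  have hm2 : m ≤ 10 := by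
    have : (j : ℝ) ≤ F + 10 := by exact_mod_cast h2
    linarith
  have hjm : (j : ℝ) = F + m := by linarith
  have hfin : 63 / 10 * m * ((2 * (n : ℝ) + 3 - 3 * j) +
      ((j : ℝ) - 1) * ((n : ℝ) - j + 1) / j * yy P (j - 1)) ≤
      3 * (3 * (j : ℝ) - n) * (2 * (n : ℝ) + 3 - 3 * j) - ((j : ℝ) - 1) * ((n : ℝ) - j) := by
    have e1 := mul_le_mul_of_nonneg_left hD1 (by linarith : 0 ≤ 63 / 10 * m)
    refine e1.trans ?_
    rw [hjm]
    nlinarith [mul_nonneg (by linarith : 0 ≤ m) (by linarith : 0 ≤ 3614 * (n : ℝ) + 10000 - 10000 * F),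
      mul_nonneg (by linarith : 0 ≤ m) (by linarith : 0 ≤ 10 - m),
      mul_nonneg (by linarith : 0 ≤ m) (by linarith : 0 ≤ (n : ℝ) - 1500)]
  have hle := hfin.trans hk
  rw [← hm]
  exact le_of_mul_le_mul_right hle hD0

theorem kappa_60 (h : Sys n P E d) (hn : 1500 ≤ n) {F : ℕ} (hF1 : 3612 * n ≤ 10000 * F)
    (hF2 : 10000 * F ≤ 3614 * n + 10000)
    (hlt : 26 * F ^ 2 + 6 * n ^ 2 + 18 * n < 26 * n * F + 52 * F) {j : ℕ} (h1 : F + 10 ≤ j)
    (h2 : 2 * j ≤ n) :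
    60 ≤ 3 * (3 * (j : ℝ) - n) - 6 * ((n : ℝ) + 2 - j) * yy P (j - 1) * yy P (j - 2) := by
  have hg := midA_gF hlt
  obtain ⟨hD0, hD1⟩ := midA_D h hn (j := j) (by omega) (by omega) (by omega)
  have hk := kap h (j := j) (by omega) (by omega) (by omega)
  have hF2' : 10000 * (F : ℝ) ≤ 3614 * n + 10000 := by exact_mod_cast hF2
  have hn' : (1500 : ℝ) ≤ n := by exact_mod_cast hn
  obtain ⟨m, hm⟩ : ∃ m : ℝ, m = (j : ℝ) - F := ⟨_, rfl⟩
  have hm1 : 10 ≤ m := by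
    have : (F : ℝ) + 10 ≤ j := by exact_mod_cast h1
    linarith
  have hjm : (j : ℝ) = F + m := by linarith
  have hm2 : 2 * ((F : ℝ) + m) ≤ n := by
    rw [← hjm]
    exact_mod_cast h2
  have hfin : 60 * ((2 * (n : ℝ) + 3 - 3 * j) +
      ((j : ℝ) - 1) * ((n : ℝ) - j + 1) / j * yy P (j - 1)) ≤
      3 * (3 * (j : ℝ) - n) * (2 * (n : ℝ) + 3 - 3 * j) - ((j : ℝ) - 1) * ((n : ℝ) - j) := by
    have e1 := mul_le_mul_of_nonneg_left hD1 (by norm_num : (0 : ℝ) ≤ 60)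
    refine e1.trans ?_
    rw [hjm]
    have e2 : 0 ≤ (m - 10) * ((n : ℝ) - 2 * F - m - 9) :=
      mul_nonneg (by linarith) (by linarith)
    nlinarith [e2]
  have hle := hfin.trans hk
  exact le_of_mul_le_mul_right hle hD0

theorem mid_hK (h : Sys n P E d) (hn : 1500 ≤ n) {F J : ℕ} (hF1 : 3612 * n ≤ 10000 * F)
    (hF2 : 10000 * F ≤ 3614 * n + 10000)
    (hlt : 26 * F ^ 2 + 6 * n ^ 2 + 18 * n < 26 * n * F + 52 * F)
    (hKJ : ∀ j, n ≤ 2 * j + 1 → j ≤ J →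
      2 * ((n : ℝ) + 2 - j) * P (j - 2) ≤ (3 * (j : ℝ) - n) * P j)
    {j : ℕ} (h1 : F < j) (h2 : j ≤ J) :
    2 * ((n : ℝ) + 2 - j) * P (j - 2) ≤ (3 * (j : ℝ) - n) * P j := by
  rcases Nat.lt_or_ge (2 * j + 1) n with h3 | h3
  · have hk : 0 ≤ 3 * (3 * (j : ℝ) - n) - 6 * ((n : ℝ) + 2 - j) * yy P (j - 1) * yy P (j - 2) := by
      rcases Nat.lt_or_ge (F + 10) j with h4 | h4
      · have := kappa_60 h hn hF1 hF2 hlt (j := j) (by omega) (by omega)
        linarith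
      · have h5 := kappa_lb h hn hF1 hF2 hlt h1 h4
        have : (F : ℝ) ≤ j := by exact_mod_cast h1.le
        linarith
    have hP := kap_P h (j := j) (by omega) (by omega)
    have hPj := h.P_pos j (by omega)
    rw [hP]
    have := mul_nonneg hk hPj.le
    linarith
  · exact hKJ j h3 h2

/-- Sum of several steps. -/
private theorem midA_tel (h : Sys n P E d) (hn : 1500 ≤ n) {p : ℕ} (h1 : 359 * n ≤ 1000 * (p + 1)) (k : ℕ)
    (h2 : 10000 * (p + k) ≤ 3685 * n) :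
    yy P (p + k) - yy P p ≤ (k : ℝ) * (33 / (20 * (n : ℝ))) := by
  induction k with
  | zero => simp
  | succ k ih =>
    have h3 := ih (by omega)
    have h4 := step_lo2 h hn (i := p + k + 1) (by omega) (by omega)
    rw [Nat.add_sub_cancel] at h4
    rw [← add_assoc]
    push_cast
    linarith

/-- `P_j` and `P_{j-1}` in terms of `P_{j+1}`. -/
private theorem midA_P (h : Sys n P E d) {j : ℕ} (h1 : 1 ≤ j) (hj : j < n) :
    P j = yy P j * P (j + 1) ∧ P (j - 1) = yy P (j - 1) * (yy P j * P (j + 1)) := by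
  have e1 : P j = yy P j * P (j + 1) := by
    unfold yy
    rw [div_mul_cancel₀ _ (h.P_pos (j + 1) hj).ne']
  refine ⟨e1, ?_⟩
  have e2 : P (j - 1) = yy P (j - 1) * P j := by
    unfold yy
    rw [Nat.sub_add_cancel h1, div_mul_cancel₀ _ (h.P_pos j hj.le).ne']
  rw [← e1, ← e2]

/-- Reduction of the inequality to one for the ratios. -/
private theorem midA_red (h : Sys n P E d) {j : ℕ} (h1 : 2 ≤ j) (hj : j < n) {a b : ℝ}
    (H : (j : ℝ) * yy P j ≤ a * (((j : ℝ) + 1) +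
      yy P j * (3 * (3 * (j : ℝ) - n) - 6 * b * ((n : ℝ) + 1 - j) * yy P (j - 1)))) :
    (j : ℝ) * P j ≤ a * (bb n P j - b * cc n P (j + 1)) := by
  obtain ⟨e1, e2⟩ := midA_P h (j := j) (by omega) hj
  have hQ := h.P_pos (j + 1) hj
  have e3 : cc n P (j + 1) = 6 * ((n : ℝ) + 1 - j) * P (j - 1) := by
    unfold cc
    have : j + 1 - 2 = j - 1 := by omega
    rw [this]
    push_cast
    ring
  rw [e3]
  unfold bb
  rw [e2, e1]
  have := mul_le_mul_of_nonneg_right H hQ.le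
  linarith

theorem sup_ha (h : Sys n P E d) (hn : 1500 ≤ n) {F : ℕ} (hF1 : 3612 * n ≤ 10000 * F)
    (hF2 : 10000 * F ≤ 3614 * n + 10000)
    (hlt : 26 * F ^ 2 + 6 * n ^ 2 + 18 * n < 26 * n * F + 52 * F) {j : ℕ} (h1 : F < j)
    (h2 : j ≤ F + 9) :
    (j : ℝ) * P j ≤ yy P (F + 4) * (bb n P j - yy P (F + 4) * cc n P (j + 1)) := by
  apply midA_red h (by omega) (by omega)
  have hk := kappa_lb h hn hF1 hF2 hlt h1 (by omega)
  have hF2' : 10000 * (F : ℝ) ≤ 3614 * n + 10000 := by exact_mod_cast hF2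
  have hF1' : 3612 * (n : ℝ) ≤ 10000 * F := by exact_mod_cast hF1
  have hn' : (1500 : ℝ) ≤ n := by exact_mod_cast hn
  have hj1 : (F : ℝ) + 1 ≤ j := by exact_mod_cast h1
  have hj2 : (j : ℝ) ≤ F + 9 := by exact_mod_cast h2
  have ha1 := y_lo2 h hn (j := F + 4) (by omega) (by omega)
  have ha2 := y_up1 h hn (j := F + 4) (by omega)
  have hy1 := y_lo2 h hn (j := j) (by omega) (by omega)
  have hy2 := y_up1 h hn (j := j) (by omega)
  have hw0 := y_pos h (j := j - 1) (by omega)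
  have hw2 := y_up1 h hn (j := j - 1) (by omega)
  have hv0 := y_pos h (j := j - 2) (by omega)
  -- claim A
  have hA : ∃ α : ℝ, (j : ℝ) * (yy P j - yy P (F + 4)) ≤ 61 / 100 * α ∧ 0 ≤ α ∧
      (α = 0 ∨ α = (j : ℝ) - F - 4) ∧ (j ≤ F + 4 → α = 0) := by
    rcases Nat.lt_or_ge (F + 4) j with h3 | h3
    · refine ⟨(j : ℝ) - F - 4, ?_, ?_, Or.inr rfl, fun h4 => absurd h4 (by omega)⟩
      · have h4 := midA_tel h hn (p := F + 4) (by omega) (j - (F + 4)) (by omega)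
        have h5 : F + 4 + (j - (F + 4)) = j := by omega
        rw [h5, Nat.cast_sub (by omega : F + 4 ≤ j)] at h4
        push_cast at h4
        have h6 := mul_le_mul_of_nonneg_left h4 (by linarith : 0 ≤ (j : ℝ))
        refine h6.trans ?_
        have h7 : (j : ℝ) * (33 / (20 * (n : ℝ))) ≤ 61 / 100 := by
          rw [mul_div_assoc', div_le_iff₀ (by linarith)]
          linarith
        have h8 : 0 ≤ (j : ℝ) - (F + 4) := by
          have : (F : ℝ) + 4 ≤ j := by exact_mod_cast h3.le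
          linarith
        have h9 := mul_le_mul_of_nonneg_left h7 h8
        linarith
      · have : (F : ℝ) + 4 ≤ j := by exact_mod_cast h3.le
        linarith
    · refine ⟨0, ?_, le_rfl, Or.inl rfl, fun _ => rfl⟩
      have h4 := y_mono h h3 (by omega)
      have h5 := mul_nonneg (by linarith : 0 ≤ (j : ℝ)) (by linarith : 0 ≤ yy P (F + 4) - yy P j)
      linarith
  -- claim B
  have hB : ∃ β : ℝ, -(172 / 100 * β) ≤ 6 * yy P (j - 1) * ((n : ℝ) + 1 - j) * (yy P (j - 2) - yy P (F + 4)) ∧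
      0 ≤ β ∧ (F + 6 ≤ j → β = 0) ∧ (j < F + 6 → β = 6 - ((j : ℝ) - F)) := by
    have hN1 : 0 ≤ (n : ℝ) + 1 - j := by linarith
    rcases Nat.lt_or_ge j (F + 6) with h3 | h3
    · refine ⟨6 - ((j : ℝ) - F), ?_, ?_, fun h4 => absurd h4 (by omega), fun _ => rfl⟩
      · have h4 := midA_tel h hn (p := j - 2) (by omega) (F + 4 - (j - 2)) (by omega)
        have h5 : j - 2 + (F + 4 - (j - 2)) = F + 4 := by omega
        have h5' : F + 4 - (j - 2) = F + 6 - j := by omega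
        rw [h5, h5', Nat.cast_sub (by omega : j ≤ F + 6)] at h4
        push_cast at h4
        have hβ : 0 ≤ (F : ℝ) + 6 - j := by
          have : (j : ℝ) ≤ F + 6 := by exact_mod_cast h3.le
          linarith
        have hN2 : ((n : ℝ) + 1 - j) * (33 / (20 * (n : ℝ))) ≤ 1055 / 1000 := by
          rw [mul_div_assoc', div_le_iff₀ (by linarith)]
          linarith
        have h6 := mul_le_mul_of_nonneg_left h4 (mul_nonneg (mul_nonneg (by norm_num : (0 : ℝ) ≤ 6) hw0.le) hN1)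
        have h7 : 6 * yy P (j - 1) * ((n : ℝ) + 1 - j) * (((F : ℝ) + 6 - j) * (33 / (20 * (n : ℝ)))) =
            6 * yy P (j - 1) * (((F : ℝ) + 6 - j) * (((n : ℝ) + 1 - j) * (33 / (20 * (n : ℝ))))) := by ring
        rw [h7] at h6
        have h8 := mul_le_mul_of_nonneg_left hN2 hβ
        have h9 := mul_le_mul_of_nonneg_left h8 (by linarith : 0 ≤ 6 * yy P (j - 1))
        have h10 := mul_le_mul_of_nonneg_right hw2 (by linarith : 0 ≤ 6 * (((F : ℝ) + 6 - j) * (1055 / 1000)))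
        linarith
      · have : (j : ℝ) ≤ F + 6 := by exact_mod_cast h3.le
        linarith
    · refine ⟨0, ?_, le_rfl, fun _ => rfl, fun h4 => absurd h4 (by omega)⟩
      have h4 := y_mono h (show F + 4 ≤ j - 2 by omega) (by omega)
      have h5 := mul_nonneg (mul_nonneg (mul_nonneg (by norm_num : (0 : ℝ) ≤ 6) hw0.le) hN1)
        (by linarith : 0 ≤ yy P (j - 2) - yy P (F + 4))
      linarith
  obtain ⟨α, hα1, hα0, hα2, hα3⟩ := hA
  obtain ⟨β, hβ1, hβ0, hβ2, hβ3⟩ := hB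
  generalize yy P (F + 4) = a at *
  generalize yy P j = y at *
  generalize yy P (j - 1) = w at *
  generalize yy P (j - 2) = v at *
  -- the bracket
  obtain ⟨κ, hκ⟩ : ∃ κ : ℝ, κ = 3 * (3 * (j : ℝ) - n) - 6 * ((n : ℝ) + 2 - j) * w * v := ⟨_, rfl⟩
  rw [← hκ] at hk
  have hbr : κ - 172 / 100 * β ≤ 3 * (3 * (j : ℝ) - n) - 6 * a * ((n : ℝ) + 1 - j) * w := by
    have : 0 ≤ 6 * (w * v) := mul_nonneg (by norm_num) (mul_nonneg hw0.le hv0.le)
    nlinarith [hβ1, this]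
  have ha0 : 0 < a := by linarith
  have hy0 : 0 < y := by linarith
  have hay0 : 0 < a * y := mul_pos ha0 hy0
  have hay1 : 1 / 16 ≤ a * y := by
    have := mul_le_mul ha1.le hy1.le (by norm_num : (0 : ℝ) ≤ 1 / 4) ha0.le
    linarith
  have hay2 : a * y ≤ 729 / 10000 := by
    have := mul_le_mul ha2 hy2 hy0.le (by norm_num : (0 : ℝ) ≤ 27 / 100)
    linarith
  have hb2 := mul_le_mul_of_nonneg_left hbr hay0.le
  suffices hs : 61 / 100 * α ≤ a + a * y * (κ - 172 / 100 * β) by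
    nlinarith [hs, hb2, hα1]
  have hm : (j : ℝ) - F = ((j - F : ℕ) : ℝ) := by rw [Nat.cast_sub h1.le]
  rw [hm] at hk
  have hcase : ∀ c : ℝ, 0 ≤ c → c ≤ κ - 172 / 100 * β → 61 / 100 * α ≤ 1 / 4 + 1 / 16 * c →
      61 / 100 * α ≤ a + a * y * (κ - 172 / 100 * β) := by
    intro c hc0 hc1 hc2
    have e1 := mul_le_mul_of_nonneg_left hc1 hay0.le
    have e2 := mul_le_mul_of_nonneg_right hay1 hc0
    linarith
  have hα4 : F + 4 < j → α ≤ (j : ℝ) - F - 4 := by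
    intro h5
    have h6 : (F : ℝ) + 4 < j := by exact_mod_cast h5
    rcases hα2 with h7 | h7
    · rw [h7]; linarith
    · exact h7.le
  rcases Nat.lt_or_ge j (F + 2) with h3 | h3
  · -- `m = 1`
    have hjF : j = F + 1 := by omega
    have hα5 := hα3 (by omega)
    have hβ5 := hβ3 (by omega)
    have hjr : (j : ℝ) = F + 1 := by rw [hjF]; push_cast; ring
    have hmr : ((j - F : ℕ) : ℝ) = 1 := by
      have : j - F = 1 := by omega
      rw [this, Nat.cast_one]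
    rw [hmr] at hk
    rw [hjr] at hβ5
    have hK : -(23 / 10) ≤ κ - 172 / 100 * β := by rw [hβ5]; linarith
    have e1 := mul_le_mul_of_nonneg_left hK hay0.le
    rw [hα5]
    linarith
  · rcases Nat.lt_or_ge (F + 4) j with h5 | h5
    · have h6 := hα4 h5
      rw [← hm] at hk
      have h6' : (F : ℝ) + 5 ≤ j := by exact_mod_cast h5
      rcases Nat.lt_or_ge j (F + 6) with h7 | h7
      · have hβ5 := hβ3 h7
        refine hcase (κ - 172 / 100 * β) ?_ le_rfl ?_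
        · rw [hβ5]; linarith
        · rw [hβ5]; linarith
      · have hβ5 := hβ2 h7
        refine hcase (κ - 172 / 100 * β) ?_ le_rfl ?_
        · rw [hβ5]; linarith
        · rw [hβ5]; linarith
    · have hα5 := hα3 h5
      have hβ5 := hβ3 (by omega)
      have h3' : (F : ℝ) + 2 ≤ j := by exact_mod_cast h3
      rw [← hm] at hk
      refine hcase 0 le_rfl ?_ ?_
      · rw [hβ5]; linarith
      · rw [hα5]; norm_num

theorem m2_ha (h : Sys n P E d) (hn : 1500 ≤ n) {F : ℕ} (hF1 : 3612 * n ≤ 10000 * F)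
    (hF2 : 10000 * F ≤ 3614 * n + 10000)
    (hlt : 26 * F ^ 2 + 6 * n ^ 2 + 18 * n < 26 * n * F + 52 * F) {j : ℕ} (h1 : F + 10 ≤ j)
    (h2 : 2 * j ≤ n) :
    (j : ℝ) * P j ≤ yy P (j - 6) * (bb n P j - yy P (j - 5) * cc n P (j + 1)) := by
  apply midA_red h (by omega) (by omega)
  have hk := kappa_60 h hn hF1 hF2 hlt h1 h2
  have hn' : (1500 : ℝ) ≤ n := by exact_mod_cast hn
  have hj1 : (551 : ℝ) ≤ j := by
    have : 551 ≤ j := by omega
    exact_mod_cast this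
  have hj2 : 2 * (j : ℝ) ≤ n := by exact_mod_cast h2
  have hy1 := y_lo2 h hn (j := j) (by omega) (by omega)
  have hy2 := y_up2 h hn (j := j) h2
  have hw0 := y_pos h (j := j - 1) (by omega)
  have hv0 := y_pos h (j := j - 2) (by omega)
  have h60 := y_pos h (j := j - 6) (by omega)
  have hv5 := y_mono h (show j - 5 ≤ j - 2 by omega) (by omega)
  have h50 := y_pos h (j := j - 5) (by omega)
  -- one step
  have hstep : ∀ i, j - 5 ≤ i → i ≤ j → ((j : ℝ) - 5) * (yy P i - yy P (i - 1)) ≤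
      yy P j * (1 + 436 / 100 * yy P j) := by
    intro i hi1 hi2
    have hz := z_lo1 h hn (j := i - 1) (by omega) (by omega)
    have hc : ((i - 1 : ℕ) : ℝ) = (i : ℝ) - 1 := by
      rw [Nat.cast_sub (by omega : 1 ≤ i), Nat.cast_one]
    rw [hc] at hz
    have hinc := y_inc h (j := i) (by omega) (by omega) (ζ := 44 / 100) (by linarith)
    have m1 := y_mono h (show i - 1 ≤ i by omega) (by omega)
    have m2 := y_mono h hi2 (by omega)
    have p1 := y_pos h (j := i - 1) (by omega)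
    have p2 := y_pos h (j := i) (by omega)
    have hij : (j : ℝ) - 5 ≤ i := by
      have : j ≤ i + 5 := by omega
      have : (j : ℝ) ≤ i + 5 := by exact_mod_cast this
      linarith
    have e1 := mul_le_mul_of_nonneg_right hij (by linarith : 0 ≤ yy P i - yy P (i - 1))
    have e2 : yy P (i - 1) * (1 + (7 - 6 * (44 / 100)) * yy P i) ≤ yy P j * (1 + 436 / 100 * yy P j) := by
      apply mul_le_mul (m1.trans m2) _ (by nlinarith) (by linarith)
      linarith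
    linarith
  have s0 := hstep j (by omega) le_rfl
  have s1 := hstep (j - 1) (by omega) (by omega)
  have s2 := hstep (j - 2) (by omega) (by omega)
  have s3 := hstep (j - 3) (by omega) (by omega)
  have s4 := hstep (j - 4) (by omega) (by omega)
  have s5 := hstep (j - 5) (by omega) (by omega)
  have r1 : j - 1 - 1 = j - 2 := by omega
  have r2 : j - 2 - 1 = j - 3 := by omega
  have r3 : j - 3 - 1 = j - 4 := by omega
  have r4 : j - 4 - 1 = j - 5 := by omega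
  have r5 : j - 5 - 1 = j - 6 := by omega
  rw [r1] at s1
  rw [r2] at s2
  rw [r3] at s3
  rw [r4] at s4
  rw [r5] at s5
  have hsum : ((j : ℝ) - 5) * (yy P j - yy P (j - 6)) ≤ 6 * (yy P j * (1 + 436 / 100 * yy P j)) := by
    linarith
  have hmono := y_mono h (show j - 6 ≤ j by omega) (by omega)
  -- the bracket
  have hbr : 60 ≤ 3 * (3 * (j : ℝ) - n) - 6 * yy P (j - 5) * ((n : ℝ) + 1 - j) * yy P (j - 1) := by
    have hN1 : 0 ≤ (n : ℝ) + 1 - j := by linarith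
    have e1 := mul_nonneg (mul_nonneg hw0.le hN1) (by linarith : 0 ≤ yy P (j - 2) - yy P (j - 5))
    have e2 := mul_nonneg hw0.le hv0.le
    nlinarith [e1, e2, hk]
  generalize yy P (j - 6) = z at *
  generalize yy P (j - 5) = u at *
  generalize yy P j = y at *
  generalize yy P (j - 1) = w at *
  have hy0 : 0 < y := by linarith
  have hj5 : 546 ≤ (j : ℝ) - 5 := by linarith
  have hd0 : 0 ≤ y - z := by linarith
  have g1 : 546 * (y - z) ≤ 6 * (y * (1 + 436 / 100 * y)) :=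
    (mul_le_mul_of_nonneg_right hj5 hd0).trans hsum
  have g2 : y * (1 + 436 / 100 * y) ≤ y * (34 / 10) := mul_le_mul_of_nonneg_left (by linarith) hy0.le
  have g3 : 959 / 1000 * y ≤ z := by linarith
  have g4 : (j : ℝ) * (y - z) ≤ 606 / 100 * (y * (1 + 436 / 100 * y)) := by
    have : (j : ℝ) ≤ 101 / 100 * ((j : ℝ) - 5) := by linarith
    have e1 := mul_le_mul_of_nonneg_right this hd0
    linarith
  have g5 : 606 / 100 * (y * (1 + 436 / 100 * y)) ≤ 959 / 1000 * y * (1 + 60 * y) := by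
    have e1 : 606 / 100 * (1 + 436 / 100 * y) ≤ 959 / 1000 * (1 + 60 * y) := by linarith
    have e2 := mul_le_mul_of_nonneg_left e1 hy0.le
    linarith
  have g6 : 959 / 1000 * y * (1 + 60 * y) ≤ z * (1 + 60 * y) := mul_le_mul_of_nonneg_right g3 (by linarith)
  have g7 := mul_le_mul_of_nonneg_left hbr (mul_nonneg h60.le hy0.le)
  nlinarith [g4, g5, g6, g7]

theorem mid_ha (h : Sys n P E d) (hn : 1500 ≤ n) {F J : ℕ} (hF1 : 3612 * n ≤ 10000 * F)
    (hF2 : 10000 * F ≤ 3614 * n + 10000)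
    (hlt : 26 * F ^ 2 + 6 * n ^ 2 + 18 * n < 26 * n * F + 52 * F) (hJ2 : 20 * J ≤ 13 * n)
    {j : ℕ} (h1 : F < j) (h2 : j ≤ J) :
    (j : ℝ) * P j ≤ aA n F P (j - 1) *
      (bb n P j - min (aA n F P j * cc n P (j + 1)) (((j : ℝ) + 1) * P (j + 1))) := by
  have hn' : (1500 : ℝ) ≤ n := by exact_mod_cast hn
  have hPj := h.P_pos j (by omega)
  rcases Nat.lt_or_ge (F + 9) j with h3 | h3
  · rcases Nat.lt_or_ge n (2 * j) with h4 | h4
    · -- use the second term of the minimum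
      have h4' : (n : ℝ) < 2 * j := by exact_mod_cast h4
      have hmin : 3 * (3 * (j : ℝ) - n) * P j ≤
          bb n P j - min (aA n F P j * cc n P (j + 1)) (((j : ℝ) + 1) * P (j + 1)) := by
        have := min_le_right (aA n F P j * cc n P (j + 1)) (((j : ℝ) + 1) * P (j + 1))
        unfold bb
        linarith
      rcases Nat.lt_or_ge n (2 * (j - 1)) with h5 | h5
      · have ea : aA n F P (j - 1) = (j : ℝ) / (3 * (3 * (j : ℝ) - n)) := by
          unfold aA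
          rw [if_neg (by omega), if_neg (by omega), Nat.cast_sub (by omega : 1 ≤ j), Nat.cast_one]
          have e1 : (j : ℝ) - 1 + 1 = j := by ring
          have e2 : 3 * (3 * ((j : ℝ) - 1) + 3 - n) = 3 * (3 * (j : ℝ) - n) := by ring
          rw [e1, e2]
        rw [ea]
        have hpos : 0 < 3 * (3 * (j : ℝ) - n) := by linarith
        have hq : 0 ≤ (j : ℝ) / (3 * (3 * (j : ℝ) - n)) := div_nonneg (Nat.cast_nonneg j) hpos.le
        have e1 := mul_le_mul_of_nonneg_left hmin hq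
        have e2 : (j : ℝ) / (3 * (3 * (j : ℝ) - n)) * (3 * (3 * (j : ℝ) - n) * P j) = j * P j := by
          rw [← mul_assoc, div_mul_cancel₀ _ hpos.ne']
        rw [e2] at e1
        exact e1
      · have ea : aA n F P (j - 1) = yy P (j - 6) := by
          unfold aA
          rw [if_neg (by omega), if_pos h5]
          have : j - 1 - 5 = j - 6 := by omega
          rw [this]
        rw [ea]
        have hlo := y_lo4 h hn (j := j - 6) (by omega) (by omega)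
        have hpos : 0 ≤ 3 * (3 * (j : ℝ) - n) * P j := mul_nonneg (by linarith) hPj.le
        have e1 := mul_le_mul_of_nonneg_left hmin (by linarith : 0 ≤ yy P (j - 6))
        have e2 := mul_le_mul_of_nonneg_right hlo.le hpos
        have e3 : (j : ℝ) * P j ≤ 1 / 2 * (3 * (3 * (j : ℝ) - n) * P j) := by
          have : (j : ℝ) ≤ 1 / 2 * (3 * (3 * (j : ℝ) - n)) := by linarith
          have e4 := mul_le_mul_of_nonneg_right this hPj.le
          linarith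
        linarith
    · have ea : aA n F P (j - 1) = yy P (j - 6) := by
        unfold aA
        rw [if_neg (by omega), if_pos (by omega)]
        have : j - 1 - 5 = j - 6 := by omega
        rw [this]
      have eb : aA n F P j = yy P (j - 5) := by
        unfold aA
        rw [if_neg (by omega), if_pos h4]
      rw [ea, eb]
      have e1 := m2_ha h hn hF1 hF2 hlt (j := j) (by omega) h4
      have e2 := min_le_left (yy P (j - 5) * cc n P (j + 1)) (((j : ℝ) + 1) * P (j + 1))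
      have e3 := y_pos h (j := j - 6) (by omega)
      have e4 := mul_le_mul_of_nonneg_left (sub_le_sub_left e2 (bb n P j)) e3.le
      exact e1.trans e4
  · have ea : aA n F P (j - 1) = yy P (F + 4) := by
      unfold aA
      rw [if_pos (by omega)]
    have eb : aA n F P j = yy P (F + 4) := by
      unfold aA
      rcases Nat.lt_or_ge j (F + 9) with h4 | h4
      · rw [if_pos h4]
      · rw [if_neg (by omega), if_pos (by omega)]
        have : j - 5 = F + 4 := by omega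
        rw [this]
    rw [ea, eb]
    have e1 := sup_ha h hn hF1 hF2 hlt h1 h3
    have e2 := min_le_left (yy P (F + 4) * cc n P (j + 1)) (((j : ℝ) + 1) * P (j + 1))
    have e3 := y_pos h (j := F + 4) (by omega)
    have e4 := mul_le_mul_of_nonneg_left (sub_le_sub_left e2 (bb n P j)) e3.le
    exact e1.trans e4

end

end Pool.Agent.Lib.MP_eeed5c_coC
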