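import Pool.Agent.Lib.MP_eeed5c_co_C.An1

/-!
# Middle part, large `n`: the conditions on `L`, `U`, `Y`, `W`

NOTATION. `y_j = yy P j`, `G_j = GA n P j`, `a_j = aA n F P j`, `c = 201/200`, `i = F + 9 - j` (natural
subtraction), `LA F j = c^(i(i-1)/2) - 1`. For `F ≤ j`: `32 n + 500 ≤ 100 j`.

PROOFS.
`aG_le` (`F ≤ j ≤ F + 9`): `a_j G_j ≤ c^(F+9-j)`: `GA_mid`: `G_j = 1/y_{j-5}`; `a_j = y_{F+4}` (also for
`j = F + 9`, where `2j ≤ n`). `step_lo` at `i = j-4, ..., F+4` (`355 n + 1000 ≤ 1000 (F-4)`,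
`10000 (F+4) ≤ 3685 n`): `y_{F+4} ≤ c^(F+9-j) y_{j-5}`.
`aG_one` (`F + 9 ≤ j`, `2j ≤ n`): `a_j = y_{j-5}`, `G_j = 1/y_{j-5}` (`j - 5 ≤ 33n/50`), `a_j G_j = 1`.
`aG_hi` (`n < 2j`, `j ≤ J`): `a_j G_j = (j+1)/(3(3j+3-n)) * (1/y_{j-5})` (`j - 5 ≤ 33n/50`), `y_{j-5} ≥ 1/2`
(`y_lo4`, `1000 (j-5) ≥ 495 n`), so `0 ≤ a_j G_j ≤ 2(j+1)/(3(3j+3-n)) ≤ 1` (`3n ≤ 7(j+1)`); for `j = J`
even `(9/5) a_J G_J ≤ 3.6 (J+1)/(3(3J+3-n)) ≤ 1`: `3n ≤ 5.4 (J+1)` (`5.4 * .638 = 3.445`).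
`mid_hL` (`F < j ≤ J`): `a_j G_j UA F J j ≤ 1 + LA F (j-1)`. For `j ≤ F+8` (so `j ≠ J`) with
`i = F+9-j ≥ 1`: `c^i * c^(i(i-1)/2) = c^((i+1)i/2)` and `F + 9 - (j-1) = i+1`, `i(i-1)/2 + i = (i+1)i/2`. For
`F+9 ≤ j`: `LA F j = 0` (`i = 0`), `LA F (j-1) = 0` (`i+1 ≤ 1`), `UA F J j = 1` or `9/5` if `j = J`;
`aG_one`, `aG_hi`.
`mid_hU` (`F < j ≤ J`): `1 + a_j G_j LA F j ≤ UA F J (j-1)`, `UA F J (j-1) = 1 + LA F (j-1)` (`j-1 ≠ J`):
for `j ≤ F+8`: `1 + c^i (c^(i(i-1)/2) - 1) ≤ c^(i(i+1)/2)`, as `c^i ≥ 1`; otherwise `LA F j = 0`.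
`sumL`: `∑ k ∈ Ico F j, LA F k ≤ 16/25` for every `j`: `LA F k = 0` for `k ≥ F + 8` and `LA ≥ 0`, so the sum
is at most `∑ i ∈ {2, ..., 9}, (c^(i(i-1)/2) - 1)`, exponents `1, 3, 6, 10, 15, 21, 28, 36`:
`= .0050 + .0151 + .0304 + .0512 + .0777 + .1104 + .1499 + .1967 < .64` (`norm_num`).
`mid_hY0`: `YA F j ≥ 7/5 (1 - 16/25) ≥ 0`.
`aW_le` (`F ≤ j ≤ F + 7`): `a_j WA n F P (j+1) ≤ 7/5`. `WA n F P (j+1) = P_F/P_{j+1} * ∏ i ∈ Ico (F-1) (j+1), G_i
= G_{F-1} ∏ i ∈ Ico F (j+1), (y_i G_i)` (`P_F/P_{j+1} = ∏ i ∈ Ico F (j+1), y_i`, induction on `j`),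
`G_{F-1} = 1/y_{F-6}`, `y_i G_i = y_i/y_{i-5} ≤ c^5` (`step_lo`), `a_j = y_{F+4}`,
`y_{F+4}/y_{F-6} ≤ c^10`; in total `≤ c^(10 + 5(j+1-F)) ≤ c^50 ≤ 1.29 ≤ 7/5`. (`step_lo` is used for the
indices `F-5, ..., F+7`: `355 n + 1000 ≤ 1000 (F-5)`, because `.0062 n ≥ 6`.)
`mid_hY` (`F ≤ j ≤ J`): `YA F (j+1) + LA F j a_j WA (j+1) ≤ min (YA F j) (YA F (j-1))`:
`YA F (j+1) = YA F j - (7/5) LA F j` (`F ≤ j`), `YA F j ≤ YA F (j-1)` (`LA ≥ 0`), and
`LA F j (a_j W_{j+1} - 7/5) ≤ 0` (`aW_le` if `j ≤ F+7`, `LA F j = 0` if `F + 8 ≤ j`).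
`mid_hW0`: `WA n F P (F-1) = P_F/P_{F-1}` (empty product). `mid_hW`: `P_{j+1} > 0`, `P_j > 0`,
`G_j * (P_F/P_j * ∏_{Ico (F-1) j} G) * P_j = P_F ∏_{Ico (F-1) (j+1)} G` (`Finset.prod_Ico_succ_top`).
-/

set_option autoImplicit false

namespace Pool.Agent.Lib.MP_eeed5c_coC

section

variable {n : ℕ} {P E d : ℕ → ℝ}

theorem LA_nonneg (F j : ℕ) : 0 ≤ LA F j := by
  unfold LA
  have h := one_le_pow₀ (show (1 : ℝ) ≤ 201 / 200 by norm_num) (n := (F + 9 - j) * (F + 9 - j - 1) / 2)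
  linarith

private theorem midB_tri (i : ℕ) : (i + 1) * (i + 1 - 1) / 2 = i + i * (i - 1) / 2 := by
  rw [Nat.add_sub_cancel]
  rcases i with _ | i
  · rfl
  · rw [Nat.add_sub_cancel]
    have h : (i + 1 + 1) * (i + 1) = 2 * (i + 1) + (i + 1) * i := by ring
    rw [h, Nat.mul_add_div (by norm_num)]

private theorem midB_LA' {F j i : ℕ} (hi : F + 9 - j = i) (h1 : 1 ≤ j) (hj : j ≤ F + 9) :
    1 + LA F (j - 1) = (201 / 200 : ℝ) ^ i * (1 + LA F j) := by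
  unfold LA
  have e : F + 9 - (j - 1) = i + 1 := by omega
  rw [e, hi, midB_tri, pow_add]
  ring

private theorem midB_LA0 {F j : ℕ} (hj : F + 8 ≤ j) : LA F j = 0 := by
  unfold LA
  have e : (F + 9 - j) * (F + 9 - j - 1) / 2 = 0 := by
    have h1 : F + 9 - j = 0 ∨ F + 9 - j = 1 := by omega
    rcases h1 with h | h <;> rw [h]
  rw [e, pow_zero, sub_self]

private theorem midB_chain (h : Sys n P E d) (hn : 1500 ≤ n) {i : ℕ} (h1 : 355 * n ≤ 1000 * i) (k : ℕ)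
    (h2 : 10000 * (i + k) ≤ 3685 * n) : yy P (i + k) ≤ (201 / 200) ^ k * yy P i := by
  induction k with
  | zero => rw [pow_zero, one_mul, Nat.add_zero]
  | succ k ih =>
    have h3 := ih (by omega)
    have h4 := step_lo h hn (i := i + (k + 1)) (by omega) h2
    have e : i + (k + 1) - 1 = i + k := by omega
    rw [e] at h4
    have h5 : (201 / 200 : ℝ) * yy P (i + k) ≤ 201 / 200 * ((201 / 200) ^ k * yy P i) :=
      mul_le_mul_of_nonneg_left h3 (by norm_num)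
    calc yy P (i + (k + 1)) ≤ 201 / 200 * yy P (i + k) := h4
      _ ≤ 201 / 200 * ((201 / 200) ^ k * yy P i) := h5
      _ = (201 / 200) ^ (k + 1) * yy P i := by ring

private theorem midB_GA {j : ℕ} (h1 : 32 * n + 500 ≤ 100 * j) (h2 : 20 * j ≤ 13 * n) :
    GA n P j = 1 / yy P (j - 5) := by
  rw [GA_mid h1 (by omega), min_eq_left (by omega)]

private theorem midB_aG_nonneg (h : Sys n P E d) (hn : 1500 ≤ n) {F J : ℕ} (hF1 : 3612 * n ≤ 10000 * F)
    (hF2 : 10000 * F ≤ 3614 * n + 10000) (hJ2 : 20 * J ≤ 13 * n)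
    {j : ℕ} (h1 : F ≤ j) (h2 : j ≤ J) : 0 ≤ aA n F P j * GA n P j := by
  rw [midB_GA (by omega) (by omega)]
  have h3 := y_pos h (show j - 5 < n by omega)
  refine mul_nonneg ?_ (by positivity)
  unfold aA
  split_ifs with h4 h5
  · exact (y_pos h (show F + 4 < n by omega)).le
  · exact h3.le
  · have h6 : (n : ℝ) ≤ 2 * j := by
      have : n ≤ 2 * j := by omega
      exact_mod_cast this
    have h7 : (0 : ℝ) ≤ j := Nat.cast_nonneg j
    exact div_nonneg (by linarith) (by linarith)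

private theorem midB_aG_le (h : Sys n P E d) (hn : 1500 ≤ n) {F : ℕ} (hF1 : 3612 * n ≤ 10000 * F)
    (hF2 : 10000 * F ≤ 3614 * n + 10000) {j : ℕ} (h1 : F ≤ j) (h2 : j ≤ F + 9) :
    aA n F P j * GA n P j ≤ (201 / 200) ^ (F + 9 - j) := by
  rw [midB_GA (by omega) (by omega)]
  have h3 := y_pos h (show j - 5 < n by omega)
  have ha : aA n F P j = yy P (F + 4) := by
    unfold aA
    by_cases h4 : j < F + 9
    · rw [if_pos h4]
    · have h5 : j = F + 9 := by omega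
      rw [if_neg h4, if_pos (by omega), h5]
      rfl
  rw [ha, mul_one_div, div_le_iff₀ h3]
  have h6 := midB_chain h hn (i := j - 5) (by omega) (F + 9 - j) (by omega)
  have e : j - 5 + (F + 9 - j) = F + 4 := by omega
  rw [e] at h6
  exact h6

private theorem midB_aG_one (h : Sys n P E d) {F : ℕ} (hn : 1500 ≤ n) (hF1 : 3612 * n ≤ 10000 * F)
    {j : ℕ} (h1 : F + 9 ≤ j) (h2 : 2 * j ≤ n) : aA n F P j * GA n P j = 1 := by
  rw [midB_GA (by omega) (by omega)]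
  have h3 := y_pos h (show j - 5 < n by omega)
  unfold aA
  rw [if_neg (by omega), if_pos h2, mul_one_div, div_self h3.ne']

private theorem midB_aG_hi (h : Sys n P E d) (hn : 1500 ≤ n) {F J : ℕ} (hF1 : 3612 * n ≤ 10000 * F)
    (hF2 : 10000 * F ≤ 3614 * n + 10000) (hJ2 : 20 * J ≤ 13 * n)
    {j : ℕ} (h1 : n < 2 * j) (h2 : j ≤ J) :
    aA n F P j * GA n P j * (3 * (3 * (j : ℝ) + 3 - n)) ≤ 2 * ((j : ℝ) + 1) := by
  rw [midB_GA (by omega) (by omega)]
  have h3 := y_lo4 h hn (j := j - 5) (by omega) (by omega)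
  have h4 : (n : ℝ) < 2 * j := by exact_mod_cast h1
  have h5 : (0 : ℝ) ≤ j := Nat.cast_nonneg j
  have h6 : 0 < 3 * (3 * (j : ℝ) + 3 - n) := by linarith
  unfold aA
  rw [if_neg (by omega), if_neg (by omega)]
  have h7 : 1 / yy P (j - 5) ≤ 2 := by
    rw [div_le_iff₀ (by linarith)]
    linarith
  have e : ((j : ℝ) + 1) / (3 * (3 * (j : ℝ) + 3 - n)) * (1 / yy P (j - 5)) * (3 * (3 * (j : ℝ) + 3 - n)) =
      ((j : ℝ) + 1) * (1 / yy P (j - 5)) := by
    rw [mul_right_comm, div_mul_cancel₀ _ h6.ne']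
  rw [e]
  nlinarith

theorem mid_hL (h : Sys n P E d) (hn : 1500 ≤ n) {F J : ℕ} (hF1 : 3612 * n ≤ 10000 * F)
    (hF2 : 10000 * F ≤ 3614 * n + 10000) (hJ1 : 638 * n < 1000 * (J + 1)) (hJ2 : 20 * J ≤ 13 * n)
    {j : ℕ} (h1 : F < j) (h2 : j ≤ J) :
    aA n F P j * GA n P j * UA F J j ≤ 1 + LA F (j - 1) := by
  by_cases h3 : j ≤ F + 8
  · unfold UA
    rw [if_neg (by omega), midB_LA' (i := F + 9 - j) rfl (by omega) (by omega)]
    have h4 := LA_nonneg F j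
    exact mul_le_mul_of_nonneg_right (midB_aG_le h hn hF1 hF2 h1.le (by omega)) (by linarith)
  · have h4 : 0 ≤ LA F (j - 1) := LA_nonneg _ _
    by_cases h5 : 2 * j ≤ n
    · rw [midB_aG_one h hn hF1 (by omega) h5, one_mul]
      unfold UA
      rw [if_neg (by omega), midB_LA0 (by omega)]
      linarith
    · have h6 := midB_aG_hi h hn hF1 hF2 hJ2 (j := j) (by omega) h2
      have h7 := midB_aG_nonneg h hn hF1 hF2 hJ2 h1.le h2
      have h8 : (n : ℝ) < 2 * j := by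
        have : n < 2 * j := by omega
        exact_mod_cast this
      have h9 : 0 < 3 * (3 * (j : ℝ) + 3 - n) := by linarith [(Nat.cast_nonneg j : (0 : ℝ) ≤ j)]
      obtain ⟨X, hX⟩ : ∃ X, X = aA n F P j * GA n P j := ⟨_, rfl⟩
      rw [← hX] at h6 h7 ⊢
      unfold UA
      by_cases h10 : j = J
      · rw [if_pos h10]
        have h11 : 638 * (n : ℝ) < 1000 * ((j : ℝ) + 1) := by
          rw [h10]
          exact_mod_cast hJ1
        have h12 : X * (9 / 5) ≤ 1 := by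
          by_contra hcon
          push Not at hcon
          have h13 : 5 / 9 < X := by linarith
          have h14 : 5 / 9 * (3 * (3 * (j : ℝ) + 3 - n)) < X * (3 * (3 * (j : ℝ) + 3 - n)) :=
            mul_lt_mul_of_pos_right h13 h9
          linarith
        linarith
      · rw [if_neg h10, midB_LA0 (by omega)]
        have h12 : X ≤ 1 := by
          by_contra hcon
          push Not at hcon
          have h14 : 1 * (3 * (3 * (j : ℝ) + 3 - n)) < X * (3 * (3 * (j : ℝ) + 3 - n)) :=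
            mul_lt_mul_of_pos_right hcon h9
          linarith
        linarith

theorem mid_hU (h : Sys n P E d) (hn : 1500 ≤ n) {F J : ℕ} (hF1 : 3612 * n ≤ 10000 * F)
    (hF2 : 10000 * F ≤ 3614 * n + 10000) (hJ1 : 638 * n < 1000 * (J + 1)) (hJ2 : 20 * J ≤ 13 * n)
    {j : ℕ} (h1 : F < j) (h2 : j ≤ J) :
    1 + aA n F P j * GA n P j * LA F j ≤ UA F J (j - 1) := by
  have e : UA F J (j - 1) = 1 + LA F (j - 1) := by
    unfold UA
    rw [if_neg (by omega)]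
  rw [e]
  by_cases h3 : j ≤ F + 8
  · rw [midB_LA' (i := F + 9 - j) rfl (by omega) (by omega)]
    have h4 := LA_nonneg F j
    have h5 := mul_le_mul_of_nonneg_right (midB_aG_le h hn hF1 hF2 h1.le (by omega)) h4
    have h6 := one_le_pow₀ (show (1 : ℝ) ≤ 201 / 200 by norm_num) (n := F + 9 - j)
    linarith
  · rw [midB_LA0 (show F + 8 ≤ j by omega), mul_zero]
    have := LA_nonneg F (j - 1)
    linarith

private theorem midB_sum8 (F : ℕ) : ∑ k ∈ Finset.Ico F (F + 8), LA F k ≤ 16 / 25 := by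
  rw [Finset.sum_Ico_eq_sum_range, Nat.add_sub_cancel_left]
  have e : ∀ k, LA F (F + k) = (201 / 200) ^ ((9 - k) * (9 - k - 1) / 2) - 1 := by
    intro k
    unfold LA
    rw [Nat.add_sub_add_left]
  rw [Finset.sum_congr rfl fun k _ => e k]
  simp only [Finset.sum_range_succ, Finset.sum_range_zero]
  norm_num

private theorem midB_sumL (F j : ℕ) : ∑ k ∈ Finset.Ico F j, LA F k ≤ 16 / 25 := by
  refine le_trans ?_ (midB_sum8 F)
  have h1 : ∑ k ∈ Finset.Ico F j, LA F k ≤ ∑ k ∈ Finset.Ico F (max j (F + 8)), LA F k := by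
    refine Finset.sum_le_sum_of_subset_of_nonneg ?_ fun k _ _ => LA_nonneg F k
    exact Finset.Ico_subset_Ico_right (le_max_left _ _)
  refine h1.trans (le_of_eq ?_)
  symm
  refine Finset.sum_subset (Finset.Ico_subset_Ico_right (le_max_right _ _)) fun k hk hk' => ?_
  rw [Finset.mem_Ico] at hk hk'
  exact midB_LA0 (by omega)

theorem mid_hY0 (F j : ℕ) : 0 ≤ YA F j := by
  unfold YA
  have := midB_sumL F j
  linarith

private theorem midB_quot (h : Sys n P E d) {F : ℕ} {j : ℕ} (h1 : F ≤ j) (h2 : j ≤ n) :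
    P F / P j = ∏ i ∈ Finset.Ico F j, yy P i := by
  induction j, h1 using Nat.le_induction with
  | base =>
    rw [Finset.Ico_self, Finset.prod_empty, div_self (h.P_pos F h2).ne']
  | succ j hj ih =>
    rw [Finset.prod_Ico_succ_top hj, ← ih (by omega)]
    unfold yy
    have h3 := (h.P_pos j (by omega)).ne'
    have h4 := (h.P_pos (j + 1) h2).ne'
    field_simp

private theorem midB_aW_le (h : Sys n P E d) (hn : 1500 ≤ n) {F : ℕ} (hF1 : 3612 * n ≤ 10000 * F)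
    (hF2 : 10000 * F ≤ 3614 * n + 10000) {j : ℕ} (h1 : F ≤ j) (h2 : j ≤ F + 7) :
    aA n F P j * WA n F P (j + 1) ≤ 7 / 5 := by
  have hF : 1 ≤ F := by omega
  have ha : aA n F P j = yy P (F + 4) := by
    unfold aA
    rw [if_pos (by omega)]
  have e1 : ∏ i ∈ Finset.Ico (F - 1) (j + 1), GA n P i = GA n P (F - 1) * ∏ i ∈ Finset.Ico F (j + 1), GA n P i := by
    rw [Finset.prod_eq_prod_Ico_succ_bot (show F - 1 < j + 1 by omega), Nat.sub_add_cancel hF]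
  have e2 : WA n F P (j + 1) = GA n P (F - 1) * ∏ i ∈ Finset.Ico F (j + 1), (yy P i * GA n P i) := by
    unfold WA
    rw [midB_quot h (show F ≤ j + 1 by omega) (by omega), e1, Finset.prod_mul_distrib]
    ring
  have h4 : ∏ i ∈ Finset.Ico F (j + 1), (yy P i * GA n P i) ≤ ((201 / 200 : ℝ) ^ 5) ^ (j + 1 - F) := by
    rw [← Nat.card_Ico, ← Finset.prod_const]
    refine Finset.prod_le_prod (fun i hi => ?_) fun i hi => ?_
    · rw [Finset.mem_Ico] at hi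
      rw [midB_GA (by omega) (by omega)]
      have h5 := y_pos h (show i - 5 < n by omega)
      have h6 := y_pos h (show i < n by omega)
      positivity
    · rw [Finset.mem_Ico] at hi
      rw [midB_GA (by omega) (by omega)]
      have h5 := y_pos h (show i - 5 < n by omega)
      rw [mul_one_div, div_le_iff₀ h5]
      have h6 := midB_chain h hn (i := i - 5) (by omega) 5 (by omega)
      rw [show i - 5 + 5 = i by omega] at h6
      exact h6
  have h5 : ((201 / 200 : ℝ) ^ 5) ^ (j + 1 - F) ≤ ((201 / 200 : ℝ) ^ 5) ^ 8 :=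
    pow_le_pow_right₀ (one_le_pow₀ (by norm_num)) (by omega)
  have h6 : yy P (F + 4) * GA n P (F - 1) ≤ (201 / 200) ^ 10 := by
    rw [midB_GA (by omega) (by omega)]
    have h7 := y_pos h (show F - 1 - 5 < n by omega)
    rw [mul_one_div, div_le_iff₀ h7]
    have h8 := midB_chain h hn (i := F - 1 - 5) (by omega) 10 (by omega)
    rw [show F - 1 - 5 + 10 = F + 4 by omega] at h8
    exact h8
  have h7 : 0 ≤ ∏ i ∈ Finset.Ico F (j + 1), (yy P i * GA n P i) := by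
    refine Finset.prod_nonneg fun i hi => ?_
    rw [Finset.mem_Ico] at hi
    rw [midB_GA (by omega) (by omega)]
    have h5 := y_pos h (show i - 5 < n by omega)
    have h6 := y_pos h (show i < n by omega)
    positivity
  rw [ha, e2, ← mul_assoc]
  calc yy P (F + 4) * GA n P (F - 1) * ∏ i ∈ Finset.Ico F (j + 1), (yy P i * GA n P i)
      ≤ (201 / 200) ^ 10 * ((201 / 200 : ℝ) ^ 5) ^ 8 :=
        mul_le_mul h6 (h4.trans h5) h7 (by positivity)
    _ ≤ 7 / 5 := by norm_num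

theorem mid_hY (h : Sys n P E d) (hn : 1500 ≤ n) {F J : ℕ} (hF1 : 3612 * n ≤ 10000 * F)
    (hF2 : 10000 * F ≤ 3614 * n + 10000) (hJ1 : 638 * n < 1000 * (J + 1)) (hJ2 : 20 * J ≤ 13 * n)
    {j : ℕ} (h1 : F ≤ j) (h2 : j ≤ J) :
    YA F (j + 1) + LA F j * aA n F P j * WA n F P (j + 1) ≤ min (YA F j) (YA F (j - 1)) := by
  have h3 : YA F (j + 1) = YA F j - 7 / 5 * LA F j := by
    unfold YA
    rw [Finset.sum_Ico_succ_top h1]
    ring
  have h4 : YA F j ≤ YA F (j - 1) := by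
    unfold YA
    have h5 : ∑ i ∈ Finset.Ico F (j - 1), LA F i ≤ ∑ i ∈ Finset.Ico F j, LA F i :=
      Finset.sum_le_sum_of_subset_of_nonneg (Finset.Ico_subset_Ico_right (Nat.sub_le j 1))
        fun k _ _ => LA_nonneg F k
    linarith
  have h5 : YA F (j + 1) + LA F j * aA n F P j * WA n F P (j + 1) ≤ YA F j := by
    rw [h3]
    by_cases h6 : j ≤ F + 7
    · have h7 := mul_le_mul_of_nonneg_left (midB_aW_le h hn hF1 hF2 h1 h6) (LA_nonneg F j)
      rw [← mul_assoc] at h7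
      linarith
    · rw [midB_LA0 (show F + 8 ≤ j by omega)]
      linarith
  exact le_min h5 (h5.trans h4)

theorem mid_hW (h : Sys n P E d) {F : ℕ} (hF : 1 ≤ F) {j : ℕ} (h1 : F ≤ j + 1) (h2 : j < n) :
    GA n P j * WA n F P j * P j ≤ WA n F P (j + 1) * P (j + 1) := by
  unfold WA
  have h3 := (h.P_pos j h2.le).ne'
  have h4 := (h.P_pos (j + 1) h2).ne'
  rw [Finset.prod_Ico_succ_top (show F - 1 ≤ j by omega)]
  refine le_of_eq ?_
  field_simp

end

end Pool.Agent.Lib.MP_eeed5c_coC
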