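import Pool.Agent.Lib.MP_eeed5c_co_C.An1

/-!
# Upper part, large `n`: the conditions `he` and `hf`

NOTATION. `y_j = yy P j`. `hK` in terms of `y` (`kap_P`): `3j-n ≤ 2(n+2-j) y_{j-1} y_{j-2}` for
`J < j ≤ n`. For `J < j`: `638 n < 1000 j`, so `32n+500 ≤ 100 j`.

PROOFS.
`g_near` (`J < j ≤ J+8`). `j ≤ .65 n + 8 ≤ .66 n - 7`, so `j - 5 ≤ 33n/50`, `5j ≤ 4n`, and `GA_mid` gives
`GA n P j = 1/y_{j-5}`. Divide by `P_j`: `P_{j-1}/P_j = y_{j-1}`. To show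
`40 (3j-n) ≤ 82 (n+1-j) y_{j-1} y_{j-5}`. By `hK` it is enough that
`40 (n+2-j) y_{j-2} ≤ 41 (n+1-j) y_{j-5}`. `step_hi` at `i = j-2, j-3, j-4` (`i ≥ J-3 > .638 n - 4
≥ .6346 n + 1` because `.0034 n ≥ 5`; `50 i ≤ 33 n`): `y_{j-2} ≤ 1.006^3 y_{j-5} ≤ 1.0182 y_{j-5}`, and
`40 * 1.0182 (n+2-j) ≤ 41 (n+1-j)` because `n+1-j ≥ .35 n - 7 ≥ 500`
(`.272 (n+1-j) ≥ 136 ≥ 40.728`).
`g_far` (`J + 9 ≤ j ≤ n`). (a) `j ≤ 33n/50 + 5`: again `GA n P j = 1/y_{j-5}`; to show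
`3j-n ≤ 2(n+1-j) y_{j-1} y_{j-5}`. Let `k = j - 8 ≥ J+1`, `v = n-k`, `u = 3k-n > 0`. `y_tel`:
`j (v+1) y_{k-1} ≤ k (n-j+1) y_{j-1}` and `(j-4)(v+2) y_{k-2} ≤ (k-1)(n-j+5) y_{j-5}`. Multiply, and
use `hK` at `k`, `u ≤ 2 (v+2) y_{k-1} y_{k-2}`:
`j(j-4)(v+1) u ≤ 2 k(k-1)(n-j+1)(n-j+5) y_{j-1} y_{j-5}`. So it is enough that
`(3j-n) k(k-1)(n-j+5) ≤ j(j-4)(v+1) u`, i.e.
`(k+8)(k+4)(v+1) u - (u+24) k(k-1)(v-3) ≥ 0`; the left side equals
`u [4k^2 + 13kv + 9k + 32v + 32] - 24 (k^2-k)(v-3) ≥ k [u(4k+13v) - 24 k v]` (because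
`-24(k^2-k)(v-3) = -24k^2v + 72k^2 + 24kv - 72k ≥ -24k^2v`) and
`u(4k+13v) - 24kv = 24kn - 3k^2 - 13n^2 ≥ 0` for `.6 n ≤ k ≤ n` (at `k = .6n`: `.32 n^2`, increasing).
(b) `33n/50 + 5 < j`, `5j ≤ 4n`: `GA n P j = 1/Y`, `Y = y_{J0}`, `J0 = 33n/50`, `Y ≥ 1.26` (`y_lo8`:
`10000 J0 ≥ 6600 n - 9800 ≥ 6593 n`). To show `3j-n ≤ 2(n+1-j) y_{j-1} Y`.
(b1) `10 j ≤ 7n`: `z_lo3` at `j-1`: `(n+1-j) y_{j-1} ≥ .648 j`, `2 * .648 * 1.26 j = 1.63296 j ≥ 3j - n`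
(`n ≥ 1.36704 j`).
(b2) `7n < 10 j ≤ 8n`: `w = y_{j-1}`, `V = n-j`, `A = 3j-n`, `B = 3j-3-2n > 0`. `y_quad`:
`A + 2Bw ≤ 2(V+2)w^2`. Suppose `2(V+1)wY < A`. Then
`2(V+2)w^2 = ((V+2)/((V+1)Y)) w * 2(V+1)wY < ((V+2)/((V+1)Y)) w A`, so
`A < w [(V+2)A/((V+1)Y) - 2B]`; the bracket must be positive, so
`A < (A/(2(V+1)Y)) [(V+2)A/((V+1)Y) - 2B]`, i.e. `2(V+1)^2Y^2 + 2B(V+1)Y < (V+2)A`. But
`Y ≥ 1.26`, so the left side is at least `(V+1)(3.1752 (V+1) + 2.52 B)` and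
`(V+2) A ≤ (V+1) * 1.004 A` (`V+1 ≥ .2 n + 1 ≥ 300`), `1.004 (3j-n) ≤ 3.1752 (n-j+1) + 2.52 (3j-3-2n)`:
linear in `j`, at `j = .7n`: `1.1044 n ≤ .95256 n + 3.1752 + .252 n - 7.56`, at `.8 n`:
`1.4056 n ≤ .635 n + 1.008 n - 4.4`. Contradiction.
(c) `4n < 5j`: `GA n P j = Gt n j` (`GA_high`). To show
`(3j-n) * 3(2n-2j+3)/(2(j-4)) ≤ 2(n+1-j) y_{j-1}`. `z_lo4` at `j-1`: `(n+1-j) y_{j-1} ≥ .69 j`. Enough:
`3(3j-n)(2n-2j+3) ≤ 2.76 j(j-4)` for `.8 n ≤ j ≤ n`: the difference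
`2.76 j^2 - 11.04 j - 3(8nj - 6j^2 - 2n^2 + 9j - 3n) = 20.76 j^2 - 24 n j + 6 n^2 - 38.04 j + 9 n` is increasing
in `j ≥ .8n` and at `.8 n` equals `.0864 n^2 - 21.432 n > 0`.
`up_he`, `up_hf`: with `g_near` (`J < j ≤ J+8`): `1 + eA J j = (41/40)^(J+9-j)`,
`1 + eA J (j+1) = (41/40)^(J+8-j)`. With `g_far` (`J+9 ≤ j`): `eA J j = eA J (j+1) = 0`.
-/

set_option autoImplicit false

namespace Pool.Agent.Lib.MP_eeed5c_coC

section

variable {n : ℕ} {P E d : ℕ → ℝ}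

private theorem UpB_P (h : Sys n P E d) {j : ℕ} (h1 : 1 ≤ j) (h2 : j ≤ n) :
    P (j - 1) = yy P (j - 1) * P j := by
  unfold yy
  rw [Nat.sub_add_cancel h1, div_mul_cancel₀ _ (h.P_pos j h2).ne']

private theorem UpB_fin (h : Sys n P E d) {j : ℕ} (h1 : 1 ≤ j) (h2 : j ≤ n) {Y c : ℝ} (hY : 0 < Y)
    (hG : GA n P j = 1 / Y)
    (hk : 3 * (j : ℝ) - n ≤ c * (2 * ((n : ℝ) + 1 - j) * (yy P (j - 1) * Y))) :
    (3 * (j : ℝ) - n) * GA n P j * P j ≤ c * (2 * ((n : ℝ) + 1 - j) * P (j - 1)) := by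
  have h3 := h.P_pos j h2
  rw [hG, UpB_P h h1 h2, mul_one_div, div_mul_eq_mul_div, div_le_iff₀ hY]
  have h4 := mul_le_mul_of_nonneg_right hk h3.le
  linarith

private theorem UpB_K (h : Sys n P E d) {j : ℕ} (h1 : 2 ≤ j) (h2 : j ≤ n)
    (hK : (3 * (j : ℝ) - n) * P j ≤ 2 * ((n : ℝ) + 2 - j) * P (j - 2)) :
    3 * (j : ℝ) - n ≤ 2 * ((n : ℝ) + 2 - j) * (yy P (j - 1) * yy P (j - 2)) := by
  have h3 := h.P_pos j h2
  rw [kap_P h h1 h2] at hK
  refine le_of_mul_le_mul_right ?_ h3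
  linarith

private theorem UpB_pa {k n u v : ℝ} (hn : 1500 ≤ n) (hu : u = 3 * k - n) (hv : v = n - k) (h1 : 638 / 1000 * n ≤ k)
    (h2 : k ≤ n - 3) : (u + 24) * (k * (k - 1) * (v - 3)) ≤ (k + 8) * (k + 4) * (v + 1) * u := by
  have e1 : (k + 8) * (k + 4) * (v + 1) * u - (u + 24) * (k * (k - 1) * (v - 3)) =
      k * (24 * k * n - 3 * k ^ 2 - 13 * n ^ 2) + (u * (9 * k + 32 * v + 32) + 72 * k ^ 2 + 24 * k * v - 72 * k) := by
    rw [hu, hv]; ring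
  have hk : 0 < k := by linarith
  have hu0 : 0 ≤ u := by rw [hu]; linarith
  have hv0 : 0 ≤ v := by rw [hv]; linarith
  have e2 : 0 ≤ 24 * k * n - 3 * k ^ 2 - 13 * n ^ 2 := by nlinarith
  have e3 : 0 ≤ u * (9 * k + 32 * v + 32) := mul_nonneg hu0 (by linarith)
  have e4 : 0 ≤ k * v := mul_nonneg hk.le hv0
  have e5 : 0 ≤ k * (24 * k * n - 3 * k ^ 2 - 13 * n ^ 2) := mul_nonneg hk.le e2
  have e6 : 72 * k ≤ 72 * k ^ 2 := by nlinarith
  nlinarith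

private theorem UpB_b2 {w Y V A B : ℝ} (hw : 0 < w) (hY : 126 / 100 ≤ Y) (hV : 250 ≤ V + 1) (hA : 0 < A)
    (hq : A + 2 * B * w ≤ 2 * (V + 2) * w ^ 2)
    (hc : 1004 / 1000 * A ≤ 31752 / 10000 * (V + 1) + 252 / 100 * B) :
    A ≤ 2 * (V + 1) * (w * Y) := by
  by_contra hcon
  push Not at hcon
  have hV1 : 0 < V + 1 := by linarith
  have hY0 : 0 < Y := by linarith
  have hVY : 0 < (V + 1) * Y := mul_pos hV1 hY0
  have h1 : (V + 1) * Y * (A + 2 * B * w) < (V + 2) * w * A := by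
    have a1 := mul_le_mul_of_nonneg_left hq hVY.le
    have a2 : (V + 2) * w * (2 * (V + 1) * (w * Y)) < (V + 2) * w * A :=
      mul_lt_mul_of_pos_left hcon (mul_pos (by linarith) hw)
    nlinarith
  obtain ⟨T, hT⟩ : ∃ T : ℝ, T = (V + 2) * A - 2 * B * ((V + 1) * Y) := ⟨_, rfl⟩
  have h2 : (V + 1) * Y * A < w * T := by rw [hT]; nlinarith
  have h3 : 0 < (V + 1) * Y * A := mul_pos hVY hA
  have h4 : 0 < T := by
    by_contra h5
    push Not at h5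
    have := mul_nonpos_of_nonneg_of_nonpos hw.le h5
    linarith
  have h5 : 2 * ((V + 1) * Y) * ((V + 1) * Y * A) < A * T := by
    have a1 : 2 * ((V + 1) * Y) * ((V + 1) * Y * A) < 2 * ((V + 1) * Y) * (w * T) :=
      mul_lt_mul_of_pos_left h2 (by linarith)
    have a2 : (2 * (V + 1) * (w * Y)) * T < A * T := mul_lt_mul_of_pos_right hcon h4
    nlinarith
  have h6 : 2 * ((V + 1) * Y) ^ 2 < T := by
    refine lt_of_mul_lt_mul_left ?_ hA.le
    nlinarith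
  have h7 : 126 / 100 * (V + 1) ≤ (V + 1) * Y := by nlinarith
  have h8 : 31752 / 10000 * (V + 1) ^ 2 ≤ 2 * ((V + 1) * Y) ^ 2 := by nlinarith
  have h9 : 252 / 100 * B * (V + 1) ≤ 2 * B * ((V + 1) * Y) := by nlinarith
  have h10 : (V + 2) * A ≤ 1004 / 1000 * (V + 1) * A := by
    refine mul_le_mul_of_nonneg_right ?_ hA.le
    linarith
  have h11 : (V + 1) * (1004 / 1000 * A) ≤ (V + 1) * (31752 / 10000 * (V + 1) + 252 / 100 * B) :=
    mul_le_mul_of_nonneg_left hc hV1.le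
  nlinarith

private theorem UpB_e (J j : ℕ) : 0 ≤ eA J j := by
  unfold eA
  split_ifs with hj
  · exact le_refl 0
  · have h1 : (1 : ℝ) ≤ (41 / 40) ^ (J + 9 - j) := one_le_pow₀ (by norm_num)
    linarith

private theorem UpB_e1 {J j : ℕ} (h : J < j) (h' : j ≤ J + 8) : 1 + eA J j = 41 / 40 * (1 + eA J (j + 1)) := by
  unfold eA
  rw [if_neg (by omega), if_neg (by omega), show J + 9 - j = (J + 9 - (j + 1)) + 1 from by omega, pow_succ]
  ring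

private theorem UpB_e0 {J j : ℕ} (h : J + 9 ≤ j) : eA J j = 0 := by
  unfold eA
  rw [if_neg (by omega), show J + 9 - j = 0 from by omega, pow_zero, sub_self]


theorem g_near (h : Sys n P E d) (hn : 1500 ≤ n) {J : ℕ} (hJ1 : 638 * n < 1000 * (J + 1))
    (hJ2 : 20 * J ≤ 13 * n)
    (hK : ∀ j, J < j → j ≤ n → (3 * (j : ℝ) - n) * P j ≤ 2 * ((n : ℝ) + 2 - j) * P (j - 2))
    {j : ℕ} (h1 : J < j) (h2 : j ≤ J + 8) :
    (3 * (j : ℝ) - n) * GA n P j * P j ≤ 41 / 40 * (2 * ((n : ℝ) + 1 - j) * P (j - 1)) := by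
  have hj5 : 5 ≤ j := by omega
  have hG : GA n P j = 1 / yy P (j - 5) := by
    rw [GA_mid (by omega) (by omega), min_eq_left (by omega)]
  have hy5 : 0 < yy P (j - 5) := y_pos h (by omega)
  have hy1 : 0 < yy P (j - 1) := y_pos h (by omega)
  refine UpB_fin h (by omega) (by omega) hy5 hG ?_
  have k1 := UpB_K h (by omega) (by omega) (hK j h1 (by omega))
  have s1 := step_hi h hn (i := j - 2) (by omega) (by omega)
  have s2 := step_hi h hn (i := j - 3) (by omega) (by omega)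
  have s3 := step_hi h hn (i := j - 4) (by omega) (by omega)
  have e1 : j - 2 - 1 = j - 3 := by omega
  have e2 : j - 3 - 1 = j - 4 := by omega
  have e3 : j - 4 - 1 = j - 5 := by omega
  rw [e1] at s1
  rw [e2] at s2
  rw [e3] at s3
  have hn' : (1500 : ℝ) ≤ n := by exact_mod_cast hn
  have hJ2' : 20 * (J : ℝ) ≤ 13 * n := by exact_mod_cast hJ2
  have h2' : (j : ℝ) ≤ J + 8 := by exact_mod_cast h2
  obtain ⟨m, hm⟩ : ∃ m : ℝ, m = (n : ℝ) + 1 - j := ⟨_, rfl⟩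
  have hm1 : 500 ≤ m := by rw [hm]; linarith
  have hm2 : (n : ℝ) + 2 - j = m + 1 := by rw [hm]; ring
  rw [hm2] at k1
  rw [← hm]
  have s4 : yy P (j - 2) ≤ 10182 / 10000 * yy P (j - 5) := by linarith
  have s5 : (m + 1) * yy P (j - 2) ≤ 41 / 40 * (m * yy P (j - 5)) := by
    have a1 : (m + 1) * yy P (j - 2) ≤ (m + 1) * (10182 / 10000 * yy P (j - 5)) :=
      mul_le_mul_of_nonneg_left s4 (by linarith)
    have a2 : (m + 1) * (10182 / 10000) * yy P (j - 5) ≤ 41 / 40 * m * yy P (j - 5) :=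
      mul_le_mul_of_nonneg_right (by linarith) hy5.le
    linarith
  have s6 := mul_le_mul_of_nonneg_left s5 hy1.le
  nlinarith

theorem g_far (h : Sys n P E d) (hn : 1500 ≤ n) {J : ℕ} (hJ1 : 638 * n < 1000 * (J + 1))
    (hJ2 : 20 * J ≤ 13 * n)
    (hK : ∀ j, J < j → j ≤ n → (3 * (j : ℝ) - n) * P j ≤ 2 * ((n : ℝ) + 2 - j) * P (j - 2))
    {j : ℕ} (h1 : J + 9 ≤ j) (h2 : j ≤ n) :
    (3 * (j : ℝ) - n) * GA n P j * P j ≤ 2 * ((n : ℝ) + 1 - j) * P (j - 1) := by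
  have hn' : (1500 : ℝ) ≤ n := by exact_mod_cast hn
  have h2' : (j : ℝ) ≤ n := by exact_mod_cast h2
  have hy1 : 0 < yy P (j - 1) := y_pos h (by omega)
  have ej : ((j - 1 : ℕ) : ℝ) = (j : ℝ) - 1 := by
    rw [Nat.cast_sub (by omega : 1 ≤ j), Nat.cast_one]
  have hJ1' : 638 * (n : ℝ) < 1000 * ((J : ℝ) + 1) := by exact_mod_cast hJ1
  rcases Nat.lt_or_ge (4 * n) (5 * j) with hc | hc
  · -- (c)
    have hG := GA_high (n := n) (P := P) (j := j) (by omega) hc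
    have hz := z_lo4 h hn (j := j - 1) (by omega) (by omega)
    rw [ej] at hz
    have hc' : 4 * (n : ℝ) < 5 * j := by exact_mod_cast hc
    have h3 := h.P_pos j h2
    rw [hG, UpB_P h (by omega) h2]
    unfold Gt
    have h4 : 0 < 2 * ((j : ℝ) - 4) := by linarith
    rw [mul_div_assoc', div_mul_eq_mul_div, div_le_iff₀ h4]
    have h5 : 3 * (3 * (j : ℝ) - n) * (2 * (n : ℝ) - 2 * j + 3) ≤ 276 / 100 * (j * ((j : ℝ) - 4)) := by
      nlinarith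
    have h6 : 276 / 100 * (j * ((j : ℝ) - 4)) ≤ 4 * (((n : ℝ) - (j - 1)) * yy P (j - 1)) * ((j : ℝ) - 4) := by
      have a1 : 0 ≤ (j : ℝ) - 4 := by linarith
      have a2 := mul_le_mul_of_nonneg_right hz a1
      linarith
    have h7 := mul_le_mul_of_nonneg_right (h5.trans h6) h3.le
    linarith
  · rcases Nat.lt_or_ge (33 * n / 50 + 5) j with hb | hb
    · -- (b)
      have hG : GA n P j = 1 / yy P (33 * n / 50) := by
        rw [GA_mid (by omega) hc, min_eq_right (by omega)]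
      have hY : 126 / 100 < yy P (33 * n / 50) := y_lo8 h hn (by omega) (by omega)
      have hY0 : 0 < yy P (33 * n / 50) := by linarith
      have hfin := UpB_fin (c := 1) h (by omega) h2 hY0 hG
      rw [one_mul, one_mul] at hfin
      refine hfin ?_
      rcases Nat.lt_or_ge (7 * n) (10 * j) with hb2 | hb1
      · -- (b2)
        have hq := y_quad h (show 2 ≤ j by omega) (show j < n by omega)
        have hb2' : 7 * (n : ℝ) < 10 * j := by exact_mod_cast hb2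
        have hc' : 5 * (j : ℝ) ≤ 4 * n := by exact_mod_cast hc
        have key := UpB_b2 (w := yy P (j - 1)) (Y := yy P (33 * n / 50)) (V := (n : ℝ) - j)
          (A := 3 * (j : ℝ) - n) (B := 3 * (j : ℝ) - 3 - 2 * n) hy1 hY.le (by linarith) (by linarith)
          hq (by linarith)
        linarith
      · -- (b1)
        have hz := z_lo3 h hn (j := j - 1) (by omega) (by omega)
        rw [ej] at hz
        have hb1' : 10 * (j : ℝ) ≤ 7 * n := by exact_mod_cast hb1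
        have hj0 : (0 : ℝ) ≤ j := Nat.cast_nonneg j
        obtain ⟨Z, hZ⟩ : ∃ Z : ℝ, Z = ((n : ℝ) - (j - 1)) * yy P (j - 1) := ⟨_, rfl⟩
        rw [← hZ] at hz
        have hZ1 : 648 / 1000 * (j : ℝ) ≤ Z := by linarith
        have e1 : 2 * ((n : ℝ) + 1 - j) * (yy P (j - 1) * yy P (33 * n / 50)) =
            2 * (Z * yy P (33 * n / 50)) := by rw [hZ]; ring
        rw [e1]
        have h4 : 648 / 1000 * (j : ℝ) * (126 / 100) ≤ Z * yy P (33 * n / 50) :=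
          mul_le_mul hZ1 hY.le (by norm_num) (by linarith)
        linarith
    · -- (a)
      have hG : GA n P j = 1 / yy P (j - 5) := by
        rw [GA_mid (by omega) hc, min_eq_left (by omega)]
      have hy5 : 0 < yy P (j - 5) := y_pos h (by omega)
      have hfin := UpB_fin (c := 1) h (by omega) h2 hy5 hG
      rw [one_mul, one_mul] at hfin
      refine hfin ?_
      obtain ⟨k, rfl⟩ : ∃ k, j = k + 8 := ⟨j - 8, by omega⟩
      have hk := UpB_K h (show 2 ≤ k by omega) (show k ≤ n by omega) (hK k (by omega) (by omega))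
      have t1 := y_tel h (show k - 1 ≤ k + 8 - 1 by omega) (show k + 8 - 1 < n by omega)
      have t2 := y_tel h (show k - 2 ≤ k + 8 - 5 by omega) (show k + 8 - 5 < n by omega)
      have e1 : ((k - 1 : ℕ) : ℝ) = (k : ℝ) - 1 := by
        rw [Nat.cast_sub (by omega : 1 ≤ k), Nat.cast_one]
      have e2 : ((k - 2 : ℕ) : ℝ) = (k : ℝ) - 2 := by
        rw [Nat.cast_sub (by omega : 2 ≤ k), Nat.cast_ofNat]
      have e3 : ((k + 8 - 1 : ℕ) : ℝ) = (k : ℝ) + 7 := by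
        rw [show k + 8 - 1 = k + 7 from rfl, Nat.cast_add, Nat.cast_ofNat]
      have e4 : ((k + 8 - 5 : ℕ) : ℝ) = (k : ℝ) + 3 := by
        rw [show k + 8 - 5 = k + 3 from rfl, Nat.cast_add, Nat.cast_ofNat]
      rw [e1, e3] at t1
      rw [e2, e4] at t2
      have q1 : 0 < yy P (k - 1) := y_pos h (by omega)
      have q2 : 0 < yy P (k - 2) := y_pos h (by omega)
      have hkJ : (J : ℝ) + 1 ≤ k := by
        have : J + 1 ≤ k := by omega
        exact_mod_cast this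
      have hkn : 50 * ((k : ℝ) + 3) ≤ 33 * n := by
        have : 50 * (k + 3) ≤ 33 * n := by omega
        exact_mod_cast this
      push_cast at h2' ⊢
      change 3 * ((k : ℝ) + 8) - n ≤ 2 * ((n : ℝ) + 1 - (k + 8)) * (yy P (k + 8 - 1) * yy P (k + 8 - 5))
      obtain ⟨y1, hy1'⟩ : ∃ y : ℝ, y = yy P (k + 8 - 1) := ⟨_, rfl⟩
      obtain ⟨y5, hy5'⟩ : ∃ y : ℝ, y = yy P (k + 8 - 5) := ⟨_, rfl⟩
      obtain ⟨x1, hx1⟩ : ∃ y : ℝ, y = yy P (k - 1) := ⟨_, rfl⟩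
      obtain ⟨x2, hx2⟩ : ∃ y : ℝ, y = yy P (k - 2) := ⟨_, rfl⟩
      rw [← hy1'] at t1 hy1 ⊢
      rw [← hy5'] at t2 hy5 ⊢
      rw [← hx1] at t1 hk q1
      rw [← hx2] at t2 hk q2
      obtain ⟨a, ha⟩ : ∃ a : ℝ, a = (k : ℝ) := ⟨_, rfl⟩
      obtain ⟨N, hN⟩ : ∃ N : ℝ, N = (n : ℝ) := ⟨_, rfl⟩
      rw [← ha, ← hN] at t1 t2 hk ⊢
      rw [← ha] at hkJ hkn
      rw [← hN] at hkn hn' hJ1'
      have hpa := UpB_pa (k := a) (n := N) (u := 3 * a - N) (v := N - a) hn' rfl rfl (by linarith) (by linarith)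
      have t1' : (a + 8) * (N - a + 1) * x1 ≤ a * (N - a - 7) * y1 := by
        refine le_trans (le_of_eq ?_) (t1.trans (le_of_eq ?_)) <;> ring
      have t2' : (a + 4) * (N - a + 2) * x2 ≤ (a - 1) * (N - a - 3) * y5 := by
        refine le_trans (le_of_eq ?_) (t2.trans (le_of_eq ?_)) <;> ring
      have t3 : ((a + 8) * (N - a + 1) * x1) * ((a + 4) * (N - a + 2) * x2) ≤
          (a * (N - a - 7) * y1) * ((a - 1) * (N - a - 3) * y5) := by
        exact mul_le_mul t1' t2'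
          (mul_nonneg (mul_nonneg (by linarith) (by linarith)) q2.le)
          (mul_nonneg (mul_nonneg (by linarith) (by linarith)) hy1.le)
      have t4 : (a + 8) * (a + 4) * (N - a + 1) * (3 * a - N) ≤
          (a + 8) * (a + 4) * (N - a + 1) * (2 * (N + 2 - a) * (x1 * x2)) := by
        exact mul_le_mul_of_nonneg_left hk
          (mul_nonneg (mul_nonneg (by linarith) (by linarith)) (by linarith))
      have hpos : 0 < a * (a - 1) * (N - a - 3) :=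
        mul_pos (mul_pos (by linarith) (by linarith)) (by linarith)
      refine le_of_mul_le_mul_right ?_ hpos
      have e5 : (3 * (a + 8) - N) * (a * (a - 1) * (N - a - 3)) =
          (3 * a - N + 24) * (a * (a - 1) * (N - a - 3)) := by ring
      rw [e5]
      refine hpa.trans ?_
      have e6 : (a + 8) * (a + 4) * (N - a + 1) * (2 * (N + 2 - a) * (x1 * x2)) =
          2 * (((a + 8) * (N - a + 1) * x1) * ((a + 4) * (N - a + 2) * x2)) := by ring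
      have e7 : 2 * (N + 1 - (a + 8)) * (y1 * y5) * (a * (a - 1) * (N - a - 3)) =
          2 * ((a * (N - a - 7) * y1) * ((a - 1) * (N - a - 3) * y5)) := by ring
      rw [e7]
      rw [e6] at t4
      linarith

theorem up_he (h : Sys n P E d) (hn : 1500 ≤ n) {J : ℕ} (hJ1 : 638 * n < 1000 * (J + 1))
    (hJ2 : 20 * J ≤ 13 * n)
    (hK : ∀ j, J < j → j ≤ n → (3 * (j : ℝ) - n) * P j ≤ 2 * ((n : ℝ) + 2 - j) * P (j - 2))
    {j : ℕ} (h1 : J < j) (h2 : j ≤ n) :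
    (3 * (j : ℝ) - n) * GA n P j * (1 + eA J (j + 1)) * P j ≤
      2 * (1 + eA J j) * ((n : ℝ) + 1 - j) * P (j - 1) := by
  have hy : 0 ≤ 2 * ((n : ℝ) + 1 - j) * P (j - 1) := by
    have h3 := h.P_pos (j - 1) (by omega)
    have h4 : (j : ℝ) ≤ n := by exact_mod_cast h2
    exact mul_nonneg (by linarith) h3.le
  rcases Nat.lt_or_ge (J + 8) j with h3 | h3
  · have g := g_far h hn hJ1 hJ2 hK (show J + 9 ≤ j by omega) h2
    rw [UpB_e0 (show J + 9 ≤ j by omega), UpB_e0 (show J + 9 ≤ j + 1 by omega)]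
    linarith
  · have g := g_near h hn hJ1 hJ2 hK h1 h3
    rw [UpB_e1 h1 h3]
    have h4 := UpB_e J (j + 1)
    have h5 := mul_le_mul_of_nonneg_right g (by linarith : 0 ≤ 1 + eA J (j + 1))
    linarith

theorem up_hf (h : Sys n P E d) (hn : 1500 ≤ n) {J : ℕ} (hJ1 : 638 * n < 1000 * (J + 1))
    (hJ2 : 20 * J ≤ 13 * n)
    (hK : ∀ j, J < j → j ≤ n → (3 * (j : ℝ) - n) * P j ≤ 2 * ((n : ℝ) + 2 - j) * P (j - 2))
    {j : ℕ} (h1 : J < j) (h2 : j ≤ n) :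
    (3 * (j : ℝ) - n) * GA n P j * eA J (j + 1) * P j ≤
      2 * eA J j * ((n : ℝ) + 1 - j) * P (j - 1) := by
  have hy : 0 ≤ 2 * ((n : ℝ) + 1 - j) * P (j - 1) := by
    have h3 := h.P_pos (j - 1) (by omega)
    have h4 : (j : ℝ) ≤ n := by exact_mod_cast h2
    exact mul_nonneg (by linarith) h3.le
  rcases Nat.lt_or_ge (J + 8) j with h3 | h3
  · rw [UpB_e0 (show J + 9 ≤ j by omega), UpB_e0 (show J + 9 ≤ j + 1 by omega)]
    linarith
  · have g := g_near h hn hJ1 hJ2 hK h1 h3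
    have h4 := UpB_e J (j + 1)
    have h6 : eA J j = 41 / 40 * eA J (j + 1) + 1 / 40 := by
      have := UpB_e1 h1 h3
      linarith
    have h5 := mul_le_mul_of_nonneg_right g h4
    rw [h6]
    linarith

end

end Pool.Agent.Lib.MP_eeed5c_coC
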