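import Pool.Agent.Lib.MP_eeed5c_co_C.An1

/-!
# Upper part, large `n`: the conditions `hX`, `hs`, `hx`

NOTATION. `y_j = yy P j`, `G_j = GA n P j`, `f_j = eA J j`, `V = n - j`. `638 n < 1000 (J+1)`,
`20 J ≤ 13 n`, and `J < j`, so `638 n < 1000 j`, `32 n + 500 ≤ 100 j`.

PROOFS.
(G) Bounds of `G`. `J0 = 33n/50`, `10000 J0 ≥ 6593 n`.
 (G1) `J < j`, `5j ≤ 4n`: `G_j = 1/y_i`, `i = min (j-5) J0`, `i ≥ min (J-4) J0 ≥ .6346 n`
 (`J - 4 > .638 n - 5`), so `0 < G_j ≤ 100/109` (`y_lo5`).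
 (G2) `33 n < 50 j`, `5j ≤ 4n`: `i ≥ .66 n - 5 ≥ .656 n - ..`: precisely `50 j > 33 n` and
 `50 J0 ≥ 33 n - 49` give `1000 i ≥ 656 n`, so `0 < G_j ≤ 100/123` (`y_lo7`).
 (G3) `4n < 5j`, `j ≤ n+1`: `G_j = 3(2n-2j+3)/(2(j-4)) > 0`; `≤ 100/123` because
 `369 (2n-2j+3) ≤ 200 (j-4)` (`938 j ≥ 750.4 n ≥ 738 n + 1907`).
 Always (`J < j ≤ n+1`): `0 < G_j ≤ 100/109`.
`hX_aux` (`J < j < n`): `14 j G_{j+1} ≤ 9 (3j-n)`. `5(j+1) ≤ 4n`: (G1) at `j+1`:
`1400 j ≤ 981 (3j-n)`, i.e. `981 n ≤ 1543 j`, true for `j ≥ .638 n` (`.638 * 1543 = 984.4`). Otherwise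
(G3) at `j+1`: `1400 j ≤ 1107 (3j - n)`, true for `j ≥ .638 n`.
`up_hX` (`J < j < n`): `rb n P j * G_{j+1} * cc n P (j+1)/cc n P (j+2) =: Q`. `cc n P (j+1) =
6(n+1-j)P_{j-1}`, `cc n P (j+2) = 6(n-j)P_j`, so
`Q = (4/9) G_{j+1}/(3j-n) * (j+1)(n+1-j) P_{j+1}P_{j-1}/((n-j) P_j^2) ≤ (4/9) G_{j+1} j/(3j-n) ≤ 2/7`
(`P_ulc` at `k = j-1`; `hX_aux`). If `j ≥ J+8`: `f_{j+1} = 0`, `XA J (j+1) = XA J j = 7/5`:
`1 + (2/7)(7/5) = 7/5`. If `j ≤ J+7`: `XA J j = 7/4`, `XA J (j+1) ≤ 7/4`,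
`f_{j+1} = (41/40)^(J+8-j) - 1 ≤ (41/40)^7 - 1 ≤ .189`: `1.189 + (2/7)(7/4) = 1.689 ≤ 7/4`.
`s3_le` (`J < j < n`): `s3 n P G X j ≤ (4/9) X_{j+1} G_j G_{j+1} (j-1) y_{j-1}/(3j-n)` for `X ≥ 0`.
`s3 = cc_j rb_j X_{j+1} G_j G_{j+1}/cc_{j+2}`,
`cc_j rb_j/cc_{j+2} = (4/9) (n+2-j) P_{j-2} (j+1) P_{j+1}/((3j-n)(n-j) P_j^2)
= (4/9) (n+2-j) y_{j-2} y_{j-1} (j+1)/((3j-n)(n-j) y_j)` and `z_mono` (`j-2 ≤ j`):
`(n+2-j) y_{j-2} ≤ (j-1)(n-j) y_j/(j+1)`.
`t1_le`: `bb n P j - cc n P j = 6(2n+3-3j) P_{j-1}` (`P_rec` at `i = j-2`), `cc n P (j+1) = 6(n+1-j)P_{j-1}`.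
(A) `near_s` (`J < j ≤ J+8`): `(2n+3-3j) G_j (1+f_{j+1})/(n+1-j) ≤ .27` and the bound of `s3_le` (with
`X = XA J ≤ 7/4`) is `≤ .52`. First: `G_j ≤ 1/1.09`, `1+f_{j+1} ≤ 1.189`, `1.189/1.09 ≤ 1.091`,
`1.091 (2n+3-3j) ≤ .27 (n+1-j)` (`1.912 n + 3.003 ≤ 3.003 j`; `j ≥ .638 n`: `3.003 j ≥ 1.9159 n`).
Second: `j+1 ≤ J + 9 ≤ .66 n`, so `G_j = 1/y_{j-5}`, `G_{j+1} = 1/y_{j-4}` (`GA_mid`),
`y_{j-1} ≤ 1.006^4 y_{j-5} ≤ 1.0243 y_{j-5}` (`step_hi`; `j - 4 ≥ J-3 ≥ .6346 n + 1`), `G_{j+1} ≤ 1/1.09`,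
`(j-1)/(3j-n) ≤ j/(3j-n) ≤ .699` (`j ≤ 2.097 j - .699 n`, `.699 n ≤ 1.097 j`; `.638*1.097 = .69988`):
`(4/9)(7/4)(1.0243)(1/1.09)(.699) ≤ .512`.
(B) `J+9 ≤ j`, `50 j ≤ 33 n`: `X_{j+1} = 7/5`, `f_{j+1} = 0`, the same estimates give `≤ .27` and
`≤ .512`.
(C) `33 n < 50 j`, `5j ≤ 4n`: `G_j, G_{j+1} ≤ 100/123` (G2, G3), `(n+1-j) y_{j-1} ≤ j` (`z_le`):
the bound of `s3` is at most `(4/9)(7/5)(1/1.5129) j^2/((n+1-j)(3j-n)) ≤ .4113 j^2/((n+1-j)(3j-n))`.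
(C1) `3j ≥ 2n+3`: the first term is `0` and `.4113 j^2 ≤ (n+1-j)(3j-n)`:
`(n-j)(3j-n) - .4113 j^2 = -3.4113 j^2 + 4nj - n^2 ≥ 0` for `.6 n ≤ j ≤ .8 n` (concave; at `.6n`: `.172 n^2`,
at `.8n`: `.0168 n^2`). (C2) `3j < 2n+3`: `(2n+3-3j) G_j/(n+1-j) ≤ .1` (`2n+3-3j ≤ .02 n + 3`,
`n+1-j ≥ .33 n`) and `.4113 j^2 ≤ .9 (n-j)(3j-n)` (`.6 n ≤ j ≤ .67 n`: `-3.1113 j^2 + 3.6 nj - .9 n^2`, concave,
at `.6 n`: `.1399 n^2`, at `.67 n`: `.1153 n^2`).
(D) `4n < 5j`, `j < n`: `3j > 2n+3`, the first term is `0`; `(n+1-j) y_{j-1} ≤ j`;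
`G_jG_{j+1} = 9(2V+3)(2V+1)/(4(j-4)(j-3))`, `(2V+3)(2V+1) ≤ 4(V+1)^2`; the bound of `s3` is at most
`5.6 (V+1) j(j-1)/((j-4)(j-3)(3j-n)) ≤ 1`: `j(j-1) ≤ 1.01 (j-4)(j-3)` (`j ≥ 1200`) and
`5.66 (n-j+1) ≤ 3j-n` (`6.66 n + 5.66 ≤ 8.66 j`; `.8*8.66 = 6.928`).
(E) `j = n`: `P_{n+1} = 0`, `rb = 0`, `s3 = 0`, and `max(2n+3-3n) 0 = 0`.
In (C1), (D), (E) the second term has `eA J (j+1) = 0` because `j + 1 ≥ J+9`
(`3j > 2n+3`.. in general: if `3j ≤ 2n+3` the second term is `0` since `max (cc-bb) 0 = 0`; if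
`3j > 2n+3` then `j > .65 n + 8 ≥ J + 8`, and `eA J (j+1) = 0`).
`up_hs`: sum of the estimates: (A), (B) `≤ .27 + .52 ≤ 1`. (C2) `≤ .1 + .9 = 1`.
`up_hx`: (A) at `j = J+1`: `1 + .27 + .52 = 1.79 ≤ 9/5`; `|bb - cc| = 6(2n-3J)P_J` because
`2n ≥ 3J`.
-/

set_option autoImplicit false

namespace Pool.Agent.Lib.MP_eeed5c_coC

section

variable {n : ℕ} {P E d : ℕ → ℝ}

private theorem UpC_G (h : Sys n P E d) (hn : 1500 ≤ n) {j : ℕ} (h1 : 638 * n < 1000 * j)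
    (h2 : j ≤ n + 1) : 0 < GA n P j ∧ GA n P j ≤ 100 / 109 := by
  by_cases h5 : 5 * j ≤ 4 * n
  · rw [GA_mid (by omega) h5]
    obtain ⟨i, hi⟩ : ∃ i, i = min (j - 5) (33 * n / 50) := ⟨_, rfl⟩
    rw [← hi]
    have hi1 : 6346 * n ≤ 10000 * i := by
      rcases min_choice (j - 5) (33 * n / 50) with e | e
      · rw [hi, e]
        omega
      · rw [hi, e]
        omega
    have hi2 : i < n := by
      have := min_le_left (j - 5) (33 * n / 50)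
      omega
    have h3 := y_lo5 h hn hi1 hi2
    have h4 : 0 < yy P i := by linarith
    refine ⟨one_div_pos.2 h4, ?_⟩
    rw [div_le_iff₀ h4]
    linarith
  · push Not at h5
    rw [GA_high (by omega) h5]
    unfold Gt
    have h6 : (4 : ℝ) * n < 5 * j := by exact_mod_cast h5
    have h7 : (j : ℝ) ≤ n + 1 := by exact_mod_cast h2
    have h8 : (1500 : ℝ) ≤ n := by exact_mod_cast hn
    have h9 : (0 : ℝ) < 2 * ((j : ℝ) - 4) := by linarith
    refine ⟨div_pos (by linarith) h9, ?_⟩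
    rw [div_le_iff₀ h9]
    linarith

private theorem UpC_G2 (h : Sys n P E d) (hn : 1500 ≤ n) {j : ℕ} (h1 : 33 * n < 50 * j)
    (h2 : j ≤ n + 1) : GA n P j ≤ 100 / 123 := by
  by_cases h5 : 5 * j ≤ 4 * n
  · rw [GA_mid (by omega) h5]
    obtain ⟨i, hi⟩ : ∃ i, i = min (j - 5) (33 * n / 50) := ⟨_, rfl⟩
    rw [← hi]
    have hi1 : 656 * n ≤ 1000 * i := by
      rcases min_choice (j - 5) (33 * n / 50) with e | e
      · rw [hi, e]
        omega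
      · rw [hi, e]
        omega
    have hi2 : i < n := by
      have := min_le_left (j - 5) (33 * n / 50)
      omega
    have h3 := y_lo7 h hn hi1 hi2
    have h4 : 0 < yy P i := by linarith
    rw [div_le_iff₀ h4]
    linarith
  · push Not at h5
    rw [GA_high (by omega) h5]
    unfold Gt
    have h6 : (4 : ℝ) * n < 5 * j := by exact_mod_cast h5
    have h7 : (j : ℝ) ≤ n + 1 := by exact_mod_cast h2
    have h8 : (1500 : ℝ) ≤ n := by exact_mod_cast hn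
    have h9 : (0 : ℝ) < 2 * ((j : ℝ) - 4) := by linarith
    rw [div_le_iff₀ h9]
    linarith

private theorem UpC_e {J j : ℕ} (h1 : J < j) : 0 ≤ eA J (j + 1) ∧ eA J (j + 1) ≤ 189 / 1000 := by
  unfold eA
  rw [if_neg (by omega)]
  have h2 : J + 9 - (j + 1) ≤ 7 := by omega
  have h3 : (41 / 40 : ℝ) ^ (J + 9 - (j + 1)) ≤ (41 / 40 : ℝ) ^ 7 := pow_le_pow_right₀ (by norm_num) h2
  have h4 : (1 : ℝ) ≤ (41 / 40 : ℝ) ^ (J + 9 - (j + 1)) := one_le_pow₀ (by norm_num)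
  have h5 : (41 / 40 : ℝ) ^ 7 ≤ 1189 / 1000 := by norm_num
  exact ⟨by linarith, by linarith⟩

private theorem UpC_e0 {J j : ℕ} (h1 : J + 8 ≤ j) : eA J (j + 1) = 0 := by
  unfold eA
  rw [if_neg (by omega)]
  have h2 : J + 9 - (j + 1) = 0 := by omega
  rw [h2, pow_zero, sub_self]

private theorem UpC_X (J i : ℕ) : 7 / 5 ≤ XA J i ∧ XA J i ≤ 7 / 4 := by
  unfold XA
  split_ifs
  · norm_num
  · norm_num

private theorem UpC_X0 {J i : ℕ} (h1 : J + 8 ≤ i) : XA J i = 7 / 5 := by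
  unfold XA
  rw [if_neg (by omega)]

/-- the factor in `hX` -/
private theorem UpC_Q (h : Sys n P E d) {j : ℕ} (h1 : 1 ≤ j) (h2 : j < n) (h3 : n < 3 * j) :
    0 ≤ rb n P j * cc n P (j + 1) / cc n P (j + 2) ∧
    rb n P j * cc n P (j + 1) / cc n P (j + 2) ≤ 4 / 9 * (j : ℝ) / (3 * (j : ℝ) - n) := by
  obtain ⟨k, rfl⟩ := Nat.exists_eq_add_of_le' h1
  have p0 := h.P_pos k (by omega)
  have p1 := h.P_pos (k + 1) (by omega)
  have p2 := h.P_pos (k + 2) (by omega)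
  have hu := h.P_ulc k
  have h4 : ((k : ℝ) + 1) < n := by exact_mod_cast h2
  have h5 : (n : ℝ) < 3 * ((k : ℝ) + 1) := by exact_mod_cast h3
  have hk : (0 : ℝ) ≤ k := Nat.cast_nonneg k
  unfold rb cc
  have e1 : k + 1 + 1 - 2 = k := rfl
  have e2 : k + 1 + 2 - 2 = k + 1 := rfl
  have e3 : k + 1 + 1 = k + 2 := rfl
  rw [e1, e2, e3]
  push_cast
  have hD : 0 < 3 * ((k : ℝ) + 1) - n := by linarith
  have hV : 0 < (n : ℝ) + 2 - (k + 1 + 2) := by linarith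
  have hV' : 0 < (n : ℝ) + 2 - (k + 2) := by linarith
  rw [div_mul_eq_mul_div, div_div]
  refine ⟨by positivity, ?_⟩
  rw [div_le_div_iff₀ (by positivity) hD]
  have h6 := mul_le_mul_of_nonneg_left hu (show (0 : ℝ) ≤ 4 / 9 * 6 * (3 * ((k : ℝ) + 1) - n) by positivity)
  linarith

/-- the bound of `s3` -/
private theorem UpC_s3 (h : Sys n P E d) {G X : ℕ → ℝ} {j : ℕ} (h1 : 2 ≤ j) (h2 : j < n) (h3 : n < 3 * j)
    (hX : 0 ≤ X (j + 1)) (hG : 0 ≤ G j) (hG' : 0 ≤ G (j + 1)) :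
    s3 n P G X j ≤ 4 / 9 * (X (j + 1) * (G j * yy P (j - 1)) * G (j + 1)) * (((j : ℝ) - 1) / (3 * (j : ℝ) - n)) := by
  obtain ⟨k, rfl⟩ := Nat.exists_eq_add_of_le' h1
  have p0 := h.P_pos k (by omega)
  have p1 := h.P_pos (k + 1) (by omega)
  have p2 := h.P_pos (k + 2) (by omega)
  have p3 := h.P_pos (k + 3) (by omega)
  have hu := y_tel h (show k ≤ k + 2 by omega) h2
  have h4 : ((k : ℝ) + 2) < n := by exact_mod_cast h2
  have h5 : (n : ℝ) < 3 * ((k : ℝ) + 2) := by exact_mod_cast h3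
  have hk : (0 : ℝ) ≤ k := Nat.cast_nonneg k
  have e3 : k + 2 + 1 = k + 3 := rfl
  have e1 : k + 2 - 1 = k + 1 := rfl
  unfold yy at hu
  rw [e3] at hu
  push_cast at hu
  have hD : 0 < 3 * ((k : ℝ) + 2) - n := by linarith
  have hV : 0 < (n : ℝ) - (k + 2) := by linarith
  have hV' : 0 < (n : ℝ) - k := by linarith
  have hu' : ((k : ℝ) + 3) * (n - k) * P k * P (k + 3) ≤ (k + 1) * (n - (k + 2)) * P (k + 2) * P (k + 1) := by
    rw [mul_div_assoc', mul_div_assoc', div_le_div_iff₀ p1 p3] at hu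
    linarith
  have key : cc n P (k + 2) * rb n P (k + 2) / cc n P (k + 2 + 2) ≤
      4 / 9 * yy P (k + 1) * (((k : ℝ) + 1) / (3 * ((k : ℝ) + 2) - n)) := by
    unfold cc rb yy
    have e4 : k + 2 - 2 = k := rfl
    have e5 : k + 2 + 2 - 2 = k + 2 := rfl
    have e6 : k + 1 + 1 = k + 2 := rfl
    rw [e4, e5, e3, e6]
    push_cast
    have e7 : (n : ℝ) + 2 - (k + 2) = n - k := by ring
    have e8 : (n : ℝ) + 2 - (k + 2 + 2) = n - (k + 2) := by ring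
    rw [e7, e8]
    have h6 := mul_le_mul_of_nonneg_left hu'
      (show (0 : ℝ) ≤ 4 / 9 / ((3 * ((k : ℝ) + 2) - n) * P (k + 2) * P (k + 2) * (n - (k + 2))) by positivity)
    have e11 : 6 * ((n : ℝ) - k) * P k * (4 / 9 * ((k : ℝ) + 2 + 1) * P (k + 3) / ((3 * ((k : ℝ) + 2) - n) * P (k + 2))) /
        (6 * ((n : ℝ) - (k + 2)) * P (k + 2)) =
        4 / 9 / ((3 * ((k : ℝ) + 2) - n) * P (k + 2) * P (k + 2) * (n - (k + 2))) *
          (((k : ℝ) + 3) * (n - k) * P k * P (k + 3)) := by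
      field_simp
      ring
    have e12 : 4 / 9 * (P (k + 1) / P (k + 2)) * (((k : ℝ) + 1) / (3 * ((k : ℝ) + 2) - n)) =
        4 / 9 / ((3 * ((k : ℝ) + 2) - n) * P (k + 2) * P (k + 2) * (n - (k + 2))) *
          (((k : ℝ) + 1) * (n - (k + 2)) * P (k + 2) * P (k + 1)) := by
      field_simp
    rw [e11, e12]
    exact h6
  unfold s3
  rw [e1]
  push_cast
  have e9 : cc n P (k + 2) * rb n P (k + 2) * X (k + 2 + 1) * G (k + 2) * G (k + 2 + 1) / cc n P (k + 2 + 2) =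
      X (k + 2 + 1) * G (k + 2) * G (k + 2 + 1) * (cc n P (k + 2) * rb n P (k + 2) / cc n P (k + 2 + 2)) := by ring
  have e10 : (k : ℝ) + 2 - 1 = k + 1 := by ring
  rw [e9, e10]
  have h7 := mul_le_mul_of_nonneg_left key
    (show 0 ≤ X (k + 2 + 1) * G (k + 2) * G (k + 2 + 1) by positivity)
  refine h7.trans (le_of_eq ?_)
  ring

private theorem UpC_bc (h : Sys n P E d) {j : ℕ} (h1 : 2 ≤ j) :
    bb n P j - cc n P j = 6 * P (j - 1) * (2 * (n : ℝ) + 3 - 3 * j) ∧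
      cc n P (j + 1) = 6 * P (j - 1) * ((n : ℝ) + 1 - j) := by
  obtain ⟨k, rfl⟩ := Nat.exists_eq_add_of_le' h1
  have hr := h.P_rec k
  unfold bb cc
  have e1 : k + 2 - 2 = k := rfl
  have e2 : k + 2 + 1 - 2 = k + 1 := rfl
  have e3 : k + 2 + 1 = k + 3 := rfl
  have e4 : k + 2 - 1 = k + 1 := rfl
  rw [e1, e2, e3, e4]
  push_cast
  constructor
  · linear_combination hr
  · ring

/-- the first term, `a = 2n+3-3j` -/
private theorem UpC_t1 (h : Sys n P E d) {j : ℕ} (h1 : 2 ≤ j) (h2 : j ≤ n) {g c : ℝ}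
    (hg : 0 ≤ c) (hc : 3 * j ≤ 2 * n + 3 → (2 * (n : ℝ) + 3 - 3 * j) * g ≤ c * ((n : ℝ) + 1 - j)) :
    max (bb n P j - cc n P j) 0 * g / cc n P (j + 1) ≤ c := by
  obtain ⟨e1, e2⟩ := UpC_bc h h1
  have hp := h.P_pos (j - 1) (by omega)
  have h3 : (j : ℝ) ≤ n := by exact_mod_cast h2
  rw [e1, e2]
  by_cases ha : 3 * j ≤ 2 * n + 3
  · have ha' : 3 * (j : ℝ) ≤ 2 * n + 3 := by exact_mod_cast ha
    have h4 : 0 ≤ 6 * P (j - 1) * (2 * (n : ℝ) + 3 - 3 * j) := mul_nonneg (by positivity) (by linarith)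
    rw [max_eq_left h4, mul_assoc (6 * P (j - 1)), mul_div_mul_left _ _ (by positivity : (6 * P (j - 1)) ≠ 0),
      div_le_iff₀ (by linarith)]
    exact hc ha
  · push Not at ha
    have ha' : 2 * (n : ℝ) + 3 < 3 * j := by exact_mod_cast ha
    have h4 : 6 * P (j - 1) * (2 * (n : ℝ) + 3 - 3 * j) ≤ 0 :=
      mul_nonpos_of_nonneg_of_nonpos (by positivity) (by linarith)
    rw [max_eq_right h4, zero_mul, zero_div]
    exact hg

private theorem UpC_t2 (h : Sys n P E d) (hn : 1500 ≤ n) {J : ℕ} (hJ2 : 20 * J ≤ 13 * n) {j : ℕ} (h1 : 2 ≤ j)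
    {g : ℝ} : max (cc n P j - bb n P j) 0 * g * eA J (j + 1) / cc n P (j + 1) = 0 ∨ n < j := by
  by_cases hj : n < j
  · exact Or.inr hj
  refine Or.inl ?_
  obtain ⟨e1, e2⟩ := UpC_bc h h1
  have hp := h.P_pos (j - 1) (by omega)
  by_cases ha : 3 * j ≤ 2 * n + 3
  · have ha' : 3 * (j : ℝ) ≤ 2 * n + 3 := by exact_mod_cast ha
    have h4 : cc n P j - bb n P j ≤ 0 := by
      have h5 : 0 ≤ 6 * P (j - 1) * (2 * (n : ℝ) + 3 - 3 * j) := mul_nonneg (by positivity) (by linarith)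
      linarith
    rw [max_eq_right h4, zero_mul, zero_mul, zero_div]
  · push Not at ha
    rw [UpC_e0 (by omega), mul_zero, zero_div]

/-- the estimates for `50 j ≤ 33 n` -/
private theorem UpC_near (h : Sys n P E d) (hn : 1500 ≤ n) {J : ℕ} (hJ1 : 638 * n < 1000 * (J + 1))
    {j : ℕ} (h1 : J < j) (h2 : 50 * j ≤ 33 * n) :
    (2 * (n : ℝ) + 3 - 3 * j) * (GA n P j * (1 + eA J (j + 1))) ≤ 27 / 100 * ((n : ℝ) + 1 - j) ∧
      s3 n P (GA n P) (XA J) j ≤ 52 / 100 := by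
  have h638 : 638 * n < 1000 * j := by omega
  have hjn : j < n := by omega
  obtain ⟨g0, g1⟩ := UpC_G h hn h638 (by omega)
  obtain ⟨g0', g1'⟩ := UpC_G h hn (show 638 * n < 1000 * (j + 1) by omega) (by omega)
  obtain ⟨f0, f1⟩ := UpC_e h1
  obtain ⟨x0, x1⟩ := UpC_X J (j + 1)
  have r638 : 638 * (n : ℝ) < 1000 * j := by exact_mod_cast h638
  have rn : (1500 : ℝ) ≤ n := by exact_mod_cast hn
  have rj : (j : ℝ) < n := by exact_mod_cast hjn
  have r33 : 50 * (j : ℝ) ≤ 33 * n := by exact_mod_cast h2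
  constructor
  · have h3 : GA n P j * (1 + eA J (j + 1)) ≤ 100 / 109 * (1 + 189 / 1000) :=
      mul_le_mul g1 (by linarith) (by linarith) (by norm_num)
    have h4 : 0 ≤ 2 * (n : ℝ) + 3 - 3 * j := by linarith
    have h5 := mul_le_mul_of_nonneg_left h3 h4
    linarith
  · refine (UpC_s3 h (by omega) hjn (by omega) (by linarith) g0.le g0'.le).trans ?_
    have hG : GA n P j * yy P (j - 1) ≤ (503 / 500) ^ 4 := by
      rw [GA_mid (by omega) (by omega)]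
      have e1 : min (j - 5) (33 * n / 50) = j - 5 := min_eq_left (by omega)
      rw [e1]
      obtain ⟨m, rfl⟩ : ∃ m, j = m + 5 := ⟨j - 5, by omega⟩
      have e2 : m + 5 - 5 = m := rfl
      have e3 : m + 5 - 1 = m + 4 := rfl
      rw [e2, e3]
      have s1 := step_hi h hn (show 6346 * n + 10000 ≤ 10000 * (m + 4) by omega) (by omega)
      have s2 := step_hi h hn (show 6346 * n + 10000 ≤ 10000 * (m + 3) by omega) (by omega)
      have s3 := step_hi h hn (show 6346 * n + 10000 ≤ 10000 * (m + 2) by omega) (by omega)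
      have s4 := step_hi h hn (show 6346 * n + 10000 ≤ 10000 * (m + 1) by omega) (by omega)
      have e4 : m + 4 - 1 = m + 3 := rfl
      have e5 : m + 3 - 1 = m + 2 := rfl
      have e6 : m + 2 - 1 = m + 1 := rfl
      have e7 : m + 1 - 1 = m := rfl
      rw [e4] at s1
      rw [e5] at s2
      rw [e6] at s3
      rw [e7] at s4
      have hy := y_pos h (show m < n by omega)
      rw [one_div, inv_mul_eq_div, div_le_iff₀ hy]
      linarith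
    have hGy0 : 0 ≤ GA n P j * yy P (j - 1) := mul_nonneg g0.le (y_pos h (show j - 1 < n by omega)).le
    have hr : ((j : ℝ) - 1) / (3 * (j : ℝ) - n) ≤ 699 / 1000 := by
      rw [div_le_iff₀ (by linarith)]
      linarith
    have hr0 : 0 ≤ ((j : ℝ) - 1) / (3 * (j : ℝ) - n) := div_nonneg (by linarith) (by linarith)
    have h3 : XA J (j + 1) * (GA n P j * yy P (j - 1)) ≤ 7 / 4 * (503 / 500) ^ 4 :=
      mul_le_mul x1 hG hGy0 (by norm_num)
    have h4 : XA J (j + 1) * (GA n P j * yy P (j - 1)) * GA n P (j + 1) ≤ 7 / 4 * (503 / 500) ^ 4 * (100 / 109) :=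
      mul_le_mul h3 g1' g0'.le (by norm_num)
    have h5 : 4 / 9 * (XA J (j + 1) * (GA n P j * yy P (j - 1)) * GA n P (j + 1)) *
        (((j : ℝ) - 1) / (3 * (j : ℝ) - n)) ≤ 4 / 9 * (7 / 4 * (503 / 500) ^ 4 * (100 / 109)) * (699 / 1000) :=
      mul_le_mul (mul_le_mul_of_nonneg_left h4 (by norm_num)) hr hr0 (by norm_num)
    refine h5.trans ?_
    norm_num

theorem up_hX (h : Sys n P E d) (hn : 1500 ≤ n) {J : ℕ} (hJ1 : 638 * n < 1000 * (J + 1))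
    (hJ2 : 20 * J ≤ 13 * n) {j : ℕ} (h1 : J < j) (h2 : j < n) :
    1 + eA J (j + 1) + rb n P j * XA J (j + 1) * GA n P (j + 1) * cc n P (j + 1) /
      cc n P (j + 2) ≤ XA J j := by
  have h638 : 638 * n < 1000 * j := by omega
  obtain ⟨g0', g1'⟩ := UpC_G h hn (show 638 * n < 1000 * (j + 1) by omega) (by omega)
  obtain ⟨q0, q1⟩ := UpC_Q h (show 1 ≤ j by omega) h2 (by omega)
  obtain ⟨f0, f1⟩ := UpC_e h1
  obtain ⟨x0, x1⟩ := UpC_X J (j + 1)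
  have r638 : 638 * (n : ℝ) < 1000 * j := by exact_mod_cast h638
  have rn : (1500 : ℝ) ≤ n := by exact_mod_cast hn
  have rj : (j : ℝ) < n := by exact_mod_cast h2
  have e1 : rb n P j * XA J (j + 1) * GA n P (j + 1) * cc n P (j + 1) / cc n P (j + 2) =
      XA J (j + 1) * (GA n P (j + 1) * (rb n P j * cc n P (j + 1) / cc n P (j + 2))) := by ring
  have hQ : GA n P (j + 1) * (rb n P j * cc n P (j + 1) / cc n P (j + 2)) ≤ 2 / 7 := by
    have h3 : GA n P (j + 1) * (rb n P j * cc n P (j + 1) / cc n P (j + 2)) ≤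
        100 / 109 * (4 / 9 * (j : ℝ) / (3 * (j : ℝ) - n)) := mul_le_mul g1' q1 q0 (by norm_num)
    refine h3.trans ?_
    rw [mul_div_assoc', div_le_iff₀ (by linarith)]
    linarith
  have hQ0 : 0 ≤ GA n P (j + 1) * (rb n P j * cc n P (j + 1) / cc n P (j + 2)) := mul_nonneg g0'.le q0
  rw [e1]
  by_cases hj : J + 8 ≤ j
  · rw [UpC_e0 hj, UpC_X0 hj, UpC_X0 (show J + 8 ≤ j + 1 by omega)]
    linarith
  · have e2 : XA J j = 7 / 4 := by
      unfold XA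
      rw [if_pos (by omega)]
    rw [e2]
    have h3 := mul_le_mul x1 hQ hQ0 (by norm_num : (0 : ℝ) ≤ 7 / 4)
    linarith

theorem up_hs (h : Sys n P E d) (hn : 1500 ≤ n) {J : ℕ} (hJ1 : 638 * n < 1000 * (J + 1))
    (hJ2 : 20 * J ≤ 13 * n) {j : ℕ} (h1 : J < j) (h2 : j ≤ n) :
    max (bb n P j - cc n P j) 0 * GA n P j * (1 + eA J (j + 1)) / cc n P (j + 1) +
      max (cc n P j - bb n P j) 0 * GA n P j * eA J (j + 1) / cc n P (j + 1) +
      s3 n P (GA n P) (XA J) j ≤ 1 := by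
  have h638 : 638 * n < 1000 * j := by omega
  have ht2 : max (cc n P j - bb n P j) 0 * GA n P j * eA J (j + 1) / cc n P (j + 1) = 0 := by
    rcases UpC_t2 h hn hJ2 (show 2 ≤ j by omega) (g := GA n P j) with h3 | h3
    · exact h3
    · omega
  rw [ht2, add_zero, mul_assoc (max (bb n P j - cc n P j) 0)]
  obtain ⟨g0, g1⟩ := UpC_G h hn h638 (by omega)
  obtain ⟨f0, f1⟩ := UpC_e h1
  have r638 : 638 * (n : ℝ) < 1000 * j := by exact_mod_cast h638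
  have rn : (1500 : ℝ) ≤ n := by exact_mod_cast hn
  have rj : (j : ℝ) ≤ n := by exact_mod_cast h2
  rcases Nat.lt_or_ge j n with hjn | hjn
  swap
  · -- `j = n`
    have hjn' : j = n := le_antisymm h2 hjn
    have hs3 : s3 n P (GA n P) (XA J) j = 0 := by
      unfold s3 rb
      rw [h.P_zero (j + 1) (by omega), mul_zero, zero_div, mul_zero, zero_mul, zero_mul, zero_mul, zero_div]
    rw [hs3, add_zero]
    refine (UpC_t1 h (by omega) h2 le_rfl fun h3 => ?_).trans zero_le_one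
    omega
  have rj' : (j : ℝ) < n := by exact_mod_cast hjn
  by_cases h50 : 50 * j ≤ 33 * n
  · obtain ⟨a1, a2⟩ := UpC_near h hn hJ1 h1 h50
    have h3 := UpC_t1 h (show 2 ≤ j by omega) h2 (by norm_num) (fun _ => a1)
    linarith
  push Not at h50
  have r50 : 33 * (n : ℝ) < 50 * j := by exact_mod_cast h50
  have he0 : eA J (j + 1) = 0 := UpC_e0 (by omega)
  have hX0 : XA J (j + 1) = 7 / 5 := UpC_X0 (by omega)
  obtain ⟨g0', -⟩ := UpC_G h hn (show 638 * n < 1000 * (j + 1) by omega) (by omega)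
  have hs := UpC_s3 h (G := GA n P) (X := XA J) (show 2 ≤ j by omega) hjn (by omega)
    (by rw [hX0]; norm_num) g0.le g0'.le
  rw [hX0] at hs
  -- `y_{j-1} ≤ j / (n+1-j)`
  have hz := z_le h (show j - 1 < n by omega)
  rw [Nat.cast_sub (show 1 ≤ j by omega), Nat.cast_one, sub_add_cancel] at hz
  have hV : 0 < (n : ℝ) - (j - 1) := by linarith
  have hD : 0 < 3 * (j : ℝ) - n := by linarith
  have hy : yy P (j - 1) ≤ (j : ℝ) / ((n : ℝ) - (j - 1)) := by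
    rw [le_div_iff₀ hV, mul_comm]
    exact hz
  have hy0 : 0 ≤ yy P (j - 1) := (y_pos h (show j - 1 < n by omega)).le
  by_cases h4n : 5 * j ≤ 4 * n
  · -- case C
    have r4n : 5 * (j : ℝ) ≤ 4 * n := by exact_mod_cast h4n
    have g2 := UpC_G2 h hn h50 (by omega)
    have g2' := UpC_G2 h hn (show 33 * n < 50 * (j + 1) by omega) (by omega)
    have h3 : GA n P j * yy P (j - 1) ≤ 100 / 123 * ((j : ℝ) / ((n : ℝ) - (j - 1))) :=
      mul_le_mul g2 hy hy0 (by norm_num)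
    have h4 : 7 / 5 * (GA n P j * yy P (j - 1)) * GA n P (j + 1) ≤
        7 / 5 * (100 / 123 * ((j : ℝ) / ((n : ℝ) - (j - 1)))) * (100 / 123) :=
      mul_le_mul (mul_le_mul_of_nonneg_left h3 (by norm_num)) g2' g0'.le (by positivity)
    have h5 : s3 n P (GA n P) (XA J) j ≤ 4 / 9 * (7 / 5 * (100 / 123 * ((j : ℝ) / ((n : ℝ) - (j - 1)))) * (100 / 123)) *
        (((j : ℝ) - 1) / (3 * (j : ℝ) - n)) := by
      refine hs.trans (mul_le_mul_of_nonneg_right (mul_le_mul_of_nonneg_left h4 (by norm_num)) ?_)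
      exact div_nonneg (by linarith) hD.le
    have h6 : 4 / 9 * (7 / 5 * (100 / 123 * ((j : ℝ) / ((n : ℝ) - (j - 1)))) * (100 / 123)) *
        (((j : ℝ) - 1) / (3 * (j : ℝ) - n)) = 280000 / 680805 * ((j : ℝ) * (j - 1)) /
          (((n : ℝ) - (j - 1)) * (3 * (j : ℝ) - n)) := by
      field_simp
      ring
    rw [h6] at h5
    by_cases ha : 3 * j ≤ 2 * n + 3
    · have ra : 3 * (j : ℝ) ≤ 2 * n + 3 := by exact_mod_cast ha
      have h7 : max (bb n P j - cc n P j) 0 * (GA n P j * (1 + eA J (j + 1))) / cc n P (j + 1) ≤ 1 / 10 := by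
        refine UpC_t1 h (by omega) h2 (by norm_num) fun _ => ?_
        rw [he0, add_zero, mul_one]
        have h8 := mul_le_mul_of_nonneg_left g2 (show 0 ≤ 2 * (n : ℝ) + 3 - 3 * j by linarith)
        linarith
      have h8 : 280000 / 680805 * ((j : ℝ) * (j - 1)) / (((n : ℝ) - (j - 1)) * (3 * (j : ℝ) - n)) ≤ 9 / 10 := by
        rw [div_le_iff₀ (by positivity)]
        nlinarith [mul_nonneg (show 0 ≤ 50 * (j : ℝ) - 33 * n by linarith) (show 0 ≤ 67 * (n : ℝ) - 100 * j by linarith),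
          mul_nonneg (show 0 ≤ (n : ℝ) by linarith) (show 0 ≤ 67 * (n : ℝ) - 100 * j by linarith)]
      linarith
    · push Not at ha
      have h7 : max (bb n P j - cc n P j) 0 * (GA n P j * (1 + eA J (j + 1))) / cc n P (j + 1) ≤ 0 :=
        UpC_t1 h (by omega) h2 le_rfl fun h8 => absurd h8 (by omega)
      have h8 : 280000 / 680805 * ((j : ℝ) * (j - 1)) / (((n : ℝ) - (j - 1)) * (3 * (j : ℝ) - n)) ≤ 1 := by
        rw [div_le_one (by positivity)]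
        nlinarith [mul_nonneg (show 0 ≤ 50 * (j : ℝ) - 33 * n by linarith) (show 0 ≤ 4 * (n : ℝ) - 5 * j by linarith),
          mul_nonneg (show 0 ≤ (n : ℝ) by linarith) (show 0 ≤ 4 * (n : ℝ) - 5 * j by linarith)]
      linarith
  · -- case D
    push Not at h4n
    have r4n : 4 * (n : ℝ) < 5 * j := by exact_mod_cast h4n
    have h7 : max (bb n P j - cc n P j) 0 * (GA n P j * (1 + eA J (j + 1))) / cc n P (j + 1) ≤ 0 :=
      UpC_t1 h (by omega) h2 le_rfl fun h8 => absurd h8 (by omega)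
    have hj4 : 0 < (j : ℝ) - 4 := by linarith
    have hj3 : 0 < (j : ℝ) - 3 := by linarith
    have hGj : GA n P j = 3 * (2 * (n : ℝ) - 2 * j + 3) / (2 * ((j : ℝ) - 4)) := GA_high (by omega) h4n
    have hGj' : GA n P (j + 1) = 3 * (2 * (n : ℝ) - 2 * j + 1) / (2 * ((j : ℝ) - 3)) := by
      rw [GA_high (by omega) (by omega)]
      unfold Gt
      push_cast
      congr 1
      · ring
      · ring
    have h3 : GA n P j * GA n P (j + 1) ≤ 9 * ((n : ℝ) - (j - 1)) ^ 2 / (((j : ℝ) - 4) * ((j : ℝ) - 3)) := by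
      rw [hGj, hGj', div_mul_div_comm, div_le_div_iff₀ (by positivity) (by positivity)]
      have h4 : (2 * (n : ℝ) - 2 * j + 3) * (2 * (n : ℝ) - 2 * j + 1) ≤ 4 * ((n : ℝ) - (j - 1)) ^ 2 := by
        nlinarith
      have h5 := mul_le_mul_of_nonneg_right h4 (show 0 ≤ 9 * (((j : ℝ) - 4) * ((j : ℝ) - 3)) by positivity)
      linarith
    have h4 : 4 / 9 * (7 / 5 * (GA n P j * yy P (j - 1)) * GA n P (j + 1)) =
        28 / 45 * ((GA n P j * GA n P (j + 1)) * yy P (j - 1)) := by ring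
    rw [h4] at hs
    have h5 : GA n P j * GA n P (j + 1) * yy P (j - 1) ≤
        9 * ((n : ℝ) - (j - 1)) ^ 2 / (((j : ℝ) - 4) * ((j : ℝ) - 3)) * ((j : ℝ) / ((n : ℝ) - (j - 1))) :=
      mul_le_mul h3 hy hy0 (by positivity)
    have h6 : s3 n P (GA n P) (XA J) j ≤ 28 / 45 * (9 * ((n : ℝ) - (j - 1)) ^ 2 / (((j : ℝ) - 4) * ((j : ℝ) - 3)) *
        ((j : ℝ) / ((n : ℝ) - (j - 1)))) * (((j : ℝ) - 1) / (3 * (j : ℝ) - n)) := by
      refine hs.trans (mul_le_mul_of_nonneg_right (mul_le_mul_of_nonneg_left h5 (by norm_num)) ?_)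
      exact div_nonneg (by linarith) hD.le
    have h8 : 28 / 45 * (9 * ((n : ℝ) - (j - 1)) ^ 2 / (((j : ℝ) - 4) * ((j : ℝ) - 3)) *
        ((j : ℝ) / ((n : ℝ) - (j - 1)))) * (((j : ℝ) - 1) / (3 * (j : ℝ) - n)) =
        28 / 5 * ((n : ℝ) - (j - 1)) * ((j : ℝ) * (j - 1)) / ((((j : ℝ) - 4) * ((j : ℝ) - 3)) * (3 * (j : ℝ) - n)) := by
      field_simp
      ring
    rw [h8] at h6
    have h9 : 28 / 5 * ((n : ℝ) - (j - 1)) * ((j : ℝ) * (j - 1)) / ((((j : ℝ) - 4) * ((j : ℝ) - 3)) * (3 * (j : ℝ) - n)) ≤ 1 := by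
      rw [div_le_one (by positivity)]
      have a1 : (j : ℝ) * (j - 1) ≤ 101 / 100 * (((j : ℝ) - 4) * ((j : ℝ) - 3)) := by nlinarith
      have a2 : 28 / 5 * (101 / 100) * ((n : ℝ) - (j - 1)) ≤ 3 * (j : ℝ) - n := by linarith
      have a3 := mul_le_mul_of_nonneg_left a1 (show 0 ≤ 28 / 5 * ((n : ℝ) - (j - 1)) by positivity)
      have a4 := mul_le_mul_of_nonneg_right a2 (show 0 ≤ (((j : ℝ) - 4) * ((j : ℝ) - 3)) by positivity)
      linarith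
    linarith

theorem up_hx (h : Sys n P E d) (hn : 1500 ≤ n) {J : ℕ} (hJ1 : 638 * n < 1000 * (J + 1))
    (hJ2 : 20 * J ≤ 13 * n) :
    1 + |bb n P (J + 1) - cc n P (J + 1)| * GA n P (J + 1) * (1 + eA J (J + 2)) /
      cc n P (J + 2) + s3 n P (GA n P) (XA J) (J + 1) ≤ 9 / 5 := by
  obtain ⟨a1, a2⟩ := UpC_near h hn hJ1 (Nat.lt_succ_self J) (show 50 * (J + 1) ≤ 33 * n by omega)
  have h3 := UpC_t1 h (show 2 ≤ J + 1 by omega) (show J + 1 ≤ n by omega) (by norm_num) (fun _ => a1)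
  obtain ⟨e1, -⟩ := UpC_bc h (show 2 ≤ J + 1 by omega)
  have hp := h.P_pos (J + 1 - 1) (by omega)
  have hnn : 0 ≤ bb n P (J + 1) - cc n P (J + 1) := by
    rw [e1]
    have h4 : 3 * ((J + 1 : ℕ) : ℝ) ≤ 2 * n + 3 := by
      have h5 : 3 * (J + 1) ≤ 2 * n + 3 := by omega
      exact_mod_cast h5
    exact mul_nonneg (by positivity) (by linarith)
  rw [max_eq_left hnn, ← mul_assoc] at h3
  rw [abs_of_nonneg hnn]
  have e2 : J + 1 + 1 = J + 2 := rfl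
  rw [e2] at h3
  linarith

end

end Pool.Agent.Lib.MP_eeed5c_coC
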