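import Pool.Agent.Lib.MP_eeed5c_co_C.UpA
import Pool.Agent.Lib.MP_eeed5c_co_C.UpB
import Pool.Agent.Lib.MP_eeed5c_co_C.UpC

/-!
# Upper part, large `n`: assembly

PROOF. All fields from `UpA`, `UpB`, `UpC`. `hJ`: `n ≤ 2J` from `638 n < 1000(J+1)`, `hJn` from
`20 J ≤ 13 n`. `he0`, `he1`: `eA J j` is `0` for `j ≤ J` and `(41/40)^(J+9-j) - 1 ≤ (41/40)^8 - 1 ≤ 1`
for `j > J`. `hXn`: `n > J+7`, `XA J n = 7/5`. In `hR`: `J + 2 ≤ j` gives `638 n < 1000 j`.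
-/

set_option autoImplicit false

namespace Pool.Agent.Lib.MP_eeed5c_coC

theorem up_an {n : ℕ} {P E d : ℕ → ℝ} (h : Sys n P E d) (hn : 1500 ≤ n) {J : ℕ}
    (hJ1 : 638 * n < 1000 * (J + 1)) (hJ2 : 20 * J ≤ 13 * n)
    (hK : ∀ j, J < j → j ≤ n → (3 * (j : ℝ) - n) * P j ≤ 2 * ((n : ℝ) + 2 - j) * P (j - 2)) :
    Up n J P (GA n P) (eA J) (eA J) (XA J) (9 / 5) := by
  have he0 : ∀ j, 0 ≤ eA J j := by
    intro j
    unfold eA
    split_ifs with hj
    · exact le_refl 0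
    · have h1 : (1 : ℝ) ≤ (41 / 40) ^ (J + 9 - j) := one_le_pow₀ (by norm_num)
      linarith
  have he1 : ∀ j, eA J j ≤ 1 := by
    intro j
    unfold eA
    split_ifs with hj
    · norm_num
    · have h1 : ((41 : ℝ) / 40) ^ (J + 9 - j) ≤ (41 / 40) ^ 8 :=
        pow_le_pow_right₀ (by norm_num) (by omega)
      have h2 : ((41 : ℝ) / 40) ^ 8 ≤ 2 := by norm_num
      linarith
  refine
    { hJ := by omega
      hJn := by omega
      hK := hK
      hR := fun j h1 h2 => up_hR h hn (by omega) h2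
      he := fun j h1 h2 => up_he h hn hJ1 hJ2 hK h1 h2
      hf := fun j h1 h2 => up_hf h hn hJ1 hJ2 hK h1 h2
      he0 := he0
      he1 := he1
      hf0 := he0
      hXn := ?_
      hX := fun j h1 h2 => up_hX h hn hJ1 hJ2 h1 h2
      hρ := fun j h1 h2 => up_hρ h hn (by omega) h2
      hs := fun j h1 h2 => up_hs h hn hJ1 hJ2 h1 h2
      hx := up_hx h hn hJ1 hJ2 }
  unfold XA
  split_ifs <;> norm_num

end Pool.Agent.Lib.MP_eeed5c_coC
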