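import Pool.Agent.Lib.MP_eeed5c_co_C.An2
import Pool.Agent.Lib.MP_eeed5c_co_C.UpD
import Pool.Agent.Lib.MP_eeed5c_co_C.LowA
import Pool.Agent.Lib.MP_eeed5c_co_C.MidA
import Pool.Agent.Lib.MP_eeed5c_co_C.MidB

/-!
# All numerical conditions for `n ≥ 1500`

PROOF. `J` from `locJ`, `F` from `locF`. `Up` is `up_an`, `Low` is `low_an` with `r = 2`, `s = 10`,
`Y = YA F`. `Mid` with `a = aA n F P`, `L = LA F`, `U = UA F J`, `Y = YA F`, `W = WA n F P`, `x = 9/5`: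
`hF` (`F ≥ 541`), `hFJ` (`F ≤ .3614 n + 1 ≤ .638 n - 1 < J`), `hJn`, `hF3`, `hK` (`mid_hK`), `ha0`
(`yy P j ≥ 0` for `j < n` (`y_pos`) and for `j ≥ n` too since `P (j+1) = 0` and `x/0 = 0`; the last case
of `aA` has `2j > n` so `3j+3-n > 0`), `haJ`: `aA n F P J = (J+1)/(3(3J+3-n))` (`n < 2J`), and the
inequality is `hK` of `locJ` at `j = J+1`: `(3(J+1)-n) P_{J+1} ≤ 2(n+1-J) P_{J-1}`,
`cc n P (J+1) = 6(n+1-J)P_{J-1}`; `ha` (`mid_ha`), `hL0` (`LA_nonneg`), `hUJ` (`UA F J J = 9/5`), `hL`,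
`hU`, `hY0`, `hY`, `hW0`: `WA n F P (F-1) = P_F/P_{F-1}` (empty product, `P_{F-1} > 0`), `hW`.
-/

set_option autoImplicit false
set_option linter.unusedSectionVars false

namespace Pool.Agent.Lib.MP_eeed5c_coC

private theorem An_yy0 {n : ℕ} {P E d : ℕ → ℝ} (h : Sys n P E d) (j : ℕ) : 0 ≤ yy P j := by
  rcases Nat.lt_or_ge j n with h1 | h1
  · exact (y_pos h h1).le
  · unfold yy
    rw [h.P_zero (j + 1) (by omega), div_zero]

private theorem An_aA0 {n : ℕ} {P E d : ℕ → ℝ} (h : Sys n P E d) (F j : ℕ) : 0 ≤ aA n F P j := by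
  unfold aA
  split_ifs with h1 h2
  · exact An_yy0 h _
  · exact An_yy0 h _
  · have h3 : (n : ℝ) ≤ 2 * j := by
      have : n ≤ 2 * j := by omega
      exact_mod_cast this
    have h4 : (0 : ℝ) ≤ j := Nat.cast_nonneg j
    refine div_nonneg (by linarith) (by linarith)

theorem mid_an {n : ℕ} {P E d : ℕ → ℝ} (h : Sys n P E d) (hn : 1500 ≤ n) {F J : ℕ}
    (hF1 : 3612 * n ≤ 10000 * F) (hF2 : 10000 * F ≤ 3614 * n + 10000) (hF3 : n < 3 * F)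
    (hlt : 26 * F ^ 2 + 6 * n ^ 2 + 18 * n < 26 * n * F + 52 * F)
    (hJ1 : 638 * n < 1000 * (J + 1)) (hJ2 : 20 * J ≤ 13 * n)
    (hK : ∀ j, J < j → j ≤ n → (3 * (j : ℝ) - n) * P j ≤ 2 * ((n : ℝ) + 2 - j) * P (j - 2))
    (hKJ : ∀ j, n ≤ 2 * j + 1 → j ≤ J →
      2 * ((n : ℝ) + 2 - j) * P (j - 2) ≤ (3 * (j : ℝ) - n) * P j) :
    Mid n J F P (GA n P) (aA n F P) (LA F) (UA F J) (YA F) (WA n F P) (9 / 5) := by
  have hJn : J < n := by omega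
  refine ⟨by omega, by omega, hJn, hF3, ?_, An_aA0 h F, ?_, ?_, LA_nonneg F, ?_, ?_, ?_, mid_hY0 F, ?_, ?_, ?_⟩
  · intro j h1 h2
    exact mid_hK h hn hF1 hF2 hlt hKJ h1 h2
  · have h1 := hK (J + 1) (by omega) (by omega)
    have h2 : aA n F P J = ((J : ℝ) + 1) / (3 * (3 * (J : ℝ) + 3 - n)) := by
      unfold aA
      rw [if_neg (by omega), if_neg (by omega)]
    have h3 : (n : ℝ) ≤ 2 * J := by
      have : n ≤ 2 * J := by omega
      exact_mod_cast this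
    have h4 : (0 : ℝ) ≤ J := Nat.cast_nonneg J
    have h5 : 0 < 3 * (3 * (J : ℝ) + 3 - n) := by linarith
    rw [h2, div_mul_eq_mul_div, le_div_iff₀ h5]
    unfold cc
    push_cast at h1 ⊢
    have h6 := mul_le_mul_of_nonneg_left h1 (show (0 : ℝ) ≤ 3 * (J + 1) by linarith)
    linarith
  · intro j h1 h2
    exact mid_ha h hn hF1 hF2 hlt hJ2 h1 h2
  · unfold UA
    rw [if_pos rfl]
  · intro j h1 h2
    exact mid_hL h hn hF1 hF2 hJ1 hJ2 h1 h2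
  · intro j h1 h2
    exact mid_hU h hn hF1 hF2 hJ1 hJ2 h1 h2
  · intro j h1 h2
    exact mid_hY h hn hF1 hF2 hJ1 hJ2 h1 h2
  · unfold WA
    rw [Finset.Ico_self, Finset.prod_empty, mul_one, div_mul_cancel₀ _ (h.P_pos (F - 1) (by omega)).ne']
  · intro j h1 h2
    exact mid_hW h (by omega) h1 (by omega)

theorem good_an {n : ℕ} {P E d : ℕ → ℝ} (h : Sys n P E d) (hn : 1500 ≤ n) :
    Good n P (GA n P) := by
  obtain ⟨J, hJ1, hJ2, hK, hKJ⟩ := locJ h hn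
  obtain ⟨F, hF1, hF2, hF3, hlt, hmin⟩ := locF hn
  exact ⟨J, F, eA J, eA J, XA J, aA n F P, LA F, UA F J, YA F, WA n F P, 9 / 5, 2, 10,
    up_an h hn hJ1 hJ2 hK, mid_an h hn hF1 hF2 hF3 hlt hJ1 hJ2 hK hKJ, low_an h hn hF1 hF2 hmin⟩

end Pool.Agent.Lib.MP_eeed5c_coC
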