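import Pool.Agent.Lib.MP_eeed5c_co_C.Ratio

/-!
# General estimates of the ratios `y_j = yy P j`

NOTATION. `y = yy P j`, `w = yy P (j-1)`, `y'' = yy P (j-2)`.

PROOFS.
`y_ub`. Suppose `c < y`. `y_rl` at `j` without its last term, divided by `j`:
`j y ≤ (j+1+7y) w`. `7 c1 ≤ j` (from `e1`: `7 c c1 ≤ j c`), so
`c1 (j+1+7y) = c1 (j+1+7c) + 7 c1 (y-c) ≤ j c + j (y-c) = j y ≤ (j+1+7y) w`, hence `c1 ≤ w`.
`y_rl` at `j-1` in the same way: `(j-1) w ≤ (j+7w) y''`. `7 c2 ≤ j-1` (from `e2` if `c1 > 0`; if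
`c1 = 0` then `c2 j ≤ 0`, `c2 = 0`), so `c2 (j+7w) = c2 (j+7c1) + 7 c2 (w-c1) ≤ (j-1) w`, hence
`c2 ≤ y''`. By `y_rec`
`j+1 = y [3(n-3j) + 6 w ((n-j+2) y'' + (2n-3j+3))]`, the inner bracket is `≥` the number in `e3`,
so the outer bracket is at least the bracket `B0` of `e4`; `c B0 ≥ j+1 > 0` gives `B0 > 0` and
`j+1 ≥ y B0 > c B0 ≥ j+1`, a contradiction.
`y_lb2`. If `3j ≤ 2n+3`: `y_lb` at `j` (the hypothesis of `y_lb` is linear in `j`: the difference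
right minus left is increasing in `j`, so it holds at `j ≥ α n`). Otherwise let `i = (2n+3)/3` (natural
division), `i ≤ j`, `3 i ≤ 2n+3`, `i ≥ (2n+1)/3 ≥ α n`, apply the first case to `i` and `y_mono`.
`y_ub2`. Let `i = ⌊α n⌋` (`Nat.floor`): `α n - 1 < i ≤ α n`, `i < n`, `3 ≤ i`, `j ≤ i`. Apply `y_ub`
at `i` and `y_mono`. `e1` of `y_ub`: `c1 (1+7c) ≤ (c-c1) i`; `e2`: `c1 + 7 c1 c2 ≤ (c1-c2) i`; the
numbers in `e3`, `e4` are nonincreasing in `i` (use `6 c1 ≥ 0`), so their values at `α n` suffice.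
`y_inc`. `y_rl` at `j`, `6 (n-j+1) y w^2 ≥ 6 ζ j y w`, divide by `j`.
`y_quad`. `y_rec` (times `1/y`): `6(n-j+2) w y'' = (j+1)/y + 3(3j-n) + 6(3j-3-2n) w`, and
`y'' ≤ w` (`y_mono`), `(j+1)/y > 0`.
`kap`. Put `K` = the first factor of the right side, `M = (j-1)(n-j+1)/j`, `c = 2n+3-3j ≥ 0`,
`x = 1/y`. `y_ulc` at `j-1`: `(n-j+2) y'' ≤ M w`, so `K ≥ 3(3j-n) - 6 M w^2`. `y_rec`:
`K = 6 c w - (j+1) x`. `y_ulc` at `j`: `(j+1)(n-j+1) w x ≤ j(n-j)`, so `M (j+1) w x ≤ (j-1)(n-j)`.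
Then `K (c + M w) ≥ c (3(3j-n) - 6 M w^2) + M w (6 c w - (j+1) x) = 3(3j-n) c - M(j+1) w x
≥ 3(3j-n) c - (j-1)(n-j)`.
`kap_prop` (`2 ≤ j < n`, `n ≤ 2j+1`). Put `y = yy P j`. `y_ulc` at `j` and `j-1`:
`(j+1)(n-j+1) w ≤ j(n-j) y`, `j(n-j+2) y'' ≤ (j-1)(n-j+1) w`; the product of the two (all
nonnegative) gives `(j+1)(n-j+2) w y'' ≤ (j-1)(n-j) y w` (if `w = 0`.. `w > 0` by `y_pos`). So
`(j-1)(n-j) * 2(n+1-j) y w ≥ (n+1-j)(j+1) * 2(n+2-j) w y'' ≥ (n+1-j)(j+1)(3j-n)`, and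
`(n+1-j)(j+1)(3j-n) - (j-1)(n-j)(3j+3-n) = 2n(2j-n+1) ≥ 0`; divide by `(j-1)(n-j) > 0`.
`kap_P`: `P (j-2) / P j = y'' w` for `2 ≤ j ≤ n` (`P (j-2)/P (j-1) * P (j-1)/P j`), so this is just
the division by `P j > 0`.
-/

set_option autoImplicit false

namespace Pool.Agent.Lib.MP_eeed5c_coC

section

variable {n : ℕ} {P E d : ℕ → ℝ}

theorem y_ub (h : Sys n P E d) {j : ℕ} (h3 : 3 ≤ j) (hj : j < n) {c c1 c2 : ℝ} (hc : 0 < c)
    (h1 : 0 ≤ c1) (h2 : 0 ≤ c2) (e1 : c1 * ((j : ℝ) + 1 + 7 * c) ≤ j * c)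
    (e2 : c2 * ((j : ℝ) + 7 * c1) ≤ ((j : ℝ) - 1) * c1)
    (e3 : 0 ≤ ((n : ℝ) - j + 2) * c2 + (2 * (n : ℝ) - 3 * j + 3))
    (e4 : (j : ℝ) + 1 ≤ c * (3 * ((n : ℝ) - 3 * j) + 6 * c1 * (((n : ℝ) - j + 2) * c2 +
      (2 * (n : ℝ) - 3 * j + 3)))) : yy P j ≤ c := by
  by_contra hcon
  push Not at hcon
  have hjn : (j : ℝ) < n := by exact_mod_cast hj
  have hj3 : (3 : ℝ) ≤ j := by exact_mod_cast h3
  have p0 := y_pos h hj
  have p1 := y_pos h (show j - 1 < n by omega)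
  have p2 := y_pos h (show j - 2 < n by omega)
  have s1 := y_step h (show 1 ≤ j by omega) hj le_rfl
  have s2 := y_step h (show 1 ≤ j - 1 by omega) (show j - 1 < n by omega) le_rfl
  have hr := y_rec h (show 2 ≤ j by omega) hj
  have ej : j - 1 - 1 = j - 2 := by omega
  have ec : ((j - 1 : ℕ) : ℝ) = (j : ℝ) - 1 := by
    rw [Nat.cast_sub (by omega)]
    norm_num
  rw [ej, ec] at s2
  set y := yy P j with hy
  set w := yy P (j - 1) with hw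
  set v := yy P (j - 2) with hv
  have a1 : 7 * c1 ≤ j := by
    have a2 : c * (7 * c1) ≤ c * j := by nlinarith
    exact le_of_mul_le_mul_left a2 hc
  have a3 : c1 ≤ w := by
    have a4 : 0 < (j : ℝ) + 1 + 7 * y := by linarith
    have a5 : ((j : ℝ) + 1 + 7 * y) * c1 ≤ ((j : ℝ) + 1 + 7 * y) * w := by
      refine le_trans ?_ s1
      have a6 := mul_le_mul_of_nonneg_right a1 (sub_pos.2 hcon).le
      nlinarith
    exact le_of_mul_le_mul_left a5 a4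
  have b1 : 7 * c2 ≤ (j : ℝ) - 1 := by
    rcases h1.eq_or_lt with h10 | h10
    · rw [← h10] at e2
      have b2 : c2 * (j : ℝ) ≤ 0 := by linarith
      have b3 : c2 ≤ 0 := by
        by_contra hneg
        push Not at hneg
        have := mul_pos hneg (show (0 : ℝ) < j by linarith)
        linarith
      linarith
    · have b4 : c1 * (7 * c2) ≤ c1 * ((j : ℝ) - 1) := by nlinarith
      exact le_of_mul_le_mul_left b4 h10
  have b3 : c2 ≤ v := by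
    have b4 : 0 < (j : ℝ) - 1 + 1 + 7 * w := by linarith
    have b5 : ((j : ℝ) - 1 + 1 + 7 * w) * c2 ≤ ((j : ℝ) - 1 + 1 + 7 * w) * v := by
      refine le_trans ?_ s2
      have b6 := mul_le_mul_of_nonneg_right b1 (sub_nonneg.2 a3)
      nlinarith
    exact le_of_mul_le_mul_left b5 b4
  obtain ⟨I0, hI0⟩ : ∃ I0 : ℝ, I0 = ((n : ℝ) - j + 2) * c2 + (2 * (n : ℝ) - 3 * j + 3) := ⟨_, rfl⟩
  obtain ⟨I1, hI1⟩ : ∃ I1 : ℝ, I1 = ((n : ℝ) - j + 2) * v + (2 * (n : ℝ) - 3 * j + 3) := ⟨_, rfl⟩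
  rw [← hI0] at e3 e4
  have g1 : I0 ≤ I1 := by
    rw [hI0, hI1]
    have := mul_le_mul_of_nonneg_left b3 (show 0 ≤ (n : ℝ) - j + 2 by linarith)
    linarith
  have g2 : c1 * I0 ≤ w * I1 := mul_le_mul a3 g1 e3 p1.le
  obtain ⟨B0, hB0⟩ : ∃ B0 : ℝ, B0 = 3 * ((n : ℝ) - 3 * j) + 6 * c1 * I0 := ⟨_, rfl⟩
  rw [← hB0] at e4
  have g3 : (j : ℝ) + 1 = y * (3 * ((n : ℝ) - 3 * j) + 6 * (w * I1)) := by
    rw [hI1, hr]
    ring
  have g4 : B0 ≤ 3 * ((n : ℝ) - 3 * j) + 6 * (w * I1) := by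
    rw [hB0]
    linarith
  have g5 := mul_le_mul_of_nonneg_left g4 p0.le
  have g6 : 0 < c * B0 := by linarith
  have g7 : 0 < B0 := (pos_iff_pos_of_mul_pos g6).1 hc
  have g8 := mul_lt_mul_of_pos_right hcon g7
  linarith

theorem y_lb2 (h : Sys n P E d) {α c : ℝ} (hα : 2 ≤ α * n) (hα1 : 3 * α * n ≤ 2 * n) (hc : 0 ≤ c)
    (hlt : 3 * ((n : ℝ) - 3 * (α * n)) * c + 6 * (2 * (n : ℝ) - 3 * (α * n) + 3) * c ^ 2 +
      6 * ((n : ℝ) - α * n + 2) * c ^ 3 < α * n + 1) {j : ℕ} (h1 : α * n ≤ j) (hj : j < n) :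
    c < yy P j := by
  have key : ∀ i : ℕ, α * n ≤ i → i < n → 3 * i ≤ 2 * n + 3 → c < yy P i := by
    intro i hi hin hi3
    have hi2 : (2 : ℝ) ≤ i := hα.trans hi
    refine y_lb h (by exact_mod_cast hi2) hin hi3 hc ?_
    obtain ⟨t, ht⟩ : ∃ t : ℝ, t = i - α * n := ⟨_, rfl⟩
    have ht0 : 0 ≤ t := by rw [ht]; linarith
    have ei : (i : ℝ) = α * n + t := by rw [ht]; ring
    rw [ei]
    have k1 : 0 ≤ t * c := mul_nonneg ht0 hc
    have k2 : 0 ≤ t * c ^ 2 := mul_nonneg ht0 (pow_nonneg hc 2)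
    have k3 : 0 ≤ t * c ^ 3 := mul_nonneg ht0 (pow_nonneg hc 3)
    nlinarith
  rcases Nat.lt_or_ge (2 * n + 3) (3 * j) with h3 | h3
  · obtain ⟨i, hi⟩ : ∃ i : ℕ, i = (2 * n + 3) / 3 := ⟨_, rfl⟩
    have hi1 : 3 * i ≤ 2 * n + 3 := by omega
    have hi2 : 2 * n < 3 * i := by omega
    have hi3 : i ≤ j := by omega
    have hi4 : 2 * (n : ℝ) < 3 * i := by exact_mod_cast hi2
    exact (key i (by linarith) (by omega) hi1).trans_le (y_mono h hi3 hj)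
  · exact key j h1 hj h3

theorem y_ub2 (h : Sys n P E d) {α c c1 c2 : ℝ} (hα : 4 ≤ α * n) (hα1 : α * n < n) (hc : 0 < c)
    (h2 : 0 ≤ c2) (h21 : c2 ≤ c1) (h1c : c1 ≤ c)
    (e1 : c1 * (1 + 7 * c) ≤ (c - c1) * (α * n - 1))
    (e2 : c1 + 7 * c1 * c2 ≤ (c1 - c2) * (α * n - 1))
    (e3 : 0 ≤ ((n : ℝ) - α * n + 2) * c2 + (2 * (n : ℝ) - 3 * (α * n) + 3))
    (e4 : α * n + 1 ≤ c * (3 * ((n : ℝ) - 3 * (α * n)) + 6 * c1 * (((n : ℝ) - α * n + 2) * c2 +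
      (2 * (n : ℝ) - 3 * (α * n) + 3)))) {j : ℕ} (hj : (j : ℝ) ≤ α * n) : yy P j ≤ c := by
  have hα0 : 0 ≤ α * (n : ℝ) := by linarith
  obtain ⟨i, hi⟩ : ∃ i : ℕ, i = ⌊α * (n : ℝ)⌋₊ := ⟨_, rfl⟩
  have i1 : (i : ℝ) ≤ α * n := by
    rw [hi]
    exact Nat.floor_le hα0
  have i2 : α * (n : ℝ) < i + 1 := by
    rw [hi]
    exact Nat.lt_floor_add_one _
  have i3 : j ≤ i := by
    rw [hi]
    exact Nat.le_floor hj
  have i4 : i < n := by
    have : (i : ℝ) < n := i1.trans_lt hα1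
    exact_mod_cast this
  have i5 : 3 ≤ i := by
    have : (3 : ℝ) < i + 1 := by linarith
    have : (3 : ℕ) < i + 1 := by exact_mod_cast this
    omega
  have hc1 : 0 ≤ c1 := h2.trans h21
  refine (y_mono h i3 i4).trans (y_ub h i5 i4 hc hc1 h2 ?_ ?_ ?_ ?_)
  · have := mul_le_mul_of_nonneg_left (show α * (n : ℝ) - 1 ≤ i by linarith) (sub_nonneg.2 h1c)
    linarith
  · have := mul_le_mul_of_nonneg_left (show α * (n : ℝ) - 1 ≤ i by linarith) (sub_nonneg.2 h21)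
    linarith
  · have := mul_le_mul_of_nonneg_right i1 h2
    linarith
  · have m1 := mul_le_mul_of_nonneg_right i1 h2
    obtain ⟨I0, hI0⟩ : ∃ I0 : ℝ, I0 = ((n : ℝ) - α * n + 2) * c2 + (2 * (n : ℝ) - 3 * (α * n) + 3) :=
      ⟨_, rfl⟩
    obtain ⟨I1, hI1⟩ : ∃ I1 : ℝ, I1 = ((n : ℝ) - i + 2) * c2 + (2 * (n : ℝ) - 3 * i + 3) :=
      ⟨_, rfl⟩
    rw [← hI0] at e4
    rw [← hI1]
    have m2 : I0 ≤ I1 := by
      rw [hI0, hI1]
      linarith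
    have m3 := mul_le_mul_of_nonneg_left m2 hc1
    have m4 : 3 * ((n : ℝ) - 3 * (α * n)) + 6 * c1 * I0 ≤ 3 * ((n : ℝ) - 3 * i) + 6 * c1 * I1 := by
      linarith
    have m5 := mul_le_mul_of_nonneg_left m4 hc.le
    linarith

theorem y_inc (h : Sys n P E d) {j : ℕ} (h1 : 1 ≤ j) (hj : j < n) {ζ : ℝ}
    (hz : ζ * j ≤ ((n : ℝ) - j + 1) * yy P (j - 1)) :
    (j : ℝ) * (yy P j - yy P (j - 1)) ≤ yy P (j - 1) * (1 + (7 - 6 * ζ) * yy P j) := by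
  have hr := y_rl h h1 hj
  have p0 := y_pos h hj
  have p1 := y_pos h (show j - 1 < n by omega)
  have hj0 : (0 : ℝ) < j := by exact_mod_cast h1
  set y := yy P j with hy
  set w := yy P (j - 1) with hw
  have k1 := mul_le_mul_of_nonneg_left hz (mul_pos p0 p1).le
  refine le_of_mul_le_mul_left ?_ hj0
  nlinarith

theorem y_quad (h : Sys n P E d) {j : ℕ} (h2 : 2 ≤ j) (hj : j < n) :
    (3 * (j : ℝ) - n) + 2 * (3 * (j : ℝ) - 3 - 2 * n) * yy P (j - 1) ≤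
      2 * ((n : ℝ) - j + 2) * yy P (j - 1) ^ 2 := by
  have hr := y_rec h h2 hj
  have p0 := y_pos h hj
  have p1 := y_pos h (show j - 1 < n by omega)
  have p2 := y_pos h (show j - 2 < n by omega)
  have hm := y_mono h (show j - 2 ≤ j - 1 by omega) (show j - 1 < n by omega)
  have hj0 : (0 : ℝ) ≤ j := Nat.cast_nonneg j
  have hjn : (j : ℝ) < n := by exact_mod_cast hj
  set y := yy P j with hy
  set w := yy P (j - 1) with hw
  set v := yy P (j - 2) with hv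
  have k1 : w * v ≤ w ^ 2 := by
    rw [sq]
    exact mul_le_mul_of_nonneg_left hm p1.le
  have k2 : 0 ≤ (n : ℝ) - j + 2 := by linarith
  have k3 := mul_le_mul_of_nonneg_left k1 k2
  have k4 : y * ((3 * (j : ℝ) - n) + 2 * (3 * (j : ℝ) - 3 - 2 * n) * w) ≤
      y * (2 * (((n : ℝ) - j + 2) * (w * v))) := by
    linarith
  have k5 := le_of_mul_le_mul_left k4 p0
  linarith

theorem kap (h : Sys n P E d) {j : ℕ} (h2 : 2 ≤ j) (hj : j < n) (h3 : 3 * j ≤ 2 * n + 3) :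
    3 * (3 * (j : ℝ) - n) * (2 * (n : ℝ) + 3 - 3 * j) - ((j : ℝ) - 1) * ((n : ℝ) - j) ≤
      (3 * (3 * (j : ℝ) - n) - 6 * ((n : ℝ) + 2 - j) * yy P (j - 1) * yy P (j - 2)) *
        ((2 * (n : ℝ) + 3 - 3 * j) + ((j : ℝ) - 1) * ((n : ℝ) - j + 1) / j * yy P (j - 1)) := by
  have hr := y_rec h h2 hj
  have p0 := y_pos h hj
  have p1 := y_pos h (show j - 1 < n by omega)
  have p2 := y_pos h (show j - 2 < n by omega)
  have u1 := y_ulc h (show 1 ≤ j by omega) hj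
  have u2 := y_ulc h (show 1 ≤ j - 1 by omega) (show j - 1 < n by omega)
  have hj2 : (2 : ℝ) ≤ j := by exact_mod_cast h2
  have hj0 : (0 : ℝ) < j := by linarith
  have hjn : (j : ℝ) < n := by exact_mod_cast hj
  have h3' : 3 * (j : ℝ) ≤ 2 * n + 3 := by exact_mod_cast h3
  have ej : j - 1 - 1 = j - 2 := by omega
  have ec : ((j - 1 : ℕ) : ℝ) = (j : ℝ) - 1 := by
    rw [Nat.cast_sub (by omega)]
    norm_num
  rw [ej, ec] at u2
  set y := yy P j with hy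
  set w := yy P (j - 1) with hw
  set v := yy P (j - 2) with hv
  obtain ⟨M, hM⟩ : ∃ M : ℝ, M = ((j : ℝ) - 1) * ((n : ℝ) - j + 1) / j := ⟨_, rfl⟩
  obtain ⟨C, hC⟩ : ∃ C : ℝ, C = 2 * (n : ℝ) + 3 - 3 * j := ⟨_, rfl⟩
  obtain ⟨x, hx⟩ : ∃ x : ℝ, x = 1 / y := ⟨_, rfl⟩
  obtain ⟨K, hK⟩ : ∃ K : ℝ, K = 3 * (3 * (j : ℝ) - n) - 6 * ((n : ℝ) + 2 - j) * w * v := ⟨_, rfl⟩
  rw [← hM, ← hC, ← hK]
  have hC0 : 0 ≤ C := by rw [hC]; linarith
  have hM0 : 0 ≤ M := by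
    rw [hM]
    exact div_nonneg (mul_nonneg (by linarith) (by linarith)) hj0.le
  have hjM : (j : ℝ) * M = ((j : ℝ) - 1) * ((n : ℝ) - j + 1) := by
    rw [hM]
    exact mul_div_cancel₀ _ hj0.ne'
  have hxy : x * y = 1 := by
    rw [hx]
    exact one_div_mul_cancel p0.ne'
  have hx0 : 0 < x := by
    rw [hx]
    exact one_div_pos.2 p0
  -- first bound of `K`
  have k1 : ((n : ℝ) + 2 - j) * v ≤ M * w := by
    refine le_of_mul_le_mul_left ?_ hj0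
    have e1 : (j : ℝ) * (M * w) = ((j : ℝ) - 1) * ((n : ℝ) - j + 1) * w := by
      rw [← mul_assoc, hjM]
    rw [e1]
    linarith
  have k2 : 3 * (3 * (j : ℝ) - n) - 6 * (M * w ^ 2) ≤ K := by
    rw [hK]
    have := mul_le_mul_of_nonneg_left k1 p1.le
    linarith
  -- second expression of `K`
  have k3 : K = 6 * C * w - ((j : ℝ) + 1) * x := by
    have e1 : ((j : ℝ) + 1) * x = (3 * ((n : ℝ) - 3 * j) + 6 * (2 * (n : ℝ) - 3 * j + 3) * w +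
        6 * ((n : ℝ) - j + 2) * w * v) * (x * y) := by
      rw [hr]
      ring
    rw [hxy] at e1
    rw [e1, hK, hC]
    ring
  have k4 : M * w * (((j : ℝ) + 1) * x) ≤ ((j : ℝ) - 1) * ((n : ℝ) - j) := by
    refine le_of_mul_le_mul_left ?_ hj0
    have e1 : (j : ℝ) * (M * w * (((j : ℝ) + 1) * x)) =
        ((j : ℝ) - 1) * ((((j : ℝ) + 1) * ((n : ℝ) - j + 1) * w) * x) := by
      have : (j : ℝ) * (M * w * (((j : ℝ) + 1) * x)) = ((j : ℝ) * M) * w * (((j : ℝ) + 1) * x) := by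
        ring
      rw [this, hjM]
      ring
    have e2 : (j : ℝ) * (((j : ℝ) - 1) * ((n : ℝ) - j)) =
        ((j : ℝ) - 1) * (((j : ℝ) * ((n : ℝ) - j) * y) * x) := by
      have : ((j : ℝ) - 1) * (((j : ℝ) * ((n : ℝ) - j) * y) * x) =
          (j : ℝ) * (((j : ℝ) - 1) * ((n : ℝ) - j)) * (x * y) := by ring
      rw [this, hxy, mul_one]
    rw [e1, e2]
    exact mul_le_mul_of_nonneg_left (mul_le_mul_of_nonneg_right u1 hx0.le) (by linarith)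
  have k5 := mul_le_mul_of_nonneg_left k2 hC0
  have k6 : K * (C + M * w) = C * K + M * w * K := by ring
  have k7 : M * w * K = 6 * C * (M * w ^ 2) - M * w * (((j : ℝ) + 1) * x) := by
    rw [k3]
    ring
  rw [k6, k7]
  have e3 : C * (3 * (3 * (j : ℝ) - n) - 6 * (M * w ^ 2)) =
      3 * (3 * (j : ℝ) - n) * C - 6 * C * (M * w ^ 2) := by ring
  rw [e3] at k5
  linarith

theorem kap_prop (h : Sys n P E d) {j : ℕ} (h2 : 2 ≤ j) (hj : j < n) (hn : n ≤ 2 * j + 1)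
    (hk : 3 * (j : ℝ) - n ≤ 2 * ((n : ℝ) + 2 - j) * (yy P (j - 1) * yy P (j - 2))) :
    3 * ((j : ℝ) + 1) - n ≤ 2 * ((n : ℝ) + 1 - j) * (yy P j * yy P (j - 1)) := by
  have p0 := y_pos h hj
  have p1 := y_pos h (show j - 1 < n by omega)
  have p2 := y_pos h (show j - 2 < n by omega)
  have u1 := y_ulc h (show 1 ≤ j by omega) hj
  have u2 := y_ulc h (show 1 ≤ j - 1 by omega) (show j - 1 < n by omega)
  have hj2 : (2 : ℝ) ≤ j := by exact_mod_cast h2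
  have hj0 : (0 : ℝ) < j := by linarith
  have hjn : (j : ℝ) < n := by exact_mod_cast hj
  have hn' : (n : ℝ) ≤ 2 * j + 1 := by exact_mod_cast hn
  have ej : j - 1 - 1 = j - 2 := by omega
  have ec : ((j - 1 : ℕ) : ℝ) = (j : ℝ) - 1 := by
    rw [Nat.cast_sub (by omega)]
    norm_num
  rw [ej, ec] at u2
  set y := yy P j with hy
  set w := yy P (j - 1) with hw
  set v := yy P (j - 2) with hv
  have q1 : (((j : ℝ) + 1) * ((n : ℝ) - j + 1) * w) * (j * ((n : ℝ) - j + 2) * v) ≤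
      (j * ((n : ℝ) - j) * y) * (((j : ℝ) - 1) * ((n : ℝ) - j + 1) * w) := by
    refine mul_le_mul u1 ?_ ?_ ?_
    · linarith
    · exact mul_nonneg (mul_nonneg hj0.le (by linarith)) p2.le
    · exact mul_nonneg (mul_nonneg hj0.le (by linarith)) p0.le
  have q2 : 0 < (j : ℝ) * ((n : ℝ) - j + 1) := mul_pos hj0 (by linarith)
  have q3 : ((j : ℝ) + 1) * (((n : ℝ) - j + 2) * (w * v)) ≤
      (((j : ℝ) - 1) * ((n : ℝ) - j)) * (y * w) := by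
    refine le_of_mul_le_mul_left ?_ q2
    linarith
  have q4 : 0 < ((j : ℝ) - 1) * ((n : ℝ) - j) := mul_pos (by linarith) (by linarith)
  refine le_of_mul_le_mul_left ?_ q4
  have q5 := mul_le_mul_of_nonneg_left q3 (show 0 ≤ 2 * ((n : ℝ) + 1 - j) by linarith)
  have q6 := mul_le_mul_of_nonneg_left hk
    (show 0 ≤ ((n : ℝ) + 1 - j) * ((j : ℝ) + 1) from mul_nonneg (by linarith) (by linarith))
  have q7 : 0 ≤ 2 * (n : ℝ) * (2 * j - n + 1) := mul_nonneg (by linarith) (by linarith)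
  have q8 : ((n : ℝ) + 1 - j) * ((j : ℝ) + 1) * (3 * (j : ℝ) - n) =
      ((j : ℝ) - 1) * ((n : ℝ) - j) * (3 * ((j : ℝ) + 1) - n) + 2 * (n : ℝ) * (2 * j - n + 1) := by
    ring
  have q9 : ((n : ℝ) + 1 - j) * ((j : ℝ) + 1) * (2 * ((n : ℝ) + 2 - j) * (w * v)) =
      2 * ((n : ℝ) + 1 - j) * (((j : ℝ) + 1) * (((n : ℝ) - j + 2) * (w * v))) := by ring
  have q10 : ((j : ℝ) - 1) * ((n : ℝ) - j) * (2 * ((n : ℝ) + 1 - j) * (y * w)) =
      2 * ((n : ℝ) + 1 - j) * ((((j : ℝ) - 1) * ((n : ℝ) - j)) * (y * w)) := by ring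
  rw [q10]
  rw [q8, q9] at q6
  linarith

theorem kap_P (h : Sys n P E d) {j : ℕ} (h2 : 2 ≤ j) (hj : j ≤ n) :
    P (j - 2) = yy P (j - 1) * yy P (j - 2) * P j := by
  have e1 : j - 2 + 1 = j - 1 := by omega
  have e2 : j - 1 + 1 = j := by omega
  have p1 := h.P_pos (j - 1) (by omega)
  have p0 := h.P_pos j hj
  unfold yy
  rw [e1, e2]
  field_simp

end

end Pool.Agent.Lib.MP_eeed5c_coC
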