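import Pool.Agent.Lib.MP_eeed5c_co_C.Ratio

/-!
# Growth bounds and the explicit sequences for large `n`
-/

set_option autoImplicit false

namespace Pool.Agent.Lib.MP_eeed5c_coC

/-- The rational growth bound. -/
noncomputable def G2 (n j : ℕ) : ℝ :=
  (2 * (n : ℝ) - 2 * j + 3) * (6 * (n : ℝ) - 4 * j - 1) / (2 * (2 * (n : ℝ) - 7) * ((j : ℝ) - 4))

/-- The trivial growth bound. -/
noncomputable def Gt (n j : ℕ) : ℝ := 3 * (2 * (n : ℝ) - 2 * j + 3) / (2 * ((j : ℝ) - 4))

/-- The growth bound for large `n`. -/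
noncomputable def GA (n : ℕ) (P : ℕ → ℝ) (j : ℕ) : ℝ :=
  if 100 * j < 32 * n + 500 then G2 n j
  else if 5 * j ≤ 4 * n then P (min (j - 5) (33 * n / 50) + 1) / P (min (j - 5) (33 * n / 50))
  else Gt n j

/-- The sequences `e = f` of the upper part. -/
noncomputable def eA (J j : ℕ) : ℝ := if j ≤ J then 0 else (41 / 40) ^ (J + 9 - j) - 1

/-- The sequence `X` of the upper part. -/
noncomputable def XA (J j : ℕ) : ℝ := if j ≤ J + 7 then 7 / 4 else 7 / 5

/-- The sequence `a` of the middle part. -/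
noncomputable def aA (n F : ℕ) (P : ℕ → ℝ) (j : ℕ) : ℝ :=
  if j < F + 9 then yy P (F + 4)
  else if 2 * j ≤ n then yy P (j - 5)
  else ((j : ℝ) + 1) / (3 * (3 * (j : ℝ) + 3 - n))

/-- The sequence `L` of the middle part. -/
noncomputable def LA (F j : ℕ) : ℝ := (201 / 200) ^ ((F + 9 - j) * (F + 9 - j - 1) / 2) - 1

/-- The sequence `U` of the middle part. -/
noncomputable def UA (F J j : ℕ) : ℝ := if j = J then 9 / 5 else 1 + LA F j

/-- The sequence `Y` of the middle part. -/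
noncomputable def YA (F j : ℕ) : ℝ := 7 / 5 - 7 / 5 * ∑ i ∈ Finset.Ico F j, LA F i

/-- The sequence `W` of the middle part. -/
noncomputable def WA (n F : ℕ) (P : ℕ → ℝ) (j : ℕ) : ℝ :=
  P F / P j * ∏ i ∈ Finset.Ico (F - 1) j, GA n P i

end Pool.Agent.Lib.MP_eeed5c_coC
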