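import Pool.Agent.Lib.MP_eeed5c_co_C.An0
import Pool.Agent.Lib.MP_eeed5c_co_C.GDef

/-!
# Numerical estimates of the ratios, `n ≥ 1500`

PROOFS. Lower bounds: `y_lb2` with the given `α`, `c` (the hypothesis `hlt` is, after `norm_num`, a
linear inequality in `n`, true for `n ≥ 1500`; the coefficients of `n` and the constants are given in
the list: left coefficient, constant, right coefficient):
`y_lo1`: `α = 355/1000`, `c = 49/200` (`.3459 n + 1.3 < .355 n + 1`).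
`y_lo2`: `α = 358/1000`, `c = 1/4` (`.3520 n + 1.4 < .358 n + 1`).
`y_lo3`: `α = 328/1000`, `c = 1/5` (`.2858 n + .9 < .328 n + 1`).
`y_lo4`: `α = 495/1000`, `c = 1/2` (`.4238 n + 6 < .495 n + 1`).
`y_lo5`: `α = 6346/10000`, `c = 109/100` (`.5696 n + 37 < .6346 n + 1`).
`y_lo6`: `α = 6486/10000`, `c = 118/100` (`.5689 n + 45 < .6486 n + 1`).
`y_lo7`: `α = 656/1000`, `c = 123/100` (`.5594 n + 50 < .656 n + 1`).
`y_lo8`: `α = 6593/10000`, `c = 126/100` (`.6033 n + 53 < .6593 n + 1`).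
Upper bounds: `y_ub2` with
`y_up1`: `α = 3685/10000`, `c, c1, c2 = .27, .2685, .267` (`e4`: `.3685 n + 1 ≤ .3769 n + 6`).
`y_up2`: `α = 1/2`, `.55, .545, .54` (`e4`: `.5 n + 1 ≤ .559 n + 7`).
`y_up3`: `α = 66/100`, `1.35, 1.335, 1.32` (`.66 n + 1 ≤ 1.1 n`).
`y_up4`: `α = 77/100`, `3, 2.94, 2.88` (`.77 n + 1 ≤ 6.8 n`).
Bounds of `z_j = (n-j) y_j/(j+1)` (`z_mono`):
`z_up1` (`2j ≤ n`): let `i = n/2` (natural division), `n - i ≤ i + 1`, so `(n-i) y_i ≤ .55 (i+1)`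
by `y_up2`; `z_mono` for `j ≤ i`.
`z_up2` (`100 j ≤ 77 n`): `i = 77n/100`: `(n-i) * 3 ≤ (.23 n + 1) * 3 ≤ .9 * .77 n ≤ .9 (i+1)`.
`z_lo1`: let `i` be the least natural number with `355 n ≤ 1000 i`, so `i ≤ j`, `i < .355 n + 1`:
`(n-i) y_i ≥ (.645 n - 1) * .245 ≥ .44 (.355 n + 2) ≥ .44 (i+1)`.
`z_lo2`: `i` least with `6346 n ≤ 10000 i`: `(n-i) y_i ≥ (.3654 n - 1)(1.09) ≥ .62 (.6346 n + 2)`.
`z_lo3` (`33n/50 ≤ j`): `i = 33n/50` (natural division; `.66 n - 1 < i ≤ .66 n`, `i ≥ .6593 n` because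
`50 i ≥ 33 n - 49`): `(n-i) y_i ≥ .34 n * 1.26 ≥ .648 (.66 n + 1)`.
`z_lo4` (`3n ≤ 4j + 4`, i.e. `j + 1 ≥ .75 n`): let `i` be the least natural number with `3n ≤ 4i`, so
`i ≤ j+1`, `.75 n ≤ i < .75 n + 1`, `w = y_{i-1}`. `y_quad` at `i`:
`(3i-n) + 2(3i-3-2n) w ≤ 2(n-i+2) w^2`. Claim `w ≥ 21/10`: otherwise (convexity)
`2(n-i+2) w^2 ≤ 2(n-i+2)(2.1) w ≤ (1.05 n + 8.4) w`, so `1.25 n + (.5 n - 6) w ≤ (1.05 n + 8.4) w`,
i.e. `1.25 n ≤ (.55 n + 14.4) w < (.55 n + 14.4)(2.1) = 1.155 n + 30.24`, false for `n ≥ 1500`.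
Then `(n-(i-1)) y_{i-1} ≥ .25 n * 2.1 ≥ .69 (.75 n + 1) ≥ .69 i`, and `z_mono`.
`step_lo` (`355 n ≤ 1000 (i-1)` in the form `355 n + 1000 ≤ 1000 i`, `10000 i ≤ 3685 n`): `y_inc` with
`ζ = .44` (`z_lo1` at `i-1`): `i (y_i - y_{i-1}) ≤ y_{i-1} (1 + 4.36 * .27) ≤ 2.1772 y_{i-1}
≤ (i/200) y_{i-1}` (`i ≥ 533`).
`step_lo2`: the same, `≤ .27 * 2.1772 = .58785`, and if `359 n ≤ 1000 i` then
`y_i - y_{i-1} ≤ .58785/(.359 n) ≤ 33/(20 n)`.
`step_hi` (`6346 n + 10000 ≤ 10000 i`, `50 i ≤ 33 n`): `y_inc` with `ζ = .62` (`z_lo2`):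
`i (y_i - y_{i-1}) ≤ y_{i-1} (1 + 3.28 * 1.35) = 5.428 y_{i-1} ≤ (3 i/500) y_{i-1}` (`i ≥ 952`).
`GA_mid`, `GA_high`: unfold the definitions (`1 / (a/b) = b/a`).
-/

set_option autoImplicit false

namespace Pool.Agent.Lib.MP_eeed5c_coC

section

variable {n : ℕ} {P E d : ℕ → ℝ}

/-- transport of an upper bound -/
private theorem An1_up (h : Sys n P E d) {i j : ℕ} (hji : j ≤ i) (hi : i < n) {c z : ℝ}
    (hc : yy P i ≤ c) (hz : ((n : ℝ) - i) * c ≤ z * ((i : ℝ) + 1)) :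
    ((n : ℝ) - j) * yy P j ≤ z * ((j : ℝ) + 1) := by
  have h1 := z_mono h hji hi
  have h2 : (0 : ℝ) ≤ j := Nat.cast_nonneg j
  have h3 : (0 : ℝ) ≤ i := Nat.cast_nonneg i
  have h4 : (i : ℝ) < n := by exact_mod_cast hi
  have h5 : ((n : ℝ) - i) * yy P i ≤ ((n : ℝ) - i) * c := mul_le_mul_of_nonneg_left hc (by linarith)
  have h6 : ((n : ℝ) - i) * yy P i / ((i : ℝ) + 1) ≤ z := by
    rw [div_le_iff₀ (by linarith)]
    linarith
  have h7 := h1.trans h6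
  rw [div_le_iff₀ (by linarith)] at h7
  exact h7

/-- transport of a lower bound -/
private theorem An1_lo (h : Sys n P E d) {i j : ℕ} (hij : i ≤ j) (hj : j < n) {c z : ℝ}
    (hc : c ≤ yy P i) (hz : z * ((i : ℝ) + 1) ≤ ((n : ℝ) - i) * c) :
    z * ((j : ℝ) + 1) ≤ ((n : ℝ) - j) * yy P j := by
  have h1 := z_mono h hij hj
  have h2 : (0 : ℝ) ≤ j := Nat.cast_nonneg j
  have h3 : (0 : ℝ) ≤ i := Nat.cast_nonneg i
  have h4 : (i : ℝ) < n := by exact_mod_cast lt_of_le_of_lt hij hj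
  have h5 : ((n : ℝ) - i) * c ≤ ((n : ℝ) - i) * yy P i := mul_le_mul_of_nonneg_left hc (by linarith)
  have h6 : z ≤ ((n : ℝ) - i) * yy P i / ((i : ℝ) + 1) := by
    rw [le_div_iff₀ (by linarith)]
    linarith
  have h7 := h6.trans h1
  rw [le_div_iff₀ (by linarith)] at h7
  exact h7

/-- one step from `y_inc` -/
private theorem An1_step {I u w a c e : ℝ} (hI : 0 < I) (hw : 0 ≤ w)
    (h1 : I * (u - w) ≤ w * (1 + (7 - 6 * a) * u)) (hu : u ≤ c)
    (h2 : 0 ≤ 7 - 6 * a ∧ 1 + (7 - 6 * a) * c ≤ (e - 1) * I) : u ≤ e * w := by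
  have t1 : w * (1 + (7 - 6 * a) * u) ≤ w * ((e - 1) * I) := by
    refine mul_le_mul_of_nonneg_left ?_ hw
    have := mul_le_mul_of_nonneg_left hu h2.1
    linarith [h2.2]
  have t2 : I * u ≤ I * (e * w) := by
    have t3 : I * (u - w) ≤ I * ((e - 1) * w) := by
      refine h1.trans (t1.trans (le_of_eq ?_))
      ring
    have t4 : I * u = I * (u - w) + I * w := by ring
    have t5 : I * (e * w) = I * ((e - 1) * w) + I * w := by ring
    linarith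
  exact le_of_mul_le_mul_left t2 hI

theorem y_lo1 (h : Sys n P E d) (hn : 1500 ≤ n) {j : ℕ} (h1 : 355 * n ≤ 1000 * j) (hj : j < n) :
    49 / 200 < yy P j := by
  have hn' : (1500 : ℝ) ≤ n := by exact_mod_cast hn
  have h1' : 355 * (n : ℝ) ≤ 1000 * j := by exact_mod_cast h1
  exact y_lb2 h (α := 355 / 1000) (c := 49 / 200) (by linarith) (by linarith) (by norm_num)
    (by linarith) (by linarith) hj

theorem y_lo2 (h : Sys n P E d) (hn : 1500 ≤ n) {j : ℕ} (h1 : 358 * n ≤ 1000 * j) (hj : j < n) :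
    1 / 4 < yy P j := by
  have hn' : (1500 : ℝ) ≤ n := by exact_mod_cast hn
  have h1' : 358 * (n : ℝ) ≤ 1000 * j := by exact_mod_cast h1
  exact y_lb2 h (α := 358 / 1000) (c := 1 / 4) (by linarith) (by linarith) (by norm_num)
    (by linarith) (by linarith) hj

theorem y_lo3 (h : Sys n P E d) (hn : 1500 ≤ n) {j : ℕ} (h1 : 328 * n ≤ 1000 * j) (hj : j < n) :
    1 / 5 < yy P j := by
  have hn' : (1500 : ℝ) ≤ n := by exact_mod_cast hn
  have h1' : 328 * (n : ℝ) ≤ 1000 * j := by exact_mod_cast h1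
  exact y_lb2 h (α := 328 / 1000) (c := 1 / 5) (by linarith) (by linarith) (by norm_num)
    (by linarith) (by linarith) hj

theorem y_lo4 (h : Sys n P E d) (hn : 1500 ≤ n) {j : ℕ} (h1 : 495 * n ≤ 1000 * j) (hj : j < n) :
    1 / 2 < yy P j := by
  have hn' : (1500 : ℝ) ≤ n := by exact_mod_cast hn
  have h1' : 495 * (n : ℝ) ≤ 1000 * j := by exact_mod_cast h1
  exact y_lb2 h (α := 495 / 1000) (c := 1 / 2) (by linarith) (by linarith) (by norm_num)
    (by linarith) (by linarith) hj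

theorem y_lo5 (h : Sys n P E d) (hn : 1500 ≤ n) {j : ℕ} (h1 : 6346 * n ≤ 10000 * j)
    (hj : j < n) : 109 / 100 < yy P j := by
  have hn' : (1500 : ℝ) ≤ n := by exact_mod_cast hn
  have h1' : 6346 * (n : ℝ) ≤ 10000 * j := by exact_mod_cast h1
  exact y_lb2 h (α := 6346 / 10000) (c := 109 / 100) (by linarith) (by linarith) (by norm_num)
    (by linarith) (by linarith) hj

theorem y_lo6 (h : Sys n P E d) (hn : 1500 ≤ n) {j : ℕ} (h1 : 6486 * n ≤ 10000 * j)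
    (hj : j < n) : 118 / 100 < yy P j := by
  have hn' : (1500 : ℝ) ≤ n := by exact_mod_cast hn
  have h1' : 6486 * (n : ℝ) ≤ 10000 * j := by exact_mod_cast h1
  exact y_lb2 h (α := 6486 / 10000) (c := 118 / 100) (by linarith) (by linarith) (by norm_num)
    (by linarith) (by linarith) hj

theorem y_lo7 (h : Sys n P E d) (hn : 1500 ≤ n) {j : ℕ} (h1 : 656 * n ≤ 1000 * j) (hj : j < n) :
    123 / 100 < yy P j := by
  have hn' : (1500 : ℝ) ≤ n := by exact_mod_cast hn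
  have h1' : 656 * (n : ℝ) ≤ 1000 * j := by exact_mod_cast h1
  exact y_lb2 h (α := 656 / 1000) (c := 123 / 100) (by linarith) (by linarith) (by norm_num)
    (by linarith) (by linarith) hj

theorem y_lo8 (h : Sys n P E d) (hn : 1500 ≤ n) {j : ℕ} (h1 : 6593 * n ≤ 10000 * j)
    (hj : j < n) : 126 / 100 < yy P j := by
  have hn' : (1500 : ℝ) ≤ n := by exact_mod_cast hn
  have h1' : 6593 * (n : ℝ) ≤ 10000 * j := by exact_mod_cast h1
  exact y_lb2 h (α := 6593 / 10000) (c := 126 / 100) (by linarith) (by linarith) (by norm_num)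
    (by linarith) (by linarith) hj

theorem y_up1 (h : Sys n P E d) (hn : 1500 ≤ n) {j : ℕ} (h1 : 10000 * j ≤ 3685 * n) :
    yy P j ≤ 27 / 100 := by
  have hn' : (1500 : ℝ) ≤ n := by exact_mod_cast hn
  have h1' : 10000 * (j : ℝ) ≤ 3685 * n := by exact_mod_cast h1
  exact y_ub2 h (α := 3685 / 10000) (c := 27 / 100) (c1 := 2685 / 10000) (c2 := 267 / 1000) (by linarith) (by linarith)
    (by norm_num) (by norm_num) (by norm_num) (by norm_num) (by linarith) (by linarith)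
    (by linarith) (by linarith) (by linarith)

theorem y_up2 (h : Sys n P E d) (hn : 1500 ≤ n) {j : ℕ} (h1 : 2 * j ≤ n) :
    yy P j ≤ 11 / 20 := by
  have hn' : (1500 : ℝ) ≤ n := by exact_mod_cast hn
  have h1' : 2 * (j : ℝ) ≤ n := by exact_mod_cast h1
  exact y_ub2 h (α := 1 / 2) (c := 11 / 20) (c1 := 545 / 1000) (c2 := 54 / 100) (by linarith) (by linarith)
    (by norm_num) (by norm_num) (by norm_num) (by norm_num) (by linarith) (by linarith)
    (by linarith) (by linarith) (by linarith)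

theorem y_up3 (h : Sys n P E d) (hn : 1500 ≤ n) {j : ℕ} (h1 : 50 * j ≤ 33 * n) :
    yy P j ≤ 27 / 20 := by
  have hn' : (1500 : ℝ) ≤ n := by exact_mod_cast hn
  have h1' : 50 * (j : ℝ) ≤ 33 * n := by exact_mod_cast h1
  exact y_ub2 h (α := 66 / 100) (c := 27 / 20) (c1 := 1335 / 1000) (c2 := 132 / 100) (by linarith) (by linarith)
    (by norm_num) (by norm_num) (by norm_num) (by norm_num) (by linarith) (by linarith)
    (by linarith) (by linarith) (by linarith)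

theorem y_up4 (h : Sys n P E d) (hn : 1500 ≤ n) {j : ℕ} (h1 : 100 * j ≤ 77 * n) :
    yy P j ≤ 3 := by
  have hn' : (1500 : ℝ) ≤ n := by exact_mod_cast hn
  have h1' : 100 * (j : ℝ) ≤ 77 * n := by exact_mod_cast h1
  exact y_ub2 h (α := 77 / 100) (c := 3) (c1 := 294 / 100) (c2 := 288 / 100) (by linarith) (by linarith)
    (by norm_num) (by norm_num) (by norm_num) (by norm_num) (by linarith) (by linarith)
    (by linarith) (by linarith) (by linarith)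

theorem z_up1 (h : Sys n P E d) (hn : 1500 ≤ n) {j : ℕ} (h1 : 2 * j ≤ n) :
    ((n : ℝ) - j) * yy P j ≤ 11 / 20 * ((j : ℝ) + 1) := by
  have hn' : (1500 : ℝ) ≤ n := by exact_mod_cast hn
  obtain ⟨i, hi⟩ : ∃ i : ℕ, i = n / 2 := ⟨_, rfl⟩
  have hi1 : 2 * i ≤ n := by omega
  have hi2 : n ≤ 2 * i + 1 := by omega
  have hji : j ≤ i := by omega
  have hin : i < n := by omega
  have hi2' : (n : ℝ) ≤ 2 * i + 1 := by exact_mod_cast hi2
  refine An1_up h hji hin (y_up2 h hn hi1) ?_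
  linarith

theorem z_up2 (h : Sys n P E d) (hn : 1500 ≤ n) {j : ℕ} (h1 : 100 * j ≤ 77 * n) :
    ((n : ℝ) - j) * yy P j ≤ 9 / 10 * ((j : ℝ) + 1) := by
  have hn' : (1500 : ℝ) ≤ n := by exact_mod_cast hn
  obtain ⟨i, hi⟩ : ∃ i : ℕ, i = 77 * n / 100 := ⟨_, rfl⟩
  have hi1 : 100 * i ≤ 77 * n := by omega
  have hi2 : 77 * n ≤ 100 * i + 100 := by omega
  have hji : j ≤ i := by omega
  have hin : i < n := by omega
  have hi2' : 77 * (n : ℝ) ≤ 100 * i + 100 := by exact_mod_cast hi2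
  refine An1_up h hji hin (y_up4 h hn hi1) ?_
  linarith

theorem z_lo1 (h : Sys n P E d) (hn : 1500 ≤ n) {j : ℕ} (h1 : 355 * n ≤ 1000 * j) (hj : j < n) :
    44 / 100 * ((j : ℝ) + 1) ≤ ((n : ℝ) - j) * yy P j := by
  have hn' : (1500 : ℝ) ≤ n := by exact_mod_cast hn
  obtain ⟨i, hi⟩ : ∃ i : ℕ, i = (355 * n + 999) / 1000 := ⟨_, rfl⟩
  have hi1 : 355 * n ≤ 1000 * i := by omega
  have hi2 : 1000 * i ≤ 355 * n + 1000 := by omega
  have hij : i ≤ j := by omega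
  have hi2' : 1000 * (i : ℝ) ≤ 355 * n + 1000 := by exact_mod_cast hi2
  refine An1_lo h hij hj (y_lo1 h hn hi1 (by omega)).le ?_
  linarith

theorem z_lo2 (h : Sys n P E d) (hn : 1500 ≤ n) {j : ℕ} (h1 : 6346 * n ≤ 10000 * j)
    (hj : j < n) : 62 / 100 * ((j : ℝ) + 1) ≤ ((n : ℝ) - j) * yy P j := by
  have hn' : (1500 : ℝ) ≤ n := by exact_mod_cast hn
  obtain ⟨i, hi⟩ : ∃ i : ℕ, i = (6346 * n + 9999) / 10000 := ⟨_, rfl⟩
  have hi1 : 6346 * n ≤ 10000 * i := by omega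
  have hi2 : 10000 * i ≤ 6346 * n + 10000 := by omega
  have hij : i ≤ j := by omega
  have hi2' : 10000 * (i : ℝ) ≤ 6346 * n + 10000 := by exact_mod_cast hi2
  refine An1_lo h hij hj (y_lo5 h hn hi1 (by omega)).le ?_
  linarith

theorem z_lo3 (h : Sys n P E d) (hn : 1500 ≤ n) {j : ℕ} (h1 : 33 * n / 50 ≤ j) (hj : j < n) :
    648 / 1000 * ((j : ℝ) + 1) ≤ ((n : ℝ) - j) * yy P j := by
  have hn' : (1500 : ℝ) ≤ n := by exact_mod_cast hn
  obtain ⟨i, hi⟩ : ∃ i : ℕ, i = 33 * n / 50 := ⟨_, rfl⟩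
  have hi1 : 50 * i ≤ 33 * n := by omega
  have hi3 : 6593 * n ≤ 10000 * i := by omega
  have hij : i ≤ j := by omega
  have hi1' : 50 * (i : ℝ) ≤ 33 * n := by exact_mod_cast hi1
  refine An1_lo h hij hj (y_lo8 h hn hi3 (by omega)).le ?_
  linarith

theorem z_lo4 (h : Sys n P E d) (hn : 1500 ≤ n) {j : ℕ} (h1 : 3 * n ≤ 4 * j + 4) (hj : j < n) :
    69 / 100 * ((j : ℝ) + 1) ≤ ((n : ℝ) - j) * yy P j := by
  have hn' : (1500 : ℝ) ≤ n := by exact_mod_cast hn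
  obtain ⟨i, hi⟩ : ∃ i : ℕ, i + 1 = (3 * n + 3) / 4 := ⟨(3 * n + 3) / 4 - 1, by omega⟩
  have hi1 : 3 * n ≤ 4 * (i + 1) := by omega
  have hi2 : 4 * (i + 1) ≤ 3 * n + 4 := by omega
  have hij : i ≤ j := by omega
  have hi1' : 3 * (n : ℝ) ≤ 4 * ((i : ℝ) + 1) := by exact_mod_cast hi1
  have hi2' : 4 * ((i : ℝ) + 1) ≤ 3 * n + 4 := by exact_mod_cast hi2
  have hq := y_quad h (show 2 ≤ i + 1 by omega) (show i + 1 < n by omega)
  rw [Nat.add_sub_cancel] at hq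
  push_cast at hq
  have hp := y_pos h (show i < n by omega)
  have hw : 21 / 10 ≤ yy P i := by
    obtain ⟨w, hw⟩ : ∃ w : ℝ, w = yy P i := ⟨_, rfl⟩
    obtain ⟨N, hN⟩ : ∃ N : ℝ, N = (n : ℝ) := ⟨_, rfl⟩
    obtain ⟨I, hI⟩ : ∃ I : ℝ, I = (i : ℝ) := ⟨_, rfl⟩
    rw [← hw, ← hN, ← hI] at hq
    rw [← hN, ← hI] at hi1' hi2'
    rw [← hN] at hn'
    rw [← hw] at hp ⊢
    by_contra hc
    have hc : w < 21 / 10 := not_le.1 hc
    have t1 : (N / 2 - 6) * w ≤ 2 * (3 * (I + 1) - 3 - 2 * N) * w :=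
      mul_le_mul_of_nonneg_right (by linarith) hp.le
    have t2 : w ^ 2 ≤ 21 / 10 * w := by nlinarith
    have t3 : 2 * (N - (I + 1) + 2) * w ^ 2 ≤ (N / 2 + 4) * (21 / 10 * w) :=
      mul_le_mul (by linarith) t2 (sq_nonneg w) (by linarith)
    have t4 : (55 / 100 * N + 144 / 10) * w ≤ (55 / 100 * N + 144 / 10) * (21 / 10) :=
      mul_le_mul_of_nonneg_left hc.le (by linarith)
    nlinarith
  refine An1_lo h hij hj hw ?_
  linarith

theorem step_lo (h : Sys n P E d) (hn : 1500 ≤ n) {i : ℕ} (h1 : 355 * n + 1000 ≤ 1000 * i)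
    (h2 : 10000 * i ≤ 3685 * n) : yy P i ≤ 201 / 200 * yy P (i - 1) := by
  have hn' : (1500 : ℝ) ≤ n := by exact_mod_cast hn
  have hin : i < n := by omega
  have e1 : ((i - 1 : ℕ) : ℝ) = (i : ℝ) - 1 := by
    rw [Nat.cast_sub (by omega), Nat.cast_one]
  have hz := z_lo1 h hn (show 355 * n ≤ 1000 * (i - 1) by omega) (show i - 1 < n by omega)
  rw [e1] at hz
  have hi := y_inc h (show 1 ≤ i by omega) hin (ζ := 44 / 100) (by linarith)
  have hu := y_up1 h hn h2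
  have hp := y_pos h (show i - 1 < n by omega)
  have h1' : 355 * (n : ℝ) + 1000 ≤ 1000 * i := by exact_mod_cast h1
  exact An1_step (by linarith) hp.le hi hu ⟨by norm_num, by linarith⟩

theorem step_lo2 (h : Sys n P E d) (hn : 1500 ≤ n) {i : ℕ} (h1 : 359 * n ≤ 1000 * i)
    (h2 : 10000 * i ≤ 3685 * n) : yy P i - yy P (i - 1) ≤ 33 / (20 * (n : ℝ)) := by
  have hn' : (1500 : ℝ) ≤ n := by exact_mod_cast hn
  have hin : i < n := by omega
  have e1 : ((i - 1 : ℕ) : ℝ) = (i : ℝ) - 1 := by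
    rw [Nat.cast_sub (by omega), Nat.cast_one]
  have hz := z_lo1 h hn (show 355 * n ≤ 1000 * (i - 1) by omega) (show i - 1 < n by omega)
  rw [e1] at hz
  have hi := y_inc h (show 1 ≤ i by omega) hin (ζ := 44 / 100) (by linarith)
  have hu := y_up1 h hn h2
  have hu1 := y_up1 h hn (show 10000 * (i - 1) ≤ 3685 * n by omega)
  have hp := y_pos h (show i - 1 < n by omega)
  have h1' : 359 * (n : ℝ) ≤ 1000 * i := by exact_mod_cast h1
  rw [le_div_iff₀ (by linarith)]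
  obtain ⟨u, hu'⟩ : ∃ u : ℝ, u = yy P i := ⟨_, rfl⟩
  obtain ⟨w, hw'⟩ : ∃ w : ℝ, w = yy P (i - 1) := ⟨_, rfl⟩
  rw [← hu', ← hw'] at hi ⊢
  rw [← hu'] at hu
  rw [← hw'] at hu1 hp
  have t1 : w * (1 + (7 - 6 * (44 / 100)) * u) ≤ 27 / 100 * (1 + (7 - 6 * (44 / 100)) * (27 / 100)) :=
    mul_le_mul hu1 (by linarith) (by
      have := y_pos h hin
      rw [← hu'] at this
      linarith) (by norm_num)
  have t2 : (i : ℝ) * (u - w) ≤ 588 / 1000 := by linarith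
  rcases le_total 0 (u - w) with h0 | h0
  · have t3 : 359 / 1000 * (n : ℝ) * (u - w) ≤ i * (u - w) :=
      mul_le_mul_of_nonneg_right (by linarith) h0
    nlinarith
  · have t4 : (u - w) * (20 * (n : ℝ)) ≤ 0 := mul_nonpos_of_nonpos_of_nonneg h0 (by linarith)
    linarith

theorem step_hi (h : Sys n P E d) (hn : 1500 ≤ n) {i : ℕ} (h1 : 6346 * n + 10000 ≤ 10000 * i)
    (h2 : 50 * i ≤ 33 * n) : yy P i ≤ 503 / 500 * yy P (i - 1) := by
  have hn' : (1500 : ℝ) ≤ n := by exact_mod_cast hn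
  have hin : i < n := by omega
  have e1 : ((i - 1 : ℕ) : ℝ) = (i : ℝ) - 1 := by
    rw [Nat.cast_sub (by omega), Nat.cast_one]
  have hz := z_lo2 h hn (show 6346 * n ≤ 10000 * (i - 1) by omega) (show i - 1 < n by omega)
  rw [e1] at hz
  have hi := y_inc h (show 1 ≤ i by omega) hin (ζ := 62 / 100) (by linarith)
  have hu := y_up3 h hn h2
  have hp := y_pos h (show i - 1 < n by omega)
  have h1' : 6346 * (n : ℝ) + 10000 ≤ 10000 * i := by exact_mod_cast h1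
  exact An1_step (by linarith) hp.le hi hu ⟨by norm_num, by linarith⟩

theorem GA_mid {j : ℕ} (h1 : 32 * n + 500 ≤ 100 * j) (h2 : 5 * j ≤ 4 * n) :
    GA n P j = 1 / yy P (min (j - 5) (33 * n / 50)) := by
  unfold GA yy
  rw [if_neg (by omega), if_pos h2, one_div_div]

theorem GA_high {j : ℕ} (h1 : 32 * n + 500 ≤ 100 * j) (h2 : 4 * n < 5 * j) :
    GA n P j = Gt n j := by
  unfold GA
  rw [if_neg (by omega), if_neg (by omega)]

end

end Pool.Agent.Lib.MP_eeed5c_coC
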