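import Pool.Agent.Lib.MP_eeed5c_co_C.An1

/-!
# The places `J` and `F`

NOTATION. `y_j = yy P j`, `κ_j = 3(3j-n) - 6(n+2-j) y_{j-1} y_{j-2}`,
`g(j) = 3(3j-n)(2n+3-3j) - (j-1)(n-j) = 26 j (n-j) + 26 j - 6 n^2 - 8 n`.

PROOFS.
`locJ`. `κ_j > 0` if `2 ≤ j < n`, `3j ≤ 2n+3` and `g(j) > 0`: by `kap`, `g(j) ≤ κ_j D` with `D ≥ 0`
(in fact `D > 0`). Let `j0 = 638n/1000` (natural division), `.638 n - 1 < j0 ≤ .638 n`.
`g(j0) > 0`: `j0 (n-j0) ≥ (.638 n)(.362 n) - ...`: put `j0 = .638 n - t`, `0 ≤ t < 1`; then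
`j0 (n - j0) = .230956 n^2 + .276 n t - t^2`, so `g(j0) ≥ .004856 n^2 + 16.588 n - 8 n - 52 > 0`.
Let `J` be the greatest `j ≤ n` with `κ_j > 0` (`Nat.findGreatest`), so `j0 ≤ J` and `κ_j ≤ 0` for
`J < j ≤ n`; the third statement is `κ_j ≤ 0` multiplied by `P_j/3` (`kap_P`).
`20 J ≤ 13 n`: let `j1 = 13n/20 + 1`, `.65 n < j1 ≤ .65 n + 1`. `κ_{j1} ≤ 0`: `j1 - 2 ≥ .6486 n`
(`.0014 n ≥ 2`: here `j1 > .65 n` gives `j1 - 2 > .65 n - 2`), so by `y_lo6` `y_{j1-1} y_{j1-2} ≥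
1.18^2 = 1.3924`, `2(n+2-j1)(1.3924) ≥ 2 (.35 n + 1)(1.3924) ≥ .97468 n ≥ .95 n + 3 ≥ 3 j1 - n`. By
`kap_prop` and induction `κ_j ≤ 0` for all `j1 ≤ j ≤ n` (`n ≤ 2j+1`), so `J < j1`.
Last statement: let `n ≤ 2j+1`, `j ≤ J`, `j ≥ 2` (as `n ≥ 1500`). If `κ_j ≤ 0` then by `kap_prop` and
induction `κ_J ≤ 0`, but `κ_J > 0`. So `κ_j > 0`; multiply by `P_j/3` (`kap_P`).
`locF`. Let `f(j) = 26j^2 + 6n^2 + 18n - 26nj - 52j` (integers). Let `F` be the least `j` with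
`n < 3j` and `f(j) < 0`; it exists and satisfies `10000 F ≤ 3614 n + 10000` because for
`i = 3614n/10000 + 1` (`.3614 n < i ≤ .3614 n + 1`), `i = .3614 n + t`, `0 ≤ t ≤ 1`:
`f(i) = 26 i (i-n) + 6n^2 + 18 n - 52 i = -.00054 n^2 - 7.2072 n t + 26 t^2 - .7928 n - 52 t < 0`, and `3 i > n`. The last statement is minimality. `3612 n ≤ 10000 F`: otherwise `F = .3612 n - t`,
`t > 0`: `f(F) = -26(.3612)(.6388) n^2 + 6 n^2 + 7.2176 n t + 26 t^2 + 18 n - 18.7824 n + 52 t`, and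
`26 * .3612 * .6388 = 5.9990986`, so `f(F) ≥ .0009 n^2 - .7824 n > 0` for `n ≥ 1500`, a
contradiction.
-/

set_option autoImplicit false

namespace Pool.Agent.Lib.MP_eeed5c_coC

section

variable {n : ℕ} {P E d : ℕ → ℝ}

private theorem An2_chain (h : Sys n P E d) {i : ℕ} (h2 : 2 ≤ i) (hn : n ≤ 2 * i + 1)
    (hk : 3 * (i : ℝ) - n ≤ 2 * ((n : ℝ) + 2 - i) * (yy P (i - 1) * yy P (i - 2))) {j : ℕ} (hij : i ≤ j)
    (hj : j ≤ n) : 3 * (j : ℝ) - n ≤ 2 * ((n : ℝ) + 2 - j) * (yy P (j - 1) * yy P (j - 2)) := by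
  induction j, hij using Nat.le_induction with
  | base => exact hk
  | succ j hij ih =>
    have h3 := kap_prop h (show 2 ≤ j by omega) (by omega) (by omega) (ih (by omega))
    have e1 : j + 1 - 1 = j := rfl
    have e2 : j + 1 - 2 = j - 1 := by omega
    rw [e1, e2]
    push_cast
    have e3 : (n : ℝ) + 2 - (j + 1) = (n : ℝ) + 1 - j := by ring
    rw [e3]
    exact h3

theorem locJ (h : Sys n P E d) (hn : 1500 ≤ n) : ∃ J : ℕ, 638 * n < 1000 * (J + 1) ∧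
    20 * J ≤ 13 * n ∧
    (∀ j, J < j → j ≤ n → (3 * (j : ℝ) - n) * P j ≤ 2 * ((n : ℝ) + 2 - j) * P (j - 2)) ∧
    ∀ j, n ≤ 2 * j + 1 → j ≤ J → 2 * ((n : ℝ) + 2 - j) * P (j - 2) ≤ (3 * (j : ℝ) - n) * P j := by
  classical
  have hn' : (1500 : ℝ) ≤ n := by exact_mod_cast hn
  obtain ⟨Q, hQ⟩ : ∃ Q : ℕ → Prop, Q = fun j => 2 ≤ j ∧
      2 * ((n : ℝ) + 2 - j) * (yy P (j - 1) * yy P (j - 2)) < 3 * (j : ℝ) - n := ⟨_, rfl⟩
  have hQ1 : ∀ j, Q j ↔ 2 ≤ j ∧ 2 * ((n : ℝ) + 2 - j) * (yy P (j - 1) * yy P (j - 2)) < 3 * (j : ℝ) - n := by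
    intro j
    rw [hQ]
  obtain ⟨j0, hj0⟩ : ∃ j0 : ℕ, j0 = 638 * n / 1000 := ⟨_, rfl⟩
  have a1 : 1000 * j0 ≤ 638 * n := by rw [hj0]; exact Nat.mul_div_le _ _
  have a2 : 638 * n < 1000 * (j0 + 1) := by omega
  have hQ0 : Q j0 := by
    rw [hQ1]
    refine ⟨by omega, ?_⟩
    have k1 := kap h (show 2 ≤ j0 by omega) (by omega) (by omega)
    have a1' : 1000 * (j0 : ℝ) ≤ 638 * n := by exact_mod_cast a1
    have a2' : 638 * (n : ℝ) < 1000 * (j0 + 1) := by exact_mod_cast a2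
    have w0 := y_pos h (show j0 - 1 < n by omega)
    have j1 : (1 : ℝ) ≤ j0 := by
      have : 1 ≤ j0 := by omega
      exact_mod_cast this
    obtain ⟨D, hD⟩ : ∃ D : ℝ, D = (2 * (n : ℝ) + 3 - 3 * j0) +
      ((j0 : ℝ) - 1) * ((n : ℝ) - j0 + 1) / j0 * yy P (j0 - 1) := ⟨_, rfl⟩
    have hD0 : 0 < D := by
      rw [hD]
      have b1 : 0 ≤ ((j0 : ℝ) - 1) * ((n : ℝ) - j0 + 1) / j0 * yy P (j0 - 1) := by
        have c1 : 0 ≤ (j0 : ℝ) - 1 := by linarith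
        have c2 : 0 ≤ (n : ℝ) - j0 + 1 := by linarith
        positivity
      linarith
    rw [← hD] at k1
    have g0 : 0 < 3 * (3 * (j0 : ℝ) - n) * (2 * (n : ℝ) + 3 - 3 * j0) - ((j0 : ℝ) - 1) * ((n : ℝ) - j0) := by
      obtain ⟨t, ht⟩ : ∃ t : ℝ, (j0 : ℝ) = 638 / 1000 * n - t := ⟨638 / 1000 * n - j0, by ring⟩
      have t0 : 0 ≤ t := by linarith
      have t1 : t < 1 := by linarith
      rw [ht]
      have e1 : 3 * (3 * (638 / 1000 * (n : ℝ) - t) - n) * (2 * (n : ℝ) + 3 - 3 * (638 / 1000 * n - t)) -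
          (638 / 1000 * (n : ℝ) - t - 1) * ((n : ℝ) - (638 / 1000 * n - t)) =
          4856 / 1000000 * n ^ 2 + 26 * (t * (276 / 1000 * n - t)) + 16588 / 1000 * n - 26 * t - 8 * n := by ring
      rw [e1]
      have e2 : 0 ≤ t * (276 / 1000 * (n : ℝ) - t) := mul_nonneg t0 (by linarith)
      nlinarith
    have k2 : 0 < 3 * (3 * (j0 : ℝ) - n) - 6 * ((n : ℝ) + 2 - j0) * yy P (j0 - 1) * yy P (j0 - 2) := by
      refine (pos_iff_pos_of_mul_pos (lt_of_lt_of_le g0 k1)).2 hD0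
    linarith
  have hJ : Q (Nat.findGreatest Q n) := Nat.findGreatest_spec (show j0 ≤ n by omega) hQ0
  have hJ0 : j0 ≤ Nat.findGreatest Q n := Nat.le_findGreatest (by omega) hQ0
  have hJn : Nat.findGreatest Q n ≤ n := Nat.findGreatest_le n
  have hgt : ∀ j, Nat.findGreatest Q n < j → j ≤ n → ¬ Q j := fun j h1 h2 => Nat.findGreatest_is_greatest h1 h2
  generalize Nat.findGreatest Q n = J at hJ hJ0 hJn hgt
  rw [hQ1] at hJ
  have hP : ∀ {j : ℕ}, 2 ≤ j → j ≤ n → P (j - 2) = yy P (j - 1) * yy P (j - 2) * P j :=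
    fun h1 h2 => kap_P h h1 h2
  refine ⟨J, by omega, ?_, ?_, ?_⟩
  · by_contra hcon
    obtain ⟨j1, hj1⟩ : ∃ j1 : ℕ, j1 = 13 * n / 20 + 1 := ⟨_, rfl⟩
    have b1 : 13 * n < 20 * j1 := by omega
    have b2 : 20 * j1 ≤ 13 * n + 20 := by omega
    have b3 : j1 ≤ J := by omega
    have y1 := y_lo6 h hn (show 6486 * n ≤ 10000 * (j1 - 1) by omega) (by omega)
    have y2 := y_lo6 h hn (show 6486 * n ≤ 10000 * (j1 - 2) by omega) (by omega)
    have b1' : 13 * (n : ℝ) < 20 * j1 := by exact_mod_cast b1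
    have b2' : 20 * (j1 : ℝ) ≤ 13 * n + 20 := by exact_mod_cast b2
    have y3 : (118 / 100 : ℝ) * (118 / 100) ≤ yy P (j1 - 1) * yy P (j1 - 2) :=
      mul_le_mul y1.le y2.le (by norm_num) (by linarith)
    have hk : 3 * (j1 : ℝ) - n ≤ 2 * ((n : ℝ) + 2 - j1) * (yy P (j1 - 1) * yy P (j1 - 2)) := by
      have c1 : 0 ≤ 2 * ((n : ℝ) + 2 - j1) := by linarith
      have c2 := mul_le_mul_of_nonneg_left y3 c1
      refine le_trans ?_ c2
      linarith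
    have hc := An2_chain h (by omega) (by omega) hk b3 hJn
    linarith [hJ.2]
  · intro j h1 h2
    have h3 := hgt j h1 h2
    rw [hQ1] at h3
    have h4 : 3 * (j : ℝ) - n ≤ 2 * ((n : ℝ) + 2 - j) * (yy P (j - 1) * yy P (j - 2)) := by
      by_contra h5
      exact h3 ⟨by omega, not_le.1 h5⟩
    rw [hP (show 2 ≤ j by omega) h2]
    have h5 := mul_le_mul_of_nonneg_right h4 (h.P_pos j h2).le
    linarith
  · intro j h1 h2
    have h4 : 2 * ((n : ℝ) + 2 - j) * (yy P (j - 1) * yy P (j - 2)) ≤ 3 * (j : ℝ) - n := by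
      by_contra h5
      have hc := An2_chain h (by omega) h1 (not_le.1 h5).le h2 hJn
      linarith [hJ.2]
    rw [hP (show 2 ≤ j by omega) (by omega)]
    have h5 := mul_le_mul_of_nonneg_right h4 (h.P_pos j (by omega)).le
    linarith

theorem locF (hn : 1500 ≤ n) : ∃ F : ℕ, 3612 * n ≤ 10000 * F ∧ 10000 * F ≤ 3614 * n + 10000 ∧
    n < 3 * F ∧ 26 * F ^ 2 + 6 * n ^ 2 + 18 * n < 26 * n * F + 52 * F ∧
    ∀ j, n < 3 * j → j < F → 26 * n * j + 52 * j ≤ 26 * j ^ 2 + 6 * n ^ 2 + 18 * n := by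
  classical
  have hn' : (1500 : ℝ) ≤ n := by exact_mod_cast hn
  obtain ⟨R, hR⟩ : ∃ R : ℕ → Prop, R = fun j => n < 3 * j ∧
      26 * j ^ 2 + 6 * n ^ 2 + 18 * n < 26 * n * j + 52 * j := ⟨_, rfl⟩
  have hR1 : ∀ j, R j ↔ n < 3 * j ∧ 26 * j ^ 2 + 6 * n ^ 2 + 18 * n < 26 * n * j + 52 * j := by
    intro j
    rw [hR]
  obtain ⟨i, hi⟩ : ∃ i : ℕ, i = 3614 * n / 10000 + 1 := ⟨_, rfl⟩
  have a1 : 3614 * n < 10000 * i := by omega
  have a2 : 10000 * i ≤ 3614 * n + 10000 := by omega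
  have hRi : R i := by
    rw [hR1]
    refine ⟨by omega, ?_⟩
    have a1' : 3614 * (n : ℝ) < 10000 * i := by exact_mod_cast a1
    have a2' : 10000 * (i : ℝ) ≤ 3614 * n + 10000 := by exact_mod_cast a2
    have g : 26 * (i : ℝ) ^ 2 + 6 * n ^ 2 + 18 * n < 26 * n * i + 52 * i := by
      obtain ⟨t, ht⟩ : ∃ t : ℝ, (i : ℝ) = 3614 / 10000 * n + t := ⟨i - 3614 / 10000 * n, by ring⟩
      have t0 : 0 ≤ t := by linarith
      have t1 : t ≤ 1 := by linarith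
      rw [ht]
      nlinarith [mul_nonneg t0 (sub_nonneg.2 t1), mul_nonneg t0 (sub_nonneg.2 hn')]
    exact_mod_cast g
  have hex : ∃ j, R j := ⟨i, hRi⟩
  have hF := Nat.find_spec hex
  have hFi : Nat.find hex ≤ i := Nat.find_min' hex hRi
  have hmin : ∀ j, j < Nat.find hex → ¬ R j := fun j hj => Nat.find_min hex hj
  generalize Nat.find hex = F at hF hFi hmin
  rw [hR1] at hF
  refine ⟨F, ?_, by omega, hF.1, hF.2, ?_⟩
  · by_contra hcon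
    have b1 : 10000 * F < 3612 * n := by omega
    have b1' : 10000 * (F : ℝ) < 3612 * n := by exact_mod_cast b1
    have b2 : 26 * (F : ℝ) ^ 2 + 6 * n ^ 2 + 18 * n < 26 * n * F + 52 * F := by exact_mod_cast hF.2
    obtain ⟨t, ht⟩ : ∃ t : ℝ, (F : ℝ) = 3612 / 10000 * n - t := ⟨3612 / 10000 * n - F, by ring⟩
    have t0 : 0 ≤ t := by linarith
    rw [ht] at b2
    nlinarith [mul_nonneg t0 (sub_nonneg.2 hn'), mul_nonneg t0 t0]
  · intro j h1 h2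
    have h3 := hmin j h2
    rw [hR1] at h3
    by_contra h4
    exact h3 ⟨h1, not_le.1 h4⟩

end

end Pool.Agent.Lib.MP_eeed5c_coC
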