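import Pool.Agent.Lib.MP_eeed5c_co_C.Defs

/-!
# The chain, middle part
-/

set_option autoImplicit false

namespace Pool.Agent.Lib.MP_eeed5c_coC

theorem ChainM_rec {n : ℕ} {P E d : ℕ → ℝ} (h : Sys n P E d) (i : ℕ) (hi : i + 2 < n) :
    d (i + 2) = ((i : ℝ) + 3) * P (i + 3) * (E (i + 3) / P (i + 3) - E (i + 2) / P (i + 2)) +
      bb n P (i + 2) * (E (i + 2) / P (i + 2) - E (i + 1) / P (i + 1)) +
      cc n P (i + 2) * (E (i + 1) / P (i + 1) - E i / P i) := by
  have p3 : P (i + 3) ≠ 0 := (h.P_pos (i + 3) (by omega)).ne'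
  have p2 : P (i + 2) ≠ 0 := (h.P_pos (i + 2) (by omega)).ne'
  have p1 : P (i + 1) ≠ 0 := (h.P_pos (i + 1) (by omega)).ne'
  have p0 : P i ≠ 0 := (h.P_pos i (by omega)).ne'
  have hE := h.E_rec i
  have hP := h.P_rec i
  unfold bb cc
  have e0 : i + 2 - 2 = i := by omega
  rw [e0]
  push_cast
  have e3 : E (i + 3) = E (i + 3) / P (i + 3) * P (i + 3) := by field_simp
  have e2 : E (i + 2) = E (i + 2) / P (i + 2) * P (i + 2) := by field_simp
  have e1 : E (i + 1) = E (i + 1) / P (i + 1) * P (i + 1) := by field_simp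
  have e0' : E i = E i / P i * P i := by field_simp
  generalize E (i + 3) / P (i + 3) = q3 at *
  generalize E (i + 2) / P (i + 2) = q2 at *
  generalize E (i + 1) / P (i + 1) = q1 at *
  generalize E i / P i = q0 at *
  rw [e3, e2, e1, e0'] at hE
  linear_combination -1 * hE + q1 * hP

theorem ChainM_b {n J F : ℕ} {P E d G a L U Y W : ℕ → ℝ} {x : ℝ} (h : Sys n P E d)
    (m : Mid n J F P G a L U Y W x) :
    ∃ b : ℕ → ℝ, b J = cc n P (J + 1) ∧
      (∀ j, F ≤ j → j < J → b j * b (j + 1) = bb n P (j + 1) * b (j + 1) -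
        ((j : ℝ) + 2) * P (j + 2) * cc n P (j + 2)) ∧
      (∀ j, F ≤ j → j ≤ J → 0 < cc n P (j + 1) ∧ cc n P (j + 1) ≤ b j ∧
        ((j : ℝ) + 1) * P (j + 1) ≤ a j * b j) := by
  obtain ⟨hF, hFJ, hJn, hF3, hK, ha0, haJ, ha, hL0, hUJ, hL, hU, hY0, hY, hW0, hW⟩ := m
  let bk : ℕ → ℝ := fun k => Nat.rec (cc n P (J + 1)) (fun k r => bb n P (J - k) -
    ((J - k : ℕ) + 1 : ℝ) * P (J - k + 1) * cc n P (J - k + 1) / r) k
  have hbs : ∀ k, bk (k + 1) = bb n P (J - k) -
    ((J - k : ℕ) + 1 : ℝ) * P (J - k + 1) * cc n P (J - k + 1) / bk k := fun k => rfl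
  have hcpos : ∀ j, F ≤ j → j ≤ J → 0 < cc n P (j + 1) := by
    intro j h1 h2
    unfold cc
    have h3 : 0 < P (j + 1 - 2) := h.P_pos _ (by omega)
    have h4 : (j : ℝ) + 1 ≤ n := by exact_mod_cast (by omega : j + 1 ≤ n)
    push_cast
    have h5 : 0 < (n : ℝ) + 2 - (j + 1) := by linarith
    positivity
  have main : ∀ k, F + k ≤ J → cc n P (J - k + 1) ≤ bk k ∧
      (((J - k : ℕ) : ℝ) + 1) * P (J - k + 1) ≤ a (J - k) * bk k := by
    intro k
    induction k with
    | zero =>
      intro _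
      refine ⟨le_refl _, ?_⟩
      exact haJ
    | succ k ih =>
      intro hk
      obtain ⟨h1, h2⟩ := ih (by omega)
      obtain ⟨j, hj⟩ : ∃ j, J - k = j + 1 := ⟨J - k - 1, by omega⟩
      have hj' : J - (k + 1) = j := by omega
      rw [hj] at h1 h2
      rw [hj', hbs, hj]
      have hc := hcpos (j + 1) (by omega) (by omega)
      have hb : 0 < bk k := lt_of_lt_of_le hc h1
      have hA : 0 < ((j + 1 : ℕ) + 1 : ℝ) * P (j + 1 + 1) := by
        have := h.P_pos (j + 1 + 1) (by omega)
        positivity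
      have hq1 : ((j + 1 : ℕ) + 1 : ℝ) * P (j + 1 + 1) * cc n P (j + 1 + 1) / bk k ≤
          ((j + 1 : ℕ) + 1 : ℝ) * P (j + 1 + 1) := by
        rw [div_le_iff₀ hb]
        exact mul_le_mul_of_nonneg_left h1 hA.le
      have hq2 : ((j + 1 : ℕ) + 1 : ℝ) * P (j + 1 + 1) * cc n P (j + 1 + 1) / bk k ≤
          a (j + 1) * cc n P (j + 1 + 1) := by
        rw [div_le_iff₀ hb]
        calc ((j + 1 : ℕ) + 1 : ℝ) * P (j + 1 + 1) * cc n P (j + 1 + 1) ≤
            a (j + 1) * bk k * cc n P (j + 1 + 1) := mul_le_mul_of_nonneg_right h2 hc.le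
          _ = a (j + 1) * cc n P (j + 1 + 1) * bk k := by ring
      constructor
      · have h3 := hK (j + 1) (by omega) (by omega)
        have h4 : bb n P (j + 1) = ((j + 1 : ℕ) + 1 : ℝ) * P (j + 1 + 1) +
            3 * (3 * ((j + 1 : ℕ) : ℝ) - n) * P (j + 1) := rfl
        have h5 : cc n P (j + 1) = 6 * ((n : ℝ) + 2 - ((j + 1 : ℕ) : ℝ)) * P (j + 1 - 2) := rfl
        rw [h4, h5]
        linarith
      · have h3 := ha (j + 1) (by omega) (by omega)
        have h6 : j + 1 - 1 = j := by omega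
        rw [h6] at h3
        push_cast at h3
        refine h3.trans (mul_le_mul_of_nonneg_left ?_ (ha0 j))
        have h7 := le_min hq2 hq1
        push_cast at h7 ⊢
        linarith
  refine ⟨fun j => bk (J - j), ?_, ?_, ?_⟩
  · show bk (J - J) = cc n P (J + 1)
    rw [Nat.sub_self]
    rfl
  · intro j h1 h2
    have e1 : J - j = (J - (j + 1)) + 1 := by omega
    have e2 : J - (J - (j + 1)) = j + 1 := by omega
    show bk (J - j) * bk (J - (j + 1)) = bb n P (j + 1) * bk (J - (j + 1)) -
        ((j : ℝ) + 2) * P (j + 2) * cc n P (j + 2)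
    rw [e1, hbs, e2]
    have h3 := (main (J - (j + 1)) (by omega)).1
    rw [e2] at h3
    have hb : bk (J - (j + 1)) ≠ 0 := (lt_of_lt_of_le (hcpos (j + 1) (by omega) (by omega)) h3).ne'
    rw [sub_mul, div_mul_cancel₀ _ hb]
    push_cast
    ring
  · intro j h1 h2
    have e2 : J - (J - j) = j := by omega
    have h3 := main (J - j) (by omega)
    rw [e2] at h3
    exact ⟨hcpos j h1 h2, h3.1, h3.2⟩

theorem mid_part {n J F : ℕ} {P E d G a L U Y W : ℕ → ℝ} {x : ℝ} (h : Sys n P E d)
    (hG : ∀ j, 5 ≤ j → j ≤ n → 0 < G j ∧ d (j + 1) ≤ G j * d j)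
    (m : Mid n J F P G a L U Y W x)
    (hs0 : 0 ≤ cc n P (J + 1) * (E (J + 1) / P (J + 1) - E (J - 1) / P (J - 1)))
    (hs1 : cc n P (J + 1) * (E (J + 1) / P (J + 1) - E (J - 1) / P (J - 1)) ≤ x * d (J + 1))
    (h0 : Y F * d (F - 1) ≤ F * E F)
    (h1 : Y (F - 1) * d (F - 1) * P (F - 1) ≤ F * P F * E (F - 1)) :
    ∀ j, F ≤ j → j ≤ J + 1 → 0 ≤ E j := by
  obtain ⟨b, hbJ, hbr, hbc⟩ := ChainM_b h m
  obtain ⟨hF, hFJ, hJn, hF3, hK, ha0, haJ, ha, hL0, hUJ, hL, hU, hY0, hY, hW0, hW⟩ := m
  -- the numbers eta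
  let η : ℕ → ℝ := fun j => b j * (E (j + 1) / P (j + 1) - E j / P j) +
    cc n P (j + 1) * (E j / P j - E (j - 1) / P (j - 1))
  have hη : ∀ j, η j = b j * (E (j + 1) / P (j + 1) - E j / P j) +
    cc n P (j + 1) * (E j / P j - E (j - 1) / P (j - 1)) := fun _ => rfl
  have hbpos : ∀ j, F ≤ j → j ≤ J → 0 < b j := fun j h2 h3 =>
    lt_of_lt_of_le (hbc j h2 h3).1 (hbc j h2 h3).2.1
  have hηJ : η J = cc n P (J + 1) * (E (J + 1) / P (J + 1) - E (J - 1) / P (J - 1)) := by
    rw [hη, hbJ]
    ring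
  have hrec : ∀ j, F ≤ j → j < J → d (j + 1) * b (j + 1) =
      η j * b (j + 1) + ((j : ℝ) + 2) * P (j + 2) * η (j + 1) := by
    intro j h2 h3
    obtain ⟨i, rfl⟩ : ∃ i, j = i + 1 := ⟨j - 1, by omega⟩
    have h4 := ChainM_rec h i (by omega)
    have h5 := hbr (i + 1) h2 h3
    rw [hη, hη]
    have e1 : i + 1 - 1 = i := by omega
    have e2 : i + 1 + 1 - 1 = i + 1 := by omega
    rw [e1, e2]
    have e3 : i + 1 + 1 = i + 2 := rfl
    have e4 : i + 1 + 1 + 1 = i + 3 := rfl
    have e5 : i + 1 + 2 = i + 3 := rfl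
    rw [e5] at h5 ⊢
    rw [e4, e3]
    rw [e3] at h5
    push_cast at h5 ⊢
    rw [h4]
    generalize E (i + 3) / P (i + 3) = q3 at *
    generalize E (i + 2) / P (i + 2) = q2 at *
    generalize E (i + 1) / P (i + 1) = q1 at *
    generalize E i / P i = q0 at *
    linear_combination -(q2 - q1) * h5
  have hηb : ∀ k, F + k ≤ J → -(L (J - k)) * d (J - k + 1) ≤ η (J - k) ∧
      η (J - k) ≤ U (J - k) * d (J - k + 1) := by
    intro k
    induction k with
    | zero =>
      intro _
      rw [Nat.sub_zero, hηJ]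
      have hd := h.d_nn (J + 1)
      constructor
      · have := mul_nonneg (hL0 J) hd
        linarith
      · exact hs1.trans (mul_le_mul_of_nonneg_right hUJ hd)
    | succ k ih =>
      intro hk
      obtain ⟨h2, h3⟩ := ih (by omega)
      obtain ⟨j, hj⟩ : ∃ j, J - k = j + 1 := ⟨J - k - 1, by omega⟩
      have hj' : J - (k + 1) = j := by omega
      rw [hj] at h2 h3
      rw [hj']
      have hFj : F ≤ j := by omega
      have hjJ : j < J := by omega
      have h4 := hrec j hFj hjJ
      have hb := hbpos (j + 1) (by omega) (by omega)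
      have h5 := (hbc (j + 1) (by omega) (by omega)).2.2
      obtain ⟨hG0, hG1⟩ := hG (j + 1) (by omega) (by omega)
      have hd := h.d_nn (j + 1)
      have hd2 := h.d_nn (j + 1 + 1)
      have h6 := hL (j + 1) (by omega) (by omega)
      have h7 := hU (j + 1) (by omega) (by omega)
      have e1 : j + 1 - 1 = j := by omega
      rw [e1] at h6 h7
      -- the quotient alpha
      obtain ⟨α, hα⟩ : ∃ α, α = ((j : ℝ) + 2) * P (j + 2) / b (j + 1) := ⟨_, rfl⟩
      have hα0 : 0 ≤ α := by
        rw [hα]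
        have := h.P_pos (j + 2) (by omega)
        positivity
      have hαa : α ≤ a (j + 1) := by
        rw [hα, div_le_iff₀ hb]
        push_cast at h5
        calc ((j : ℝ) + 2) * P (j + 2) = ((j : ℝ) + 1 + 1) * P (j + 1 + 1) := by ring_nf
          _ ≤ _ := h5
      have h8 : η j = d (j + 1) - α * η (j + 1) := by
        have h9 : α * b (j + 1) = ((j : ℝ) + 2) * P (j + 2) := by
          rw [hα, div_mul_cancel₀ _ hb.ne']
        have h10 : b (j + 1) * η j = b (j + 1) * (d (j + 1) - α * η (j + 1)) := by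
          rw [← h9] at h4
          linear_combination -1 * h4
        exact mul_left_cancel₀ hb.ne' h10
      constructor
      · -- lower bound
        have h9 : α * η (j + 1) ≤ (1 + L j) * d (j + 1) := by
          rcases le_or_gt 0 (U (j + 1)) with hU0 | hU0
          · calc α * η (j + 1) ≤ α * (U (j + 1) * d (j + 1 + 1)) :=
                mul_le_mul_of_nonneg_left h3 hα0
              _ ≤ a (j + 1) * (U (j + 1) * d (j + 1 + 1)) :=
                mul_le_mul_of_nonneg_right hαa (mul_nonneg hU0 hd2)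
              _ ≤ a (j + 1) * (U (j + 1) * (G (j + 1) * d (j + 1))) :=
                mul_le_mul_of_nonneg_left (mul_le_mul_of_nonneg_left hG1 hU0) (ha0 _)
              _ = a (j + 1) * G (j + 1) * U (j + 1) * d (j + 1) := by ring
              _ ≤ (1 + L j) * d (j + 1) := mul_le_mul_of_nonneg_right h6 hd
          · have h10 : η (j + 1) ≤ 0 := h3.trans (mul_nonpos_of_nonpos_of_nonneg hU0.le hd2)
            have h11 : α * η (j + 1) ≤ 0 := mul_nonpos_of_nonneg_of_nonpos hα0 h10
            have h12 : 0 ≤ (1 + L j) * d (j + 1) :=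
              mul_nonneg (by have := hL0 j; linarith) hd
            exact h11.trans h12
        rw [h8]
        linarith
      · have h9 : -(α * η (j + 1)) ≤ a (j + 1) * G (j + 1) * L (j + 1) * d (j + 1) := by
          calc -(α * η (j + 1)) = α * (-η (j + 1)) := by ring
            _ ≤ α * (L (j + 1) * d (j + 1 + 1)) :=
              mul_le_mul_of_nonneg_left (by linarith) hα0
            _ ≤ a (j + 1) * (L (j + 1) * d (j + 1 + 1)) :=
              mul_le_mul_of_nonneg_right hαa (mul_nonneg (hL0 _) hd2)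
            _ ≤ a (j + 1) * (L (j + 1) * (G (j + 1) * d (j + 1))) :=
              mul_le_mul_of_nonneg_left (mul_le_mul_of_nonneg_left hG1 (hL0 _)) (ha0 _)
            _ = a (j + 1) * G (j + 1) * L (j + 1) * d (j + 1) := by ring
        rw [h8]
        have h10 := mul_le_mul_of_nonneg_right h7 hd
        linarith
  have hηL : ∀ j, F ≤ j → j ≤ J → -(L j) * d (j + 1) ≤ η j := by
    intro j h2 h3
    have h4 := (hηb (J - j) (by omega)).1
    have e : J - (J - j) = j := by omega
    rw [e] at h4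
    exact h4
  -- the numbers W
  have hPF : 0 < P F := h.P_pos F (by omega)
  have hD0 : 0 ≤ d (F - 1) := h.d_nn _
  have hWp : ∀ k, F - 1 + k ≤ J + 1 → 0 < W (F - 1 + k) ∧
      d (F - 1 + k) * P F ≤ W (F - 1 + k) * P (F - 1 + k) * d (F - 1) := by
    intro k
    induction k with
    | zero =>
      intro _
      rw [Nat.add_zero]
      have h2 : 0 < P (F - 1) := h.P_pos _ (by omega)
      constructor
      · by_contra h3
        rw [not_lt] at h3
        have h4 : W (F - 1) * P (F - 1) ≤ 0 := mul_nonpos_of_nonpos_of_nonneg h3 h2.le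
        linarith
      · calc d (F - 1) * P F ≤ d (F - 1) * (W (F - 1) * P (F - 1)) :=
            mul_le_mul_of_nonneg_left hW0 hD0
          _ = _ := by ring
    | succ k ih =>
      intro hk
      obtain ⟨h2, h3⟩ := ih (by omega)
      have e : F - 1 + (k + 1) = F - 1 + k + 1 := by omega
      rw [e]
      have h4 := hW (F - 1 + k) (by omega) (by omega)
      obtain ⟨hG0, hG1⟩ := hG (F - 1 + k) (by omega) (by omega)
      have hPk : 0 < P (F - 1 + k) := h.P_pos _ (by omega)
      have hPk1 : 0 < P (F - 1 + k + 1) := h.P_pos _ (by omega)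
      constructor
      · by_contra h5
        rw [not_lt] at h5
        have h6 : W (F - 1 + k + 1) * P (F - 1 + k + 1) ≤ 0 :=
          mul_nonpos_of_nonpos_of_nonneg h5 hPk1.le
        have h7 : 0 < G (F - 1 + k) * W (F - 1 + k) * P (F - 1 + k) := by positivity
        linarith
      · calc d (F - 1 + k + 1) * P F ≤ G (F - 1 + k) * d (F - 1 + k) * P F :=
            mul_le_mul_of_nonneg_right hG1 hPF.le
          _ = G (F - 1 + k) * (d (F - 1 + k) * P F) := by ring
          _ ≤ G (F - 1 + k) * (W (F - 1 + k) * P (F - 1 + k) * d (F - 1)) :=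
            mul_le_mul_of_nonneg_left h3 hG0.le
          _ = G (F - 1 + k) * W (F - 1 + k) * P (F - 1 + k) * d (F - 1) := by ring
          _ ≤ _ := mul_le_mul_of_nonneg_right h4 hD0
  -- the numbers Y
  obtain ⟨t, ht⟩ : ∃ t, t = d (F - 1) / (F * P F) := ⟨_, rfl⟩
  have hF0 : (0 : ℝ) < F := by exact_mod_cast (by omega : 0 < F)
  have ht0 : 0 ≤ t := by
    rw [ht]
    positivity
  have hεY : ∀ k, F + k ≤ J + 1 → Y (F + k) * t ≤ E (F + k) / P (F + k) ∧
      Y (F + k - 1) * t ≤ E (F + k - 1) / P (F + k - 1) := by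
    intro k
    induction k with
    | zero =>
      intro _
      rw [Nat.add_zero]
      have h2 : 0 < P (F - 1) := h.P_pos _ (by omega)
      constructor
      · rw [le_div_iff₀ hPF, ht]
        have h3 : Y F * (d (F - 1) / (F * P F)) * P F = Y F * d (F - 1) / F := by
          field_simp
        rw [h3, div_le_iff₀ hF0]
        linarith
      · rw [le_div_iff₀ h2, ht]
        have h3 : Y (F - 1) * (d (F - 1) / (F * P F)) * P (F - 1) =
            Y (F - 1) * d (F - 1) * P (F - 1) / (F * P F) := by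
          ring
        rw [h3, div_le_iff₀ (by positivity)]
        linarith
    | succ k ih =>
      intro hk
      obtain ⟨h2, h3⟩ := ih (by omega)
      obtain ⟨j, hj⟩ : ∃ j, j = F + k := ⟨_, rfl⟩
      rw [← hj] at h2 h3
      have e : F + (k + 1) = j + 1 := by omega
      rw [e]
      have e2 : j + 1 - 1 = j := by omega
      rw [e2]
      refine ⟨?_, h2⟩
      have hFj : F ≤ j := by omega
      have hjJ : j ≤ J := by omega
      obtain ⟨hc0, hc1, hc2⟩ := hbc j hFj hjJ
      have hb := hbpos j hFj hjJ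
      have h4 := hηL j hFj hjJ
      have h5 := hY j hFj hjJ
      have h6 := hWp (j + 1 - (F - 1)) (by omega)
      have e3 : F - 1 + (j + 1 - (F - 1)) = j + 1 := by omega
      rw [e3] at h6
      obtain ⟨h7, h8⟩ := h6
      have hP1 : 0 < P (j + 1) := h.P_pos _ (by omega)
      have hj1 : (F : ℝ) ≤ (j : ℝ) + 1 := by exact_mod_cast (by omega : F ≤ j + 1)
      have hj0 : (0 : ℝ) < (j : ℝ) + 1 := by positivity
      -- L_j d_{j+1} ≤ b_j L_j a_j W_{j+1} t
      have h9 : L j * d (j + 1) ≤ b j * (L j * a j * W (j + 1)) * t := by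
        have h10 : d (j + 1) * (F * P F) ≤ b j * (a j * W (j + 1)) * d (F - 1) := by
          calc d (j + 1) * (F * P F) = F * (d (j + 1) * P F) := by ring
            _ ≤ ((j : ℝ) + 1) * (d (j + 1) * P F) :=
              mul_le_mul_of_nonneg_right hj1 (mul_nonneg (h.d_nn _) hPF.le)
            _ ≤ ((j : ℝ) + 1) * (W (j + 1) * P (j + 1) * d (F - 1)) :=
              mul_le_mul_of_nonneg_left h8 hj0.le
            _ = (((j : ℝ) + 1) * P (j + 1)) * (W (j + 1) * d (F - 1)) := by ring
            _ ≤ (a j * b j) * (W (j + 1) * d (F - 1)) :=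
              mul_le_mul_of_nonneg_right hc2 (mul_nonneg h7.le hD0)
            _ = _ := by ring
        have h11 : d (j + 1) ≤ b j * (a j * W (j + 1)) * t := by
          rw [ht, ← mul_div_assoc, le_div_iff₀ (by positivity)]
          exact h10
        calc L j * d (j + 1) ≤ L j * (b j * (a j * W (j + 1)) * t) :=
            mul_le_mul_of_nonneg_left h11 (hL0 j)
          _ = _ := by ring
      have h12 : b j * (E (j + 1) / P (j + 1)) = η j +
          (b j - cc n P (j + 1)) * (E j / P j) + cc n P (j + 1) * (E (j - 1) / P (j - 1)) := by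
        rw [hη]
        ring
      have h13 : (b j - cc n P (j + 1)) * (min (Y j) (Y (j - 1)) * t) ≤
          (b j - cc n P (j + 1)) * (E j / P j) := by
        refine mul_le_mul_of_nonneg_left ?_ (by linarith)
        exact (mul_le_mul_of_nonneg_right (min_le_left _ _) ht0).trans h2
      have h14 : cc n P (j + 1) * (min (Y j) (Y (j - 1)) * t) ≤
          cc n P (j + 1) * (E (j - 1) / P (j - 1)) := by
        refine mul_le_mul_of_nonneg_left ?_ hc0.le
        exact (mul_le_mul_of_nonneg_right (min_le_right _ _) ht0).trans h3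
      have h15 : b j * (Y (j + 1) * t) ≤ b j * (E (j + 1) / P (j + 1)) := by
        have h16 : b j * ((Y (j + 1) + L j * a j * W (j + 1)) * t) ≤
            b j * (min (Y j) (Y (j - 1)) * t) :=
          mul_le_mul_of_nonneg_left (mul_le_mul_of_nonneg_right h5 ht0) hb.le
        rw [h12]
        have h17 : b j * ((Y (j + 1) + L j * a j * W (j + 1)) * t) =
            b j * (Y (j + 1) * t) + b j * (L j * a j * W (j + 1)) * t := by ring
        have h18 : (b j - cc n P (j + 1)) * (min (Y j) (Y (j - 1)) * t) +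
            cc n P (j + 1) * (min (Y j) (Y (j - 1)) * t) = b j * (min (Y j) (Y (j - 1)) * t) := by
          ring
        linarith
      exact le_of_mul_le_mul_left h15 hb
  intro j h2 h3
  have h4 := (hεY (j - F) (by omega)).1
  have e : F + (j - F) = j := by omega
  rw [e] at h4
  have hP : 0 < P j := h.P_pos _ (by omega)
  have h5 : 0 ≤ E j / P j := (mul_nonneg (hY0 j) ht0).trans h4
  have h6 : E j = E j / P j * P j := by rw [div_mul_cancel₀ _ hP.ne']
  rw [h6]
  exact mul_nonneg h5 hP.le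

end Pool.Agent.Lib.MP_eeed5c_coC
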