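import Pool.Agent.Lib.MP_eeed5c_co_C.Defs

/-!
# The chain, upper part

NOTATION. `A_j = (j+1) P_{j+1}`, `B_j = bb n P j = A_j + 3(3j-n) P_j`, `C_j = cc n P j`.
`ε_j = E_j / P_j` (`j ≤ n`), `δ_j = ε_{j+1} - ε_j` for `j < n`, `δ_n = 0` (define it by cases!).

(1) `kernel`: for `2 ≤ j ≤ n`: `d_j = A_j δ_j + B_j δ_{j-1} + C_j δ_{j-2}`. Put `E_i = ε_i P_i` in
`E_rec` (`i = j-2`) and use `P_rec`: `A_j + 3(3j-n)P_j - C_j = 6(2n+3-3j) P_{j-1}`. For `j = n`,
`A_n = 0`, `E_{n+1} = 0`. And `d_{n+1} = C_{n+1} δ_{n-1}` (`E_rec`, `P_rec` at `i = n-1`: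
`0 = d_{n+1} - 6n E_n + 6 E_{n-1}`, `0 = -6n P_n + 6 P_{n-1}`).

(2) The chain. `ρ_J = A_{J+1}/C_{J+1}`, for `j > J`: `R_j = B_j - C_j ρ_{j-1}`, `ρ_j = A_j/R_j`
(recursive definition). Claim for `J < j ≤ n`: `(9/4)(3j-n) P_j ≤ R_j ≤ 3(3j-n) P_j` and
`0 ≤ ρ_j ≤ rb n P j` (the latter follows from the former). `j = J+1`: `R_j = B_j - A_j`.
Step `j-1 → j` (`j ≥ J+2`): `ρ_{j-1} ≥ A_{j-1}/(3(3(j-1)-n)P_{j-1}) ≥ A_{j-1}/C_{j-1}` (`hK` at `j-1`)
`≥ A_j/C_j`, because `j(n+2-j) P_j P_{j-2} ≥ (j+1)(n+3-j) P_{j+1} P_{j-3}`: multiply the three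
inequalities `P_ulc` at `k = j-3, j-2, j-1`:
`P_{j+1}/P_j ≤ j(n-j)/((j+1)(n-j+1)) P_j/P_{j-1}` etc., which give
`P_{j+1} P_{j-3} ≤ [(j-2)(n-j)/((j+1)(n-j+3))] P_j P_{j-2}`. So `R_j ≤ B_j - A_j`.
`ρ_{j-1} ≤ (4/9) A_{j-1}/((3j-3-n)P_{j-1})`, so
`C_j ρ_{j-1} ≤ (8/3) j (n+2-j) P_j P_{j-2}/((3j-3-n) P_{j-1}) ≤ A_j + (3/4)(3j-n)P_j` (`hR`),
hence `R_j ≥ (9/4)(3j-n)P_j`. Also `0 ≤ ρ_J ≤ 1`: by `hK`, `hρ` at `J+1`:
`A_{J+1} ≤ (9/4)(3j-n)P_j ≤ (3/4) C_{J+1}`; and `ρ_j ≤ rb ≤ 1` for `j > J`.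

(3) `φ_j = δ_{j-1} + ρ_j δ_j` (`J ≤ j ≤ n`): `C_j φ_{j-1} + R_j φ_j = d_j` for `J < j ≤ n`, and
`C_{n+1} φ_n = d_{n+1}`. Claim for `J < j ≤ n+1`: `-e_j d_j ≤ C_j φ_{j-1} ≤ (1+f_j) d_j` (downward
induction; `j = n+1`: equality with `d_{n+1}`, note `e, f ≥ 0`). Step: `R_j ≤ 3(3j-n)P_j`,
`d_{j+1} ≤ G_j d_j`, `C_{j+1} = 6(n+1-j)P_{j-1}`:
`R_j φ_j ≤ 3(3j-n)P_j (1+f_{j+1}) G_j d_j/C_{j+1} ≤ (1+e_j) d_j` (`he`),
`-R_j φ_j ≤ 3(3j-n)P_j e_{j+1} G_j d_j/C_{j+1} ≤ f_j d_j` (`hf`).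

(4) Claim for `J < j ≤ n`: `|δ_{j-1}| ≤ X_j d_{j+1}/C_{j+1}`. `j = n`: (1), `X_n ≥ 1`. Step:
`δ_{j-1} = φ_j - ρ_j δ_j`, `|φ_j| ≤ (1+f_{j+1}) d_{j+1}/C_{j+1}` (`e ≤ 1`),
`|ρ_j δ_j| ≤ rb_j X_{j+1} d_{j+2}/C_{j+2}`, `d_{j+2} ≤ G_{j+1} d_{j+1}`; `hX`.

(5) `s_{j-1} = δ_{j-1} + δ_{j-2}`, for `J < j ≤ n`:
`C_j s_{j-1} = d_j - (B_j - C_j) φ_j - C_j (1 - ρ_{j-1}) ρ_j δ_j`
(`φ_{j-1} = δ_{j-2} + ρ_{j-1}δ_{j-1}`, `δ_{j-1} = φ_j - ρ_jδ_j`, (3), `R_j + C_jρ_{j-1} = B_j`). By (3),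
(4), `0 ≤ 1-ρ_{j-1} ≤ 1`, `d_{j+1} ≤ G_j d_j`, `d_{j+2} ≤ G_{j+1}G_j d_j` the last two terms are
`≥ -(left side of hs) d_j`, so `C_j s_{j-1} ≥ 0`; for `j = J+1` also `C_j s_{j-1} ≤ x d_j` (`hx`,
using `|φ_j| ≤ (1+f_{j+1}) d_{j+1}/C_{j+1}`). (For `j = n` the term with `δ_n = 0` vanishes.)
`s_{j} ≥ 0` for `J ≤ j < n` means `ε_{j+1} ≥ ε_{j-1}`.
-/

set_option autoImplicit false

namespace Pool.Agent.Lib.MP_eeed5c_coC

private theorem ChainT_rho (J : ℕ) (c : ℝ) (A B C : ℕ → ℝ) :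
    ∃ ρ : ℕ → ℝ, ρ J = c ∧ ∀ k, J ≤ k → ρ (k + 1) = A (k + 1) / (B (k + 1) - C (k + 1) * ρ k) := by
  refine ⟨fun k => Nat.rec (motive := fun _ => ℝ) c
    (fun k r => if k < J then c else A (k + 1) / (B (k + 1) - C (k + 1) * r)) k, ?_, ?_⟩
  · cases J with
    | zero => rfl
    | succ J => exact if_pos (Nat.lt_succ_self J)
  · intro k hk
    exact if_neg (Nat.not_lt.2 hk)

private theorem ChainT_ratio {s t p0 p1 p2 p3 p4 : ℝ} (hs : 2 ≤ s) (ht : 0 ≤ t) (_h0 : 0 < p0)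
    (h1 : 0 < p1) (h2 : 0 < p2) (h3 : 0 < p3) (h4 : 0 ≤ p4)
    (I1 : (s - 1) * (t + 3) * p2 * p0 ≤ (s - 2) * (t + 2) * p1 ^ 2)
    (I2 : s * (t + 2) * p3 * p1 ≤ (s - 1) * (t + 1) * p2 ^ 2)
    (I3 : (s + 1) * (t + 1) * p4 * p2 ≤ s * t * p3 ^ 2) :
    (s + 1) * (t + 3) * p4 * p0 ≤ s * (t + 2) * p3 * p1 := by
  have hs1 : 0 < s - 1 := by linarith
  have hs2 : 0 ≤ s - 2 := by linarith
  have hs0 : 0 < s := by linarith
  have I12 : s * (t + 3) * p0 * p3 ≤ (s - 2) * (t + 1) * p1 * p2 := by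
    have hpos : 0 < (s - 1) * (t + 2) * p1 * p2 := by positivity
    refine le_of_mul_le_mul_left ?_ hpos
    have h5 := mul_le_mul I1 I2 (by positivity) (by positivity)
    calc (s - 1) * (t + 2) * p1 * p2 * (s * (t + 3) * p0 * p3)
        = (s - 1) * (t + 3) * p2 * p0 * (s * (t + 2) * p3 * p1) := by ring
      _ ≤ (s - 2) * (t + 2) * p1 ^ 2 * ((s - 1) * (t + 1) * p2 ^ 2) := h5
      _ = (s - 1) * (t + 2) * p1 * p2 * ((s - 2) * (t + 1) * p1 * p2) := by ring
  have hpos : 0 < s * (t + 1) * p2 * p3 := by positivity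
  have h6 : (s + 1) * (t + 3) * p4 * p0 ≤ (s - 2) * t * p3 * p1 := by
    refine le_of_mul_le_mul_left ?_ hpos
    have h5 := mul_le_mul I12 I3 (by positivity) (by positivity)
    calc s * (t + 1) * p2 * p3 * ((s + 1) * (t + 3) * p4 * p0)
        = s * (t + 3) * p0 * p3 * ((s + 1) * (t + 1) * p4 * p2) := by ring
      _ ≤ (s - 2) * (t + 1) * p1 * p2 * (s * t * p3 ^ 2) := h5
      _ = s * (t + 1) * p2 * p3 * ((s - 2) * t * p3 * p1) := by ring
  refine h6.trans ?_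
  have h7 : (s - 2) * t ≤ s * (t + 2) := by nlinarith
  have h8 : 0 ≤ p3 * p1 := by positivity
  nlinarith [mul_le_mul_of_nonneg_right h7 h8]

private theorem ChainT_kernel {n : ℕ} {P E d : ℕ → ℝ} (h : Sys n P E d) {D : ℕ → ℝ}
    (hD : ∀ k, k < n → D (k + 1) = E (k + 1) / P (k + 1) - E k / P k) {k : ℕ}
    (hk1 : 1 ≤ k) (hk : k < n) :
    d (k + 1) = (((k + 1 : ℕ) : ℝ) + 1) * P (k + 2) * D (k + 2) + bb n P (k + 1) * D (k + 1) +
      cc n P (k + 1) * D k := by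
  obtain ⟨i, rfl⟩ : ∃ i, k = i + 1 := ⟨k - 1, by omega⟩
  have p0 : P i ≠ 0 := (h.P_pos i (by omega)).ne'
  have p1 : P (i + 1) ≠ 0 := (h.P_pos (i + 1) (by omega)).ne'
  have p2 : P (i + 2) ≠ 0 := (h.P_pos (i + 2) (by omega)).ne'
  have d1 : D (i + 1) = E (i + 1) / P (i + 1) - E i / P i := hD i (by omega)
  have d2 : D (i + 1 + 1) = E (i + 2) / P (i + 2) - E (i + 1) / P (i + 1) := hD (i + 1) (by omega)
  have e0 : E i = E i / P i * P i := (div_mul_cancel₀ _ p0).symm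
  have e1 : E (i + 1) = E (i + 1) / P (i + 1) * P (i + 1) := (div_mul_cancel₀ _ p1).symm
  have e2 : E (i + 2) = E (i + 2) / P (i + 2) * P (i + 2) := (div_mul_cancel₀ _ p2).symm
  have hPD : P (i + 3) * D (i + 1 + 2) = E (i + 3) - P (i + 3) * (E (i + 2) / P (i + 2)) := by
    rcases Nat.lt_or_ge (i + 2) n with h5 | h5
    · have p3 : P (i + 3) ≠ 0 := (h.P_pos (i + 3) (by omega)).ne'
      have d3 : D (i + 1 + 2) = E (i + 3) / P (i + 3) - E (i + 2) / P (i + 2) := hD (i + 2) h5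
      rw [d3, mul_sub, mul_div_cancel₀ _ p3]
    · rw [h.P_zero (i + 3) (by omega), h.E_zero (i + 3) (by omega)]
      ring
  have hE := h.E_rec i
  have hP := h.P_rec i
  have hb : bb n P (i + 1 + 1) = ((i : ℝ) + 3) * P (i + 3) + 3 * (3 * ((i : ℝ) + 2) - n) * P (i + 2) := by
    unfold bb
    push_cast
    ring
  have hc : cc n P (i + 1 + 1) = 6 * ((n : ℝ) - i) * P i := by
    unfold cc
    have : i + 1 + 1 - 2 = i := by omega
    rw [this]
    push_cast
    ring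
  rw [hb, hc, d1, d2]
  have hP3 : P (i + 1 + 2) = P (i + 3) := rfl
  rw [hP3]
  have hd2 : d (i + 1 + 1) = d (i + 2) := rfl
  rw [hd2]
  generalize E i / P i = x0 at *
  generalize E (i + 1) / P (i + 1) = x1 at *
  generalize E (i + 2) / P (i + 2) = x2 at *
  rw [e0, e1, e2] at hE
  push_cast
  linear_combination (-((i : ℝ) + 3)) * hPD - hE + x1 * hP

private theorem ChainT_top {n : ℕ} {P E d : ℕ → ℝ} (h : Sys n P E d) {D : ℕ → ℝ}
    (hD : ∀ k, k < n → D (k + 1) = E (k + 1) / P (k + 1) - E k / P k) (hn : 1 ≤ n) :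
    d (n + 1) = cc n P (n + 1) * D n := by
  obtain ⟨i, rfl⟩ : ∃ i, n = i + 1 := ⟨n - 1, by omega⟩
  have p0 : P i ≠ 0 := (h.P_pos i (by omega)).ne'
  have p1 : P (i + 1) ≠ 0 := (h.P_pos (i + 1) le_rfl).ne'
  have e0 : E i = E i / P i * P i := (div_mul_cancel₀ _ p0).symm
  have e1 : E (i + 1) = E (i + 1) / P (i + 1) * P (i + 1) := (div_mul_cancel₀ _ p1).symm
  have hE := h.E_rec i
  have hP := h.P_rec i
  rw [h.E_zero (i + 3) (by omega), h.E_zero (i + 2) (by omega)] at hE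
  rw [h.P_zero (i + 3) (by omega), h.P_zero (i + 2) (by omega)] at hP
  have hc : cc (i + 1) P (i + 1 + 1) = 6 * P i := by
    unfold cc
    have : i + 1 + 1 - 2 = i := by omega
    rw [this]
    push_cast
    ring
  rw [hc, hD i (by omega)]
  have hd2 : d (i + 1 + 1) = d (i + 2) := rfl
  rw [hd2]
  generalize E i / P i = x0 at *
  generalize E (i + 1) / P (i + 1) = x1 at *
  rw [e0, e1] at hE
  push_cast at hE hP
  linear_combination -hE + x1 * hP

theorem up_part {n J : ℕ} {P E d G e f X : ℕ → ℝ} {x : ℝ} (h : Sys n P E d) (hn : 18 ≤ n)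
    (hG : ∀ j, 5 ≤ j → j ≤ n → 0 < G j ∧ d (j + 1) ≤ G j * d j)
    (u : Up n J P G e f X x) :
    (∀ j, J ≤ j → j < n → E (j - 1) / P (j - 1) ≤ E (j + 1) / P (j + 1)) ∧
      cc n P (J + 1) * (E (J + 1) / P (J + 1) - E (J - 1) / P (J - 1)) ≤ x * d (J + 1) := by
  classical
  have hJ9 : 9 ≤ J := by have := u.hJ; omega
  have hJn := u.hJn
  have hJr : (n : ℝ) ≤ 2 * (J : ℝ) := by exact_mod_cast u.hJ
  -- positivity
  have hq : ∀ k, J ≤ k → 0 < 3 * ((k + 1 : ℕ) : ℝ) - n := by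
    intro k hk
    have h1 : (J : ℝ) ≤ k := by exact_mod_cast hk
    push_cast
    have h2 : (0 : ℝ) ≤ J := Nat.cast_nonneg J
    linarith
  have hCpos : ∀ k, J ≤ k → k ≤ n → 0 < cc n P (k + 1) := by
    intro k hk hkn
    unfold cc
    have h1 : (k : ℝ) ≤ n := by exact_mod_cast hkn
    have h2 := h.P_pos (k + 1 - 2) (by omega)
    refine mul_pos (mul_pos (by norm_num) ?_) h2
    push_cast
    linarith
  have hA0 : ∀ j : ℕ, 0 ≤ ((j : ℝ) + 1) * P (j + 1) := by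
    intro j
    refine mul_nonneg (by positivity) ?_
    rcases Nat.lt_or_ge n (j + 1) with h1 | h1
    · rw [h.P_zero _ h1]
    · exact (h.P_pos _ h1).le
  have hrb0 : ∀ k, J ≤ k → k < n → 0 ≤ rb n P (k + 1) := by
    intro k hk hkn
    unfold rb
    have h1 := hA0 (k + 1)
    have h2 := hq k hk
    have h3 := h.P_pos (k + 1) hkn
    have h4 : 0 ≤ 4 / 9 * (((k + 1 : ℕ) : ℝ) + 1) * P (k + 1 + 1) := by
      rw [mul_assoc]
      exact mul_nonneg (by norm_num) h1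
    exact div_nonneg h4 (mul_pos h2 h3).le
  have hrbA : ∀ k, J ≤ k → k < n → (((k + 1 : ℕ) : ℝ) + 1) * P (k + 1 + 1) =
      rb n P (k + 1) * ((9 / 4) * (3 * ((k + 1 : ℕ) : ℝ) - n) * P (k + 1)) := by
    intro k hk hkn
    unfold rb
    have h2 := (hq k hk).ne'
    have h3 := (h.P_pos (k + 1) hkn).ne'
    rw [div_mul_eq_mul_div, eq_div_iff (mul_ne_zero h2 h3)]
    ring
  -- the numbers ρ
  obtain ⟨ρ, hρJ, hρs'⟩ := ChainT_rho J ((((J + 1 : ℕ) : ℝ) + 1) * P (J + 1 + 1) / cc n P (J + 1))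
    (fun j => ((j : ℝ) + 1) * P (j + 1)) (bb n P) (cc n P)
  have hρs : ∀ k, J ≤ k → ρ (k + 1) = (((k + 1 : ℕ) : ℝ) + 1) * P (k + 1 + 1) /
      (bb n P (k + 1) - cc n P (k + 1) * ρ k) := hρs'
  have hbb : ∀ j, bb n P j = ((j : ℝ) + 1) * P (j + 1) + 3 * (3 * (j : ℝ) - n) * P j := fun _ => rfl
  -- from the bounds of R to the bounds of ρ
  have hRρ : ∀ k, J ≤ k → k < n →
      (9 / 4) * (3 * ((k + 1 : ℕ) : ℝ) - n) * P (k + 1) ≤ bb n P (k + 1) - cc n P (k + 1) * ρ k →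
      0 < bb n P (k + 1) - cc n P (k + 1) * ρ k ∧ 0 ≤ ρ (k + 1) ∧ ρ (k + 1) ≤ rb n P (k + 1) := by
    intro k hk hkn hR
    have h1 : 0 < (9 / 4) * (3 * ((k + 1 : ℕ) : ℝ) - n) * P (k + 1) :=
      mul_pos (mul_pos (by norm_num) (hq k hk)) (h.P_pos (k + 1) hkn)
    have h2 : 0 < bb n P (k + 1) - cc n P (k + 1) * ρ k := h1.trans_le hR
    refine ⟨h2, ?_, ?_⟩
    · rw [hρs k hk]
      exact div_nonneg (hA0 (k + 1)) h2.le
    · rw [hρs k hk, div_le_iff₀ h2, hrbA k hk hkn]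
      exact mul_le_mul_of_nonneg_left hR (hrb0 k hk hkn)
  have hRb : ∀ k, J ≤ k → k < n →
      (9 / 4) * (3 * ((k + 1 : ℕ) : ℝ) - n) * P (k + 1) ≤ bb n P (k + 1) - cc n P (k + 1) * ρ k ∧
      bb n P (k + 1) - cc n P (k + 1) * ρ k ≤ 3 * (3 * ((k + 1 : ℕ) : ℝ) - n) * P (k + 1) := by
    intro k hk
    induction k, hk using Nat.le_induction with
    | base =>
      intro hkn
      have h1 := (hCpos J le_rfl hJn.le).ne'
      have h2 : cc n P (J + 1) * ρ J = (((J + 1 : ℕ) : ℝ) + 1) * P (J + 1 + 1) := by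
        rw [hρJ, mul_div_cancel₀ _ h1]
      have h3 := mul_pos (hq J le_rfl) (h.P_pos (J + 1) hkn)
      rw [h2, hbb]
      constructor <;> nlinarith
    | succ k hk ih =>
      intro hkn
      obtain ⟨ih1, ih2⟩ := ih (by omega)
      obtain ⟨hR0, hρ0, hρ1⟩ := hRρ k hk (by omega) ih1
      have hkr : (J : ℝ) ≤ k := by exact_mod_cast hk
      have hkn' : (k : ℝ) + 2 ≤ n := by exact_mod_cast hkn
      have p0 := h.P_pos (k - 1) (by omega)
      have p1 := h.P_pos k (by omega)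
      have p2 := h.P_pos (k + 1) (by omega)
      have p3 := h.P_pos (k + 2) (by omega)
      have hA3 := hA0 (k + 2)
      have p4 : 0 ≤ P (k + 3) := by
        rcases Nat.lt_or_ge n (k + 3) with h1 | h1
        · rw [h.P_zero _ h1]
        · exact (h.P_pos _ h1).le
      have hq2 := hq (k + 1) (by omega)
      have hq1 := hq k hk
      have hC1 := hCpos k hk (by omega)
      have hC2 := hCpos (k + 1) (by omega) (by omega)
      have hcc1 : cc n P (k + 1) = 6 * ((n : ℝ) + 1 - k) * P (k - 1) := by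
        unfold cc
        have : k + 1 - 2 = k - 1 := by omega
        rw [this]
        push_cast
        ring
      have hcc2 : cc n P (k + 1 + 1) = 6 * ((n : ℝ) - k) * P k := by
        unfold cc
        have : k + 1 + 1 - 2 = k := by omega
        rw [this]
        push_cast
        ring
      -- upper bound
      have hup : (((k + 1 + 1 : ℕ) : ℝ) + 1) * P (k + 1 + 1 + 1) ≤ cc n P (k + 1 + 1) * ρ (k + 1) := by
        have h1 : bb n P (k + 1) - cc n P (k + 1) * ρ k ≤ cc n P (k + 1) := by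
          refine ih2.trans ?_
          have h2 := u.hK (k + 1) (by omega) (by omega)
          have h3 : k + 1 - 2 = k - 1 := by omega
          rw [h3] at h2
          rw [hcc1]
          push_cast at h2 ⊢
          nlinarith
        have h4 : (((k + 1 : ℕ) : ℝ) + 1) * P (k + 1 + 1) / cc n P (k + 1) ≤ ρ (k + 1) := by
          rw [hρs k hk]
          exact div_le_div_of_nonneg_left (hA0 (k + 1)) hR0 h1
        have h5 : cc n P (k + 1 + 1) * ((((k + 1 : ℕ) : ℝ) + 1) * P (k + 1 + 1) / cc n P (k + 1)) ≤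
            cc n P (k + 1 + 1) * ρ (k + 1) := mul_le_mul_of_nonneg_left h4 hC2.le
        refine le_trans ?_ h5
        rw [← mul_div_assoc, le_div_iff₀ hC1, hcc1, hcc2]
        have u1 := h.P_ulc (k - 1)
        have u2 := h.P_ulc k
        have u3 := h.P_ulc (k + 1)
        have e1 : k - 1 + 1 = k := by omega
        have e2 : k - 1 + 2 = k + 1 := by omega
        have e3 : ((k - 1 : ℕ) : ℝ) = (k : ℝ) - 1 := by
          rw [Nat.cast_sub (by omega)]
          norm_num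
        rw [e1, e2, e3] at u1
        have key := ChainT_ratio (s := (k : ℝ) + 2) (t := (n : ℝ) - k - 2) (p0 := P (k - 1))
          (p1 := P k) (p2 := P (k + 1)) (p3 := P (k + 2)) (p4 := P (k + 3)) (by linarith)
          (by linarith) p0 p1 p2 p3 p4
          (by nlinarith [u1]) (by nlinarith [u2])
          (by push_cast at u3; have e5 : P (k + 1 + 2) = P (k + 3) := rfl
              have e6 : P (k + 1 + 1) = P (k + 2) := rfl
              rw [e5, e6] at u3; nlinarith [u3])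
        have e7 : P (k + 1 + 1 + 1) = P (k + 3) := rfl
        have e8 : P (k + 1 + 1) = P (k + 2) := rfl
        rw [e7, e8]
        push_cast
        nlinarith [key]
      have hlow : cc n P (k + 1 + 1) * ρ (k + 1) ≤ (((k + 1 + 1 : ℕ) : ℝ) + 1) * P (k + 1 + 1 + 1) +
          (3 / 4) * (3 * ((k + 1 + 1 : ℕ) : ℝ) - n) * P (k + 1 + 1) := by
        have h1 : cc n P (k + 1 + 1) * ρ (k + 1) ≤ cc n P (k + 1 + 1) * rb n P (k + 1) :=
          mul_le_mul_of_nonneg_left hρ1 hC2.le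
        refine h1.trans ?_
        have h2 := u.hR (k + 1 + 1) (by omega) (by omega)
        have e1 : k + 1 + 1 - 2 = k := by omega
        have e2 : k + 1 + 1 - 1 = k + 1 := by omega
        rw [e1, e2] at h2
        rw [hcc2]
        unfold rb
        have h3 : 0 < (3 * ((k + 1 : ℕ) : ℝ) - n) * P (k + 1) := mul_pos hq1 p2
        rw [← mul_div_assoc, div_le_iff₀ h3]
        push_cast at h2 ⊢
        nlinarith [h2]
      have hb2 := hbb (k + 1 + 1)
      constructor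
      · rw [hb2]
        linarith
      · rw [hb2]
        linarith
  have hR0 : ∀ k, J ≤ k → k < n → 0 < bb n P (k + 1) - cc n P (k + 1) * ρ k := fun k hk hkn =>
    (hRρ k hk hkn (hRb k hk hkn).1).1
  have hρ0 : ∀ k, J ≤ k → k < n → 0 ≤ ρ (k + 1) := fun k hk hkn =>
    (hRρ k hk hkn (hRb k hk hkn).1).2.1
  have hρrb : ∀ k, J ≤ k → k < n → ρ (k + 1) ≤ rb n P (k + 1) := fun k hk hkn =>
    (hRρ k hk hkn (hRb k hk hkn).1).2.2
  have hρ01 : ∀ k, J ≤ k → k ≤ n → 0 ≤ ρ k ∧ ρ k ≤ 1 := by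
    intro k hk hkn
    rcases Nat.eq_or_lt_of_le hk with h1 | h1
    · subst h1
      have hC := hCpos J le_rfl hJn.le
      rw [hρJ]
      refine ⟨div_nonneg (hA0 (J + 1)) hC.le, ?_⟩
      rw [div_le_one hC, hrbA J le_rfl hJn]
      have h2 := u.hρ (J + 1) (by omega) (by omega)
      have h3 := u.hK (J + 1) (by omega) (by omega)
      have h4 : 0 < (9 / 4) * (3 * ((J + 1 : ℕ) : ℝ) - n) * P (J + 1) :=
        mul_pos (mul_pos (by norm_num) (hq J le_rfl)) (h.P_pos (J + 1) hJn)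
      have h5 : rb n P (J + 1) * ((9 / 4) * (3 * ((J + 1 : ℕ) : ℝ) - n) * P (J + 1)) ≤
          1 * ((9 / 4) * (3 * ((J + 1 : ℕ) : ℝ) - n) * P (J + 1)) :=
        mul_le_mul_of_nonneg_right h2 h4.le
      have h6 : cc n P (J + 1) = 6 * ((n : ℝ) + 2 - ((J + 1 : ℕ) : ℝ)) * P (J + 1 - 2) := rfl
      rw [h6] at hC ⊢
      nlinarith
    · obtain ⟨i, rfl⟩ : ∃ i, k = i + 1 := ⟨k - 1, by omega⟩
      exact ⟨hρ0 i (by omega) (by omega), (hρrb i (by omega) (by omega)).trans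
        (u.hρ (i + 1) (by omega) hkn)⟩
  -- the differences
  let D : ℕ → ℝ := fun k => if k ≤ n then E k / P k - E (k - 1) / P (k - 1) else 0
  have hD : ∀ k, k < n → D (k + 1) = E (k + 1) / P (k + 1) - E k / P k := by
    intro k hk
    have h1 : k + 1 ≤ n := hk
    simp only [D, if_pos h1, Nat.add_sub_cancel]
  have hDn : D (n + 1) = 0 := by
    have h1 : ¬ n + 1 ≤ n := by omega
    simp only [D, if_neg h1]
  have hker : ∀ k, J ≤ k → k < n → d (k + 1) = (((k + 1 : ℕ) : ℝ) + 1) * P (k + 1 + 1) * D (k + 2) +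
      bb n P (k + 1) * D (k + 1) + cc n P (k + 1) * D k := fun k hk hkn =>
    ChainT_kernel h hD (by omega) hkn
  have htop := ChainT_top h hD (by omega)
  -- the numbers φ
  let φ : ℕ → ℝ := fun k => D k + ρ k * D (k + 1)
  have hφn : cc n P (n + 1) * φ n = d (n + 1) := by
    simp only [φ, hDn, mul_zero, add_zero]
    exact htop.symm
  have hφ : ∀ k, J ≤ k → k < n → cc n P (k + 1) * φ k +
      (bb n P (k + 1) - cc n P (k + 1) * ρ k) * φ (k + 1) = d (k + 1) := by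
    intro k hk hkn
    have h1 := hker k hk hkn
    have h2 : (bb n P (k + 1) - cc n P (k + 1) * ρ k) * ρ (k + 1) =
        (((k + 1 : ℕ) : ℝ) + 1) * P (k + 1 + 1) := by
      rw [hρs k hk, mul_div_cancel₀ _ (hR0 k hk hkn).ne']
    rw [h1, ← h2]
    simp only [φ]
    ring
  have hGp : ∀ k, J ≤ k → k < n → 0 < G (k + 1) ∧ d (k + 1 + 1) ≤ G (k + 1) * d (k + 1) :=
    fun k hk hkn => hG (k + 1) (by omega) (by omega)
  -- the bounds of φ
  have hφb : ∀ t k, k + t = n → J ≤ k → -(e (k + 1)) * d (k + 1) ≤ cc n P (k + 1) * φ k ∧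
      cc n P (k + 1) * φ k ≤ (1 + f (k + 1)) * d (k + 1) := by
    intro t
    induction t with
    | zero =>
      intro k hk hkJ
      have hk' : k = n := by omega
      subst hk'
      rw [hφn]
      have h1 := mul_nonneg (u.he0 (k + 1)) (h.d_nn (k + 1))
      have h2 := mul_nonneg (u.hf0 (k + 1)) (h.d_nn (k + 1))
      have h3 := h.d_nn (k + 1)
      constructor <;> nlinarith
    | succ t ih =>
      intro k hk hkJ
      have hkn : k < n := by omega
      obtain ⟨i1, i2⟩ := ih (k + 1) (by omega) (by omega)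
      have hC2 := hCpos (k + 1) (by omega) (by omega)
      have hR := hR0 k hkJ hkn
      have hRu := (hRb k hkJ hkn).2
      obtain ⟨g0, g1⟩ := hGp k hkJ hkn
      have hd1 := h.d_nn (k + 1)
      have hd2 := h.d_nn (k + 1 + 1)
      have hcc2 : cc n P (k + 1 + 1) = 6 * ((n : ℝ) + 1 - ((k + 1 : ℕ) : ℝ)) * P (k + 1 - 1) := by
        unfold cc
        have : k + 1 + 1 - 2 = k + 1 - 1 := by omega
        rw [this]
        push_cast
        ring
      have he := u.he (k + 1) (by omega) (by omega)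
      have hf := u.hf (k + 1) (by omega) (by omega)
      have heq := hφ k hkJ hkn
      have hf1 : 0 ≤ 1 + f (k + 1 + 1) := by linarith [u.hf0 (k + 1 + 1)]
      have he1 := u.he0 (k + 1 + 1)
      have hM : 0 ≤ 3 * (3 * ((k + 1 : ℕ) : ℝ) - n) * P (k + 1) := hR.le.trans hRu
      -- upper bound of R φ
      have hx1 : (bb n P (k + 1) - cc n P (k + 1) * ρ k) * φ (k + 1) ≤ (1 + e (k + 1)) * d (k + 1) := by
        have h1 : φ (k + 1) ≤ (1 + f (k + 1 + 1)) * (G (k + 1) * d (k + 1)) / cc n P (k + 1 + 1) := by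
          rw [le_div_iff₀ hC2]
          calc φ (k + 1) * cc n P (k + 1 + 1) = cc n P (k + 1 + 1) * φ (k + 1) := mul_comm _ _
            _ ≤ (1 + f (k + 1 + 1)) * d (k + 1 + 1) := i2
            _ ≤ (1 + f (k + 1 + 1)) * (G (k + 1) * d (k + 1)) := mul_le_mul_of_nonneg_left g1 hf1
        have h2 : 0 ≤ (1 + f (k + 1 + 1)) * (G (k + 1) * d (k + 1)) / cc n P (k + 1 + 1) :=
          div_nonneg (mul_nonneg hf1 (mul_nonneg g0.le hd1)) hC2.le
        have h3 : (bb n P (k + 1) - cc n P (k + 1) * ρ k) * φ (k + 1) ≤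
            3 * (3 * ((k + 1 : ℕ) : ℝ) - n) * P (k + 1) *
              ((1 + f (k + 1 + 1)) * (G (k + 1) * d (k + 1)) / cc n P (k + 1 + 1)) :=
          (mul_le_mul_of_nonneg_left h1 hR.le).trans (mul_le_mul_of_nonneg_right hRu h2)
        refine h3.trans ?_
        rw [← mul_div_assoc, div_le_iff₀ hC2, hcc2]
        have h4 := mul_le_mul_of_nonneg_right he hd1
        nlinarith [h4]
      have hx2 : -((bb n P (k + 1) - cc n P (k + 1) * ρ k) * φ (k + 1)) ≤ f (k + 1) * d (k + 1) := by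
        have h1 : -φ (k + 1) ≤ e (k + 1 + 1) * (G (k + 1) * d (k + 1)) / cc n P (k + 1 + 1) := by
          rw [le_div_iff₀ hC2]
          have h5 : e (k + 1 + 1) * d (k + 1 + 1) ≤ e (k + 1 + 1) * (G (k + 1) * d (k + 1)) :=
            mul_le_mul_of_nonneg_left g1 he1
          linarith
        have h2 : 0 ≤ e (k + 1 + 1) * (G (k + 1) * d (k + 1)) / cc n P (k + 1 + 1) :=
          div_nonneg (mul_nonneg he1 (mul_nonneg g0.le hd1)) hC2.le
        have h3 : (bb n P (k + 1) - cc n P (k + 1) * ρ k) * (-φ (k + 1)) ≤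
            3 * (3 * ((k + 1 : ℕ) : ℝ) - n) * P (k + 1) *
              (e (k + 1 + 1) * (G (k + 1) * d (k + 1)) / cc n P (k + 1 + 1)) :=
          (mul_le_mul_of_nonneg_left h1 hR.le).trans (mul_le_mul_of_nonneg_right hRu h2)
        rw [← mul_neg]
        refine h3.trans ?_
        rw [← mul_div_assoc, div_le_iff₀ hC2, hcc2]
        have h4 := mul_le_mul_of_nonneg_right hf hd1
        nlinarith [h4]
      constructor <;> linarith
  have hφabs : ∀ k, J ≤ k → k ≤ n → |φ k| ≤ (1 + f (k + 1)) * d (k + 1) / cc n P (k + 1) := by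
    intro k hk hkn
    obtain ⟨i1, i2⟩ := hφb (n - k) k (by omega) hk
    have hC := hCpos k hk hkn
    have hd1 := h.d_nn (k + 1)
    have he1 := mul_le_mul_of_nonneg_right (u.he1 (k + 1)) hd1
    have hf1 := mul_nonneg (u.hf0 (k + 1)) hd1
    rw [abs_le]
    constructor
    · rw [neg_le, le_div_iff₀ hC]
      linarith
    · rw [le_div_iff₀ hC]
      linarith
  -- the bounds of D
  have hDb : ∀ t k, k + t = n → J < k → 1 ≤ X k ∧ |D k| ≤ X k * d (k + 1) / cc n P (k + 1) := by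
    intro t
    induction t with
    | zero =>
      intro k hk hkJ
      have hk' : k = n := by omega
      subst hk'
      refine ⟨u.hXn, ?_⟩
      have hC := hCpos k hkJ.le le_rfl
      have h1 : D k = d (k + 1) / cc k P (k + 1) := by
        rw [htop, mul_div_cancel_left₀ _ hC.ne']
      have hd1 := h.d_nn (k + 1)
      rw [h1, abs_of_nonneg (div_nonneg hd1 hC.le)]
      refine div_le_div_of_nonneg_right ?_ hC.le
      nlinarith [u.hXn]
    | succ t ih =>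
      intro k hk hkJ
      have hkn : k < n := by omega
      obtain ⟨x1, x2⟩ := ih (k + 1) (by omega) (by omega)
      have hC1 := hCpos k hkJ.le hkn.le
      have hC2 := hCpos (k + 1) (by omega) (by omega)
      obtain ⟨i, rfl⟩ : ∃ i, k = i + 1 := ⟨k - 1, by omega⟩
      have hrb := hrb0 i (by omega) (by omega)
      have hρr := hρrb i (by omega) (by omega)
      have hρn := hρ0 i (by omega) (by omega)
      obtain ⟨g0, g1⟩ := hGp (i + 1) (by omega) hkn
      have hX := u.hX (i + 1) hkJ hkn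
      have hd1 := h.d_nn (i + 1 + 1)
      have hd2 := h.d_nn (i + 1 + 1 + 1)
      have hX0 : 0 ≤ X (i + 1 + 1) := zero_le_one.trans x1
      have ht : 0 ≤ rb n P (i + 1) * X (i + 1 + 1) * G (i + 1 + 1) * cc n P (i + 1 + 1) /
          cc n P (i + 1 + 2) := by
        have h5 : 0 < cc n P (i + 1 + 2) := hC2
        positivity
      refine ⟨by linarith [u.hf0 (i + 1 + 1)], ?_⟩
      have h1 : D (i + 1) = φ (i + 1) - ρ (i + 1) * D (i + 1 + 1) := by
        simp only [φ]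
        ring
      have h2 : |ρ (i + 1) * D (i + 1 + 1)| ≤
          rb n P (i + 1) * (X (i + 1 + 1) * (G (i + 1 + 1) * d (i + 1 + 1)) / cc n P (i + 1 + 2)) := by
        rw [abs_mul, abs_of_nonneg hρn]
        refine mul_le_mul hρr (x2.trans ?_) (abs_nonneg _) hrb
        refine div_le_div_of_nonneg_right ?_ hC2.le
        exact mul_le_mul_of_nonneg_left g1 hX0
      have h3 := hφabs (i + 1) hkJ.le hkn.le
      have h4 : |D (i + 1)| ≤ |φ (i + 1)| + |ρ (i + 1) * D (i + 1 + 1)| := by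
        rw [h1]
        exact abs_sub _ _
      refine h4.trans ((add_le_add h3 h2).trans ?_)
      have h5 := mul_le_mul_of_nonneg_right hX (div_nonneg hd1 hC1.le)
      have h6 : (1 + f (i + 1 + 1) + rb n P (i + 1) * X (i + 1 + 1) * G (i + 1 + 1) *
          cc n P (i + 1 + 1) / cc n P (i + 1 + 2)) * (d (i + 1 + 1) / cc n P (i + 1 + 1)) =
          (1 + f (i + 1 + 1)) * d (i + 1 + 1) / cc n P (i + 1 + 1) +
          rb n P (i + 1) * (X (i + 1 + 1) * (G (i + 1 + 1) * d (i + 1 + 1)) / cc n P (i + 1 + 2)) := by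
        have h7 := hC1.ne'
        have h8 : cc n P (i + 1 + 2) ≠ 0 := hC2.ne'
        field_simp
      rw [h6] at h5
      refine h5.trans (le_of_eq ?_)
      rw [mul_div_assoc]
  -- the last term of the pair sums
  have hlast : ∀ k, J ≤ k → k < n → |cc n P (k + 1) * (1 - ρ k) * ρ (k + 1) * D (k + 2)| ≤
      s3 n P G X (k + 1) * d (k + 1) := by
    intro k hk hkn
    have hC1 := hCpos k hk hkn.le
    rcases Nat.eq_or_lt_of_le (show k + 1 ≤ n from hkn) with h1 | h1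
    · have h2 : D (k + 2) = 0 := by
        have : k + 2 = n + 1 := by omega
        rw [this, hDn]
      have h3 : s3 n P G X (k + 1) = 0 := by
        have h4 : rb n P (k + 1) = 0 := by
          unfold rb
          rw [h.P_zero (k + 1 + 1) (by omega)]
          simp
        unfold s3
        rw [h4]
        simp
      rw [h2, h3, mul_zero, abs_zero, zero_mul]
    · obtain ⟨x1, x2⟩ := hDb (n - (k + 2)) (k + 2) (by omega) (by omega)
      obtain ⟨g0, g1⟩ := hGp k hk hkn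
      obtain ⟨g2, g3⟩ := hGp (k + 1) (by omega) h1
      have hC3 := hCpos (k + 2) (by omega) (by omega)
      obtain ⟨r0, r1⟩ := hρ01 k hk hkn.le
      have hd1 := h.d_nn (k + 1)
      have hX0 : 0 ≤ X (k + 2) := zero_le_one.trans x1
      rw [abs_mul, abs_mul, abs_mul, abs_of_nonneg hC1.le, abs_of_nonneg (sub_nonneg.2 r1),
        abs_of_nonneg (hρ0 k hk hkn)]
      have h4 : |D (k + 2)| ≤ X (k + 2) * (G (k + 2) * (G (k + 1) * d (k + 1))) / cc n P (k + 3) := by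
        refine x2.trans (div_le_div_of_nonneg_right (mul_le_mul_of_nonneg_left ?_ hX0) hC3.le)
        exact g3.trans (mul_le_mul_of_nonneg_left g1 g2.le)
      have h5 : cc n P (k + 1) * (1 - ρ k) ≤ cc n P (k + 1) := by nlinarith
      have h6 : cc n P (k + 1) * (1 - ρ k) * ρ (k + 1) ≤ cc n P (k + 1) * rb n P (k + 1) :=
        mul_le_mul h5 (hρrb k hk hkn) (hρ0 k hk hkn) hC1.le
      refine (mul_le_mul h6 h4 (abs_nonneg _) (mul_nonneg hC1.le (hrb0 k hk hkn))).trans (le_of_eq ?_)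
      unfold s3
      ring
  -- the pair sums
  have hpair : ∀ k, J ≤ k → k < n → cc n P (k + 1) * (D (k + 1) + D k) = d (k + 1) -
      (bb n P (k + 1) - cc n P (k + 1)) * φ (k + 1) -
      cc n P (k + 1) * (1 - ρ k) * ρ (k + 1) * D (k + 2) := by
    intro k hk hkn
    have h1 := hker k hk hkn
    have h2 : (bb n P (k + 1) - cc n P (k + 1) * ρ k) * ρ (k + 1) =
        (((k + 1 : ℕ) : ℝ) + 1) * P (k + 1 + 1) := by
      rw [hρs k hk, mul_div_cancel₀ _ (hR0 k hk hkn).ne']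
    rw [← h2] at h1
    have h3 : φ (k + 1) = D (k + 1) + ρ (k + 1) * D (k + 2) := rfl
    rw [h3]
    linear_combination -h1
  have hdiff : ∀ k, J ≤ k → k < n →
      D (k + 1) + D k = E (k + 1) / P (k + 1) - E (k - 1) / P (k - 1) := by
    intro k hk hkn
    obtain ⟨i, rfl⟩ : ∃ i, k = i + 1 := ⟨k - 1, by omega⟩
    rw [hD (i + 1) hkn, hD i (by omega), Nat.add_sub_cancel]
    ring
  constructor
  · intro k hk hkn
    have h1 := hpair k hk hkn
    have h2 := abs_le.1 (hlast k hk hkn)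
    obtain ⟨i1, i2⟩ := hφb (n - (k + 1)) (k + 1) (by omega) (by omega)
    have hC1 := hCpos k hk hkn.le
    have hC2 := hCpos (k + 1) (by omega) (by omega)
    obtain ⟨g0, g1⟩ := hGp k hk hkn
    have hd1 := h.d_nn (k + 1)
    have hs := u.hs (k + 1) (by omega) (by omega)
    have hf1 : 0 ≤ 1 + f (k + 1 + 1) := by linarith [u.hf0 (k + 1 + 1)]
    have he1 := u.he0 (k + 1 + 1)
    have hU : φ (k + 1) ≤ (1 + f (k + 1 + 1)) * (G (k + 1) * d (k + 1)) / cc n P (k + 1 + 1) := by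
      rw [le_div_iff₀ hC2]
      have h5 := mul_le_mul_of_nonneg_left g1 hf1
      linarith
    have hV : -φ (k + 1) ≤ e (k + 1 + 1) * (G (k + 1) * d (k + 1)) / cc n P (k + 1 + 1) := by
      rw [le_div_iff₀ hC2]
      have h5 := mul_le_mul_of_nonneg_left g1 he1
      linarith
    have h3 : (bb n P (k + 1) - cc n P (k + 1)) * φ (k + 1) ≤
        max (bb n P (k + 1) - cc n P (k + 1)) 0 *
          ((1 + f (k + 1 + 1)) * (G (k + 1) * d (k + 1)) / cc n P (k + 1 + 1)) +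
        max (cc n P (k + 1) - bb n P (k + 1)) 0 *
          (e (k + 1 + 1) * (G (k + 1) * d (k + 1)) / cc n P (k + 1 + 1)) := by
      rcases le_total 0 (bb n P (k + 1) - cc n P (k + 1)) with h4 | h4
      · rw [max_eq_left h4, max_eq_right (by linarith), zero_mul, add_zero]
        exact mul_le_mul_of_nonneg_left hU h4
      · have h5 : 0 ≤ cc n P (k + 1) - bb n P (k + 1) := by linarith
        rw [max_eq_right h4, max_eq_left h5, zero_mul, zero_add]
        have h6 := mul_le_mul_of_nonneg_left hV h5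
        linarith
    have h4 := mul_le_mul_of_nonneg_right hs hd1
    have h5 : (max (bb n P (k + 1) - cc n P (k + 1)) 0 * G (k + 1) * (1 + f (k + 1 + 1)) /
        cc n P (k + 1 + 1) + max (cc n P (k + 1) - bb n P (k + 1)) 0 * G (k + 1) * e (k + 1 + 1) /
        cc n P (k + 1 + 1) + s3 n P G X (k + 1)) * d (k + 1) =
        max (bb n P (k + 1) - cc n P (k + 1)) 0 *
          ((1 + f (k + 1 + 1)) * (G (k + 1) * d (k + 1)) / cc n P (k + 1 + 1)) +
        max (cc n P (k + 1) - bb n P (k + 1)) 0 *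
          (e (k + 1 + 1) * (G (k + 1) * d (k + 1)) / cc n P (k + 1 + 1)) +
        s3 n P G X (k + 1) * d (k + 1) := by ring
    rw [h5] at h4
    have h6 : 0 ≤ cc n P (k + 1) * (D (k + 1) + D k) := by
      rw [h1]
      linarith [h2.1, h2.2]
    have h7 : 0 ≤ D (k + 1) + D k := nonneg_of_mul_nonneg_right h6 hC1
    rw [hdiff k hk hkn] at h7
    linarith
  · have hkn := hJn
    have h1 := hpair J le_rfl hkn
    rw [hdiff J le_rfl hkn] at h1
    rw [h1]
    have h2 := abs_le.1 (hlast J le_rfl hkn)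
    have h3 := hφabs (J + 1) (by omega) (by omega)
    have hC2 := hCpos (J + 1) (by omega) (by omega)
    obtain ⟨g0, g1⟩ := hGp J le_rfl hkn
    have hd1 := h.d_nn (J + 1)
    have hf1 : 0 ≤ 1 + f (J + 1 + 1) := by linarith [u.hf0 (J + 1 + 1)]
    have h4 : |φ (J + 1)| ≤ (1 + f (J + 1 + 1)) * (G (J + 1) * d (J + 1)) / cc n P (J + 1 + 1) :=
      h3.trans (div_le_div_of_nonneg_right (mul_le_mul_of_nonneg_left g1 hf1) hC2.le)
    have h5 : -((bb n P (J + 1) - cc n P (J + 1)) * φ (J + 1)) ≤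
        |bb n P (J + 1) - cc n P (J + 1)| *
          ((1 + f (J + 1 + 1)) * (G (J + 1) * d (J + 1)) / cc n P (J + 1 + 1)) := by
      refine (neg_le_abs _).trans ?_
      rw [abs_mul]
      exact mul_le_mul_of_nonneg_left h4 (abs_nonneg _)
    have h6 := mul_le_mul_of_nonneg_right u.hx hd1
    have h7 : (1 + |bb n P (J + 1) - cc n P (J + 1)| * G (J + 1) * (1 + f (J + 2)) /
        cc n P (J + 2) + s3 n P G X (J + 1)) * d (J + 1) = d (J + 1) +
        |bb n P (J + 1) - cc n P (J + 1)| *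
          ((1 + f (J + 1 + 1)) * (G (J + 1) * d (J + 1)) / cc n P (J + 1 + 1)) +
        s3 n P G X (J + 1) * d (J + 1) := by
      have h8 : J + 1 + 1 = J + 2 := rfl
      rw [h8]
      ring
    rw [h7] at h6
    linarith [h2.1, h2.2]

end Pool.Agent.Lib.MP_eeed5c_coC
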