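import Pool.Agent.Lib.MP_eeed5c_co_C.ChainF
import Pool.Agent.Lib.MP_eeed5c_co_C.ChainT
import Pool.Agent.Lib.MP_eeed5c_co_C.ChainM

/-!
# The chain

PROOF. Unpack `Good`. `low_part` (with the `F` of `Mid`) gives `E_j ≥ 0` for `j ≤ F`,
`d_{F-1} + s d_{F-3} ≤ F E_F` and `d_{F-2} + s d_{F-4} ≤ (F-1) E_{F-1}` (`F ≥ 9`).
`d_{F-1} ≤ G_{F-2} G_{F-3} d_{F-3}`, so `hY1` gives `Y_F d_{F-1} ≤ F E_F`. Similarly
`d_{F-2} ≤ G_{F-3} G_{F-4} d_{F-4}` and `d_{F-1} ≤ G_{F-2} d_{F-2}` and `hY2` give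
`Y_{F-1} d_{F-1} P_{F-1} ≤ F P_F E_{F-1}`. `up_part` at `j = J` and its second statement give the
hypotheses of `mid_part`, so `E_j ≥ 0` for `j ≤ J+1`. For `J+1 < j ≤ n` induction:
`ε_j ≥ ε_{j-2} ≥ 0` (`up_part` at `j-1`). For `j > n`, `E_j = 0`.
-/

set_option autoImplicit false

namespace Pool.Agent.Lib.MP_eeed5c_coC

theorem chain {n : ℕ} {P E d G : ℕ → ℝ} (h : Sys n P E d) (hn : 18 ≤ n)
    (hG : ∀ j, 5 ≤ j → j ≤ n → 0 < G j ∧ d (j + 1) ≤ G j * d j) (hg : Good n P G) :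
    ∀ j, 0 ≤ E j := by
  obtain ⟨J, F, e, f, X, a, L, U, Y, W, x, r, s, hUp, hMid, hLow⟩ := hg
  have hF9 := hMid.hF
  have hFJ := hMid.hFJ
  have hJn := hMid.hJn
  have hFn : F ≤ n := by omega
  obtain ⟨lo1, -, lo3⟩ := low_part h hn hFn hLow.hr hLow.hs hG hLow.hc
  obtain ⟨up1, up2⟩ := up_part h hn hG hUp
  obtain ⟨K, rfl⟩ : ∃ K, F = K + 9 := ⟨F - 9, by omega⟩
  have e1 : K + 9 - 1 = K + 8 := by omega
  have e2 : K + 9 - 2 = K + 7 := by omega
  have e3 : K + 9 - 3 = K + 6 := by omega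
  have e4 : K + 9 - 4 = K + 5 := by omega
  have hs := hLow.hs
  -- the two values of `G`
  obtain ⟨g7, d7⟩ := hG (K + 7) (by omega) (by omega)
  obtain ⟨g6, d6⟩ := hG (K + 6) (by omega) (by omega)
  obtain ⟨g5, d5⟩ := hG (K + 5) (by omega) (by omega)
  have n5 := h.d_nn (K + 5)
  have n6 := h.d_nn (K + 6)
  have n7 := h.d_nn (K + 7)
  have n8 := h.d_nn (K + 8)
  have hd8 : d (K + 8) ≤ G (K + 7) * G (K + 6) * d (K + 6) := by
    have h1 : d (K + 7) ≤ G (K + 6) * d (K + 6) := d6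
    have h2 : d (K + 8) ≤ G (K + 7) * d (K + 7) := d7
    calc d (K + 8) ≤ G (K + 7) * d (K + 7) := h2
      _ ≤ G (K + 7) * (G (K + 6) * d (K + 6)) := mul_le_mul_of_nonneg_left h1 g7.le
      _ = _ := by ring
  have hd7 : d (K + 7) ≤ G (K + 6) * G (K + 5) * d (K + 5) := by
    have h1 : d (K + 6) ≤ G (K + 5) * d (K + 5) := d5
    have h2 : d (K + 7) ≤ G (K + 6) * d (K + 6) := d6
    calc d (K + 7) ≤ G (K + 6) * d (K + 6) := h2
      _ ≤ G (K + 6) * (G (K + 5) * d (K + 5)) := mul_le_mul_of_nonneg_left h1 g6.le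
      _ = _ := by ring
  have h0 : Y (K + 9) * d (K + 9 - 1) ≤ ((K + 9 : ℕ) : ℝ) * E (K + 9) := by
    have l3 := lo3 (K + 8) (by omega) (by omega)
    have hY1 := hLow.hY1
    rw [e2, e3] at hY1
    rw [e1]
    have e5 : K + 8 - 2 = K + 6 := by omega
    have e6 : K + 8 + 1 = K + 9 := by omega
    have e7 : ((K + 8 : ℕ) : ℝ) + 1 = ((K + 9 : ℕ) : ℝ) := by push_cast; ring
    rw [e5, e6, e7] at l3
    refine le_trans ?_ l3
    have hg : 0 < G (K + 7) * G (K + 6) := mul_pos g7 g6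
    refine le_of_mul_le_mul_left ?_ hg
    have q1 := mul_le_mul_of_nonneg_right hY1 n8
    have q2 := mul_le_mul_of_nonneg_left hd8 hs.le
    nlinarith [q1, q2]
  have h1 : Y (K + 9 - 1) * d (K + 9 - 1) * P (K + 9 - 1) ≤
      ((K + 9 : ℕ) : ℝ) * P (K + 9) * E (K + 9 - 1) := by
    have l3 := lo3 (K + 7) (by omega) (by omega)
    have hY2 := hLow.hY2
    rw [e1, e2, e3, e4] at hY2
    rw [e1]
    have e5 : K + 7 - 2 = K + 5 := by omega
    have e6 : K + 7 + 1 = K + 8 := by omega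
    have e7 : ((K + 7 : ℕ) : ℝ) + 1 = ((K + 9 : ℕ) : ℝ) - 1 := by push_cast; ring
    rw [e5, e6, e7] at l3
    have hY0 := hMid.hY0 (K + 8)
    have hP8 : 0 < P (K + 8) := h.P_pos _ (by omega)
    have hP9 : 0 < P (K + 9) := h.P_pos _ (by omega)
    have hF0 : 0 < ((K + 9 : ℕ) : ℝ) := by positivity
    have hF1 : 0 < ((K + 9 : ℕ) : ℝ) - 1 := by push_cast; have hK : (0 : ℝ) ≤ (K : ℝ) := Nat.cast_nonneg K; linarith
    have hg : 0 < G (K + 6) * G (K + 5) := mul_pos g6 g5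
    have hk : 0 < (((K + 9 : ℕ) : ℝ) - 1) * (G (K + 6) * G (K + 5)) := mul_pos hF1 hg
    refine le_of_mul_le_mul_left ?_ hk
    have q1 : Y (K + 8) * d (K + 8) * P (K + 8) ≤ Y (K + 8) * P (K + 8) * (G (K + 7) * d (K + 7)) := by
      have := mul_le_mul_of_nonneg_left d7 (mul_nonneg hY0 hP8.le)
      calc Y (K + 8) * d (K + 8) * P (K + 8) = Y (K + 8) * P (K + 8) * d (K + 8) := by ring
        _ ≤ _ := this
    have q2 := mul_le_mul_of_nonneg_right hY2 n7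
    have q3 := mul_le_mul_of_nonneg_left hd7 hs.le
    have q4 := mul_le_mul_of_nonneg_left l3 hg.le
    have q5 : (G (K + 6) * G (K + 5) + s) * d (K + 7) ≤
        G (K + 6) * G (K + 5) * ((((K + 9 : ℕ) : ℝ) - 1) * E (K + 8)) := by
      nlinarith [q3, q4]
    calc (((K + 9 : ℕ) : ℝ) - 1) * (G (K + 6) * G (K + 5)) * (Y (K + 8) * d (K + 8) * P (K + 8))
        ≤ (((K + 9 : ℕ) : ℝ) - 1) * (G (K + 6) * G (K + 5)) *
            (Y (K + 8) * P (K + 8) * (G (K + 7) * d (K + 7))) :=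
          mul_le_mul_of_nonneg_left q1 hk.le
      _ = Y (K + 8) * (((K + 9 : ℕ) : ℝ) - 1) * P (K + 8) * G (K + 7) *
            (G (K + 6) * G (K + 5)) * d (K + 7) := by ring
      _ ≤ ((K + 9 : ℕ) : ℝ) * P (K + 9) * (G (K + 6) * G (K + 5) + s) * d (K + 7) := q2
      _ = ((K + 9 : ℕ) : ℝ) * P (K + 9) * ((G (K + 6) * G (K + 5) + s) * d (K + 7)) := by ring
      _ ≤ ((K + 9 : ℕ) : ℝ) * P (K + 9) *
            (G (K + 6) * G (K + 5) * ((((K + 9 : ℕ) : ℝ) - 1) * E (K + 8))) :=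
          mul_le_mul_of_nonneg_left q5 (mul_pos hF0 hP9).le
      _ = _ := by ring
  have hs0 : 0 ≤ cc n P (J + 1) * (E (J + 1) / P (J + 1) - E (J - 1) / P (J - 1)) := by
    refine mul_nonneg ?_ (sub_nonneg.mpr (up1 J le_rfl hJn))
    unfold cc
    have hP : 0 < P (J + 1 - 2) := h.P_pos _ (by omega)
    have hn' : ((J + 1 : ℕ) : ℝ) ≤ n := by exact_mod_cast hJn
    have : 0 ≤ (n : ℝ) + 2 - ((J + 1 : ℕ) : ℝ) := by linarith
    exact mul_nonneg (mul_nonneg (by norm_num) this) hP.le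
  have mid := mid_part h hG hMid hs0 up2 h0 h1
  intro j
  induction j using Nat.strong_induction_on with
  | _ j ih =>
    by_cases c1 : j ≤ K + 9
    · exact lo1 j c1
    by_cases c2 : j ≤ J + 1
    · exact mid j (by omega) c2
    by_cases c3 : j ≤ n
    · have u := up1 (j - 1) (by omega) (by omega)
      have e5 : j - 1 - 1 = j - 2 := by omega
      have e6 : j - 1 + 1 = j := by omega
      rw [e5, e6] at u
      have hE := ih (j - 2) (by omega)
      have hP2 : 0 < P (j - 2) := h.P_pos _ (by omega)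
      have hP : 0 < P j := h.P_pos _ c3
      have : 0 ≤ E j / P j := (div_nonneg hE hP2.le).trans u
      have h2 := mul_nonneg this hP.le
      rwa [div_mul_cancel₀ _ hP.ne'] at h2
    · rw [h.E_zero j (by omega)]

end Pool.Agent.Lib.MP_eeed5c_coC
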