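import Pool.Agent.Lib.MP_eeed5c_co_C.Defs

/-!
# The chain, lower part

PROOF. `Q_j := (j+1) E_{j+1} - d_j`. By `E_rec` (`i = j-2`) for `j ≥ 2`
`Q_j = -3(3j-n) E_j + 6(2n+3-3j) E_{j-1} + 6(n+2-j) E_{j-2}`. `Q_1 = 0` (`E_2 = d_1 = 0`), `Q_2 = 0`.
Claim for `3 ≤ j < F`: `Q_j ≥ r Q_{j-2} + s d_{j-2}` and `Q_j ≥ 0` (all `Q_i ≥ 0`, `1 ≤ i < F`, hence
`(i+1) E_{i+1} ≥ d_i ≥ 0`). Strong induction.
Case `3j ≤ n`: all three terms are `≥ 0`, so
`Q_j ≥ 6(2n+3-3j) E_{j-1} = 6(2n+3-3j)/(j-1) (Q_{j-2} + d_{j-2}) ≥ max r s (Q_{j-2} + d_{j-2})`.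
Case `n < 3j` (then `j ≥ 7` as `n ≥ 18`): put `E_j = (Q_{j-1} + d_{j-1})/j` with
`Q_{j-1} = -3(3j-3-n) E_{j-1} + 6(2n+6-3j) E_{j-2} + 6(n+3-j) E_{j-3}` into the first term:
`Q_j = [6(2n+3-3j) + 9(3j-n)(3j-3-n)/j] E_{j-1} + [6(n+2-j) - 18(3j-n)(2n+6-3j)/j] E_{j-2}
       - 18(3j-n)(n+3-j)/j E_{j-3} - (3(3j-n)/j) d_{j-1}`.
The bracket of `E_{j-2}` is `≥ 0` (first condition of `CF`, times `6/j`), and
`E_{j-1} = (Q_{j-2}+d_{j-2})/(j-1)`, `E_{j-3} = (Q_{j-4}+d_{j-4})/(j-3)`. With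
`a1 = [..]/(j-1)`, `a3 = 18(3j-n)(n+3-j)/(j(j-3))`:
`Q_j ≥ a1 (Q_{j-2} + d_{j-2}) - a3 (Q_{j-4} + d_{j-4}) - (3(3j-n)/j) d_{j-1}`.
`j-2 ≥ 5 ≥ 3`, so the claim for `j-2` gives `min r s (Q_{j-4} + d_{j-4}) ≤ r Q_{j-4} + s d_{j-4} ≤
Q_{j-2}`, and `d_{j-1} ≤ G_{j-2} d_{j-2}` (`j-2 ≥ 5`). So
`Q_j ≥ (a1 - a3/min r s) Q_{j-2} + (a1 - (3(3j-n)/j) G_{j-2}) d_{j-2} ≥ r Q_{j-2} + s d_{j-2}`.
(`n+3-j > 0`, `n+2-j > 0` as `j < F ≤ n`.) The conclusions: `(j+1) E_{j+1} = Q_j + d_j`, and for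
`j ≥ 3`, `Q_j ≥ s d_{j-2}`.
-/

set_option autoImplicit false

namespace Pool.Agent.Lib.MP_eeed5c_coC

/-- the numbers of the induction -/
private noncomputable def ChainF_Q (E d : ℕ → ℝ) (j : ℕ) : ℝ := ((j : ℝ) + 1) * E (j + 1) - d j

private theorem ChainF_E {n : ℕ} {P E d : ℕ → ℝ} (h : Sys n P E d) {j : ℕ}
    (hQ : ∀ i, i < j → 0 ≤ ChainF_Q E d i) : ∀ k, k ≤ j → 0 ≤ E k := by
  intro k hk
  rcases Nat.eq_zero_or_pos k with h0 | h0
  · rw [h0, h.E0]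
  · obtain ⟨i, rfl⟩ : ∃ i, k = i + 1 := ⟨k - 1, by omega⟩
    have h1 := hQ i (by omega)
    unfold ChainF_Q at h1
    have h2 := h.d_nn i
    have h3 : 0 ≤ ((i : ℝ) + 1) * E (i + 1) := by linarith
    have h4 : (0 : ℝ) < (i : ℝ) + 1 := by positivity
    exact nonneg_of_mul_nonneg_right h3 h4

private theorem ChainF_real {N x r s a1 a3 q g E5 E4 E3 E2 E1 d4 d3 d2 d0 : ℝ} (hx : 3 ≤ x)
    (hN : N < 3 * (x + 4)) (hxN : x + 4 < N) (hr : 0 < r) (hs : 0 < s)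
    (e1 : (x + 5) * E5 = d4 + 3 * (N - 3 * (x + 4)) * E4 + 6 * (2 * N - 3 * (x + 4) + 3) * E3 +
      6 * (N - (x + 4) + 2) * E2)
    (e2 : (x + 4) * E4 = d3 + 3 * (N - 3 * (x + 3)) * E3 + 6 * (2 * N - 3 * (x + 3) + 3) * E2 +
      6 * (N - (x + 3) + 2) * E1)
    (hE2 : 0 ≤ E2) (hQ2 : 0 ≤ (x + 3) * E3 - d2) (hd2 : 0 ≤ d2)
    (hQ0 : 0 ≤ (x + 1) * E1 - d0) (hd0 : 0 ≤ d0)
    (hih : r * ((x + 1) * E1 - d0) + s * d0 ≤ (x + 3) * E3 - d2)
    (hg : d3 ≤ g * d2)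
    (ha1 : a1 = (6 * (2 * N + 3 - 3 * (x + 4)) + 9 * (3 * (x + 4) - N) * (3 * (x + 4) - 3 - N) / (x + 4)) /
      ((x + 4) - 1))
    (ha3 : a3 = 18 * (3 * (x + 4) - N) * (N + 3 - (x + 4)) / ((x + 4) * ((x + 4) - 3)))
    (hq : q = 3 * (3 * (x + 4) - N) / (x + 4))
    (c1 : 3 * (3 * (x + 4) - N) * (2 * N + 6 - 3 * (x + 4)) ≤ (x + 4) * (N + 2 - (x + 4)))
    (c2 : r + a3 / min r s ≤ a1) (c3 : s + q * g ≤ a1) :
    r * ((x + 3) * E3 - d2) + s * d2 ≤ (x + 5) * E5 - d4 := by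
  have hx4 : (0 : ℝ) < x + 4 := by linarith
  have hx3 : (0 : ℝ) < x + 3 := by linarith
  have hx1 : (0 : ℝ) < x + 1 := by linarith
  have hq0 : 0 ≤ q := by
    rw [hq]
    apply div_nonneg _ hx4.le
    linarith
  have ha30 : 0 ≤ a3 := by
    rw [ha3]
    apply div_nonneg
    · apply mul_nonneg
      · linarith
      · linarith
    · apply mul_nonneg hx4.le
      linarith
  have hm : 0 < min r s := lt_min hr hs
  -- the exact formula
  have key : (x + 5) * E5 - d4 = a1 * ((x + 3) * E3) +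
      6 / (x + 4) * ((x + 4) * (N + 2 - (x + 4)) - 3 * (3 * (x + 4) - N) * (2 * N + 6 - 3 * (x + 4))) * E2 -
      a3 * ((x + 1) * E1) - q * d3 := by
    have h1 : E4 = (d3 + 3 * (N - 3 * (x + 3)) * E3 + 6 * (2 * N - 3 * (x + 3) + 3) * E2 +
      6 * (N - (x + 3) + 2) * E1) / (x + 4) := by
      rw [← e2]
      field_simp
    have h2 : (x + 4 - 1 : ℝ) = x + 3 := by ring
    have h3 : (x + 4 - 3 : ℝ) = x + 1 := by ring
    rw [e1, h1, ha1, ha3, hq, h2, h3]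
    field_simp
    ring
  have hB : 0 ≤ 6 / (x + 4) * ((x + 4) * (N + 2 - (x + 4)) -
      3 * (3 * (x + 4) - N) * (2 * N + 6 - 3 * (x + 4))) * E2 := by
    apply mul_nonneg _ hE2
    apply mul_nonneg (by positivity)
    linarith
  have h5 : min r s * ((x + 1) * E1) ≤ (x + 3) * E3 - d2 := by
    have h6 : min r s * ((x + 1) * E1 - d0) ≤ r * ((x + 1) * E1 - d0) :=
      mul_le_mul_of_nonneg_right (min_le_left r s) hQ0
    have h7 : min r s * d0 ≤ s * d0 := mul_le_mul_of_nonneg_right (min_le_right r s) hd0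
    have h8 : min r s * ((x + 1) * E1) = min r s * ((x + 1) * E1 - d0) + min r s * d0 := by ring
    linarith
  have h9 : a3 * ((x + 1) * E1) ≤ a3 / min r s * ((x + 3) * E3 - d2) := by
    have h10 := mul_le_mul_of_nonneg_left h5 (show 0 ≤ a3 / min r s by positivity)
    have h11 : a3 / min r s * (min r s * ((x + 1) * E1)) = a3 * ((x + 1) * E1) := by
      field_simp
    rw [h11] at h10
    exact h10
  have h12 : q * d3 ≤ q * g * d2 := by
    have := mul_le_mul_of_nonneg_left hg hq0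
    linarith
  have h13 : r * ((x + 3) * E3 - d2) + a3 / min r s * ((x + 3) * E3 - d2) ≤ a1 * ((x + 3) * E3 - d2) := by
    have := mul_le_mul_of_nonneg_right c2 hQ2
    linarith
  have h14 : s * d2 + q * g * d2 ≤ a1 * d2 := by
    have := mul_le_mul_of_nonneg_right c3 hd2
    linarith
  rw [key]
  have h15 : a1 * ((x + 3) * E3) = a1 * ((x + 3) * E3 - d2) + a1 * d2 := by ring
  linarith

private theorem ChainF_step {n F : ℕ} {P E d G : ℕ → ℝ} {r s : ℝ} (h : Sys n P E d) (hn : 18 ≤ n)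
    (hF : F ≤ n) (hr : 0 < r) (hs : 0 < s)
    (hG : ∀ j, 5 ≤ j → j ≤ n → 0 < G j ∧ d (j + 1) ≤ G j * d j)
    (hc : ∀ j, 3 ≤ j → j < F → CF n G r s j) {j : ℕ} (hj : j < F)
    (ih : ∀ i, i < j → 0 ≤ ChainF_Q E d i ∧
      (3 ≤ i → r * ChainF_Q E d (i - 2) + s * d (i - 2) ≤ ChainF_Q E d i)) :
    0 ≤ ChainF_Q E d j ∧ (3 ≤ j → r * ChainF_Q E d (j - 2) + s * d (j - 2) ≤ ChainF_Q E d j) := by
  have hE := ChainF_E h fun i hi => (ih i hi).1
  have main : 3 ≤ j → r * ChainF_Q E d (j - 2) + s * d (j - 2) ≤ ChainF_Q E d j := by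
    intro h3
    obtain ⟨c0, c1⟩ := hc j h3 hj
    have hjn : ((j : ℕ) : ℝ) < n := by exact_mod_cast lt_of_lt_of_le hj hF
    by_cases hcase : 3 * j ≤ n
    · obtain ⟨m, rfl⟩ : ∃ m, j = m + 2 := ⟨j - 2, by omega⟩
      have h4 : m + 2 - 2 = m := by omega
      rw [h4]
      have e := h.E_rec m
      have q0 := (ih m (by omega)).1
      have hd := h.d_nn m
      have hE2 := hE (m + 2) le_rfl
      have hE1 := hE (m + 1) (by omega)
      have hE0 := hE m (by omega)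
      have c2 := c0 hcase
      have hcr : 3 * ((m : ℝ) + 2) ≤ n := by exact_mod_cast hcase
      unfold ChainF_Q at q0 ⊢
      push_cast at c2 hjn ⊢
      have t1 : 0 ≤ 3 * ((n : ℝ) - 3 * m - 6) * E (m + 2) := by
        apply mul_nonneg _ hE2
        linarith
      have t3 : 0 ≤ 6 * ((n : ℝ) - m) * E m := by
        apply mul_nonneg _ hE0
        linarith
      have t2 : max r s * (((m : ℝ) + 1) * E (m + 1)) ≤ 6 * (2 * (n : ℝ) - 3 * m - 3) * E (m + 1) := by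
        have := mul_le_mul_of_nonneg_right c2 hE1
        nlinarith [this]
      have t4 : r * (((m : ℝ) + 1) * E (m + 1) - d m) ≤ max r s * (((m : ℝ) + 1) * E (m + 1) - d m) :=
        mul_le_mul_of_nonneg_right (le_max_left r s) q0
      have t5 : s * d m ≤ max r s * d m := mul_le_mul_of_nonneg_right (le_max_right r s) hd
      have t6 : max r s * (((m : ℝ) + 1) * E (m + 1)) =
        max r s * (((m : ℝ) + 1) * E (m + 1) - d m) + max r s * d m := by ring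
      have t7 : ((m : ℝ) + 2 + 1) * E (m + 2 + 1) = ((m : ℝ) + 3) * E (m + 3) := by
        rw [show m + 2 + 1 = m + 3 from rfl]
        ring
      rw [t7]
      linarith
    · obtain ⟨m, rfl⟩ : ∃ m, j = m + 4 := ⟨j - 4, by omega⟩
      have hm3 : 3 ≤ m := by omega
      have h4 : m + 4 - 2 = m + 2 := by omega
      obtain ⟨k1, k2, k3⟩ := c1 (by omega)
      rw [h4] at k3
      rw [h4]
      have e1 := h.E_rec (m + 2)
      have e2 := h.E_rec (m + 1)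
      have q2 := (ih (m + 2) (by omega)).1
      have q0 := (ih m (by omega)).1
      have hih := (ih (m + 2) (by omega)).2 (by omega)
      rw [show m + 2 - 2 = m from by omega] at hih
      have hg := (hG (m + 2) (by omega) (by omega)).2
      have hNx : (n : ℝ) < 3 * ((m : ℝ) + 4) := by
        have : n < 3 * (m + 4) := by omega
        exact_mod_cast this
      have hm3' : (3 : ℝ) ≤ m := by exact_mod_cast hm3
      unfold ChainF_Q at q0 q2 hih ⊢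
      push_cast at k1 k2 k3 e1 e2 q0 q2 hih hjn ⊢
      have g1 : m + 2 + 3 = m + 5 := rfl
      have g2 : m + 2 + 2 = m + 4 := rfl
      have g3 : m + 2 + 1 = m + 3 := rfl
      have g4 : m + 1 + 3 = m + 4 := rfl
      have g5 : m + 1 + 2 = m + 3 := rfl
      have g6 : m + 1 + 1 = m + 2 := rfl
      have g7 : m + 4 + 1 = m + 5 := rfl
      rw [g1, g2, g3] at e1
      rw [g4, g5, g6] at e2
      rw [g3] at q2 hih hg
      rw [g3, g7]
      have r1 : ((m : ℝ) + 2 + 1) = (m : ℝ) + 3 := by ring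
      have r2 : ((m : ℝ) + 4 + 1) = (m : ℝ) + 5 := by ring
      rw [r1] at q2 hih
      rw [r1, r2]
      refine ChainF_real (E4 := E (m + 4)) hm3' hNx hjn hr hs ?_ ?_ (hE (m + 2) (by omega)) q2 (h.d_nn (m + 2)) q0
        (h.d_nn m) hih hg rfl rfl rfl k1 k2 k3
      · linarith
      · linarith
  refine ⟨?_, main⟩
  by_cases h3 : 3 ≤ j
  · have h1 := (ih (j - 2) (by omega)).1
    have h2 := h.d_nn (j - 2)
    have h4 := main h3
    have h5 : 0 ≤ r * ChainF_Q E d (j - 2) := mul_nonneg hr.le h1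
    have h6 : 0 ≤ s * d (j - 2) := mul_nonneg hs.le h2
    linarith
  · have hj' : j = 0 ∨ j = 1 ∨ j = 2 := by omega
    rcases hj' with rfl | rfl | rfl
    · unfold ChainF_Q
      rw [Nat.zero_add, h.E1, h.d0]
      simp
    · unfold ChainF_Q
      rw [show (1 : ℕ) + 1 = 2 from rfl, h.E2, h.d1]
      simp
    · unfold ChainF_Q
      have e := h.E_rec 0
      simp only [Nat.cast_zero, Nat.zero_add, h.E2, h.E1, h.E0] at e
      rw [show (2 : ℕ) + 1 = 3 from rfl]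
      push_cast
      linarith

theorem low_part {n F : ℕ} {P E d G : ℕ → ℝ} {r s : ℝ} (h : Sys n P E d) (hn : 18 ≤ n)
    (hF : F ≤ n) (hr : 0 < r) (hs : 0 < s)
    (hG : ∀ j, 5 ≤ j → j ≤ n → 0 < G j ∧ d (j + 1) ≤ G j * d j)
    (hc : ∀ j, 3 ≤ j → j < F → CF n G r s j) :
    (∀ j, j ≤ F → 0 ≤ E j) ∧ (∀ j, j < F → d j ≤ ((j : ℝ) + 1) * E (j + 1)) ∧
      ∀ j, 3 ≤ j → j < F → d j + s * d (j - 2) ≤ ((j : ℝ) + 1) * E (j + 1) := by
  have all : ∀ j, j < F → 0 ≤ ChainF_Q E d j ∧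
      (3 ≤ j → r * ChainF_Q E d (j - 2) + s * d (j - 2) ≤ ChainF_Q E d j) := by
    intro j
    induction j using Nat.strong_induction_on with
    | _ j ih =>
      intro hj
      exact ChainF_step h hn hF hr hs hG hc hj fun i hi => ih i hi (by omega)
  refine ⟨ChainF_E h fun i hi => (all i hi).1, fun j hj => ?_, fun j h3 hj => ?_⟩
  · have h1 := (all j hj).1
    unfold ChainF_Q at h1
    linarith
  · have h1 := (all j hj).2 h3
    have h2 := (all (j - 2) (by omega)).1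
    have h4 : 0 ≤ r * ChainF_Q E d (j - 2) := mul_nonneg hr.le h2
    have h5 : ChainF_Q E d j = ((j : ℝ) + 1) * E (j + 1) - d j := rfl
    rw [h5] at h1
    linarith

end Pool.Agent.Lib.MP_eeed5c_coC
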