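import Pool.Agent.Lib.MP_eeed5c_co_C.GDef

/-!
# The numerical conditions, finite computation: definitions and the numbers of matchings

`gen` computes the numbers `P_j` exactly by the recursion and stores, for every level `j`, the
rounded down numbers `D * P_{j+1} / P_j`, `D * P_{j-1} / P_j`, `D * P_{j-2} / P_{j-1}` and an
upper bound of `D * G_j` (`D` is the scale). `uRun`, `mRun`, `lRun` go down from level `n` and compute the sequences
of `Up`, `Mid` (rounded in the safe direction) and check the inequalities.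
-/

set_option autoImplicit false

namespace Pool.Agent.Lib.MP_eeed5c_coC

/-- The data of one level. -/
structure Ent where
  /-- the level -/
  j : ℕ
  /-- `P_{j+1} / P_j` -/
  x : ℕ
  /-- `P_{j-1} / P_j` -/
  y : ℕ
  /-- `P_{j-2} / P_{j-1}` -/
  z : ℕ
  /-- `G_j` -/
  g : ℕ

/-- The state of the upper part. -/
structure USt where
  /-- `e` -/
  e : ℕ
  /-- `f` -/
  f : ℕ
  /-- `X` -/
  X : ℕ
  /-- `G` -/
  g : ℕ
  /-- the last bound -/
  xx : ℕ
  /-- all tests passed -/
  ok : Bool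

/-- The state of the middle part. -/
structure MSt where
  /-- `a` -/
  a : ℕ
  /-- `L` -/
  L : ℕ
  /-- `U` -/
  U : ℕ
  /-- the sum of the losses -/
  T : ℕ
  /-- all tests passed -/
  ok : Bool

/-- `P_{j+1}` from the three previous numbers. -/
def nextP (n j p0 p1 p2 : ℕ) : ℕ :=
  (3 * n * p2 + (12 * n + 18) * p1 + (6 * n + 12) * p0 - (9 * p2 + 18 * p1 + 6 * p0) * j) / (j + 1)

/-- The division was exact. -/
def okP (n j p0 p1 p2 p3 : ℕ) : Bool :=
  Nat.beq ((j + 1) * p3 + (9 * p2 + 18 * p1 + 6 * p0) * j)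
    (3 * n * p2 + (12 * n + 18) * p1 + (6 * n + 12) * p0)

/-- Upper bound of `G2`. -/
def g2 (D n j : ℕ) : ℕ :=
  D * (2 * n + 3 - 2 * j) * (6 * n - 4 * j - 1) / (2 * (2 * n - 7) * (j - 4)) + 1

/-- Upper bound of `Gt`. -/
def gt (D n j : ℕ) : ℕ :=
  D * 3 * (2 * n + 3 - 2 * j) / (2 * (j - 4)) + 1

/-- Upper bound of `GA`. -/
def ga (D n j : ℕ) (acc : List Ent) : ℕ :=
  bif Nat.ble (32 * n + 500) (100 * j) then
    bif Nat.ble (5 * j) (4 * n) then
      match acc with
      | b0 :: _ :: _ :: _ :: b4 :: _ => bif Nat.ble (j - 5) (33 * n / 50) then b4.x + 1 else b0.g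
      | _ => 0
    else gt D n j
  else g2 D n j

/-- The list of the data, from level `n` down to level `2`. -/
def gen (D : ℕ) (ka : Bool) (n : ℕ) : ℕ → ℕ → ℕ → ℕ → ℕ → List Ent → List Ent
  | 0, _, _, _, _, acc => acc
  | k + 1, j, p0, p1, p2, acc =>
    bif okP n j p0 p1 p2 (nextP n j p0 p1 p2) then
      gen D ka n k (j + 1) p1 p2 (nextP n j p0 p1 p2)
        (⟨j, D * nextP n j p0 p1 p2 / p2, D * p1 / p2, D * p0 / p1,
          bif ka then ga D n j acc else g2 D n j⟩ :: acc)
    else []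

/-- One step of the upper part. -/
def uStep (D n J : ℕ) (a : Ent) (s : USt) : USt :=
  let m := 3 * a.j - n
  let c1 := 6 * (n + 1 - a.j) * a.y
  let b := (a.j + 1) * a.x + 3 * m * D
  let b' := (a.j + 1) * (a.x + 1) + 3 * m * D
  let c := 6 * (n + 2 - a.j) * a.y * a.z / D
  let c' := 6 * (n + 2 - a.j) * (a.y + 1) * (a.z + 1) / D + 1
  let r := 4 * (a.j + 1) * (a.x + 1)
  let t := bif Nat.ble n a.j then 0 else
    c' * r * s.X * a.g * s.g / (54 * m * (n - a.j) * D ^ 4) + 1
  let e' := 3 * m * a.g * (D + s.f) / c1 + 1 - D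
  { e := e'
    f := 3 * m * a.g * s.e / c1 + 1
    X := bif Nat.ble n a.j then D else
      D + s.f + (r * s.X * s.g * (n + 1 - a.j) * (a.y + 1) / (9 * m * (n - a.j) * D ^ 3) + 1)
    g := a.g
    xx := D + (((b' - c) + (c' - b)) * (D + s.f) * a.g / (c1 * D) + 1) + t
    ok := Nat.ble (m * D ^ 2) (2 * (n + 2 - a.j) * a.y * a.z) &&
      ((Nat.ble a.j (J + 1) || Nat.ble (32 * a.j * (n + 2 - a.j) * (a.z + 1))
        ((m - 3) * (12 * (a.j + 1) * a.x + 9 * m * D))) &&
      (Nat.ble e' D && (Nat.ble r (9 * m * D) &&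
      Nat.ble (((b' - c) * (D + s.f) + (c' - b) * s.e) * a.g / (c1 * D) + 1 + t) D))) }

/-- One step of the middle part. -/
def mStep (D n : ℕ) (a : Ent) (s : MSt) : MSt :=
  let m := 3 * a.j - n
  let b := (a.j + 1) * a.x + 3 * m * D
  let v := min (s.a * (6 * (n + 1 - a.j)) * (a.y + 1) / D + 1) ((a.j + 1) * (a.x + 1))
  { a := a.j * D ^ 2 / (b - v) + 1
    L := s.a * a.g * s.U / D ^ 2 + 1 - D
    U := D + (s.a * a.g * s.L / D ^ 2 + 1)
    T := (a.g * (s.L * s.a + s.T * D) + a.x * D - 1) / (a.x * D)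
    ok := Nat.ble (2 * (n + 2 - a.j) * (a.y + 1) * (a.z + 1)) (m * D ^ 2) &&
      (Nat.ble (v + 1) b && Nat.ble 1 a.x) }

/-- The test of the lower part at one level, `g` is the bound of `G` two levels below. -/
def lOne (D n j g : ℕ) : Bool :=
  let m := 3 * j - n
  let w := 6 * j * (2 * n + 3 - 3 * j) + 9 * m * (m - 3)
  Nat.ble (3 * j) (2 * n) && (Nat.ble (3 * m * (2 * n + 6 - 3 * j)) (j * (n + 2 - j)) &&
  (Nat.ble (4 * j * (j - 1) * (j - 3) + 18 * m * (n + 3 - j) * (j - 1)) (2 * (j - 3) * w) &&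
  Nat.ble (2 * j * (j - 1) * D + 3 * m * (j - 1) * g) (w * D)))

/-- The test of the lower part, the bound of `G` is taken from the list. -/
def lGet (D n j : ℕ) : List Ent → Bool
  | _ :: c :: _ => lOne D n j c.g
  | _ => false

/-- The lower part. -/
def lRun (D n : ℕ) : List Ent → Bool
  | a :: l => bif Nat.ble (3 * a.j) n then true else lGet D n a.j l && lRun D n l
  | [] => false

/-- The tests at the level between the lower and the middle part. -/
def lTest (D n : ℕ) (l : List Ent) (s : MSt) : Bool :=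
  match l with
  | a :: b :: c :: l' =>
    Nat.ble 1 a.x && (Nat.ble (((mStep D n a s).T) * b.g) (D ^ 2) &&
      (Nat.ble ((mStep D n a s).T * b.g * (a.j - 1) * (a.y + 1) * c.g) (a.j * D ^ 4) &&
        lRun D n (b :: c :: l')))
  | _ => false

/-- The middle part. -/
def mRun (D n F : ℕ) : List Ent → MSt → Bool
  | a :: l, s => bif Nat.ble a.j F then Nat.beq a.j F && lTest D n (a :: l) s else
      (mStep D n a s).ok && mRun D n F l (mStep D n a s)
  | [], _ => false

/-- The initial state of the middle part. -/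
def mInit (D n J : ℕ) (a : Ent) (xx : ℕ) : MSt :=
  ⟨(J + 1) * (a.x + 1) * D / (6 * (n + 1 - J) * a.y) + 1, 0, xx, 0, true⟩

/-- The upper part, followed by the other parts. -/
def uRun (D n J F : ℕ) : List Ent → USt → Bool
  | a :: l, s => bif Nat.ble a.j J then
        Nat.beq a.j J && (Nat.ble 1 a.y && mRun D n F (a :: l) (mInit D n J a s.xx)) else
      (uStep D n J a s).ok && uRun D n J F l (uStep D n J a s)
  | [], _ => false

/-- The whole check for one `q`. -/
def check (D : ℕ) (ka : Bool) (q J F : ℕ) : Bool :=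
  (Nat.ble 9 F && (Nat.ble F J && (Nat.ble (J + 1) (3 * q) && (Nat.ble (3 * q + 1) (3 * F) &&
    Nat.ble (3 * q) (2 * J))))) &&
  uRun D (3 * q) J F
    (gen D ka (3 * q) (3 * q - 1) 2 1 (9 * q) ((9 * (3 * q) ^ 2 - 15 * (3 * q)) / 2) [])
    ⟨0, 0, 0, 0, 0, true⟩

/-- The check for consecutive values of `q`. -/
def checks (D : ℕ) (ka : Bool) : ℕ → List (ℕ × ℕ) → Bool
  | _, [] => true
  | q, p :: l => check D ka q p.1 p.2 && checks D ka (q + 1) l

end Pool.Agent.Lib.MP_eeed5c_coC
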