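import Pool.Agent.Lib.MP_eeed5c_co_C.CkA

/-!
# The finite computation: the stored numbers are correct
-/

set_option autoImplicit false

namespace Pool.Agent.Lib.MP_eeed5c_coC

/-- The data of a level are correct. -/
structure Val (D n : ℕ) (P G : ℕ → ℝ) (a : Ent) : Prop where
  h2 : 2 ≤ a.j
  hn : a.j ≤ n
  x1 : (a.x : ℝ) * P a.j ≤ D * P (a.j + 1)
  x2 : D * P (a.j + 1) ≤ ((a.x : ℝ) + 1) * P a.j
  y1 : (a.y : ℝ) * P a.j ≤ D * P (a.j - 1)
  y2 : D * P (a.j - 1) ≤ ((a.y : ℝ) + 1) * P a.j
  z1 : (a.z : ℝ) * P (a.j - 1) ≤ D * P (a.j - 2)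
  z2 : D * P (a.j - 2) ≤ ((a.z : ℝ) + 1) * P (a.j - 1)
  g0 : 5 ≤ a.j → 0 ≤ G a.j
  g1 : 5 ≤ a.j → D * G a.j ≤ a.g

/-- A list of the data of consecutive levels, going down. -/
def Al (V : Ent → Prop) : ℕ → List Ent → Prop
  | _, [] => True
  | j, a :: l => a.j = j ∧ V a ∧ Al V (j - 1) l

theorem fl1 (A B : ℕ) : ((A / B : ℕ) : ℝ) * B ≤ A := by
  exact_mod_cast Nat.div_mul_le_self A B

theorem fl2 (A B : ℕ) (hB : 0 < B) : (A : ℝ) ≤ (((A / B : ℕ) : ℝ) + 1) * B := by
  have h := (Nat.lt_mul_div_succ A hB).le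
  rw [Nat.mul_comm] at h
  exact_mod_cast h

theorem fl3 (A B : ℕ) (hB : 0 < B) (r : ℝ) (h : r * B ≤ A) : r ≤ ((A / B + 1 : ℕ) : ℝ) := by
  have h1 := fl2 A B hB
  have hB' : (0 : ℝ) < B := by exact_mod_cast hB
  push_cast
  by_contra hc
  push Not at hc
  nlinarith

theorem ble_f {a b : ℕ} (h : b < a) : Nat.ble a b = false := by
  rw [Bool.eq_false_iff]
  intro h'
  exact absurd (Nat.le_of_ble_eq_true h') (by omega)

theorem G2_le {D n j : ℕ} (hn : 18 ≤ n) (h5 : 5 ≤ j) (hj : j ≤ n) :
    0 ≤ G2 n j ∧ D * G2 n j ≤ g2 D n j := by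
  obtain ⟨i, rfl⟩ := Nat.exists_eq_add_of_le h5
  obtain ⟨k, rfl⟩ := Nat.exists_eq_add_of_le hj
  have e1 : 2 * (5 + i + k) + 3 - 2 * (5 + i) = 2 * k + 3 := by omega
  have e2 : 6 * (5 + i + k) - 4 * (5 + i) - 1 = 2 * i + 6 * k + 9 := by omega
  have e3 : 2 * (5 + i + k) - 7 = 2 * i + 2 * k + 3 := by omega
  have e4 : 5 + i - 4 = i + 1 := by omega
  have hG : G2 (5 + i + k) (5 + i) = (2 * (k : ℝ) + 3) * (2 * i + 6 * k + 9) /
      (2 * (2 * i + 2 * k + 3) * (i + 1)) := by
    unfold G2
    push_cast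
    congr 1
    · ring
    · ring
  have hp : (0 : ℝ) < 2 * (2 * i + 2 * k + 3) * (i + 1) := by positivity
  refine ⟨?_, ?_⟩
  · rw [hG]
    positivity
  · unfold g2
    rw [e1, e2, e3, e4]
    refine fl3 _ _ (by positivity) _ ?_
    rw [hG]
    push_cast
    rw [mul_assoc, div_mul_cancel₀ _ hp.ne']
    exact le_of_eq (by ring)

theorem Gt_le {D n j : ℕ} (h5 : 5 ≤ j) (hj : j ≤ n) :
    0 ≤ Gt n j ∧ D * Gt n j ≤ gt D n j := by
  obtain ⟨i, rfl⟩ := Nat.exists_eq_add_of_le h5
  obtain ⟨k, rfl⟩ := Nat.exists_eq_add_of_le hj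
  have e1 : 2 * (5 + i + k) + 3 - 2 * (5 + i) = 2 * k + 3 := by omega
  have e4 : 5 + i - 4 = i + 1 := by omega
  have hG : Gt (5 + i + k) (5 + i) = 3 * (2 * (k : ℝ) + 3) / (2 * (i + 1)) := by
    unfold Gt
    push_cast
    congr 1
    · ring
    · ring
  have hp : (0 : ℝ) < 2 * ((i : ℝ) + 1) := by positivity
  refine ⟨?_, ?_⟩
  · rw [hG]
    positivity
  · unfold gt
    rw [e1, e4]
    refine fl3 _ _ (by positivity) _ ?_
    rw [hG]
    push_cast
    rw [mul_assoc, div_mul_cancel₀ _ hp.ne']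
    exact le_of_eq (by ring)

theorem ga_le {D n j : ℕ} {P : ℕ → ℝ} (hP : ∀ j, j ≤ n → 0 < P j) (hn : 600 ≤ n)
    (acc : List Ent) (hacc : Al (Val D n P (GA n P)) (j - 1) acc) (hlen : acc.length + 2 = j)
    (h5 : 5 ≤ j) (hj : j ≤ n) : 0 ≤ GA n P j ∧ D * GA n P j ≤ ga D n j acc := by
  unfold ga
  by_cases h1 : 32 * n + 500 ≤ 100 * j
  · have h1' : ¬ (100 * j < 32 * n + 500) := by omega
    rw [Nat.ble_eq_true_of_le h1]
    by_cases h2 : 5 * j ≤ 4 * n
    · rw [Nat.ble_eq_true_of_le h2]
      simp only [cond_true]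
      match acc, hacc, hlen with
      | [], _, hlen => simp only [List.length_nil] at hlen; omega
      | [_], _, hlen => simp only [List.length_cons, List.length_nil] at hlen; omega
      | [_, _], _, hlen => simp only [List.length_cons, List.length_nil] at hlen; omega
      | [_, _, _], _, hlen => simp only [List.length_cons, List.length_nil] at hlen; omega
      | [_, _, _, _], _, hlen => simp only [List.length_cons, List.length_nil] at hlen; omega
      | b0 :: b1 :: b2 :: b3 :: b4 :: l, hacc, hlen =>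
        obtain ⟨e0, v0, e1, -, e2, -, e3, -, e4, v4, -⟩ := hacc
        have hGA : GA n P j = P (min (j - 5) (33 * n / 50) + 1) / P (min (j - 5) (33 * n / 50)) := by
          unfold GA
          rw [if_neg h1', if_pos h2]
        have hpos : 0 < P (min (j - 5) (33 * n / 50)) := hP _ (by omega)
        have hpos' : 0 < P (min (j - 5) (33 * n / 50) + 1) := hP _ (by omega)
        refine ⟨?_, ?_⟩
        · rw [hGA]
          positivity
        · by_cases h3 : j - 5 ≤ 33 * n / 50
          · rw [Nat.ble_eq_true_of_le h3]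
            simp only [cond_true]
            rw [hGA, min_eq_left h3]
            rw [min_eq_left h3] at hpos
            have h4 : b4.j = j - 5 := by omega
            have h5' := v4.x2
            rw [h4] at h5'
            push_cast
            rw [← mul_div_assoc, div_le_iff₀ hpos]
            exact h5'
          · have h3' : Nat.ble (j - 5) (33 * n / 50) = false := by
              exact ble_f (by omega)
            rw [h3']
            simp only [cond_false]
            have h4 := v0.g1 (by omega)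
            have h6 : GA n P b0.j = GA n P j := by
              rw [hGA, e0]
              unfold GA
              rw [if_neg (by omega), if_pos (by omega), min_eq_right (by omega),
                min_eq_right (by omega)]
            rw [h6] at h4
            exact h4
    · have h2' : Nat.ble (5 * j) (4 * n) = false := by
        exact ble_f (by omega)
      rw [h2']
      simp only [cond_true, cond_false]
      have h3 : GA n P j = Gt n j := by
        unfold GA
        rw [if_neg h1', if_neg h2]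
      rw [h3]
      exact Gt_le h5 hj
  · have h1' : Nat.ble (32 * n + 500) (100 * j) = false := by
      exact ble_f (by omega)
    rw [h1']
    simp only [cond_false]
    have h3 : GA n P j = G2 n j := by
      unfold GA
      rw [if_pos (by omega)]
    rw [h3]
    exact G2_le (by omega) h5 hj

theorem gen_al (ka : Bool) {D n : ℕ} {P E d G : ℕ → ℝ} (h : Sys n P E d)
    (hg : ∀ (j : ℕ) (acc : List Ent), Al (Val D n P G) (j - 1) acc → acc.length + 2 = j → 5 ≤ j →
      j ≤ n → 0 ≤ G j ∧ D * G j ≤ ((bif ka then ga D n j acc else g2 D n j : ℕ) : ℝ)) :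
    ∀ (k j p0 p1 p2 : ℕ) (acc : List Ent), 2 ≤ j → j + k = n + 1 → P (j - 2) = p0 →
      P (j - 1) = p1 → P j = p2 → Al (Val D n P G) (j - 1) acc → acc.length + 2 = j →
      Al (Val D n P G) n (gen D ka n k j p0 p1 p2 acc) := by
  intro k
  induction k with
  | zero =>
    intro j p0 p1 p2 acc _ hjk _ _ _ hacc _
    have hj : j - 1 = n := by omega
    rw [hj] at hacc
    exact hacc
  | succ k ih =>
    intro j p0 p1 p2 acc h2 hjk hp0 hp1 hp2 hacc hlen
    obtain ⟨i, rfl⟩ := Nat.exists_eq_add_of_le' h2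
    have e1 : i + 2 - 2 = i := by omega
    have e2 : i + 2 - 1 = i + 1 := by omega
    rw [e1] at hp0
    rw [e2] at hp1
    change Al (Val D n P G) n (bif okP n (i + 2) p0 p1 p2 (nextP n (i + 2) p0 p1 p2) then _ else [])
    by_cases hok : okP n (i + 2) p0 p1 p2 (nextP n (i + 2) p0 p1 p2) = true
    · rw [hok]
      simp only [cond_true]
      have h3 : P (i + 3) = nextP n (i + 2) p0 p1 p2 := by
        unfold okP at hok
        have h4 := Nat.eq_of_beq_eq_true hok
        have h5 : (((i + 2 + 1) * nextP n (i + 2) p0 p1 p2 + (9 * p2 + 18 * p1 + 6 * p0) * (i + 2) :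
            ℕ) : ℝ) = ((3 * n * p2 + (12 * n + 18) * p1 + (6 * n + 12) * p0 : ℕ) : ℝ) := by
          rw [h4]
        push_cast at h5
        have h6 := h.P_rec i
        rw [hp0, hp1, hp2] at h6
        have h7 : ((i : ℝ) + 3) * P (i + 3) = ((i : ℝ) + 3) * nextP n (i + 2) p0 p1 p2 := by
          rw [h6]
          linarith
        exact mul_left_cancel₀ (by positivity) h7
      have q0 : 0 < P i := h.P_pos i (by omega)
      have q1 : 0 < P (i + 1) := h.P_pos (i + 1) (by omega)
      have q2 : 0 < P (i + 2) := h.P_pos (i + 2) (by omega)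
      have r1 : 0 < p1 := by
        rw [hp1] at q1
        exact_mod_cast q1
      have r2 : 0 < p2 := by
        rw [hp2] at q2
        exact_mod_cast q2
      refine ih (i + 2 + 1) p1 p2 _ _ (by omega) (by omega) ?_ ?_ ?_ ⟨?_, ?_, ?_⟩ ?_
      · have e3 : i + 2 + 1 - 2 = i + 1 := by omega
        rw [e3, hp1]
      · have e3 : i + 2 + 1 - 1 = i + 2 := by omega
        rw [e3, hp2]
      · exact h3
      · change i + 2 = i + 2 + 1 - 1
        omega
      · have hf1 := fl1 (D * nextP n (i + 2) p0 p1 p2) p2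
        have hf2 := fl2 (D * nextP n (i + 2) p0 p1 p2) p2 r2
        have hf3 := fl1 (D * p1) p2
        have hf4 := fl2 (D * p1) p2 r2
        have hf5 := fl1 (D * p0) p1
        have hf6 := fl2 (D * p0) p1 r1
        push_cast at hf1 hf2 hf3 hf4 hf5 hf6
        exact
          { h2 := by
              change 2 ≤ i + 2
              omega
            hn := by
              change i + 2 ≤ n
              omega
            x1 := by
              change ((D * nextP n (i + 2) p0 p1 p2 / p2 : ℕ) : ℝ) * P (i + 2) ≤ D * P (i + 3)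
              rw [hp2, h3]
              exact hf1
            x2 := by
              change D * P (i + 3) ≤ (((D * nextP n (i + 2) p0 p1 p2 / p2 : ℕ) : ℝ) + 1) * P (i + 2)
              rw [hp2, h3]
              exact hf2
            y1 := by
              change ((D * p1 / p2 : ℕ) : ℝ) * P (i + 2) ≤ D * P (i + 1)
              rw [hp2, hp1]
              exact hf3
            y2 := by
              change D * P (i + 1) ≤ (((D * p1 / p2 : ℕ) : ℝ) + 1) * P (i + 2)
              rw [hp2, hp1]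
              exact hf4
            z1 := by
              change ((D * p0 / p1 : ℕ) : ℝ) * P (i + 1) ≤ D * P i
              rw [hp1, hp0]
              exact hf5
            z2 := by
              change D * P i ≤ (((D * p0 / p1 : ℕ) : ℝ) + 1) * P (i + 1)
              rw [hp1, hp0]
              exact hf6
            g0 := fun h5 => (hg (i + 2) acc hacc hlen h5 (by omega)).1
            g1 := fun h5 => (hg (i + 2) acc hacc hlen h5 (by omega)).2 }
      · have e3 : i + 2 + 1 - 1 - 1 = i + 2 - 1 := by omega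
        rw [e3]
        exact hacc
      · rw [List.length_cons]
        omega
    · rw [Bool.not_eq_true] at hok
      rw [hok]
      exact trivial

/-- The list of the data is correct. -/
theorem gen_a {D q : ℕ} {P E d : ℕ → ℝ} (h : Sys (3 * q) P E d) (hq : 25 ≤ q) :
    Al (Val D (3 * q) P (G2 (3 * q))) (3 * q) (gen D false (3 * q) (3 * q - 1) 2 1 (9 * q)
      ((9 * (3 * q) ^ 2 - 15 * (3 * q)) / 2) []) := by
  have h3 : 2 * ((9 * (3 * q) ^ 2 - 15 * (3 * q)) / 2) + 15 * (3 * q) = 9 * (3 * q) ^ 2 := by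
    have h4 : (9 * (3 * q) ^ 2 - 15 * (3 * q)) % 2 = 0 := by
      have h5 : 9 * (3 * q) ^ 2 - 15 * (3 * q) = 9 * q * (9 * q - 5) := by
        obtain ⟨p, rfl⟩ := Nat.exists_eq_add_of_le hq
        have e1 : 9 * (25 + p) - 5 = 9 * p + 220 := by omega
        rw [e1]
        apply Nat.sub_eq_of_eq_add
        ring
      rw [h5]
      rcases Nat.even_or_odd q with ⟨p, hp⟩ | ⟨p, hp⟩
      · rw [hp, Nat.mul_mod]
        have e1 : 9 * (p + p) % 2 = 0 := by omega
        rw [e1]
        simp
      · rw [hp, Nat.mul_mod]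
        have e1 : (9 * (2 * p + 1) - 5) % 2 = 0 := by omega
        rw [e1]
        simp
    have h6 : 15 * (3 * q) ≤ 9 * (3 * q) ^ 2 := by nlinarith
    omega
  have h5 : (2 * ((9 * (3 * q) ^ 2 - 15 * (3 * q)) / 2 : ℕ) + 15 * (3 * q) : ℝ) = 9 * (3 * q) ^ 2 := by
    exact_mod_cast h3
  refine gen_al false h ?_ _ _ _ _ _ _ le_rfl (by omega) ?_ ?_ ?_ trivial rfl
  · intro j acc _ _ h5 hj
    exact G2_le (by omega) h5 hj
  · rw [h.P0]
    norm_num
  · change P 1 = _
    rw [h.P1]
    push_cast
    ring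
  · rw [h.P2]
    push_cast at h5 ⊢
    linarith

/-- The list of the data is correct. -/
theorem gen_b {D q : ℕ} {P E d : ℕ → ℝ} (h : Sys (3 * q) P E d) (hq : 200 ≤ q) :
    Al (Val D (3 * q) P (GA (3 * q) P)) (3 * q) (gen D true (3 * q) (3 * q - 1) 2 1 (9 * q)
      ((9 * (3 * q) ^ 2 - 15 * (3 * q)) / 2) []) := by
  have h3 : 2 * ((9 * (3 * q) ^ 2 - 15 * (3 * q)) / 2) + 15 * (3 * q) = 9 * (3 * q) ^ 2 := by
    have h4 : (9 * (3 * q) ^ 2 - 15 * (3 * q)) % 2 = 0 := by
      have h5 : 9 * (3 * q) ^ 2 - 15 * (3 * q) = 9 * q * (9 * q - 5) := by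
        obtain ⟨p, rfl⟩ := Nat.exists_eq_add_of_le hq
        have e1 : 9 * (200 + p) - 5 = 9 * p + 1795 := by omega
        rw [e1]
        apply Nat.sub_eq_of_eq_add
        ring
      rw [h5]
      rcases Nat.even_or_odd q with ⟨p, hp⟩ | ⟨p, hp⟩
      · rw [hp, Nat.mul_mod]
        have e1 : 9 * (p + p) % 2 = 0 := by omega
        rw [e1]
        simp
      · rw [hp, Nat.mul_mod]
        have e1 : (9 * (2 * p + 1) - 5) % 2 = 0 := by omega
        rw [e1]
        simp
    have h6 : 15 * (3 * q) ≤ 9 * (3 * q) ^ 2 := by nlinarith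
    omega
  have h5 : (2 * ((9 * (3 * q) ^ 2 - 15 * (3 * q)) / 2 : ℕ) + 15 * (3 * q) : ℝ) = 9 * (3 * q) ^ 2 := by
    exact_mod_cast h3
  refine gen_al true h ?_ _ _ _ _ _ _ le_rfl (by omega) ?_ ?_ ?_ trivial rfl
  · intro j acc hacc hlen h5 hj
    exact ga_le h.P_pos (by omega) acc hacc hlen h5 hj
  · rw [h.P0]
    norm_num
  · change P 1 = _
    rw [h.P1]
    push_cast
    ring
  · rw [h.P2]
    push_cast at h5 ⊢
    linarith

end Pool.Agent.Lib.MP_eeed5c_coC
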