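import Pool.Agent.Lib.MP_eeed5c_co_C.CkB

/-!
# The finite computation: the upper part
-/

set_option autoImplicit false

namespace Pool.Agent.Lib.MP_eeed5c_coC

section real

variable {D B C C1 G G1 f1 e1 b b' c c' c1 ag sg sf se sX t u v x y z ax ay az : ℝ}

theorem real_s (hD : 0 < D) (hb : b ≤ D * B) (hb' : D * B ≤ b') (hc : c ≤ D * C)
    (hc' : D * C ≤ c') (hc1 : 0 < c1) (hC1 : c1 ≤ D * C1) (hG0 : 0 ≤ G) (hG : D * G ≤ ag)
    (hf : D * f1 = sf) (he : D * e1 = se) (hf0 : 0 ≤ f1) (he0 : 0 ≤ e1) (hu : b' - c ≤ u)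
    (hu0 : 0 ≤ u) (hv : c' - b ≤ v) (hv0 : 0 ≤ v) (ht : t ≤ D)
    (hT : (u * (D + sf) + v * se) * ag ≤ (D - t) * (c1 * D)) :
    max (B - C) 0 * G * (1 + f1) / C1 + max (C - B) 0 * G * e1 / C1 ≤ 1 - t / D := by
  have hC1p : 0 < C1 := by
    by_contra hneg
    push Not at hneg
    have : D * C1 ≤ 0 := mul_nonpos_of_nonneg_of_nonpos hD.le hneg
    linarith
  have h1 : D * max (B - C) 0 ≤ u := by
    rw [mul_max_of_nonneg _ _ hD.le, mul_zero]
    exact max_le (by linarith) hu0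
  have h2 : D * max (C - B) 0 ≤ v := by
    rw [mul_max_of_nonneg _ _ hD.le, mul_zero]
    exact max_le (by linarith) hv0
  have h3 : max (B - C) 0 * G * (1 + f1) / C1 + max (C - B) 0 * G * e1 / C1 =
      (max (B - C) 0 * (1 + f1) + max (C - B) 0 * e1) * G / C1 := by ring
  rw [h3, div_le_iff₀ hC1p]
  have h4 : D ^ 2 * (max (B - C) 0 * (1 + f1) + max (C - B) 0 * e1) ≤ u * (D + sf) + v * se := by
    have h5 : D ^ 2 * (max (B - C) 0 * (1 + f1) + max (C - B) 0 * e1) =
        (D * max (B - C) 0) * (D + D * f1) + (D * max (C - B) 0) * (D * e1) := by ring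
    rw [h5, hf, he]
    have h6 : 0 ≤ D + sf := by
      rw [← hf]
      positivity
    have h7 : 0 ≤ se := by
      rw [← he]
      positivity
    exact add_le_add (mul_le_mul_of_nonneg_right h1 h6) (mul_le_mul_of_nonneg_right h2 h7)
  have h5 : 0 ≤ max (B - C) 0 * (1 + f1) + max (C - B) 0 * e1 := by positivity
  have hag : 0 ≤ ag := le_trans (by positivity) hG
  have h6 : (D ^ 2 * (max (B - C) 0 * (1 + f1) + max (C - B) 0 * e1)) * (D * G) ≤
      (D - t) * (c1 * D) := by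
    refine le_trans ?_ hT
    exact mul_le_mul h4 hG (by positivity) (le_trans (by positivity) h4)
  have h7 : (D - t) * (c1 * D) ≤ (D - t) * ((D * C1) * D) := by
    refine mul_le_mul_of_nonneg_left ?_ (by linarith)
    exact mul_le_mul_of_nonneg_right hC1 hD.le
  have h8 : D ^ 3 * ((max (B - C) 0 * (1 + f1) + max (C - B) 0 * e1) * G) ≤
      D ^ 3 * ((1 - t / D) * C1) := by
    have h9 : D ^ 3 * ((1 - t / D) * C1) = (D - t) * ((D * C1) * D) := by
      field_simp
    rw [h9]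
    refine le_trans (le_of_eq ?_) (le_trans h6 h7)
    ring
  exact le_of_mul_le_mul_left h8 (by positivity)

theorem real_x {xx : ℝ} (hD : 0 < D) (hb : b ≤ D * B) (hb' : D * B ≤ b') (hc : c ≤ D * C)
    (hc' : D * C ≤ c') (hc1 : 0 < c1) (hC1 : c1 ≤ D * C1) (hG0 : 0 ≤ G) (hG : D * G ≤ ag)
    (hf : D * f1 = sf) (hf0 : 0 ≤ f1) (hu : b' - c ≤ u)
    (hu0 : 0 ≤ u) (hv : c' - b ≤ v) (hv0 : 0 ≤ v)
    (hT : (u + v) * (D + sf) * ag ≤ xx * (c1 * D)) (hxx : 0 ≤ xx) :
    |B - C| * G * (1 + f1) / C1 ≤ xx / D := by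
  have hC1p : 0 < C1 := by
    by_contra hneg
    push Not at hneg
    have : D * C1 ≤ 0 := mul_nonpos_of_nonneg_of_nonpos hD.le hneg
    linarith
  have h1 : D * |B - C| ≤ u + v := by
    rcases abs_cases (B - C) with ⟨h, _⟩ | ⟨h, _⟩
    · rw [h]
      nlinarith
    · rw [h]
      nlinarith
  rw [div_le_iff₀ hC1p]
  have hag : 0 ≤ ag := le_trans (by positivity) hG
  have hsf : 0 ≤ D + sf := by
    rw [← hf]
    positivity
  have h6 : (D * |B - C|) * (D + sf) * (D * G) ≤ xx * (c1 * D) := by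
    refine le_trans ?_ hT
    exact mul_le_mul (mul_le_mul_of_nonneg_right h1 hsf) hG (by positivity)
      (mul_nonneg (by linarith) hsf)
  have h7 : xx * (c1 * D) ≤ xx * ((D * C1) * D) := by
    refine mul_le_mul_of_nonneg_left ?_ hxx
    exact mul_le_mul_of_nonneg_right hC1 hD.le
  have h8 : D ^ 3 * (|B - C| * G * (1 + f1)) ≤ D ^ 3 * (xx / D * C1) := by
    have h9 : D ^ 3 * (xx / D * C1) = xx * ((D * C1) * D) := by
      field_simp
    rw [h9]
    refine le_trans (le_of_eq ?_) (le_trans h6 h7)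
    rw [← hf]
    ring
  exact le_of_mul_le_mul_left h8 (by positivity)

theorem real_t {m N0 J1 r : ℝ} (hD : 0 < D) (hm : 0 < m) (hN0 : 0 < N0) (hJ1 : 0 ≤ J1)
    (hC0 : 0 ≤ C) (hc' : D * C ≤ c') (hx0 : 0 ≤ x) (hr : 4 * J1 * (D * x) ≤ r)
    (hX : 0 ≤ sX) (hG0 : 0 ≤ G) (hG : D * G ≤ ag) (hG10 : 0 ≤ G1) (hG1 : D * G1 ≤ sg)
    (ht : c' * r * sX * ag * sg ≤ t * (54 * m * N0 * D ^ 4)) :
    C * ((4 / 9) * J1 * x / m) * (sX / D) * G * G1 / (6 * N0) ≤ t / D := by
  have hr0 : 0 ≤ r := le_trans (by positivity) hr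
  have hc0 : 0 ≤ c' := le_trans (by positivity) hc'
  have hag : 0 ≤ ag := le_trans (by positivity) hG
  have hsg : 0 ≤ sg := le_trans (by positivity) hG1
  have h1 : (D * C) * (4 * J1 * (D * x)) * sX * (D * G) * (D * G1) ≤ t * (54 * m * N0 * D ^ 4) := by
    refine le_trans ?_ ht
    gcongr
  rw [div_le_div_iff₀ (by positivity) hD]
  have h2 : (C * ((4 / 9) * J1 * x / m) * (sX / D) * G * G1 * D) * (9 * m * D ^ 4) ≤
      t * (6 * N0) * (9 * m * D ^ 4) := by
    have h3 : (C * ((4 / 9) * J1 * x / m) * (sX / D) * G * G1 * D) * (9 * m * D ^ 4) =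
        (D * C) * (4 * J1 * (D * x)) * sX * (D * G) * (D * G1) := by
      field_simp
    rw [h3]
    refine le_trans h1 (le_of_eq ?_)
    ring
  exact le_of_mul_le_mul_right h2 (by positivity)

theorem real_X {m N0 N1 J1 r : ℝ} (hD : 0 < D) (hm : 0 < m) (hN0 : 0 < N0) (hN1 : 0 ≤ N1)
    (hJ1 : 0 ≤ J1) (hx0 : 0 ≤ x) (hr : 4 * J1 * (D * x) ≤ r)
    (hX : 0 ≤ sX) (hG10 : 0 ≤ G1) (hG1 : D * G1 ≤ sg) (hy0 : 0 ≤ y) (hy : D * y ≤ ay)
    (ht : r * sX * sg * N1 * ay ≤ t * (9 * m * N0 * D ^ 3)) :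
    (4 / 9) * J1 * x / m * (sX / D) * G1 * (N1 * y) / N0 ≤ t / D := by
  have hr0 : 0 ≤ r := le_trans (by positivity) hr
  have hay : 0 ≤ ay := le_trans (by positivity) hy
  have hsg : 0 ≤ sg := le_trans (by positivity) hG1
  have h1 : (4 * J1 * (D * x)) * sX * (D * G1) * N1 * (D * y) ≤ t * (9 * m * N0 * D ^ 3) := by
    refine le_trans ?_ ht
    gcongr
  rw [div_le_div_iff₀ hN0 hD]
  have h2 : ((4 / 9) * J1 * x / m * (sX / D) * G1 * (N1 * y) * D) * (9 * m * D ^ 3) ≤
      t * N0 * (9 * m * D ^ 3) := by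
    have h3 : ((4 / 9) * J1 * x / m * (sX / D) * G1 * (N1 * y) * D) * (9 * m * D ^ 3) =
        (4 * J1 * (D * x)) * sX * (D * G1) * N1 * (D * y) := by
      field_simp
    rw [h3]
    refine le_trans h1 (le_of_eq ?_)
    ring
  exact le_of_mul_le_mul_right h2 (by positivity)

/-- `m G (1 + f) ≤ 2 (1 + e) N y`. -/
theorem real_e {m N1 K : ℝ} (hD : 0 < D) (hm : 0 ≤ m) (hN1 : 0 < N1)
    (hG : D * G ≤ ag) (hK : 0 ≤ K) (hf : 0 ≤ sf) (hy : ay ≤ D * y)
    (hT : 3 * m * ag * sf ≤ K * (6 * N1 * ay)) :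
    m * G * (sf / D) ≤ 2 * (K / D) * N1 * y := by
  have h1 : 3 * m * (D * G) * sf ≤ K * (6 * N1 * (D * y)) := by
    refine le_trans ?_ (le_trans hT ?_)
    · gcongr
    · gcongr
  have h2 : (m * G * (sf / D)) * (3 * D ^ 2) ≤ (2 * (K / D) * N1 * y) * (3 * D ^ 2) := by
    have h3 : (m * G * (sf / D)) * (3 * D ^ 2) = 3 * m * (D * G) * sf := by
      field_simp
    have h4 : (2 * (K / D) * N1 * y) * (3 * D ^ 2) = K * (6 * N1 * (D * y)) := by
      field_simp
      ring
    rw [h3, h4]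
    exact h1
  exact le_of_mul_le_mul_right h2 (by positivity)

theorem real_K {m N2 : ℝ} (hD : 0 < D) (hN2 : 0 ≤ N2) (hay : 0 ≤ ay) (haz : 0 ≤ az)
    (hy : ay ≤ D * y) (hz : az ≤ D * z) (h : m * D ^ 2 ≤ 2 * N2 * ay * az) :
    m ≤ 2 * N2 * (z * y) := by
  have hy0 : 0 ≤ D * y := le_trans hay hy
  have h1 : 2 * N2 * ay * az ≤ 2 * N2 * (D * y) * (D * z) := by
    have h0 : 0 ≤ 2 * N2 * (D * y) := by positivity
    gcongr
  have h2 : m * D ^ 2 ≤ 2 * N2 * (z * y) * D ^ 2 := by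
    refine le_trans (le_trans h h1) (le_of_eq ?_)
    ring
  exact le_of_mul_le_mul_right h2 (by positivity)

theorem real_R {m3 m N2 J1 j : ℝ} (hD : 0 < D) (hN2 : 0 ≤ N2) (hj : 0 ≤ j) (hm3 : 0 ≤ m3)
    (hJ1 : 0 ≤ J1) (hz : D * z ≤ az) (hx : ax ≤ D * x)
    (h : 32 * j * N2 * az ≤ m3 * (12 * J1 * ax + 9 * m * D)) :
    (8 / 3) * j * N2 * z ≤ m3 * (J1 * x + (3 / 4) * m) := by
  have h1 : 32 * j * N2 * (D * z) ≤ m3 * (12 * J1 * (D * x) + 9 * m * D) := by
    refine le_trans ?_ (le_trans h ?_)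
    · gcongr
    · gcongr
  have h2 : ((8 / 3) * j * N2 * z) * (12 * D) ≤ (m3 * (J1 * x + (3 / 4) * m)) * (12 * D) := by
    have h3 : ((8 / 3) * j * N2 * z) * (12 * D) = 32 * j * N2 * (D * z) := by ring
    have h4 : (m3 * (J1 * x + (3 / 4) * m)) * (12 * D) = m3 * (12 * J1 * (D * x) + 9 * m * D) := by
      ring
    rw [h3, h4]
    exact h1
  exact le_of_mul_le_mul_right h2 (by positivity)

theorem real_r {m J1 r : ℝ} (hD : 0 < D) (hm : 0 < m) (hr : 4 * J1 * (D * x) ≤ r)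
    (h : r ≤ 9 * m * D) : (4 / 9) * J1 * x / m ≤ 1 := by
  rw [div_le_one hm]
  have h2 : ((4 / 9) * J1 * x) * (9 * D) ≤ m * (9 * D) := by
    refine le_trans (le_of_eq ?_) (le_trans (le_trans hr h) (le_of_eq ?_))
    · ring
    · ring
  exact le_of_mul_le_mul_right h2 (by positivity)

end real

/-- The conditions of the upper part at one level. -/
structure UpAt (n J j : ℕ) (P G : ℕ → ℝ) (e e1 f f1 X X1 : ℝ) : Prop where
  hK : (3 * (j : ℝ) - n) * P j ≤ 2 * ((n : ℝ) + 2 - j) * P (j - 2)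
  hR : J + 2 ≤ j → (8 / 3) * (j : ℝ) * ((n : ℝ) + 2 - j) * P j * P (j - 2) ≤
    (3 * (j : ℝ) - 3 - n) * P (j - 1) *
      (((j : ℝ) + 1) * P (j + 1) + (3 / 4) * (3 * (j : ℝ) - n) * P j)
  he : (3 * (j : ℝ) - n) * G j * (1 + f1) * P j ≤
    2 * (1 + e) * ((n : ℝ) + 1 - j) * P (j - 1)
  hf : (3 * (j : ℝ) - n) * G j * e1 * P j ≤ 2 * f * ((n : ℝ) + 1 - j) * P (j - 1)
  he1 : e ≤ 1
  hXn : j = n → 1 ≤ X
  hX : j < n → 1 + f1 + rb n P j * X1 * G (j + 1) * cc n P (j + 1) / cc n P (j + 2) ≤ X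
  hρ : rb n P j ≤ 1
  hs : max (bb n P j - cc n P j) 0 * G j * (1 + f1) / cc n P (j + 1) +
    max (cc n P j - bb n P j) 0 * G j * e1 / cc n P (j + 1) +
      cc n P j * rb n P j * X1 * G j * G (j + 1) / cc n P (j + 2) ≤ 1

/-- The last bound of the upper part. -/
def UpX (n j : ℕ) (P G : ℕ → ℝ) (f1 X1 x : ℝ) : Prop :=
  1 + |bb n P j - cc n P j| * G j * (1 + f1) / cc n P (j + 1) +
    cc n P j * rb n P j * X1 * G j * G (j + 1) / cc n P (j + 2) ≤ x

set_option maxHeartbeats 1000000 in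
theorem up_one {D q J : ℕ} (hDp : 0 < D) {P G : ℕ → ℝ} (hP : ∀ j, j ≤ 3 * q → 0 < P j)
    (hPn : 0 ≤ P (3 * q + 1)) {a : Ent} (v : Val D (3 * q) P G a) (hm : 3 * q < 3 * a.j)
    (h5 : 5 ≤ a.j) {s : USt} (hok : (uStep D (3 * q) J a s).ok = true)
    (hG : a.j < 3 * q → 0 ≤ G (a.j + 1) ∧ D * G (a.j + 1) ≤ s.g) :
    UpAt (3 * q) J a.j P G ((uStep D (3 * q) J a s).e / D) (s.e / D)
      ((uStep D (3 * q) J a s).f / D) (s.f / D) ((uStep D (3 * q) J a s).X / D) (s.X / D) ∧
    UpX (3 * q) a.j P G (s.f / D) (s.X / D) ((uStep D (3 * q) J a s).xx / D) := by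
  obtain ⟨j, ax, ay, az, ag⟩ := a
  obtain ⟨se, sf, sX, sg, sx, sok⟩ := s
  have v2 : 2 ≤ j := v.h2
  have vn : j ≤ 3 * q := v.hn
  have x1 := v.x1
  have x2 := v.x2
  have y1 := v.y1
  have y2 := v.y2
  have z1 := v.z1
  have z2 := v.z2
  have g0 := v.g0 h5
  have g1 := v.g1 h5
  dsimp only at x1 x2 y1 y2 z1 z2 g0 g1 hG hm h5 ⊢
  have hD : (0 : ℝ) < D := by exact_mod_cast hDp
  have p0 : 0 < P j := hP j vn
  have p1 : 0 < P (j - 1) := hP _ (by omega)
  have p2 : 0 < P (j - 2) := hP _ (by omega)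
  have pp : 0 ≤ P (j + 1) := by
    rcases Nat.lt_or_ge j (3 * q) with h | h
    · exact (hP _ (by omega)).le
    · have h' : j = 3 * q := by omega
      rw [h']
      exact hPn
  obtain ⟨x, hx⟩ : ∃ x, P (j + 1) = x * P j := ⟨P (j + 1) / P j, (div_mul_cancel₀ _ p0.ne').symm⟩
  obtain ⟨y, hy⟩ : ∃ y, P (j - 1) = y * P j := ⟨P (j - 1) / P j, (div_mul_cancel₀ _ p0.ne').symm⟩
  obtain ⟨z, hz⟩ : ∃ z, P (j - 2) = z * P (j - 1) :=
    ⟨P (j - 2) / P (j - 1), (div_mul_cancel₀ _ p1.ne').symm⟩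
  have x0 : 0 ≤ x := by
    by_contra h
    push Not at h
    have := mul_neg_of_neg_of_pos h p0
    linarith
  have y0 : 0 < y := by
    by_contra h
    push Not at h
    have := mul_nonpos_of_nonpos_of_nonneg h p0.le
    linarith
  have z0 : 0 < z := by
    by_contra h
    push Not at h
    have := mul_nonpos_of_nonpos_of_nonneg h p1.le
    linarith
  rw [hx, ← mul_assoc] at x1 x2
  rw [hy, ← mul_assoc] at y1 y2
  rw [hz, ← mul_assoc] at z1 z2
  have x1' := le_of_mul_le_mul_right x1 p0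
  have x2' := le_of_mul_le_mul_right x2 p0
  have y1' := le_of_mul_le_mul_right y1 p0
  have y2' := le_of_mul_le_mul_right y2 p0
  have z1' := le_of_mul_le_mul_right z1 p1
  have z2' := le_of_mul_le_mul_right z2 p1
  -- casts
  obtain ⟨m, hmq⟩ : ∃ m, 3 * j - 3 * q = m := ⟨_, rfl⟩
  obtain ⟨N1, hN1⟩ : ∃ N1, 3 * q + 1 - j = N1 := ⟨_, rfl⟩
  obtain ⟨N2, hN2⟩ : ∃ N2, 3 * q + 2 - j = N2 := ⟨_, rfl⟩
  obtain ⟨N0, hN0⟩ : ∃ N0, 3 * q - j = N0 := ⟨_, rfl⟩
  have cm : (3 * (j : ℝ) - (3 * q : ℕ)) = m := by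
    have h : 3 * j = m + 3 * q := by omega
    have h' : ((3 * j : ℕ) : ℝ) = ((m + 3 * q : ℕ) : ℝ) := by rw [h]
    push_cast at h' ⊢
    linarith
  have cm3 : (3 * (j : ℝ) - 3 - (3 * q : ℕ)) = (m - 3 : ℕ) := by
    have h : 3 * j = (m - 3) + 3 + 3 * q := by omega
    have h' : ((3 * j : ℕ) : ℝ) = (((m - 3) + 3 + 3 * q : ℕ) : ℝ) := by rw [← h]
    push_cast at h' ⊢
    linarith
  have cN1 : (((3 * q : ℕ) : ℝ) + 1 - j) = N1 := by
    have h : 3 * q + 1 = N1 + j := by omega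
    have h' : ((3 * q + 1 : ℕ) : ℝ) = ((N1 + j : ℕ) : ℝ) := by rw [h]
    push_cast at h' ⊢
    linarith
  have cN2 : (((3 * q : ℕ) : ℝ) + 2 - j) = N2 := by
    have h : 3 * q + 2 = N2 + j := by omega
    have h' : ((3 * q + 2 : ℕ) : ℝ) = ((N2 + j : ℕ) : ℝ) := by rw [h]
    push_cast at h' ⊢
    linarith
  have cN0 : (((3 * q : ℕ) : ℝ) - j) = N0 := by
    have h : 3 * q = N0 + j := by omega
    have h' : ((3 * q : ℕ) : ℝ) = ((N0 + j : ℕ) : ℝ) := by rw [h]
    push_cast at h' ⊢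
    linarith
  have m0 : (0 : ℝ) < m := by
    have : 0 < m := by omega
    exact_mod_cast this
  have N1p : (0 : ℝ) < N1 := by
    have : 0 < N1 := by omega
    exact_mod_cast this
  have N2p : (0 : ℝ) < N2 := by
    have : 0 < N2 := by omega
    exact_mod_cast this
  -- the quantities of the chain
  have hbb : bb (3 * q) P j = P j * (((j : ℝ) + 1) * x + 3 * m) := by
    unfold bb
    rw [hx, cm]
    ring
  have hcc : cc (3 * q) P j = P j * (6 * N2 * (z * y)) := by
    unfold cc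
    rw [hz, hy, cN2]
    ring
  have hc1 : cc (3 * q) P (j + 1) = P j * (6 * N1 * y) := by
    unfold cc
    have e1 : j + 1 - 2 = j - 1 := by omega
    have e2 : (((3 * q : ℕ) : ℝ) + 2 - ((j + 1 : ℕ) : ℝ)) = N1 := by
      rw [← cN1]
      push_cast
      ring
    rw [e1, hy, e2]
    ring
  have hc2 : cc (3 * q) P (j + 2) = P j * (6 * N0) := by
    unfold cc
    have e1 : j + 2 - 2 = j := by omega
    have e2 : (((3 * q : ℕ) : ℝ) + 2 - ((j + 2 : ℕ) : ℝ)) = N0 := by
      rw [← cN0]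
      push_cast
      ring
    rw [e1, e2]
    ring
  have hrb : rb (3 * q) P j = (4 / 9) * ((j : ℝ) + 1) * x / m := by
    unfold rb
    rw [hx, cm, ← mul_assoc]
    exact mul_div_mul_right _ _ p0.ne'
  -- the tests
  dsimp only [uStep] at hok ⊢
  rw [hmq, hN1, hN2, hN0] at hok
  rw [hmq, hN1, hN2, hN0]
  obtain ⟨t, ht⟩ : ∃ t, (bif Nat.ble (3 * q) j then 0 else
    (6 * N2 * (ay + 1) * (az + 1) / D + 1) * (4 * (j + 1) * (ax + 1)) * sX * ag * sg /
      (54 * m * N0 * D ^ 4) + 1) = t := ⟨_, rfl⟩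
  rw [ht] at hok
  rw [ht]
  simp only [Bool.and_eq_true, Bool.or_eq_true] at hok
  obtain ⟨k1, k2, k3, k4, k5⟩ := hok
  have k1' := Nat.le_of_ble_eq_true k1
  have k3' := Nat.le_of_ble_eq_true k3
  have k4' := Nat.le_of_ble_eq_true k4
  have k5' := Nat.le_of_ble_eq_true k5
  have mp : 0 < m := by omega
  have ayp : 0 < ay := by
    rcases Nat.eq_zero_or_pos ay with h | h
    · rw [h, Nat.mul_zero, Nat.zero_mul] at k1'
      have : 0 < m * D ^ 2 := by positivity
      omega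
    · exact h
  have N1p' : 0 < N1 := by omega
  have c1p : 0 < 6 * N1 * ay := by positivity
  obtain ⟨e', he'⟩ : ∃ e', 3 * m * ag * (D + sf) / (6 * N1 * ay) + 1 - D = e' := ⟨_, rfl⟩
  obtain ⟨f', hf'⟩ : ∃ f', 3 * m * ag * se / (6 * N1 * ay) + 1 = f' := ⟨_, rfl⟩
  rw [he'] at k3'
  rw [he', hf']
  obtain ⟨r, hr⟩ : ∃ r, 4 * (j + 1) * (ax + 1) = r := ⟨_, rfl⟩
  obtain ⟨b, hb⟩ : ∃ b, (j + 1) * ax + 3 * m * D = b := ⟨_, rfl⟩
  obtain ⟨b', hb'⟩ : ∃ b', (j + 1) * (ax + 1) + 3 * m * D = b' := ⟨_, rfl⟩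
  obtain ⟨c, hc⟩ : ∃ c, 6 * N2 * ay * az / D = c := ⟨_, rfl⟩
  obtain ⟨c', hc'⟩ : ∃ c', 6 * N2 * (ay + 1) * (az + 1) / D + 1 = c' := ⟨_, rfl⟩
  rw [hr] at k4'
  rw [hb, hb', hc, hc'] at k5'
  rw [hr, hc'] at ht
  rw [hb, hb', hc, hc', hr]
  -- real bounds
  have rx : (4 * ((j : ℝ) + 1) * (D * x)) ≤ r := by
    rw [← hr]
    push_cast
    exact mul_le_mul_of_nonneg_left x2' (by positivity)
  have rB : (b : ℝ) ≤ D * (((j : ℝ) + 1) * x + 3 * m) := by
    rw [← hb]
    push_cast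
    have h0 : (0 : ℝ) ≤ (j : ℝ) + 1 := by positivity
    have h1 := mul_le_mul_of_nonneg_left x1' h0
    linarith
  have rB' : D * (((j : ℝ) + 1) * x + 3 * m) ≤ (b' : ℝ) := by
    rw [← hb']
    push_cast
    have h0 : (0 : ℝ) ≤ (j : ℝ) + 1 := by positivity
    have h1 := mul_le_mul_of_nonneg_left x2' h0
    linarith
  have rC : (c : ℝ) ≤ D * (6 * N2 * (z * y)) := by
    have h1 := fl1 (6 * N2 * ay * az) D
    rw [hc] at h1
    push_cast at h1
    have h2 : (6 * (N2 : ℝ) * ay * az) ≤ 6 * N2 * (D * y) * (D * z) := by gcongr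
    have h3 : (c : ℝ) * D ≤ (D * (6 * N2 * (z * y))) * D := by
      refine le_trans h1 (le_trans h2 (le_of_eq ?_))
      ring
    exact le_of_mul_le_mul_right h3 hD
  have rC' : D * (6 * N2 * (z * y)) ≤ (c' : ℝ) := by
    have h1 := fl2 (6 * N2 * (ay + 1) * (az + 1)) D hDp
    have h0 : ((6 * N2 * (ay + 1) * (az + 1) / D : ℕ) : ℝ) + 1 = c' := by
      rw [← hc']
      push_cast
      ring
    rw [h0] at h1
    push_cast at h1
    have h2 : 6 * N2 * (D * y) * (D * z) ≤ (6 * (N2 : ℝ) * (ay + 1) * (az + 1)) := by gcongr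
    have h3 : (D * (6 * N2 * (z * y))) * D ≤ (c' : ℝ) * D := by
      refine le_trans (le_trans (le_of_eq ?_) h2) h1
      ring
    exact le_of_mul_le_mul_right h3 hD
  have c1r : ((6 * N1 * ay : ℕ) : ℝ) ≤ D * (6 * N1 * y) := by
    push_cast
    have h0 : (0 : ℝ) ≤ 6 * (N1 : ℝ) := by positivity
    have h1 := mul_le_mul_of_nonneg_left y1' h0
    linarith
  have c1r' : (0 : ℝ) < ((6 * N1 * ay : ℕ) : ℝ) := by exact_mod_cast c1p
  have f1e : (D : ℝ) * ((sf : ℝ) / D) = sf := by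
    field_simp
  have e1e : (D : ℝ) * ((se : ℝ) / D) = se := by
    field_simp
  have sube : ∀ u w : ℕ, (u : ℝ) - w ≤ ((u - w : ℕ) : ℝ) := by
    intro u w
    have h : u ≤ (u - w) + w := by omega
    have h' : (u : ℝ) ≤ (((u - w) + w : ℕ) : ℝ) := by exact_mod_cast h
    push_cast at h'
    linarith
  have tD : (t : ℝ) ≤ D := by
    have h0 := Nat.zero_le (((b' - c) * (D + sf) + (c' - b) * se) * ag / (6 * N1 * ay * D))
    have : t ≤ D := by omega
    exact_mod_cast this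
  have t3 : cc (3 * q) P j * rb (3 * q) P j * ((sX : ℝ) / D) * G j * G (j + 1) /
      cc (3 * q) P (j + 2) ≤ t / D := by
    rcases Nat.lt_or_ge j (3 * q) with h | h
    · have N0p : 0 < N0 := by omega
      have N0r : (0 : ℝ) < N0 := by exact_mod_cast N0p
      have h1 : c' * r * sX * ag * sg / (54 * m * N0 * D ^ 4) + 1 = t := by
        rw [ble_f h] at ht
        exact ht
      have h2 := fl2 (c' * r * sX * ag * sg) (54 * m * N0 * D ^ 4) (by positivity)
      have h0 : ((c' * r * sX * ag * sg / (54 * m * N0 * D ^ 4) : ℕ) : ℝ) + 1 = t := by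
        rw [← h1]
        push_cast
        ring
      rw [h0] at h2
      push_cast at h2
      have h3 := real_t hD m0 N0r (by positivity) (by positivity) rC' x0 rx (Nat.cast_nonneg sX)
        g0 g1 (hG h).1 (hG h).2 h2
      rw [hcc, hrb, hc2]
      refine le_trans (le_of_eq ?_) h3
      have e1 : P j * (6 * N2 * (z * y)) * ((4 / 9) * ((j : ℝ) + 1) * x / m) * ((sX : ℝ) / D) *
          G j * G (j + 1) / (P j * (6 * N0)) = P j * (6 * N2 * (z * y) *
            ((4 / 9) * ((j : ℝ) + 1) * x / m) * ((sX : ℝ) / D) *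
          G j * G (j + 1)) / (P j * (6 * N0)) := by ring
      rw [e1, mul_div_mul_left _ _ p0.ne']
    · have h0 : N0 = 0 := by omega
      rw [hc2, h0]
      simp only [Nat.cast_zero, mul_zero, div_zero]
      positivity
  have hmx : ∀ u w : ℝ, max (P j * u - P j * w) 0 = P j * max (u - w) 0 := by
    intro u w
    rw [mul_max_of_nonneg _ _ p0.le, mul_zero, mul_sub]
  refine ⟨?_, ?_⟩
  · exact
      { hK := by
          rw [cm, cN2, hz, hy]
          have h1 : ((m * D ^ 2 : ℕ) : ℝ) ≤ ((2 * N2 * ay * az : ℕ) : ℝ) := by exact_mod_cast k1'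
          push_cast at h1
          have h2 := real_K hD N2p.le (Nat.cast_nonneg ay) (Nat.cast_nonneg az) y1' z1' h1
          have h3 := mul_le_mul_of_nonneg_right h2 p0.le
          refine le_trans h3 (le_of_eq ?_)
          ring
        hR := fun hJ => by
          have k2' : 32 * j * N2 * (az + 1) ≤ (m - 3) * (12 * (j + 1) * ax + 9 * m * D) := by
            rcases k2 with h | h
            · have := Nat.le_of_ble_eq_true h
              omega
            · exact Nat.le_of_ble_eq_true h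
          have h1 : ((32 * j * N2 * (az + 1) : ℕ) : ℝ) ≤
            (((m - 3) * (12 * (j + 1) * ax + 9 * m * D) : ℕ) : ℝ) := by exact_mod_cast k2'
          rw [Nat.cast_mul (m - 3)] at h1
          push_cast at h1
          have h2 := real_R hD N2p.le (Nat.cast_nonneg j) (Nat.cast_nonneg (m - 3)) (by positivity)
            z2' x1' h1
          rw [cm, cN2, cm3, hz, hx]
          have h3 := mul_le_mul_of_nonneg_right h2 (mul_nonneg p1.le p0.le)
          refine le_trans (le_of_eq ?_) (le_trans h3 (le_of_eq ?_))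
          · ring
          · ring
        he := by
          have h1 := fl2 (3 * m * ag * (D + sf)) (6 * N1 * ay) c1p
          have h2 : (((3 * m * ag * (D + sf) / (6 * N1 * ay) : ℕ) : ℝ) + 1) ≤ (e' : ℝ) + D := by
            have h3 : 3 * m * ag * (D + sf) / (6 * N1 * ay) + 1 ≤ e' + D := by omega
            exact_mod_cast h3
          have h3 := le_trans h1 (mul_le_mul_of_nonneg_right h2 c1r'.le)
          push_cast at h3
          have h4 := real_e (sf := (D : ℝ) + sf) hD m0.le N1p g1 (by positivity) (by positivity)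
            y1' h3
          rw [cm, cN1, hy]
          have h5 := mul_le_mul_of_nonneg_right h4 p0.le
          have h6 : ((D : ℝ) + sf) / D = 1 + sf / D := by
            field_simp
          have h7 : ((e' : ℝ) + D) / D = 1 + e' / D := by
            field_simp
            ring
          rw [h6, h7] at h5
          refine le_trans h5 (le_of_eq ?_)
          ring
        hf := by
          have h1 := fl2 (3 * m * ag * se) (6 * N1 * ay) c1p
          have h2 : (((3 * m * ag * se / (6 * N1 * ay) : ℕ) : ℝ) + 1) = (f' : ℝ) := by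
            rw [← hf']
            push_cast
            ring
          rw [h2] at h1
          push_cast at h1
          have h4 := real_e (sf := (se : ℝ)) hD m0.le N1p g1 (Nat.cast_nonneg f') (by positivity)
            y1' h1
          rw [cm, cN1, hy]
          have h5 := mul_le_mul_of_nonneg_right h4 p0.le
          refine le_trans h5 (le_of_eq ?_)
          ring
        he1 := by
          rw [div_le_one hD]
          exact_mod_cast k3'
        hXn := fun h => by
          rw [Nat.ble_eq_true_of_le (Nat.le_of_eq h.symm)]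
          simp only [cond_true]
          rw [div_self hD.ne']
        hX := fun h => by
          have N0p : 0 < N0 := by omega
          have N0r : (0 : ℝ) < N0 := by exact_mod_cast N0p
          rw [ble_f h]
          simp only [cond_false]
          obtain ⟨w, hw⟩ : ∃ w, r * sX * sg * N1 * (ay + 1) / (9 * m * N0 * D ^ 3) + 1 = w :=
            ⟨_, rfl⟩
          rw [hw]
          have h2 := fl2 (r * sX * sg * N1 * (ay + 1)) (9 * m * N0 * D ^ 3) (by positivity)
          have h0 : ((r * sX * sg * N1 * (ay + 1) / (9 * m * N0 * D ^ 3) : ℕ) : ℝ) + 1 = w := by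
            rw [← hw]
            push_cast
            ring
          rw [h0] at h2
          push_cast at h2
          have h3 := real_X hD m0 N0r N1p.le (by positivity) x0 rx (Nat.cast_nonneg sX)
            (hG h).1 (hG h).2 y0.le y2' h2
          rw [hrb, hc1, hc2]
          have e1 : (4 / 9) * ((j : ℝ) + 1) * x / m * ((sX : ℝ) / D) * G (j + 1) *
              (P j * (6 * N1 * y)) / (P j * (6 * N0)) =
              (4 / 9) * ((j : ℝ) + 1) * x / m * ((sX : ℝ) / D) * G (j + 1) * (N1 * y) / N0 := by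
            field_simp
          rw [e1]
          have e2 : (((D + sf + w : ℕ) : ℝ)) / D = 1 + sf / D + w / D := by
            push_cast
            field_simp
          rw [e2]
          linarith
        hρ := by
          rw [hrb]
          have h1 : ((r : ℕ) : ℝ) ≤ ((9 * m * D : ℕ) : ℝ) := by exact_mod_cast k4'
          push_cast at h1
          exact real_r hD m0 rx h1
        hs := by
          have k6 : (((b' - c) * (D + sf) + (c' - b) * se) * ag : ℕ) ≤ (D - t) * (6 * N1 * ay * D) := by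
            have h1 := Nat.lt_mul_div_succ (((b' - c) * (D + sf) + (c' - b) * se) * ag)
              (b := 6 * N1 * ay * D) (by positivity)
            have h2 : ((b' - c) * (D + sf) + (c' - b) * se) * ag / (6 * N1 * ay * D) + 1 ≤ D - t := by
              omega
            rw [Nat.mul_comm (6 * N1 * ay * D)] at h1
            exact le_trans h1.le (Nat.mul_le_mul_right _ h2)
          have k7 : ((((b' - c) * (D + sf) + (c' - b) * se) * ag : ℕ) : ℝ) ≤
            (((D - t) * (6 * N1 * ay * D) : ℕ) : ℝ) := by exact_mod_cast k6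
          have tD' : t ≤ D := by exact_mod_cast tD
          rw [Nat.cast_mul (D - t), Nat.cast_sub tD', Nat.cast_mul (6 * N1 * ay)] at k7
          rw [Nat.cast_mul, Nat.cast_add, Nat.cast_mul, Nat.cast_mul, Nat.cast_add] at k7
          have h1 := real_s hD rB rB' rC rC' c1r' c1r g0 g1 f1e e1e (by positivity) (by positivity)
            (sube b' c) (Nat.cast_nonneg _) (sube c' b) (Nat.cast_nonneg _) tD k7
          rw [hbb, hcc, hc1, hmx, hmx]
          rw [hcc] at t3
          have e1 : ∀ A B : ℝ, P j * A * G j * B / (P j * (6 * N1 * y)) = A * G j * B / (6 * N1 * y) := by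
            intro A B
            have e2 : P j * A * G j * B = P j * (A * G j * B) := by ring
            rw [e2, mul_div_mul_left _ _ p0.ne']
          rw [e1, e1]
          linarith }
  · unfold UpX
    have h1 := Nat.lt_mul_div_succ (((b' - c) + (c' - b)) * (D + sf) * ag)
              (b := 6 * N1 * ay * D) (by positivity)
    obtain ⟨w, hw⟩ : ∃ w, ((b' - c) + (c' - b)) * (D + sf) * ag / (6 * N1 * ay * D) + 1 = w :=
      ⟨_, rfl⟩
    rw [hw] at h1
    rw [hw]
    have k7 : (((((b' - c) + (c' - b)) * (D + sf) * ag : ℕ)) : ℝ) ≤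
        ((w * (6 * N1 * ay * D) : ℕ) : ℝ) := by
      rw [Nat.mul_comm w]
      exact_mod_cast h1.le
    rw [Nat.cast_mul w, Nat.cast_mul (6 * N1 * ay)] at k7
    rw [Nat.cast_mul, Nat.cast_mul, Nat.cast_add, Nat.cast_add D] at k7
    have h2 := real_x hD rB rB' rC rC' c1r' c1r g0 g1 f1e (by positivity)
            (sube b' c) (Nat.cast_nonneg _) (sube c' b) (Nat.cast_nonneg _) k7 (Nat.cast_nonneg w)
    have e2 : (((D + w + t : ℕ) : ℝ)) / D = 1 + w / D + t / D := by
      push_cast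
      field_simp
    rw [e2]
    have e3 : |bb (3 * q) P j - cc (3 * q) P j| * G j * (1 + (sf : ℝ) / D) / cc (3 * q) P (j + 1) =
        |((j : ℝ) + 1) * x + 3 * m - 6 * N2 * (z * y)| * G j * (1 + (sf : ℝ) / D) / (6 * N1 * y) := by
      rw [hbb, hcc, hc1, ← mul_sub, abs_mul, abs_of_pos p0]
      have e4 : ∀ A B : ℝ, P j * A * G j * B / (P j * (6 * N1 * y)) = A * G j * B / (6 * N1 * y) := by
        intro A B
        have e5 : P j * A * G j * B = P j * (A * G j * B) := by ring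
        rw [e5, mul_div_mul_left _ _ p0.ne']
      rw [e4]
    rw [e3]
    linarith

end Pool.Agent.Lib.MP_eeed5c_coC
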