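import Pool.Agent.Lib.MP_eeed5c_co_C.CkC

/-!
# The finite computation: the middle and the lower part
-/

set_option autoImplicit false

namespace Pool.Agent.Lib.MP_eeed5c_coC

/-- The conditions of the middle part at one level. -/
structure MAt (n j : ℕ) (P G : ℕ → ℝ) (a L U T a' L' U' T' : ℝ) : Prop where
  hK : 2 * ((n : ℝ) + 2 - j) * P (j - 2) ≤ (3 * (j : ℝ) - n) * P j
  ha : (j : ℝ) * P j ≤ a' * (bb n P j - min (a * cc n P (j + 1)) (((j : ℝ) + 1) * P (j + 1)))
  hL : a * G j * U ≤ 1 + L'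
  hU : 1 + a * G j * L ≤ U'
  hT : G j * (L * a + T) * P j ≤ T' * P (j + 1)

theorem ceil_le (N B : ℕ) (hB : 0 < B) : N ≤ (N + B - 1) / B * B := by
  have h1 := Nat.lt_mul_div_succ (N + B - 1) hB
  rw [Nat.mul_add, Nat.mul_one, Nat.mul_comm] at h1
  omega

/-- The bound of the sum of the losses. -/
theorem mT {D n : ℕ} (hDp : 0 < D) {P G : ℕ → ℝ} (hP : ∀ j, j ≤ n → 0 < P j)
    {a : Ent} (v : Val D n P G a) (h5 : 5 ≤ a.j) (s : MSt) (hx : 1 ≤ a.x) :
    G a.j * ((s.L / D) * (s.a / D) + s.T / D) * P a.j ≤ ((mStep D n a s).T / D) * P (a.j + 1) := by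
  obtain ⟨j, ax, ay, az, ag⟩ := a
  obtain ⟨sa, sL, sU, sT, sok⟩ := s
  have vn : j ≤ n := v.hn
  have x1 := v.x1
  have g0 := v.g0 h5
  have g1 := v.g1 h5
  dsimp only at x1 g0 g1 hx ⊢
  have hD : (0 : ℝ) < D := by exact_mod_cast hDp
  have p0 : 0 < P j := hP j vn
  dsimp only [mStep]
  obtain ⟨T', hT'⟩ : ∃ T', (ag * (sL * sa + sT * D) + ax * D - 1) / (ax * D) = T' := ⟨_, rfl⟩
  rw [hT']
  have h1 := ceil_le (ag * (sL * sa + sT * D)) (ax * D) (by positivity)
  rw [hT'] at h1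
  have h2 : ((ag * (sL * sa + sT * D) : ℕ) : ℝ) ≤ ((T' * (ax * D) : ℕ) : ℝ) := by exact_mod_cast h1
  push_cast at h2
  have h3 : (D * G j) * ((sL : ℝ) * sa + sT * D) ≤ ag * ((sL : ℝ) * sa + sT * D) :=
    mul_le_mul_of_nonneg_right g1 (by positivity)
  have h4 : (D * G j) * ((sL : ℝ) * sa + sT * D) ≤ T' * (ax * D) := le_trans h3 h2
  have h5 := mul_le_mul_of_nonneg_right h4 p0.le
  have h6 : (T' : ℝ) * D * (ax * P j) ≤ T' * D * (D * P (j + 1)) :=
    mul_le_mul_of_nonneg_left x1 (by positivity)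
  have h7 : (G j * ((sL / D) * (sa / D) + sT / D) * P j) * D ^ 3 ≤
      ((T' : ℝ) / D * P (j + 1)) * D ^ 3 := by
    have e1 : (G j * (((sL : ℝ) / D) * (sa / D) + sT / D) * P j) * D ^ 3 =
        (D * G j) * ((sL : ℝ) * sa + sT * D) * P j := by
      field_simp
    have e2 : ((T' : ℝ) / D * P (j + 1)) * D ^ 3 = T' * D * (D * P (j + 1)) := by
      field_simp
    rw [e1, e2]
    refine le_trans h5 (le_trans (le_of_eq ?_) h6)
    ring
  exact le_of_mul_le_mul_right h7 (by positivity)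

theorem mid_one {D n : ℕ} (hDp : 0 < D) {P G : ℕ → ℝ} (hP : ∀ j, j ≤ n → 0 < P j)
    {a : Ent} (v : Val D n P G a) (hm : n < 3 * a.j)
    (h5 : 5 ≤ a.j) {s : MSt} (hok : (mStep D n a s).ok = true) :
    MAt n a.j P G (s.a / D) (s.L / D) (s.U / D) (s.T / D) ((mStep D n a s).a / D)
      ((mStep D n a s).L / D) ((mStep D n a s).U / D) ((mStep D n a s).T / D) := by
  have hT := mT hDp hP v h5 s
  obtain ⟨j, ax, ay, az, ag⟩ := a
  obtain ⟨sa, sL, sU, sT, sok⟩ := s
  have v2 : 2 ≤ j := v.h2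
  have vn : j ≤ n := v.hn
  have x1 := v.x1
  have x2 := v.x2
  have y1 := v.y1
  have y2 := v.y2
  have z1 := v.z1
  have z2 := v.z2
  have g0 := v.g0 h5
  have g1 := v.g1 h5
  dsimp only at x1 x2 y1 y2 z1 z2 g0 g1 hm h5 hT ⊢
  have hD : (0 : ℝ) < D := by exact_mod_cast hDp
  have p0 : 0 < P j := hP j vn
  have p1 : 0 < P (j - 1) := hP _ (by omega)
  have p2 : 0 < P (j - 2) := hP _ (by omega)
  obtain ⟨x, hx⟩ : ∃ x, P (j + 1) = x * P j := ⟨P (j + 1) / P j, (div_mul_cancel₀ _ p0.ne').symm⟩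
  obtain ⟨y, hy⟩ : ∃ y, P (j - 1) = y * P j := ⟨P (j - 1) / P j, (div_mul_cancel₀ _ p0.ne').symm⟩
  obtain ⟨z, hz⟩ : ∃ z, P (j - 2) = z * P (j - 1) :=
    ⟨P (j - 2) / P (j - 1), (div_mul_cancel₀ _ p1.ne').symm⟩
  have y0 : 0 < y := by
    by_contra h
    push Not at h
    have := mul_nonpos_of_nonpos_of_nonneg h p0.le
    linarith
  have z0 : 0 < z := by
    by_contra h
    push Not at h
    have := mul_nonpos_of_nonpos_of_nonneg h p1.le
    linarith
  rw [hx, ← mul_assoc] at x1 x2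
  rw [hy, ← mul_assoc] at y1 y2
  rw [hz, ← mul_assoc] at z1 z2
  have x1' := le_of_mul_le_mul_right x1 p0
  have x2' := le_of_mul_le_mul_right x2 p0
  have y2' := le_of_mul_le_mul_right y2 p0
  have z2' := le_of_mul_le_mul_right z2 p1
  -- casts
  obtain ⟨m, hmq⟩ : ∃ m, 3 * j - n = m := ⟨_, rfl⟩
  obtain ⟨N1, hN1⟩ : ∃ N1, n + 1 - j = N1 := ⟨_, rfl⟩
  obtain ⟨N2, hN2⟩ : ∃ N2, n + 2 - j = N2 := ⟨_, rfl⟩
  have cm : (3 * (j : ℝ) - n) = m := by
    have h : 3 * j = m + n := by omega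
    have h' : ((3 * j : ℕ) : ℝ) = ((m + n : ℕ) : ℝ) := by rw [h]
    push_cast at h' ⊢
    linarith
  have cN2 : ((n : ℝ) + 2 - j) = N2 := by
    have h : n + 2 = N2 + j := by omega
    have h' : ((n + 2 : ℕ) : ℝ) = ((N2 + j : ℕ) : ℝ) := by rw [h]
    push_cast at h' ⊢
    linarith
  have cN1 : ((n : ℝ) + 1 - j) = N1 := by
    have h : n + 1 = N1 + j := by omega
    have h' : ((n + 1 : ℕ) : ℝ) = ((N1 + j : ℕ) : ℝ) := by rw [h]
    push_cast at h' ⊢
    linarith
  have hbb : bb n P j = (((j : ℝ) + 1) * x + 3 * m) * P j := by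
    unfold bb
    rw [hx, cm]
    ring
  have hc1 : cc n P (j + 1) = (6 * N1 * y) * P j := by
    unfold cc
    have e1 : j + 1 - 2 = j - 1 := by omega
    have e2 : ((n : ℝ) + 2 - ((j + 1 : ℕ) : ℝ)) = N1 := by
      rw [← cN1]
      push_cast
      ring
    rw [e1, hy, e2]
    ring
  dsimp only [mStep] at hok ⊢
  rw [hmq, hN1, hN2] at hok
  rw [hmq, hN1]
  simp only [Bool.and_eq_true] at hok
  obtain ⟨k1, k2, k3⟩ := hok
  have k1' := Nat.le_of_ble_eq_true k1
  have k2' := Nat.le_of_ble_eq_true k2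
  have k3' := Nat.le_of_ble_eq_true k3
  obtain ⟨b, hb⟩ : ∃ b, (j + 1) * ax + 3 * m * D = b := ⟨_, rfl⟩
  obtain ⟨w, hw⟩ : ∃ w, min (sa * (6 * N1) * (ay + 1) / D + 1) ((j + 1) * (ax + 1)) = w := ⟨_, rfl⟩
  rw [hb, hw] at k2'
  rw [hb, hw]
  have rB : (b : ℝ) ≤ D * (((j : ℝ) + 1) * x + 3 * m) := by
    rw [← hb]
    push_cast
    have h0 : (0 : ℝ) ≤ (j : ℝ) + 1 := by positivity
    have h1 := mul_le_mul_of_nonneg_left x1' h0
    linarith
  have rw' : D * min (((sa : ℝ) / D) * (6 * N1 * y)) (((j : ℝ) + 1) * x) ≤ (w : ℝ) := by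
    rw [mul_min_of_nonneg _ _ hD.le, ← hw, Nat.cast_min]
    refine min_le_min ?_ ?_
    · refine fl3 _ _ hDp _ ?_
      push_cast
      have h1 : (D : ℝ) * ((sa : ℝ) / D * (6 * N1 * y)) * D = sa * (6 * N1) * (D * y) := by
        field_simp
      rw [h1]
      exact mul_le_mul_of_nonneg_left y2' (by positivity)
    · push_cast
      have h1 : (D : ℝ) * (((j : ℝ) + 1) * x) = ((j : ℝ) + 1) * (D * x) := by ring
      rw [h1]
      exact mul_le_mul_of_nonneg_left x2' (by positivity)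
  exact
    { hK := by
        rw [cm, cN2, hz, hy]
        have h1 : ((2 * N2 * (ay + 1) * (az + 1) : ℕ) : ℝ) ≤ ((m * D ^ 2 : ℕ) : ℝ) := by
          exact_mod_cast k1'
        push_cast at h1
        have h2 : 2 * N2 * (D * y) * (D * z) ≤ (2 * (N2 : ℝ) * (ay + 1) * (az + 1)) := by gcongr
        have h3 : (2 * N2 * (z * y)) * D ^ 2 ≤ m * D ^ 2 := by
          refine le_trans (le_of_eq ?_) (le_trans h2 h1)
          ring
        have h4 := le_of_mul_le_mul_right h3 (by positivity)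
        have h5 := mul_le_mul_of_nonneg_right h4 p0.le
        refine le_trans (le_of_eq ?_) h5
        ring
      ha := by
        obtain ⟨A, hA⟩ : ∃ A, j * D ^ 2 / (b - w) + 1 = A := ⟨_, rfl⟩
        have h1 := Nat.lt_mul_div_succ (j * D ^ 2) (b := b - w) (by omega)
        rw [hA] at h1
        rw [hA]
        have h2 : ((j * D ^ 2 : ℕ) : ℝ) ≤ (((b - w) * A : ℕ) : ℝ) := by exact_mod_cast h1.le
        rw [Nat.cast_mul (b - w), Nat.cast_sub (by omega : w ≤ b)] at h2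
        push_cast at h2
        rw [hbb, hc1, hx]
        have e1 : min ((sa : ℝ) / D * (6 * N1 * y * P j)) (((j : ℝ) + 1) * (x * P j)) =
            min ((sa : ℝ) / D * (6 * N1 * y)) (((j : ℝ) + 1) * x) * P j := by
          rw [min_mul_of_nonneg _ _ p0.le, mul_assoc, mul_assoc, mul_assoc, mul_assoc, mul_assoc,
            mul_assoc]
        rw [e1, ← sub_mul, ← mul_assoc]
        refine mul_le_mul_of_nonneg_right ?_ p0.le
        have h3 : ((b : ℝ) - w) ≤ D * ((((j : ℝ) + 1) * x + 3 * m) -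
            min ((sa : ℝ) / D * (6 * N1 * y)) (((j : ℝ) + 1) * x)) := by
          rw [mul_sub]
          linarith
        have h4 := mul_le_mul_of_nonneg_right h3 (Nat.cast_nonneg (α := ℝ) A)
        have h5 : (j : ℝ) * D ^ 2 ≤ ((A : ℝ) / D * ((((j : ℝ) + 1) * x + 3 * m) -
            min ((sa : ℝ) / D * (6 * N1 * y)) (((j : ℝ) + 1) * x))) * D ^ 2 := by
          refine le_trans h2 (le_trans h4 (le_of_eq ?_))
          field_simp
        exact le_of_mul_le_mul_right h5 (by positivity)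
      hL := by
        obtain ⟨W, hW⟩ : ∃ W, sa * ag * sU / D ^ 2 + 1 - D = W := ⟨_, rfl⟩
        rw [hW]
        have h1 := fl2 (sa * ag * sU) (D ^ 2) (by positivity)
        have h2 : (((sa * ag * sU / D ^ 2 : ℕ) : ℝ) + 1) ≤ (W : ℝ) + D := by
          have h3 : sa * ag * sU / D ^ 2 + 1 ≤ W + D := by omega
          exact_mod_cast h3
        have h3 := le_trans h1 (mul_le_mul_of_nonneg_right h2 (by positivity))
        push_cast at h3
        have h4 : (sa : ℝ) * (D * G j) * sU ≤ sa * ag * sU := by gcongr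
        have h5 : ((sa : ℝ) / D * G j * (sU / D)) * D ^ 3 ≤ (1 + (W : ℝ) / D) * D ^ 3 := by
          have e1 : ((sa : ℝ) / D * G j * (sU / D)) * D ^ 3 = (sa : ℝ) * (D * G j) * sU := by
            field_simp
          have e2 : (1 + (W : ℝ) / D) * D ^ 3 = (W + D) * D ^ 2 := by
            field_simp
            ring
          rw [e1, e2]
          exact le_trans h4 h3
        exact le_of_mul_le_mul_right h5 (by positivity)
      hU := by
        obtain ⟨W, hW⟩ : ∃ W, sa * ag * sL / D ^ 2 + 1 = W := ⟨_, rfl⟩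
        rw [hW]
        have h1 := fl2 (sa * ag * sL) (D ^ 2) (by positivity)
        have h2 : (((sa * ag * sL / D ^ 2 : ℕ) : ℝ) + 1) = (W : ℝ) := by
          rw [← hW]
          push_cast
          ring
        rw [h2] at h1
        push_cast at h1
        have h4 : (sa : ℝ) * (D * G j) * sL ≤ sa * ag * sL := by gcongr
        have h5 : (1 + (sa : ℝ) / D * G j * (sL / D)) * D ^ 3 ≤ ((D + W : ℕ) : ℝ) / D * D ^ 3 := by
          have e1 : (1 + (sa : ℝ) / D * G j * (sL / D)) * D ^ 3 =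
              D ^ 3 + (sa : ℝ) * (D * G j) * sL := by
            field_simp
          have e2 : ((D + W : ℕ) : ℝ) / D * D ^ 3 = D ^ 3 + W * D ^ 2 := by
            push_cast
            field_simp
          rw [e1, e2]
          linarith
        exact le_of_mul_le_mul_right h5 (by positivity)
      hT := hT k3' }

end Pool.Agent.Lib.MP_eeed5c_coC
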