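import Pool.Agent.Lib.MP_eeed5c_co_C.CkD

/-!
# The finite computation: from the runs to the numerical conditions
-/

set_option autoImplicit false

namespace Pool.Agent.Lib.MP_eeed5c_coC

theorem l_one {D q j g : ℕ} (hDp : 0 < D) {G : ℕ → ℝ} (hm : 3 * q < 3 * j)
    (hj : j ≤ 3 * q) (h7 : 7 ≤ j) (hg : D * G (j - 2) ≤ g)
    (h : lOne D (3 * q) j g = true) : CF (3 * q) G 2 2 j := by
  unfold lOne at h
  dsimp only at h
  obtain ⟨m, hmq⟩ : ∃ m, 3 * j - 3 * q = m := ⟨_, rfl⟩
  rw [hmq] at h
  simp only [Bool.and_eq_true] at h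
  obtain ⟨k0, k1, k2, k3⟩ := h
  have k0' := Nat.le_of_ble_eq_true k0
  have k1' := Nat.le_of_ble_eq_true k1
  have k2' := Nat.le_of_ble_eq_true k2
  have k3' := Nat.le_of_ble_eq_true k3
  obtain ⟨M3, hM3⟩ : ∃ M3, m - 3 = M3 := ⟨_, rfl⟩
  obtain ⟨j1, hj1⟩ : ∃ j1, j - 1 = j1 := ⟨_, rfl⟩
  obtain ⟨j3, hj3⟩ : ∃ j3, j - 3 = j3 := ⟨_, rfl⟩
  have hD : (0 : ℝ) < D := by exact_mod_cast hDp
  have cm : (3 * (j : ℝ) - (3 * q : ℕ)) = m := by
    have h : 3 * j = m + 3 * q := by omega
    have h' : ((3 * j : ℕ) : ℝ) = ((m + 3 * q : ℕ) : ℝ) := by rw [h]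
    push_cast at h' ⊢
    linarith
  have cM3 : (3 * (j : ℝ) - 3 - (3 * q : ℕ)) = M3 := by
    have h : 3 * j = M3 + 3 + 3 * q := by omega
    have h' : ((3 * j : ℕ) : ℝ) = ((M3 + 3 + 3 * q : ℕ) : ℝ) := by rw [h]
    push_cast at h' ⊢
    linarith
  have c1 : ((j : ℝ) - 1) = j1 := by
    have h : j = j1 + 1 := by omega
    have h' : ((j : ℕ) : ℝ) = ((j1 + 1 : ℕ) : ℝ) := by rw [← h]
    push_cast at h' ⊢
    linarith
  have c3 : ((j : ℝ) - 3) = j3 := by
    have h : j = j3 + 3 := by omega
    have h' : ((j : ℕ) : ℝ) = ((j3 + 3 : ℕ) : ℝ) := by rw [← h]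
    push_cast at h' ⊢
    linarith
  obtain ⟨A, hA⟩ : ∃ A, 2 * (3 * q) + 3 - 3 * j = A := ⟨_, rfl⟩
  obtain ⟨A', hA'⟩ : ∃ A', 2 * (3 * q) + 6 - 3 * j = A' := ⟨_, rfl⟩
  obtain ⟨B2, hB2⟩ : ∃ B2, 3 * q + 2 - j = B2 := ⟨_, rfl⟩
  obtain ⟨B3, hB3⟩ : ∃ B3, 3 * q + 3 - j = B3 := ⟨_, rfl⟩
  rw [hA'] at k1'
  rw [hB2] at k1'
  rw [hj1, hj3, hA, hM3, hB3] at k2'
  rw [hj1, hA, hM3] at k3'
  have jp : (0 : ℝ) < j := by
    have : 0 < j := by omega
    exact_mod_cast this
  have j1p : (0 : ℝ) < j1 := by
    have : 0 < j1 := by omega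
    exact_mod_cast this
  have j3p : (0 : ℝ) < j3 := by
    have : 0 < j3 := by omega
    exact_mod_cast this
  have cA : (2 * ((3 * q : ℕ) : ℝ) + 3 - 3 * j) = A := by
    have h : 2 * (3 * q) + 3 = A + 3 * j := by omega
    have h' : ((2 * (3 * q) + 3 : ℕ) : ℝ) = ((A + 3 * j : ℕ) : ℝ) := by rw [h]
    push_cast at h' ⊢
    linarith
  have cA' : (2 * ((3 * q : ℕ) : ℝ) + 6 - 3 * j) = A' := by
    have h : 2 * (3 * q) + 6 = A' + 3 * j := by omega
    have h' : ((2 * (3 * q) + 6 : ℕ) : ℝ) = ((A' + 3 * j : ℕ) : ℝ) := by rw [h]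
    push_cast at h' ⊢
    linarith
  have cB2 : (((3 * q : ℕ) : ℝ) + 2 - j) = B2 := by
    have h : 3 * q + 2 = B2 + j := by omega
    have h' : ((3 * q + 2 : ℕ) : ℝ) = ((B2 + j : ℕ) : ℝ) := by rw [h]
    push_cast at h' ⊢
    linarith
  have cB3 : (((3 * q : ℕ) : ℝ) + 3 - j) = B3 := by
    have h : 3 * q + 3 = B3 + j := by omega
    have h' : ((3 * q + 3 : ℕ) : ℝ) = ((B3 + j : ℕ) : ℝ) := by rw [h]
    push_cast at h' ⊢
    linarith
  have r1 : (3 * (m : ℝ) * A') ≤ j * B2 := by exact_mod_cast k1'
  have r2 : (4 * (j : ℝ) * j1 * j3 + 18 * m * B3 * j1) ≤ 2 * j3 * (6 * j * A + 9 * m * M3) := by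
    exact_mod_cast k2'
  have r3 : (2 * (j : ℝ) * j1 * D + 3 * m * j1 * g) ≤ (6 * j * A + 9 * m * M3) * D := by
    exact_mod_cast k3'
  have hw : (6 * (A : ℝ) + 9 * m * M3 / j) / j1 = (6 * j * A + 9 * m * M3) / (j * j1) := by
    field_simp
  refine ⟨fun h => by omega, fun _ => ⟨?_, ?_, ?_⟩⟩
  · rw [cm, cA', cB2]
    exact r1
  · rw [cm, cB3, cA, cM3, c1, c3, min_self, hw]
    have e1 : (2 : ℝ) + 18 * m * B3 / (j * j3) / 2 =
        (4 * j * j1 * j3 + 18 * m * B3 * j1) / (2 * j3 * (j * j1)) := by
      field_simp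
      ring
    rw [e1, div_le_div_iff₀ (by positivity) (by positivity)]
    have h1 := mul_le_mul_of_nonneg_right r2 (by positivity : (0 : ℝ) ≤ j * j1)
    refine le_trans h1 (le_of_eq ?_)
    ring
  · rw [cm, cA, cM3, c1, hw]
    have h1 : (3 * (m : ℝ) * j1) * (D * G (j - 2)) ≤ (3 * m * j1) * g :=
      mul_le_mul_of_nonneg_left hg (by positivity)
    have h2 : (2 * (j : ℝ) * j1 + 3 * m * j1 * G (j - 2)) * D ≤ (6 * j * A + 9 * m * M3) * D := by
      refine le_trans (le_of_eq ?_) (le_trans (add_le_add_right h1 (2 * (j : ℝ) * j1 * D)) r3)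
      ring
    have h3 := le_of_mul_le_mul_right h2 hD
    have e1 : (2 : ℝ) + 3 * m / j * G (j - 2) = (2 * j * j1 + 3 * m * j1 * G (j - 2)) / (j * j1) := by
      field_simp
    rw [e1]
    exact div_le_div_of_nonneg_right h3 (by positivity)

theorem l_run {D q : ℕ} (hDp : 0 < D) (hq : 25 ≤ q) {P G : ℕ → ℝ} :
    ∀ (l : List Ent) (j : ℕ), Al (Val D (3 * q) P G) j l → lRun D (3 * q) l = true →
      ∀ i, 3 * q < 3 * i → i ≤ j → CF (3 * q) G 2 2 i := by
  intro l
  induction l with
  | nil =>
    intro j _ h
    exact absurd h (by simp [lRun])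
  | cons a l ih =>
    intro j hal h i hi hij
    obtain ⟨ha, hv, hal'⟩ := hal
    rw [lRun] at h
    rcases Nat.lt_or_ge (3 * q) (3 * a.j) with h1 | h1
    swap
    · omega
    · rw [ble_f h1] at h
      simp only [cond_false, Bool.and_eq_true] at h
      obtain ⟨h2, h3⟩ := h
      rcases Nat.lt_or_ge i j with h4 | h4
      · exact ih (j - 1) hal' h3 i hi (by omega)
      · have h5 : i = j := by omega
        have vn := hv.hn
        match l, hal', h2 with
        | [], _, h2 => simp [lGet] at h2
        | [_], _, h2 => simp [lGet] at h2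
        | b :: c :: l', hal', h2 =>
          obtain ⟨hb, -, hc, hvc, -⟩ := hal'
          rw [lGet] at h2
          have h6 : c.j = j - 2 := by omega
          have h7 := hvc.g1 (by omega)
          rw [h6] at h7
          rw [ha] at h2
          rw [h5]
          exact l_one hDp (by omega) (by omega) (by omega) h7 h2

/-- The result of the middle and the lower run. -/
structure MRes (n F j : ℕ) (P G : ℕ → ℝ) (a L U T : ℕ → ℝ) : Prop where
  a0 : ∀ i, 0 ≤ a i
  L0 : ∀ i, 0 ≤ L i
  T0 : ∀ i, 0 ≤ T i
  mat : ∀ i, F < i → i ≤ j →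
    MAt n i P G (a i) (L i) (U i) (T (i + 1)) (a (i - 1)) (L (i - 1)) (U (i - 1)) (T i)
  tF : G F * (L F * a F + T (F + 1)) * P F ≤ T F * P (F + 1)
  y1 : T F * G (F - 1) ≤ 1
  y2 : T F * G (F - 1) * ((F : ℝ) - 1) * P (F - 1) * G (F - 2) ≤ F * P F
  cf : ∀ i, n < 3 * i → i < F → CF n G 2 2 i

theorem m_run {D q F : ℕ} (hDp : 0 < D) (hq : 25 ≤ q) {P G : ℕ → ℝ}
    (hP : ∀ j, j ≤ 3 * q → 0 < P j) (hF9 : 9 ≤ F) (hF : 3 * q < 3 * F) :
    ∀ (l : List Ent) (j : ℕ) (s : MSt), F ≤ j → Al (Val D (3 * q) P G) j l →
      mRun D (3 * q) F l s = true → ∃ a L U T : ℕ → ℝ, MRes (3 * q) F j P G a L U T ∧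
        a j = s.a / D ∧ L j = s.L / D ∧ U j = s.U / D ∧ T (j + 1) = s.T / D := by
  have hD : (0 : ℝ) < D := by exact_mod_cast hDp
  intro l
  induction l with
  | nil =>
    intro j s _ _ h
    exact absurd h (by simp [mRun])
  | cons b l ih =>
    intro j s hFj hal h
    obtain ⟨hb, hv, hal'⟩ := hal
    rw [mRun] at h
    rcases Nat.lt_or_ge F b.j with h1 | h1
    · rw [ble_f h1] at h
      simp only [cond_false, Bool.and_eq_true] at h
      obtain ⟨h2, h3⟩ := h
      obtain ⟨a, L, U, T, hR, ha, hL, hU, hT⟩ := ih (j - 1) _ (by omega) hal' h3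
      have hM := mid_one hDp hP hv (by omega) (by omega) h2
      rw [hb] at hM
      have ej : j - 1 + 1 = j := by omega
      rw [ej] at hT
      have hjj : j - 1 ≠ j := by omega
      refine ⟨fun i => if i = j then s.a / D else a i, fun i => if i = j then s.L / D else L i,
        fun i => if i = j then s.U / D else U i, fun i => if i = j + 1 then s.T / D else T i,
        ?_, if_pos rfl, if_pos rfl, if_pos rfl, if_pos rfl⟩
      exact
        { a0 := fun i => by
            split_ifs
            · positivity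
            · exact hR.a0 i
          L0 := fun i => by
            split_ifs
            · positivity
            · exact hR.L0 i
          T0 := fun i => by
            split_ifs
            · positivity
            · exact hR.T0 i
          mat := fun i hi hij => by
            rcases Nat.lt_or_ge i j with h4 | h4
            · have e1 : i ≠ j := by omega
              have e2 : i - 1 ≠ j := by omega
              have e3 : i + 1 ≠ j + 1 := by omega
              have e4 : i ≠ j + 1 := by omega
              simp only [if_neg e1, if_neg e2, if_neg e3, if_neg e4]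
              exact hR.mat i hi (by omega)
            · have h5 : i = j := by omega
              subst h5
              have e4 : i ≠ i + 1 := by omega
              simp only [if_neg hjj, if_neg e4, if_true]
              rw [ha, hL, hU, hT]
              exact hM
          tF := by
            have e1 : F ≠ j := by omega
            have e3 : F + 1 ≠ j + 1 := by omega
            have e4 : F ≠ j + 1 := by omega
            simp only [if_neg e1, if_neg e3, if_neg e4]
            exact hR.tF
          y1 := by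
            have e4 : F ≠ j + 1 := by omega
            simp only [if_neg e4]
            exact hR.y1
          y2 := by
            have e4 : F ≠ j + 1 := by omega
            simp only [if_neg e4]
            exact hR.y2
          cf := hR.cf }
    · rw [Nat.ble_eq_true_of_le h1] at h
      simp only [cond_true, Bool.and_eq_true] at h
      obtain ⟨h2, h3⟩ := h
      have h4 : b.j = F := Nat.eq_of_beq_eq_true h2
      have h5 : j = F := by omega
      subst h5
      match l, hal', h3 with
      | [], _, h3 => simp [lTest] at h3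
      | [_], _, h3 => simp [lTest] at h3
      | c :: d :: l', hal', h3 =>
        obtain ⟨hc, hvc, hd, hvd, hal''⟩ := hal'
        rw [lTest] at h3
        simp only [Bool.and_eq_true] at h3
        obtain ⟨k1, k2, k3, k4⟩ := h3
        have k1' := Nat.le_of_ble_eq_true k1
        have k2' := Nat.le_of_ble_eq_true k2
        have k3' := Nat.le_of_ble_eq_true k3
        have hT := mT hDp hP hv (by omega) s k1'
        rw [h4] at hT k3'
        obtain ⟨T', hT'⟩ : ∃ T', (mStep D (3 * q) b s).T = T' := ⟨_, rfl⟩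
        rw [hT'] at hT k2' k3'
        have gc1 := hvc.g1 (by omega)
        have gd1 := hvd.g1 (by omega)
        have gc0 := hvc.g0 (by omega)
        have gd0 := hvd.g0 (by omega)
        rw [hc] at gc1 gc0
        have ed : j - 1 - 1 = j - 2 := by omega
        rw [hd, ed] at gd1 gd0
        have y2 := hv.y2
        rw [h4] at y2
        have p0 : 0 < P j := hP j (by rw [← h4]; exact hv.hn)
        have p1 : 0 < P (j - 1) := hP _ (by have := hv.hn; omega)
        refine ⟨fun _ => s.a / D, fun _ => s.L / D, fun _ => s.U / D,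
          fun i => if i = j + 1 then s.T / D else T' / D, ?_, rfl, rfl, rfl, if_pos rfl⟩
        have e4 : j ≠ j + 1 := by omega
        exact
          { a0 := fun i => by
              positivity
            L0 := fun i => by
              positivity
            T0 := fun i => by
              split_ifs
              · positivity
              · positivity
            mat := fun i hi hij => by omega
            tF := by
              simp only [if_neg e4, if_true]
              exact hT
            y1 := by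
              simp only [if_neg e4]
              have h6 : ((T' * c.g : ℕ) : ℝ) ≤ ((D ^ 2 : ℕ) : ℝ) := by exact_mod_cast k2'
              push_cast at h6
              have h7 : (T' : ℝ) * (D * G (j - 1)) ≤ T' * c.g :=
                mul_le_mul_of_nonneg_left gc1 (Nat.cast_nonneg _)
              have h8 : ((T' : ℝ) / D * G (j - 1)) * D ^ 2 ≤ 1 * D ^ 2 := by
                have e1 : ((T' : ℝ) / D * G (j - 1)) * D ^ 2 = (T' : ℝ) * (D * G (j - 1)) := by
                  field_simp
                rw [e1, one_mul]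
                exact le_trans h7 h6
              exact le_of_mul_le_mul_right h8 (by positivity)
            y2 := by
              simp only [if_neg e4]
              have h6 : ((T' * c.g * (j - 1) * (b.y + 1) * d.g : ℕ) : ℝ) ≤
                ((j * D ^ 4 : ℕ) : ℝ) := by exact_mod_cast k3'
              rw [Nat.cast_mul _ d.g, Nat.cast_mul _ (b.y + 1), Nat.cast_mul _ (j - 1),
                Nat.cast_mul, Nat.cast_sub (by omega : 1 ≤ j)] at h6
              push_cast at h6
              have j1 : (0 : ℝ) ≤ (j : ℝ) - 1 := by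
                have : (1 : ℝ) ≤ j := by exact_mod_cast (by omega : 1 ≤ j)
                linarith
              have h7 : (T' : ℝ) * (D * G (j - 1)) * ((j : ℝ) - 1) * (D * P (j - 1)) *
                  (D * G (j - 2)) ≤ T' * c.g * ((j : ℝ) - 1) * (((b.y : ℝ) + 1) * P j) * d.g := by
                have q1 : 0 ≤ D * P (j - 1) := by positivity
                have q2 : 0 ≤ ((b.y : ℝ) + 1) * P j := by positivity
                gcongr
              have h8 := mul_le_mul_of_nonneg_right h6 p0.le
              have h9 : ((T' : ℝ) / D * G (j - 1) * ((j : ℝ) - 1) * P (j - 1) * G (j - 2)) * D ^ 4 ≤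
                  (j * P j) * D ^ 4 := by
                have e1 : ((T' : ℝ) / D * G (j - 1) * ((j : ℝ) - 1) * P (j - 1) * G (j - 2)) * D ^ 4 =
                    (T' : ℝ) * (D * G (j - 1)) * ((j : ℝ) - 1) * (D * P (j - 1)) *
                  (D * G (j - 2)) := by
                  field_simp
                rw [e1]
                refine le_trans h7 (le_trans (le_of_eq ?_) (le_trans h8 (le_of_eq ?_)))
                · ring
                · ring
              exact le_of_mul_le_mul_right h9 (by positivity)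
            cf := fun i hi hij => by
              exact l_run (P := P) (G := G) hDp hq (c :: d :: l') (j - 1) ⟨hc, hvc, hd, hvd, hal''⟩ k4 i
                (by omega) (by omega) }

end Pool.Agent.Lib.MP_eeed5c_coC
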