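import Pool.Agent.Lib.MP_eeed5c_co_C.CkE

/-!
# The finite computation: soundness of the check
-/

set_option autoImplicit false

namespace Pool.Agent.Lib.MP_eeed5c_coC

/-- The middle and the lower conditions. -/
def ML (n J F : ℕ) (P G : ℕ → ℝ) (x : ℝ) : Prop :=
  ∃ a L U Y W : ℕ → ℝ, Mid n J F P G a L U Y W x ∧ Low n F P G Y 2 2

theorem mid_low {D q J F : ℕ} (hDp : 0 < D) (hq : 25 ≤ q) {P G : ℕ → ℝ}
    (hP : ∀ j, j ≤ 3 * q → 0 < P j) (hG0 : ∀ i, 5 ≤ i → i ≤ 3 * q → 0 ≤ G i)
    (hF9 : 9 ≤ F) (hF : 3 * q < 3 * F) (hFJ : F ≤ J) (hJn : J < 3 * q)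
    (e : Ent) (l : List Ent) (hal : Al (Val D (3 * q) P G) J (e :: l)) (xx : ℕ)
    (hy : 1 ≤ e.y) (h : mRun D (3 * q) F (e :: l) (mInit D (3 * q) J e xx) = true) :
    ML (3 * q) J F P G (xx / D) := by
  have hD : (0 : ℝ) < D := by exact_mod_cast hDp
  obtain ⟨a, L, U, T, hR, ha, hL, hU, hT⟩ := m_run hDp hq hP hF9 hF _ J _ hFJ hal h
  obtain ⟨he, hv, -⟩ := hal
  -- the sequence `W`
  obtain ⟨W, hWF, hW⟩ : ∃ W : ℕ → ℝ, W (F - 1) * P (F - 1) = P F ∧
      ∀ j, F - 1 ≤ j → j ≤ J → W (j + 1) * P (j + 1) = G j * W j * P j := by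
    refine ⟨fun j => P F / P j * ∏ i ∈ Finset.Ico (F - 1) j, G i, ?_, fun j h1 h2 => ?_⟩
    · have p1 := hP (F - 1) (by omega)
      dsimp only
      rw [Finset.Ico_self, Finset.prod_empty, mul_one, div_mul_cancel₀ _ p1.ne']
    · have p1 := hP j (by omega)
      have p2 := hP (j + 1) (by omega)
      dsimp only
      rw [Finset.prod_Ico_succ_top h1]
      field_simp
  have hW0 : ∀ k, F - 1 + k ≤ J + 1 → 0 ≤ W (F - 1 + k) := by
    intro k
    induction k with
    | zero =>
      intro _
      have p1 := hP (F - 1) (by omega)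
      have p2 := hP F (by omega)
      rw [Nat.add_zero]
      by_contra hneg
      push Not at hneg
      have := mul_neg_of_neg_of_pos hneg p1
      linarith
    | succ k ih =>
      intro hk
      have h1 := hW (F - 1 + k) (by omega) (by omega)
      have p1 := hP (F - 1 + k) (by omega)
      have p2 := hP (F - 1 + k + 1) (by omega)
      have h2 : 0 ≤ G (F - 1 + k) * W (F - 1 + k) * P (F - 1 + k) :=
        mul_nonneg (mul_nonneg (hG0 _ (by omega) (by omega)) (ih (by omega))) p1.le
      rw [← h1] at h2
      have e1 : F - 1 + (k + 1) = F - 1 + k + 1 := by omega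
      rw [e1]
      by_contra hneg
      push Not at hneg
      have := mul_neg_of_neg_of_pos hneg p2
      linarith
  have hWn : ∀ j, F - 1 ≤ j → j ≤ J + 1 → 0 ≤ W j := by
    intro j h1 h2
    have h3 := hW0 (j - (F - 1)) (by omega)
    have e1 : F - 1 + (j - (F - 1)) = j := by omega
    rw [e1] at h3
    exact h3
  have hWF1 : W F = G (F - 1) := by
    have h1 := hW (F - 1) le_rfl (by omega)
    have e1 : F - 1 + 1 = F := by omega
    rw [e1, mul_assoc, hWF] at h1
    exact mul_right_cancel₀ (hP F (by omega)).ne' h1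
  -- the descent of `T W`
  have hTW : ∀ j, F ≤ j → j ≤ J → T (j + 1) * W (j + 1) + L j * a j * W (j + 1) ≤ T j * W j := by
    intro j h1 h2
    have h3 : G j * (L j * a j + T (j + 1)) * P j ≤ T j * P (j + 1) := by
      rcases Nat.lt_or_ge F j with h4 | h4
      · exact (hR.mat j h4 h2).hT
      · have h5 : j = F := by omega
        rw [h5]
        exact hR.tF
    have h4 := hW j (by omega) h2
    have w0 := hWn j (by omega) (by omega)
    have p2 := hP (j + 1) (by omega)
    have h5 := mul_le_mul_of_nonneg_right h3 w0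
    have h6 : (T (j + 1) * W (j + 1) + L j * a j * W (j + 1)) * P (j + 1) ≤
        (T j * W j) * P (j + 1) := by
      have e1 : (T (j + 1) * W (j + 1) + L j * a j * W (j + 1)) * P (j + 1) =
          (L j * a j + T (j + 1)) * (W (j + 1) * P (j + 1)) := by ring
      rw [e1, h4]
      refine le_trans (le_of_eq ?_) (le_trans h5 (le_of_eq ?_))
      · ring
      · ring
    exact le_of_mul_le_mul_right h6 p2
  have hLaW : ∀ j, F ≤ j → j ≤ J → 0 ≤ L j * a j * W (j + 1) := by
    intro j h1 h2
    exact mul_nonneg (mul_nonneg (hR.L0 j) (hR.a0 j)) (hWn _ (by omega) (by omega))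
  have hmono : ∀ j, F ≤ j → j ≤ J → T (j + 1) * W (j + 1) ≤ T j * W j := by
    intro j h1 h2
    have := hTW j h1 h2
    have := hLaW j h1 h2
    linarith
  obtain ⟨Y, hY⟩ : ∃ Y : ℕ → ℝ, Y = fun j => if j ≤ F then T F * W F else
    if j ≤ J + 1 then T j * W j else 0 := ⟨_, rfl⟩
  have Y1 : ∀ j, j ≤ F → Y j = T F * W F := by
    intro j h1
    rw [hY]
    exact if_pos h1
  have Y2 : ∀ j, F ≤ j → j ≤ J + 1 → Y j = T j * W j := by
    intro j h1 h2
    rcases Nat.lt_or_ge F j with h3 | h3
    · rw [hY]
      dsimp only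
      rw [if_neg (by omega), if_pos h2]
    · have h5 : j = F := by omega
      rw [h5]
      exact Y1 F le_rfl
  have TW0 : 0 ≤ T F * W F := mul_nonneg (hR.T0 F) (hWn F (by omega) (by omega))
  have GF1 := hG0 (F - 1) (by omega) (by omega)
  have GF2 := hG0 (F - 2) (by omega) (by omega)
  have GF3 := hG0 (F - 3) (by omega) (by omega)
  have GF4 := hG0 (F - 4) (by omega) (by omega)
  refine ⟨a, L, U, Y, W, ?_, ?_⟩
  · exact
      { hF := hF9
        hFJ := hFJ
        hJn := hJn
        hF3 := hF
        hK := fun j h1 h2 => (hR.mat j h1 h2).hK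
        ha0 := hR.a0
        haJ := by
          rw [ha]
          obtain ⟨A, hA⟩ : ∃ A, (J + 1) * (e.x + 1) * D / (6 * (3 * q + 1 - J) * e.y) + 1 = A :=
            ⟨_, rfl⟩
          have hA' : (mInit D (3 * q) J e xx).a = A := hA
          rw [hA']
          obtain ⟨N1, hN1⟩ : ∃ N1, 3 * q + 1 - J = N1 := ⟨_, rfl⟩
          rw [hN1] at hA
          have cN1 : (((3 * q : ℕ) : ℝ) + 2 - ((J + 1 : ℕ) : ℝ)) = N1 := by
            have h : 3 * q + 1 = N1 + J := by omega
            have h' : ((3 * q + 1 : ℕ) : ℝ) = ((N1 + J : ℕ) : ℝ) := by rw [h]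
            push_cast at h' ⊢
            linarith
          have N1p : 0 < N1 := by omega
          have h1 := Nat.lt_mul_div_succ ((J + 1) * (e.x + 1) * D) (b := 6 * N1 * e.y)
            (by positivity)
          rw [hA] at h1
          have h2 : (((J + 1) * (e.x + 1) * D : ℕ) : ℝ) ≤ ((6 * N1 * e.y * A : ℕ) : ℝ) := by
            exact_mod_cast h1.le
          push_cast at h2
          have hx2 := hv.x2
          have hy1 := hv.y1
          rw [he] at hx2 hy1
          unfold cc
          have e2 : J + 1 - 2 = J - 1 := by omega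
          rw [cN1, e2]
          have p0 := hP J (by omega)
          have h3 : ((J : ℝ) + 1) * (D * P (J + 1)) ≤ ((J : ℝ) + 1) * (((e.x : ℝ) + 1) * P J) :=
            mul_le_mul_of_nonneg_left hx2 (by positivity)
          have h4 := mul_le_mul_of_nonneg_right h2 p0.le
          have h5 : (6 * (N1 : ℝ) * A) * ((e.y : ℝ) * P J) ≤ (6 * (N1 : ℝ) * A) * (D * P (J - 1)) :=
            mul_le_mul_of_nonneg_left hy1 (by positivity)
          have h6 : (((J : ℝ) + 1) * P (J + 1)) * D ^ 2 ≤
              ((A : ℝ) / D * (6 * N1 * P (J - 1))) * D ^ 2 := by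
            have e3 : ((A : ℝ) / D * (6 * N1 * P (J - 1))) * D ^ 2 =
                (6 * (N1 : ℝ) * A) * (D * P (J - 1)) := by
              field_simp
            rw [e3]
            refine le_trans (le_of_eq ?_) (le_trans (mul_le_mul_of_nonneg_right h3 hD.le)
              (le_trans (le_of_eq ?_) (le_trans h4 (le_trans (le_of_eq ?_) h5))))
            · ring
            · ring
            · ring
          exact le_of_mul_le_mul_right h6 (by positivity)
        ha := fun j h1 h2 => (hR.mat j h1 h2).ha
        hL0 := hR.L0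
        hUJ := by
          rw [hU]
          exact le_rfl
        hL := fun j h1 h2 => (hR.mat j h1 h2).hL
        hU := fun j h1 h2 => (hR.mat j h1 h2).hU
        hY0 := fun j => by
          rcases Nat.lt_or_ge F j with h3 | h3
          · rcases Nat.lt_or_ge (J + 1) j with h4 | h4
            · rw [hY]
              dsimp only
              rw [if_neg (by omega), if_neg (by omega)]
            · rw [Y2 j h3.le h4]
              exact mul_nonneg (hR.T0 j) (hWn j (by omega) h4)
          · rw [Y1 j h3]
            exact TW0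
        hY := fun j h1 h2 => by
          rw [Y2 (j + 1) (by omega) (by omega)]
          refine le_min ?_ ?_
          · rw [Y2 j h1 (by omega)]
            exact hTW j h1 h2
          · rcases Nat.lt_or_ge F j with h3 | h3
            · rw [Y2 (j - 1) (by omega) (by omega)]
              have h4 := hmono (j - 1) (by omega) (by omega)
              have e1 : j - 1 + 1 = j := by omega
              rw [e1] at h4
              exact le_trans (hTW j h1 h2) h4
            · have h5 : j = F := by omega
              rw [Y1 (j - 1) (by omega)]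
              subst h5
              exact hTW j h1 h2
        hW0 := by
          rw [hWF]
        hW := fun j h1 h2 => by
          rw [hW j (by omega) h2] }
  · exact
      { hr := by norm_num
        hs := by norm_num
        hc := fun j h1 h2 => by
          rcases Nat.lt_or_ge (3 * q) (3 * j) with h3 | h3
          · exact hR.cf j h3 h2
          · refine ⟨fun _ => ?_, fun h4 => absurd h4 (by omega)⟩
            rw [max_self]
            have h5 : ((3 * j : ℕ) : ℝ) ≤ ((3 * q : ℕ) : ℝ) := by exact_mod_cast h3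
            push_cast at h5 ⊢
            linarith
        hY1 := by
          rw [Y1 F le_rfl, hWF1]
          have h1 := mul_le_mul_of_nonneg_right hR.y1 (mul_nonneg GF2 GF3)
          linarith
        hY2 := by
          rw [Y1 (F - 1) (by omega), hWF1]
          have h1 := mul_le_mul_of_nonneg_right hR.y2 (mul_nonneg GF3 GF4)
          have h2 : 0 ≤ (F : ℝ) * P F := by
            have := hP F (by omega)
            positivity
          linarith }

/-- The result of the upper run, down from level `j`. -/
structure URes (n J F j : ℕ) (P G e f X : ℕ → ℝ) (x : ℝ) : Prop where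
  e0 : ∀ i, 0 ≤ e i
  e1 : ∀ i, e i ≤ 1
  f0 : ∀ i, 0 ≤ f i
  up : ∀ i, J < i → i ≤ j → UpAt n J i P G (e i) (e (i + 1)) (f i) (f (i + 1)) (X i) (X (i + 1))
  ux : J < j → UpX n (J + 1) P G (f (J + 2)) (X (J + 2)) x
  ml : ML n J F P G x

theorem u_run {D q J F : ℕ} (hDp : 0 < D) (hq : 25 ≤ q) {P G : ℕ → ℝ}
    (hP : ∀ j, j ≤ 3 * q → 0 < P j) (hPn : 0 ≤ P (3 * q + 1))
    (hG0 : ∀ i, 5 ≤ i → i ≤ 3 * q → 0 ≤ G i)
    (hF9 : 9 ≤ F) (hF : 3 * q < 3 * F) (hFJ : F ≤ J) (hJn : J < 3 * q) :
    ∀ (l : List Ent) (j : ℕ) (s : USt), J ≤ j → j ≤ 3 * q → Al (Val D (3 * q) P G) j l →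
      s.e ≤ D → (j < 3 * q → D * G (j + 1) ≤ s.g) →
      uRun D (3 * q) J F l s = true → ∃ (e f X : ℕ → ℝ) (x : ℝ), URes (3 * q) J F j P G e f X x ∧
        e (j + 1) = s.e / D ∧ f (j + 1) = s.f / D ∧ X (j + 1) = s.X / D ∧
        (j = J → x = s.xx / D) := by
  have hD : (0 : ℝ) < D := by exact_mod_cast hDp
  intro l
  induction l with
  | nil =>
    intro j s _ _ _ _ _ h
    exact absurd h (by simp [uRun])
  | cons b l ih =>
    intro j s hJj hjn hal hse hsg h
    have hal0 := hal
    obtain ⟨hb, hv, hal'⟩ := hal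
    have hse' : (s.e : ℝ) / D ≤ 1 := by
      rw [div_le_one hD]
      exact_mod_cast hse
    rw [uRun] at h
    rcases Nat.lt_or_ge J b.j with h1 | h1
    · rw [ble_f h1] at h
      simp only [cond_false, Bool.and_eq_true] at h
      obtain ⟨h2, h3⟩ := h
      have hM := up_one hDp hP hPn hv (by omega) (by omega) h2 (by
        intro h4
        rw [hb] at h4 ⊢
        exact ⟨hG0 _ (by omega) (by omega), hsg h4⟩)
      rw [hb] at hM
      obtain ⟨hM1, hM2⟩ := hM
      have g1 := hv.g1 (by omega)
      rw [hb] at g1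
      have ej : j - 1 + 1 = j := by omega
      have he' : (uStep D (3 * q) J b s).e ≤ D := by
        have := hM1.he1
        rw [div_le_one hD] at this
        exact_mod_cast this
      obtain ⟨e, f, X, x, hR, he, hf, hX, hx⟩ := ih (j - 1) (uStep D (3 * q) J b s) (by omega)
        (by omega) hal' he' (by intro _; rw [ej]; exact g1) h3
      rw [ej] at he hf hX
      refine ⟨fun i => if i = j + 1 then s.e / D else e i,
        fun i => if i = j + 1 then s.f / D else f i,
        fun i => if i = j + 1 then s.X / D else X i, x, ?_, if_pos rfl, if_pos rfl, if_pos rfl,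
        fun h4 => by omega⟩
      exact
        { e0 := fun i => by
            split_ifs
            · positivity
            · exact hR.e0 i
          e1 := fun i => by
            split_ifs
            · exact hse'
            · exact hR.e1 i
          f0 := fun i => by
            split_ifs
            · positivity
            · exact hR.f0 i
          up := fun i hi hij => by
            rcases Nat.lt_or_ge i j with h4 | h4
            · have e3 : i + 1 ≠ j + 1 := by omega
              have e4 : i ≠ j + 1 := by omega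
              simp only [if_neg e3, if_neg e4]
              exact hR.up i hi (by omega)
            · have h5 : i = j := by omega
              subst h5
              have e4 : i ≠ i + 1 := by omega
              simp only [if_neg e4, if_true]
              rw [he, hf, hX]
              exact hM1
          ux := fun _ => by
            rcases Nat.lt_or_ge (J + 1) j with h4 | h4
            · have e3 : J + 2 ≠ j + 1 := by omega
              simp only [if_neg e3]
              exact hR.ux (by omega)
            · have h5 : j = J + 1 := by omega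
              have e3 : J + 2 = j + 1 := by omega
              simp only [if_pos e3]
              rw [hx (by omega), ← h5]
              exact hM2
          ml := hR.ml }
    · rw [Nat.ble_eq_true_of_le h1] at h
      simp only [cond_true, Bool.and_eq_true] at h
      obtain ⟨h2, h3, h4⟩ := h
      have h5 : b.j = J := Nat.eq_of_beq_eq_true h2
      have h6 : j = J := by omega
      subst h6
      have h7 := mid_low hDp hq hP hG0 hF9 hF hFJ hJn b l hal0 s.xx (Nat.le_of_ble_eq_true h3) h4
      refine ⟨fun _ => s.e / D, fun _ => s.f / D, fun _ => s.X / D, s.xx / D, ?_, rfl, rfl, rfl,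
        fun _ => rfl⟩
      exact
        { e0 := fun i => by positivity
          e1 := fun i => hse'
          f0 := fun i => by positivity
          up := fun i hi hij => by omega
          ux := fun h8 => by omega
          ml := h7 }

theorem check_sound {D : ℕ} (ka : Bool) {q J F : ℕ} (hDp : 0 < D) (hq : 25 ≤ q)
    {P E d G : ℕ → ℝ} (h : Sys (3 * q) P E d) (hG0 : ∀ i, 5 ≤ i → i ≤ 3 * q → 0 ≤ G i)
    (hal : Al (Val D (3 * q) P G) (3 * q) (gen D ka (3 * q) (3 * q - 1) 2 1 (9 * q)
      ((9 * (3 * q) ^ 2 - 15 * (3 * q)) / 2) []))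
    (hc : check D ka q J F = true) : Good (3 * q) P G := by
  have hD : (0 : ℝ) < D := by exact_mod_cast hDp
  unfold check at hc
  simp only [Bool.and_eq_true] at hc
  obtain ⟨⟨k1, k2, k3, k4, k5⟩, hr⟩ := hc
  have k1' := Nat.le_of_ble_eq_true k1
  have k2' := Nat.le_of_ble_eq_true k2
  have k3' := Nat.le_of_ble_eq_true k3
  have k4' := Nat.le_of_ble_eq_true k4
  have k5' := Nat.le_of_ble_eq_true k5
  obtain ⟨e, f, X, x, hR, he, hf, hX, -⟩ := u_run hDp hq h.P_pos
    (h.P_zero (3 * q + 1) (by omega)).symm.le hG0 k1' (by omega) k2' (by omega) _ (3 * q) _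
    (by omega) le_rfl hal (Nat.zero_le _) (fun h1 => absurd h1 (by omega)) hr
  obtain ⟨a, L, U, Y, W, hM, hL⟩ := hR.ml
  refine ⟨J, F, e, f, X, a, L, U, Y, W, x, 2, 2, ?_, hM, hL⟩
  exact
    { hJ := k5'
      hJn := by omega
      hK := fun j h1 h2 => (hR.up j h1 h2).hK
      hR := fun j h1 h2 => (hR.up j (by omega) h2).hR h1
      he := fun j h1 h2 => (hR.up j h1 h2).he
      hf := fun j h1 h2 => (hR.up j h1 h2).hf
      he0 := hR.e0
      he1 := hR.e1
      hf0 := hR.f0
      hXn := (hR.up (3 * q) (by omega) le_rfl).hXn rfl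
      hX := fun j h1 h2 => (hR.up j h1 h2.le).hX h2
      hρ := fun j h1 h2 => (hR.up j h1 h2).hρ
      hs := fun j h1 h2 => (hR.up j h1 h2).hs
      hx := hR.ux (by omega) }

theorem checks_sound {D : ℕ} {ka : Bool} : ∀ (l : List (ℕ × ℕ)) (q : ℕ),
    checks D ka q l = true → ∀ q', q ≤ q' → q' < q + l.length →
      ∃ J F, check D ka q' J F = true := by
  intro l
  induction l with
  | nil =>
    intro q _ q' h1 h2
    rw [List.length_nil] at h2
    omega
  | cons p l ih =>
    intro q h q' h1 h2
    rw [checks] at h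
    simp only [Bool.and_eq_true] at h
    obtain ⟨h3, h4⟩ := h
    rw [List.length_cons] at h2
    rcases Nat.lt_or_ge q q' with h5 | h5
    · exact ih (q + 1) h4 q' (by omega) (by omega)
    · have h6 : q' = q := by omega
      rw [h6]
      exact ⟨_, _, h3⟩

theorem sound_a {D q J F : ℕ} (hDp : 0 < D) (hq : 25 ≤ q) (hc : check D false q J F = true)
    {P E d : ℕ → ℝ} (h : Sys (3 * q) P E d) : Good (3 * q) P (G2 (3 * q)) :=
  check_sound false hDp hq h (fun _ h5 hj => (G2_le (D := D) (by omega) h5 hj).1) (gen_a h hq) hc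

theorem GA_nonneg {n j : ℕ} {P : ℕ → ℝ} (hP : ∀ j, j ≤ n → 0 < P j) (hn : 600 ≤ n)
    (h5 : 5 ≤ j) (hj : j ≤ n) : 0 ≤ GA n P j := by
  unfold GA
  split_ifs with h1 h2
  · exact (G2_le (D := 1) (by omega) h5 hj).1
  · exact div_nonneg (hP _ (by omega)).le (hP _ (by omega)).le
  · exact (Gt_le (D := 1) h5 hj).1

theorem sound_b {D q J F : ℕ} (hDp : 0 < D) (hq : 200 ≤ q) (hc : check D true q J F = true)
    {P E d : ℕ → ℝ} (h : Sys (3 * q) P E d) : Good (3 * q) P (GA (3 * q) P) :=
  check_sound true hDp (by omega) h (fun _ h5 hj => GA_nonneg h.P_pos (by omega) h5 hj)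
    (gen_b h hq) hc

end Pool.Agent.Lib.MP_eeed5c_coC
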