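import Pool.Agent.Lib.MP_eeed5c_co_C.CkA

/-!
# The finite computation: a form of `check` which is fast in the kernel
-/

set_option autoImplicit false

namespace Pool.Agent.Lib.MP_eeed5c_coC

/-- `nextP`, in a form which is fast in the kernel. -/
def nextPF (n j p0 p1 p2 : ℕ) : ℕ :=
  (Nat.div (Nat.sub (Nat.add (Nat.add (Nat.mul (Nat.mul (nat_lit 3) n) p2) (Nat.mul (Nat.add
    (Nat.mul (nat_lit 12) n) (nat_lit 18)) p1)) (Nat.mul (Nat.add (Nat.mul (nat_lit 6) n)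
      (nat_lit 12)) p0)) (Nat.mul (Nat.add (Nat.add (Nat.mul (nat_lit 9) p2) (Nat.mul (nat_lit
        18) p1)) (Nat.mul (nat_lit 6) p0)) j)) (Nat.add j (nat_lit 1)))

/-- `okP`, fast. -/
def okPF (n j p0 p1 p2 p3 : ℕ) : Bool :=
  Nat.beq (Nat.add (Nat.mul (Nat.add j (nat_lit 1)) p3) (Nat.mul (Nat.add (Nat.add (Nat.mul
    (nat_lit 9) p2) (Nat.mul (nat_lit 18) p1)) (Nat.mul (nat_lit 6) p0)) j))
    (Nat.add (Nat.add (Nat.mul (Nat.mul (nat_lit 3) n) p2) (Nat.mul (Nat.add (Nat.mul (nat_lit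
      12) n) (nat_lit 18)) p1)) (Nat.mul (Nat.add (Nat.mul (nat_lit 6) n) (nat_lit 12)) p0))

/-- `g2`, fast. -/
def g2F (D n j : ℕ) : ℕ :=
  (Nat.add (Nat.div (Nat.mul (Nat.mul D (Nat.sub (Nat.add (Nat.mul (nat_lit 2) n) (nat_lit 3))
    (Nat.mul (nat_lit 2) j))) (Nat.sub (Nat.sub (Nat.mul (nat_lit 6) n) (Nat.mul (nat_lit 4) j))
      (nat_lit 1))) (Nat.mul (Nat.mul (nat_lit 2) (Nat.sub (Nat.mul (nat_lit 2) n) (nat_lit 7)))
        (Nat.sub j (nat_lit 4)))) (nat_lit 1))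

/-- `gt`, fast. -/
def gtF (D n j : ℕ) : ℕ :=
  (Nat.add (Nat.div (Nat.mul (Nat.mul D (nat_lit 3)) (Nat.sub (Nat.add (Nat.mul (nat_lit 2) n)
    (nat_lit 3)) (Nat.mul (nat_lit 2) j))) (Nat.mul (nat_lit 2) (Nat.sub j (nat_lit 4))))
      (nat_lit 1))

/-- `ga`, fast. -/
def gaF (D n j : ℕ) (acc : List Ent) : ℕ :=
  cond (Nat.ble (Nat.add (Nat.mul (nat_lit 32) n) (nat_lit 500)) (Nat.mul (nat_lit 100) j))
    (cond (Nat.ble (Nat.mul (nat_lit 5) j) (Nat.mul (nat_lit 4) n))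
      (match acc with
      | b0 :: _ :: _ :: _ :: b4 :: _ =>
        cond (Nat.ble (Nat.sub j (nat_lit 5)) (Nat.div (Nat.mul (nat_lit 33) n) (nat_lit 50)))
          (Nat.add b4.x (nat_lit 1)) b0.g
      | _ => nat_lit 0)
      (gtF D n j))
    (g2F D n j)

/-- `gen`, fast. -/
def genF (D : ℕ) (ka : Bool) (n : ℕ) : ℕ → ℕ → ℕ → ℕ → ℕ → List Ent → List Ent
  | 0, _, _, _, _, acc => acc
  | k + 1, j, p0, p1, p2, acc =>
    cond (okPF n j p0 p1 p2 (nextPF n j p0 p1 p2))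
      (genF D ka n k (Nat.add j (nat_lit 1)) p1 p2 (nextPF n j p0 p1 p2)
        (⟨j, Nat.div (Nat.mul D (nextPF n j p0 p1 p2)) p2, (Nat.div (Nat.mul D p1) p2), (Nat.div
          (Nat.mul D p0) p1),
          cond ka (gaF D n j acc) (g2F D n j)⟩ :: acc))
      []

/-- Part of `uStep`, fast. -/
def uC (D n J j x z g e f X m w2 c1 b b' c c' r t e' f' : ℕ) : USt :=
  { e := e'
    f := f'
    X := X
    g := g
    xx := (Nat.add (Nat.add D (Nat.add (Nat.div (Nat.mul (Nat.mul (Nat.add (Nat.sub b' c)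
      (Nat.sub c' b)) (Nat.add D f)) g) (Nat.mul c1 D)) (nat_lit 1))) t)
    ok := and (Nat.ble (Nat.mul m (Nat.pow D (nat_lit 2))) w2)
      (and (or (Nat.ble j (Nat.add J (nat_lit 1))) (Nat.ble (Nat.mul (Nat.mul (Nat.mul (nat_lit
        32) j) (Nat.sub (Nat.add n (nat_lit 2)) j)) (Nat.add z (nat_lit 1)))
        (Nat.mul (Nat.sub m (nat_lit 3)) (Nat.add (Nat.mul (Nat.mul (nat_lit 12) (Nat.add j
          (nat_lit 1))) x) (Nat.mul (Nat.mul (nat_lit 9) m) D)))))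
      (and (Nat.ble e' D) (and (Nat.ble r (Nat.mul (Nat.mul (nat_lit 9) m) D))
      (Nat.ble (Nat.add (Nat.add (Nat.div (Nat.mul (Nat.add (Nat.mul (Nat.sub b' c) (Nat.add D
        f)) (Nat.mul (Nat.sub c' b) e)) g) (Nat.mul c1 D)) (nat_lit 1)) t) D)))) }

/-- Part of `uStep`, fast. -/
def uB (D n J j x y z g e f X gg m c1 c' r : ℕ) : USt :=
  uC D n J j x z g e f 
    (cond (Nat.ble n j) D
      (Nat.add (Nat.add D f) (Nat.add (Nat.div (Nat.mul (Nat.mul (Nat.mul (Nat.mul r X) gg)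
        (Nat.sub (Nat.add n (nat_lit 1)) j)) (Nat.add y (nat_lit 1))) (Nat.mul (Nat.mul (Nat.mul
          (nat_lit 9) m) (Nat.sub n j)) (Nat.pow D (nat_lit 3)))) (nat_lit 1))))
    m (Nat.mul (Nat.mul (Nat.mul (nat_lit 2) (Nat.sub (Nat.add n (nat_lit 2)) j)) y) z) c1
    (Nat.add (Nat.mul (Nat.add j (nat_lit 1)) x) (Nat.mul (Nat.mul (nat_lit 3) m) D)) (Nat.add
      (Nat.mul (Nat.add j (nat_lit 1)) (Nat.add x (nat_lit 1))) (Nat.mul (Nat.mul (nat_lit 3) m)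
        D))
    (Nat.div (Nat.mul (Nat.mul (Nat.mul (nat_lit 6) (Nat.sub (Nat.add n (nat_lit 2)) j)) y) z) D)
      c' r
    (cond (Nat.ble n j) (nat_lit 0)
      (Nat.add (Nat.div (Nat.mul (Nat.mul (Nat.mul (Nat.mul c' r) X) g) gg) (Nat.mul (Nat.mul
        (Nat.mul (nat_lit 54) m) (Nat.sub n j)) (Nat.pow D (nat_lit 4)))) (nat_lit 1)))
    (Nat.sub (Nat.add (Nat.div (Nat.mul (Nat.mul (Nat.mul (nat_lit 3) m) g) (Nat.add D f)) c1)
      (nat_lit 1)) D) (Nat.add (Nat.div (Nat.mul (Nat.mul (Nat.mul (nat_lit 3) m) g) e) c1)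
        (nat_lit 1))

/-- Part of `uStep`, fast. -/
def uA (D n J j x y z g e f X gg : ℕ) : USt :=
  uB D n J j x y z g e f X gg (Nat.sub (Nat.mul (nat_lit 3) j) n) (Nat.mul (Nat.mul (nat_lit 6)
    (Nat.sub (Nat.add n (nat_lit 1)) j)) y)
    (Nat.add (Nat.div (Nat.mul (Nat.mul (Nat.mul (nat_lit 6) (Nat.sub (Nat.add n (nat_lit 2)) j))
      (Nat.add y (nat_lit 1))) (Nat.add z (nat_lit 1))) D) (nat_lit 1)) (Nat.mul (Nat.mul
        (nat_lit 4) (Nat.add j (nat_lit 1))) (Nat.add x (nat_lit 1)))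

/-- The main part of `uStep`, fast. -/
def uStepF (D n J : ℕ) (a : Ent) (s : USt) : USt :=
  uA D n J a.j a.x a.y a.z a.g s.e s.f s.X s.g

/-- `mStep`, fast. -/
def mB (D n j x y z g a L U T b v1 m : ℕ) : MSt :=
  { a := (Nat.add (Nat.div (Nat.mul j (Nat.pow D (nat_lit 2))) (Nat.sub b v1)) (nat_lit 1))
    L := (Nat.sub (Nat.add (Nat.div (Nat.mul (Nat.mul a g) U) (Nat.pow D (nat_lit 2))) (nat_lit
      1)) D)
    U := (Nat.add D (Nat.add (Nat.div (Nat.mul (Nat.mul a g) L) (Nat.pow D (nat_lit 2))) (nat_lit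
      1)))
    T := (Nat.div (Nat.sub (Nat.add (Nat.mul g (Nat.add (Nat.mul L a) (Nat.mul T D))) (Nat.mul x
      D)) (nat_lit 1)) (Nat.mul x D))
    ok := and (Nat.ble (Nat.mul (Nat.mul (Nat.mul (nat_lit 2) (Nat.sub (Nat.add n (nat_lit 2))
      j)) (Nat.add y (nat_lit 1))) (Nat.add z (nat_lit 1))) (Nat.mul m (Nat.pow D (nat_lit 2))))
      (and (Nat.ble (Nat.add v1 (nat_lit 1)) b) (Nat.ble (nat_lit 1) x)) }

/-- `mStep`, fast. -/
def mA (D n j x y z g a L U T m v1 v2 : ℕ) : MSt :=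
  mB D n j x y z g a L U T (Nat.add (Nat.mul (Nat.add j (nat_lit 1)) x) (Nat.mul (Nat.mul
    (nat_lit 3) m) D)) (cond (Nat.ble v1 v2) v1 v2) m

/-- `mStep`, fast. -/
def mStepF (D n : ℕ) (a : Ent) (s : MSt) : MSt :=
  mA D n a.j a.x a.y a.z a.g s.a s.L s.U s.T (Nat.sub (Nat.mul (nat_lit 3) a.j) n)
    (Nat.add (Nat.div (Nat.mul (Nat.mul s.a (Nat.mul (nat_lit 6) (Nat.sub (Nat.add n (nat_lit 1))
      a.j))) (Nat.add a.y (nat_lit 1))) D) (nat_lit 1)) (Nat.mul (Nat.add a.j (nat_lit 1))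
        (Nat.add a.x (nat_lit 1)))

/-- `mRun`, fast. -/
def mRunF (D n F : ℕ) : List Ent → MSt → Bool
  | a :: l, s => cond (Nat.ble a.j F) (and (Nat.beq a.j F) (lTest D n (a :: l) s))
      (and (mStepF D n a s).ok (mRunF D n F l (mStepF D n a s)))
  | [], _ => false

/-- `uRun`, fast. -/
def uRunF (D n J F : ℕ) : List Ent → USt → Bool
  | a :: l, s => cond (Nat.ble a.j J)
      (and (Nat.beq a.j J) (and (Nat.ble (nat_lit 1) a.y)
        (mRunF D n F (a :: l) (mInit D n J a s.xx))))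
      (and (uStepF D n J a s).ok (uRunF D n J F l (uStepF D n J a s)))
  | [], _ => false

/-- `check`, fast. -/
def checkF (D : ℕ) (ka : Bool) (q J F : ℕ) : Bool :=
  (Nat.ble 9 F && (Nat.ble F J && (Nat.ble (J + 1) (3 * q) && (Nat.ble (3 * q + 1) (3 * F) &&
    Nat.ble (3 * q) (2 * J))))) &&
  uRunF D (3 * q) J F
    (genF D ka (3 * q) (3 * q - 1) 2 1 (9 * q) ((9 * (3 * q) ^ 2 - 15 * (3 * q)) / 2) [])
    ⟨0, 0, 0, 0, 0, true⟩

theorem nextPF_eq (n j p0 p1 p2 : ℕ) : nextPF n j p0 p1 p2 = nextP n j p0 p1 p2 := rfl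

theorem okPF_eq (n j p0 p1 p2 p3 : ℕ) : okPF n j p0 p1 p2 p3 = okP n j p0 p1 p2 p3 := rfl

theorem g2F_eq (D n j : ℕ) : g2F D n j = g2 D n j := rfl

theorem gaF_eq (D n j : ℕ) (acc : List Ent) : gaF D n j acc = ga D n j acc := rfl

theorem genF_eq (D : ℕ) (ka : Bool) (n : ℕ) : ∀ (k j p0 p1 p2 : ℕ) (acc : List Ent),
    genF D ka n k j p0 p1 p2 acc = gen D ka n k j p0 p1 p2 acc := by
  intro k
  induction k with
  | zero => intros; rfl
  | succ k ih =>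
    intro j p0 p1 p2 acc
    rw [genF, gen, ih, nextPF_eq, okPF_eq, gaF_eq, g2F_eq]
    rfl

theorem uStepF_eq (D n J : ℕ) (a : Ent) (s : USt) : uStepF D n J a s = uStep D n J a s := rfl

theorem cond_min (v1 v2 : ℕ) : cond (Nat.ble v1 v2) v1 v2 = min v1 v2 := by
  rcases Nat.lt_or_ge v2 v1 with h | h
  · have h' : Nat.ble v1 v2 = false := by
      rw [Bool.eq_false_iff]
      intro h'
      exact absurd (Nat.le_of_ble_eq_true h') (by omega)
    rw [h', min_eq_right h.le]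
    rfl
  · rw [Nat.ble_eq_true_of_le h, min_eq_left h]
    rfl

theorem mStepF_eq (D n : ℕ) (a : Ent) (s : MSt) : mStepF D n a s = mStep D n a s := by
  unfold mStepF mA
  rw [cond_min]
  rfl

theorem mRunF_eq (D n F : ℕ) : ∀ (l : List Ent) (s : MSt), mRunF D n F l s = mRun D n F l s := by
  intro l
  induction l with
  | nil => intro s; rfl
  | cons a l ih =>
    intro s
    rw [mRunF, mRun, ih, mStepF_eq]

theorem uRunF_eq (D n J F : ℕ) : ∀ (l : List Ent) (s : USt),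
    uRunF D n J F l s = uRun D n J F l s := by
  intro l
  induction l with
  | nil => intro s; rfl
  | cons a l ih =>
    intro s
    rw [uRunF, uRun, ih, uStepF_eq, mRunF_eq]

theorem checkF_eq (D : ℕ) (ka : Bool) (q J F : ℕ) : checkF D ka q J F = check D ka q J F := by
  unfold checkF check
  rw [uRunF_eq, genF_eq]

end Pool.Agent.Lib.MP_eeed5c_coC
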