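import Pool.Agent.Lib.MP_eeed5c_co_C.CkG

/-!
# The finite computation for `25 ≤ q < 200`
-/

set_option autoImplicit false
set_option maxRecDepth 100000

namespace Pool.Agent.Lib.MP_eeed5c_coC

theorem ck25 : checkF 1099511627776 false 25 49 28 = true := by decide +kernel
theorem ck26 : checkF 1099511627776 false 26 51 29 = true := by decide +kernel
theorem ck27 : checkF 1099511627776 false 27 52 30 = true := by decide +kernel
theorem ck28 : checkF 1099511627776 false 28 54 31 = true := by decide +kernel
theorem ck29 : checkF 1099511627776 false 29 56 32 = true := by decide +kernel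
theorem ck30 : checkF 1099511627776 false 30 58 33 = true := by decide +kernel
theorem ck31 : checkF 1099511627776 false 31 60 34 = true := by decide +kernel
theorem ck32 : checkF 1099511627776 false 32 62 35 = true := by decide +kernel
theorem ck33 : checkF 1099511627776 false 33 64 36 = true := by decide +kernel
theorem ck34 : checkF 1099511627776 false 34 66 37 = true := by decide +kernel
theorem ck35 : checkF 1099511627776 false 35 68 38 = true := by decide +kernel
theorem ck36 : checkF 1099511627776 false 36 70 39 = true := by decide +kernel
theorem ck37 : checkF 1099511627776 false 37 72 41 = true := by decide +kernel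
theorem ck38 : checkF 1099511627776 false 38 74 42 = true := by decide +kernel
theorem ck39 : checkF 1099511627776 false 39 75 43 = true := by decide +kernel
theorem ck40 : checkF 1099511627776 false 40 77 44 = true := by decide +kernel
theorem ck41 : checkF 1099511627776 false 41 79 45 = true := by decide +kernel
theorem ck42 : checkF 1099511627776 false 42 81 46 = true := by decide +kernel
theorem ck43 : checkF 1099511627776 false 43 83 47 = true := by decide +kernel
theorem ck44 : checkF 1099511627776 false 44 85 48 = true := by decide +kernel
theorem ck45 : checkF 1099511627776 false 45 87 49 = true := by decide +kernel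
theorem ck46 : checkF 1099511627776 false 46 89 50 = true := by decide +kernel
theorem ck47 : checkF 1099511627776 false 47 91 51 = true := by decide +kernel
theorem ck48 : checkF 1099511627776 false 48 93 52 = true := by decide +kernel
theorem ck49 : checkF 1099511627776 false 49 95 54 = true := by decide +kernel
theorem ck50 : checkF 1099511627776 false 50 97 55 = true := by decide +kernel
theorem ck51 : checkF 1099511627776 false 51 98 56 = true := by decide +kernel
theorem ck52 : checkF 1099511627776 false 52 100 57 = true := by decide +kernel
theorem ck53 : checkF 1099511627776 false 53 102 58 = true := by decide +kernel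
theorem ck54 : checkF 1099511627776 false 54 104 59 = true := by decide +kernel
theorem ck55 : checkF 1099511627776 false 55 106 60 = true := by decide +kernel
theorem ck56 : checkF 1099511627776 false 56 108 61 = true := by decide +kernel
theorem ck57 : checkF 1099511627776 false 57 110 62 = true := by decide +kernel
theorem ck58 : checkF 1099511627776 false 58 112 63 = true := by decide +kernel
theorem ck59 : checkF 1099511627776 false 59 114 64 = true := by decide +kernel
theorem ck60 : checkF 1099511627776 false 60 116 65 = true := by decide +kernel
theorem ck61 : checkF 1099511627776 false 61 118 67 = true := by decide +kernel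
theorem ck62 : checkF 1099511627776 false 62 120 68 = true := by decide +kernel
theorem ck63 : checkF 1099511627776 false 63 121 69 = true := by decide +kernel
theorem ck64 : checkF 1099511627776 false 64 123 70 = true := by decide +kernel
theorem ck65 : checkF 1099511627776 false 65 125 71 = true := by decide +kernel
theorem ck66 : checkF 1099511627776 false 66 127 72 = true := by decide +kernel
theorem ck67 : checkF 1099511627776 false 67 129 73 = true := by decide +kernel
theorem ck68 : checkF 1099511627776 false 68 131 74 = true := by decide +kernel
theorem ck69 : checkF 1099511627776 false 69 133 75 = true := by decide +kernel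
theorem ck70 : checkF 1099511627776 false 70 135 76 = true := by decide +kernel
theorem ck71 : checkF 1099511627776 false 71 137 77 = true := by decide +kernel
theorem ck72 : checkF 1099511627776 false 72 139 78 = true := by decide +kernel
theorem ck73 : checkF 1099511627776 false 73 141 80 = true := by decide +kernel
theorem ck74 : checkF 1099511627776 false 74 143 81 = true := by decide +kernel
theorem ck75 : checkF 1099511627776 false 75 144 82 = true := by decide +kernel
theorem ck76 : checkF 1099511627776 false 76 146 83 = true := by decide +kernel
theorem ck77 : checkF 1099511627776 false 77 148 84 = true := by decide +kernel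
theorem ck78 : checkF 1099511627776 false 78 150 85 = true := by decide +kernel
theorem ck79 : checkF 1099511627776 false 79 152 86 = true := by decide +kernel
theorem ck80 : checkF 1099511627776 false 80 154 87 = true := by decide +kernel
theorem ck81 : checkF 1099511627776 false 81 156 88 = true := by decide +kernel
theorem ck82 : checkF 1099511627776 false 82 158 89 = true := by decide +kernel
theorem ck83 : checkF 1099511627776 false 83 160 90 = true := by decide +kernel
theorem ck84 : checkF 1099511627776 false 84 162 91 = true := by decide +kernel
theorem ck85 : checkF 1099511627776 false 85 164 93 = true := by decide +kernel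
theorem ck86 : checkF 1099511627776 false 86 166 94 = true := by decide +kernel
theorem ck87 : checkF 1099511627776 false 87 167 95 = true := by decide +kernel
theorem ck88 : checkF 1099511627776 false 88 169 96 = true := by decide +kernel
theorem ck89 : checkF 1099511627776 false 89 171 97 = true := by decide +kernel
theorem ck90 : checkF 1099511627776 false 90 173 98 = true := by decide +kernel
theorem ck91 : checkF 1099511627776 false 91 175 99 = true := by decide +kernel
theorem ck92 : checkF 1099511627776 false 92 177 100 = true := by decide +kernel
theorem ck93 : checkF 1099511627776 false 93 179 101 = true := by decide +kernel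
theorem ck94 : checkF 1099511627776 false 94 181 102 = true := by decide +kernel
theorem ck95 : checkF 1099511627776 false 95 183 103 = true := by decide +kernel
theorem ck96 : checkF 1099511627776 false 96 185 104 = true := by decide +kernel
theorem ck97 : checkF 1099511627776 false 97 187 106 = true := by decide +kernel
theorem ck98 : checkF 1099511627776 false 98 189 107 = true := by decide +kernel
theorem ck99 : checkF 1099511627776 false 99 190 108 = true := by decide +kernel
theorem ck100 : checkF 1099511627776 false 100 192 109 = true := by decide +kernel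
theorem ck101 : checkF 1099511627776 false 101 194 110 = true := by decide +kernel
theorem ck102 : checkF 1099511627776 false 102 196 111 = true := by decide +kernel
theorem ck103 : checkF 1099511627776 false 103 198 112 = true := by decide +kernel
theorem ck104 : checkF 1099511627776 false 104 200 113 = true := by decide +kernel
theorem ck105 : checkF 1099511627776 false 105 202 114 = true := by decide +kernel
theorem ck106 : checkF 1099511627776 false 106 204 115 = true := by decide +kernel
theorem ck107 : checkF 1099511627776 false 107 206 116 = true := by decide +kernel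
theorem ck108 : checkF 1099511627776 false 108 208 117 = true := by decide +kernel
theorem ck109 : checkF 1099511627776 false 109 210 119 = true := by decide +kernel
theorem ck110 : checkF 1099511627776 false 110 212 120 = true := by decide +kernel
theorem ck111 : checkF 1099511627776 false 111 213 121 = true := by decide +kernel
theorem ck112 : checkF 1099511627776 false 112 215 122 = true := by decide +kernel
theorem ck113 : checkF 1099511627776 false 113 217 123 = true := by decide +kernel
theorem ck114 : checkF 1099511627776 false 114 219 124 = true := by decide +kernel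
theorem ck115 : checkF 1099511627776 false 115 221 125 = true := by decide +kernel
theorem ck116 : checkF 1099511627776 false 116 223 126 = true := by decide +kernel
theorem ck117 : checkF 1099511627776 false 117 225 127 = true := by decide +kernel
theorem ck118 : checkF 1099511627776 false 118 227 128 = true := by decide +kernel
theorem ck119 : checkF 1099511627776 false 119 229 129 = true := by decide +kernel
theorem ck120 : checkF 1099511627776 false 120 231 130 = true := by decide +kernel
theorem ck121 : checkF 1099511627776 false 121 233 132 = true := by decide +kernel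
theorem ck122 : checkF 1099511627776 false 122 235 133 = true := by decide +kernel
theorem ck123 : checkF 1099511627776 false 123 236 134 = true := by decide +kernel
theorem ck124 : checkF 1099511627776 false 124 238 135 = true := by decide +kernel
theorem ck125 : checkF 1099511627776 false 125 240 136 = true := by decide +kernel
theorem ck126 : checkF 1099511627776 false 126 242 137 = true := by decide +kernel
theorem ck127 : checkF 1099511627776 false 127 244 138 = true := by decide +kernel
theorem ck128 : checkF 1099511627776 false 128 246 139 = true := by decide +kernel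
theorem ck129 : checkF 1099511627776 false 129 248 140 = true := by decide +kernel
theorem ck130 : checkF 1099511627776 false 130 250 141 = true := by decide +kernel
theorem ck131 : checkF 1099511627776 false 131 252 142 = true := by decide +kernel
theorem ck132 : checkF 1099511627776 false 132 254 143 = true := by decide +kernel
theorem ck133 : checkF 1099511627776 false 133 256 145 = true := by decide +kernel
theorem ck134 : checkF 1099511627776 false 134 258 146 = true := by decide +kernel
theorem ck135 : checkF 1099511627776 false 135 259 147 = true := by decide +kernel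
theorem ck136 : checkF 1099511627776 false 136 261 148 = true := by decide +kernel
theorem ck137 : checkF 1099511627776 false 137 263 149 = true := by decide +kernel
theorem ck138 : checkF 1099511627776 false 138 265 150 = true := by decide +kernel
theorem ck139 : checkF 1099511627776 false 139 267 151 = true := by decide +kernel
theorem ck140 : checkF 1099511627776 false 140 269 152 = true := by decide +kernel
theorem ck141 : checkF 1099511627776 false 141 271 153 = true := by decide +kernel
theorem ck142 : checkF 1099511627776 false 142 273 154 = true := by decide +kernel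
theorem ck143 : checkF 1099511627776 false 143 275 155 = true := by decide +kernel
theorem ck144 : checkF 1099511627776 false 144 277 156 = true := by decide +kernel
theorem ck145 : checkF 1099511627776 false 145 279 158 = true := by decide +kernel
theorem ck146 : checkF 1099511627776 false 146 281 159 = true := by decide +kernel
theorem ck147 : checkF 1099511627776 false 147 282 160 = true := by decide +kernel
theorem ck148 : checkF 1099511627776 false 148 284 161 = true := by decide +kernel
theorem ck149 : checkF 1099511627776 false 149 286 162 = true := by decide +kernel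
theorem ck150 : checkF 1099511627776 false 150 288 163 = true := by decide +kernel
theorem ck151 : checkF 1099511627776 false 151 290 164 = true := by decide +kernel
theorem ck152 : checkF 1099511627776 false 152 292 165 = true := by decide +kernel
theorem ck153 : checkF 1099511627776 false 153 294 166 = true := by decide +kernel
theorem ck154 : checkF 1099511627776 false 154 296 167 = true := by decide +kernel
theorem ck155 : checkF 1099511627776 false 155 298 168 = true := by decide +kernel
theorem ck156 : checkF 1099511627776 false 156 300 169 = true := by decide +kernel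
theorem ck157 : checkF 1099511627776 false 157 302 171 = true := by decide +kernel
theorem ck158 : checkF 1099511627776 false 158 304 172 = true := by decide +kernel
theorem ck159 : checkF 1099511627776 false 159 305 173 = true := by decide +kernel
theorem ck160 : checkF 1099511627776 false 160 307 174 = true := by decide +kernel
theorem ck161 : checkF 1099511627776 false 161 309 175 = true := by decide +kernel
theorem ck162 : checkF 1099511627776 false 162 311 176 = true := by decide +kernel
theorem ck163 : checkF 1099511627776 false 163 313 177 = true := by decide +kernel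
theorem ck164 : checkF 1099511627776 false 164 315 178 = true := by decide +kernel
theorem ck165 : checkF 1099511627776 false 165 317 179 = true := by decide +kernel
theorem ck166 : checkF 1099511627776 false 166 319 180 = true := by decide +kernel
theorem ck167 : checkF 1099511627776 false 167 321 181 = true := by decide +kernel
theorem ck168 : checkF 1099511627776 false 168 323 183 = true := by decide +kernel
theorem ck169 : checkF 1099511627776 false 169 325 184 = true := by decide +kernel
theorem ck170 : checkF 1099511627776 false 170 327 185 = true := by decide +kernel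
theorem ck171 : checkF 1099511627776 false 171 328 186 = true := by decide +kernel
theorem ck172 : checkF 1099511627776 false 172 330 187 = true := by decide +kernel
theorem ck173 : checkF 1099511627776 false 173 332 188 = true := by decide +kernel
theorem ck174 : checkF 1099511627776 false 174 334 189 = true := by decide +kernel
theorem ck175 : checkF 1099511627776 false 175 336 190 = true := by decide +kernel
theorem ck176 : checkF 1099511627776 false 176 338 191 = true := by decide +kernel
theorem ck177 : checkF 1099511627776 false 177 340 192 = true := by decide +kernel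
theorem ck178 : checkF 1099511627776 false 178 342 193 = true := by decide +kernel
theorem ck179 : checkF 1099511627776 false 179 344 194 = true := by decide +kernel
theorem ck180 : checkF 1099511627776 false 180 346 196 = true := by decide +kernel
theorem ck181 : checkF 1099511627776 false 181 348 197 = true := by decide +kernel
theorem ck182 : checkF 1099511627776 false 182 349 198 = true := by decide +kernel
theorem ck183 : checkF 1099511627776 false 183 351 199 = true := by decide +kernel
theorem ck184 : checkF 1099511627776 false 184 353 200 = true := by decide +kernel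
theorem ck185 : checkF 1099511627776 false 185 355 201 = true := by decide +kernel
theorem ck186 : checkF 1099511627776 false 186 357 202 = true := by decide +kernel
theorem ck187 : checkF 1099511627776 false 187 359 203 = true := by decide +kernel
theorem ck188 : checkF 1099511627776 false 188 361 204 = true := by decide +kernel
theorem ck189 : checkF 1099511627776 false 189 363 205 = true := by decide +kernel
theorem ck190 : checkF 1099511627776 false 190 365 206 = true := by decide +kernel
theorem ck191 : checkF 1099511627776 false 191 367 207 = true := by decide +kernel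
theorem ck192 : checkF 1099511627776 false 192 369 209 = true := by decide +kernel
theorem ck193 : checkF 1099511627776 false 193 371 210 = true := by decide +kernel
theorem ck194 : checkF 1099511627776 false 194 372 211 = true := by decide +kernel
theorem ck195 : checkF 1099511627776 false 195 374 212 = true := by decide +kernel
theorem ck196 : checkF 1099511627776 false 196 376 213 = true := by decide +kernel
theorem ck197 : checkF 1099511627776 false 197 378 214 = true := by decide +kernel
theorem ck198 : checkF 1099511627776 false 198 380 215 = true := by decide +kernel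
theorem ck199 : checkF 1099511627776 false 199 382 216 = true := by decide +kernel

theorem ckR01 : ∀ q : ℕ, 25 ≤ q → q < 200 → ∃ J F, checkF 1099511627776 false q J F = true := by
  intro q h1 h2
  interval_cases q
  · exact ⟨_, _, ck25⟩
  · exact ⟨_, _, ck26⟩
  · exact ⟨_, _, ck27⟩
  · exact ⟨_, _, ck28⟩
  · exact ⟨_, _, ck29⟩
  · exact ⟨_, _, ck30⟩
  · exact ⟨_, _, ck31⟩
  · exact ⟨_, _, ck32⟩
  · exact ⟨_, _, ck33⟩
  · exact ⟨_, _, ck34⟩
  · exact ⟨_, _, ck35⟩
  · exact ⟨_, _, ck36⟩
  · exact ⟨_, _, ck37⟩
  · exact ⟨_, _, ck38⟩
  · exact ⟨_, _, ck39⟩
  · exact ⟨_, _, ck40⟩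
  · exact ⟨_, _, ck41⟩
  · exact ⟨_, _, ck42⟩
  · exact ⟨_, _, ck43⟩
  · exact ⟨_, _, ck44⟩
  · exact ⟨_, _, ck45⟩
  · exact ⟨_, _, ck46⟩
  · exact ⟨_, _, ck47⟩
  · exact ⟨_, _, ck48⟩
  · exact ⟨_, _, ck49⟩
  · exact ⟨_, _, ck50⟩
  · exact ⟨_, _, ck51⟩
  · exact ⟨_, _, ck52⟩
  · exact ⟨_, _, ck53⟩
  · exact ⟨_, _, ck54⟩
  · exact ⟨_, _, ck55⟩
  · exact ⟨_, _, ck56⟩
  · exact ⟨_, _, ck57⟩
  · exact ⟨_, _, ck58⟩
  · exact ⟨_, _, ck59⟩
  · exact ⟨_, _, ck60⟩
  · exact ⟨_, _, ck61⟩
  · exact ⟨_, _, ck62⟩
  · exact ⟨_, _, ck63⟩
  · exact ⟨_, _, ck64⟩
  · exact ⟨_, _, ck65⟩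
  · exact ⟨_, _, ck66⟩
  · exact ⟨_, _, ck67⟩
  · exact ⟨_, _, ck68⟩
  · exact ⟨_, _, ck69⟩
  · exact ⟨_, _, ck70⟩
  · exact ⟨_, _, ck71⟩
  · exact ⟨_, _, ck72⟩
  · exact ⟨_, _, ck73⟩
  · exact ⟨_, _, ck74⟩
  · exact ⟨_, _, ck75⟩
  · exact ⟨_, _, ck76⟩
  · exact ⟨_, _, ck77⟩
  · exact ⟨_, _, ck78⟩
  · exact ⟨_, _, ck79⟩
  · exact ⟨_, _, ck80⟩
  · exact ⟨_, _, ck81⟩
  · exact ⟨_, _, ck82⟩
  · exact ⟨_, _, ck83⟩
  · exact ⟨_, _, ck84⟩
  · exact ⟨_, _, ck85⟩
  · exact ⟨_, _, ck86⟩
  · exact ⟨_, _, ck87⟩
  · exact ⟨_, _, ck88⟩
  · exact ⟨_, _, ck89⟩
  · exact ⟨_, _, ck90⟩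
  · exact ⟨_, _, ck91⟩
  · exact ⟨_, _, ck92⟩
  · exact ⟨_, _, ck93⟩
  · exact ⟨_, _, ck94⟩
  · exact ⟨_, _, ck95⟩
  · exact ⟨_, _, ck96⟩
  · exact ⟨_, _, ck97⟩
  · exact ⟨_, _, ck98⟩
  · exact ⟨_, _, ck99⟩
  · exact ⟨_, _, ck100⟩
  · exact ⟨_, _, ck101⟩
  · exact ⟨_, _, ck102⟩
  · exact ⟨_, _, ck103⟩
  · exact ⟨_, _, ck104⟩
  · exact ⟨_, _, ck105⟩
  · exact ⟨_, _, ck106⟩
  · exact ⟨_, _, ck107⟩
  · exact ⟨_, _, ck108⟩
  · exact ⟨_, _, ck109⟩
  · exact ⟨_, _, ck110⟩
  · exact ⟨_, _, ck111⟩
  · exact ⟨_, _, ck112⟩
  · exact ⟨_, _, ck113⟩
  · exact ⟨_, _, ck114⟩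
  · exact ⟨_, _, ck115⟩
  · exact ⟨_, _, ck116⟩
  · exact ⟨_, _, ck117⟩
  · exact ⟨_, _, ck118⟩
  · exact ⟨_, _, ck119⟩
  · exact ⟨_, _, ck120⟩
  · exact ⟨_, _, ck121⟩
  · exact ⟨_, _, ck122⟩
  · exact ⟨_, _, ck123⟩
  · exact ⟨_, _, ck124⟩
  · exact ⟨_, _, ck125⟩
  · exact ⟨_, _, ck126⟩
  · exact ⟨_, _, ck127⟩
  · exact ⟨_, _, ck128⟩
  · exact ⟨_, _, ck129⟩
  · exact ⟨_, _, ck130⟩
  · exact ⟨_, _, ck131⟩
  · exact ⟨_, _, ck132⟩
  · exact ⟨_, _, ck133⟩
  · exact ⟨_, _, ck134⟩
  · exact ⟨_, _, ck135⟩
  · exact ⟨_, _, ck136⟩
  · exact ⟨_, _, ck137⟩
  · exact ⟨_, _, ck138⟩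
  · exact ⟨_, _, ck139⟩
  · exact ⟨_, _, ck140⟩
  · exact ⟨_, _, ck141⟩
  · exact ⟨_, _, ck142⟩
  · exact ⟨_, _, ck143⟩
  · exact ⟨_, _, ck144⟩
  · exact ⟨_, _, ck145⟩
  · exact ⟨_, _, ck146⟩
  · exact ⟨_, _, ck147⟩
  · exact ⟨_, _, ck148⟩
  · exact ⟨_, _, ck149⟩
  · exact ⟨_, _, ck150⟩
  · exact ⟨_, _, ck151⟩
  · exact ⟨_, _, ck152⟩
  · exact ⟨_, _, ck153⟩
  · exact ⟨_, _, ck154⟩
  · exact ⟨_, _, ck155⟩
  · exact ⟨_, _, ck156⟩
  · exact ⟨_, _, ck157⟩
  · exact ⟨_, _, ck158⟩
  · exact ⟨_, _, ck159⟩
  · exact ⟨_, _, ck160⟩
  · exact ⟨_, _, ck161⟩
  · exact ⟨_, _, ck162⟩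
  · exact ⟨_, _, ck163⟩
  · exact ⟨_, _, ck164⟩
  · exact ⟨_, _, ck165⟩
  · exact ⟨_, _, ck166⟩
  · exact ⟨_, _, ck167⟩
  · exact ⟨_, _, ck168⟩
  · exact ⟨_, _, ck169⟩
  · exact ⟨_, _, ck170⟩
  · exact ⟨_, _, ck171⟩
  · exact ⟨_, _, ck172⟩
  · exact ⟨_, _, ck173⟩
  · exact ⟨_, _, ck174⟩
  · exact ⟨_, _, ck175⟩
  · exact ⟨_, _, ck176⟩
  · exact ⟨_, _, ck177⟩
  · exact ⟨_, _, ck178⟩
  · exact ⟨_, _, ck179⟩
  · exact ⟨_, _, ck180⟩
  · exact ⟨_, _, ck181⟩
  · exact ⟨_, _, ck182⟩
  · exact ⟨_, _, ck183⟩
  · exact ⟨_, _, ck184⟩
  · exact ⟨_, _, ck185⟩
  · exact ⟨_, _, ck186⟩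
  · exact ⟨_, _, ck187⟩
  · exact ⟨_, _, ck188⟩
  · exact ⟨_, _, ck189⟩
  · exact ⟨_, _, ck190⟩
  · exact ⟨_, _, ck191⟩
  · exact ⟨_, _, ck192⟩
  · exact ⟨_, _, ck193⟩
  · exact ⟨_, _, ck194⟩
  · exact ⟨_, _, ck195⟩
  · exact ⟨_, _, ck196⟩
  · exact ⟨_, _, ck197⟩
  · exact ⟨_, _, ck198⟩
  · exact ⟨_, _, ck199⟩

end Pool.Agent.Lib.MP_eeed5c_coC
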