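import Pool.Agent.Lib.MP_eeed5c_co_C.CkG

/-!
# The finite computation for `200 ≤ q < 255`
-/

set_option autoImplicit false
set_option maxRecDepth 100000

namespace Pool.Agent.Lib.MP_eeed5c_coC

theorem ck200 : checkF 1099511627776 true 200 384 217 = true := by decide +kernel
theorem ck201 : checkF 1099511627776 true 201 386 218 = true := by decide +kernel
theorem ck202 : checkF 1099511627776 true 202 388 219 = true := by decide +kernel
theorem ck203 : checkF 1099511627776 true 203 390 220 = true := by decide +kernel
theorem ck204 : checkF 1099511627776 true 204 392 222 = true := by decide +kernel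
theorem ck205 : checkF 1099511627776 true 205 394 223 = true := by decide +kernel
theorem ck206 : checkF 1099511627776 true 206 395 224 = true := by decide +kernel
theorem ck207 : checkF 1099511627776 true 207 397 225 = true := by decide +kernel
theorem ck208 : checkF 1099511627776 true 208 399 226 = true := by decide +kernel
theorem ck209 : checkF 1099511627776 true 209 401 227 = true := by decide +kernel
theorem ck210 : checkF 1099511627776 true 210 403 228 = true := by decide +kernel
theorem ck211 : checkF 1099511627776 true 211 405 229 = true := by decide +kernel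
theorem ck212 : checkF 1099511627776 true 212 407 230 = true := by decide +kernel
theorem ck213 : checkF 1099511627776 true 213 409 231 = true := by decide +kernel
theorem ck214 : checkF 1099511627776 true 214 411 232 = true := by decide +kernel
theorem ck215 : checkF 1099511627776 true 215 413 233 = true := by decide +kernel
theorem ck216 : checkF 1099511627776 true 216 415 235 = true := by decide +kernel
theorem ck217 : checkF 1099511627776 true 217 417 236 = true := by decide +kernel
theorem ck218 : checkF 1099511627776 true 218 418 237 = true := by decide +kernel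
theorem ck219 : checkF 1099511627776 true 219 420 238 = true := by decide +kernel
theorem ck220 : checkF 1099511627776 true 220 422 239 = true := by decide +kernel
theorem ck221 : checkF 1099511627776 true 221 424 240 = true := by decide +kernel
theorem ck222 : checkF 1099511627776 true 222 426 241 = true := by decide +kernel
theorem ck223 : checkF 1099511627776 true 223 428 242 = true := by decide +kernel
theorem ck224 : checkF 1099511627776 true 224 430 243 = true := by decide +kernel
theorem ck225 : checkF 1099511627776 true 225 432 244 = true := by decide +kernel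
theorem ck226 : checkF 1099511627776 true 226 434 245 = true := by decide +kernel
theorem ck227 : checkF 1099511627776 true 227 436 246 = true := by decide +kernel
theorem ck228 : checkF 1099511627776 true 228 438 248 = true := by decide +kernel
theorem ck229 : checkF 1099511627776 true 229 440 249 = true := by decide +kernel
theorem ck230 : checkF 1099511627776 true 230 441 250 = true := by decide +kernel
theorem ck231 : checkF 1099511627776 true 231 443 251 = true := by decide +kernel
theorem ck232 : checkF 1099511627776 true 232 445 252 = true := by decide +kernel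
theorem ck233 : checkF 1099511627776 true 233 447 253 = true := by decide +kernel
theorem ck234 : checkF 1099511627776 true 234 449 254 = true := by decide +kernel
theorem ck235 : checkF 1099511627776 true 235 451 255 = true := by decide +kernel
theorem ck236 : checkF 1099511627776 true 236 453 256 = true := by decide +kernel
theorem ck237 : checkF 1099511627776 true 237 455 257 = true := by decide +kernel
theorem ck238 : checkF 1099511627776 true 238 457 258 = true := by decide +kernel
theorem ck239 : checkF 1099511627776 true 239 459 259 = true := by decide +kernel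
theorem ck240 : checkF 1099511627776 true 240 461 261 = true := by decide +kernel
theorem ck241 : checkF 1099511627776 true 241 463 262 = true := by decide +kernel
theorem ck242 : checkF 1099511627776 true 242 464 263 = true := by decide +kernel
theorem ck243 : checkF 1099511627776 true 243 466 264 = true := by decide +kernel
theorem ck244 : checkF 1099511627776 true 244 468 265 = true := by decide +kernel
theorem ck245 : checkF 1099511627776 true 245 470 266 = true := by decide +kernel
theorem ck246 : checkF 1099511627776 true 246 472 267 = true := by decide +kernel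
theorem ck247 : checkF 1099511627776 true 247 474 268 = true := by decide +kernel
theorem ck248 : checkF 1099511627776 true 248 476 269 = true := by decide +kernel
theorem ck249 : checkF 1099511627776 true 249 478 270 = true := by decide +kernel
theorem ck250 : checkF 1099511627776 true 250 480 271 = true := by decide +kernel
theorem ck251 : checkF 1099511627776 true 251 482 272 = true := by decide +kernel
theorem ck252 : checkF 1099511627776 true 252 484 274 = true := by decide +kernel
theorem ck253 : checkF 1099511627776 true 253 486 275 = true := by decide +kernel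
theorem ck254 : checkF 1099511627776 true 254 487 276 = true := by decide +kernel

theorem ckR02 : ∀ q : ℕ, 200 ≤ q → q < 255 → ∃ J F, checkF 1099511627776 true q J F = true := by
  intro q h1 h2
  interval_cases q
  · exact ⟨_, _, ck200⟩
  · exact ⟨_, _, ck201⟩
  · exact ⟨_, _, ck202⟩
  · exact ⟨_, _, ck203⟩
  · exact ⟨_, _, ck204⟩
  · exact ⟨_, _, ck205⟩
  · exact ⟨_, _, ck206⟩
  · exact ⟨_, _, ck207⟩
  · exact ⟨_, _, ck208⟩
  · exact ⟨_, _, ck209⟩
  · exact ⟨_, _, ck210⟩
  · exact ⟨_, _, ck211⟩
  · exact ⟨_, _, ck212⟩
  · exact ⟨_, _, ck213⟩
  · exact ⟨_, _, ck214⟩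
  · exact ⟨_, _, ck215⟩
  · exact ⟨_, _, ck216⟩
  · exact ⟨_, _, ck217⟩
  · exact ⟨_, _, ck218⟩
  · exact ⟨_, _, ck219⟩
  · exact ⟨_, _, ck220⟩
  · exact ⟨_, _, ck221⟩
  · exact ⟨_, _, ck222⟩
  · exact ⟨_, _, ck223⟩
  · exact ⟨_, _, ck224⟩
  · exact ⟨_, _, ck225⟩
  · exact ⟨_, _, ck226⟩
  · exact ⟨_, _, ck227⟩
  · exact ⟨_, _, ck228⟩
  · exact ⟨_, _, ck229⟩
  · exact ⟨_, _, ck230⟩
  · exact ⟨_, _, ck231⟩
  · exact ⟨_, _, ck232⟩
  · exact ⟨_, _, ck233⟩
  · exact ⟨_, _, ck234⟩
  · exact ⟨_, _, ck235⟩
  · exact ⟨_, _, ck236⟩
  · exact ⟨_, _, ck237⟩
  · exact ⟨_, _, ck238⟩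
  · exact ⟨_, _, ck239⟩
  · exact ⟨_, _, ck240⟩
  · exact ⟨_, _, ck241⟩
  · exact ⟨_, _, ck242⟩
  · exact ⟨_, _, ck243⟩
  · exact ⟨_, _, ck244⟩
  · exact ⟨_, _, ck245⟩
  · exact ⟨_, _, ck246⟩
  · exact ⟨_, _, ck247⟩
  · exact ⟨_, _, ck248⟩
  · exact ⟨_, _, ck249⟩
  · exact ⟨_, _, ck250⟩
  · exact ⟨_, _, ck251⟩
  · exact ⟨_, _, ck252⟩
  · exact ⟨_, _, ck253⟩
  · exact ⟨_, _, ck254⟩

end Pool.Agent.Lib.MP_eeed5c_coC
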