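import Pool.Agent.Lib.MP_eeed5c_co_C.CkG

/-!
# The finite computation for `255 ≤ q < 297`
-/

set_option autoImplicit false
set_option maxRecDepth 100000

namespace Pool.Agent.Lib.MP_eeed5c_coC

theorem ck255 : checkF 1099511627776 true 255 489 277 = true := by decide +kernel
theorem ck256 : checkF 1099511627776 true 256 491 278 = true := by decide +kernel
theorem ck257 : checkF 1099511627776 true 257 493 279 = true := by decide +kernel
theorem ck258 : checkF 1099511627776 true 258 495 280 = true := by decide +kernel
theorem ck259 : checkF 1099511627776 true 259 497 281 = true := by decide +kernel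
theorem ck260 : checkF 1099511627776 true 260 499 282 = true := by decide +kernel
theorem ck261 : checkF 1099511627776 true 261 501 283 = true := by decide +kernel
theorem ck262 : checkF 1099511627776 true 262 503 284 = true := by decide +kernel
theorem ck263 : checkF 1099511627776 true 263 505 285 = true := by decide +kernel
theorem ck264 : checkF 1099511627776 true 264 507 287 = true := by decide +kernel
theorem ck265 : checkF 1099511627776 true 265 509 288 = true := by decide +kernel
theorem ck266 : checkF 1099511627776 true 266 510 289 = true := by decide +kernel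
theorem ck267 : checkF 1099511627776 true 267 512 290 = true := by decide +kernel
theorem ck268 : checkF 1099511627776 true 268 514 291 = true := by decide +kernel
theorem ck269 : checkF 1099511627776 true 269 516 292 = true := by decide +kernel
theorem ck270 : checkF 1099511627776 true 270 518 293 = true := by decide +kernel
theorem ck271 : checkF 1099511627776 true 271 520 294 = true := by decide +kernel
theorem ck272 : checkF 1099511627776 true 272 522 295 = true := by decide +kernel
theorem ck273 : checkF 1099511627776 true 273 524 296 = true := by decide +kernel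
theorem ck274 : checkF 1099511627776 true 274 526 297 = true := by decide +kernel
theorem ck275 : checkF 1099511627776 true 275 528 298 = true := by decide +kernel
theorem ck276 : checkF 1099511627776 true 276 530 300 = true := by decide +kernel
theorem ck277 : checkF 1099511627776 true 277 532 301 = true := by decide +kernel
theorem ck278 : checkF 1099511627776 true 278 533 302 = true := by decide +kernel
theorem ck279 : checkF 1099511627776 true 279 535 303 = true := by decide +kernel
theorem ck280 : checkF 1099511627776 true 280 537 304 = true := by decide +kernel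
theorem ck281 : checkF 1099511627776 true 281 539 305 = true := by decide +kernel
theorem ck282 : checkF 1099511627776 true 282 541 306 = true := by decide +kernel
theorem ck283 : checkF 1099511627776 true 283 543 307 = true := by decide +kernel
theorem ck284 : checkF 1099511627776 true 284 545 308 = true := by decide +kernel
theorem ck285 : checkF 1099511627776 true 285 547 309 = true := by decide +kernel
theorem ck286 : checkF 1099511627776 true 286 549 310 = true := by decide +kernel
theorem ck287 : checkF 1099511627776 true 287 551 311 = true := by decide +kernel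
theorem ck288 : checkF 1099511627776 true 288 553 313 = true := by decide +kernel
theorem ck289 : checkF 1099511627776 true 289 555 314 = true := by decide +kernel
theorem ck290 : checkF 1099511627776 true 290 556 315 = true := by decide +kernel
theorem ck291 : checkF 1099511627776 true 291 558 316 = true := by decide +kernel
theorem ck292 : checkF 1099511627776 true 292 560 317 = true := by decide +kernel
theorem ck293 : checkF 1099511627776 true 293 562 318 = true := by decide +kernel
theorem ck294 : checkF 1099511627776 true 294 564 319 = true := by decide +kernel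
theorem ck295 : checkF 1099511627776 true 295 566 320 = true := by decide +kernel
theorem ck296 : checkF 1099511627776 true 296 568 321 = true := by decide +kernel

theorem ckR03 : ∀ q : ℕ, 255 ≤ q → q < 297 → ∃ J F, checkF 1099511627776 true q J F = true := by
  intro q h1 h2
  interval_cases q
  · exact ⟨_, _, ck255⟩
  · exact ⟨_, _, ck256⟩
  · exact ⟨_, _, ck257⟩
  · exact ⟨_, _, ck258⟩
  · exact ⟨_, _, ck259⟩
  · exact ⟨_, _, ck260⟩
  · exact ⟨_, _, ck261⟩
  · exact ⟨_, _, ck262⟩
  · exact ⟨_, _, ck263⟩
  · exact ⟨_, _, ck264⟩
  · exact ⟨_, _, ck265⟩
  · exact ⟨_, _, ck266⟩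
  · exact ⟨_, _, ck267⟩
  · exact ⟨_, _, ck268⟩
  · exact ⟨_, _, ck269⟩
  · exact ⟨_, _, ck270⟩
  · exact ⟨_, _, ck271⟩
  · exact ⟨_, _, ck272⟩
  · exact ⟨_, _, ck273⟩
  · exact ⟨_, _, ck274⟩
  · exact ⟨_, _, ck275⟩
  · exact ⟨_, _, ck276⟩
  · exact ⟨_, _, ck277⟩
  · exact ⟨_, _, ck278⟩
  · exact ⟨_, _, ck279⟩
  · exact ⟨_, _, ck280⟩
  · exact ⟨_, _, ck281⟩
  · exact ⟨_, _, ck282⟩
  · exact ⟨_, _, ck283⟩
  · exact ⟨_, _, ck284⟩
  · exact ⟨_, _, ck285⟩
  · exact ⟨_, _, ck286⟩
  · exact ⟨_, _, ck287⟩
  · exact ⟨_, _, ck288⟩
  · exact ⟨_, _, ck289⟩
  · exact ⟨_, _, ck290⟩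
  · exact ⟨_, _, ck291⟩
  · exact ⟨_, _, ck292⟩
  · exact ⟨_, _, ck293⟩
  · exact ⟨_, _, ck294⟩
  · exact ⟨_, _, ck295⟩
  · exact ⟨_, _, ck296⟩

end Pool.Agent.Lib.MP_eeed5c_coC
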