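import Pool.Agent.Lib.MP_eeed5c_co_C.CkG

/-!
# The finite computation for `297 ≤ q < 331`
-/

set_option autoImplicit false
set_option maxRecDepth 100000

namespace Pool.Agent.Lib.MP_eeed5c_coC

theorem ck297 : checkF 1099511627776 true 297 570 322 = true := by decide +kernel
theorem ck298 : checkF 1099511627776 true 298 572 323 = true := by decide +kernel
theorem ck299 : checkF 1099511627776 true 299 574 325 = true := by decide +kernel
theorem ck300 : checkF 1099511627776 true 300 576 326 = true := by decide +kernel
theorem ck301 : checkF 1099511627776 true 301 578 327 = true := by decide +kernel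
theorem ck302 : checkF 1099511627776 true 302 579 328 = true := by decide +kernel
theorem ck303 : checkF 1099511627776 true 303 581 329 = true := by decide +kernel
theorem ck304 : checkF 1099511627776 true 304 583 330 = true := by decide +kernel
theorem ck305 : checkF 1099511627776 true 305 585 331 = true := by decide +kernel
theorem ck306 : checkF 1099511627776 true 306 587 332 = true := by decide +kernel
theorem ck307 : checkF 1099511627776 true 307 589 333 = true := by decide +kernel
theorem ck308 : checkF 1099511627776 true 308 591 334 = true := by decide +kernel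
theorem ck309 : checkF 1099511627776 true 309 593 335 = true := by decide +kernel
theorem ck310 : checkF 1099511627776 true 310 595 336 = true := by decide +kernel
theorem ck311 : checkF 1099511627776 true 311 597 338 = true := by decide +kernel
theorem ck312 : checkF 1099511627776 true 312 599 339 = true := by decide +kernel
theorem ck313 : checkF 1099511627776 true 313 600 340 = true := by decide +kernel
theorem ck314 : checkF 1099511627776 true 314 602 341 = true := by decide +kernel
theorem ck315 : checkF 1099511627776 true 315 604 342 = true := by decide +kernel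
theorem ck316 : checkF 1099511627776 true 316 606 343 = true := by decide +kernel
theorem ck317 : checkF 1099511627776 true 317 608 344 = true := by decide +kernel
theorem ck318 : checkF 1099511627776 true 318 610 345 = true := by decide +kernel
theorem ck319 : checkF 1099511627776 true 319 612 346 = true := by decide +kernel
theorem ck320 : checkF 1099511627776 true 320 614 347 = true := by decide +kernel
theorem ck321 : checkF 1099511627776 true 321 616 348 = true := by decide +kernel
theorem ck322 : checkF 1099511627776 true 322 618 349 = true := by decide +kernel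
theorem ck323 : checkF 1099511627776 true 323 620 351 = true := by decide +kernel
theorem ck324 : checkF 1099511627776 true 324 622 352 = true := by decide +kernel
theorem ck325 : checkF 1099511627776 true 325 623 353 = true := by decide +kernel
theorem ck326 : checkF 1099511627776 true 326 625 354 = true := by decide +kernel
theorem ck327 : checkF 1099511627776 true 327 627 355 = true := by decide +kernel
theorem ck328 : checkF 1099511627776 true 328 629 356 = true := by decide +kernel
theorem ck329 : checkF 1099511627776 true 329 631 357 = true := by decide +kernel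
theorem ck330 : checkF 1099511627776 true 330 633 358 = true := by decide +kernel

theorem ckR04 : ∀ q : ℕ, 297 ≤ q → q < 331 → ∃ J F, checkF 1099511627776 true q J F = true := by
  intro q h1 h2
  interval_cases q
  · exact ⟨_, _, ck297⟩
  · exact ⟨_, _, ck298⟩
  · exact ⟨_, _, ck299⟩
  · exact ⟨_, _, ck300⟩
  · exact ⟨_, _, ck301⟩
  · exact ⟨_, _, ck302⟩
  · exact ⟨_, _, ck303⟩
  · exact ⟨_, _, ck304⟩
  · exact ⟨_, _, ck305⟩
  · exact ⟨_, _, ck306⟩
  · exact ⟨_, _, ck307⟩
  · exact ⟨_, _, ck308⟩
  · exact ⟨_, _, ck309⟩
  · exact ⟨_, _, ck310⟩
  · exact ⟨_, _, ck311⟩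
  · exact ⟨_, _, ck312⟩
  · exact ⟨_, _, ck313⟩
  · exact ⟨_, _, ck314⟩
  · exact ⟨_, _, ck315⟩
  · exact ⟨_, _, ck316⟩
  · exact ⟨_, _, ck317⟩
  · exact ⟨_, _, ck318⟩
  · exact ⟨_, _, ck319⟩
  · exact ⟨_, _, ck320⟩
  · exact ⟨_, _, ck321⟩
  · exact ⟨_, _, ck322⟩
  · exact ⟨_, _, ck323⟩
  · exact ⟨_, _, ck324⟩
  · exact ⟨_, _, ck325⟩
  · exact ⟨_, _, ck326⟩
  · exact ⟨_, _, ck327⟩
  · exact ⟨_, _, ck328⟩
  · exact ⟨_, _, ck329⟩
  · exact ⟨_, _, ck330⟩

end Pool.Agent.Lib.MP_eeed5c_coC
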