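import Pool.Agent.Lib.MP_eeed5c_co_C.CkR01

/-!
# The finite computation for `331 ≤ q < 361`
-/

set_option autoImplicit false
set_option maxRecDepth 100000

namespace Pool.Agent.Lib.MP_eeed5c_coC

theorem ck331 : checkF 1099511627776 true 331 635 359 = true := by decide +kernel
theorem ck332 : checkF 1099511627776 true 332 637 360 = true := by decide +kernel
theorem ck333 : checkF 1099511627776 true 333 639 361 = true := by decide +kernel
theorem ck334 : checkF 1099511627776 true 334 641 362 = true := by decide +kernel
theorem ck335 : checkF 1099511627776 true 335 643 364 = true := by decide +kernel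
theorem ck336 : checkF 1099511627776 true 336 645 365 = true := by decide +kernel
theorem ck337 : checkF 1099511627776 true 337 646 366 = true := by decide +kernel
theorem ck338 : checkF 1099511627776 true 338 648 367 = true := by decide +kernel
theorem ck339 : checkF 1099511627776 true 339 650 368 = true := by decide +kernel
theorem ck340 : checkF 1099511627776 true 340 652 369 = true := by decide +kernel
theorem ck341 : checkF 1099511627776 true 341 654 370 = true := by decide +kernel
theorem ck342 : checkF 1099511627776 true 342 656 371 = true := by decide +kernel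
theorem ck343 : checkF 1099511627776 true 343 658 372 = true := by decide +kernel
theorem ck344 : checkF 1099511627776 true 344 660 373 = true := by decide +kernel
theorem ck345 : checkF 1099511627776 true 345 662 374 = true := by decide +kernel
theorem ck346 : checkF 1099511627776 true 346 664 375 = true := by decide +kernel
theorem ck347 : checkF 1099511627776 true 347 666 377 = true := by decide +kernel
theorem ck348 : checkF 1099511627776 true 348 668 378 = true := by decide +kernel
theorem ck349 : checkF 1099511627776 true 349 669 379 = true := by decide +kernel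
theorem ck350 : checkF 1099511627776 true 350 671 380 = true := by decide +kernel
theorem ck351 : checkF 1099511627776 true 351 673 381 = true := by decide +kernel
theorem ck352 : checkF 1099511627776 true 352 675 382 = true := by decide +kernel
theorem ck353 : checkF 1099511627776 true 353 677 383 = true := by decide +kernel
theorem ck354 : checkF 1099511627776 true 354 679 384 = true := by decide +kernel
theorem ck355 : checkF 1099511627776 true 355 681 385 = true := by decide +kernel
theorem ck356 : checkF 1099511627776 true 356 683 386 = true := by decide +kernel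
theorem ck357 : checkF 1099511627776 true 357 685 387 = true := by decide +kernel
theorem ck358 : checkF 1099511627776 true 358 687 388 = true := by decide +kernel
theorem ck359 : checkF 1099511627776 true 359 689 390 = true := by decide +kernel
theorem ck360 : checkF 1099511627776 true 360 691 391 = true := by decide +kernel

theorem ckR05 : ∀ q : ℕ, 331 ≤ q → q < 361 → ∃ J F, checkF 1099511627776 true q J F = true := by
  intro q h1 h2
  interval_cases q
  · exact ⟨_, _, ck331⟩
  · exact ⟨_, _, ck332⟩
  · exact ⟨_, _, ck333⟩
  · exact ⟨_, _, ck334⟩
  · exact ⟨_, _, ck335⟩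
  · exact ⟨_, _, ck336⟩
  · exact ⟨_, _, ck337⟩
  · exact ⟨_, _, ck338⟩
  · exact ⟨_, _, ck339⟩
  · exact ⟨_, _, ck340⟩
  · exact ⟨_, _, ck341⟩
  · exact ⟨_, _, ck342⟩
  · exact ⟨_, _, ck343⟩
  · exact ⟨_, _, ck344⟩
  · exact ⟨_, _, ck345⟩
  · exact ⟨_, _, ck346⟩
  · exact ⟨_, _, ck347⟩
  · exact ⟨_, _, ck348⟩
  · exact ⟨_, _, ck349⟩
  · exact ⟨_, _, ck350⟩
  · exact ⟨_, _, ck351⟩
  · exact ⟨_, _, ck352⟩
  · exact ⟨_, _, ck353⟩
  · exact ⟨_, _, ck354⟩
  · exact ⟨_, _, ck355⟩
  · exact ⟨_, _, ck356⟩
  · exact ⟨_, _, ck357⟩
  · exact ⟨_, _, ck358⟩
  · exact ⟨_, _, ck359⟩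
  · exact ⟨_, _, ck360⟩

end Pool.Agent.Lib.MP_eeed5c_coC
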