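import Pool.Agent.Lib.MP_eeed5c_co_C.CkR02

/-!
# The finite computation for `361 ≤ q < 388`
-/

set_option autoImplicit false
set_option maxRecDepth 100000

namespace Pool.Agent.Lib.MP_eeed5c_coC

theorem ck361 : checkF 1099511627776 true 361 692 392 = true := by decide +kernel
theorem ck362 : checkF 1099511627776 true 362 694 393 = true := by decide +kernel
theorem ck363 : checkF 1099511627776 true 363 696 394 = true := by decide +kernel
theorem ck364 : checkF 1099511627776 true 364 698 395 = true := by decide +kernel
theorem ck365 : checkF 1099511627776 true 365 700 396 = true := by decide +kernel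
theorem ck366 : checkF 1099511627776 true 366 702 397 = true := by decide +kernel
theorem ck367 : checkF 1099511627776 true 367 704 398 = true := by decide +kernel
theorem ck368 : checkF 1099511627776 true 368 706 399 = true := by decide +kernel
theorem ck369 : checkF 1099511627776 true 369 708 400 = true := by decide +kernel
theorem ck370 : checkF 1099511627776 true 370 710 401 = true := by decide +kernel
theorem ck371 : checkF 1099511627776 true 371 712 403 = true := by decide +kernel
theorem ck372 : checkF 1099511627776 true 372 714 404 = true := by decide +kernel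
theorem ck373 : checkF 1099511627776 true 373 715 405 = true := by decide +kernel
theorem ck374 : checkF 1099511627776 true 374 717 406 = true := by decide +kernel
theorem ck375 : checkF 1099511627776 true 375 719 407 = true := by decide +kernel
theorem ck376 : checkF 1099511627776 true 376 721 408 = true := by decide +kernel
theorem ck377 : checkF 1099511627776 true 377 723 409 = true := by decide +kernel
theorem ck378 : checkF 1099511627776 true 378 725 410 = true := by decide +kernel
theorem ck379 : checkF 1099511627776 true 379 727 411 = true := by decide +kernel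
theorem ck380 : checkF 1099511627776 true 380 729 412 = true := by decide +kernel
theorem ck381 : checkF 1099511627776 true 381 731 413 = true := by decide +kernel
theorem ck382 : checkF 1099511627776 true 382 733 414 = true := by decide +kernel
theorem ck383 : checkF 1099511627776 true 383 735 416 = true := by decide +kernel
theorem ck384 : checkF 1099511627776 true 384 737 417 = true := by decide +kernel
theorem ck385 : checkF 1099511627776 true 385 738 418 = true := by decide +kernel
theorem ck386 : checkF 1099511627776 true 386 740 419 = true := by decide +kernel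
theorem ck387 : checkF 1099511627776 true 387 742 420 = true := by decide +kernel

theorem ckR06 : ∀ q : ℕ, 361 ≤ q → q < 388 → ∃ J F, checkF 1099511627776 true q J F = true := by
  intro q h1 h2
  interval_cases q
  · exact ⟨_, _, ck361⟩
  · exact ⟨_, _, ck362⟩
  · exact ⟨_, _, ck363⟩
  · exact ⟨_, _, ck364⟩
  · exact ⟨_, _, ck365⟩
  · exact ⟨_, _, ck366⟩
  · exact ⟨_, _, ck367⟩
  · exact ⟨_, _, ck368⟩
  · exact ⟨_, _, ck369⟩
  · exact ⟨_, _, ck370⟩
  · exact ⟨_, _, ck371⟩
  · exact ⟨_, _, ck372⟩
  · exact ⟨_, _, ck373⟩
  · exact ⟨_, _, ck374⟩
  · exact ⟨_, _, ck375⟩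
  · exact ⟨_, _, ck376⟩
  · exact ⟨_, _, ck377⟩
  · exact ⟨_, _, ck378⟩
  · exact ⟨_, _, ck379⟩
  · exact ⟨_, _, ck380⟩
  · exact ⟨_, _, ck381⟩
  · exact ⟨_, _, ck382⟩
  · exact ⟨_, _, ck383⟩
  · exact ⟨_, _, ck384⟩
  · exact ⟨_, _, ck385⟩
  · exact ⟨_, _, ck386⟩
  · exact ⟨_, _, ck387⟩

end Pool.Agent.Lib.MP_eeed5c_coC
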