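import Pool.Agent.Lib.MP_eeed5c_co_C.CkR03

/-!
# The finite computation for `388 ≤ q < 412`
-/

set_option autoImplicit false
set_option maxRecDepth 100000

namespace Pool.Agent.Lib.MP_eeed5c_coC

theorem ck388 : checkF 1099511627776 true 388 744 421 = true := by decide +kernel
theorem ck389 : checkF 1099511627776 true 389 746 422 = true := by decide +kernel
theorem ck390 : checkF 1099511627776 true 390 748 423 = true := by decide +kernel
theorem ck391 : checkF 1099511627776 true 391 750 424 = true := by decide +kernel
theorem ck392 : checkF 1099511627776 true 392 752 425 = true := by decide +kernel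
theorem ck393 : checkF 1099511627776 true 393 754 426 = true := by decide +kernel
theorem ck394 : checkF 1099511627776 true 394 756 427 = true := by decide +kernel
theorem ck395 : checkF 1099511627776 true 395 758 429 = true := by decide +kernel
theorem ck396 : checkF 1099511627776 true 396 760 430 = true := by decide +kernel
theorem ck397 : checkF 1099511627776 true 397 761 431 = true := by decide +kernel
theorem ck398 : checkF 1099511627776 true 398 763 432 = true := by decide +kernel
theorem ck399 : checkF 1099511627776 true 399 765 433 = true := by decide +kernel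
theorem ck400 : checkF 1099511627776 true 400 767 434 = true := by decide +kernel
theorem ck401 : checkF 1099511627776 true 401 769 435 = true := by decide +kernel
theorem ck402 : checkF 1099511627776 true 402 771 436 = true := by decide +kernel
theorem ck403 : checkF 1099511627776 true 403 773 437 = true := by decide +kernel
theorem ck404 : checkF 1099511627776 true 404 775 438 = true := by decide +kernel
theorem ck405 : checkF 1099511627776 true 405 777 439 = true := by decide +kernel
theorem ck406 : checkF 1099511627776 true 406 779 440 = true := by decide +kernel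
theorem ck407 : checkF 1099511627776 true 407 781 442 = true := by decide +kernel
theorem ck408 : checkF 1099511627776 true 408 783 443 = true := by decide +kernel
theorem ck409 : checkF 1099511627776 true 409 784 444 = true := by decide +kernel
theorem ck410 : checkF 1099511627776 true 410 786 445 = true := by decide +kernel
theorem ck411 : checkF 1099511627776 true 411 788 446 = true := by decide +kernel

theorem ckR07 : ∀ q : ℕ, 388 ≤ q → q < 412 → ∃ J F, checkF 1099511627776 true q J F = true := by
  intro q h1 h2
  interval_cases q
  · exact ⟨_, _, ck388⟩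
  · exact ⟨_, _, ck389⟩
  · exact ⟨_, _, ck390⟩
  · exact ⟨_, _, ck391⟩
  · exact ⟨_, _, ck392⟩
  · exact ⟨_, _, ck393⟩
  · exact ⟨_, _, ck394⟩
  · exact ⟨_, _, ck395⟩
  · exact ⟨_, _, ck396⟩
  · exact ⟨_, _, ck397⟩
  · exact ⟨_, _, ck398⟩
  · exact ⟨_, _, ck399⟩
  · exact ⟨_, _, ck400⟩
  · exact ⟨_, _, ck401⟩
  · exact ⟨_, _, ck402⟩
  · exact ⟨_, _, ck403⟩
  · exact ⟨_, _, ck404⟩
  · exact ⟨_, _, ck405⟩
  · exact ⟨_, _, ck406⟩
  · exact ⟨_, _, ck407⟩
  · exact ⟨_, _, ck408⟩
  · exact ⟨_, _, ck409⟩
  · exact ⟨_, _, ck410⟩
  · exact ⟨_, _, ck411⟩

end Pool.Agent.Lib.MP_eeed5c_coC
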