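import Pool.Agent.Lib.MP_eeed5c_co_C.CkR04

/-!
# The finite computation for `412 ≤ q < 434`
-/

set_option autoImplicit false
set_option maxRecDepth 100000

namespace Pool.Agent.Lib.MP_eeed5c_coC

theorem ck412 : checkF 1099511627776 true 412 790 447 = true := by decide +kernel
theorem ck413 : checkF 1099511627776 true 413 792 448 = true := by decide +kernel
theorem ck414 : checkF 1099511627776 true 414 794 449 = true := by decide +kernel
theorem ck415 : checkF 1099511627776 true 415 796 450 = true := by decide +kernel
theorem ck416 : checkF 1099511627776 true 416 798 451 = true := by decide +kernel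
theorem ck417 : checkF 1099511627776 true 417 800 452 = true := by decide +kernel
theorem ck418 : checkF 1099511627776 true 418 802 453 = true := by decide +kernel
theorem ck419 : checkF 1099511627776 true 419 804 455 = true := by decide +kernel
theorem ck420 : checkF 1099511627776 true 420 806 456 = true := by decide +kernel
theorem ck421 : checkF 1099511627776 true 421 807 457 = true := by decide +kernel
theorem ck422 : checkF 1099511627776 true 422 809 458 = true := by decide +kernel
theorem ck423 : checkF 1099511627776 true 423 811 459 = true := by decide +kernel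
theorem ck424 : checkF 1099511627776 true 424 813 460 = true := by decide +kernel
theorem ck425 : checkF 1099511627776 true 425 815 461 = true := by decide +kernel
theorem ck426 : checkF 1099511627776 true 426 817 462 = true := by decide +kernel
theorem ck427 : checkF 1099511627776 true 427 819 463 = true := by decide +kernel
theorem ck428 : checkF 1099511627776 true 428 821 464 = true := by decide +kernel
theorem ck429 : checkF 1099511627776 true 429 823 465 = true := by decide +kernel
theorem ck430 : checkF 1099511627776 true 430 825 467 = true := by decide +kernel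
theorem ck431 : checkF 1099511627776 true 431 827 468 = true := by decide +kernel
theorem ck432 : checkF 1099511627776 true 432 829 469 = true := by decide +kernel
theorem ck433 : checkF 1099511627776 true 433 830 470 = true := by decide +kernel

theorem ckR08 : ∀ q : ℕ, 412 ≤ q → q < 434 → ∃ J F, checkF 1099511627776 true q J F = true := by
  intro q h1 h2
  interval_cases q
  · exact ⟨_, _, ck412⟩
  · exact ⟨_, _, ck413⟩
  · exact ⟨_, _, ck414⟩
  · exact ⟨_, _, ck415⟩
  · exact ⟨_, _, ck416⟩
  · exact ⟨_, _, ck417⟩
  · exact ⟨_, _, ck418⟩
  · exact ⟨_, _, ck419⟩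
  · exact ⟨_, _, ck420⟩
  · exact ⟨_, _, ck421⟩
  · exact ⟨_, _, ck422⟩
  · exact ⟨_, _, ck423⟩
  · exact ⟨_, _, ck424⟩
  · exact ⟨_, _, ck425⟩
  · exact ⟨_, _, ck426⟩
  · exact ⟨_, _, ck427⟩
  · exact ⟨_, _, ck428⟩
  · exact ⟨_, _, ck429⟩
  · exact ⟨_, _, ck430⟩
  · exact ⟨_, _, ck431⟩
  · exact ⟨_, _, ck432⟩
  · exact ⟨_, _, ck433⟩

end Pool.Agent.Lib.MP_eeed5c_coC
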