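import Pool.Agent.Lib.MP_eeed5c_co_C.CkR05

/-!
# The finite computation for `434 ≤ q < 455`
-/

set_option autoImplicit false
set_option maxRecDepth 100000

namespace Pool.Agent.Lib.MP_eeed5c_coC

theorem ck434 : checkF 1099511627776 true 434 832 471 = true := by decide +kernel
theorem ck435 : checkF 1099511627776 true 435 834 472 = true := by decide +kernel
theorem ck436 : checkF 1099511627776 true 436 836 473 = true := by decide +kernel
theorem ck437 : checkF 1099511627776 true 437 838 474 = true := by decide +kernel
theorem ck438 : checkF 1099511627776 true 438 840 475 = true := by decide +kernel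
theorem ck439 : checkF 1099511627776 true 439 842 476 = true := by decide +kernel
theorem ck440 : checkF 1099511627776 true 440 844 477 = true := by decide +kernel
theorem ck441 : checkF 1099511627776 true 441 846 478 = true := by decide +kernel
theorem ck442 : checkF 1099511627776 true 442 848 480 = true := by decide +kernel
theorem ck443 : checkF 1099511627776 true 443 850 481 = true := by decide +kernel
theorem ck444 : checkF 1099511627776 true 444 851 482 = true := by decide +kernel
theorem ck445 : checkF 1099511627776 true 445 853 483 = true := by decide +kernel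
theorem ck446 : checkF 1099511627776 true 446 855 484 = true := by decide +kernel
theorem ck447 : checkF 1099511627776 true 447 857 485 = true := by decide +kernel
theorem ck448 : checkF 1099511627776 true 448 859 486 = true := by decide +kernel
theorem ck449 : checkF 1099511627776 true 449 861 487 = true := by decide +kernel
theorem ck450 : checkF 1099511627776 true 450 863 488 = true := by decide +kernel
theorem ck451 : checkF 1099511627776 true 451 865 489 = true := by decide +kernel
theorem ck452 : checkF 1099511627776 true 452 867 490 = true := by decide +kernel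
theorem ck453 : checkF 1099511627776 true 453 869 491 = true := by decide +kernel
theorem ck454 : checkF 1099511627776 true 454 871 493 = true := by decide +kernel

theorem ckR09 : ∀ q : ℕ, 434 ≤ q → q < 455 → ∃ J F, checkF 1099511627776 true q J F = true := by
  intro q h1 h2
  interval_cases q
  · exact ⟨_, _, ck434⟩
  · exact ⟨_, _, ck435⟩
  · exact ⟨_, _, ck436⟩
  · exact ⟨_, _, ck437⟩
  · exact ⟨_, _, ck438⟩
  · exact ⟨_, _, ck439⟩
  · exact ⟨_, _, ck440⟩
  · exact ⟨_, _, ck441⟩
  · exact ⟨_, _, ck442⟩
  · exact ⟨_, _, ck443⟩
  · exact ⟨_, _, ck444⟩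
  · exact ⟨_, _, ck445⟩
  · exact ⟨_, _, ck446⟩
  · exact ⟨_, _, ck447⟩
  · exact ⟨_, _, ck448⟩
  · exact ⟨_, _, ck449⟩
  · exact ⟨_, _, ck450⟩
  · exact ⟨_, _, ck451⟩
  · exact ⟨_, _, ck452⟩
  · exact ⟨_, _, ck453⟩
  · exact ⟨_, _, ck454⟩

end Pool.Agent.Lib.MP_eeed5c_coC
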