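import Pool.Agent.Lib.MP_eeed5c_co_C.CkR06

/-!
# The finite computation for `455 ≤ q < 474`
-/

set_option autoImplicit false
set_option maxRecDepth 100000

namespace Pool.Agent.Lib.MP_eeed5c_coC

theorem ck455 : checkF 1099511627776 true 455 873 494 = true := by decide +kernel
theorem ck456 : checkF 1099511627776 true 456 874 495 = true := by decide +kernel
theorem ck457 : checkF 1099511627776 true 457 876 496 = true := by decide +kernel
theorem ck458 : checkF 1099511627776 true 458 878 497 = true := by decide +kernel
theorem ck459 : checkF 1099511627776 true 459 880 498 = true := by decide +kernel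
theorem ck460 : checkF 1099511627776 true 460 882 499 = true := by decide +kernel
theorem ck461 : checkF 1099511627776 true 461 884 500 = true := by decide +kernel
theorem ck462 : checkF 1099511627776 true 462 886 501 = true := by decide +kernel
theorem ck463 : checkF 1099511627776 true 463 888 502 = true := by decide +kernel
theorem ck464 : checkF 1099511627776 true 464 890 503 = true := by decide +kernel
theorem ck465 : checkF 1099511627776 true 465 892 504 = true := by decide +kernel
theorem ck466 : checkF 1099511627776 true 466 894 506 = true := by decide +kernel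
theorem ck467 : checkF 1099511627776 true 467 896 507 = true := by decide +kernel
theorem ck468 : checkF 1099511627776 true 468 897 508 = true := by decide +kernel
theorem ck469 : checkF 1099511627776 true 469 899 509 = true := by decide +kernel
theorem ck470 : checkF 1099511627776 true 470 901 510 = true := by decide +kernel
theorem ck471 : checkF 1099511627776 true 471 903 511 = true := by decide +kernel
theorem ck472 : checkF 1099511627776 true 472 905 512 = true := by decide +kernel
theorem ck473 : checkF 1099511627776 true 473 907 513 = true := by decide +kernel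

theorem ckR10 : ∀ q : ℕ, 455 ≤ q → q < 474 → ∃ J F, checkF 1099511627776 true q J F = true := by
  intro q h1 h2
  interval_cases q
  · exact ⟨_, _, ck455⟩
  · exact ⟨_, _, ck456⟩
  · exact ⟨_, _, ck457⟩
  · exact ⟨_, _, ck458⟩
  · exact ⟨_, _, ck459⟩
  · exact ⟨_, _, ck460⟩
  · exact ⟨_, _, ck461⟩
  · exact ⟨_, _, ck462⟩
  · exact ⟨_, _, ck463⟩
  · exact ⟨_, _, ck464⟩
  · exact ⟨_, _, ck465⟩
  · exact ⟨_, _, ck466⟩
  · exact ⟨_, _, ck467⟩
  · exact ⟨_, _, ck468⟩
  · exact ⟨_, _, ck469⟩
  · exact ⟨_, _, ck470⟩
  · exact ⟨_, _, ck471⟩
  · exact ⟨_, _, ck472⟩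
  · exact ⟨_, _, ck473⟩

end Pool.Agent.Lib.MP_eeed5c_coC
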