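import Pool.Agent.Lib.MP_eeed5c_co_C.CkR07

/-!
# The finite computation for `474 ≤ q < 492`
-/

set_option autoImplicit false
set_option maxRecDepth 100000

namespace Pool.Agent.Lib.MP_eeed5c_coC

theorem ck474 : checkF 1099511627776 true 474 909 514 = true := by decide +kernel
theorem ck475 : checkF 1099511627776 true 475 911 515 = true := by decide +kernel
theorem ck476 : checkF 1099511627776 true 476 913 516 = true := by decide +kernel
theorem ck477 : checkF 1099511627776 true 477 915 517 = true := by decide +kernel
theorem ck478 : checkF 1099511627776 true 478 917 519 = true := by decide +kernel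
theorem ck479 : checkF 1099511627776 true 479 919 520 = true := by decide +kernel
theorem ck480 : checkF 1099511627776 true 480 920 521 = true := by decide +kernel
theorem ck481 : checkF 1099511627776 true 481 922 522 = true := by decide +kernel
theorem ck482 : checkF 1099511627776 true 482 924 523 = true := by decide +kernel
theorem ck483 : checkF 1099511627776 true 483 926 524 = true := by decide +kernel
theorem ck484 : checkF 1099511627776 true 484 928 525 = true := by decide +kernel
theorem ck485 : checkF 1099511627776 true 485 930 526 = true := by decide +kernel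
theorem ck486 : checkF 1099511627776 true 486 932 527 = true := by decide +kernel
theorem ck487 : checkF 1099511627776 true 487 934 528 = true := by decide +kernel
theorem ck488 : checkF 1099511627776 true 488 936 529 = true := by decide +kernel
theorem ck489 : checkF 1099511627776 true 489 938 530 = true := by decide +kernel
theorem ck490 : checkF 1099511627776 true 490 940 532 = true := by decide +kernel
theorem ck491 : checkF 1099511627776 true 491 942 533 = true := by decide +kernel

theorem ckR11 : ∀ q : ℕ, 474 ≤ q → q < 492 → ∃ J F, checkF 1099511627776 true q J F = true := by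
  intro q h1 h2
  interval_cases q
  · exact ⟨_, _, ck474⟩
  · exact ⟨_, _, ck475⟩
  · exact ⟨_, _, ck476⟩
  · exact ⟨_, _, ck477⟩
  · exact ⟨_, _, ck478⟩
  · exact ⟨_, _, ck479⟩
  · exact ⟨_, _, ck480⟩
  · exact ⟨_, _, ck481⟩
  · exact ⟨_, _, ck482⟩
  · exact ⟨_, _, ck483⟩
  · exact ⟨_, _, ck484⟩
  · exact ⟨_, _, ck485⟩
  · exact ⟨_, _, ck486⟩
  · exact ⟨_, _, ck487⟩
  · exact ⟨_, _, ck488⟩
  · exact ⟨_, _, ck489⟩
  · exact ⟨_, _, ck490⟩
  · exact ⟨_, _, ck491⟩

end Pool.Agent.Lib.MP_eeed5c_coC
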