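import Pool.Agent.Lib.MP_eeed5c_co_C.CkR08

/-!
# The finite computation for `492 ≤ q < 500`
-/

set_option autoImplicit false
set_option maxRecDepth 100000

namespace Pool.Agent.Lib.MP_eeed5c_coC

theorem ck492 : checkF 1099511627776 true 492 943 534 = true := by decide +kernel
theorem ck493 : checkF 1099511627776 true 493 945 535 = true := by decide +kernel
theorem ck494 : checkF 1099511627776 true 494 947 536 = true := by decide +kernel
theorem ck495 : checkF 1099511627776 true 495 949 537 = true := by decide +kernel
theorem ck496 : checkF 1099511627776 true 496 951 538 = true := by decide +kernel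
theorem ck497 : checkF 1099511627776 true 497 953 539 = true := by decide +kernel
theorem ck498 : checkF 1099511627776 true 498 955 540 = true := by decide +kernel
theorem ck499 : checkF 1099511627776 true 499 957 541 = true := by decide +kernel

theorem ckR12 : ∀ q : ℕ, 492 ≤ q → q < 500 → ∃ J F, checkF 1099511627776 true q J F = true := by
  intro q h1 h2
  interval_cases q
  · exact ⟨_, _, ck492⟩
  · exact ⟨_, _, ck493⟩
  · exact ⟨_, _, ck494⟩
  · exact ⟨_, _, ck495⟩
  · exact ⟨_, _, ck496⟩
  · exact ⟨_, _, ck497⟩
  · exact ⟨_, _, ck498⟩
  · exact ⟨_, _, ck499⟩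

end Pool.Agent.Lib.MP_eeed5c_coC
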