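import Pool.Agent.Lib.MP_eeed5c_co_T.Defs

/-!
# Matchings of graphs of maximum degree three: definitions

`mm G k` is the number of matchings with `k` edges, `dg` the degree, `psi G N` the local quantity
of one matching, `Sg G i` its sum over all matchings with `i` edges, `dd G i` the second order
quantity `d_{i+2}`. `PP q j` is the number of matchings with `j` edges of the disjoint union of `q`
copies of `K_{3,3}`.
-/

set_option autoImplicit false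

namespace Pool.Agent.Lib.MP_eeed5c_coC

open Finset Pool.Agent.Lib.MP_eeed5c_co Pool.Agent.Lib.MP_eeed5c_coT

section

variable {V : Type*} [Fintype V]

/-- The number of matchings with `k` edges, as a real number. -/
noncomputable def mm (G : SimpleGraph V) (k : ℕ) : ℝ := ((mats G k).card : ℝ)

open scoped Classical in
/-- The degree. -/
noncomputable def dg (G : SimpleGraph V) (v : V) : ℕ := (univ.filter fun u => G.Adj v u).card

/-- Maximum degree at most three. -/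
def Sub3 (G : SimpleGraph V) : Prop := ∀ v : V, dg G v ≤ 3

/-- Every vertex has degree three. -/
def Cub (G : SimpleGraph V) : Prop := ∀ v : V, dg G v = 3

open scoped Classical in
/-- The number of uncovered vertices without uncovered neighbours. -/
noncomputable def iso (G : SimpleGraph V) (N : Finset (Sym2 V)) : ℝ :=
  (((free N).filter fun v => D G N v = 0).card : ℝ)

/-- The local quantity of one matching. -/
noncomputable def psi (G : SimpleGraph V) (N : Finset (Sym2 V)) : ℝ := 6 * iso G N + bq G N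

/-- The sum of the local quantities. -/
noncomputable def Sg (G : SimpleGraph V) (i : ℕ) : ℝ := ∑ N ∈ mats G i, psi G N

/-- The second order quantity: with `2ν` vertices and `j = i + 2` this is
`3(ν-3j)m_j + 6(2ν-3j+3)m_{j-1} + 6(ν-j+2)m_{j-2} - (j+1)m_{j+1}`. -/
noncomputable def dd (G : SimpleGraph V) (i : ℕ) : ℝ :=
  3 * ((Fintype.card V : ℝ) / 2 - 3 * i - 6) * mm G (i + 2) +
    6 * ((Fintype.card V : ℝ) - 3 * i - 3) * mm G (i + 1) +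
    6 * ((Fintype.card V : ℝ) / 2 - i) * mm G i - ((i : ℝ) + 3) * mm G (i + 3)

end

/-- The numbers of matchings of `q` copies of `K_{3,3}`. -/
noncomputable def PP (q j : ℕ) : ℝ := mm (KK q 3) j

/-- The system satisfied by `P_j`, the differences `E_j = P_j - m_j` and the numbers `d_j`. -/
structure Sys (n : ℕ) (P E d : ℕ → ℝ) : Prop where
  P_pos : ∀ j, j ≤ n → 0 < P j
  P_zero : ∀ j, n < j → P j = 0
  E_zero : ∀ j, n < j → E j = 0
  E0 : E 0 = 0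
  E1 : E 1 = 0
  E2 : E 2 = 0
  P0 : P 0 = 1
  P1 : P 1 = 3 * n
  P2 : P 2 = (9 * n ^ 2 - 15 * n) / 2
  P_rec : ∀ i : ℕ, ((i : ℝ) + 3) * P (i + 3) =
    3 * ((n : ℝ) - 3 * i - 6) * P (i + 2) + 6 * (2 * (n : ℝ) - 3 * i - 3) * P (i + 1) +
      6 * ((n : ℝ) - i) * P i
  E_rec : ∀ i : ℕ, ((i : ℝ) + 3) * E (i + 3) = d (i + 2) +
    3 * ((n : ℝ) - 3 * i - 6) * E (i + 2) + 6 * (2 * (n : ℝ) - 3 * i - 3) * E (i + 1) +
      6 * ((n : ℝ) - i) * E i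
  d_nn : ∀ j, 0 ≤ d j
  d0 : d 0 = 0
  d1 : d 1 = 0
  P_ulc : ∀ k : ℕ, ((k : ℝ) + 2) * ((n : ℝ) - k) * P (k + 2) * P k ≤
    ((k : ℝ) + 1) * ((n : ℝ) - k - 1) * P (k + 1) ^ 2
  P_rl : ∀ k : ℕ, k < n → ((k : ℝ) + 1) ^ 2 * P (k + 1) ^ 2 + 6 * ((n : ℝ) - k) * P k ^ 2 ≤
    ((k : ℝ) + 1) * ((k : ℝ) + 2) * P (k + 2) * P k + 7 * ((k : ℝ) + 1) * P (k + 1) * P k

/-- The coefficients `B_j` and `C_j` of the recursion for the differences of `E_j / P_j`. -/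
noncomputable def bb (n : ℕ) (P : ℕ → ℝ) (j : ℕ) : ℝ :=
  ((j : ℝ) + 1) * P (j + 1) + 3 * (3 * (j : ℝ) - n) * P j

/-- The coefficient `C_j`. -/
noncomputable def cc (n : ℕ) (P : ℕ → ℝ) (j : ℕ) : ℝ := 6 * ((n : ℝ) + 2 - j) * P (j - 2)

/-- The bound of `ρ_j`. -/
noncomputable def rb (n : ℕ) (P : ℕ → ℝ) (j : ℕ) : ℝ :=
  (4 / 9) * ((j : ℝ) + 1) * P (j + 1) / ((3 * (j : ℝ) - n) * P j)

/-- The last term in the bound of the pair sums. -/
noncomputable def s3 (n : ℕ) (P G X : ℕ → ℝ) (j : ℕ) : ℝ :=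
  cc n P j * rb n P j * X (j + 1) * G j * G (j + 1) / cc n P (j + 2)

/-- The numerical conditions of the upper part. -/
structure Up (n J : ℕ) (P G e f X : ℕ → ℝ) (x : ℝ) : Prop where
  hJ : n ≤ 2 * J
  hJn : J < n
  hK : ∀ j, J < j → j ≤ n → (3 * (j : ℝ) - n) * P j ≤ 2 * ((n : ℝ) + 2 - j) * P (j - 2)
  hR : ∀ j, J + 2 ≤ j → j ≤ n → (8 / 3) * (j : ℝ) * ((n : ℝ) + 2 - j) * P j * P (j - 2) ≤
    (3 * (j : ℝ) - 3 - n) * P (j - 1) *
      (((j : ℝ) + 1) * P (j + 1) + (3 / 4) * (3 * (j : ℝ) - n) * P j)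
  he : ∀ j, J < j → j ≤ n → (3 * (j : ℝ) - n) * G j * (1 + f (j + 1)) * P j ≤
    2 * (1 + e j) * ((n : ℝ) + 1 - j) * P (j - 1)
  hf : ∀ j, J < j → j ≤ n → (3 * (j : ℝ) - n) * G j * e (j + 1) * P j ≤
    2 * f j * ((n : ℝ) + 1 - j) * P (j - 1)
  he0 : ∀ j, 0 ≤ e j
  he1 : ∀ j, e j ≤ 1
  hf0 : ∀ j, 0 ≤ f j
  hXn : 1 ≤ X n
  hX : ∀ j, J < j → j < n → 1 + f (j + 1) +
    rb n P j * X (j + 1) * G (j + 1) * cc n P (j + 1) / cc n P (j + 2) ≤ X j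
  hρ : ∀ j, J < j → j ≤ n → rb n P j ≤ 1
  hs : ∀ j, J < j → j ≤ n → max (bb n P j - cc n P j) 0 * G j * (1 + f (j + 1)) / cc n P (j + 1) +
    max (cc n P j - bb n P j) 0 * G j * e (j + 1) / cc n P (j + 1) + s3 n P G X j ≤ 1
  hx : 1 + |bb n P (J + 1) - cc n P (J + 1)| * G (J + 1) * (1 + f (J + 2)) / cc n P (J + 2) +
    s3 n P G X (J + 1) ≤ x

/-- The numerical conditions of the middle part. -/
structure Mid (n J F : ℕ) (P G a L U Y W : ℕ → ℝ) (x : ℝ) : Prop where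
  hF : 9 ≤ F
  hFJ : F ≤ J
  hJn : J < n
  hF3 : n < 3 * F
  hK : ∀ j, F < j → j ≤ J → 2 * ((n : ℝ) + 2 - j) * P (j - 2) ≤ (3 * (j : ℝ) - n) * P j
  ha0 : ∀ j, 0 ≤ a j
  haJ : ((J : ℝ) + 1) * P (J + 1) ≤ a J * cc n P (J + 1)
  ha : ∀ j, F < j → j ≤ J → (j : ℝ) * P j ≤
    a (j - 1) * (bb n P j - min (a j * cc n P (j + 1)) (((j : ℝ) + 1) * P (j + 1)))
  hL0 : ∀ j, 0 ≤ L j
  hUJ : x ≤ U J
  hL : ∀ j, F < j → j ≤ J → a j * G j * U j ≤ 1 + L (j - 1)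
  hU : ∀ j, F < j → j ≤ J → 1 + a j * G j * L j ≤ U (j - 1)
  hY0 : ∀ j, 0 ≤ Y j
  hY : ∀ j, F ≤ j → j ≤ J → Y (j + 1) + L j * a j * W (j + 1) ≤ min (Y j) (Y (j - 1))
  hW0 : P F ≤ W (F - 1) * P (F - 1)
  hW : ∀ j, F ≤ j + 1 → j ≤ J → G j * W j * P j ≤ W (j + 1) * P (j + 1)

/-- The numerical conditions of the lower part, one level. -/
def CF (n : ℕ) (G : ℕ → ℝ) (r s : ℝ) (j : ℕ) : Prop :=
  (3 * j ≤ n → max r s * ((j : ℝ) - 1) ≤ 6 * (2 * (n : ℝ) + 3 - 3 * j)) ∧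
  (n < 3 * j → 3 * (3 * (j : ℝ) - n) * (2 * (n : ℝ) + 6 - 3 * j) ≤ j * ((n : ℝ) + 2 - j) ∧
    r + 18 * (3 * (j : ℝ) - n) * ((n : ℝ) + 3 - j) / (j * ((j : ℝ) - 3)) / min r s ≤
      (6 * (2 * (n : ℝ) + 3 - 3 * j) + 9 * (3 * (j : ℝ) - n) * (3 * (j : ℝ) - 3 - n) / j) /
        ((j : ℝ) - 1) ∧
    s + 3 * (3 * (j : ℝ) - n) / j * G (j - 2) ≤
      (6 * (2 * (n : ℝ) + 3 - 3 * j) + 9 * (3 * (j : ℝ) - n) * (3 * (j : ℝ) - 3 - n) / j) /
        ((j : ℝ) - 1))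

/-- The numerical conditions of the lower part. -/
structure Low (n F : ℕ) (P G Y : ℕ → ℝ) (r s : ℝ) : Prop where
  hr : 0 < r
  hs : 0 < s
  hc : ∀ j, 3 ≤ j → j < F → CF n G r s j
  hY1 : Y F * (G (F - 2) * G (F - 3)) ≤ G (F - 2) * G (F - 3) + s
  hY2 : Y (F - 1) * ((F : ℝ) - 1) * P (F - 1) * G (F - 2) * (G (F - 3) * G (F - 4)) ≤
    F * P F * (G (F - 3) * G (F - 4) + s)

/-- All numerical conditions. -/
def Good (n : ℕ) (P G : ℕ → ℝ) : Prop :=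
  ∃ (J F : ℕ) (e f X a L U Y W : ℕ → ℝ) (x r s : ℝ),
    Up n J P G e f X x ∧ Mid n J F P G a L U Y W x ∧ Low n F P G Y r s

end Pool.Agent.Lib.MP_eeed5c_coC
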