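import Pool.Agent.Lib.MP_eeed5c_co_C.CkF
import Pool.Agent.Lib.MP_eeed5c_co_C.CkR01
import Pool.Agent.Lib.MP_eeed5c_co_C.CkR02
import Pool.Agent.Lib.MP_eeed5c_co_C.CkR03
import Pool.Agent.Lib.MP_eeed5c_co_C.CkR04
import Pool.Agent.Lib.MP_eeed5c_co_C.CkR05
import Pool.Agent.Lib.MP_eeed5c_co_C.CkR06
import Pool.Agent.Lib.MP_eeed5c_co_C.CkR07
import Pool.Agent.Lib.MP_eeed5c_co_C.CkR08
import Pool.Agent.Lib.MP_eeed5c_co_C.CkR09
import Pool.Agent.Lib.MP_eeed5c_co_C.CkR10
import Pool.Agent.Lib.MP_eeed5c_co_C.CkR11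
import Pool.Agent.Lib.MP_eeed5c_co_C.CkR12

/-!
# The numerical conditions for `25 ≤ q < 500`
-/

set_option autoImplicit false

namespace Pool.Agent.Lib.MP_eeed5c_coC

theorem good_a : ∀ q : ℕ, 25 ≤ q → q < 200 → ∀ P E d : ℕ → ℝ, Sys (3 * q) P E d →
    Good (3 * q) P (G2 (3 * q)) := by
  intro q h1 h2 P E d h
  have hc : ∃ J F, checkF 1099511627776 false q J F = true := by
    exact ckR01 q (by omega) h2
  obtain ⟨J, F, hJF⟩ := hc
  rw [checkF_eq] at hJF
  exact sound_a (by norm_num) h1 hJF h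

theorem good_b : ∀ q : ℕ, 200 ≤ q → q < 500 → ∀ P E d : ℕ → ℝ, Sys (3 * q) P E d →
    Good (3 * q) P (GA (3 * q) P) := by
  intro q h1 h2 P E d h
  have hc : ∃ J F, checkF 1099511627776 true q J F = true := by
    rcases Nat.lt_or_ge q 255 with h | h
    · exact ckR02 q (by omega) h
    rcases Nat.lt_or_ge q 297 with h | h
    · exact ckR03 q (by omega) h
    rcases Nat.lt_or_ge q 331 with h | h
    · exact ckR04 q (by omega) h
    rcases Nat.lt_or_ge q 361 with h | h
    · exact ckR05 q (by omega) h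
    rcases Nat.lt_or_ge q 388 with h | h
    · exact ckR06 q (by omega) h
    rcases Nat.lt_or_ge q 412 with h | h
    · exact ckR07 q (by omega) h
    rcases Nat.lt_or_ge q 434 with h | h
    · exact ckR08 q (by omega) h
    rcases Nat.lt_or_ge q 455 with h | h
    · exact ckR09 q (by omega) h
    rcases Nat.lt_or_ge q 474 with h | h
    · exact ckR10 q (by omega) h
    rcases Nat.lt_or_ge q 492 with h | h
    · exact ckR11 q (by omega) h
    exact ckR12 q (by omega) h2
  obtain ⟨J, F, hJF⟩ := hc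
  rw [checkF_eq] at hJF
  exact sound_b (by norm_num) h1 hJF h

end Pool.Agent.Lib.MP_eeed5c_coC
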