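import Mathlib

/-!
# Newton inequalities for products of linear factors

Induction on `ν`, adding one factor `1 + θ X`, `θ ≥ 0`. Normalised coefficients `g_k`: the coefficients are
`C(ν,k) g_k`. The claim `g_{i+1} g_j ≤ g_i g_{j+1}` for `j ≤ i` is proved by induction, with
`(ν+1) g'_k = (ν+1-k) g_k + θ k g_{k-1}`.
-/

set_option autoImplicit false

namespace Pool.Agent.Lib.MP_eeed5c_coC

open Finset Polynomial

theorem newton_amgm {a b c θ : ℝ} (ha : 0 ≤ a) (hb : 0 ≤ b)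
    (h : c ^ 2 ≤ a * b) : 2 * θ * c ≤ a + θ ^ 2 * b := by
  have h1 : (2 * θ * c) ^ 2 ≤ (a + θ ^ 2 * b) ^ 2 := by
    have h2 : θ ^ 2 * c ^ 2 ≤ θ ^ 2 * (a * b) := mul_le_mul_of_nonneg_left h (sq_nonneg θ)
    nlinarith [sq_nonneg (a - θ ^ 2 * b)]
  have h3 : 0 ≤ a + θ ^ 2 * b := by positivity
  exact abs_le_of_sq_le_sq' h1 h3 |>.2

theorem newton_step {N I J θ a b c p q r : ℝ} (hθ : 0 ≤ θ) (hJ : 0 ≤ J) (hJI : J ≤ I) (hIN : I ≤ N)
    (ha : 0 ≤ a) (hc : 0 ≤ c) (hp : 0 ≤ p) (hq : 0 ≤ q)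
    (h1 : b * p ≤ a * q) (h2 : a * p ≤ c * q) (h3 : J * (b * r) ≤ J * (a * p)) (h4 : J * (a * r) ≤ J * (c * p)) :
    ((N - I) * b + θ * ((I + 1) * a)) * ((N + 1 - J) * p + θ * (J * r)) ≤
      ((N + 1 - I) * a + θ * (I * c)) * ((N - J) * q + θ * ((J + 1) * p)) := by
  have hI : 0 ≤ I := hJ.trans hJI
  have e1 : ((N + 1 - I) * a + θ * (I * c)) * ((N - J) * q + θ * ((J + 1) * p)) -
      ((N - I) * b + θ * ((I + 1) * a)) * ((N + 1 - J) * p + θ * (J * r)) =
      (N - I) * (N + 1 - J) * (a * q - b * p) + θ ^ 2 * ((I + 1) * (J * (c * p) - J * (a * r))) +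
      θ * (I * (N - J) * (c * q - a * p)) + θ * ((N - I) * (J * (a * p) - J * (b * r))) +
      (I - J) * (a * q + θ ^ 2 * (c * p) - 2 * θ * (a * p)) := by ring
  have t1 : 0 ≤ (N - I) * (N + 1 - J) * (a * q - b * p) :=
    mul_nonneg (mul_nonneg (by linarith) (by linarith)) (by linarith)
  have t2 : 0 ≤ θ ^ 2 * ((I + 1) * (J * (c * p) - J * (a * r))) :=
    mul_nonneg (sq_nonneg _) (mul_nonneg (by linarith) (by linarith))
  have t3 : 0 ≤ θ * (I * (N - J) * (c * q - a * p)) :=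
    mul_nonneg hθ (mul_nonneg (mul_nonneg hI (by linarith)) (by linarith))
  have t4 : 0 ≤ θ * ((N - I) * (J * (a * p) - J * (b * r))) :=
    mul_nonneg hθ (mul_nonneg (by linarith) (by linarith))
  have t5 : 0 ≤ (I - J) * (a * q + θ ^ 2 * (c * p) - 2 * θ * (a * p)) := by
    refine mul_nonneg (by linarith) ?_
    have h5 : (a * p) ^ 2 ≤ (a * q) * (c * p) := by
      have h6 : (a * p) * (a * p) ≤ (a * p) * (c * q) := mul_le_mul_of_nonneg_left h2 (mul_nonneg ha hp)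
      nlinarith
    have h6 := newton_amgm (θ := θ) (mul_nonneg ha hq) (mul_nonneg hc hp) h5
    linarith
  linarith

theorem newton_aux (ν : ℕ) : ∀ (μ : Fin ν → ℝ), (∀ i, 0 ≤ μ i) → ∃ g : ℕ → ℝ, (∀ k, 0 ≤ g k) ∧
    (∀ k, ν < k → g k = 0) ∧ (∀ k, (∏ i, (1 + C (μ i) * X)).coeff k = (ν.choose k : ℝ) * g k) ∧
    ∀ i j, j ≤ i → g (i + 1) * g j ≤ g i * g (j + 1) := by
  induction ν with
  | zero =>
    intro μ _
    refine ⟨fun k => if k = 0 then 1 else 0, fun k => ?_, fun k hk => if_neg (by omega), fun k => ?_,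
      fun i j _ => ?_⟩
    · change (0 : ℝ) ≤ if k = 0 then 1 else 0
      split_ifs
      · exact zero_le_one
      · exact le_refl _
    · rw [Finset.univ_eq_empty, Finset.prod_empty, coeff_one]
      rcases k with _ | k
      · simp
      · simp
    · simp
  | succ ν ih =>
    intro μ hμ
    obtain ⟨g, hg0, hgz, hgc, hg⟩ := ih (fun i => μ i.castSucc) fun i => hμ _
    obtain ⟨θ, hθ⟩ : ∃ θ, θ = μ (Fin.last ν) := ⟨_, rfl⟩
    have hθ0 : 0 ≤ θ := hθ ▸ hμ _
    have hν : (0 : ℝ) < ν + 1 := by positivity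
    -- normalised coefficients
    obtain ⟨g', hg'⟩ : ∃ g' : ℕ → ℝ, ∀ k, g' k = (((ν : ℝ) + 1 - k) * g k + θ * (k * g (k - 1))) / (ν + 1) :=
      ⟨_, fun k => rfl⟩
    have hm : ∀ k, ((ν : ℝ) + 1) * g' k = ((ν : ℝ) + 1 - k) * g k + θ * (k * g (k - 1)) := fun k => by
      rw [hg', mul_div_cancel₀ _ hν.ne']
    have hz : ∀ k, ν + 1 < k → g' k = 0 := fun k hk => by
      rw [hg', hgz k (by omega), hgz (k - 1) (by omega), mul_zero, mul_zero, mul_zero, add_zero, zero_div]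
    have hn : ∀ k, 0 ≤ g' k := fun k => by
      by_cases hk : ν + 1 < k
      · rw [hz k hk]
      · have h1 : (k : ℝ) ≤ ν + 1 := by
          have : k ≤ ν + 1 := by omega
          exact_mod_cast this
        rw [hg']
        have h2 : 0 ≤ ((ν : ℝ) + 1 - k) * g k := mul_nonneg (by linarith) (hg0 k)
        have h3 : 0 ≤ θ * (k * g (k - 1)) := mul_nonneg hθ0 (mul_nonneg (Nat.cast_nonneg k) (hg0 _))
        exact div_nonneg (add_nonneg h2 h3) hν.le
    refine ⟨g', hn, hz, fun k => ?_, fun i j hij => ?_⟩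
    · rw [Fin.prod_univ_castSucc, ← hθ]
      have hmul : (∏ i : Fin ν, (1 + C (μ i.castSucc) * X)) * (1 + C θ * X) =
          (∏ i : Fin ν, (1 + C (μ i.castSucc) * X)) + C θ * ((∏ i : Fin ν, (1 + C (μ i.castSucc) * X)) * X) := by
        ring
      rw [hmul, coeff_add, coeff_C_mul, hgc]
      rcases k with _ | k
      · rw [coeff_mul_X_zero, mul_zero, add_zero, Nat.choose_zero_right, Nat.choose_zero_right, Nat.cast_one, one_mul,
          one_mul]
        have h1 := hm 0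
        rw [Nat.cast_zero, sub_zero, zero_mul, mul_zero, add_zero] at h1
        exact (mul_left_cancel₀ hν.ne' h1).symm
      · rw [coeff_mul_X, hgc]
        have h1 := hm (k + 1)
        rw [Nat.add_sub_cancel] at h1
        have h2 : (((ν + 1).choose (k + 1) : ℕ) : ℝ) * ((k : ℝ) + 1) = ((ν : ℝ) + 1) * (ν.choose k : ℝ) := by
          have := Nat.add_one_mul_choose_eq ν k
          have h3 : ((ν + 1) * ν.choose k : ℕ) = (ν + 1).choose (k + 1) * (k + 1) := this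
          have h4 : (((ν + 1) * ν.choose k : ℕ) : ℝ) = (((ν + 1).choose (k + 1) * (k + 1) : ℕ) : ℝ) := by rw [h3]
          push_cast at h4
          linarith
        have h3 : (((ν + 1).choose (k + 1) : ℕ) : ℝ) * ((ν : ℝ) - k) = ((ν : ℝ) + 1) * (ν.choose (k + 1) : ℝ) := by
          have h4 : (((ν + 1).choose (k + 1) : ℕ) : ℝ) = (ν.choose k : ℝ) + (ν.choose (k + 1) : ℝ) := by
            rw [Nat.choose_succ_succ]
            push_cast
            ring
          have h5 := h2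
          rw [h4] at h5 ⊢
          linarith
        refine mul_left_cancel₀ hν.ne' ?_
        calc ((ν : ℝ) + 1) * ((ν.choose (k + 1) : ℝ) * g (k + 1) + θ * ((ν.choose k : ℝ) * g k))
            = (((ν : ℝ) + 1) * (ν.choose (k + 1) : ℝ)) * g (k + 1) +
                θ * ((((ν : ℝ) + 1) * (ν.choose k : ℝ)) * g k) := by ring
          _ = (((ν + 1).choose (k + 1) : ℕ) : ℝ) * ((((ν : ℝ) + 1) - ((k + 1 : ℕ) : ℝ)) * g (k + 1) +
                θ * (((k + 1 : ℕ) : ℝ) * g k)) := by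
              rw [← h2, ← h3]
              push_cast
              ring
          _ = ((ν : ℝ) + 1) * ((((ν + 1).choose (k + 1) : ℕ) : ℝ) * g' (k + 1)) := by
              rw [← h1]
              ring
    · rcases Nat.eq_or_lt_of_le hij with rfl | hij
      · exact le_of_eq (mul_comm _ _)
      rcases Nat.lt_or_ge ν i with hi | hi
      · rw [hz (i + 1) (by omega), zero_mul]
        exact mul_nonneg (hn _) (hn _)
      obtain ⟨i, rfl⟩ : ∃ i', i = i' + 1 := ⟨i - 1, by omega⟩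
      have hb := hm (i + 1 + 1)
      have ha := hm (i + 1)
      have hp := hm j
      have hq := hm (j + 1)
      rw [Nat.add_sub_cancel] at hb ha hq
      have hIN : ((i + 1 : ℕ) : ℝ) ≤ ν := by exact_mod_cast hi
      have hJI : (j : ℝ) ≤ ((i + 1 : ℕ) : ℝ) := by exact_mod_cast hij.le
      have h3 : (j : ℝ) * (g (i + 1 + 1) * g (j - 1)) ≤ j * (g (i + 1) * g j) := by
        rcases j with _ | j
        · rw [Nat.cast_zero, zero_mul, zero_mul]
        · rw [Nat.add_sub_cancel]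
          exact mul_le_mul_of_nonneg_left (hg (i + 1) j (by omega)) (Nat.cast_nonneg _)
      have h4 : (j : ℝ) * (g (i + 1) * g (j - 1)) ≤ j * (g i * g j) := by
        rcases j with _ | j
        · rw [Nat.cast_zero, zero_mul, zero_mul]
        · rw [Nat.add_sub_cancel]
          exact mul_le_mul_of_nonneg_left (hg i j (by omega)) (Nat.cast_nonneg _)
      have key := newton_step (N := (ν : ℝ)) (I := ((i + 1 : ℕ) : ℝ)) (J := (j : ℝ)) hθ0 (Nat.cast_nonneg j) hJI hIN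
        (hg0 (i + 1)) (hg0 i) (hg0 j) (hg0 (j + 1)) (hg (i + 1) j (by omega)) (hg i j (by omega)) h3 h4
      have e1 : ((ν : ℝ) + 1) ^ 2 * (g' (i + 1 + 1) * g' j) =
          (((ν : ℝ) - ((i + 1 : ℕ) : ℝ)) * g (i + 1 + 1) + θ * ((((i + 1 : ℕ) : ℝ) + 1) * g (i + 1))) *
            (((ν : ℝ) + 1 - j) * g j + θ * (j * g (j - 1))) := by
        have h5 : ((ν : ℝ) + 1) ^ 2 * (g' (i + 1 + 1) * g' j) =
            (((ν : ℝ) + 1) * g' (i + 1 + 1)) * (((ν : ℝ) + 1) * g' j) := by ring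
        rw [h5, hb, hp]
        push_cast
        ring
      have e2 : ((ν : ℝ) + 1) ^ 2 * (g' (i + 1) * g' (j + 1)) =
          (((ν : ℝ) + 1 - ((i + 1 : ℕ) : ℝ)) * g (i + 1) + θ * (((i + 1 : ℕ) : ℝ) * g i)) *
            (((ν : ℝ) - j) * g (j + 1) + θ * (((j : ℝ) + 1) * g j)) := by
        have h5 : ((ν : ℝ) + 1) ^ 2 * (g' (i + 1) * g' (j + 1)) =
            (((ν : ℝ) + 1) * g' (i + 1)) * (((ν : ℝ) + 1) * g' (j + 1)) := by ring
        rw [h5, ha, hq]
        push_cast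
        ring
      rw [← e1, ← e2] at key
      exact le_of_mul_le_mul_left key (pow_pos hν 2)

theorem newton (ν : ℕ) (μ : Fin ν → ℝ) (hμ : ∀ i, 0 ≤ μ i) (k : ℕ) :
    ((k : ℝ) + 2) * ((ν : ℝ) - k) * (∏ i, (1 + C (μ i) * X)).coeff (k + 2) *
        (∏ i, (1 + C (μ i) * X)).coeff k ≤
      ((k : ℝ) + 1) * ((ν : ℝ) - k - 1) * ((∏ i, (1 + C (μ i) * X)).coeff (k + 1)) ^ 2 := by
  obtain ⟨g, hg0, hgz, hgc, hg⟩ := newton_aux ν μ hμ
  rw [hgc, hgc, hgc]
  rcases Nat.lt_or_ge ν (k + 1) with h | h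
  · rw [hgz (k + 1) h, hgz (k + 2) (by omega), mul_zero, mul_zero, zero_mul]
    simp
  · have hc1 : ((ν.choose (k + 1) : ℕ) : ℝ) * ((k : ℝ) + 1) = (ν.choose k : ℝ) * ((ν : ℝ) - k) := by
      have h1 := Nat.choose_succ_right_eq ν k
      have h2 : ((ν.choose (k + 1) * (k + 1) : ℕ) : ℝ) = ((ν.choose k * (ν - k) : ℕ) : ℝ) := by rw [h1]
      rw [Nat.cast_mul, Nat.cast_mul, Nat.cast_sub (by omega)] at h2
      push_cast at h2
      exact h2
    have hc2 : ((ν.choose (k + 2) : ℕ) : ℝ) * ((k : ℝ) + 2) = (ν.choose (k + 1) : ℝ) * ((ν : ℝ) - k - 1) := by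
      have h1 := Nat.choose_succ_right_eq ν (k + 1)
      have h2 : ((ν.choose (k + 1 + 1) * (k + 1 + 1) : ℕ) : ℝ) = ((ν.choose (k + 1) * (ν - (k + 1)) : ℕ) : ℝ) := by
        rw [h1]
      rw [Nat.cast_mul, Nat.cast_mul, Nat.cast_sub h] at h2
      push_cast at h2
      have h3 : ((k : ℝ) + 1 + 1) = (k : ℝ) + 2 := by ring
      rw [h3] at h2
      have h4 : (ν : ℝ) - ((k : ℝ) + 1) = (ν : ℝ) - k - 1 := by ring
      rw [h4] at h2
      exact h2
    have h1 := hg (k + 1) k (by omega)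
    have h2 : (0 : ℝ) ≤ (ν : ℝ) - k - 1 := by
      have : ((k + 1 : ℕ) : ℝ) ≤ ν := by exact_mod_cast h
      push_cast at this
      linarith
    calc ((k : ℝ) + 2) * ((ν : ℝ) - k) * ((ν.choose (k + 2) : ℝ) * g (k + 2)) * ((ν.choose k : ℝ) * g k)
        = (((ν.choose (k + 2) : ℕ) : ℝ) * ((k : ℝ) + 2)) * ((ν.choose k : ℝ) * ((ν : ℝ) - k)) *
            (g (k + 1 + 1) * g k) := by ring
      _ = (((k : ℝ) + 1) * ((ν : ℝ) - k - 1) * (ν.choose (k + 1) : ℝ) ^ 2) * (g (k + 1 + 1) * g k) := by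
          rw [hc2, ← hc1]
          ring
      _ ≤ (((k : ℝ) + 1) * ((ν : ℝ) - k - 1) * (ν.choose (k + 1) : ℝ) ^ 2) * (g (k + 1) * g (k + 1)) := by
          refine mul_le_mul_of_nonneg_left h1 ?_
          positivity
      _ = ((k : ℝ) + 1) * ((ν : ℝ) - k - 1) * ((ν.choose (k + 1) : ℝ) * g (k + 1)) ^ 2 := by ring

end Pool.Agent.Lib.MP_eeed5c_coC
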