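import Pool.Agent.Lib.MP_eeed5c_co_C.HL
import Pool.Agent.Lib.MP_eeed5c_co_C.Newton

/-!
# Ultra log-concavity of the matching numbers

PROOF. Let `p = ∑_k C (mm G k) X^k ∈ ℝ[X]`, degree `≤ ν := card V / 2` (`mm G k = 0` if
`card V < 2k`), constant coefficient `1`. All complex roots of `p` are real and negative
(`zero_free`), so `p` splits over `ℝ` (e.g. `p` mapped to `ℂ` splits, every root is real; or
induction: if `p` has positive degree it has a complex root, which is a negative real `-1/μ`,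
divide by `1 + μ X`). Hence `p = ∏_{i < ν} (1 + μ_i X)` with `μ_i ≥ 0` (pad with `μ_i = 0`).
`newton` gives the inequality with `ν = card V / 2` (floor); multiply by 2 and compare
`(ν-k-1)/(ν-k)` with `(N-2k-2)/(N-2k)`: if `N = 2ν` equal, if `N = 2ν+1` the wanted inequality is
weaker. If `2k+2 > N` both sides vanish or have `m_{k+1} = m_{k+2} = 0`.
-/

set_option autoImplicit false

namespace Pool.Agent.Lib.MP_eeed5c_coC

open Finset Pool.Agent.Lib.MP_eeed5c_co Polynomial

private theorem ULC_split (ν : ℕ) : ∀ p : ℝ[X], p.coeff 0 = 1 → p.natDegree ≤ ν →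
    (∀ x : ℂ, ¬ (x.im = 0 ∧ x.re < 0) → aeval x p ≠ 0) →
    ∃ μ : Fin ν → ℝ, (∀ i, 0 ≤ μ i) ∧ p = ∏ i, (1 + C (μ i) * X) := by
  induction ν with
  | zero =>
    intro p h0 hd _
    refine ⟨fun i => i.elim0, fun i => i.elim0, ?_⟩
    rw [Finset.univ_eq_empty, Finset.prod_empty, eq_C_of_natDegree_le_zero hd, h0, C_1]
  | succ ν ih =>
    intro p h0 hd hz
    by_cases h1 : p.natDegree = 0
    · refine ⟨fun _ => 0, fun _ => le_refl _, ?_⟩
      rw [eq_C_of_natDegree_eq_zero h1, h0, C_1]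
      simp
    · have hp0 : p ≠ 0 := by
        intro h
        rw [h, natDegree_zero] at h1
        exact h1 rfl
      have hdeg : (p.map (algebraMap ℝ ℂ)).degree ≠ 0 := by
        rw [degree_map, degree_eq_natDegree hp0]
        exact_mod_cast h1
      obtain ⟨z, hz0⟩ := IsAlgClosed.exists_root _ hdeg
      have hz1 : aeval z p = 0 := by
        rw [IsRoot.def, eval_map_algebraMap] at hz0
        exact hz0
      have hz2 : z.im = 0 ∧ z.re < 0 := by
        by_contra h
        exact hz z h hz1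
      obtain ⟨x, hx⟩ : ∃ x : ℝ, x = z.re := ⟨_, rfl⟩
      have hzx : z = ((x : ℝ) : ℂ) := by
        apply Complex.ext
        · rw [Complex.ofReal_re, hx]
        · rw [Complex.ofReal_im, hz2.1]
      have hx0 : x < 0 := by rw [hx]; exact hz2.2
      have hxr : p.eval x = 0 := by
        have h2 : aeval ((algebraMap ℝ ℂ) x) p = (algebraMap ℝ ℂ) (p.eval x) := by
          rw [aeval_algebraMap_apply, coe_aeval_eq_eval]
        have h3 : ((algebraMap ℝ ℂ) (p.eval x)) = 0 := by
          rw [← h2]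
          show aeval ((x : ℝ) : ℂ) p = 0
          rw [← hzx]
          exact hz1
        exact (map_eq_zero_iff _ (algebraMap ℝ ℂ).injective).1 h3
      obtain ⟨q', hq'⟩ := dvd_iff_isRoot.2 (show IsRoot p x from hxr)
      obtain ⟨μ₀, hμ₀⟩ : ∃ μ₀ : ℝ, μ₀ = -x⁻¹ := ⟨_, rfl⟩
      have hμ0 : 0 < μ₀ := by
        rw [hμ₀]
        have := inv_lt_zero.2 hx0
        linarith
      obtain ⟨q, hq⟩ : ∃ q : ℝ[X], q = C (-x) * q' := ⟨_, rfl⟩
      have hpq : p = (1 + C μ₀ * X) * q := by
        rw [hq, hq', hμ₀]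
        have h2 : (C (-x⁻¹) : ℝ[X]) * C (-x) = 1 := by
          rw [← C_mul, neg_mul_neg, inv_mul_cancel₀ hx0.ne, C_1]
        have h3 : (C (-x) : ℝ[X]) = - C x := by rw [C_neg]
        calc (X - C x) * q' = (C (-x) + X) * q' := by rw [h3]; ring
          _ = (C (-x) + (C (-x⁻¹) * C (-x)) * X) * q' := by rw [h2, one_mul]
          _ = (1 + C (-x⁻¹) * X) * (C (-x) * q') := by ring
      have hq0 : q.coeff 0 = 1 := by
        have h2 := h0
        rw [hpq, mul_coeff_zero, coeff_add, coeff_one_zero, coeff_C_mul, coeff_X_zero, mul_zero,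
          add_zero, one_mul] at h2
        exact h2
      have hqne : q ≠ 0 := by
        intro h
        rw [h, coeff_zero] at hq0
        exact one_ne_zero hq0.symm
      have hqd : q.natDegree ≤ ν := by
        have h2 : (1 + C μ₀ * X : ℝ[X]).natDegree = 1 := by
          rw [add_comm, ← C_1]
          exact natDegree_linear hμ0.ne'
        have h3 : (1 + C μ₀ * X : ℝ[X]) ≠ 0 := by
          intro h
          rw [h, natDegree_zero] at h2
          exact zero_ne_one h2
        have h4 := natDegree_mul h3 hqne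
        rw [← hpq, h2] at h4
        omega
      obtain ⟨μ, hμ, hμq⟩ := ih q hq0 hqd (fun y hy h => hz y hy (by rw [hpq, map_mul, h, mul_zero]))
      refine ⟨Fin.cons μ₀ μ, fun i => ?_, ?_⟩
      · refine Fin.cases ?_ (fun j => ?_) i
        · rw [Fin.cons_zero]
          exact hμ0.le
        · rw [Fin.cons_succ]
          exact hμ j
      · rw [Fin.prod_univ_succ, Fin.cons_zero]
        simp only [Fin.cons_succ]
        rw [← hμq]
        exact hpq

variable {V : Type*} [Fintype V]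

theorem mm_eq_zero (G : SimpleGraph V) {k : ℕ} (h : Fintype.card V < 2 * k) : mm G k = 0 := by
  unfold mm
  rw [card_mats_eq_zero h, Nat.cast_zero]

private theorem ULC_nn (G : SimpleGraph V) (k : ℕ) : 0 ≤ mm G k := Nat.cast_nonneg _

theorem factor (G : SimpleGraph V) :
    ∃ μ : Fin (Fintype.card V / 2) → ℝ, (∀ i, 0 ≤ μ i) ∧
      ∀ k, mm G k = (∏ i, (1 + C (μ i) * X) : Polynomial ℝ).coeff k := by
  obtain ⟨p, hp⟩ : ∃ p : ℝ[X], p = ∑ k ∈ range (Fintype.card V + 1), C (mm G k) * X ^ k := ⟨_, rfl⟩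
  have hc : ∀ k, p.coeff k = mm G k := by
    intro k
    rw [hp, finset_sum_coeff]
    simp only [coeff_C_mul, coeff_X_pow, mul_ite, mul_one, mul_zero]
    rw [Finset.sum_ite_eq]
    split_ifs with h
    · rfl
    · rw [mem_range] at h
      rw [mm_eq_zero G (by omega)]
  have h0 : p.coeff 0 = 1 := by
    rw [hc]
    unfold mm
    rw [card_mats_zero, Nat.cast_one]
  have hd : p.natDegree ≤ Fintype.card V / 2 := by
    rw [natDegree_le_iff_coeff_eq_zero]
    intro N hN
    rw [hc]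
    exact mm_eq_zero G (by omega)
  obtain ⟨μ, h1, h2⟩ := ULC_split _ p h0 hd (fun x hx => by
    have h3 := zero_free G x hx
    rw [hp, map_sum]
    have h4 : ∀ k ∈ range (Fintype.card V + 1), aeval x (C (mm G k) * X ^ k) = (mm G k : ℂ) * x ^ k := by
      intro k _
      rw [map_mul, map_pow, aeval_X, aeval_C]
      rfl
    rw [Finset.sum_congr rfl h4]
    exact h3)
  exact ⟨μ, h1, fun k => by rw [← h2, hc]⟩

theorem ulc (G : SimpleGraph V) (k : ℕ) :
    ((k : ℝ) + 2) * ((Fintype.card V : ℝ) - 2 * k) * mm G (k + 2) * mm G k ≤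
      ((k : ℝ) + 1) * ((Fintype.card V : ℝ) - 2 * k - 2) * mm G (k + 1) ^ 2 := by
  obtain ⟨μ, hμ, hf⟩ := factor G
  have hN := newton (Fintype.card V / 2) μ hμ k
  rw [← hf, ← hf, ← hf] at hN
  have hk0 : (0 : ℝ) ≤ k := Nat.cast_nonneg k
  by_cases h1 : k + 2 ≤ Fintype.card V / 2
  · obtain ⟨ν, hν⟩ : ∃ ν, ν = Fintype.card V / 2 := ⟨_, rfl⟩
    rw [← hν] at hN h1
    have hk1 : (k : ℝ) + 2 ≤ ν := by exact_mod_cast h1
    have hff : 0 ≤ mm G (k + 2) * mm G k := mul_nonneg (ULC_nn G _) (ULC_nn G _)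
    have hsq : 0 ≤ mm G (k + 1) ^ 2 := sq_nonneg _
    rcases Nat.even_or_odd' (Fintype.card V) with ⟨c, hc | hc⟩
    · have h2 : (Fintype.card V : ℝ) = 2 * ν := by
        rw [hc] at hν ⊢
        have : ν = c := by omega
        rw [this]
        push_cast
        ring
      rw [h2]
      nlinarith [hN]
    · have h2 : (Fintype.card V : ℝ) = 2 * ν + 1 := by
        rw [hc] at hν ⊢
        have : ν = c := by omega
        rw [this]
        push_cast
        ring
      rw [h2]
      obtain ⟨a, ha⟩ : ∃ a : ℝ, a = ν - k := ⟨_, rfl⟩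
      have ha2 : 2 ≤ a := by rw [ha]; linarith
      have h3 : (2 * (ν : ℝ) + 1 - 2 * k) = 2 * a + 1 := by rw [ha]; ring
      have h4 : (2 * (ν : ℝ) + 1 - 2 * k - 2) = 2 * a - 1 := by rw [ha]; ring
      rw [h4, h3]
      have h5 : ((k : ℝ) + 2) * a * mm G (k + 2) * mm G k ≤
          ((k : ℝ) + 1) * (a - 1) * mm G (k + 1) ^ 2 := by
        rw [ha]
        exact hN
      have h6 : a * (((k : ℝ) + 2) * (2 * a + 1) * mm G (k + 2) * mm G k) ≤
          a * (((k : ℝ) + 1) * (2 * a - 1) * mm G (k + 1) ^ 2) := by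
        have h7 : (2 * a + 1) * (((k : ℝ) + 2) * a * mm G (k + 2) * mm G k) ≤
            (2 * a + 1) * (((k : ℝ) + 1) * (a - 1) * mm G (k + 1) ^ 2) :=
          mul_le_mul_of_nonneg_left h5 (by linarith)
        have h8 : 0 ≤ ((k : ℝ) + 1) * mm G (k + 1) ^ 2 := mul_nonneg (by linarith) hsq
        nlinarith
      exact le_of_mul_le_mul_left h6 (by linarith)
  · have h2 : mm G (k + 2) = 0 := mm_eq_zero G (by omega)
    rw [h2]
    have h3 : 0 ≤ ((k : ℝ) + 1) * ((Fintype.card V : ℝ) - 2 * k - 2) * mm G (k + 1) ^ 2 := by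
      by_cases h4 : 2 * (k + 1) ≤ Fintype.card V
      · have h5 : 2 * ((k : ℝ) + 1) ≤ Fintype.card V := by exact_mod_cast h4
        exact mul_nonneg (mul_nonneg (by linarith) (by linarith)) (sq_nonneg _)
      · rw [mm_eq_zero G (k := k + 1) (by omega)]
        simp
    simpa using h3

/-- Plain log-concavity. -/
theorem lc (G : SimpleGraph V) (k : ℕ) : mm G (k + 2) * mm G k ≤ mm G (k + 1) ^ 2 := by
  by_cases h1 : 2 * (k + 2) ≤ Fintype.card V
  · have h2 := ulc G k
    have h3 : 2 * ((k : ℝ) + 2) ≤ Fintype.card V := by exact_mod_cast h1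
    have hk0 : (0 : ℝ) ≤ k := Nat.cast_nonneg k
    have hsq : 0 ≤ mm G (k + 1) ^ 2 := sq_nonneg _
    obtain ⟨M, hM⟩ : ∃ M : ℝ, M = (Fintype.card V : ℝ) - 2 * k := ⟨_, rfl⟩
    have hM4 : 4 ≤ M := by rw [hM]; linarith
    rw [← hM] at h2
    have h4 : ((k : ℝ) + 1) * (M - 2) * mm G (k + 1) ^ 2 ≤ ((k : ℝ) + 2) * M * mm G (k + 1) ^ 2 := by
      apply mul_le_mul_of_nonneg_right _ hsq
      nlinarith
    have h5 : (((k : ℝ) + 2) * M) * (mm G (k + 2) * mm G k) ≤ (((k : ℝ) + 2) * M) * mm G (k + 1) ^ 2 := by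
      calc (((k : ℝ) + 2) * M) * (mm G (k + 2) * mm G k) = ((k : ℝ) + 2) * M * mm G (k + 2) * mm G k := by ring
        _ ≤ _ := le_trans h2 h4
    exact le_of_mul_le_mul_left h5 (mul_pos (by linarith) (by linarith))
  · rw [mm_eq_zero G (k := k + 2) (by omega), zero_mul]
    exact sq_nonneg _

end Pool.Agent.Lib.MP_eeed5c_coC
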