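import Pool.Agent.Lib.MP_eeed5c_co_C.StepI
import Pool.Agent.Lib.MP_eeed5c_co_C.ULC

/-!
# Growth of the matching numbers of graphs of maximum degree three

PROOF. `N = card V`, `m_k = mm G k`. `growth_triv`: `Phi_D`, `Phi_const` (Step.lean) and `D ≤ 3`.
`growth_two`: for `k = 0` it is `growth_triv`. For the step put `k+1` instead of `k`:
`step_irr` with `w = 1` gives (with `dg ≤ 3`)
`3 (N-2k-2) m_{k+1} - 2(k+2) m_{k+2} ≥ ∑_{N ∈ mats k} ∑_{a ∈ free} (D_a^2 - D_a)` and by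
Cauchy-Schwarz over the pairs `(N,a)` (there are `(N-2k) m_k` of them, `∑ D = 2(k+1) m_{k+1}`)
`(N-2k) m_k ∑ D_a^2 ≥ (2(k+1) m_{k+1})^2`. So
`(N-2k) m_k [3 (N-2k-2) m_{k+1} - 2(k+2) m_{k+2} + 2(k+1) m_{k+1}] ≥ 4 (k+1)^2 m_{k+1}^2`.
By `ulc`: `(k+2)(N-2k) m_{k+2} m_k ≤ (k+1)(N-2k-2) m_{k+1}^2`. Hence (if `N-2k-2 > 0`, `m_k > 0`;
otherwise `m_{k+2} = 0`)
`4 (k+1)^2 m_{k+1}^2 ≥ 4 (k+1)(k+2)(N-2k)/(N-2k-2) m_{k+2} m_k`, and dividing by `(N-2k) m_k`
`3(N-2k-2) m_{k+1} + 2(k+1) m_{k+1} ≥ 2(k+2) m_{k+2} (1 + 2(k+1)/(N-2k-2))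
 = 2(k+2) m_{k+2} N/(N-2k-2)`, i.e. `2(k+2) N m_{k+2} ≤ (N-2(k+1)) (3N-4(k+1)) m_{k+1}`.
-/

set_option autoImplicit false

namespace Pool.Agent.Lib.MP_eeed5c_coC

open Finset Pool.Agent.Lib.MP_eeed5c_co

variable {V : Type*} [Fintype V]

theorem grow_D (G : SimpleGraph V) (k : ℕ) :
    ∑ N ∈ mats G k, ∑ v ∈ free N, (D G N v : ℝ) = 2 * ((k : ℝ) + 1) * mm G (k + 1) := by
  have h := Phi_D (G := G) k
  unfold Phi at h
  exact h

theorem grow_one (G : SimpleGraph V) (k : ℕ) (c : ℝ) :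
    ∑ N ∈ mats G k, ∑ _v ∈ free N, c = ((Fintype.card V : ℝ) - 2 * k) * mm G k * c := by
  have h := Phi_const (G := G) k c
  unfold Phi at h
  exact h

theorem grow_mm_nonneg (G : SimpleGraph V) (k : ℕ) : 0 ≤ mm G k := by
  unfold mm
  exact Nat.cast_nonneg _

theorem growth_triv (G : SimpleGraph V) (hG : Sub3 G) (k : ℕ) :
    2 * ((k : ℝ) + 1) * mm G (k + 1) ≤ 3 * ((Fintype.card V : ℝ) - 2 * k) * mm G k := by
  have h1 := grow_D G k
  have h2 := grow_one G k 3
  have h3 : ∑ N ∈ mats G k, ∑ v ∈ free N, (D G N v : ℝ) ≤ ∑ N ∈ mats G k, ∑ _v ∈ free N, (3 : ℝ) := by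
    refine Finset.sum_le_sum fun N _ => Finset.sum_le_sum fun v _ => ?_
    have := (D_le_dg G N v).trans (hG v)
    exact_mod_cast this
  rw [h1, h2] at h3
  linarith

/-- Cauchy-Schwarz for the pairs. -/
theorem grow_CS (G : SimpleGraph V) (k : ℕ) :
    (2 * ((k : ℝ) + 1) * mm G (k + 1)) ^ 2 ≤ (((Fintype.card V : ℝ) - 2 * k) * mm G k) *
      ∑ N ∈ mats G k, ∑ v ∈ free N, (D G N v : ℝ) ^ 2 := by
  have h1 := grow_D G k
  have h2 := grow_one G k 1
  rw [mul_one] at h2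
  rw [← h1, ← h2]
  rw [Finset.sum_sigma', Finset.sum_sigma', Finset.sum_sigma']
  have h := Finset.sum_mul_sq_le_sq_mul_sq ((mats G k).sigma fun N => free N) (fun _ => (1 : ℝ))
    (fun x => (D G x.1 x.2 : ℝ))
  simpa using h

theorem grow_sq (G : SimpleGraph V) (hG : Sub3 G) (k : ℕ) :
    ∑ N ∈ mats G k, ∑ v ∈ free N, (D G N v : ℝ) ^ 2 ≤
      3 * ((Fintype.card V : ℝ) - 2 * k - 2) * mm G (k + 1) - 2 * ((k : ℝ) + 2) * mm G (k + 2) +
        2 * ((k : ℝ) + 1) * mm G (k + 1) := by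
  classical
  have h := step_irr G k (fun _ => (1 : ℝ))
  have h1 : ∀ N ∈ mats G k, ∑ a ∈ free N, ∑ b ∈ nb G N a, ∑ v ∈ (nb G N a).erase b, (1 : ℝ) =
      ∑ a ∈ free N, ((D G N a : ℝ) ^ 2 - D G N a) := by
    intro N _
    refine (sum_paths N (fun _ => (1 : ℝ))).trans (Finset.sum_congr rfl fun a _ => ?_)
    rw [Finset.sum_const, nsmul_eq_mul]
    change (D G N a : ℝ) * (((D G N a : ℝ) - 1) * 1) = _
    ring
  rw [Finset.sum_congr rfl h1] at h
  simp only [mul_one, Finset.sum_sub_distrib] at h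
  have h2 := grow_D G k
  have h3 := grow_D G (k + 1)
  have h4 := grow_one G (k + 1) 3
  have h5 : ∑ M ∈ mats G (k + 1), ∑ v ∈ free M, (dg G v : ℝ) ≤
      ∑ M ∈ mats G (k + 1), ∑ _v ∈ free M, (3 : ℝ) := by
    refine Finset.sum_le_sum fun N _ => Finset.sum_le_sum fun v _ => ?_
    exact_mod_cast hG v
  push_cast at h3 h4
  rw [h4] at h5
  rw [h2, h3] at h
  have h6 : (k : ℝ) + 1 + 1 = k + 2 := by ring
  rw [h6] at h
  change _ = _ at h
  have h7 : mm G (k + 1 + 1) = mm G (k + 2) := rfl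
  rw [h7] at h
  linarith

theorem growth_two (G : SimpleGraph V) (hG : Sub3 G) (k : ℕ) :
    2 * ((k : ℝ) + 1) * (Fintype.card V : ℝ) * mm G (k + 1) ≤
      ((Fintype.card V : ℝ) - 2 * k) * (3 * (Fintype.card V : ℝ) - 4 * k) * mm G k := by
  rcases k with _ | k
  · have h := growth_triv G hG 0
    have hn : (0 : ℝ) ≤ Fintype.card V := Nat.cast_nonneg _
    have h' := mul_le_mul_of_nonneg_left h hn
    push_cast at h' ⊢
    linarith
  · have ha0 := grow_mm_nonneg G k
    have ha1 := grow_mm_nonneg G (k + 1)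
    have ha2 := grow_mm_nonneg G (k + 2)
    have hk : (0 : ℝ) ≤ k := Nat.cast_nonneg k
    have key : 2 * ((k : ℝ) + 2) * (Fintype.card V : ℝ) * mm G (k + 2) ≤
      ((Fintype.card V : ℝ) - 2 * k - 2) * (3 * (Fintype.card V : ℝ) - 4 * k - 4) * mm G (k + 1) := by
      rcases Nat.lt_or_ge (2 * k + 2) (Fintype.card V) with hn | hn
      · have hn' : (2 : ℝ) * k + 2 < Fintype.card V := by exact_mod_cast hn
        rcases ha0.lt_or_eq with hp | hp
        · have h1 := grow_CS G k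
          have h2 := grow_sq G hG k
          have h3 := ulc G k
          have hq : 0 < ((Fintype.card V : ℝ) - 2 * k) * mm G k := mul_pos (by linarith) hp
          have h4 := h1.trans (mul_le_mul_of_nonneg_left h2 hq.le)
          have hr : 0 ≤ (Fintype.card V : ℝ) - 2 * k - 2 := by linarith
          have h5 := mul_le_mul_of_nonneg_left h4 hr
          have h6 := mul_le_mul_of_nonneg_left h3 (show (0 : ℝ) ≤ 4 * (k + 1) by linarith)
          have h7 : 0 ≤ (((Fintype.card V : ℝ) - 2 * k) * mm G k) *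
              (((Fintype.card V : ℝ) - 2 * k - 2) * (3 * (Fintype.card V : ℝ) - 4 * k - 4) * mm G (k + 1) -
                2 * ((k : ℝ) + 2) * (Fintype.card V : ℝ) * mm G (k + 2)) := by
            linarith
          have h8 := nonneg_of_mul_nonneg_right h7 hq
          linarith
        · have h1 := growth_triv G hG k
          rw [← hp, mul_zero] at h1
          have e1 : mm G (k + 1) = 0 := by
            by_contra hne
            have : 0 < mm G (k + 1) := lt_of_le_of_ne ha1 (Ne.symm hne)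
            have : 0 < 2 * ((k : ℝ) + 1) * mm G (k + 1) := by positivity
            linarith
          have h2 := growth_triv G hG (k + 1)
          rw [e1, mul_zero] at h2
          have e2 : mm G (k + 2) = 0 := by
            by_contra hne
            have : 0 < mm G (k + 2) := lt_of_le_of_ne ha2 (Ne.symm hne)
            have : 0 < 2 * (((k + 1 : ℕ) : ℝ) + 1) * mm G (k + 1 + 1) := by positivity
            linarith
          rw [e1, e2, mul_zero, mul_zero]
      · have e2 : mm G (k + 2) = 0 := mm_eq_zero G (by omega)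
        rw [e2, mul_zero]
        rcases hn.lt_or_eq with h | h
        · have e1 : mm G (k + 1) = 0 := mm_eq_zero G (by omega)
          rw [e1, mul_zero]
        · have h' : (Fintype.card V : ℝ) = 2 * k + 2 := by exact_mod_cast h
          have h'' : (Fintype.card V : ℝ) - 2 * k - 2 = 0 := by linarith
          rw [h'', zero_mul, zero_mul]
    push_cast
    have h7 : mm G (k + 1 + 1) = mm G (k + 2) := rfl
    rw [h7]
    linarith

end Pool.Agent.Lib.MP_eeed5c_coC
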