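import Pool.Agent.Lib.MP_eeed5c_co_C.Window

/-!
# A lower growth bound for fifteen vertices on each side

For a cubic graph with 30 vertices `3 d_5 ≤ 2 d_6`: every matching `N` with three edges can be
extended, away from the local window (at most six vertices), by at least nine edges.
-/

set_option autoImplicit false

namespace Pool.Agent.Lib.MP_eeed5c_coC

open Finset Pool.Agent.Lib.MP_eeed5c_co Pool.Agent.Lib.MP_eeed5c_coT

section

variable {V : Type*} [Fintype V]

omit [Fintype V] in
private theorem LS_mt {W : Finset V} {N : Finset (Sym2 V)} {e : Sym2 V} :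
    e ∈ tch W N ↔ e ∈ N ∧ ∃ w ∈ W, w ∈ e := by
  classical
  unfold tch
  rw [Finset.mem_filter]

private theorem LS_free {W : Finset V} {N : Finset (Sym2 V)} {w : V} (hw : w ∈ W) :
    w ∈ free (tch W N) ↔ w ∈ free N := by
  rw [mem_free, mem_free]
  constructor
  · intro h e he hwe
    exact h e (LS_mt.2 ⟨he, w, hw, hwe⟩) hwe
  · intro h e he
    exact h e (LS_mt.1 he).1

private theorem LS_nb {G : SimpleGraph V} {W : Finset V} {N : Finset (Sym2 V)} {v : V}
    (hv : ∀ u, G.Adj v u → u ∈ W) : nb G (tch W N) v = nb G N v := by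
  ext u
  rw [mem_nb, mem_nb]
  constructor
  · rintro ⟨h1, h2⟩
    exact ⟨(LS_free (hv u h2)).1 h1, h2⟩
  · rintro ⟨h1, h2⟩
    exact ⟨(LS_free (hv u h2)).2 h1, h2⟩

omit [Fintype V] in
open scoped Classical in
private theorem LS_tch_insert {W : Finset V} {N : Finset (Sym2 V)} {p : V × V} (h1 : p.1 ∉ W)
    (h2 : p.2 ∉ W) : tch W (insert s(p.1, p.2) N) = tch W N := by
  ext e
  rw [LS_mt, LS_mt]
  constructor
  · rintro ⟨he, w, hw, hwe⟩
    rcases Finset.mem_insert.1 he with rfl | he
    · exfalso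
      rw [Sym2.mem_iff] at hwe
      rcases hwe with rfl | rfl
      · exact h1 hw
      · exact h2 hw
    · exact ⟨he, w, hw, hwe⟩
  · rintro ⟨he, hw⟩
    exact ⟨Finset.mem_insert_of_mem he, hw⟩

open scoped Classical in
/-- Many oriented edges inside a big set. -/
private theorem LS_count (G : SimpleGraph V) (hG : Cub G) (hV : Fintype.card V = 30)
    (U : Finset V) (hU : 18 ≤ U.card) :
    18 ≤ (univ.filter fun p : V × V => p.1 ∈ U ∧ p.2 ∈ U ∧ G.Adj p.1 p.2).card := by
  have e1 : (univ.filter fun p : V × V => p.1 ∈ U ∧ p.2 ∈ U ∧ G.Adj p.1 p.2).card =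
      ∑ v ∈ U, (U.filter fun u => G.Adj v u).card := by
    rw [← Finset.card_sigma]
    refine Finset.card_bij' (fun p _ => ⟨p.1, p.2⟩) (fun x _ => (x.1, x.2)) ?_ ?_ ?_ ?_
    · intro p hp
      simp only [Finset.mem_filter, Finset.mem_univ, true_and] at hp
      simp only [Finset.mem_sigma, Finset.mem_filter]
      exact ⟨hp.1, hp.2.1, hp.2.2⟩
    · intro x hx
      simp only [Finset.mem_sigma, Finset.mem_filter] at hx
      simp only [Finset.mem_filter, Finset.mem_univ, true_and]
      exact ⟨hx.1, hx.2.1, hx.2.2⟩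
    · intro p _
      rfl
    · intro x _
      rfl
  have e2 : ∀ v, (U.filter fun u => G.Adj v u).card + (Uᶜ.filter fun u => G.Adj v u).card = 3 := by
    intro v
    rw [← hG v]
    unfold dg
    rw [← Finset.card_union_of_disjoint]
    · congr 1
      ext u
      simp only [Finset.mem_union, Finset.mem_filter, Finset.mem_compl, Finset.mem_univ, true_and]
      tauto
    · rw [Finset.disjoint_left]
      intro u hu hu'
      simp only [Finset.mem_filter, Finset.mem_compl] at hu hu'
      exact hu'.1 hu.1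
  have e3 : ∑ v ∈ U, (Uᶜ.filter fun u => G.Adj v u).card =
      ∑ u ∈ Uᶜ, (U.filter fun v => G.Adj u v).card := by
    have := Finset.sum_card_bipartiteAbove_eq_sum_card_bipartiteBelow (s := U) (t := Uᶜ)
      (fun a b => G.Adj a b)
    unfold Finset.bipartiteAbove Finset.bipartiteBelow at this
    rw [this]
    refine Finset.sum_congr rfl fun u _ => ?_
    congr 1
    ext v
    simp only [Finset.mem_filter, G.adj_comm]
  have e4 : ∑ u ∈ Uᶜ, (U.filter fun v => G.Adj u v).card ≤ 3 * Uᶜ.card := by
    rw [mul_comm, ← smul_eq_mul]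
    refine Finset.sum_le_card_nsmul _ _ _ fun u _ => ?_
    have := e2 u
    omega
  have e5 : ∑ v ∈ U, (U.filter fun u => G.Adj v u).card +
      ∑ v ∈ U, (Uᶜ.filter fun u => G.Adj v u).card = U.card * 3 := by
    rw [← Finset.sum_add_distrib, Finset.sum_congr rfl fun v _ => e2 v, Finset.sum_const,
      smul_eq_mul]
  have e6 : Uᶜ.card + U.card = 30 := by
    rw [Finset.card_compl, hV]
    have : U.card ≤ Fintype.card V := Finset.card_le_univ U
    omega
  rw [e1]
  omega

open scoped Classical in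
/-- The local version. -/
private theorem LS_loc (G : SimpleGraph V) (hG : Cub G) (hV : Fintype.card V = 30)
    (W : Finset V) (hW : W.card ≤ 6) (t : Finset (Sym2 V) → ℝ) (ht0 : ∀ N, 0 ≤ t N)
    (htl : ∀ N, t (tch W N) = t N) :
    9 * ∑ N ∈ mats G 3, t N ≤ 4 * ∑ M ∈ mats G 4, t M := by
  have key := sum_insert (G := G) 3
    (fun M p => if p.1 ∉ W ∧ p.2 ∉ W then t M else 0)
  have h1 : ∑ M ∈ mats G (3 + 1), ∑ p ∈ univ.filter (fun p : V × V => s(p.1, p.2) ∈ M),
      (if p.1 ∉ W ∧ p.2 ∉ W then t M else 0) ≤ 8 * ∑ M ∈ mats G 4, t M := by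
    rw [Finset.mul_sum]
    refine Finset.sum_le_sum fun M hM => ?_
    have h2 : ∑ p ∈ univ.filter (fun p : V × V => s(p.1, p.2) ∈ M),
        (if p.1 ∉ W ∧ p.2 ∉ W then t M else 0) ≤
        ∑ p ∈ univ.filter (fun p : V × V => s(p.1, p.2) ∈ M), (fun _ : V => t M) p.1 := by
      refine Finset.sum_le_sum fun p _ => ?_
      split_ifs
      · exact le_refl _
      · exact ht0 M
    refine h2.trans (le_of_eq ?_)
    refine (sum_darts hM (fun _ : V => t M)).trans ?_
    rw [Finset.sum_const, nsmul_eq_mul]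
    have h3 := card_covered hM
    have h4 : (univ.filter fun a => a ∉ free M).card = 8 := by
      rw [← show 2 * 4 = 8 by norm_num, ← h3]
    rw [h4]
    norm_num
  have h5 : ∑ N ∈ mats G 3, 18 * t N ≤ ∑ N ∈ mats G 3, ∑ p ∈ univ.filter
      (fun p : V × V => p.1 ∈ free N ∧ p.2 ∈ free N ∧ G.Adj p.1 p.2),
      (if p.1 ∉ W ∧ p.2 ∉ W then t (insert s(p.1, p.2) N) else 0) := by
    refine Finset.sum_le_sum fun N hN => ?_
    rw [← Finset.sum_filter, Finset.filter_filter]
    have h6 : ∀ p ∈ univ.filter (fun p : V × V => (p.1 ∈ free N ∧ p.2 ∈ free N ∧ G.Adj p.1 p.2) ∧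
        p.1 ∉ W ∧ p.2 ∉ W), t (insert s(p.1, p.2) N) = t N := by
      intro p hp
      simp only [Finset.mem_filter, Finset.mem_univ, true_and] at hp
      rw [← htl (insert s(p.1, p.2) N), LS_tch_insert hp.2.1 hp.2.2, htl]
    rw [Finset.sum_congr rfl h6, Finset.sum_const, nsmul_eq_mul]
    refine mul_le_mul_of_nonneg_right ?_ (ht0 N)
    have h7 := LS_count G hG hV (free N \ W) (by
      have h8 := card_free hN
      rw [hV] at h8
      have h9 := Finset.le_card_sdiff W (free N)
      omega)
    have h10 : (univ.filter fun p : V × V => p.1 ∈ free N \ W ∧ p.2 ∈ free N \ W ∧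
        G.Adj p.1 p.2) = univ.filter (fun p : V × V => (p.1 ∈ free N ∧ p.2 ∈ free N ∧
        G.Adj p.1 p.2) ∧ p.1 ∉ W ∧ p.2 ∉ W) := by
      ext p
      simp only [Finset.mem_filter, Finset.mem_univ, true_and, Finset.mem_sdiff]
      tauto
    rw [h10] at h7
    exact_mod_cast h7
  rw [← Finset.mul_sum] at h5
  rw [← key] at h5
  linarith

private theorem LS_mem {G : SimpleGraph V} {v u : V} : u ∈ WindowN G v ↔ G.Adj v u := by
  classical
  unfold WindowN
  rw [Finset.mem_filter]
  exact ⟨fun h => h.2, fun h => ⟨Finset.mem_univ _, h⟩⟩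

open scoped Classical in
private theorem LS_psi (G : SimpleGraph V) (N : Finset (Sym2 V)) :
    psi G N = ∑ v, WindowS G v N + ∑ a, ∑ v, WindowT G a v N := by
  have h1 : 6 * iso G N = ∑ v, WindowS G v N := by
    unfold iso WindowS
    rw [← Finset.sum_filter, Finset.sum_const, nsmul_eq_mul, mul_comm]
    have h2 : (free N).filter (fun v => D G N v = 0) =
        univ.filter fun v => v ∈ free N ∧ nb G N v = ∅ := by
      ext v
      rw [Finset.mem_filter, Finset.mem_filter]
      unfold D
      rw [Finset.card_eq_zero]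
      exact ⟨fun h => ⟨Finset.mem_univ _, h⟩, fun h => h.2⟩
    rw [h2]
  have h3 : bq G N = ∑ a, ∑ v, WindowT G a v N := by
    have h4 : ∀ a, ∑ v, WindowT G a v N = if a ∈ free N then
        ∑ v ∈ nb G N a, (((D G N a : ℝ) - D G N v) ^ 2 / 2 +
          (((nb G N a).filter (fun u => G.Adj u v)).card : ℝ)) else 0 := by
      intro a
      unfold WindowT
      by_cases ha : a ∈ free N
      · rw [if_pos ha, ← Finset.sum_filter]
        have h5 : (univ.filter fun v => a ∈ free N ∧ v ∈ nb G N a) = nb G N a := by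
          ext v
          rw [Finset.mem_filter]
          exact ⟨fun h => h.2.2, fun h => ⟨Finset.mem_univ _, ha, h⟩⟩
        rw [h5]
        rfl
      · rw [if_neg ha]
        refine Finset.sum_eq_zero fun v _ => ?_
        rw [if_neg fun h => ha h.1]
    rw [Finset.sum_congr rfl fun a _ => h4 a, ← Finset.sum_filter]
    have h6 : (univ.filter fun a => a ∈ free N) = free N := by
      ext a
      rw [Finset.mem_filter]
      exact ⟨fun h => h.2, fun h => ⟨Finset.mem_univ _, h⟩⟩
    rw [h6]
    unfold bq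
    rw [Finset.mul_sum, ← Finset.sum_add_distrib]
    refine Finset.sum_congr rfl fun a _ => ?_
    rw [Finset.mul_sum, ← Finset.sum_add_distrib]
    refine Finset.sum_congr rfl fun v _ => ?_
    ring
  unfold psi
  rw [h1, h3]

private theorem LS_S_loc {G : SimpleGraph V} {v : V} {W : Finset V} (hv : v ∈ W)
    (hW : ∀ u, G.Adj v u → u ∈ W) (N : Finset (Sym2 V)) :
    WindowS G v (tch W N) = WindowS G v N := by
  unfold WindowS
  rw [LS_nb hW]
  by_cases h : v ∈ free N ∧ nb G N v = ∅
  · rw [if_pos h, if_pos ⟨(LS_free hv).2 h.1, h.2⟩]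
  · rw [if_neg h, if_neg fun h' => h ⟨(LS_free hv).1 h'.1, h'.2⟩]

private theorem LS_T_loc {G : SimpleGraph V} {a v : V} {W : Finset V} (ha : a ∈ W)
    (hW : ∀ u, G.Adj a u → u ∈ W) (hW' : ∀ u, G.Adj v u → u ∈ W) (N : Finset (Sym2 V)) :
    WindowT G a v (tch W N) = WindowT G a v N := by
  unfold WindowT
  rw [LS_nb hW, LS_nb hW']
  by_cases h : a ∈ free N ∧ v ∈ nb G N a
  · rw [if_pos h, if_pos ⟨(LS_free ha).2 h.1, h.2⟩]
  · rw [if_neg h, if_neg fun h' => h ⟨(LS_free ha).1 h'.1, h'.2⟩]

private theorem LS_S_nonneg (G : SimpleGraph V) (v : V) (N : Finset (Sym2 V)) :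
    0 ≤ WindowS G v N := by
  unfold WindowS
  split_ifs
  · norm_num
  · exact le_refl _

private theorem LS_T_nonneg (G : SimpleGraph V) (a v : V) (N : Finset (Sym2 V)) :
    0 ≤ WindowT G a v N := by
  unfold WindowT
  split_ifs
  · positivity
  · exact le_refl _

open scoped Classical in
/-- `3 d_5 ≤ 2 d_6` for cubic graphs with 30 vertices. -/
theorem low_six (G : SimpleGraph V) (hG : Cub G) (hV : Fintype.card V = 30) :
    3 * dd G 3 ≤ 2 * dd G 4 := by
  have hS : ∀ j, Sg G j = ∑ v, ∑ N ∈ mats G j, WindowS G v N +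
      ∑ a, ∑ v, ∑ N ∈ mats G j, WindowT G a v N := by
    intro j
    unfold Sg
    rw [Finset.sum_congr rfl fun N _ => LS_psi G N, Finset.sum_add_distrib, Finset.sum_comm,
      Finset.sum_comm (s := mats G j)]
    congr 1
    refine Finset.sum_congr rfl fun a _ => ?_
    rw [Finset.sum_comm]
  have hN : ∀ v, (WindowN G v).card ≤ 3 := fun v => (hG v).le
  have h1 : 9 * Sg G 3 ≤ 4 * Sg G 4 := by
    rw [hS, hS, mul_add, mul_add, Finset.mul_sum, Finset.mul_sum, Finset.mul_sum, Finset.mul_sum]
    refine add_le_add ?_ ?_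
    · refine Finset.sum_le_sum fun v _ => ?_
      refine LS_loc G hG hV (insert v (WindowN G v)) ?_ (WindowS G v) (LS_S_nonneg G v)
        (LS_S_loc (Finset.mem_insert_self _ _)
          fun u hu => Finset.mem_insert_of_mem (LS_mem.2 hu))
      have := hN v
      exact (Finset.card_insert_le _ _).trans (by omega)
    · refine Finset.sum_le_sum fun a _ => ?_
      rw [Finset.mul_sum, Finset.mul_sum]
      refine Finset.sum_le_sum fun v _ => ?_
      by_cases hav : G.Adj a v
      · refine LS_loc G hG hV (WindowN G a ∪ WindowN G v) ?_ (WindowT G a v) (LS_T_nonneg G a v)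
          (LS_T_loc (Finset.mem_union_right _ (LS_mem.2 hav.symm))
            (fun u hu => Finset.mem_union_left _ (LS_mem.2 hu))
            (fun u hu => Finset.mem_union_right _ (LS_mem.2 hu)))
        have h3 := hN a
        have h4 := hN v
        exact (Finset.card_union_le _ _).trans (by omega)
      · have h0 : ∀ N, WindowT G a v N = 0 := by
          intro N
          unfold WindowT
          rw [if_neg fun h => hav (mem_nb.1 h.2).2]
        rw [Finset.sum_eq_zero fun N _ => h0 N, Finset.sum_eq_zero fun N _ => h0 N, mul_zero,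
          mul_zero]
  have h2 := dd_cub G hG 3
  have h3 := dd_cub G hG 4
  have h4 := dd_nonneg G (fun v => (hG v).le) 3
  linarith

end

end Pool.Agent.Lib.MP_eeed5c_coC
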