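import Pool.Agent.Lib.MP_eeed5c_co_C.StepI

/-!
# The numbers of matchings of `q K_{3,3}`: second moment

PROOFS.
`KK_Sg`: in `KK q 3` adjacent uncovered vertices have equal `D` (`KK_D`, Complete.lean), there are no
triangles (`KK_tri`) and `iso = 0` (`KK_balance`: an uncovered vertex has an uncovered vertex on the
other side of its component, which is its neighbour). So `psi = 0`.
`pair_count`: `∑_{M ∈ mats (k+1)} ∑_{p : s(p.1,p.2) ∈ M} EE M = 2(k+1) ∑_{M ∈ mats (k+1)} EE M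
= 4(k+1)(k+2) m_{k+2}` (`sum_EE` in Variance.lean, `sum_darts`), and by `sum_insert` it is
`∑_{N ∈ mats k} ∑_{(a,b) free, adjacent} EE (insert s(a,b) N)` with
`EE (insert s(a,b) N) = EE N - 2 D_a - 2 D_b + 2` (see `EE_erase` in Variance.lean). So
`4(k+1)(k+2) m_{k+2} = ∑_{N ∈ mats k} (EE^2 + 2 EE - 4 ∑_{v ∈ free N} D_v^2)`.
`PP_rl` (`k < n = 3q`): Cauchy-Schwarz `(∑_N EE)^2 ≤ m_k ∑_N EE^2`, `∑_N EE = 2(k+1) m_{k+1}`; in
`KK q 3` every uncovered vertex has `1 ≤ D ≤ 3`, so `D^2 ≤ 4 D - 3` and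
`∑_N ∑_v D^2 ≤ 4 * 2(k+1) m_{k+1} - 3 * 2(n-k) m_k`. Hence
`4(k+1)(k+2) m_{k+2} m_k ≥ 4(k+1)^2 m_{k+1}^2 + 4(k+1) m_{k+1} m_k - 32 (k+1) m_{k+1} m_k
   + 24 (n-k) m_k^2`; divide by 4.
-/

set_option autoImplicit false

namespace Pool.Agent.Lib.MP_eeed5c_coC

open Finset Pool.Agent.Lib.MP_eeed5c_co Pool.Agent.Lib.MP_eeed5c_coT

section

variable {V : Type*} [Fintype V]

theorem mm_nonneg (G : SimpleGraph V) (k : ℕ) : 0 ≤ mm G k := Nat.cast_nonneg _

open scoped Classical in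
/-- The degree of the first vertex of a new edge. -/
theorem D_insert_left {G : SimpleGraph V} {N : Finset (Sym2 V)} {a b : V} (hb : b ∈ free N) (hab : G.Adj a b) :
    D G (insert s(a, b) N) a + 1 = D G N a := by
  have hbn : b ∈ nb G N a := mem_nb.2 ⟨hb, hab⟩
  have hset : nb G (insert s(a, b) N) a = (nb G N a).erase b := by
    ext v
    simp only [mem_nb, Finset.mem_erase, mem_free_insert]
    constructor
    · rintro ⟨⟨h1, h2, h3⟩, h4⟩
      exact ⟨h3, h1, h4⟩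
    · rintro ⟨h3, h1, h4⟩
      exact ⟨⟨h1, h4.ne', h3⟩, h4⟩
  unfold D
  rw [hset, Finset.card_erase_of_mem hbn]
  have h1 : 0 < (nb G N a).card := Finset.card_pos.2 ⟨b, hbn⟩
  omega

open scoped Classical in
theorem EE_insert {G : SimpleGraph V} {k : ℕ} {N : Finset (Sym2 V)} (hN : N ∈ mats G k) {a b : V}
    (ha : a ∈ free N) (hb : b ∈ free N) (hab : G.Adj a b) :
    EE G (insert s(a, b) N) = EE G N + 2 - 2 * (D G N a : ℝ) - 2 * (D G N b : ℝ) := by
  have hM := insert_mem_mats hN ha hb hab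
  have hnot : s(a, b) ∉ N := fun h => mem_free.1 ha _ h (by simp)
  have h1 := EE_erase hM (Finset.mem_insert_self _ _)
  rw [Finset.erase_insert hnot] at h1
  have h2 : (D G (insert s(a, b) N) a : ℝ) + 1 = D G N a := by exact_mod_cast D_insert_left hb hab
  have h3 : (D G (insert s(a, b) N) b : ℝ) + 1 = D G N b := by
    have h := D_insert_left ha hab.symm
    rw [Sym2.eq_swap] at h
    exact_mod_cast h
  linarith

theorem pair_count (G : SimpleGraph V) (k : ℕ) :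
    4 * ((k : ℝ) + 1) * ((k : ℝ) + 2) * mm G (k + 2) =
      ∑ N ∈ mats G k, (EE G N ^ 2 + 2 * EE G N - 4 * ∑ v ∈ free N, (D G N v : ℝ) ^ 2) := by
  classical
  have h1 := sum_insert (G := G) k (fun M _ => EE G M)
  have h2 : ∀ M ∈ mats G (k + 1), ∑ p ∈ univ.filter (fun p : V × V => s(p.1, p.2) ∈ M), EE G M =
      2 * ((k : ℝ) + 1) * EE G M := by
    intro M hM
    have h3 := sum_darts hM (fun _ => EE G M)
    rw [h3, Finset.sum_const, nsmul_eq_mul]
    have h4 := card_covered hM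
    have h5 : ((univ.filter (fun a => a ∉ free M)).card : ℝ) = ((2 * (k + 1) : ℕ) : ℝ) := by
      exact_mod_cast h4
    rw [h5]
    push_cast
    ring
  rw [Finset.sum_congr rfl h2, ← Finset.mul_sum, sum_EE] at h1
  have h6 : ∀ N ∈ mats G k, ∑ p ∈ univ.filter
      (fun p : V × V => p.1 ∈ free N ∧ p.2 ∈ free N ∧ G.Adj p.1 p.2), EE G (insert s(p.1, p.2) N) =
      EE G N ^ 2 + 2 * EE G N - 4 * ∑ v ∈ free N, (D G N v : ℝ) ^ 2 := by
    intro N hN
    have h7 : ∀ p ∈ univ.filter (fun p : V × V => p.1 ∈ free N ∧ p.2 ∈ free N ∧ G.Adj p.1 p.2),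
        EE G (insert s(p.1, p.2) N) = (EE G N + 2 - 2 * (D G N p.1 : ℝ)) - 2 * (D G N p.2 : ℝ) := by
      rintro ⟨a, b⟩ hp
      simp only [Finset.mem_filter, Finset.mem_univ, true_and] at hp
      exact EE_insert hN hp.1 hp.2.1 hp.2.2
    rw [Finset.sum_congr rfl h7,
      sum_pairs N (fun p => (EE G N + 2 - 2 * (D G N p.1 : ℝ)) - 2 * (D G N p.2 : ℝ))]
    have h8 : ∀ a ∈ free N, ∑ b ∈ nb G N a, ((EE G N + 2 - 2 * (D G N a : ℝ)) - 2 * (D G N b : ℝ)) =
        ((EE G N + 2) * (D G N a : ℝ) - 2 * (D G N a : ℝ) ^ 2) - 2 * ∑ b ∈ nb G N a, (D G N b : ℝ) := by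
      intro a _
      rw [Finset.sum_sub_distrib, Finset.sum_const, nsmul_eq_mul, Finset.mul_sum]
      change (D G N a : ℝ) * _ - _ = _
      ring
    have h9 : ∑ a ∈ free N, ∑ b ∈ nb G N a, (D G N b : ℝ) = ∑ a ∈ free N, (D G N a : ℝ) ^ 2 := by
      rw [sum_nb_comm N (fun _ b => (D G N b : ℝ))]
      refine Finset.sum_congr rfl fun a _ => ?_
      rw [Finset.sum_const, nsmul_eq_mul]
      change (D G N a : ℝ) * _ = _
      ring
    rw [Finset.sum_congr rfl h8, Finset.sum_sub_distrib, Finset.sum_sub_distrib, ← Finset.mul_sum, ← Finset.mul_sum,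
      ← Finset.mul_sum, h9]
    change (EE G N + 2) * EE G N - _ - _ = _
    ring
  rw [Finset.sum_congr rfl h6] at h1
  rw [← h1]
  unfold mm
  push_cast
  ring

end

theorem KK_cub (q : ℕ) : Cub (KK q 3) := by
  intro v
  exact KK_deg q 3 v

theorem KK_card (q : ℕ) : Fintype.card (Fin q × Fin 2 × Fin 3) = 2 * (3 * q) := by
  simp only [Fintype.card_prod, Fintype.card_fin]
  ring

/-- No uncovered vertex is isolated. -/
theorem KK_D_pos {q i : ℕ} {N : Finset (Sym2 (Fin q × Fin 2 × Fin 3))} (hN : N ∈ mats (KK q 3) i)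
    {v : Fin q × Fin 2 × Fin 3} (hv : v ∈ free N) : 0 < D (KK q 3) N v := by
  classical
  have hs : (1 - v.2.1 : Fin 2) ≠ v.2.1 := by omega
  have h1 := KK_balance hN v.1 hs
  have h2 : D (KK q 3) N v = ((free N).filter (fun u => u.1 = v.1 ∧ u.2.1 = 1 - v.2.1)).card := by
    unfold D nb
    congr 1
    ext u
    simp only [Finset.mem_filter, KK_adj]
    constructor
    · rintro ⟨h1, h2, h3⟩
      exact ⟨h1, h2.symm, fin_two_eq h3 hs.symm⟩
    · rintro ⟨h1, h2, h3⟩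
      exact ⟨h1, h2.symm, h3 ▸ hs.symm⟩
  have h3 : 0 < ((free N).filter (fun u => u.1 = v.1 ∧ u.2.1 = v.2.1)).card :=
    Finset.card_pos.2 ⟨v, Finset.mem_filter.2 ⟨hv, rfl, rfl⟩⟩
  have h4 : ((free N).filter (fun u => u.1 = v.1 ∧ u.2.1 = 1 - v.2.1)).card =
      ((free N).filter (fun u => u.1 = v.1 ∧ u.2.1 = v.2.1)).card := by
    refine Eq.trans ?_ (h1.trans ?_)
    · congr
    · congr
  rw [h2, h4]
  exact h3

theorem KK_Sg (q i : ℕ) : Sg (KK q 3) i = 0 := by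
  classical
  unfold Sg
  refine Finset.sum_eq_zero fun N hN => ?_
  have h1 : iso (KK q 3) N = 0 := by
    unfold iso
    rw [Nat.cast_eq_zero, Finset.card_eq_zero, Finset.filter_eq_empty_iff]
    intro v hv
    exact (KK_D_pos hN hv).ne'
  have h2 : bq (KK q 3) N = 0 := by
    unfold bq
    have h3 : ∑ a ∈ free N, ∑ v ∈ nb (KK q 3) N a, ((D (KK q 3) N a : ℝ) - D (KK q 3) N v) ^ 2 = 0 := by
      refine Finset.sum_eq_zero fun a _ => Finset.sum_eq_zero fun v hv => ?_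
      rw [KK_D hN a v hv, sub_self]
      ring
    have h4 : ∑ a ∈ free N, ∑ b ∈ nb (KK q 3) N a,
        (((nb (KK q 3) N a).filter (fun v => (KK q 3).Adj v b)).card : ℝ) = 0 := by
      refine Finset.sum_eq_zero fun a _ => Finset.sum_eq_zero fun b hb => ?_
      rw [Nat.cast_eq_zero, Finset.card_eq_zero, Finset.filter_eq_empty_iff]
      intro v hv
      exact KK_tri q 3 a b v (mem_nb.1 hb).2 (mem_nb.1 hv).2
    rw [h3, mul_zero, zero_add]
    exact h4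
  unfold psi
  rw [h1, h2, mul_zero, add_zero]

theorem PP_rl {q k : ℕ} (h : k < 3 * q) :
    ((k : ℝ) + 1) ^ 2 * PP q (k + 1) ^ 2 + 6 * (((3 * q : ℕ) : ℝ) - k) * PP q k ^ 2 ≤
      ((k : ℝ) + 1) * ((k : ℝ) + 2) * PP q (k + 2) * PP q k +
        7 * ((k : ℝ) + 1) * PP q (k + 1) * PP q k := by
  have h1 := pair_count (KK q 3) k
  have h2 : ∑ N ∈ mats (KK q 3) k, EE (KK q 3) N = 2 * ((k : ℝ) + 1) * PP q (k + 1) := sum_EE k
  have h3 := sq_sum_le_card_mul_sum_sq (s := mats (KK q 3) k) (f := fun N => EE (KK q 3) N)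
  have hcard : ((mats (KK q 3) k).card : ℝ) = PP q k := rfl
  rw [h2, hcard] at h3
  have h4 : ∀ N ∈ mats (KK q 3) k, ∑ v ∈ free N, (D (KK q 3) N v : ℝ) ^ 2 ≤
      4 * EE (KK q 3) N - 3 * (2 * ((3 * q : ℕ) : ℝ) - 2 * k) := by
    intro N hN
    have h5 : ∀ v ∈ free N, (D (KK q 3) N v : ℝ) ^ 2 ≤ 4 * (D (KK q 3) N v : ℝ) - 3 := by
      intro v hv
      have h6 : 1 ≤ D (KK q 3) N v := KK_D_pos hN hv
      have h7 : D (KK q 3) N v ≤ 3 := (D_le_dg (KK q 3) N v).trans (KK_cub q v).le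
      have h6' : (1 : ℝ) ≤ D (KK q 3) N v := by exact_mod_cast h6
      have h7' : (D (KK q 3) N v : ℝ) ≤ 3 := by exact_mod_cast h7
      nlinarith
    refine (Finset.sum_le_sum h5).trans (le_of_eq ?_)
    rw [Finset.sum_sub_distrib, Finset.sum_const, nsmul_eq_mul, ← Finset.mul_sum]
    have h8 := card_free hN
    have h9 : ((free N).card : ℝ) = 2 * ((3 * q : ℕ) : ℝ) - 2 * k := by
      have h10 : ((free N).card : ℝ) + 2 * (k : ℝ) = ((2 * (3 * q) : ℕ) : ℝ) := by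
        rw [← KK_card q]
        exact_mod_cast h8
      push_cast at h10 ⊢
      linarith
    rw [h9]
    change 4 * EE (KK q 3) N - _ = _
    ring
  have h5 : ∑ N ∈ mats (KK q 3) k, (EE (KK q 3) N ^ 2 + 2 * EE (KK q 3) N -
      4 * (4 * EE (KK q 3) N - 3 * (2 * ((3 * q : ℕ) : ℝ) - 2 * k))) ≤
      4 * ((k : ℝ) + 1) * ((k : ℝ) + 2) * PP q (k + 2) := by
    have h6 : 4 * ((k : ℝ) + 1) * ((k : ℝ) + 2) * PP q (k + 2) = _ := h1
    rw [h6]
    refine Finset.sum_le_sum fun N hN => ?_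
    linarith [h4 N hN]
  have h6 : ∑ N ∈ mats (KK q 3) k, (EE (KK q 3) N ^ 2 + 2 * EE (KK q 3) N -
      4 * (4 * EE (KK q 3) N - 3 * (2 * ((3 * q : ℕ) : ℝ) - 2 * k))) =
      ∑ N ∈ mats (KK q 3) k, EE (KK q 3) N ^ 2 - 14 * (2 * ((k : ℝ) + 1) * PP q (k + 1)) +
        24 * (((3 * q : ℕ) : ℝ) - k) * PP q k := by
    rw [← h2, Finset.mul_sum, ← Finset.sum_sub_distrib, ← hcard]
    have h7 : (24 * (((3 * q : ℕ) : ℝ) - k) * ((mats (KK q 3) k).card : ℝ)) =
        ∑ N ∈ mats (KK q 3) k, (24 * (((3 * q : ℕ) : ℝ) - k)) := by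
      rw [Finset.sum_const, nsmul_eq_mul]
      ring
    rw [h7, ← Finset.sum_add_distrib]
    refine Finset.sum_congr rfl fun N _ => ?_
    ring
  rw [h6] at h5
  have hm : 0 ≤ PP q k := mm_nonneg _ _
  have h7 := mul_le_mul_of_nonneg_right h5 hm
  nlinarith [h3, h7]

end Pool.Agent.Lib.MP_eeed5c_coC
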