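import Pool.Agent.Lib.MP_eeed5c_co_C.ULC
import Pool.Agent.Lib.MP_eeed5c_co_C.RL

/-!
# Small numbers of edges, positivity, the system

PROOFS.
`mm_zero`: `mats G 0 = {∅}`. `mm_one`: `Phi_D` at `i = 0`: `2 m_1 = ∑_v dg v = 3 * 2n`.
`mm_two`: `step_irr` at `i = 0`, `w = 1`:
`∑_{mats 1} ∑_v (3 - D) = ∑_v D_v (D_v - 1) = 6 * 2n` (`N = ∅`), i.e.
`3 (2n-2) m_1 - 4 m_2 = 12 n`, `m_2 = (3(2n-2) 3n - 12 n)/4 = (9n^2 - 15n)/2`.
With `KK_Sg` and `dd_cub`: `dd (KK q 3) i = 0`, which is the recursion `P_rec` (`card = 6q = 2n`).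
`PP_pos`: `qK_{3,3}` has a perfect matching (`3q` edges), subsets of it are matchings.
`sys`: put everything together (`P_ulc` is `ulc` for `KK q 3`, divided by 2; `P_rl` is `PP_rl`;
`d_nn` is `dd_nonneg`; `E_rec`: subtract the definition of `dd G i` from `P_rec`; `E_zero`, `P_zero`:
`mm_eq_zero`; `E2`: `mm_two` for both graphs).
-/

set_option autoImplicit false

namespace Pool.Agent.Lib.MP_eeed5c_coC

open Finset Pool.Agent.Lib.MP_eeed5c_co Pool.Agent.Lib.MP_eeed5c_coT

section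

variable {V : Type*} [Fintype V]

theorem mats_zero (G : SimpleGraph V) : mats G 0 = {∅} := by
  ext s
  rw [mem_mats, Finset.mem_singleton]
  constructor
  · rintro ⟨_, h, _⟩
    exact Finset.card_eq_zero.1 h
  · rintro rfl
    refine ⟨?_, Finset.card_empty, ?_⟩
    · rw [Finset.coe_empty]
      exact Set.empty_subset _
    · rw [Finset.coe_empty]
      exact Set.pairwise_empty _

theorem free_empty : free (∅ : Finset (Sym2 V)) = univ := by
  ext v
  simp [mem_free]

theorem D_empty (G : SimpleGraph V) (v : V) : D G ∅ v = dg G v := by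
  classical
  unfold D nb dg
  rw [free_empty]

theorem mm_zero (G : SimpleGraph V) : mm G 0 = 1 := by
  unfold mm
  rw [mats_zero, Finset.card_singleton, Nat.cast_one]

theorem mm_one {n : ℕ} (G : SimpleGraph V) (hG : Cub G) (hV : Fintype.card V = 2 * n) :
    mm G 1 = 3 * n := by
  have h1 := Phi_D (G := G) 0
  unfold Phi at h1
  rw [mats_zero, Finset.sum_singleton, free_empty] at h1
  have h2 : ∀ v ∈ (univ : Finset V), (D G ∅ v : ℝ) = 3 := by
    intro v _
    rw [D_empty, hG v]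
    norm_num
  rw [Finset.sum_congr rfl h2, Finset.sum_const, nsmul_eq_mul, Finset.card_univ, hV] at h1
  have h3 : ((mats G (0 + 1)).card : ℝ) = mm G 1 := rfl
  rw [h3] at h1
  push_cast at h1
  linarith

theorem mm_two {n : ℕ} (G : SimpleGraph V) (hG : Cub G) (hV : Fintype.card V = 2 * n) :
    mm G 2 = (9 * (n : ℝ) ^ 2 - 15 * n) / 2 := by
  classical
  have h1 := step_irr G 0 (fun _ => (1 : ℝ))
  rw [mats_zero, Finset.sum_singleton, sum_paths (G := G) ∅ (fun _ => (1 : ℝ)), free_empty] at h1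
  have h2 : ∀ v ∈ (univ : Finset V), ∑ x ∈ nb G ∅ v, ((D G ∅ v : ℝ) - 1) * 1 = 6 := by
    intro v _
    have h3 : (D G ∅ v : ℝ) = 3 := by
      rw [D_empty, hG v]
      norm_num
    rw [Finset.sum_const, nsmul_eq_mul]
    change (D G ∅ v : ℝ) * _ = _
    rw [h3]
    norm_num
  rw [Finset.sum_congr rfl h2, Finset.sum_const, nsmul_eq_mul, Finset.card_univ, hV] at h1
  have h4 : ∑ M ∈ mats G (0 + 1), ∑ v ∈ free M, ((dg G v : ℝ) - (D G M v : ℕ)) * 1 =
      Phi G 1 (fun _ => (3 : ℝ)) - Phi G 1 (fun d => (d : ℝ)) := by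
    unfold Phi
    rw [← Finset.sum_sub_distrib]
    refine Finset.sum_congr rfl fun M _ => ?_
    rw [← Finset.sum_sub_distrib]
    refine Finset.sum_congr rfl fun v _ => ?_
    rw [hG v]
    push_cast
    ring
  rw [h4, Phi_const, Phi_D, hV] at h1
  have h5 : ((mats G (1 + 1)).card : ℝ) = mm G 2 := rfl
  have h6 : ((mats G 1).card : ℝ) = 3 * n := mm_one G hG hV
  rw [h5, h6] at h1
  push_cast at h1
  linarith

end

/-- The edges of the perfect matching. -/
def pe (q : ℕ) (p : Fin q × Fin 3) : Sym2 (Fin q × Fin 2 × Fin 3) := s((p.1, 0, p.2), (p.1, 1, p.2))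

theorem mem_pe {q : ℕ} {p : Fin q × Fin 3} {v : Fin q × Fin 2 × Fin 3} (h : v ∈ pe q p) :
    p = (v.1, v.2.2) := by
  unfold pe at h
  rw [Sym2.mem_iff] at h
  rcases h with rfl | rfl
  · rfl
  · rfl

theorem pe_inj (q : ℕ) : Function.Injective (pe q) := by
  intro p p' h
  have h1 : ((p.1, 0, p.2) : Fin q × Fin 2 × Fin 3) ∈ pe q p := Sym2.mem_mk_left _ _
  rw [h] at h1
  exact (mem_pe h1).symm

theorem PP_pos {q j : ℕ} (h : j ≤ 3 * q) : 0 < PP q j := by
  classical
  have hc : j ≤ (univ : Finset (Fin q × Fin 3)).card := by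
    rw [Finset.card_univ, Fintype.card_prod, Fintype.card_fin, Fintype.card_fin]
    omega
  obtain ⟨S, _, hS⟩ := Finset.exists_subset_card_eq hc
  have hM : S.image (pe q) ∈ mats (KK q 3) j := by
    refine mem_mats.2 ⟨?_, ?_, ?_⟩
    · intro e he
      rw [Finset.mem_coe, Finset.mem_image] at he
      obtain ⟨p, _, rfl⟩ := he
      unfold pe
      rw [SimpleGraph.mem_edgeSet, KK_adj]
      exact ⟨rfl, by simp⟩
    · rw [Finset.card_image_of_injective _ (pe_inj q), hS]
    · intro e he f hf hne v hve hvf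
      rw [Finset.mem_coe, Finset.mem_image] at he hf
      obtain ⟨p, _, rfl⟩ := he
      obtain ⟨p', _, rfl⟩ := hf
      exact hne (by rw [mem_pe hve, mem_pe hvf])
  unfold PP mm
  exact_mod_cast Finset.card_pos.2 ⟨_, hM⟩

theorem sys {V : Type} [Fintype V] {q : ℕ} (G : SimpleGraph V) (hG : Cub G)
    (hV : Fintype.card V = 2 * (3 * q)) :
    Sys (3 * q) (PP q) (fun j => PP q j - mm G j) (fun j => if j < 2 then 0 else dd G (j - 2)) := by
  have hP0 : ∀ j, 3 * q < j → PP q j = 0 := fun j hj => mm_eq_zero _ (by rw [KK_card]; omega)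
  have hm0 : ∀ j, 3 * q < j → mm G j = 0 := fun j hj => mm_eq_zero _ (by rw [hV]; omega)
  have hrec : ∀ i : ℕ, ((i : ℝ) + 3) * PP q (i + 3) =
      3 * (((3 * q : ℕ) : ℝ) - 3 * i - 6) * PP q (i + 2) + 6 * (2 * ((3 * q : ℕ) : ℝ) - 3 * i - 3) * PP q (i + 1) +
      6 * (((3 * q : ℕ) : ℝ) - i) * PP q i := by
    intro i
    have h1 := dd_cub (KK q 3) (KK_cub q) i
    rw [KK_Sg] at h1
    unfold dd at h1
    rw [KK_card] at h1
    unfold PP
    push_cast at h1 ⊢
    linarith
  have hmrec : ∀ i : ℕ, ((i : ℝ) + 3) * mm G (i + 3) = -dd G i +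
      3 * (((3 * q : ℕ) : ℝ) - 3 * i - 6) * mm G (i + 2) + 6 * (2 * ((3 * q : ℕ) : ℝ) - 3 * i - 3) * mm G (i + 1) +
      6 * (((3 * q : ℕ) : ℝ) - i) * mm G i := by
    intro i
    unfold dd
    rw [hV]
    push_cast
    ring
  refine
    { P_pos := fun j hj => PP_pos hj
      P_zero := hP0
      E_zero := fun j hj => ?_
      E0 := ?_
      E1 := ?_
      E2 := ?_
      P0 := mm_zero _
      P1 := mm_one _ (KK_cub q) (KK_card q)
      P2 := mm_two _ (KK_cub q) (KK_card q)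
      P_rec := hrec
      E_rec := fun i => ?_
      d_nn := fun j => ?_
      d0 := if_pos (by norm_num)
      d1 := if_pos (by norm_num)
      P_ulc := fun k => ?_
      P_rl := fun k hk => PP_rl hk }
  · change PP q j - mm G j = 0
    rw [hP0 j hj, hm0 j hj, sub_zero]
  · change PP q 0 - mm G 0 = 0
    unfold PP
    rw [mm_zero, mm_zero, sub_self]
  · change PP q 1 - mm G 1 = 0
    unfold PP
    rw [mm_one _ (KK_cub q) (KK_card q), mm_one G hG hV, sub_self]
  · change PP q 2 - mm G 2 = 0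
    unfold PP
    rw [mm_two _ (KK_cub q) (KK_card q), mm_two G hG hV, sub_self]
  · change ((i : ℝ) + 3) * (PP q (i + 3) - mm G (i + 3)) = (if i + 2 < 2 then 0 else dd G (i + 2 - 2)) +
      3 * (((3 * q : ℕ) : ℝ) - 3 * i - 6) * (PP q (i + 2) - mm G (i + 2)) +
      6 * (2 * ((3 * q : ℕ) : ℝ) - 3 * i - 3) * (PP q (i + 1) - mm G (i + 1)) +
      6 * (((3 * q : ℕ) : ℝ) - i) * (PP q i - mm G i)
    rw [if_neg (by omega), Nat.add_sub_cancel, mul_sub, hrec, hmrec]
    ring
  · change 0 ≤ if j < 2 then 0 else dd G (j - 2)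
    split_ifs
    · exact le_refl _
    · exact dd_nonneg G (fun v => (hG v).le) _
  · have h1 := ulc (KK q 3) k
    rw [KK_card] at h1
    unfold PP
    push_cast at h1 ⊢
    nlinarith [h1]

end Pool.Agent.Lib.MP_eeed5c_coC
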