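import Pool.Agent.Lib.MP_eeed5c_co_C.LPMain
import Pool.Agent.Lib.MP_eeed5c_co_C.LowSix
import Pool.Agent.Lib.MP_eeed5c_co_C.Grow
import Pool.Agent.Lib.MP_eeed5c_co_C.PFacts

/-!
# Cubic graphs with `6 q` vertices, `5 ≤ q ≤ 24`
-/

set_option autoImplicit false

namespace Pool.Agent.Lib.MP_eeed5c_coC

open Finset Pool.Agent.Lib.MP_eeed5c_co Pool.Agent.Lib.MP_eeed5c_coT

private theorem SQ_num {t t0 k k0 a b : ℝ} (ht : 0 < t) (htt : t ≤ t0) (hk0 : 0 ≤ k0)
    (hk : k0 ≤ k) (ha : 0 ≤ a)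
    (h : 2 * (k + 1) * (t + 2 * k) * b ≤ t * (3 * t + 2 * k) * a) :
    b ≤ t0 * (3 * t0 + 2 * k0) / (2 * (t0 + 2 * k0) * (k0 + 1)) * a := by
  have ht0 : 0 < t0 := lt_of_lt_of_le ht htt
  have hk1 : 0 ≤ k := hk0.trans hk
  have hden : 0 < 2 * (t0 + 2 * k0) * (k0 + 1) := by positivity
  have hden2 : 0 < 2 * (k + 1) * (t + 2 * k) := by positivity
  have h1 : t * (t0 + 2 * k0) ≤ t0 * (t + 2 * k) := by
    have := mul_le_mul htt hk hk0 ht0.le
    nlinarith
  have h2 : (3 * t + 2 * k) * (t0 + 2 * k0) ≤ (3 * t0 + 2 * k0) * (t + 2 * k) := by nlinarith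
  have h3 : t * (k0 + 1) ≤ t0 * (k + 1) := mul_le_mul htt (by linarith) (by linarith) ht0.le
  have h4 : (t * (k0 + 1)) * ((3 * t + 2 * k) * (t0 + 2 * k0)) ≤
      (t0 * (k + 1)) * ((3 * t0 + 2 * k0) * (t + 2 * k)) :=
    mul_le_mul h3 h2 (by positivity) (by positivity)
  have h5 : b ≤ t * (3 * t + 2 * k) / (2 * (k + 1) * (t + 2 * k)) * a := by
    rw [div_mul_eq_mul_div, le_div_iff₀ hden2]
    linarith
  refine h5.trans (mul_le_mul_of_nonneg_right ?_ ha)
  rw [div_le_div_iff₀ hden2 hden]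
  nlinarith

/-- Growth of the second order quantities, denominators cleared. -/
theorem growth_clear {V : Type} [Fintype V] {n : ℕ} (G : SimpleGraph V) (hG : Cub G)
    (hV : Fintype.card V = 2 * n) (hn : 5 ≤ n) (j : ℕ) (h5 : 5 ≤ j) (hj : j ≤ n) :
    2 * (2 * (n : ℝ) - 7) * ((j : ℝ) - 4) * dd G (j - 1) ≤
      (2 * (n : ℝ) - 2 * j + 3) * (3 * (2 * (n : ℝ) - 2 * j + 3) + 2 * j - 10) * dd G (j - 2) := by
  have hn' : (5 : ℝ) ≤ n := by exact_mod_cast hn
  obtain ⟨i, rfl⟩ : ∃ i, j = i + 2 := ⟨j - 2, by omega⟩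
  have e1 : i + 2 - 1 = i + 1 := by omega
  have e2 : i + 2 - 2 = i := by omega
  rw [e1, e2]
  have hi3 : (3 : ℝ) ≤ i := by
    have : 3 ≤ i := by omega
    exact_mod_cast this
  have hin : (i : ℝ) + 2 ≤ n := by exact_mod_cast hj
  set g : ℝ := (2 * (n : ℝ) - 2 * i - 1) * (3 * (2 * (n : ℝ) - 2 * i - 1) + 2 * ((i : ℝ) - 3)) /
    (2 * ((2 * (n : ℝ) - 2 * i - 1) + 2 * ((i : ℝ) - 3)) * ((i : ℝ) - 3 + 1)) with hgd
  have hden : 0 < 2 * ((2 * (n : ℝ) - 2 * i - 1) + 2 * ((i : ℝ) - 3)) * ((i : ℝ) - 3 + 1) := by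
    apply mul_pos
    · linarith
    · linarith
  have hpos : 0 ≤ g := by
    rw [hgd]
    apply div_nonneg _ hden.le
    apply mul_nonneg
    · linarith
    · linarith
  have hw := window G hG i (by omega) g hpos ?_
  · have h1 := dd_cub G hG i
    have h2 := dd_cub G hG (i + 1)
    have h3 : dd G (i + 1) ≤ g * dd G i := by
      rw [← h1, ← h2] at hw
      linarith
    rw [hgd, div_mul_eq_mul_div, le_div_iff₀ hden] at h3
    push_cast
    have h4 : 2 * (2 * (n : ℝ) - 7) * ((i : ℝ) + 2 - 4) * dd G (i + 1) =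
        dd G (i + 1) * (2 * ((2 * (n : ℝ) - 2 * i - 1) + 2 * ((i : ℝ) - 3)) * ((i : ℝ) - 3 + 1)) := by
      ring
    rw [h4]
    refine h3.trans (le_of_eq ?_)
    ring
  · intro W _ H k hH hk hki hc
    rw [hV] at hc
    rcases Nat.lt_or_ge (Fintype.card W) (2 * (k + 1)) with hcard | hcard
    · rw [mm_eq_zero H hcard]
      exact mul_nonneg hpos (grow_mm_nonneg H k)
    · have hg := growth_two H hH k
      have hc' : (Fintype.card W : ℝ) + 2 * i + 1 ≤ 2 * n + 2 * k := by exact_mod_cast hc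
      have hcard' : 2 * ((k : ℝ) + 1) ≤ Fintype.card W := by exact_mod_cast hcard
      have hk' : (i : ℝ) ≤ k + 3 := by exact_mod_cast hk
      have key := SQ_num (t := (Fintype.card W : ℝ) - 2 * k) (t0 := 2 * n - 2 * i - 1) (k := k)
        (k0 := (i : ℝ) - 3) (a := mm H k) (b := mm H (k + 1)) (by linarith) (by linarith)
        (by linarith) (by linarith) (grow_mm_nonneg H k) (by nlinarith)
      exact key

theorem lp_hyp {V : Type} [Fintype V] {q : ℕ} (G : SimpleGraph V) (hG : Cub G)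
    (hV : Fintype.card V = 2 * (3 * q)) (hq : 2 ≤ q) :
    UMC.LPHyp (3 * q) (fun j => PP q j - mm G j) (fun j => if j < 2 then 0 else dd G (j - 2)) := by
  have h := sys G hG hV
  refine { E0 := h.E0, E1 := h.E1, E2 := h.E2, En1 := h.E_zero _ (by omega),
           En2 := h.E_zero _ (by omega), hrec := ?_, nonneg := fun j _ _ => h.d_nn j,
           growth := ?_ }
  · intro j h2 _
    obtain ⟨i, rfl⟩ : ∃ i, j = i + 2 := ⟨j - 2, by omega⟩
    have h1 := h.E_rec i
    have e1 : i + 2 + 1 = i + 3 := by ring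
    have e2 : i + 2 - 1 = i + 1 := by omega
    have e3 : i + 2 - 2 = i := by omega
    rw [e1, e2, e3]
    push_cast at h1 ⊢
    linarith
  · intro j h5 hj
    have h1 := growth_clear G hG hV (by omega) j h5 hj
    have e1 : ¬ j < 2 := by omega
    have e2 : ¬ j + 1 < 2 := by omega
    have e3 : j + 1 - 2 = j - 1 := by omega
    simp only [e1, e2, e3, if_false]
    exact h1

/-- The upper matching conjecture for cubic graphs with `6 q` vertices, `5 ≤ q ≤ 24`. -/
theorem small_q {V : Type} [Fintype V] {q : ℕ} (G : SimpleGraph V) (hG : Cub G)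
    (hV : Fintype.card V = 2 * (3 * q)) (h5 : 5 ≤ q) (h24 : q ≤ 24) (j : ℕ) :
    mm G j ≤ PP q j := by
  rcases Nat.lt_or_ge (3 * q) j with hj | hj
  · have h : PP q j - mm G j = 0 := (sys G hG hV).E_zero j hj
    linarith
  · have h : 0 ≤ PP q j - mm G j := by
      refine UMC.lp_small q h5 h24 (lp_hyp G hG hV (by omega)) ?_ j hj
      intro hq
      have h30 : Fintype.card V = 30 := by rw [hV, hq]
      have h1 := low_six G hG h30
      simp only [show ¬ (5 < 2) by norm_num, show ¬ (6 < 2) by norm_num, if_false]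
      exact h1
    linarith

end Pool.Agent.Lib.MP_eeed5c_coC
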