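import Pool.Agent.Lib.MP_eeed5c_co_C.Main
import Pool.Agent.Lib.MP_eeed5c_co_C.SmallQ
import Pool.Agent.Lib.MP_eeed5c_co_C.GoodAB

/-!
# Cubic graphs: the final statement
-/

set_option autoImplicit false

namespace Pool.Agent.Lib.MP_eeed5c_coC

open Finset Pool.Agent.Lib.MP_eeed5c_co Pool.Agent.Lib.MP_eeed5c_coT

theorem cubic_mm {V : Type} [Fintype V] {q : ℕ} (G : SimpleGraph V) (hG : Cub G)
    (hV : Fintype.card V = 2 * (3 * q)) (hq : 5 ≤ q) (k : ℕ) : mm G k ≤ PP q k := by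
  rcases Nat.lt_or_ge q 25 with h1 | h1
  · exact small_q G hG hV hq (by omega) k
  · rcases Nat.lt_or_ge q 200 with h2 | h2
    · exact cubic_of_goodA G hG hV (by omega) (good_a q h1 h2 _ _ _ (sys G hG hV)) k
    · rcases Nat.lt_or_ge q 500 with h3 | h3
      · exact cubic_of_goodB G hG hV h2 (good_b q h2 h3 _ _ _ (sys G hG hV)) k
      · exact cubic_large G hG hV h3 k

theorem cubic_all {V : Type} [Fintype V] {q : ℕ} (G : SimpleGraph V) (hq : 5 ≤ q)
    (hV : Fintype.card V = 2 * q * 3) (hreg : ∀ v : V, (G.neighborSet v).ncard = 3) (k : ℕ) :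
    (mats G k).card ≤ (mats (KK q 3) k).card := by
  have hG : Cub G := fun v => reg_of_ncard hreg v
  have h := cubic_mm G hG (by omega) hq k
  unfold PP mm at h
  exact_mod_cast h

end Pool.Agent.Lib.MP_eeed5c_coC
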