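import Pool.Agent.Lib.MP_eeed5c_co_C.Defs

/-!
# The step identity for graphs of maximum degree three

PROOFS.
(1) `step_irr` is `step_exact` of `Lib/MP_eeed5c_co/Step.lean` without regularity: copy its proof;
the only use of `hreg` there is `D G M v + #(covered neighbours of v) = r`, which becomes
`D G M v + #(covered neighbours of v) = dg G v`.

(2) `key_ident`. Put `m_j = mm G j`, `N = card V`. By `Phi_const`, `Phi_D` (Step.lean)
`∑_{M ∈ mats j} ∑_{v ∈ free M} 1 = (N-2j) m_j`, `∑_{M ∈ mats j} ∑_{v ∈ free M} D = 2(j+1) m_{j+1}`.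
Hence (`j = i+2`, just `ring`)
`2 dd G i = ∑_{mats (i+2)} ∑_v (3-D) + 6 ∑_{mats (i+1)} ∑_v (2-D) + 6 ∑_{mats i} ∑_v (1-D)`.
First use of `step_irr` (at `i+1`, `w = 1`; `sum_paths` gives the right side `∑_a D_a(D_a-1)`):
`∑_{mats (i+2)} ∑_v (3-D) = ∑_{mats (i+2)} ∑_v (3-dg v) + ∑_{mats (i+1)} ∑_v D(D-1)`, and
`D(D-1) + 6(2-D) = (3-D)(4-D)`. So
`2 dd G i = ∑_{mats (i+2)} ∑_v (3-dg v) + ∑_{mats (i+1)} ∑_v (3-D)(4-D) + 6 ∑_{mats i} ∑_v (1-D)`.
Second use (at `i`, `w d = 4 - d`):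
`∑_{mats (i+1)} ∑_v (3-D)(4-D) = ∑_{mats (i+1)} ∑_v (3-dg v)(4-D) +
   ∑_{N ∈ mats i} ∑_{a ∈ free N} ∑_{b ∈ nb a} ∑_{v ∈ nb a \ b} (4 - D (insert s(a,b) N) v)`,
with `D (insert s(a,b) N) v = D N v - 1 - [Adj v b]` (`D_insert`), so the last sum is
`∑_a ∑_{v ∈ nb a} (D_a-1)(5-D_v) + ∑_a ∑_{b ∈ nb a} #{v ∈ nb a : Adj v b}` (`sum_paths`; the case
`v = b` does not contribute to the last term because `Adj b b` is false).
Finally for each `N` (`sum_nb_comm`: `∑_a ∑_{v ∈ nb a} D_v = ∑_a D_a ^ 2`,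
`∑_a ∑_{v ∈ nb a} D_v ^ 2 = ∑_a D_a ^ 3`)
`∑_a ∑_{v ∈ nb a} (D_a-1)(5-D_v) + 6 ∑_a (1-D_a)
  = 1/2 ∑_a ∑_{v ∈ nb a} (D_a-D_v)^2 + ∑_a (1-D_a)(2-D_a)(3-D_a)`
and `(1-D)(2-D)(3-D) = if D = 0 then 6 else 0` for `D ∈ {0,1,2,3}` (`Sub3`). The sum of everything
over `N ∈ mats i` is `Sg G i` (recall `bq` in `MP_eeed5c_co_T/Defs.lean`).
-/

set_option autoImplicit false

namespace Pool.Agent.Lib.MP_eeed5c_coC

open Finset Pool.Agent.Lib.MP_eeed5c_co Pool.Agent.Lib.MP_eeed5c_coT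

variable {V : Type*} [Fintype V]

open scoped Classical in
theorem step_irr (G : SimpleGraph V) (i : ℕ) (w : ℕ → ℝ) :
    ∑ M ∈ mats G (i + 1), ∑ v ∈ free M, ((dg G v : ℝ) - (D G M v : ℕ)) * w (D G M v) =
      ∑ N ∈ mats G i, ∑ a ∈ free N, ∑ b ∈ nb G N a,
        ∑ v ∈ (nb G N a).erase b, w (D G (insert s(a, b) N) v) := by
  have key : ∀ M : Finset (Sym2 V), M ∈ mats G (i + 1) →
      ∑ v ∈ free M, ((dg G v : ℝ) - (D G M v : ℕ)) * w (D G M v) =
      ∑ p ∈ univ.filter (fun p : V × V => s(p.1, p.2) ∈ M), ∑ v ∈ nb G M p.1, w (D G M v) := by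
    intro M hM
    rw [sum_darts hM (fun a => ∑ v ∈ nb G M a, w (D G M v))]
    have h1 : ∀ v ∈ free M, ((dg G v : ℝ) - (D G M v : ℕ)) * w (D G M v) =
        ∑ a ∈ (univ.filter (fun a => a ∉ free M)).filter (fun a => G.Adj v a), w (D G M v) := by
      intro v _
      rw [Finset.sum_const, nsmul_eq_mul]
      congr 1
      have h2 : D G M v + ((univ.filter (fun a => a ∉ free M)).filter (fun a => G.Adj v a)).card
          = dg G v := by
        unfold D nb dg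
        rw [← Finset.card_union_of_disjoint]
        · congr 1
          ext u
          simp only [Finset.mem_union, Finset.mem_filter, Finset.mem_univ, true_and]
          tauto
        · rw [Finset.disjoint_left]
          intro u hu hu'
          simp only [Finset.mem_filter, Finset.mem_univ, true_and] at hu hu'
          exact hu'.1 hu.1
      have h3 : (D G M v : ℝ) + ((univ.filter (fun a => a ∉ free M)).filter
          (fun a => G.Adj v a)).card = dg G v := by exact_mod_cast h2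
      linarith
    rw [Finset.sum_congr rfl h1]
    refine Finset.sum_comm' ?_
    intro x y
    simp only [Finset.mem_filter, Finset.mem_univ, true_and, mem_nb]
    constructor
    · rintro ⟨h1, h2, h3⟩; exact ⟨⟨h1, h3.symm⟩, h2⟩
    · rintro ⟨⟨h1, h2⟩, h3⟩; exact ⟨h1, h3, h2.symm⟩
  rw [Finset.sum_congr rfl key,
    sum_insert (G := G) i (fun M p => ∑ v ∈ nb G M p.1, w (D G M v))]
  refine Finset.sum_congr rfl fun N hN => ?_
  rw [sum_pairs]
  refine Finset.sum_congr rfl fun a ha => ?_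
  refine Finset.sum_congr rfl fun b hb => ?_
  have : nb G (insert s(a, b) N) a = (nb G N a).erase b := by
    ext v
    simp only [mem_nb, Finset.mem_erase, mem_free_insert]
    constructor
    · rintro ⟨⟨h1, h2, h3⟩, h4⟩; exact ⟨h3, h1, h4⟩
    · rintro ⟨h3, h1, h4⟩; exact ⟨⟨h1, h4.ne', h3⟩, h4⟩
  simp only [this]

theorem D_le_dg (G : SimpleGraph V) (M : Finset (Sym2 V)) (v : V) : D G M v ≤ dg G v := by
  classical
  unfold D nb dg
  exact Finset.card_le_card (Finset.filter_subset_filter _ (Finset.subset_univ _))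

/-- A sum over the neighbours of a quantity depending on the vertex only. -/
private theorem StepI_const (G : SimpleGraph V) (N : Finset (Sym2 V)) (f : V → ℝ) :
    ∑ a ∈ free N, ∑ _b ∈ nb G N a, f a = ∑ a ∈ free N, (D G N a : ℝ) * f a := by
  refine Finset.sum_congr rfl fun a _ => ?_
  rw [Finset.sum_const, nsmul_eq_mul]
  rfl

private theorem StepI_comm (G : SimpleGraph V) (N : Finset (Sym2 V)) (f : V → ℝ) :
    ∑ a ∈ free N, ∑ b ∈ nb G N a, f b = ∑ a ∈ free N, (D G N a : ℝ) * f a := by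
  rw [← StepI_const G N f]
  exact sum_nb_comm N (fun _ b => f b)

private theorem StepI_alg (G : SimpleGraph V) (hG : Sub3 G) (N : Finset (Sym2 V)) :
    ∑ a ∈ free N, ∑ v ∈ nb G N a, ((D G N a : ℝ) - 1) * (5 - (D G N v : ℝ)) +
      6 * ∑ a ∈ free N, (1 - (D G N a : ℝ)) =
    (1 / 2) * ∑ a ∈ free N, ∑ v ∈ nb G N a, ((D G N a : ℝ) - D G N v) ^ 2 + 6 * iso G N := by
  classical
  -- the number of isolated vertices
  have hiso : 6 * iso G N = ∑ a ∈ free N, (1 - (D G N a : ℝ)) * (2 - D G N a) * (3 - D G N a) := by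
    unfold iso
    rw [Finset.card_filter, Nat.cast_sum, Finset.mul_sum]
    refine Finset.sum_congr rfl fun a _ => ?_
    have h3 : D G N a ≤ 3 := (D_le_dg G N a).trans (hG a)
    have hc : D G N a = 0 ∨ D G N a = 1 ∨ D G N a = 2 ∨ D G N a = 3 := by omega
    rcases hc with h | h | h | h <;> rw [h] <;> norm_num
  obtain ⟨X, hX⟩ : ∃ X, X = ∑ a ∈ free N, ∑ v ∈ nb G N a, (D G N a : ℝ) * (D G N v : ℝ) := ⟨_, rfl⟩
  have c1 := StepI_const G N (fun a => (D G N a : ℝ))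
  have c2 := StepI_comm G N (fun a => (D G N a : ℝ))
  have c3 := StepI_const G N (fun a => (D G N a : ℝ) ^ 2)
  have c4 := StepI_comm G N (fun a => (D G N a : ℝ) ^ 2)
  have c5 := StepI_const G N (fun _ => (1 : ℝ))
  have e1 : ∑ a ∈ free N, ∑ v ∈ nb G N a, ((D G N a : ℝ) - 1) * (5 - (D G N v : ℝ)) =
      5 * ∑ a ∈ free N, ∑ _v ∈ nb G N a, (D G N a : ℝ) - X -
        5 * ∑ a ∈ free N, ∑ _v ∈ nb G N a, (1 : ℝ) + ∑ a ∈ free N, ∑ v ∈ nb G N a, (D G N v : ℝ) := by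
    rw [hX, Finset.mul_sum, Finset.mul_sum, ← Finset.sum_sub_distrib, ← Finset.sum_sub_distrib,
      ← Finset.sum_add_distrib]
    refine Finset.sum_congr rfl fun a _ => ?_
    rw [Finset.mul_sum, Finset.mul_sum, ← Finset.sum_sub_distrib, ← Finset.sum_sub_distrib,
      ← Finset.sum_add_distrib]
    refine Finset.sum_congr rfl fun v _ => ?_
    ring
  have e2 : ∑ a ∈ free N, ∑ v ∈ nb G N a, ((D G N a : ℝ) - D G N v) ^ 2 =
      ∑ a ∈ free N, ∑ _v ∈ nb G N a, (D G N a : ℝ) ^ 2 - 2 * X +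
        ∑ a ∈ free N, ∑ v ∈ nb G N a, (D G N v : ℝ) ^ 2 := by
    rw [hX, Finset.mul_sum, ← Finset.sum_sub_distrib, ← Finset.sum_add_distrib]
    refine Finset.sum_congr rfl fun a _ => ?_
    rw [Finset.mul_sum, ← Finset.sum_sub_distrib, ← Finset.sum_add_distrib]
    refine Finset.sum_congr rfl fun v _ => ?_
    ring
  rw [e1, e2, hiso, c1, c2, c3, c4, c5]
  obtain ⟨S1, hS1⟩ : ∃ S1, S1 = ∑ a ∈ free N, (D G N a : ℝ) := ⟨_, rfl⟩
  obtain ⟨S2, hS2⟩ : ∃ S2, S2 = ∑ a ∈ free N, (D G N a : ℝ) ^ 2 := ⟨_, rfl⟩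
  obtain ⟨S3, hS3⟩ : ∃ S3, S3 = ∑ a ∈ free N, (D G N a : ℝ) ^ 3 := ⟨_, rfl⟩
  have f1 : ∑ a ∈ free N, (D G N a : ℝ) * (D G N a : ℝ) = S2 := by
    rw [hS2]
    exact Finset.sum_congr rfl fun a _ => by ring
  have f2 : ∑ a ∈ free N, (D G N a : ℝ) * (D G N a : ℝ) ^ 2 = S3 := by
    rw [hS3]
    exact Finset.sum_congr rfl fun a _ => by ring
  have f3 : ∑ a ∈ free N, (D G N a : ℝ) * 1 = S1 := by
    rw [hS1]
    exact Finset.sum_congr rfl fun a _ => by ring
  have f4 : ∑ a ∈ free N, (1 - (D G N a : ℝ)) = (free N).card - S1 := by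
    rw [hS1, Finset.sum_sub_distrib, Finset.sum_const, nsmul_eq_mul, mul_one]
  have f5 : ∑ a ∈ free N, (1 - (D G N a : ℝ)) * (2 - D G N a) * (3 - D G N a) =
      6 * (free N).card - 11 * S1 + 6 * S2 - S3 := by
    have e : ∀ a ∈ free N, (1 - (D G N a : ℝ)) * (2 - D G N a) * (3 - D G N a) =
        6 * 1 - 11 * (D G N a : ℝ) + 6 * (D G N a : ℝ) ^ 2 - (D G N a : ℝ) ^ 3 := fun a _ => by ring
    rw [Finset.sum_congr rfl e, Finset.sum_sub_distrib, Finset.sum_add_distrib, Finset.sum_sub_distrib,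
      ← Finset.mul_sum, ← Finset.mul_sum, ← Finset.mul_sum, Finset.sum_const, nsmul_eq_mul, mul_one,
      ← hS1, ← hS2, ← hS3]
  rw [f1, f2, f3, f4, f5]
  ring

open scoped Classical in
private theorem StepI_local (G : SimpleGraph V) (hG : Sub3 G) (N : Finset (Sym2 V)) :
    ∑ a ∈ free N, ∑ b ∈ nb G N a, ∑ v ∈ (nb G N a).erase b, (4 - (D G (insert s(a, b) N) v : ℝ)) +
      6 * ∑ a ∈ free N, (1 - (D G N a : ℝ)) = psi G N := by
  have e1 : ∑ a ∈ free N, ∑ b ∈ nb G N a,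
      ∑ v ∈ (nb G N a).erase b, (4 - (D G (insert s(a, b) N) v : ℝ)) =
      (∑ a ∈ free N, ∑ b ∈ nb G N a, ∑ v ∈ (nb G N a).erase b, (5 - (D G N v : ℝ))) +
        ∑ a ∈ free N, ∑ b ∈ nb G N a, (((nb G N a).filter (fun v => G.Adj v b)).card : ℝ) := by
    rw [← Finset.sum_add_distrib]
    refine Finset.sum_congr rfl fun a ha => ?_
    rw [← Finset.sum_add_distrib]
    refine Finset.sum_congr rfl fun b hb => ?_
    have hc : (((nb G N a).filter (fun v => G.Adj v b)).card : ℝ) =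
        ∑ v ∈ (nb G N a).erase b, (if G.Adj v b then (1 : ℝ) else 0) := by
      rw [Finset.card_filter, Nat.cast_sum, ← Finset.add_sum_erase _ _ hb]
      have h0 : (((if G.Adj b b then 1 else 0 : ℕ) : ℕ) : ℝ) = 0 := by
        rw [if_neg (G.loopless.irrefl b)]
        exact Nat.cast_zero
      rw [h0, zero_add]
      refine Finset.sum_congr rfl fun v _ => ?_
      by_cases h : G.Adj v b
      · rw [if_pos h, if_pos h, Nat.cast_one]
      · rw [if_neg h, if_neg h, Nat.cast_zero]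
    rw [hc, ← Finset.sum_add_distrib]
    refine Finset.sum_congr rfl fun v hv => ?_
    have h := D_insert ha hb hv
    by_cases hvb : G.Adj v b
    · rw [if_pos hvb] at h ⊢
      have h' : (D G (insert s(a, b) N) v : ℝ) + 1 + 1 = D G N v := by exact_mod_cast h
      linarith
    · rw [if_neg hvb] at h ⊢
      have h' : (D G (insert s(a, b) N) v : ℝ) + 1 + 0 = D G N v := by exact_mod_cast h
      linarith
  have e2 := sum_paths (G := G) N (fun v => 5 - (D G N v : ℝ))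
  have e3 := StepI_alg G hG N
  have e4 : psi G N = 6 * iso G N +
      ((1 / 2) * ∑ a ∈ free N, ∑ v ∈ nb G N a, ((D G N a : ℝ) - D G N v) ^ 2 +
        ∑ a ∈ free N, ∑ b ∈ nb G N a, (((nb G N a).filter (fun v => G.Adj v b)).card : ℝ)) := rfl
  rw [e1, e2, e4]
  linarith

theorem key_ident (G : SimpleGraph V) (hG : Sub3 G) (i : ℕ) :
    2 * dd G i = ∑ M ∈ mats G (i + 2), ∑ v ∈ free M, (3 - (dg G v : ℝ)) +
      ∑ M ∈ mats G (i + 1), ∑ v ∈ free M, (3 - (dg G v : ℝ)) * (4 - (D G M v : ℝ)) + Sg G i := by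
  classical
  -- the values of the sums
  have hS : ∀ (j : ℕ) (c : ℝ), ∑ M ∈ mats G j, ∑ v ∈ free M, (c - (D G M v : ℝ)) =
      c * (((Fintype.card V : ℝ) - 2 * j) * mm G j) - 2 * ((j : ℝ) + 1) * mm G (j + 1) := by
    intro j c
    have h1 := Phi_const (G := G) j c
    have h2 := Phi_D (G := G) j
    unfold Phi at h1 h2
    have h3 : ∑ M ∈ mats G j, ∑ v ∈ free M, (c - (D G M v : ℝ)) =
        ∑ M ∈ mats G j, ∑ _v ∈ free M, c - ∑ M ∈ mats G j, ∑ v ∈ free M, (D G M v : ℝ) := by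
      rw [← Finset.sum_sub_distrib]
      refine Finset.sum_congr rfl fun M _ => ?_
      rw [← Finset.sum_sub_distrib]
    rw [h3, h1, h2]
    unfold mm
    ring
  have hdd : 2 * dd G i = ∑ M ∈ mats G (i + 2), ∑ v ∈ free M, (3 - (D G M v : ℝ)) +
      6 * ∑ M ∈ mats G (i + 1), ∑ v ∈ free M, (2 - (D G M v : ℝ)) +
      6 * ∑ M ∈ mats G i, ∑ v ∈ free M, (1 - (D G M v : ℝ)) := by
    rw [hS, hS, hS]
    unfold dd
    push_cast
    ring
  -- first use of the step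
  have s1 := step_irr G (i + 1) (fun _ => (1 : ℝ))
  have s1' : ∑ N ∈ mats G (i + 1), ∑ a ∈ free N, ∑ b ∈ nb G N a,
      ∑ _v ∈ (nb G N a).erase b, (1 : ℝ) =
      ∑ N ∈ mats G (i + 1), ∑ a ∈ free N, (D G N a : ℝ) * ((D G N a : ℝ) - 1) := by
    refine Finset.sum_congr rfl fun N _ => ?_
    have h := sum_paths (G := G) N (fun _ => (1 : ℝ))
    rw [h]
    refine Finset.sum_congr rfl fun a _ => ?_
    rw [Finset.sum_const, nsmul_eq_mul, mul_one]
    rfl
  have t1 : ∑ M ∈ mats G (i + 2), ∑ v ∈ free M, (3 - (D G M v : ℝ)) =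
      ∑ M ∈ mats G (i + 2), ∑ v ∈ free M, (3 - (dg G v : ℝ)) +
        ∑ N ∈ mats G (i + 1), ∑ a ∈ free N, (D G N a : ℝ) * ((D G N a : ℝ) - 1) := by
    rw [← s1', ← s1, ← Finset.sum_add_distrib]
    refine Finset.sum_congr rfl fun M _ => ?_
    rw [← Finset.sum_add_distrib]
    refine Finset.sum_congr rfl fun v _ => ?_
    ring
  -- second use of the step
  have s2 := step_irr G i (fun d => 4 - (d : ℝ))
  have t2 : ∑ N ∈ mats G (i + 1), ∑ a ∈ free N, (D G N a : ℝ) * ((D G N a : ℝ) - 1) +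
      6 * ∑ M ∈ mats G (i + 1), ∑ v ∈ free M, (2 - (D G M v : ℝ)) =
      ∑ M ∈ mats G (i + 1), ∑ v ∈ free M, (3 - (dg G v : ℝ)) * (4 - (D G M v : ℝ)) +
        ∑ M ∈ mats G (i + 1), ∑ v ∈ free M, ((dg G v : ℝ) - (D G M v : ℕ)) * (4 - (D G M v : ℝ)) := by
    rw [Finset.mul_sum, ← Finset.sum_add_distrib, ← Finset.sum_add_distrib]
    refine Finset.sum_congr rfl fun M _ => ?_
    rw [Finset.mul_sum, ← Finset.sum_add_distrib, ← Finset.sum_add_distrib]
    refine Finset.sum_congr rfl fun v _ => ?_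
    ring
  have t3 : (∑ N ∈ mats G i, ∑ a ∈ free N, ∑ b ∈ nb G N a,
        ∑ v ∈ (nb G N a).erase b, (4 - (D G (insert s(a, b) N) v : ℝ))) +
      6 * ∑ M ∈ mats G i, ∑ v ∈ free M, (1 - (D G M v : ℝ)) = Sg G i := by
    unfold Sg
    rw [Finset.mul_sum, ← Finset.sum_add_distrib]
    exact Finset.sum_congr rfl fun N _ => StepI_local G hG N
  rw [hdd, t1, ← t3, ← s2]
  linarith

theorem psi_nonneg (G : SimpleGraph V) (N : Finset (Sym2 V)) : 0 ≤ psi G N := by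
  classical
  unfold psi iso bq
  have h1 : 0 ≤ ∑ a ∈ free N, ∑ v ∈ nb G N a, ((D G N a : ℝ) - D G N v) ^ 2 :=
    Finset.sum_nonneg fun a _ => Finset.sum_nonneg fun v _ => sq_nonneg _
  have h2 : 0 ≤ ∑ a ∈ free N, ∑ b ∈ nb G N a, (((nb G N a).filter (fun v => G.Adj v b)).card : ℝ) :=
    Finset.sum_nonneg fun a _ => Finset.sum_nonneg fun v _ => Nat.cast_nonneg _
  positivity

theorem dd_nonneg (G : SimpleGraph V) (hG : Sub3 G) (i : ℕ) : 0 ≤ dd G i := by
  have h := key_ident G hG i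
  have hdg : ∀ v, (dg G v : ℝ) ≤ 3 := fun v => by exact_mod_cast hG v
  have h1 : 0 ≤ ∑ M ∈ mats G (i + 2), ∑ v ∈ free M, (3 - (dg G v : ℝ)) :=
    Finset.sum_nonneg fun M _ => Finset.sum_nonneg fun v _ => by linarith [hdg v]
  have h2 : 0 ≤ ∑ M ∈ mats G (i + 1), ∑ v ∈ free M, (3 - (dg G v : ℝ)) * (4 - (D G M v : ℝ)) := by
    refine Finset.sum_nonneg fun M _ => Finset.sum_nonneg fun v _ => mul_nonneg (by linarith [hdg v]) ?_
    have h3 : (D G M v : ℝ) ≤ dg G v := by exact_mod_cast D_le_dg G M v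
    linarith [hdg v]
  have h3 : 0 ≤ Sg G i := Finset.sum_nonneg fun N _ => psi_nonneg G N
  linarith

theorem dd_cub (G : SimpleGraph V) (hG : Cub G) (i : ℕ) : 2 * dd G i = Sg G i := by
  have h := key_ident G (fun v => (hG v).le) i
  have h1 : ∑ M ∈ mats G (i + 2), ∑ v ∈ free M, (3 - (dg G v : ℝ)) = 0 :=
    Finset.sum_eq_zero fun M _ => Finset.sum_eq_zero fun v _ => by rw [hG v]; norm_num
  have h2 : ∑ M ∈ mats G (i + 1), ∑ v ∈ free M, (3 - (dg G v : ℝ)) * (4 - (D G M v : ℝ)) = 0 :=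
    Finset.sum_eq_zero fun M _ => Finset.sum_eq_zero fun v _ => by rw [hG v]; norm_num
  rw [h1, h2] at h
  linarith

end Pool.Agent.Lib.MP_eeed5c_coC
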