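import Pool.Agent.Lib.MP_eeed5c_co_C.Ratio
import Pool.Agent.Lib.MP_eeed5c_co_C.ULC
import Pool.Agent.Lib.MP_eeed5c_co_C.StepI

/-!
# Comparison of the growth of the rest graphs with `q K_{3,3}`

NOTATION. `y = yy P j`, `y' = yy P (j-1)`, `y'' = yy P (j-2)`, range `32 n ≤ 100 j`, `50 j ≤ 33 n`,
`600 ≤ n` (so `j ≥ 192`).

(1) `y_fifth`: `1/5 < y` for `32 n ≤ 100 j` (in the range): `y_lb` with `c = 1/5`:
`(3/5)(n-3j) + (6/25)(2n-3j+3) + (6/125)(n-j+2) < j+1` for `j ≥ .32 n`, `n ≥ 600` (linear).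

(2) `y_two`: `y ≤ 2` for `50 j ≤ 33 n + 50` (one more level is harmless). By `y_mono` it is enough to
treat the largest `j` (so `j ≥ .65 n ≥ 390`). Suppose `y > 2`. `y_step`-type bounds from `y_rl` (drop
the last term): `j y ≤ (j+1+7y) y'`, i.e. `y' ≥ j y/(j+1+7y) ≥ 2j/(j+15) ≥ 19/10` (increasing in `y`)
and `y'' ≥ (j-1) y'/(j+7y') ≥ 9/5`. In `y_rec`: `(j+1)/y = 3(n-3j) + 6(2n-3j+3) y' + 6(n-j+2) y' y''
≥ 3(n-3j) + 6(n-j+2)(19/10)(9/5)` (`2n-3j+3 ≥ 0`) `> j+1`, but `(j+1)/y < j+1`. Contradiction.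

(3) `sc_star`: `2(2n-3j+3)(y-y') + 2(n-j+2)(y^2-y'y'') < 7/2 + 14y + 7y^2`. Put `a = y-y'`,
`b = y'-y''` (`≥ 0`), `u = (n-j+1)y'/j`, `v = (n-j+2)y''/(j-1)`, `w = 1+(7-6u)y`, `w' = 1+(7-6v)y'`.
`y_rl` at `j` and `j-1`: `j a ≤ y' w`, `(j-1) b ≤ y'' w'`; `0 ≤ u, v ≤ 1` (`z_le`), `w, w' ≥ 0`,
`w ≤ 1+7y`. Then
`2(2n-3j+3) a ≤ 2(2n-3j+3) y' w/j = 2(2u - y' + y'/j) w`  (`2n-3j+3 = 2(n-j+1) - (j-1) ≥ 0`),
`y^2-y'y'' = (y+y')a + y'b`, `2(n-j+2)(y+y')a ≤ 2(u+y'/j)(y+y')w`, `2(n-j+2)y'b ≤ 2 v y' w'`.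
As `y' ≤ y`, `-y' = -y + a`: the sum is at most
`w(4u - 2y + 4uy) + 2 v y (1+(7-6v)y) + err`, `err = 2 a w + 2y w/j + 4y^2 w/j
 ≤ (2y(1+7y)^2 + 2y(1+7y) + 4y^2(1+7y))/192`.
Now (complete squares, `24y(1+y)u^2 - B u + B^2/(96y(1+y)) ≥ 0`, `B = 4+32y+40y^2`)
`w(4u-2y+4uy) = -2y(1+7y) + B u - 24y(1+y)u^2 ≤ -2y(1+7y) + (1+8y+10y^2)^2/(6y(1+y))`,
`2vy(1+(7-6v)y) ≤ (1+7y)^2/12`. It remains: for `1/5 ≤ y ≤ 2`
`-2y(1+7y) + (1+8y+10y^2)^2/(6y(1+y)) + (1+7y)^2/12 + err < 7/2+14y+7y^2`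
(multiply by `y(1+y)`; polynomial of degree 5 in one variable; the slack is at least 10 per cent).

(4) `sc0`. Let `m_k = mm H k`. If `m_{k+1} = 0` or `m_k = 0` (then `m_{k+1} = 0` by `lc`/growth;
simply: `m_{k+1} > 0` implies `m_k > 0`) trivial. Suppose `m_k P_{j+1} < m_{k+1} P_j`, i.e.
`t := m_k/m_{k+1} < y`. By `lc`: `m_{k-1} ≤ t m_k`, `m_{k-2} ≤ t m_{k-1}`. `dd_nonneg H (k-2)`:
with `ν = card W/2`, `μ = ν-k ≤ μ0 := n-j-7/2` and `k ≥ j`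
`(k+1) m_{k+1} ≤ 3(μ-2k) m_k + 6(2μ-k+3) m_{k-1} + 6(μ+2) m_{k-2}
  ≤ 3(μ0-2j) m_k + 6(2μ0-j+3) m_{k-1} + 6(μ0+2) m_{k-2}` and `2μ0-j+3 = 2n-3j-4 ≥ 0`, so
`k+1 ≤ t (3(μ0-2j) + 6(2μ0-j+3) t + 6(μ0+2) t^2)`. The bracket is positive, nondecreasing in `t`, so
`j+1 ≤ k+1 < y (3(μ0-2j) + 6(2μ0-j+3) y + 6(μ0+2) y^2)
 = (j+1) - 3y[7/2+14y+7y^2 - 2(2n-3j+3)(y-y') - 2(n-j+2)(y^2-y'y'')]` (`y_rec`), contradiction to (3).
-/

set_option autoImplicit false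

namespace Pool.Agent.Lib.MP_eeed5c_coC

open Pool.Agent.Lib.MP_eeed5c_co

section

variable {n : ℕ} {P E d : ℕ → ℝ}

theorem y_fifth (h : Sys n P E d) (hn : 600 ≤ n) {j : ℕ} (h1 : 32 * n ≤ 100 * j) (h2 : j < n) :
    1 / 5 < yy P j := by
  obtain ⟨i, hi⟩ : ∃ i : ℕ, i = (32 * n + 99) / 100 := ⟨_, rfl⟩
  have hi1 : 32 * n ≤ 100 * i := by omega
  have hi2 : i ≤ j := by omega
  have hi3 : 3 * i ≤ 2 * n + 3 := by omega
  have hi4 : i < n := by omega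
  have hi1' : 32 * (n : ℝ) ≤ 100 * i := by exact_mod_cast hi1
  refine lt_of_lt_of_le (y_lb h (by omega) hi4 hi3 (by norm_num) ?_) (y_mono h hi2 h2)
  linarith

theorem y_two (h : Sys n P E d) (hn : 600 ≤ n) {j : ℕ} (h1 : 50 * j ≤ 33 * n + 50) :
    yy P j ≤ 2 := by
  obtain ⟨i, hi⟩ : ∃ i : ℕ, i = (33 * n + 50) / 50 := ⟨_, rfl⟩
  have hi1 : 50 * i ≤ 33 * n + 50 := by omega
  have hi2 : j ≤ i := by omega
  have hi3 : 390 ≤ i := by omega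
  have hi4 : i < n := by omega
  refine (y_mono h hi2 hi4).trans ?_
  by_contra hy
  have hy : 2 < yy P i := not_le.1 hy
  have e1 : i - 1 - 1 = i - 2 := by omega
  have e2 : ((i - 1 : ℕ) : ℝ) = (i : ℝ) - 1 := by
    rw [Nat.cast_sub (by omega), Nat.cast_one]
  have s1 := y_step h (show 1 ≤ i by omega) hi4 (le_refl (yy P i))
  have s2 := y_step h (show 1 ≤ i - 1 by omega) (show i - 1 < n by omega) (le_refl (yy P (i - 1)))
  rw [e1, e2] at s2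
  have s3 := y_rec h (show 2 ≤ i by omega) hi4
  have p0 := y_pos h hi4
  have p1 := y_pos h (show i - 1 < n by omega)
  have p2 := y_pos h (show i - 2 < n by omega)
  obtain ⟨y, hy'⟩ : ∃ y : ℝ, y = yy P i := ⟨_, rfl⟩
  obtain ⟨y1, hy1'⟩ : ∃ y1 : ℝ, y1 = yy P (i - 1) := ⟨_, rfl⟩
  obtain ⟨y2, hy2'⟩ : ∃ y2 : ℝ, y2 = yy P (i - 2) := ⟨_, rfl⟩
  rw [← hy', ← hy1', ← hy2'] at s3
  rw [← hy', ← hy1'] at s1
  rw [← hy1', ← hy2'] at s2
  rw [← hy'] at p0 hy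
  rw [← hy1'] at p1
  rw [← hy2'] at p2
  obtain ⟨I, hI⟩ : ∃ I : ℝ, I = (i : ℝ) := ⟨_, rfl⟩
  obtain ⟨N, hN⟩ : ∃ N : ℝ, N = (n : ℝ) := ⟨_, rfl⟩
  have r1 : 50 * I ≤ 33 * N + 50 := by
    rw [hI, hN]
    exact_mod_cast hi1
  have r2 : 390 ≤ I := by
    rw [hI]
    exact_mod_cast hi3
  have r3 : 600 ≤ N := by
    rw [hN]
    exact_mod_cast hn
  rw [← hI] at s1 s2 s3
  rw [← hN] at s3
  have q1 : 19 / 10 ≤ y1 := by
    by_contra hc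
    have hc : y1 < 19 / 10 := not_le.1 hc
    have t1 : (I + 1 + 7 * y) * y1 < (I + 1 + 7 * y) * (19 / 10) := mul_lt_mul_of_pos_left hc (by linarith)
    nlinarith
  have q2 : 9 / 5 ≤ y2 := by
    by_contra hc
    have hc : y2 < 9 / 5 := not_le.1 hc
    have t1 : (I - 1 + 1 + 7 * y1) * y2 < (I - 1 + 1 + 7 * y1) * (9 / 5) :=
      mul_lt_mul_of_pos_left hc (by linarith)
    nlinarith
  have q3 : 171 / 50 ≤ y1 * y2 := by
    have := mul_le_mul q1 q2 (by norm_num) p1.le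
    linarith
  have q4 : 0 ≤ 2 * N - 3 * I + 3 := by linarith
  have q5 : 0 ≤ (2 * N - 3 * I + 3) * y1 := mul_nonneg q4 p1.le
  have q6 : (N - I + 2) * (171 / 50) ≤ (N - I + 2) * (y1 * y2) :=
    mul_le_mul_of_nonneg_left q3 (by linarith)
  obtain ⟨b, hb⟩ : ∃ b : ℝ, b = 3 * (N - 3 * I) + 6 * (2 * N - 3 * I + 3) * y1 +
    6 * (N - I + 2) * (y1 * y2) := ⟨_, rfl⟩
  have q7 : I + 1 < b := by
    rw [hb]
    have t1 : 6 * (2 * N - 3 * I + 3) * y1 = 6 * ((2 * N - 3 * I + 3) * y1) := by ring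
    have t2 : 6 * (N - I + 2) * (y1 * y2) = 6 * ((N - I + 2) * (y1 * y2)) := by ring
    rw [t1, t2]
    linarith
  have q8 : I + 1 = y * b := by
    rw [s3, hb]
    ring
  have q9 : 2 * b ≤ y * b := mul_le_mul_of_nonneg_right hy.le (by linarith)
  linarith

private theorem SC0_poly {y : ℝ} (h1 : 1 / 5 ≤ y) (h2 : y ≤ 2) :
    (1 + 8 * y + 10 * y ^ 2) ^ 2 / 6 < y * (1 + y) * (7 / 2 + 14 * y + 7 * y ^ 2 + 2 * y * (1 + 7 * y) -
      (1 + 7 * y) ^ 2 / 12 - y / 192 * (2 * (1 + 7 * y) ^ 2 + 2 * (1 + 7 * y) + 4 * y * (1 + 7 * y))) := by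
  have a1 : 0 ≤ y := by linarith
  have a3 : 0 ≤ y ^ 3 := pow_nonneg a1 3
  have a4 : y ^ 4 ≤ 2 * y ^ 3 := by
    have := mul_le_mul_of_nonneg_right h2 a3
    nlinarith
  have a5 : y ^ 5 ≤ 4 * y ^ 3 := by
    have h4 : y ^ 2 ≤ 4 := by nlinarith
    have := mul_le_mul_of_nonneg_right h4 a3
    nlinarith
  have a2 : 1 / 25 ≤ y ^ 2 := by nlinarith
  nlinarith

private theorem SC0_alg {N J y y1 y2 : ℝ} (hJ : 192 ≤ J) (hy0 : 1 / 5 ≤ y) (hy2 : y ≤ 2) (h10 : 0 < y1)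
    (h1 : y1 ≤ y) (h20 : 0 < y2) (h21 : y2 ≤ y1) (hN : 0 ≤ 2 * N - 3 * J + 3) (hNJ : 0 ≤ N - J + 1)
    (hu : (N - (J - 1)) * y1 ≤ J - 1 + 1) (hv : (N - (J - 2)) * y2 ≤ J - 2 + 1)
    (hrl : J ^ 2 * (y - y1) ≤ J * y1 + 7 * J * y * y1 - 6 * (N - J + 1) * y * y1 ^ 2)
    (hrl1 : (J - 1) ^ 2 * (y1 - y2) ≤ (J - 1) * y2 + 7 * (J - 1) * y1 * y2 -
      6 * (N - (J - 1) + 1) * y1 * y2 ^ 2) :
    2 * (2 * N - 3 * J + 3) * (y - y1) + 2 * (N - J + 2) * (y ^ 2 - y1 * y2) <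
      7 / 2 + 14 * y + 7 * y ^ 2 := by
  have hJ0 : 0 < J := by linarith
  have hJ1 : 0 < J - 1 := by linarith
  have hyp : 0 < y := by linarith
  obtain ⟨e, he⟩ : ∃ e : ℝ, e = y1 / J := ⟨_, rfl⟩
  obtain ⟨f, hf⟩ : ∃ f : ℝ, f = y2 / (J - 1) := ⟨_, rfl⟩
  obtain ⟨u, hu'⟩ : ∃ u : ℝ, u = (N - J + 1) * e := ⟨_, rfl⟩
  obtain ⟨v, hv'⟩ : ∃ v : ℝ, v = (N - J + 2) * f := ⟨_, rfl⟩
  obtain ⟨w, hw⟩ : ∃ w : ℝ, w = 1 + (7 - 6 * u) * y := ⟨_, rfl⟩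
  obtain ⟨w1, hw1⟩ : ∃ w1 : ℝ, w1 = 1 + (7 - 6 * v) * y1 := ⟨_, rfl⟩
  have he1 : J * e = y1 := by
    rw [he]
    field_simp
  have hf1 : (J - 1) * f = y2 := by
    rw [hf]
    field_simp
  have he0 : 0 < e := by
    rw [he]
    exact div_pos h10 hJ0
  have hf0 : 0 < f := by
    rw [hf]
    exact div_pos h20 hJ1
  have hu0 : 0 ≤ u := by
    rw [hu']
    exact mul_nonneg hNJ he0.le
  have hv0 : 0 ≤ v := by
    rw [hv']
    exact mul_nonneg (by linarith) hf0.le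
  have hu1 : u ≤ 1 := by
    have t1 : J * u = (N - (J - 1)) * y1 := by
      rw [hu', ← he1]
      ring
    have t2 : J * u ≤ J * 1 := by linarith
    exact le_of_mul_le_mul_left t2 hJ0
  have hv1 : v ≤ 1 := by
    have t1 : (J - 1) * v = (N - (J - 2)) * y2 := by
      rw [hv', ← hf1]
      ring
    have t2 : (J - 1) * v ≤ (J - 1) * 1 := by linarith
    exact le_of_mul_le_mul_left t2 hJ1
  have ha : y - y1 ≤ e * w := by
    have t1 : J ^ 2 * (e * w) = J * y1 + 7 * J * y * y1 - 6 * (N - J + 1) * y * y1 ^ 2 := by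
      rw [hw, hu', ← he1]
      ring
    rw [← t1] at hrl
    exact le_of_mul_le_mul_left hrl (by positivity)
  have hb : y1 - y2 ≤ f * w1 := by
    have t1 : (J - 1) ^ 2 * (f * w1) = (J - 1) * y2 + 7 * (J - 1) * y1 * y2 -
        6 * (N - (J - 1) + 1) * y1 * y2 ^ 2 := by
      rw [hw1, hv', ← hf1]
      ring
    rw [← t1] at hrl1
    exact le_of_mul_le_mul_left hrl1 (by positivity)
  have hwW : w ≤ 1 + 7 * y := by
    rw [hw]
    have := mul_nonneg hu0 hyp.le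
    nlinarith
  have hw0 : 0 ≤ w := by
    rw [hw]
    have t1 : 0 ≤ (7 - 6 * u) * y := mul_nonneg (by linarith) hyp.le
    linarith
  have hw10 : 0 ≤ w1 := by
    rw [hw1]
    have t1 : 0 ≤ (7 - 6 * v) * y1 := mul_nonneg (by linarith) h10.le
    linarith
  have hey : e ≤ y / 192 := by
    have t1 : 192 * e ≤ J * e := mul_le_mul_of_nonneg_right hJ he0.le
    linarith
  -- the three terms
  have T1 : 2 * (2 * N - 3 * J + 3) * (y - y1) ≤ 2 * (2 * u - y1 + e) * w := by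
    have t1 : (2 * N - 3 * J + 3) * (y - y1) ≤ (2 * N - 3 * J + 3) * (e * w) :=
      mul_le_mul_of_nonneg_left ha hN
    have t2 : (2 * N - 3 * J + 3) * (e * w) = (2 * u - y1 + e) * w := by
      rw [hu', ← he1]
      ring
    linarith
  have T2 : 2 * (N - J + 2) * ((y + y1) * (y - y1)) ≤ 4 * (u + e) * (y * w) := by
    have t1 : (y + y1) * (y - y1) ≤ (2 * y) * (e * w) :=
      mul_le_mul (by linarith) ha (by linarith) (by linarith)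
    have t2 : (N - J + 2) * ((y + y1) * (y - y1)) ≤ (N - J + 2) * ((2 * y) * (e * w)) :=
      mul_le_mul_of_nonneg_left t1 (by linarith)
    have t3 : (N - J + 2) * ((2 * y) * (e * w)) = 2 * (u + e) * (y * w) := by
      rw [hu']
      ring
    linarith
  have T3 : 2 * (N - J + 2) * (y1 * (y1 - y2)) ≤ 2 * v * (y * (1 + (7 - 6 * v) * y)) := by
    have t1 : y1 * (y1 - y2) ≤ y1 * (f * w1) := mul_le_mul_of_nonneg_left hb h10.le
    have t2 : (N - J + 2) * (y1 * (y1 - y2)) ≤ (N - J + 2) * (y1 * (f * w1)) :=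
      mul_le_mul_of_nonneg_left t1 (by linarith)
    have t3 : (N - J + 2) * (y1 * (f * w1)) = v * (y1 * w1) := by
      rw [hv']
      ring
    have t4 : w1 ≤ 1 + (7 - 6 * v) * y := by
      rw [hw1]
      have := mul_le_mul_of_nonneg_left h1 (show 0 ≤ 7 - 6 * v by linarith)
      linarith
    have t5 : y1 * w1 ≤ y * (1 + (7 - 6 * v) * y) := mul_le_mul h1 t4 hw10 hyp.le
    have t6 := mul_le_mul_of_nonneg_left t5 hv0
    linarith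
  have T4 : 2 * (2 * u - y1 + e) * w ≤ 2 * (2 * u - y + e) * w + 2 * e * w ^ 2 := by
    have t1 : (y - y1) * w ≤ (e * w) * w := mul_le_mul_of_nonneg_right ha hw0
    nlinarith
  -- the error
  have T5 : 2 * e * w ^ 2 + 2 * e * w + 4 * e * (y * w) ≤
      y / 192 * (2 * (1 + 7 * y) ^ 2 + 2 * (1 + 7 * y) + 4 * y * (1 + 7 * y)) := by
    have t1 : 2 * w ^ 2 + 2 * w + 4 * (y * w) ≤ 2 * (1 + 7 * y) ^ 2 + 2 * (1 + 7 * y) + 4 * y * (1 + 7 * y) := by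
      have t2 : w ^ 2 ≤ (1 + 7 * y) ^ 2 := pow_le_pow_left₀ hw0 hwW 2
      have t3 : y * w ≤ y * (1 + 7 * y) := mul_le_mul_of_nonneg_left hwW hyp.le
      linarith
    have t4 := mul_le_mul hey t1 (by positivity) (by positivity)
    linarith
  have T6 : 6 * (y * (1 + y)) * (w * (4 * u - 2 * y + 4 * u * y) + 2 * y * (1 + 7 * y)) ≤
      (1 + 8 * y + 10 * y ^ 2) ^ 2 := by
    rw [hw]
    have t1 : 0 ≤ (12 * y * (1 + y) * u - (1 + 8 * y + 10 * y ^ 2)) ^ 2 := sq_nonneg _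
    have t2 : (1 + 8 * y + 10 * y ^ 2) ^ 2 - 6 * (y * (1 + y)) *
        ((1 + (7 - 6 * u) * y) * (4 * u - 2 * y + 4 * u * y) + 2 * y * (1 + 7 * y)) =
        (12 * y * (1 + y) * u - (1 + 8 * y + 10 * y ^ 2)) ^ 2 := by ring
    linarith
  have T7 : 12 * (2 * v * (y * (1 + (7 - 6 * v) * y))) ≤ (1 + 7 * y) ^ 2 := by
    have t1 : 0 ≤ (12 * (v * y) - (1 + 7 * y)) ^ 2 := sq_nonneg _
    have t2 : (1 + 7 * y) ^ 2 - 12 * (2 * v * (y * (1 + (7 - 6 * v) * y))) =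
        (12 * (v * y) - (1 + 7 * y)) ^ 2 := by ring
    linarith
  have T8 := SC0_poly hy0 hy2
  obtain ⟨S, hS⟩ : ∃ S : ℝ, S = 2 * (2 * N - 3 * J + 3) * (y - y1) + 2 * (N - J + 2) * (y ^ 2 - y1 * y2) :=
    ⟨_, rfl⟩
  obtain ⟨K, hK⟩ : ∃ K : ℝ, K = y / 192 * (2 * (1 + 7 * y) ^ 2 + 2 * (1 + 7 * y) + 4 * y * (1 + 7 * y)) :=
    ⟨_, rfl⟩
  rw [← hS]
  rw [← hK] at T5 T8
  have U1 : S ≤ w * (4 * u - 2 * y + 4 * u * y) + 2 * v * (y * (1 + (7 - 6 * v) * y)) + K := by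
    have t1 : S = 2 * (2 * N - 3 * J + 3) * (y - y1) + 2 * (N - J + 2) * ((y + y1) * (y - y1)) +
        2 * (N - J + 2) * (y1 * (y1 - y2)) := by
      rw [hS]
      ring
    have t2 : 2 * (2 * u - y + e) * w + 4 * (u + e) * (y * w) =
        w * (4 * u - 2 * y + 4 * u * y) + (2 * e * w + 4 * e * (y * w)) := by ring
    linarith
  have hD : 0 < y * (1 + y) := by positivity
  have U2 : y * (1 + y) * S ≤ y * (1 + y) * (w * (4 * u - 2 * y + 4 * u * y)) +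
      y * (1 + y) * (2 * v * (y * (1 + (7 - 6 * v) * y))) + y * (1 + y) * K := by
    have := mul_le_mul_of_nonneg_left U1 hD.le
    linarith
  have U3 : y * (1 + y) * (2 * v * (y * (1 + (7 - 6 * v) * y))) ≤ y * (1 + y) * ((1 + 7 * y) ^ 2 / 12) := by
    refine mul_le_mul_of_nonneg_left ?_ hD.le
    linarith
  have U4 : y * (1 + y) * S < y * (1 + y) * (7 / 2 + 14 * y + 7 * y ^ 2) := by
    have t1 : 6 * (y * (1 + y)) * (w * (4 * u - 2 * y + 4 * u * y) + 2 * y * (1 + 7 * y)) =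
        6 * (y * (1 + y) * (w * (4 * u - 2 * y + 4 * u * y))) + 6 * (y * (1 + y) * (2 * y * (1 + 7 * y))) := by
      ring
    have t2 : y * (1 + y) * (7 / 2 + 14 * y + 7 * y ^ 2 + 2 * y * (1 + 7 * y) - (1 + 7 * y) ^ 2 / 12 - K) =
        y * (1 + y) * (7 / 2 + 14 * y + 7 * y ^ 2) + y * (1 + y) * (2 * y * (1 + 7 * y)) -
          y * (1 + y) * ((1 + 7 * y) ^ 2 / 12) - y * (1 + y) * K := by ring
    rw [t1] at T6
    rw [t2] at T8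
    linarith
  exact lt_of_mul_lt_mul_left U4 hD.le

theorem sc_star (h : Sys n P E d) (hn : 600 ≤ n) {j : ℕ} (h1 : 32 * n ≤ 100 * j)
    (h2 : 50 * j ≤ 33 * n) :
    2 * (2 * (n : ℝ) - 3 * j + 3) * (yy P j - yy P (j - 1)) +
      2 * ((n : ℝ) - j + 2) * (yy P j ^ 2 - yy P (j - 1) * yy P (j - 2)) <
      7 / 2 + 14 * yy P j + 7 * yy P j ^ 2 := by
  have hjn : j < n := by omega
  have hj : 192 ≤ j := by omega
  have e1 : ((j - 1 : ℕ) : ℝ) = (j : ℝ) - 1 := by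
    rw [Nat.cast_sub (by omega), Nat.cast_one]
  have e2 : ((j - 2 : ℕ) : ℝ) = (j : ℝ) - 2 := by
    rw [Nat.cast_sub (by omega), Nat.cast_ofNat]
  have e3 : j - 1 - 1 = j - 2 := by omega
  have z1 := z_le h (show j - 1 < n by omega)
  have z2 := z_le h (show j - 2 < n by omega)
  have r1 := y_rl h (show 1 ≤ j by omega) hjn
  have r2 := y_rl h (show 1 ≤ j - 1 by omega) (show j - 1 < n by omega)
  rw [e1] at z1 r2
  rw [e2] at z2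
  rw [e3] at r2
  have hj' : (192 : ℝ) ≤ j := by exact_mod_cast hj
  have h2' : 50 * (j : ℝ) ≤ 33 * n := by exact_mod_cast h2
  have hn' : (600 : ℝ) ≤ n := by exact_mod_cast hn
  exact SC0_alg hj' (y_fifth h hn h1 hjn).le (y_two h hn (by omega)) (y_pos h (by omega))
    (y_mono h (by omega) hjn) (y_pos h (by omega)) (y_mono h (by omega) (by omega)) (by linarith)
    (by linarith) z1 z2 r1 r2

theorem sc0 (h : Sys n P E d) (hn : 600 ≤ n) {j : ℕ} (h1 : 32 * n ≤ 100 * j)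
    (h2 : 50 * j ≤ 33 * n) {W : Type} [Fintype W] (H : SimpleGraph W) (hH : Sub3 H) (k : ℕ)
    (hk : j ≤ k) (hc : Fintype.card W + 2 * j + 7 ≤ 2 * n + 2 * k) :
    mm H (k + 1) * P j ≤ mm H k * P (j + 1) := by
  have hjn : j < n := by omega
  have hj : 192 ≤ j := by omega
  have hP0 : 0 < P j := h.P_pos j hjn.le
  have hP1 : 0 < P (j + 1) := h.P_pos (j + 1) hjn
  have nn : ∀ i, 0 ≤ mm H i := fun i => Nat.cast_nonneg _
  by_contra hlt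
  have hlt : mm H k * P (j + 1) < mm H (k + 1) * P j := not_le.1 hlt
  have hpos : 0 < mm H (k + 1) := by
    rcases (nn (k + 1)).lt_or_eq with h0 | h0
    · exact h0
    · rw [← h0, zero_mul] at hlt
      exact absurd hlt (not_lt.2 (mul_nonneg (nn k) hP1.le))
  have hposk : 0 < mm H k := by
    unfold mm at hpos ⊢
    have h3 : 0 < (mats H (k + 1)).card := by exact_mod_cast hpos
    obtain ⟨M, hM⟩ := Finset.card_pos.1 h3
    have h4 : M.card = k + 1 := (mem_mats.1 hM).2.1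
    obtain ⟨e, he⟩ := Finset.card_pos.1 (by rw [h4]; omega : 0 < M.card)
    have h5 : 0 < (mats H k).card := Finset.card_pos.2 ⟨_, erase_mem_mats hM he⟩
    exact_mod_cast h5
  obtain ⟨t, ht⟩ : ∃ t : ℝ, t = mm H k / mm H (k + 1) := ⟨_, rfl⟩
  have ht0 : 0 < t := by
    rw [ht]
    exact div_pos hposk hpos
  have hmk : mm H k = t * mm H (k + 1) := by
    rw [ht]
    field_simp
  have hty : t < yy P j := by
    rw [ht]
    unfold yy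
    rw [div_lt_div_iff₀ hpos hP1]
    linarith
  obtain ⟨i, rfl⟩ : ∃ i, k = i + 2 := ⟨k - 2, by omega⟩
  have l1 := lc H (i + 1)
  have l2 := lc H i
  have hm1 : mm H (i + 1) ≤ t * mm H (i + 2) := by
    have h3 : mm H (i + 1) * mm H (i + 3) ≤ (t * mm H (i + 2)) * mm H (i + 3) := by
      have h4 : (t * mm H (i + 2)) * mm H (i + 3) = mm H (i + 2) ^ 2 := by
        have h5 : mm H (i + 2 + 1) = mm H (i + 3) := rfl
        rw [h5] at hmk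
        rw [pow_two]
        conv_rhs => rw [hmk]
        rw [hmk]
        ring
      rw [h4, mul_comm]
      exact l1
    exact le_of_mul_le_mul_right h3 hpos
  have hm0 : mm H i ≤ t * mm H (i + 1) := by
    have h3 : mm H i * mm H (i + 2) ≤ (t * mm H (i + 1)) * mm H (i + 2) := by
      have h4 : mm H (i + 1) ^ 2 ≤ (t * mm H (i + 2)) * mm H (i + 1) := by
        rw [pow_two]
        exact mul_le_mul_of_nonneg_right hm1 (nn _)
      have h5 : (t * mm H (i + 2)) * mm H (i + 1) = (t * mm H (i + 1)) * mm H (i + 2) := by ring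
      rw [← h5, mul_comm]
      exact l2.trans h4
    exact le_of_mul_le_mul_right h3 hposk
  have hdd := dd_nonneg H hH i
  unfold dd at hdd
  obtain ⟨c, hc'⟩ : ∃ c : ℝ, c = (Fintype.card W : ℝ) := ⟨_, rfl⟩
  rw [← hc'] at hdd
  have hcr : c + 2 * j + 7 ≤ 2 * n + 2 * ((i : ℝ) + 2) := by
    rw [hc']
    exact_mod_cast hc
  have hkr : (j : ℝ) ≤ (i : ℝ) + 2 := by exact_mod_cast hk
  have hj' : (192 : ℝ) ≤ j := by exact_mod_cast hj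
  have h2' : 50 * (j : ℝ) ≤ 33 * n := by exact_mod_cast h2
  have hn' : (600 : ℝ) ≤ n := by exact_mod_cast hn
  obtain ⟨J, hJ⟩ : ∃ J : ℝ, J = (j : ℝ) := ⟨_, rfl⟩
  obtain ⟨N, hN⟩ : ∃ N : ℝ, N = (n : ℝ) := ⟨_, rfl⟩
  obtain ⟨I, hI⟩ : ∃ I : ℝ, I = (i : ℝ) := ⟨_, rfl⟩
  have hs := sc_star h hn h1 h2
  have hr := y_rec h (show 2 ≤ j by omega) hjn
  rw [← hJ, ← hN] at hs hr
  rw [← hI] at hdd
  rw [← hJ, ← hN, ← hI] at hcr
  rw [← hJ, ← hI] at hkr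
  rw [← hJ] at hj'
  rw [← hJ, ← hN] at h2'
  rw [← hN] at hn'
  obtain ⟨m3, hm3⟩ : ∃ m3 : ℝ, m3 = mm H (i + 3) := ⟨_, rfl⟩
  obtain ⟨m2, hm2⟩ : ∃ m2 : ℝ, m2 = mm H (i + 2) := ⟨_, rfl⟩
  obtain ⟨m1, hm1'⟩ : ∃ m1 : ℝ, m1 = mm H (i + 1) := ⟨_, rfl⟩
  obtain ⟨m0, hm0'⟩ : ∃ m0 : ℝ, m0 = mm H i := ⟨_, rfl⟩
  have f3 : 0 < m3 := by
    rw [hm3]
    exact hpos
  have f2 : m2 = t * m3 := by
    rw [hm2, hm3]
    exact hmk
  have f1 : m1 ≤ t * m2 := by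
    rw [hm1', hm2]
    exact hm1
  have f0 : m0 ≤ t * m1 := by
    rw [hm0', hm1']
    exact hm0
  have g2 : 0 ≤ m2 := by
    rw [hm2]
    exact nn _
  have g1 : 0 ≤ m1 := by
    rw [hm1']
    exact nn _
  have g0 : 0 ≤ m0 := by
    rw [hm0']
    exact nn _
  rw [← hm3, ← hm2, ← hm1', ← hm0'] at hdd
  -- the upper bound of `(k + 1) m_(k+1)`
  have k1 : 3 * (c / 2 - 3 * I - 6) * m2 ≤ 3 * (N - 3 * J - 7 / 2) * m2 :=
    mul_le_mul_of_nonneg_right (by linarith) g2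
  have k2 : 6 * (c - 3 * I - 3) * m1 ≤ 6 * (2 * N - 3 * J - 4) * (t * m2) := by
    have t1 : 6 * (c - 3 * I - 3) * m1 ≤ 6 * (2 * N - 3 * J - 4) * m1 :=
      mul_le_mul_of_nonneg_right (by linarith) g1
    exact t1.trans (mul_le_mul_of_nonneg_left f1 (by linarith))
  have k3 : 6 * (c / 2 - I) * m0 ≤ 6 * (N - J - 3 / 2) * (t * (t * m2)) := by
    have t1 : 6 * (c / 2 - I) * m0 ≤ 6 * (N - J - 3 / 2) * m0 :=
      mul_le_mul_of_nonneg_right (by linarith) g0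
    have t2 : m0 ≤ t * (t * m2) := f0.trans (mul_le_mul_of_nonneg_left f1 ht0.le)
    exact t1.trans (mul_le_mul_of_nonneg_left t2 (by linarith))
  obtain ⟨y, hy⟩ : ∃ y : ℝ, y = yy P j := ⟨_, rfl⟩
  obtain ⟨y1, hy1⟩ : ∃ y1 : ℝ, y1 = yy P (j - 1) := ⟨_, rfl⟩
  obtain ⟨y2, hy2⟩ : ∃ y2 : ℝ, y2 = yy P (j - 2) := ⟨_, rfl⟩
  rw [← hy, ← hy1, ← hy2] at hs hr
  rw [← hy] at hty
  obtain ⟨φ, hφ⟩ : ∃ φ : ℝ, φ = 3 * (N - 3 * J - 7 / 2) + 6 * (2 * N - 3 * J - 4) * t +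
    6 * (N - J - 3 / 2) * t ^ 2 := ⟨_, rfl⟩
  obtain ⟨ψ, hψ⟩ : ∃ ψ : ℝ, ψ = 3 * (N - 3 * J - 7 / 2) + 6 * (2 * N - 3 * J - 4) * y +
    6 * (N - J - 3 / 2) * y ^ 2 := ⟨_, rfl⟩
  have k4 : (I + 3) * m3 ≤ (t * φ) * m3 := by
    have t1 : (t * φ) * m3 = 3 * (N - 3 * J - 7 / 2) * m2 + 6 * (2 * N - 3 * J - 4) * (t * m2) +
        6 * (N - J - 3 / 2) * (t * (t * m2)) := by
      rw [hφ, f2]
      ring
    rw [t1]
    linarith
  have k5 : I + 3 ≤ t * φ := le_of_mul_le_mul_right k4 f3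
  have k6 : 0 < φ := by
    have t1 : 0 < t * φ := by linarith
    exact (pos_iff_pos_of_mul_pos t1).1 ht0
  have k7 : φ ≤ ψ := by
    rw [hφ, hψ]
    have t1 : 6 * (2 * N - 3 * J - 4) * t ≤ 6 * (2 * N - 3 * J - 4) * y :=
      mul_le_mul_of_nonneg_left hty.le (by linarith)
    have t2 : t ^ 2 ≤ y ^ 2 := pow_le_pow_left₀ ht0.le hty.le 2
    have t3 : 6 * (N - J - 3 / 2) * t ^ 2 ≤ 6 * (N - J - 3 / 2) * y ^ 2 :=
      mul_le_mul_of_nonneg_left t2 (by linarith)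
    linarith
  have k8 : t * φ < y * φ := mul_lt_mul_of_pos_right hty k6
  have hy0 : 0 < y := lt_trans ht0 hty
  have k9 : y * φ ≤ y * ψ := mul_le_mul_of_nonneg_left k7 hy0.le
  have k10 : y * ψ = (J + 1) - 3 * (y * (7 / 2 + 14 * y + 7 * y ^ 2 -
      (2 * (2 * N - 3 * J + 3) * (y - y1) + 2 * (N - J + 2) * (y ^ 2 - y1 * y2)))) := by
    rw [hψ, hr]
    ring
  have k11 : 0 < y * (7 / 2 + 14 * y + 7 * y ^ 2 -
      (2 * (2 * N - 3 * J + 3) * (y - y1) + 2 * (N - J + 2) * (y ^ 2 - y1 * y2))) :=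
    mul_pos hy0 (by linarith)
  linarith

end

end Pool.Agent.Lib.MP_eeed5c_coC
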