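import Pool.Agent.Lib.MP_eeed5c_co_C.WinA

/-!
# The window theorem

PROOF of `window` (uses only `fiber_card`, `rest_card`). Write `psi G N` as a sum of local terms:
`6 * iso = ∑_v [v free, D_v = 0] 6` and
`bq = ∑_{(a,v), Adj a v} [a, v free] ((D_a - D_v)^2 / 2 + #{u : u free, Adj a u, Adj u v})`.
The term of `v` depends only on `tch (N[v]) N` (`N[v]` closed neighbourhood), the term of `(a,v)`
only on `tch (N[a] ∪ N[v]) N` (whether a vertex of `W` is covered by `N` is determined by `tch W N`).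
So for each local term `t` with window `W`: `∑_{N ∈ mats i} t(N) = ∑_C t(C) #{N ∈ mats i : tch W N = C}`,
the sum over the matchings `C` all of whose edges meet `W`, `t(C) ≥ 0`, and
`#{N ∈ mats i : tch W N = C} = mm H_C (i - |C|)` if `|C| ≤ i` (`fiber_card`), `0` otherwise, where
`H_C` is the induced graph on `rest W C`, which has `Sub3`. If `t(C) ≠ 0` then `|C| ≤ 3` and
`W` has at least one vertex not covered by `C`: for the term of `v`, `v` is uncovered and each of the
three other vertices of `W` is covered, so at most three edges of `C` meet `W`; for the term of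
`(a,v)`: `a` and `v` are uncovered and there is a third uncovered vertex in `W` (if `D_a ≠ D_v` both
are at least `1` and one is at least `2`; if the triangle term is not zero it is the common
neighbour), so at most three vertices of `W` are covered (`|W| ≤ 6`), hence `|C| ≤ 3`.
`rest_card`: `|rest W C| + 2|C| + #{w ∈ W not covered by C} = card V`, so for `k = i - |C|`:
`|rest W C| + 2 i + 1 ≤ card V + 2 k`, and `i ≤ k + 3`, `k ≤ i`. The hypothesis `h` gives
`mm H_C (k+1) ≤ g * mm H_C k`, i.e. `#{N ∈ mats (i+1) : tch W N = C} ≤ g #{N ∈ mats i : tch W N = C}`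
(for `|C| ≤ 3 ≤ i`). Sum over `C` and over the local terms.
-/

set_option autoImplicit false

namespace Pool.Agent.Lib.MP_eeed5c_coC

open Finset Pool.Agent.Lib.MP_eeed5c_co Pool.Agent.Lib.MP_eeed5c_coT

section

variable {V : Type*} [Fintype V]

omit [Fintype V] in
private theorem Window_mt {W : Finset V} {N : Finset (Sym2 V)} {e : Sym2 V} :
    e ∈ tch W N ↔ e ∈ N ∧ ∃ w ∈ W, w ∈ e := by
  classical
  unfold tch
  rw [Finset.mem_filter]

private theorem Window_free {W : Finset V} {N : Finset (Sym2 V)} {w : V} (hw : w ∈ W) :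
    w ∈ free (tch W N) ↔ w ∈ free N := by
  rw [mem_free, mem_free]
  constructor
  · intro h e he hwe
    exact h e (Window_mt.2 ⟨he, w, hw, hwe⟩) hwe
  · intro h e he
    exact h e (Window_mt.1 he).1

private theorem Window_nb {G : SimpleGraph V} {W : Finset V} {N : Finset (Sym2 V)} {v : V}
    (hv : ∀ u, G.Adj v u → u ∈ W) : nb G (tch W N) v = nb G N v := by
  ext u
  rw [mem_nb, mem_nb]
  constructor
  · rintro ⟨h1, h2⟩
    exact ⟨(Window_free (hv u h2)).1 h1, h2⟩
  · rintro ⟨h1, h2⟩
    exact ⟨(Window_free (hv u h2)).2 h1, h2⟩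

open scoped Classical in
private theorem Window_card {G : SimpleGraph V} {W : Finset V} {C : Finset (Sym2 V)}
    (hC : C ∈ mats G C.card) (hCW : ∀ e ∈ C, ∃ w ∈ W, w ∈ e) :
    C.card + (W.filter fun w => w ∈ free C).card ≤ W.card := by
  have h1 : C.card ≤ (W.filter fun w => ¬ w ∈ free C).card := by
    rcases C.eq_empty_or_nonempty with h0 | ⟨e0, he0⟩
    · rw [h0, Finset.card_empty]
      exact Nat.zero_le _
    have hne : Nonempty V := by
      obtain ⟨w, -, -⟩ := hCW e0 he0
      exact ⟨w⟩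
    choose! f hf1 hf2 using hCW
    refine Finset.card_le_card_of_injOn f ?_ ?_
    · intro e he
      have he' : e ∈ C := he
      exact Finset.mem_coe.2 (Finset.mem_filter.2
        ⟨hf1 e he', fun h => mem_free.1 h e he' (hf2 e he')⟩)
    · intro e he e' he' hee
      have hee' : f e = f e' := hee
      exact edge_unique hC he he' (hf2 e he) (by rw [hee']; exact hf2 e' he')
  have h2 := Finset.card_filter_add_card_filter_not (s := W) (fun w => w ∈ free C)
  omega

private theorem Window_tch {G : SimpleGraph V} {W : Finset V} {N : Finset (Sym2 V)} {j : ℕ}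
    (hN : N ∈ mats G j) : tch W N ∈ mats G (tch W N).card := by
  obtain ⟨h1, -, h3⟩ := mem_mats.1 hN
  have hsub : (↑(tch W N) : Set (Sym2 V)) ⊆ ↑N := by
    intro e he
    exact (Window_mt.1 he).1
  exact mem_mats.2 ⟨hsub.trans h1, rfl, h3.mono hsub⟩

end

open scoped Classical in
private theorem Window_loc {V : Type} [Fintype V] (G : SimpleGraph V) (hG : Sub3 G) (i : ℕ)
    (hi : 3 ≤ i) (g : ℝ)
    (h : ∀ (W : Type) [Fintype W] (H : SimpleGraph W) (k : ℕ), Sub3 H → i ≤ k + 3 → k ≤ i →
      Fintype.card W + 2 * i + 1 ≤ Fintype.card V + 2 * k → mm H (k + 1) ≤ g * mm H k)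
    (W : Finset V) (t : Finset (Sym2 V) → ℝ) (ht0 : ∀ N, 0 ≤ t N) (htl : ∀ N, t (tch W N) = t N)
    (hts : ∀ C, C ∈ mats G C.card → (∀ e ∈ C, ∃ w ∈ W, w ∈ e) → t C ≠ 0 →
      C.card ≤ 3 ∧ ∃ w ∈ W, w ∈ free C) :
    ∑ N ∈ mats G (i + 1), t N ≤ g * ∑ N ∈ mats G i, t N := by
  set Cs : Finset (Finset (Sym2 V)) :=
    univ.filter fun C => C ∈ mats G C.card ∧ ∀ e ∈ C, ∃ w ∈ W, w ∈ e with hCs
  have hmap : ∀ j, ∀ N ∈ mats G j, tch W N ∈ Cs := by
    intro j N hN
    rw [hCs, Finset.mem_filter]
    refine ⟨Finset.mem_univ _, Window_tch hN, ?_⟩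
    intro e he
    exact (Window_mt.1 he).2
  have hsum : ∀ j, ∑ N ∈ mats G j, t N =
      ∑ C ∈ Cs, t C * (((mats G j).filter fun N => tch W N = C).card : ℝ) := by
    intro j
    rw [← Finset.sum_fiberwise_of_maps_to (hmap j)]
    refine Finset.sum_congr rfl fun C _ => ?_
    have h1 : ∀ N ∈ (mats G j).filter fun N => tch W N = C, t N = t C := by
      intro N hN
      rw [← (Finset.mem_filter.1 hN).2, htl]
    rw [Finset.sum_congr rfl h1, Finset.sum_const, nsmul_eq_mul, mul_comm]
  rw [hsum, hsum, Finset.mul_sum]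
  refine Finset.sum_le_sum fun C hC => ?_
  rw [hCs, Finset.mem_filter] at hC
  obtain ⟨-, hC1, hC2⟩ := hC
  by_cases ht : t C = 0
  · rw [ht, zero_mul, zero_mul, mul_zero]
  obtain ⟨h3, w, hw, hwf⟩ := hts C hC1 hC2 ht
  have hr := rest_card G W C hC1 hC2
  have hpos : 1 ≤ (W.filter fun w => w ∈ free C).card :=
    Finset.card_pos.2 ⟨w, Finset.mem_filter.2 ⟨hw, hwf⟩⟩
  rw [fiber_card G W C (i + 1) hC1 hC2 (by omega), fiber_card G W C i hC1 hC2 (by omega)]
  have hk : i + 1 - C.card = (i - C.card) + 1 := by omega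
  have hmain := h (rest W C) (G.induce (rest W C)) (i - C.card) (sub3_induce G hG W C)
    (by omega) (by omega) (by omega)
  rw [hk]
  unfold mm at hmain
  calc t C * ((mats (G.induce (rest W C)) (i - C.card + 1)).card : ℝ)
      ≤ t C * (g * ((mats (G.induce (rest W C)) (i - C.card)).card : ℝ)) :=
        mul_le_mul_of_nonneg_left hmain (ht0 C)
    _ = g * (t C * ((mats (G.induce (rest W C)) (i - C.card)).card : ℝ)) := by ring

section

variable {V : Type*} [Fintype V]

open scoped Classical in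
/-- The neighbours of a vertex. -/
noncomputable def WindowN (G : SimpleGraph V) (v : V) : Finset V := univ.filter fun u => G.Adj v u

open scoped Classical in
/-- The term of a vertex. -/
noncomputable def WindowS (G : SimpleGraph V) (v : V) (N : Finset (Sym2 V)) : ℝ :=
  if v ∈ free N ∧ nb G N v = ∅ then 6 else 0

open scoped Classical in
/-- The term of a pair of vertices. -/
noncomputable def WindowT (G : SimpleGraph V) (a v : V) (N : Finset (Sym2 V)) : ℝ :=
  if a ∈ free N ∧ v ∈ nb G N a then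
    (((nb G N a).card : ℝ) - (nb G N v).card) ^ 2 / 2 +
      (((nb G N a).filter (fun u => G.Adj u v)).card : ℝ)
  else 0

private theorem Window_mem {G : SimpleGraph V} {v u : V} : u ∈ WindowN G v ↔ G.Adj v u := by
  classical
  unfold WindowN
  rw [Finset.mem_filter]
  exact ⟨fun h => h.2, fun h => ⟨Finset.mem_univ _, h⟩⟩

open scoped Classical in
private theorem Window_psi (G : SimpleGraph V) (N : Finset (Sym2 V)) :
    psi G N = ∑ v, WindowS G v N + ∑ a, ∑ v, WindowT G a v N := by
  have h1 : 6 * iso G N = ∑ v, WindowS G v N := by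
    unfold iso WindowS
    rw [← Finset.sum_filter, Finset.sum_const, nsmul_eq_mul, mul_comm]
    have h2 : (free N).filter (fun v => D G N v = 0) =
        univ.filter fun v => v ∈ free N ∧ nb G N v = ∅ := by
      ext v
      rw [Finset.mem_filter, Finset.mem_filter]
      unfold D
      rw [Finset.card_eq_zero]
      exact ⟨fun h => ⟨Finset.mem_univ _, h⟩, fun h => h.2⟩
    rw [h2]
  have h3 : bq G N = ∑ a, ∑ v, WindowT G a v N := by
    have h4 : ∀ a, ∑ v, WindowT G a v N = if a ∈ free N then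
        ∑ v ∈ nb G N a, (((D G N a : ℝ) - D G N v) ^ 2 / 2 +
          (((nb G N a).filter (fun u => G.Adj u v)).card : ℝ)) else 0 := by
      intro a
      unfold WindowT
      by_cases ha : a ∈ free N
      · rw [if_pos ha, ← Finset.sum_filter]
        have h5 : (univ.filter fun v => a ∈ free N ∧ v ∈ nb G N a) = nb G N a := by
          ext v
          rw [Finset.mem_filter]
          exact ⟨fun h => h.2.2, fun h => ⟨Finset.mem_univ _, ha, h⟩⟩
        rw [h5]
        rfl
      · rw [if_neg ha]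
        refine Finset.sum_eq_zero fun v _ => ?_
        rw [if_neg fun h => ha h.1]
    rw [Finset.sum_congr rfl fun a _ => h4 a, ← Finset.sum_filter]
    have h6 : (univ.filter fun a => a ∈ free N) = free N := by
      ext a
      rw [Finset.mem_filter]
      exact ⟨fun h => h.2, fun h => ⟨Finset.mem_univ _, h⟩⟩
    rw [h6]
    unfold bq
    rw [Finset.mul_sum, ← Finset.sum_add_distrib]
    refine Finset.sum_congr rfl fun a _ => ?_
    rw [Finset.mul_sum, ← Finset.sum_add_distrib]
    refine Finset.sum_congr rfl fun v _ => ?_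
    ring
  unfold psi
  rw [h1, h3]

private theorem Window_S_loc {G : SimpleGraph V} {v : V} {W : Finset V} (hv : v ∈ W)
    (hW : ∀ u, G.Adj v u → u ∈ W) (N : Finset (Sym2 V)) :
    WindowS G v (tch W N) = WindowS G v N := by
  unfold WindowS
  rw [Window_nb hW]
  by_cases h : v ∈ free N ∧ nb G N v = ∅
  · rw [if_pos h, if_pos ⟨(Window_free hv).2 h.1, h.2⟩]
  · rw [if_neg h, if_neg fun h' => h ⟨(Window_free hv).1 h'.1, h'.2⟩]

private theorem Window_T_loc {G : SimpleGraph V} {a v : V} {W : Finset V} (ha : a ∈ W)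
    (hW : ∀ u, G.Adj a u → u ∈ W) (hW' : ∀ u, G.Adj v u → u ∈ W) (N : Finset (Sym2 V)) :
    WindowT G a v (tch W N) = WindowT G a v N := by
  unfold WindowT
  rw [Window_nb hW, Window_nb hW']
  by_cases h : a ∈ free N ∧ v ∈ nb G N a
  · rw [if_pos h, if_pos ⟨(Window_free ha).2 h.1, h.2⟩]
  · rw [if_neg h, if_neg fun h' => h ⟨(Window_free ha).1 h'.1, h'.2⟩]

private theorem Window_S_nonneg (G : SimpleGraph V) (v : V) (N : Finset (Sym2 V)) :
    0 ≤ WindowS G v N := by
  unfold WindowS
  split_ifs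
  · norm_num
  · exact le_refl _

private theorem Window_T_nonneg (G : SimpleGraph V) (a v : V) (N : Finset (Sym2 V)) :
    0 ≤ WindowT G a v N := by
  unfold WindowT
  split_ifs
  · positivity
  · exact le_refl _

open scoped Classical in
private theorem Window_S_supp {G : SimpleGraph V} (hG : Sub3 G) {v : V} {C : Finset (Sym2 V)}
    (hC : C ∈ mats G C.card) (hCW : ∀ e ∈ C, ∃ w ∈ insert v (WindowN G v), w ∈ e)
    (ht : WindowS G v C ≠ 0) : C.card ≤ 3 ∧ ∃ w ∈ insert v (WindowN G v), w ∈ free C := by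
  have hv : v ∈ free C := by
    by_contra hv
    refine ht ?_
    unfold WindowS
    rw [if_neg fun h => hv h.1]
  refine ⟨?_, v, Finset.mem_insert_self _ _, hv⟩
  have h1 := Window_card hC hCW
  have h2 : (insert v (WindowN G v)).card ≤ 4 := by
    have h3 : (WindowN G v).card ≤ 3 := hG v
    exact (Finset.card_insert_le _ _).trans (by omega)
  have h4 : 1 ≤ ((insert v (WindowN G v)).filter fun w => w ∈ free C).card :=
    Finset.card_pos.2 ⟨v, Finset.mem_filter.2 ⟨Finset.mem_insert_self _ _, hv⟩⟩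
  omega

open scoped Classical in
private theorem Window_third {G : SimpleGraph V} {a v : V} {C : Finset (Sym2 V)}
    (ht : WindowT G a v C ≠ 0) : a ∈ free C ∧ v ∈ free C ∧ G.Adj a v ∧
      ∃ u, u ∈ free C ∧ u ≠ a ∧ u ≠ v ∧ (G.Adj a u ∨ G.Adj v u) := by
  unfold WindowT at ht
  by_cases h : a ∈ free C ∧ v ∈ nb G C a
  swap
  · rw [if_neg h] at ht
    exact absurd rfl ht
  rw [if_pos h] at ht
  obtain ⟨ha, hva⟩ := h
  obtain ⟨hv, hav⟩ := mem_nb.1 hva
  refine ⟨ha, hv, hav, ?_⟩
  have hav' : a ∈ nb G C v := mem_nb.2 ⟨ha, hav.symm⟩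
  by_cases hD : (nb G C a).card = (nb G C v).card
  · rw [hD, sub_self, zero_pow two_ne_zero, zero_div, zero_add] at ht
    have h5 : ((nb G C a).filter (fun u => G.Adj u v)).Nonempty := by
      rw [← Finset.card_pos]
      refine Nat.pos_of_ne_zero fun h0 => ht ?_
      rw [h0, Nat.cast_zero]
    obtain ⟨u, hu⟩ := h5
    obtain ⟨hu1, hu2⟩ := Finset.mem_filter.1 hu
    obtain ⟨hu3, hu4⟩ := mem_nb.1 hu1
    exact ⟨u, hu3, hu4.ne', hu2.ne, Or.inl hu4⟩
  · have h1 : 1 ≤ (nb G C a).card := Finset.card_pos.2 ⟨v, hva⟩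
    have h2 : 1 ≤ (nb G C v).card := Finset.card_pos.2 ⟨a, hav'⟩
    have h3 : 1 < (nb G C a).card ∨ 1 < (nb G C v).card := by omega
    rcases h3 with h3 | h3
    · obtain ⟨u, hu, huv⟩ := Finset.exists_mem_ne h3 v
      obtain ⟨hu3, hu4⟩ := mem_nb.1 hu
      exact ⟨u, hu3, hu4.ne', huv, Or.inl hu4⟩
    · obtain ⟨u, hu, hua⟩ := Finset.exists_mem_ne h3 a
      obtain ⟨hu3, hu4⟩ := mem_nb.1 hu
      exact ⟨u, hu3, hua, hu4.ne', Or.inr hu4⟩

open scoped Classical in
private theorem Window_T_supp {G : SimpleGraph V} (hG : Sub3 G) {a v : V} {C : Finset (Sym2 V)}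
    (hC : C ∈ mats G C.card) (hCW : ∀ e ∈ C, ∃ w ∈ WindowN G a ∪ WindowN G v, w ∈ e)
    (ht : WindowT G a v C ≠ 0) : C.card ≤ 3 ∧ ∃ w ∈ WindowN G a ∪ WindowN G v, w ∈ free C := by
  obtain ⟨ha, hv, hav, u, hu, hua, huv, hadj⟩ := Window_third ht
  have haW : a ∈ WindowN G a ∪ WindowN G v :=
    Finset.mem_union_right _ (Window_mem.2 hav.symm)
  have hvW : v ∈ WindowN G a ∪ WindowN G v :=
    Finset.mem_union_left _ (Window_mem.2 hav)
  have huW : u ∈ WindowN G a ∪ WindowN G v := by
    rcases hadj with hadj | hadj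
    · exact Finset.mem_union_left _ (Window_mem.2 hadj)
    · exact Finset.mem_union_right _ (Window_mem.2 hadj)
  refine ⟨?_, a, haW, ha⟩
  have h1 := Window_card hC hCW
  have h2 : (WindowN G a ∪ WindowN G v).card ≤ 6 := by
    have h3 : (WindowN G a).card ≤ 3 := hG a
    have h4 : (WindowN G v).card ≤ 3 := hG v
    exact (Finset.card_union_le _ _).trans (by omega)
  have h5 : ({a, v, u} : Finset V) ⊆
      (WindowN G a ∪ WindowN G v).filter fun w => w ∈ free C := by
    intro w hw
    rw [Finset.mem_insert, Finset.mem_insert, Finset.mem_singleton] at hw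
    rcases hw with rfl | rfl | rfl
    · exact Finset.mem_filter.2 ⟨haW, ha⟩
    · exact Finset.mem_filter.2 ⟨hvW, hv⟩
    · exact Finset.mem_filter.2 ⟨huW, hu⟩
  have h6 : ({a, v, u} : Finset V).card = 3 :=
    Finset.card_eq_three.2 ⟨a, v, u, hav.ne, hua.symm, huv.symm, rfl⟩
  have h7 := Finset.card_le_card h5
  omega

end

theorem window {V : Type} [Fintype V] (G : SimpleGraph V) (hG : Cub G) (i : ℕ) (hi : 3 ≤ i)
    (g : ℝ) (hg : 0 ≤ g)
    (h : ∀ (W : Type) [Fintype W] (H : SimpleGraph W) (k : ℕ), Sub3 H → i ≤ k + 3 → k ≤ i →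
      Fintype.card W + 2 * i + 1 ≤ Fintype.card V + 2 * k → mm H (k + 1) ≤ g * mm H k) :
    Sg G (i + 1) ≤ g * Sg G i := by
  classical
  have hG' : Sub3 G := fun v => (hG v).le
  have hS : ∀ j, Sg G j = ∑ v, ∑ N ∈ mats G j, WindowS G v N +
      ∑ a, ∑ v, ∑ N ∈ mats G j, WindowT G a v N := by
    intro j
    unfold Sg
    rw [Finset.sum_congr rfl fun N _ => Window_psi G N, Finset.sum_add_distrib, Finset.sum_comm,
      Finset.sum_comm (s := mats G j)]
    congr 1
    refine Finset.sum_congr rfl fun a _ => ?_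
    rw [Finset.sum_comm]
  rw [hS, hS, mul_add, Finset.mul_sum, Finset.mul_sum]
  refine add_le_add ?_ ?_
  · refine Finset.sum_le_sum fun v _ => ?_
    exact Window_loc G hG' i hi g h (insert v (WindowN G v)) (WindowS G v)
      (Window_S_nonneg G v)
      (Window_S_loc (Finset.mem_insert_self _ _)
        fun u hu => Finset.mem_insert_of_mem (Window_mem.2 hu))
      fun C hC hCW ht => Window_S_supp hG' hC hCW ht
  · refine Finset.sum_le_sum fun a _ => ?_
    rw [Finset.mul_sum]
    refine Finset.sum_le_sum fun v _ => ?_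
    by_cases hav : G.Adj a v
    · exact Window_loc G hG' i hi g h (WindowN G a ∪ WindowN G v) (WindowT G a v)
        (Window_T_nonneg G a v)
        (Window_T_loc (Finset.mem_union_right _ (Window_mem.2 hav.symm))
          (fun u hu => Finset.mem_union_left _ (Window_mem.2 hu))
          (fun u hu => Finset.mem_union_right _ (Window_mem.2 hu)))
        fun C hC hCW ht => Window_T_supp hG' hC hCW ht
    · have h0 : ∀ N, WindowT G a v N = 0 := by
        intro N
        unfold WindowT
        rw [if_neg fun h => hav (mem_nb.1 h.2).2]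
      rw [Finset.sum_eq_zero fun N _ => h0 N, Finset.sum_eq_zero fun N _ => h0 N, mul_zero]

end Pool.Agent.Lib.MP_eeed5c_coC
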