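import Pool.Agent.Lib.MP_eeed5c_co_C.Grow
import Pool.Agent.Lib.MP_eeed5c_co_C.Window
import Pool.Agent.Lib.MP_eeed5c_co_C.SC0
import Pool.Agent.Lib.MP_eeed5c_co_C.PFacts
import Pool.Agent.Lib.MP_eeed5c_co_C.GDef

/-!
# Growth of the second order quantities

PROOFS. `2 dd G i = Sg G i` (`dd_cub`), so by `window` (`i = j-2 ≥ 3`) it is enough to bound
`mm H (k+1) ≤ g mm H k` for `Sub3 H`, `i ≤ k+3`, `k ≤ i`, `card W + 2i + 1 ≤ 2n + 2k`.
Put `N = card W`, `t = N - 2k ≤ t0 := 2n-2i-1 = 2n-2j+3`, `k ≥ k0 := i-3 = j-5`.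
`growth_G2`: `growth_two`: `2(k+1) N m_{k+1} ≤ t (3t+2k) m_k`, `N = t+2k`. If `t ≤ 0` or `N = 0` then
`m_{k+1} = 0` (`mm_eq_zero`). Otherwise `t(3t+2k)/(2(k+1)(t+2k)) = t (1 + 2t/(t+2k))/(2(k+1))` is
nondecreasing in `t`, nonincreasing in `k`, so it is at most
`t0(3t0+2k0)/(2(k0+1)(t0+2k0)) = (2n-2j+3)(6n-4j-1)/(2(j-4)(2n-7)) = G2 n j`.
`growth_GA`: three cases of the definition. First: `growth_G2`. Second: let
`j' = min (j-5) (33n/50)`; `32n ≤ 100 j'`, `50 j' ≤ 33 n`, `j' + 3 ≤ i`. `sc0` with this `j'`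
(`k ≥ i-3 ≥ j'`; `card W + 2j' + 7 ≤ card W + 2i + 1 ≤ 2n+2k`) gives
`mm H (k+1) ≤ (P_{j'+1}/P_{j'}) mm H k`. Third: `growth_triv`: `2(k+1) m_{k+1} ≤ 3 t m_k`, so
`m_{k+1} ≤ 3 t0/(2(k0+1)) m_k = Gt n j * m_k`. Positivity of the three expressions: clear for
`5 ≤ j ≤ n` (`n ≥ 18`).
-/

set_option autoImplicit false

namespace Pool.Agent.Lib.MP_eeed5c_coC

open Finset Pool.Agent.Lib.MP_eeed5c_co Pool.Agent.Lib.MP_eeed5c_coT

/-- the elementary inequality for `growth_G2` -/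
private theorem GrowD_num {t t0 k k0 a b : ℝ} (ht : 0 < t) (htt : t ≤ t0) (hk0 : 0 ≤ k0) (hk : k0 ≤ k) (ha : 0 ≤ a)
    (h : 2 * (k + 1) * (t + 2 * k) * b ≤ t * (3 * t + 2 * k) * a) :
    b ≤ t0 * (3 * t0 + 2 * k0) / (2 * (t0 + 2 * k0) * (k0 + 1)) * a := by
  have ht0 : 0 < t0 := lt_of_lt_of_le ht htt
  have hk1 : 0 ≤ k := hk0.trans hk
  have hden : 0 < 2 * (t0 + 2 * k0) * (k0 + 1) := by positivity
  have hden2 : 0 < 2 * (k + 1) * (t + 2 * k) := by positivity
  have h1 : t * (t0 + 2 * k0) ≤ t0 * (t + 2 * k) := by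
    have := mul_le_mul htt hk hk0 ht0.le
    nlinarith
  have h2 : (3 * t + 2 * k) * (t0 + 2 * k0) ≤ (3 * t0 + 2 * k0) * (t + 2 * k) := by nlinarith
  have h3 : t * (k0 + 1) ≤ t0 * (k + 1) := mul_le_mul htt (by linarith) (by linarith) ht0.le
  have h4 : (t * (k0 + 1)) * ((3 * t + 2 * k) * (t0 + 2 * k0)) ≤
      (t0 * (k + 1)) * ((3 * t0 + 2 * k0) * (t + 2 * k)) :=
    mul_le_mul h3 h2 (by positivity) (by positivity)
  have h5 : b ≤ t * (3 * t + 2 * k) / (2 * (k + 1) * (t + 2 * k)) * a := by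
    rw [div_mul_eq_mul_div, le_div_iff₀ hden2]
    linarith
  refine h5.trans (mul_le_mul_of_nonneg_right ?_ ha)
  rw [div_le_div_iff₀ hden2 hden]
  nlinarith

theorem growth_G2 {V : Type} [Fintype V] {n : ℕ} (G : SimpleGraph V) (hG : Cub G)
    (hV : Fintype.card V = 2 * n) (hn : 18 ≤ n) (j : ℕ) (h5 : 5 ≤ j) (hj : j ≤ n) :
    0 < G2 n j ∧ dd G (j - 1) ≤ G2 n j * dd G (j - 2) := by
  have hn' : (18 : ℝ) ≤ n := by exact_mod_cast hn
  have h5' : (5 : ℝ) ≤ j := by exact_mod_cast h5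
  have hj' : (j : ℝ) ≤ n := by exact_mod_cast hj
  have hpos : 0 < G2 n j := by
    unfold G2
    apply div_pos
    · apply mul_pos
      · linarith
      · linarith
    · apply mul_pos
      · linarith
      · linarith
  refine ⟨hpos, ?_⟩
  obtain ⟨i, rfl⟩ : ∃ i, j = i + 2 := ⟨j - 2, by omega⟩
  have hw := window G hG i (by omega) (G2 n (i + 2)) hpos.le ?_
  · have h1 := dd_cub G hG i
    have h2 := dd_cub G hG (i + 1)
    have e1 : i + 2 - 1 = i + 1 := by omega
    have e2 : i + 2 - 2 = i := by omega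
    rw [e1, e2]
    rw [← h1, ← h2] at hw
    linarith
  · intro W _ H k hH hk hki hc
    rw [hV] at hc
    rcases Nat.lt_or_ge (Fintype.card W) (2 * (k + 1)) with hcard | hcard
    · rw [mm_eq_zero H hcard]
      exact mul_nonneg hpos.le (grow_mm_nonneg H k)
    · have hg := growth_two H hH k
      have hc' : (Fintype.card W : ℝ) + 2 * i + 1 ≤ 2 * n + 2 * k := by exact_mod_cast hc
      have hcard' : 2 * ((k : ℝ) + 1) ≤ Fintype.card W := by exact_mod_cast hcard
      have hk' : (i : ℝ) ≤ k + 3 := by exact_mod_cast hk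
      have hi3 : (3 : ℝ) ≤ i := by
        have : 3 ≤ i := by omega
        exact_mod_cast this
      have key := GrowD_num (t := (Fintype.card W : ℝ) - 2 * k) (t0 := 2 * n - 2 * i - 1) (k := k) (k0 := (i : ℝ) - 3)
        (a := mm H k) (b := mm H (k + 1)) (by linarith) (by linarith) (by linarith) (by linarith)
        (grow_mm_nonneg H k) (by nlinarith)
      refine key.trans (le_of_eq ?_)
      unfold G2
      push_cast
      congr 2
      · ring
      · ring

theorem growth_GA {V : Type} [Fintype V] {q : ℕ} (G : SimpleGraph V) (hG : Cub G)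
    (hV : Fintype.card V = 2 * (3 * q)) (hn : 200 ≤ q) (j : ℕ) (h5 : 5 ≤ j) (hj : j ≤ 3 * q) :
    0 < GA (3 * q) (PP q) j ∧ dd G (j - 1) ≤ GA (3 * q) (PP q) j * dd G (j - 2) := by
  unfold GA
  split_ifs with h1 h2
  · exact growth_G2 G hG hV (by omega) j h5 hj
  · set j' := min (j - 5) (33 * (3 * q) / 50) with hj'
    have hj1 : j' ≤ j - 5 := min_le_left _ _
    have hj2 : 50 * j' ≤ 33 * (3 * q) := by
      have : j' ≤ 33 * (3 * q) / 50 := min_le_right _ _
      omega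
    have hj3 : 32 * (3 * q) ≤ 100 * j' := by
      rcases min_choice (j - 5) (33 * (3 * q) / 50) with h | h
      · rw [hj', h]
        omega
      · rw [hj', h]
        omega
    have hp1 : 0 < PP q (j' + 1) := PP_pos (by omega)
    have hp0 : 0 < PP q j' := PP_pos (by omega)
    have hpos : 0 < PP q (j' + 1) / PP q j' := div_pos hp1 hp0
    refine ⟨hpos, ?_⟩
    obtain ⟨i, rfl⟩ : ∃ i, j = i + 2 := ⟨j - 2, by omega⟩
    have hw := window G hG i (by omega) (PP q (j' + 1) / PP q j') hpos.le ?_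
    · have h1 := dd_cub G hG i
      have h2 := dd_cub G hG (i + 1)
      have e1 : i + 2 - 1 = i + 1 := by omega
      have e2 : i + 2 - 2 = i := by omega
      rw [e1, e2]
      rw [← h1, ← h2] at hw
      linarith
    · intro W _ H k hH hk hki hc
      rw [hV] at hc
      have hs := sc0 (sys G hG hV) (by omega) hj3 hj2 H hH k (by omega) (by omega)
      rw [div_mul_eq_mul_div, le_div_iff₀ hp0]
      linarith
  · have hj' : (j : ℝ) ≤ 3 * q := by exact_mod_cast hj
    have h5' : (5 : ℝ) ≤ j := by exact_mod_cast h5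
    have hpos : 0 < Gt (3 * q) j := by
      unfold Gt
      push_cast
      apply div_pos
      · linarith
      · linarith
    refine ⟨hpos, ?_⟩
    obtain ⟨i, rfl⟩ : ∃ i, j = i + 2 := ⟨j - 2, by omega⟩
    have hw := window G hG i (by omega) (Gt (3 * q) (i + 2)) hpos.le ?_
    · have h1 := dd_cub G hG i
      have h2 := dd_cub G hG (i + 1)
      have e1 : i + 2 - 1 = i + 1 := by omega
      have e2 : i + 2 - 2 = i := by omega
      rw [e1, e2]
      rw [← h1, ← h2] at hw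
      linarith
    · intro W _ H k hH hk hki hc
      rw [hV] at hc
      have hg := growth_triv H hH k
      have hc' : (Fintype.card W : ℝ) + 2 * i + 1 ≤ 2 * (3 * q) + 2 * k := by exact_mod_cast hc
      have hk' : (i : ℝ) ≤ k + 3 := by exact_mod_cast hk
      have hi3 : (3 : ℝ) ≤ i := by
        have : 3 ≤ i := by omega
        exact_mod_cast this
      have hm0 := grow_mm_nonneg H k
      have hm1 := grow_mm_nonneg H (k + 1)
      have hden : (0 : ℝ) < 2 * (((i + 2 : ℕ) : ℝ) - 4) := by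
        push_cast
        linarith
      have hGt : Gt (3 * q) (i + 2) * mm H k =
          3 * (2 * ((3 * q : ℕ) : ℝ) - 2 * ((i + 2 : ℕ) : ℝ) + 3) * mm H k / (2 * (((i + 2 : ℕ) : ℝ) - 4)) := by
        unfold Gt
        ring
      rw [hGt, le_div_iff₀ hden]
      push_cast
      have a1 : ((Fintype.card W : ℝ) - 2 * k) * mm H k ≤ (2 * (3 * q) - 2 * i - 1) * mm H k :=
        mul_le_mul_of_nonneg_right (by linarith) hm0
      have a2 : ((i : ℝ) - 2) * mm H (k + 1) ≤ ((k : ℝ) + 1) * mm H (k + 1) :=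
        mul_le_mul_of_nonneg_right (by linarith) hm1
      linarith

end Pool.Agent.Lib.MP_eeed5c_coC
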