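import Pool.Agent.Lib.MP_eeed5c_co_C.Defs

/-!
# The Heilmann-Lieb theorem: the matching polynomial has no zeros outside the negative axis

PROOF. For a set `S` of vertices let `A_S(x) = ∑_k #{M ∈ mats G k : all edges of M inside S} x^k`
(`x` complex). For `v ∉ S` one has `A_{S ∪ v} = A_S + x ∑_{u ∈ S, u ~ v} A_{S \ u}` (the matching
either does not cover `v` or contains `vu` for exactly one `u`). Let `x` be not real `≤ 0` (`x ≠ 0`).
Then `-1/x` is not in `[0, ∞)`, so `-1/x = z^2` with `Im z > 0`. Put `F_S = z^|S| A_S(x)` with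
`x = -1/z^2`; the recursion becomes `F_{S ∪ v} = z F_S - ∑_{u ∈ S, u ~ v} F_{S \ u}`.
Claim (induction on `|S|`): `F_S ≠ 0` and for every `v ∉ S`: `Im (F_{S ∪ v} / F_S) ≥ Im z > 0`:
indeed `F_{S ∪ v}/F_S = z - ∑_u 1/(F_S/F_{S \ u})` and each `F_S/F_{S \ u}` has positive imaginary
part by induction (apply the claim to `S \ u` and `u`), so `-1/(...)` has positive imaginary part.
In particular `F_{S ∪ v} ≠ 0`. For `x = 0` the value is `1`.
-/

set_option autoImplicit false

namespace Pool.Agent.Lib.MP_eeed5c_coC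

open Finset Pool.Agent.Lib.MP_eeed5c_co

open scoped Classical in
/-- The matchings inside `S`. -/
noncomputable def MS {V : Type*} [Fintype V] (G : SimpleGraph V) (S : Finset V) :
    Finset (Finset (Sym2 V)) :=
  univ.filter fun s => (↑s : Set (Sym2 V)) ⊆ G.edgeSet ∧
    (↑s : Set (Sym2 V)).Pairwise (fun e f => ∀ v : V, v ∈ e → v ∉ f) ∧
    ∀ e ∈ s, ∀ v : V, v ∈ e → v ∈ S

/-- The polynomial of the matchings inside `S`. -/
noncomputable def AS {V : Type*} [Fintype V] (G : SimpleGraph V) (x : ℂ) (S : Finset V) : ℂ :=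
  ∑ M ∈ MS G S, x ^ M.card

section

variable {V : Type*} [Fintype V] {G : SimpleGraph V}

theorem mem_MS {S : Finset V} {s : Finset (Sym2 V)} : s ∈ MS G S ↔
    (↑s : Set (Sym2 V)) ⊆ G.edgeSet ∧
    (↑s : Set (Sym2 V)).Pairwise (fun e f => ∀ v : V, v ∈ e → v ∉ f) ∧
    ∀ e ∈ s, ∀ v : V, v ∈ e → v ∈ S := by
  simp [MS]

theorem MS_mats {S : Finset V} {s : Finset (Sym2 V)} (h : s ∈ MS G S) : s ∈ mats G s.card :=
  mem_mats.2 ⟨(mem_MS.1 h).1, rfl, (mem_MS.1 h).2.1⟩

theorem AS_univ (x : ℂ) :
    AS G x univ = ∑ k ∈ range (Fintype.card V + 1), (mm G k : ℂ) * x ^ k := by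
  classical
  have hmaps : ∀ M ∈ MS G univ, M.card ∈ range (Fintype.card V + 1) := by
    intro M hM
    have h1 := card_free (MS_mats hM)
    rw [Finset.mem_range]
    omega
  unfold AS
  rw [← Finset.sum_fiberwise_of_maps_to hmaps]
  refine Finset.sum_congr rfl fun k _ => ?_
  have h1 : (MS G univ).filter (fun M => M.card = k) = mats G k := by
    ext M
    rw [Finset.mem_filter, mem_MS, mem_mats]
    constructor
    · rintro ⟨⟨h1, h2, _⟩, h3⟩
      exact ⟨h1, h3, h2⟩
    · rintro ⟨h1, h2, h3⟩
      exact ⟨⟨h1, h3, fun _ _ _ _ => Finset.mem_univ _⟩, h2⟩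
  rw [h1]
  rw [Finset.sum_congr rfl (g := fun _ => x ^ k)
    (fun M hM => by rw [(mem_mats.1 hM).2.1])]
  rw [Finset.sum_const, nsmul_eq_mul]
  unfold mm
  push_cast
  rfl

theorem AS_empty (x : ℂ) : AS G x ∅ = 1 := by
  have h : MS G (∅ : Finset V) = {∅} := by
    ext s
    rw [mem_MS, Finset.mem_singleton]
    constructor
    · rintro ⟨_, _, h⟩
      rw [Finset.eq_empty_iff_forall_notMem]
      intro e he
      induction e using Sym2.ind with
      | _ a b =>
      have := h _ he a (by simp)
      simp at this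
    · rintro rfl
      simp
  unfold AS
  rw [h, Finset.sum_singleton, Finset.card_empty, pow_zero]

open scoped Classical in
/-- The recursion. -/
theorem AS_insert (x : ℂ) {S : Finset V} {v : V} (hv : v ∉ S) :
    AS G x (insert v S) = AS G x S + x * ∑ u ∈ S.filter (fun u => G.Adj v u),
      AS G x (S.erase u) := by
  unfold AS
  rw [← Finset.sum_filter_add_sum_filter_not (MS G (insert v S)) (fun M => v ∈ free M)]
  congr 1
  · refine Finset.sum_congr ?_ fun _ _ => rfl
    ext M
    rw [Finset.mem_filter, mem_MS, mem_MS, mem_free]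
    constructor
    · rintro ⟨⟨h1, h2, h3⟩, h4⟩
      refine ⟨h1, h2, fun e he w hw => ?_⟩
      rcases Finset.mem_insert.1 (h3 e he w hw) with rfl | h
      · exact absurd hw (h4 e he)
      · exact h
    · rintro ⟨h1, h2, h3⟩
      exact ⟨⟨h1, h2, fun e he w hw => Finset.mem_insert_of_mem (h3 e he w hw)⟩,
        fun e he hve => hv (h3 e he v hve)⟩
  · rw [Finset.mul_sum]
    rw [Finset.sum_congr rfl (s₁ := S.filter (fun u => G.Adj v u))
      (g := fun u => ∑ M ∈ MS G (S.erase u), x ^ (M.card + 1))
      (fun u _ => by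
        rw [Finset.mul_sum]
        exact Finset.sum_congr rfl fun M _ => by rw [pow_succ]; ring)]
    rw [Finset.sum_sigma']
    symm
    refine Finset.sum_bij (fun p _ => insert s(v, p.1) p.2) ?_ ?_ ?_ ?_
    · rintro ⟨u, M⟩ h
      simp only [Finset.mem_sigma, Finset.mem_filter] at h
      obtain ⟨⟨hu, huv⟩, hM⟩ := h
      have hM' := mem_MS.1 hM
      have hvM : v ∈ free M := mem_free.2 fun e he hve =>
        hv (Finset.mem_of_mem_erase (hM'.2.2 e he v hve))
      have huM : u ∈ free M := mem_free.2 fun e he hue =>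
        (Finset.mem_erase.1 (hM'.2.2 e he u hue)).1 rfl
      have h1 := mem_mats.1 (insert_mem_mats (MS_mats hM) hvM huM huv)
      rw [Finset.mem_filter, mem_MS]
      refine ⟨⟨h1.1, h1.2.2, ?_⟩, ?_⟩
      · intro e he w hw
        rcases Finset.mem_insert.1 he with rfl | he
        · rw [Sym2.mem_iff] at hw
          rcases hw with rfl | rfl
          · exact Finset.mem_insert_self _ _
          · exact Finset.mem_insert_of_mem hu
        · exact Finset.mem_insert_of_mem (Finset.mem_of_mem_erase (hM'.2.2 e he w hw))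
      · intro h2
        exact mem_free.1 h2 _ (Finset.mem_insert_self _ _) (by simp)
    · rintro ⟨u, M⟩ h ⟨u', M'⟩ h' heq
      simp only [Finset.mem_sigma, Finset.mem_filter] at h h'
      obtain ⟨⟨hu, huv⟩, hM⟩ := h
      obtain ⟨⟨hu', huv'⟩, hM'⟩ := h'
      have hM1 := mem_MS.1 hM
      have hM1' := mem_MS.1 hM'
      have hn : ∀ w, s(v, w) ∉ M := fun w hw =>
        hv (Finset.mem_of_mem_erase (hM1.2.2 _ hw v (by simp)))
      have hn' : ∀ w, s(v, w) ∉ M' := fun w hw =>
        hv (Finset.mem_of_mem_erase (hM1'.2.2 _ hw v (by simp)))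
      simp only at heq
      have e1 : s(v, u) ∈ insert s(v, u') M' := by
        rw [← heq]; exact Finset.mem_insert_self _ _
      have e2 : u = u' := by
        rcases Finset.mem_insert.1 e1 with h | h
        · have h2 : u = u' ∨ v = u' ∧ u = v := by simpa using h
          rcases h2 with h2 | ⟨h2, h3⟩
          · exact h2
          · rw [h3, h2]
        · exact absurd h (hn' u)
      subst e2
      have e3 : M = M' := by
        rw [← Finset.erase_insert (hn u), heq, Finset.erase_insert (hn' u)]
      rw [e3]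
    · intro M hM
      rw [Finset.mem_filter] at hM
      obtain ⟨hM, hvM⟩ := hM
      rw [mem_free] at hvM
      simp only [not_forall, not_not] at hvM
      obtain ⟨e, he, hve⟩ := hvM
      obtain ⟨u, rfl⟩ : ∃ u, e = s(v, u) := ⟨Sym2.Mem.other hve, (Sym2.other_spec hve).symm⟩
      have hM1 := mem_MS.1 hM
      have hadj : G.Adj v u := by
        have := hM1.1 he
        simpa using this
      have huS : u ∈ S := by
        rcases Finset.mem_insert.1 (hM1.2.2 _ he u (by simp)) with h | h
        · exact absurd h hadj.ne'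
        · exact h
      refine ⟨⟨u, M.erase s(v, u)⟩, ?_, ?_⟩
      · simp only [Finset.mem_sigma, Finset.mem_filter]
        refine ⟨⟨huS, hadj⟩, mem_MS.2 ⟨?_, ?_, ?_⟩⟩
        · intro f hf
          exact hM1.1 (Finset.mem_of_mem_erase hf)
        · exact hM1.2.1.mono (by
            intro f hf
            exact Finset.mem_of_mem_erase hf)
        · intro f hf w hw
          have hne : f ≠ s(v, u) := (Finset.mem_erase.1 hf).1
          have hfM := Finset.mem_of_mem_erase hf
          have hwv : w ≠ v := by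
            rintro rfl
            exact hM1.2.1 hfM he hne w hw (by simp)
          have hwu : w ≠ u := by
            rintro rfl
            exact hM1.2.1 hfM he hne w hw (by simp)
          rcases Finset.mem_insert.1 (hM1.2.2 f hfM w hw) with h | h
          · exact absurd h hwv
          · exact Finset.mem_erase.2 ⟨hwu, h⟩
      · exact Finset.insert_erase he
    · rintro ⟨u, M⟩ h
      simp only [Finset.mem_sigma, Finset.mem_filter] at h
      obtain ⟨⟨hu, huv⟩, hM⟩ := h
      have hM1 := mem_MS.1 hM
      have hn : s(v, u) ∉ M := fun hw =>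
        hv (Finset.mem_of_mem_erase (hM1.2.2 _ hw v (by simp)))
      simp only
      rw [Finset.card_insert_of_notMem hn]

/-- The normalized polynomial. -/
noncomputable def FS {V : Type*} [Fintype V] (G : SimpleGraph V) (z : ℂ) (S : Finset V) : ℂ :=
  z ^ S.card * AS G (-1 / z ^ 2) S

open scoped Classical in
theorem FS_insert (z : ℂ) (hz : z ≠ 0) {S : Finset V} {v : V} (hv : v ∉ S) :
    FS G z (insert v S) = z * FS G z S - ∑ u ∈ S.filter (fun u => G.Adj v u),
      FS G z (S.erase u) := by
  unfold FS
  rw [AS_insert _ hv, Finset.card_insert_of_notMem hv]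
  have h1 : ∑ u ∈ S.filter (fun u => G.Adj v u), z ^ (S.erase u).card *
      AS G (-1 / z ^ 2) (S.erase u) = z ^ (S.card + 1) / z ^ 2 *
        ∑ u ∈ S.filter (fun u => G.Adj v u), AS G (-1 / z ^ 2) (S.erase u) := by
    rw [Finset.mul_sum]
    refine Finset.sum_congr rfl fun u hu => ?_
    have hu' := (Finset.mem_filter.1 hu).1
    have h2 : (S.erase u).card + 1 = S.card := Finset.card_erase_add_one hu'
    rw [← h2]
    congr 1
    field_simp
    ring
  rw [h1]
  field_simp
  ring

theorem FS_ne_zero (z : ℂ) (hz : 0 < z.im) (n : ℕ) : ∀ S : Finset V, S.card = n →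
    FS G z S ≠ 0 ∧ ∀ v : V, v ∉ S →
      (by classical exact 0 < (FS G z (insert v S) / FS G z S).im) := by
  classical
  have hz0 : z ≠ 0 := by
    rintro rfl
    simp at hz
  induction n using Nat.strong_induction_on with
  | _ n ih =>
  intro S hS
  have h0 : FS G z S ≠ 0 := by
    rcases S.eq_empty_or_nonempty with rfl | ⟨v, hv⟩
    · unfold FS
      rw [AS_empty, Finset.card_empty, pow_zero, mul_one]
      exact one_ne_zero
    · have h1 : (S.erase v).card + 1 = S.card := Finset.card_erase_add_one hv
      have h2 := (ih (S.erase v).card (by omega) (S.erase v) rfl).2 v (Finset.notMem_erase _ _)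
      rw [Finset.insert_erase hv] at h2
      intro h3
      rw [h3, zero_div] at h2
      simp at h2
  refine ⟨h0, fun v hv => ?_⟩
  rw [FS_insert z hz0 hv, sub_div, mul_div_assoc, div_self h0, mul_one, Finset.sum_div,
    Complex.sub_im, Complex.im_sum]
  have h4 : ∑ u ∈ S.filter (fun u => G.Adj v u), (FS G z (S.erase u) / FS G z S).im ≤ 0 := by
    refine Finset.sum_nonpos fun u hu => ?_
    have hu' := (Finset.mem_filter.1 hu).1
    have h1 : (S.erase u).card + 1 = S.card := Finset.card_erase_add_one hu'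
    have h2 := (ih (S.erase u).card (by omega) (S.erase u) rfl).2 u (Finset.notMem_erase _ _)
    rw [Finset.insert_erase hu'] at h2
    rw [← inv_div, Complex.inv_im]
    have h5 : 0 ≤ Complex.normSq (FS G z S / FS G z (S.erase u)) := Complex.normSq_nonneg _
    exact div_nonpos_of_nonpos_of_nonneg (by linarith) h5
  linarith

end

theorem zero_free {V : Type*} [Fintype V] (G : SimpleGraph V) (x : ℂ)
    (hx : ¬ (x.im = 0 ∧ x.re < 0)) :
    ∑ k ∈ range (Fintype.card V + 1), (mm G k : ℂ) * x ^ k ≠ 0 := by
  classical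
  rcases eq_or_ne x 0 with rfl | hx0
  · rw [Finset.sum_eq_single 0]
    · rw [pow_zero, mul_one]
      unfold mm
      rw [card_mats_zero]
      simp
    · intro b _ hb
      rw [zero_pow hb, mul_zero]
    · intro h
      exact absurd (Finset.mem_range.2 (Nat.succ_pos _)) h
  · obtain ⟨z, hz⟩ : ∃ z : ℂ, z ^ 2 = -1 / x :=
      IsAlgClosed.exists_pow_nat_eq _ (by norm_num)
    have hzim : z.im ≠ 0 := by
      intro h
      apply hx
      have hz0 : z ≠ 0 := by
        rintro rfl
        have h1 : (-1 : ℂ) / x ≠ 0 := div_ne_zero (by norm_num) hx0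
        apply h1
        rw [← hz]
        simp
      have hre : z.re ≠ 0 := by
        intro h'
        exact hz0 (Complex.ext h' h)
      have hzr : z = (z.re : ℂ) := Complex.ext rfl (by simpa using h)
      have hx1 : x = ((-1 / z.re ^ 2 : ℝ) : ℂ) := by
        have h2 : x = -1 / z ^ 2 := by
          rw [hz]
          field_simp
        rw [h2]
        push_cast
        rw [← hzr]
      rw [hx1]
      refine ⟨Complex.ofReal_im _, ?_⟩
      rw [Complex.ofReal_re]
      have : 0 < z.re ^ 2 := by positivity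
      exact div_neg_of_neg_of_pos (by norm_num) this
    obtain ⟨y, hy, hyim⟩ : ∃ y : ℂ, y ^ 2 = -1 / x ∧ 0 < y.im := by
      rcases lt_or_gt_of_ne hzim with h | h
      · exact ⟨-z, by rw [neg_sq]; exact hz, by rw [Complex.neg_im]; linarith⟩
      · exact ⟨z, hz, h⟩
    have h1 := (FS_ne_zero (G := G) y hyim _ univ rfl).1
    unfold FS at h1
    have h2 : (-1 : ℂ) / y ^ 2 = x := by
      rw [hy]
      field_simp
    rw [h2, AS_univ] at h1
    exact (mul_ne_zero_iff.1 h1).2

end Pool.Agent.Lib.MP_eeed5c_coC
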