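import Mathlib

/-!
# Linear programming certificates for cubic graphs (small number of blocks)

Setting: `n = 3 q`, sequences `E, d : ℕ → F` in an ordered field with
`E 0 = E 1 = E 2 = 0`, `E (n+1) = E (n+2) = 0` and, for `2 ≤ j ≤ n + 1`,
`(j+1) E_{j+1} + 3 (3j-n) E_j - 6 (2n+3-3j) E_{j-1} - 6 (n+2-j) E_{j-2} = d_j`,
`0 ≤ d_j`, and the growth bound `2 (2n-7) (j-4) d_{j+1} ≤ M (3M+2j-10) d_j`, `M = 2n-2j+3`,
for `5 ≤ j ≤ n`.  A certificate for `0 ≤ E N` is a triple `(e, a, b)`: the multipliers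
`j! g_j` of `d_j` are determined by `g_n = a`, `g_{n+1} = b` and a downward recursion with the
source `2^e` at `N`.
-/

namespace UMC

/-- Downward recursion for the multipliers; the state `(a, b, c)` is `(g_i, g_{i+1}, g_{i+2})` with
`i = k + 2`. -/
def lpDown (n N : ℕ) (s : ℤ) : ℕ → ℤ → ℤ → ℤ → List ℤ → List ℤ
  | 0, _, _, _, L => L
  | k + 1, a, b, c, L =>
    let i : ℤ := (k : ℤ) + 3
    let g : ℤ := (if k + 3 = N then s else 0) - 3 * (3 * i - n) * a
      + 6 * (2 * n - 3 * i) * (i + 1) * b + 6 * (n - i) * ((i + 2) * (i + 1)) * c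
    lpDown n N s k g a b (g :: L)

/-- Prefix sums from `j = 5`. -/
def lpPref (n : ℕ) : ℕ → ℤ → ℤ → List ℤ → Bool
  | _, _, _, [] => true
  | j, T, W, g :: t =>
    let j' : ℤ := (j : ℤ)
    let T' : ℤ := T * (2 * (2 * n - 7)) + g * (j' * (j' - 1) * (j' - 2) * (j' - 3) * (j' - 4)) * W
    let M : ℤ := 2 * n - 2 * j' + 3
    decide (0 ≤ T') && lpPref n (j + 1) T' (W * (M * (3 * M + 2 * j' - 10))) t

/-- The checker. -/
def lpChk (n N : ℕ) (s a b : ℤ) : Bool :=
  match lpDown n N s (n - 2) a b 0 [a, b] with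
  | g2 :: g3 :: g4 :: t =>
    decide (0 < s) && (decide (0 ≤ g2) && (decide (0 ≤ g3) && (decide (0 ≤ g4) &&
      lpPref n 5 0 1 t)))
  | _ => false

theorem lpDown_length (n N : ℕ) (s : ℤ) : ∀ (k : ℕ) (a b c : ℤ) (L : List ℤ),
    (lpDown n N s k a b c L).length = k + L.length := by
  intro k
  induction k with
  | zero => intro a b c L; simp [lpDown]
  | succ k ih =>
    intro a b c L
    simp only [lpDown]
    rw [ih]
    simp only [List.length_cons]
    ring

section sound

variable {F : Type*} [Field F] [LinearOrder F] [IsStrictOrderedRing F]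

/-- The weighted sum of a list of multipliers. -/
def lpSum (d : ℕ → F) : ℕ → List ℤ → F
  | _, [] => 0
  | i, g :: t => (i.factorial : F) * (g : F) * d i + lpSum d (i + 1) t

theorem lpPref_sound (n : ℕ) (hn : 5 ≤ n) (d : ℕ → F) (hd : ∀ j, 5 ≤ j → 0 ≤ d j)
    (hg : ∀ j, 5 ≤ j → j ≤ n + 1 → 2 * (2 * (n : F) - 7) * ((j : F) - 4) * d (j + 1) ≤
      (2 * (n : F) - 2 * j + 3) * (3 * (2 * (n : F) - 2 * j + 3) + 2 * j - 10) * d j) :
    ∀ (t : List ℤ) (j : ℕ) (T W : ℤ), 5 ≤ j → j + t.length ≤ n + 2 → 0 ≤ T → 0 < W →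
      lpPref n j T W t = true →
      0 ≤ (T : F) * (2 * (2 * (n : F) - 7)) * ((j - 5).factorial : F) * d j / (W : F)
        + lpSum d j t := by
  have hn' : (5 : F) ≤ (n : F) := by exact_mod_cast hn
  intro t
  induction t with
  | nil =>
    intro j T W hj _ hT hW _
    have h1 : (0 : F) ≤ (T : F) := by exact_mod_cast hT
    have h2 : (0 : F) < (W : F) := by exact_mod_cast hW
    have h3 := hd j hj
    have h4 : (0 : F) ≤ 2 * (2 * (n : F) - 7) := by linarith
    have h5 : (0 : F) ≤ ((j - 5).factorial : F) := by positivity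
    simp only [lpSum, add_zero]
    exact div_nonneg (mul_nonneg (mul_nonneg (mul_nonneg h1 h4) h5) h3) h2.le
  | cons g t ih =>
    intro j T W hj hlen hT hW hchk
    simp only [lpPref, Bool.and_eq_true, decide_eq_true_eq] at hchk
    obtain ⟨hT', hrest⟩ := hchk
    obtain ⟨m, rfl⟩ := Nat.exists_eq_add_of_le hj
    simp only [List.length_cons] at hlen
    have hjn : 5 + m ≤ n + 1 := by omega
    set M : ℤ := 2 * (n : ℤ) - 2 * ((5 + m : ℕ) : ℤ) + 3 with hM
    have hMpos : 0 < M := by
      rw [hM]; push_cast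
      have : (5 : ℤ) + m ≤ n + 1 := by exact_mod_cast hjn
      linarith
    have hM2 : 0 < 3 * M + 2 * ((5 + m : ℕ) : ℤ) - 10 := by
      push_cast
      have : (0 : ℤ) ≤ m := by positivity
      linarith
    have hW' : 0 < W * (M * (3 * M + 2 * ((5 + m : ℕ) : ℤ) - 10)) :=
      mul_pos hW (mul_pos hMpos hM2)
    set T' : ℤ := T * (2 * (2 * (n : ℤ) - 7)) + g * (((5 + m : ℕ) : ℤ) * (((5 + m : ℕ) : ℤ) - 1) *
      (((5 + m : ℕ) : ℤ) - 2) * (((5 + m : ℕ) : ℤ) - 3) * (((5 + m : ℕ) : ℤ) - 4)) * W with hT'd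
    have key := ih (5 + m + 1) T' (W * (M * (3 * M + 2 * ((5 + m : ℕ) : ℤ) - 10))) (by omega)
      (by omega) hT' hW' hrest
    have hWF : (0 : F) < (W : F) := by exact_mod_cast hW
    have hMF : (0 : F) < (M : F) := by exact_mod_cast hMpos
    have hM2F : (0 : F) < 3 * (M : F) + 2 * ((5 + m : ℕ) : F) - 10 := by exact_mod_cast hM2
    have hT'F : (0 : F) ≤ (T' : F) := by exact_mod_cast hT'
    have hg' := hg (5 + m) hj hjn
    have hMcast : (M : F) = 2 * (n : F) - 2 * ((5 + m : ℕ) : F) + 3 := by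
      rw [hM]; push_cast; ring
    have hm1 : 5 + m + 1 - 5 = m + 1 := by omega
    have hm0 : 5 + m - 5 = m := by omega
    have hfac : (((5 + m : ℕ)).factorial : F) = ((5 + m : ℕ) : F) * (((5 + m : ℕ) : F) - 1) *
        (((5 + m : ℕ) : F) - 2) * (((5 + m : ℕ) : F) - 3) * (((5 + m : ℕ) : F) - 4)
        * (m.factorial : F) := by
      have h5 : (5 + m) = m + 1 + 1 + 1 + 1 + 1 := by ring
      rw [h5]
      simp only [Nat.factorial_succ]
      push_cast
      ring
    rw [hm0]
    rw [hm1] at key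
    -- the current term
    have hT'cast : (T' : F) = (T : F) * (2 * (2 * (n : F) - 7)) + (g : F) *
        (((5 + m : ℕ) : F) * (((5 + m : ℕ) : F) - 1) *
        (((5 + m : ℕ) : F) - 2) * (((5 + m : ℕ) : F) - 3) * (((5 + m : ℕ) : F) - 4)) * (W : F) := by
      rw [hT'd]; push_cast; ring
    have hcur : (T : F) * (2 * (2 * (n : F) - 7)) * (m.factorial : F) * d (5 + m) / (W : F)
        + (((5 + m : ℕ)).factorial : F) * (g : F) * d (5 + m)
        = (T' : F) * (m.factorial : F) * d (5 + m) / (W : F) := by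
      rw [hfac, hT'cast]
      field_simp
    have hstep : (T' : F) * (2 * (2 * (n : F) - 7)) * ((m + 1).factorial : F) * d (5 + m + 1) /
        ((W * (M * (3 * M + 2 * ((5 + m : ℕ) : ℤ) - 10)) : ℤ) : F)
        ≤ (T' : F) * (m.factorial : F) * d (5 + m) / (W : F) := by
      rw [Nat.factorial_succ]
      push_cast at hMF hM2F hg' hMcast ⊢
      rw [div_le_div_iff₀ (by positivity) hWF]
      have hA : 2 * (2 * (n : F) - 7) * ((m : F) + 1) * d (5 + m + 1) ≤
          (M : F) * (3 * (M : F) + 2 * (5 + (m : F)) - 10) * d (5 + m) := by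
        rw [hMcast]
        have e1 : (5 : F) + (m : F) - 4 = (m : F) + 1 := by ring
        rw [e1] at hg'
        exact hg'
      have hB : (0 : F) ≤ (T' : F) * (m.factorial : F) * (W : F) := by positivity
      nlinarith [mul_le_mul_of_nonneg_left hA hB]
    have hlast : lpSum d (5 + m) (g :: t) =
        (((5 + m : ℕ)).factorial : F) * (g : F) * d (5 + m) + lpSum d (5 + m + 1) t := rfl
    rw [hlast, ← add_assoc, hcur]
    linarith

/-- Invariant of the downward recursion. -/
theorem lpDown_sum (n N : ℕ) (s : ℤ) (E d : ℕ → F) (hE0 : E 0 = 0) (hE1 : E 1 = 0)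
    (hE2 : E 2 = 0)
    (hrec : ∀ j, 2 ≤ j → j ≤ n + 1 → d j = ((j : F) + 1) * E (j + 1)
      + 3 * (3 * (j : F) - n) * E j - 6 * (2 * (n : F) + 3 - 3 * j) * E (j - 1)
      - 6 * ((n : F) + 2 - j) * E (j - 2)) :
    ∀ (k : ℕ) (a b c : ℤ) (L : List ℤ), k + 2 ≤ n →
      lpSum d (k + 2) L = (if k + 3 ≤ N then (s : F) * (N.factorial : F) * E N else 0)
        + ((k + 2).factorial : F) * (3 * (3 * ((k : F) + 2) - n) * a
            - 6 * (2 * (n : F) - 3 * ((k : F) + 2)) * ((k : F) + 3) * b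
            - 6 * ((n : F) - ((k : F) + 2)) * (((k : F) + 4) * ((k : F) + 3)) * c) * E (k + 2)
        - ((k + 2).factorial : F) * (6 * (2 * (n : F) + 3 - 3 * ((k : F) + 2)) * a
            + 6 * ((n : F) + 1 - ((k : F) + 2)) * ((k : F) + 3) * b) * E (k + 1)
        - ((k + 2).factorial : F) * (6 * ((n : F) + 2 - ((k : F) + 2)) * a) * E k →
      lpSum d 2 (lpDown n N s k a b c L)
        = (if 3 ≤ N then (s : F) * (N.factorial : F) * E N else 0) := by
  intro k
  induction k with
  | zero =>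
    intro a b c L _ h
    simp only [zero_add] at h
    simp only [lpDown]
    rw [h, hE0, hE1, hE2]
    ring
  | succ k ih =>
    intro a b c L hk h
    simp only [lpDown]
    apply ih _ _ _ _ (by omega)
    have hl : ∀ g : ℤ, lpSum d (k + 2) (g :: L) =
        ((k + 2).factorial : F) * (g : F) * d (k + 2) + lpSum d (k + 1 + 2) L := fun g => rfl
    rw [hl, h]
    have hr := hrec (k + 2) (by omega) (by omega)
    have e1 : k + 2 - 1 = k + 1 := by omega
    have e2 : k + 2 - 2 = k := by omega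
    rw [e1, e2] at hr
    have e3 : k + 1 + 2 = k + 3 := by ring
    have e4 : k + 2 + 1 = k + 3 := by ring
    have e5 : k + 1 + 1 = k + 2 := by ring
    have e6 : k + 1 + 3 = k + 4 := by ring
    have e7 : ((k + 3).factorial : F) = ((k : F) + 3) * ((k + 2).factorial : F) := by
      rw [Nat.factorial_succ]; push_cast; ring
    rw [e4] at hr
    rw [hr, e3, e5, e6, e7]
    rcases lt_trichotomy (k + 3) N with hN | hN | hN
    · have c1 : k + 4 ≤ N := by omega
      have c2 : k + 3 ≤ N := by omega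
      have c3 : k + 3 ≠ N := by omega
      simp only [c1, c2, c3, if_true, if_false]
      push_cast
      ring
    · subst hN
      have c1 : ¬ k + 4 ≤ k + 3 := by omega
      have c2 : k + 3 ≤ k + 3 := le_rfl
      simp only [c1, c2, if_true, if_false]
      rw [e7]
      push_cast
      ring
    · have c1 : ¬ k + 4 ≤ N := by omega
      have c2 : ¬ k + 3 ≤ N := by omega
      have c3 : k + 3 ≠ N := by omega
      simp only [c1, c2, c3, if_false]
      push_cast
      ring

/-- Soundness of the checker. -/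
theorem lpChk_sound (n N : ℕ) (hn : 5 ≤ n) (hN : 3 ≤ N) (hNn : N ≤ n) (s a b : ℤ) (E d : ℕ → F)
    (hE0 : E 0 = 0) (hE1 : E 1 = 0) (hE2 : E 2 = 0) (hEn1 : E (n + 1) = 0) (hEn2 : E (n + 2) = 0)
    (hrec : ∀ j, 2 ≤ j → j ≤ n + 1 → d j = ((j : F) + 1) * E (j + 1)
      + 3 * (3 * (j : F) - n) * E j - 6 * (2 * (n : F) + 3 - 3 * j) * E (j - 1)
      - 6 * ((n : F) + 2 - j) * E (j - 2))
    (hd : ∀ j, 2 ≤ j → j ≤ n + 1 → 0 ≤ d j)
    (hg : ∀ j, 5 ≤ j → j ≤ n → 2 * (2 * (n : F) - 7) * ((j : F) - 4) * d (j + 1) ≤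
      (2 * (n : F) - 2 * j + 3) * (3 * (2 * (n : F) - 2 * j + 3) + 2 * j - 10) * d j)
    (hchk : lpChk n N s a b = true) : 0 ≤ E N := by
  -- replace `d` by zero beyond `n + 1`
  set d' : ℕ → F := fun j => if j ≤ n + 1 then d j else 0 with hd'
  have hd'1 : ∀ j, j ≤ n + 1 → d' j = d j := fun j hj => by simp [hd', hj]
  have hd'nn : ∀ j, 2 ≤ j → 0 ≤ d' j := by
    intro j hj
    by_cases h : j ≤ n + 1
    · rw [hd'1 j h]; exact hd j hj h
    · simp [hd', h]
  have hrec' : ∀ j, 2 ≤ j → j ≤ n + 1 → d' j = ((j : F) + 1) * E (j + 1)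
      + 3 * (3 * (j : F) - n) * E j - 6 * (2 * (n : F) + 3 - 3 * j) * E (j - 1)
      - 6 * ((n : F) + 2 - j) * E (j - 2) := by
    intro j h2 hj
    rw [hd'1 j hj]; exact hrec j h2 hj
  have hg' : ∀ j, 5 ≤ j → j ≤ n + 1 → 2 * (2 * (n : F) - 7) * ((j : F) - 4) * d' (j + 1) ≤
      (2 * (n : F) - 2 * j + 3) * (3 * (2 * (n : F) - 2 * j + 3) + 2 * j - 10) * d' j := by
    intro j h5 hj
    by_cases h : j ≤ n
    · rw [hd'1 j (by omega), hd'1 (j + 1) (by omega)]; exact hg j h5 h
    · have h' : ¬ (j + 1 ≤ n + 1) := by omega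
      have hz : d' (j + 1) = 0 := by simp only [hd', h', if_false]
      rw [hz, mul_zero]
      have hj2 : (j : F) ≤ (n : F) + 1 := by exact_mod_cast hj
      have hj5 : (5 : F) ≤ (j : F) := by exact_mod_cast h5
      apply mul_nonneg (mul_nonneg _ _) (hd'nn j (by omega))
      · linarith
      · linarith
  obtain ⟨k, rfl⟩ := Nat.exists_eq_add_of_le (show 2 ≤ n by omega)
  have hk : 2 + k - 2 = k := by omega
  simp only [lpChk, hk] at hchk
  have hinv := lpDown_sum (2 + k) N s E d' hE0 hE1 hE2 hrec' k a b 0 [a, b] (by omega) (by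
    have h1 := hrec' (k + 2) (by omega) (by omega)
    have h2 := hrec' (k + 3) (by omega) (by omega)
    have e1 : k + 2 - 1 = k + 1 := by omega
    have e2 : k + 2 - 2 = k := by omega
    have e3 : k + 3 - 1 = k + 2 := by omega
    have e4 : k + 3 - 2 = k + 1 := by omega
    have e5 : k + 2 + 1 = k + 3 := by ring
    have e6 : 2 + k + 1 = k + 3 := by ring
    have e7 : 2 + k + 2 = k + 4 := by ring
    have e8 : k + 3 + 1 = k + 4 := by ring
    rw [e6] at hEn1
    rw [e7] at hEn2
    rw [e1, e2, e5, hEn1] at h1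
    rw [e3, e4, e8, hEn1, hEn2] at h2
    have hl : lpSum d' (k + 2) [a, b] = ((k + 2).factorial : F) * (a : F) * d' (k + 2)
        + (((k + 3).factorial : F) * (b : F) * d' (k + 3) + 0) := rfl
    have e9 : ((k + 3).factorial : F) = ((k : F) + 3) * ((k + 2).factorial : F) := by
      rw [Nat.factorial_succ]; push_cast; ring
    have c1 : ¬ (k + 3 ≤ N) := by omega
    rw [hl, h1, h2, e9]
    simp only [c1, if_false]
    push_cast
    ring)
  simp only [hN, if_true] at hinv
  cases hL : lpDown (2 + k) N s k a b 0 [a, b] with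
  | nil => rw [hL] at hchk; simp at hchk
  | cons g2 t2 =>
    cases ht2 : t2 with
    | nil => rw [hL, ht2] at hchk; simp at hchk
    | cons g3 t3 =>
      cases ht3 : t3 with
      | nil => rw [hL, ht2, ht3] at hchk; simp at hchk
      | cons g4 t =>
        rw [hL, ht2, ht3] at hchk hinv
        simp only [Bool.and_eq_true, decide_eq_true_eq] at hchk
        obtain ⟨hs, h2, h3, h4, hp⟩ := hchk
        have hlen : (lpDown (2 + k) N s k a b 0 [a, b]).length = k + 2 := lpDown_length _ _ _ _ _ _ _ _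
        have hlt : t.length + 3 = k + 2 := by
          rw [hL, ht2, ht3] at hlen
          simpa using hlen
        have hpos := lpPref_sound (2 + k) hn d' (fun j hj => hd'nn j (by omega)) hg' t 5 0 1
          le_rfl (by omega) le_rfl one_pos hp
        simp only [Int.cast_zero, zero_mul, zero_div, zero_add] at hpos
        have hsplit : lpSum d' 2 (g2 :: g3 :: g4 :: t) =
            ((2 : ℕ).factorial : F) * (g2 : F) * d' 2 + (((3 : ℕ).factorial : F) * (g3 : F) * d' 3
              + (((4 : ℕ).factorial : F) * (g4 : F) * d' 4 + lpSum d' 5 t)) := rfl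
        rw [hsplit] at hinv
        have q2 : (0 : F) ≤ (g2 : F) := by exact_mod_cast h2
        have q3 : (0 : F) ≤ (g3 : F) := by exact_mod_cast h3
        have q4 : (0 : F) ≤ (g4 : F) := by exact_mod_cast h4
        have hsF : (0 : F) < (s : F) := by exact_mod_cast hs
        have p2 := mul_nonneg (mul_nonneg (Nat.cast_nonneg (α := F) (2 : ℕ).factorial) q2)
          (hd'nn 2 le_rfl)
        have p3 := mul_nonneg (mul_nonneg (Nat.cast_nonneg (α := F) (3 : ℕ).factorial) q3)
          (hd'nn 3 (by norm_num))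
        have p4 := mul_nonneg (mul_nonneg (Nat.cast_nonneg (α := F) (4 : ℕ).factorial) q4)
          (hd'nn 4 (by norm_num))
        have hfin : 0 ≤ (s : F) * (N.factorial : F) * E N := by
          rw [← hinv]; linarith
        have hpos2 : 0 < (s : F) * (N.factorial : F) :=
          mul_pos hsF (by exact_mod_cast N.factorial_pos)
        exact nonneg_of_mul_nonneg_right hfin hpos2

end sound

end UMC
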