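import Pool.Agent.Lib.MP_eeed5c_co_C.LPData2

/-!
# Nonnegativity of `E` for `q = 5, …, 24`
-/

namespace UMC

variable {F : Type*} [Field F] [LinearOrder F] [IsStrictOrderedRing F]

/-- The hypotheses of the linear program (cubic graphs, `2 n` vertices). -/
structure LPHyp (n : ℕ) (E d : ℕ → F) : Prop where
  E0 : E 0 = 0
  E1 : E 1 = 0
  E2 : E 2 = 0
  En1 : E (n + 1) = 0
  En2 : E (n + 2) = 0
  hrec : ∀ j, 2 ≤ j → j ≤ n + 1 → d j = ((j : F) + 1) * E (j + 1)
      + 3 * (3 * (j : F) - n) * E j - 6 * (2 * (n : F) + 3 - 3 * j) * E (j - 1)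
      - 6 * ((n : F) + 2 - j) * E (j - 2)
  nonneg : ∀ j, 2 ≤ j → j ≤ n + 1 → 0 ≤ d j
  growth : ∀ j, 5 ≤ j → j ≤ n → 2 * (2 * (n : F) - 7) * ((j : F) - 4) * d (j + 1) ≤
      (2 * (n : F) - 2 * j + 3) * (3 * (2 * (n : F) - 2 * j + 3) + 2 * j - 10) * d j

theorem lpAll_sound {n : ℕ} (hn : 5 ≤ n) {E d : ℕ → F} (h : LPHyp n E d)
    {L : List (ℕ × ℕ × ℤ × ℤ)} (hL : lpAll n L = true) {N : ℕ} (hN : N ∈ L.map Prod.fst)
    (hN3 : 3 ≤ N) (hNn : N ≤ n) : 0 ≤ E N := by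
  obtain ⟨x, hx, rfl⟩ := List.mem_map.1 hN
  have hx' := List.all_eq_true.1 hL x hx
  exact lpChk_sound n x.1 hn hN3 hNn _ _ _ E d h.E0 h.E1 h.E2 h.En1 h.En2 h.hrec h.nonneg
    h.growth hx'

theorem lp_seven {E d : ℕ → F} (h : LPHyp 15 E d) (h65 : 3 * d 5 ≤ 2 * d 6) : 0 ≤ E 7 := by
  have r2 := h.hrec 2 (by norm_num) (by norm_num)
  have r3 := h.hrec 3 (by norm_num) (by norm_num)
  have r4 := h.hrec 4 (by norm_num) (by norm_num)
  have r5 := h.hrec 5 (by norm_num) (by norm_num)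
  have r6 := h.hrec 6 (by norm_num) (by norm_num)
  have n2 := h.nonneg 2 (by norm_num) (by norm_num)
  have n3 := h.nonneg 3 (by norm_num) (by norm_num)
  have n4 := h.nonneg 4 (by norm_num) (by norm_num)
  have z0 := h.E0
  have z1 := h.E1
  have z2 := h.E2
  norm_num at r2 r3 r4 r5 r6
  rw [z2, z1, z0] at r2
  rw [z2, z1] at r3
  rw [z2] at r4
  linarith

theorem lp_small (q : ℕ) (hq5 : 5 ≤ q) (hq24 : q ≤ 24) {E d : ℕ → F} (h : LPHyp (3 * q) E d)
    (h65 : q = 5 → 3 * d 5 ≤ 2 * d 6) (N : ℕ) (hN : N ≤ 3 * q) : 0 ≤ E N := by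
  rcases Nat.lt_or_ge N 3 with h3 | h3
  · interval_cases N
    · exact h.E0.ge
    · exact h.E1.ge
    · exact h.E2.ge
  have key : ∀ L : List (ℕ × ℕ × ℤ × ℤ), lpAll (3 * q) L = true →
      L.map Prod.fst = List.range' 3 (3 * q - 2) → 0 ≤ E N := by
    intro L h1 h2
    refine lpAll_sound (by omega) h h1 ?_ h3 hN
    rw [h2, List.mem_range'_1]
    omega
  interval_cases q
  · by_cases h7 : N = 7
    · subst h7
      exact lp_seven h (h65 rfl)
    · refine lpAll_sound (by norm_num) h lpData5_ok ?_ h3 hN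
      interval_cases N <;> first | decide | exact absurd rfl h7
  · exact key _ lpData6_ok rfl
  · exact key _ lpData7_ok rfl
  · exact key _ lpData8_ok rfl
  · exact key _ lpData9_ok rfl
  · exact key _ lpData10_ok rfl
  · exact key _ lpData11_ok rfl
  · exact key _ lpData12_ok rfl
  · exact key _ lpData13_ok rfl
  · exact key _ lpData14_ok rfl
  · exact key _ lpData15_ok rfl
  · exact key _ lpData16_ok rfl
  · exact key _ lpData17_ok rfl
  · exact key _ lpData18_ok rfl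
  · exact key _ lpData19_ok rfl
  · exact key _ lpData20_ok rfl
  · exact key _ lpData21_ok rfl
  · exact key _ lpData22_ok rfl
  · exact key _ lpData23_ok rfl
  · exact key _ lpData24_ok rfl

end UMC
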