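import Pool.Agent.Lib.MP_eeed5c_co_C.Chain
import Pool.Agent.Lib.MP_eeed5c_co_C.GrowD
import Pool.Agent.Lib.MP_eeed5c_co_C.An

/-!
# Cubic graphs: from the numerical conditions to the theorem
-/

set_option autoImplicit false

namespace Pool.Agent.Lib.MP_eeed5c_coC

open Finset Pool.Agent.Lib.MP_eeed5c_co Pool.Agent.Lib.MP_eeed5c_coT

theorem cubic_of_good {V : Type} [Fintype V] {q : ℕ} (G : SimpleGraph V) (hG : Cub G)
    (hV : Fintype.card V = 2 * (3 * q)) (hq : 6 ≤ q) {Gr : ℕ → ℝ}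
    (hGr : ∀ j, 5 ≤ j → j ≤ 3 * q → 0 < Gr j ∧ dd G (j - 1) ≤ Gr j * dd G (j - 2))
    (hg : Good (3 * q) (PP q) Gr) (j : ℕ) : mm G j ≤ PP q j := by
  have hs := sys G hG hV
  have h := chain hs (by omega) (G := Gr) (fun j h5 hj => ?_) hg j
  · linarith [show 0 ≤ PP q j - mm G j from h]
  · obtain ⟨h1, h2⟩ := hGr j h5 hj
    refine ⟨h1, ?_⟩
    rw [if_neg (by omega), if_neg (by omega)]
    exact h2

theorem cubic_large {V : Type} [Fintype V] {q : ℕ} (G : SimpleGraph V) (hG : Cub G)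
    (hV : Fintype.card V = 2 * (3 * q)) (hq : 500 ≤ q) (j : ℕ) : mm G j ≤ PP q j :=
  cubic_of_good G hG hV (by omega) (fun j h5 hj => growth_GA G hG hV (by omega) j h5 hj)
    (good_an (sys G hG hV) (by omega)) j

theorem cubic_of_goodA {V : Type} [Fintype V] {q : ℕ} (G : SimpleGraph V) (hG : Cub G)
    (hV : Fintype.card V = 2 * (3 * q)) (hq : 6 ≤ q)
    (hg : Good (3 * q) (PP q) (G2 (3 * q))) (j : ℕ) : mm G j ≤ PP q j :=
  cubic_of_good G hG hV hq (fun j h5 hj => growth_G2 G hG hV (by omega) j h5 hj) hg j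

theorem cubic_of_goodB {V : Type} [Fintype V] {q : ℕ} (G : SimpleGraph V) (hG : Cub G)
    (hV : Fintype.card V = 2 * (3 * q)) (hq : 200 ≤ q)
    (hg : Good (3 * q) (PP q) (GA (3 * q) (PP q))) (j : ℕ) : mm G j ≤ PP q j :=
  cubic_of_good G hG hV (by omega) (fun j h5 hj => growth_GA G hG hV hq j h5 hj) hg j

end Pool.Agent.Lib.MP_eeed5c_coC
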