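import Pool.Agent.Lib.MP_eeed5c_co_C.Defs

/-!
# Ratios of consecutive numbers of matchings of `q K_{3,3}`

`yy P j = P_j / P_{j+1}`. For a system (`Sys`) and `j < n`, `P_{j+1} > 0`.

PROOFS (divide the fields of `Sys` by suitable products of positive numbers).
`y_ulc` (`1 ≤ j`, `j + 1 ≤ n`): `P_ulc` at `k = j - 1`:
`(j+1)(n-j+1) P_{j+1} P_{j-1} ≤ j (n-j) P_j^2`, divide by `P_j P_{j+1}`.
`y_mono`: from `y_ulc`, `j(n-j) ≤ (j+1)(n-j+1)`; then induction.
`y_rl`: `P_rl` at `k = j-1`, divided by `P_j P_{j+1}`: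
`j^2 y_j + 6(n-j+1) y_j y_{j-1}^2 ≤ j(j+1) y_{j-1} + 7 j y_j y_{j-1}`.
`y_rec` (`2 ≤ j < n`): `P_rec` at `i = j-2`, divided by `P_{j+1}`.
`z_mono`: `(n-j) y_j/(j+1)` is nondecreasing, this is `y_ulc`. `z_last`: `P_{n-1} = n P_n` (`P_rec` at
`i = n-1`: `0 = -6 n P_n + 6 P_{n-1}`), so `(n-j) y_j ≤ j+1` for all `j < n` (`z_le`).
`y_lb`: lower bound from log-concavity: if `c ≥ 0` and
`3(n-3j) c + 6(2n-3j+3) c^2 + 6(n-j+2) c^3 < j+1` and `3j ≤ 2n+3` then `c < y_j`. Proof: suppose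
`y = y_j ≤ c`; `y_{j-1}, y_{j-2} ≤ y`, so by `y_rec`
`j+1 ≤ y (3(n-3j) + 6(2n-3j+3) y + 6(n-j+2) y^2)`; the bracket is positive and nondecreasing in `y`,
so the right side is at most its value at `c`.
-/

set_option autoImplicit false

namespace Pool.Agent.Lib.MP_eeed5c_coC

/-- The ratio `P_j / P_{j+1}`. -/
noncomputable def yy (P : ℕ → ℝ) (j : ℕ) : ℝ := P j / P (j + 1)

section

variable {n : ℕ} {P E d : ℕ → ℝ}

theorem y_pos (h : Sys n P E d) {j : ℕ} (hj : j < n) : 0 < yy P j := by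
  exact div_pos (h.P_pos j hj.le) (h.P_pos (j + 1) hj)

private theorem Ratio_mul (h : Sys n P E d) {j : ℕ} (hj : j < n) : P j = yy P j * P (j + 1) := by
  unfold yy
  rw [div_mul_cancel₀ _ (h.P_pos (j + 1) hj).ne']

theorem y_ulc (h : Sys n P E d) {j : ℕ} (h1 : 1 ≤ j) (hj : j < n) :
    ((j : ℝ) + 1) * ((n : ℝ) - j + 1) * yy P (j - 1) ≤ (j : ℝ) * ((n : ℝ) - j) * yy P j := by
  obtain ⟨k, rfl⟩ := Nat.exists_eq_add_of_le' h1
  have h2 := h.P_ulc k
  have h3 := Ratio_mul h (show k < n by omega)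
  have h4 := Ratio_mul h hj
  have h5 := h.P_pos (k + 1 + 1) hj
  have h6 := y_pos h hj
  rw [Nat.add_sub_cancel]
  have e2 : k + 2 = k + 1 + 1 := rfl
  rw [e2, h3, h4] at h2
  have h7 : 0 < yy P (k + 1) * P (k + 1 + 1) * P (k + 1 + 1) := mul_pos (mul_pos h6 h5) h5
  refine le_of_mul_le_mul_right ?_ h7
  push_cast
  linarith

theorem y_mono (h : Sys n P E d) {i j : ℕ} (hij : i ≤ j) (hj : j < n) : yy P i ≤ yy P j := by
  induction j with
  | zero =>
    rw [Nat.le_zero.1 hij]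
  | succ j ih =>
    rcases Nat.lt_or_ge j i with h1 | h1
    · have : i = j + 1 := by omega
      rw [this]
    · refine (ih h1 (by omega)).trans ?_
      have h2 := y_ulc h (Nat.le_add_left 1 j) hj
      rw [Nat.add_sub_cancel] at h2
      have h3 := y_pos h hj
      have h4 : (j : ℝ) + 1 < n := by exact_mod_cast hj
      have h5 : (0 : ℝ) ≤ j := Nat.cast_nonneg j
      push_cast at h2
      have h6 : 0 < ((j : ℝ) + 2) * ((n : ℝ) - j) := mul_pos (by linarith) (by linarith)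
      refine le_of_mul_le_mul_left ?_ h6
      have h7 : ((j : ℝ) + 1) * ((n : ℝ) - (j + 1)) ≤ ((j : ℝ) + 2) * ((n : ℝ) - j) := by nlinarith
      have h8 := mul_le_mul_of_nonneg_right h7 h3.le
      linarith

theorem y_rl (h : Sys n P E d) {j : ℕ} (h1 : 1 ≤ j) (hj : j < n) :
    (j : ℝ) ^ 2 * (yy P j - yy P (j - 1)) ≤ j * yy P (j - 1) + 7 * j * yy P j * yy P (j - 1) -
      6 * ((n : ℝ) - j + 1) * yy P j * yy P (j - 1) ^ 2 := by
  obtain ⟨k, rfl⟩ := Nat.exists_eq_add_of_le' h1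
  have h2 := h.P_rl k (by omega)
  have h3 := Ratio_mul h (show k < n by omega)
  have h4 := Ratio_mul h hj
  have h5 := h.P_pos (k + 1 + 1) hj
  have h6 := y_pos h hj
  rw [Nat.add_sub_cancel]
  have e2 : k + 2 = k + 1 + 1 := rfl
  rw [e2, h3, h4] at h2
  have h7 : 0 < yy P (k + 1) * P (k + 1 + 1) * P (k + 1 + 1) := mul_pos (mul_pos h6 h5) h5
  refine le_of_mul_le_mul_right ?_ h7
  push_cast
  linarith

theorem y_rec (h : Sys n P E d) {j : ℕ} (h2 : 2 ≤ j) (hj : j < n) :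
    (j : ℝ) + 1 = 3 * ((n : ℝ) - 3 * j) * yy P j + 6 * (2 * (n : ℝ) - 3 * j + 3) * yy P j *
      yy P (j - 1) + 6 * ((n : ℝ) - j + 2) * yy P j * yy P (j - 1) * yy P (j - 2) := by
  obtain ⟨i, rfl⟩ := Nat.exists_eq_add_of_le' h2
  have h1 := h.P_rec i
  have h3 := Ratio_mul h (show i < n by omega)
  have h4 := Ratio_mul h (show i + 1 < n by omega)
  have h5 := Ratio_mul h hj
  have h6 := h.P_pos (i + 2 + 1) hj
  have e1 : i + 2 - 1 = i + 1 := rfl
  have e2 : i + 2 - 2 = i := rfl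
  rw [e1, e2]
  have e3 : i + 3 = i + 2 + 1 := rfl
  have e4 : i + 1 + 1 = i + 2 := rfl
  rw [e4] at h4
  rw [e3, h3, h4, h5] at h1
  refine mul_right_cancel₀ h6.ne' ?_
  push_cast
  linarith

theorem z_mono (h : Sys n P E d) {i j : ℕ} (hij : i ≤ j) (hj : j < n) :
    ((n : ℝ) - i) * yy P i / ((i : ℝ) + 1) ≤ ((n : ℝ) - j) * yy P j / ((j : ℝ) + 1) := by
  induction j with
  | zero =>
    rw [Nat.le_zero.1 hij]
  | succ j ih =>
    rcases Nat.lt_or_ge j i with h1 | h1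
    · have : i = j + 1 := by omega
      rw [this]
    · refine (ih h1 (by omega)).trans ?_
      have h2 := y_ulc h (Nat.le_add_left 1 j) hj
      rw [Nat.add_sub_cancel] at h2
      have h5 : (0 : ℝ) ≤ j := Nat.cast_nonneg j
      push_cast at h2 ⊢
      rw [div_le_div_iff₀ (by linarith) (by linarith)]
      linarith

theorem z_le (h : Sys n P E d) {j : ℕ} (hj : j < n) : ((n : ℝ) - j) * yy P j ≤ (j : ℝ) + 1 := by
  obtain ⟨k, rfl⟩ : ∃ k, n = k + 1 := ⟨n - 1, by omega⟩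
  have h1 := z_mono h (show j ≤ k by omega) (Nat.lt_succ_self k)
  have h2 := h.P_rec k
  have h3 : P (k + 3) = 0 := h.P_zero _ (by omega)
  have h4 : P (k + 2) = 0 := h.P_zero _ (by omega)
  have h5 := h.P_pos (k + 1) le_rfl
  have h6 := Ratio_mul h (Nat.lt_succ_self k)
  rw [h3, h4] at h2
  push_cast at h2 h1 ⊢
  have h7 : P k = (k + 1) * P (k + 1) := by linarith
  have h8 : yy P k = (k : ℝ) + 1 := by
    refine mul_right_cancel₀ h5.ne' ?_
    rw [← h6, h7]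
  have h9 : (0 : ℝ) ≤ k := Nat.cast_nonneg k
  have h10 : (0 : ℝ) ≤ j := Nat.cast_nonneg j
  rw [h8] at h1
  have h11 : ((k : ℝ) + 1 - k) * ((k : ℝ) + 1) / ((k : ℝ) + 1) = 1 := by
    rw [mul_div_assoc, div_self (by linarith : (k : ℝ) + 1 ≠ 0)]
    ring
  rw [h11, div_le_one (by linarith)] at h1
  exact h1

theorem y_lb (h : Sys n P E d) {j : ℕ} (h2 : 2 ≤ j) (hj : j < n) (h3 : 3 * j ≤ 2 * n + 3) {c : ℝ}
    (hc : 0 ≤ c) (hlt : 3 * ((n : ℝ) - 3 * j) * c + 6 * (2 * (n : ℝ) - 3 * j + 3) * c ^ 2 +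
      6 * ((n : ℝ) - j + 2) * c ^ 3 < (j : ℝ) + 1) : c < yy P j := by
  by_contra hcon
  push Not at hcon
  have h1 := y_rec h h2 hj
  have h4 := y_mono h (show j - 1 ≤ j by omega) hj
  have h5 := y_mono h (show j - 2 ≤ j by omega) hj
  have p0 := y_pos h hj
  have p1 := y_pos h (show j - 1 < n by omega)
  have p2 := y_pos h (show j - 2 < n by omega)
  have hj' : (j : ℝ) < n := by exact_mod_cast hj
  have h3' : 3 * (j : ℝ) ≤ 2 * n + 3 := by exact_mod_cast h3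
  have hj0 : (0 : ℝ) ≤ j := Nat.cast_nonneg j
  obtain ⟨A, hA⟩ : ∃ A : ℝ, A = 3 * ((n : ℝ) - 3 * j) := ⟨_, rfl⟩
  obtain ⟨B, hB⟩ : ∃ B : ℝ, B = 6 * (2 * (n : ℝ) - 3 * j + 3) := ⟨_, rfl⟩
  obtain ⟨C, hC⟩ : ∃ C : ℝ, C = 6 * ((n : ℝ) - j + 2) := ⟨_, rfl⟩
  rw [← hA, ← hB, ← hC] at h1 hlt
  have hB0 : 0 ≤ B := by rw [hB]; linarith
  have hC0 : 0 ≤ C := by rw [hC]; linarith
  set y := yy P j with hy
  set u := yy P (j - 1) with hu
  set v := yy P (j - 2) with hv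
  have huv : u * v ≤ y * y := mul_le_mul h4 h5 p2.le p0.le
  have g1 : (j : ℝ) + 1 ≤ y * (A + B * y + C * (y * y)) := by
    have e1 : A * y + B * y * u + C * y * u * v = y * (A + B * u + C * (u * v)) := by ring
    rw [h1, e1]
    refine mul_le_mul_of_nonneg_left ?_ p0.le
    have a1 := mul_le_mul_of_nonneg_left h4 hB0
    have a2 := mul_le_mul_of_nonneg_left huv hC0
    linarith
  have g2 : 0 < A + B * y + C * (y * y) := by
    have : 0 < y * (A + B * y + C * (y * y)) := by linarith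
    exact (pos_iff_pos_of_mul_pos this).1 p0
  have hyy : y * y ≤ c * c := mul_le_mul hcon hcon p0.le hc
  have g3 : A + B * y + C * (y * y) ≤ A + B * c + C * (c * c) := by
    have a1 := mul_le_mul_of_nonneg_left hcon hB0
    have a2 := mul_le_mul_of_nonneg_left hyy hC0
    linarith
  have g4 : y * (A + B * y + C * (y * y)) ≤ c * (A + B * c + C * (c * c)) :=
    mul_le_mul hcon g3 g2.le hc
  have e2 : c * (A + B * c + C * (c * c)) = A * c + B * c ^ 2 + C * c ^ 3 := by ring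
  linarith

/-- Telescoped form of `y_ulc`. -/
theorem y_tel (h : Sys n P E d) {i j : ℕ} (hij : i ≤ j) (hj : j < n) :
    ((j : ℝ) + 1) * ((n : ℝ) - i) * yy P i ≤ ((i : ℝ) + 1) * ((n : ℝ) - j) * yy P j := by
  have h1 := z_mono h hij hj
  have h2 : (0 : ℝ) ≤ j := Nat.cast_nonneg j
  have h3 : (0 : ℝ) ≤ i := Nat.cast_nonneg i
  rw [div_le_div_iff₀ (by linarith) (by linarith)] at h1
  linarith

/-- One step of growth. -/
theorem y_step (h : Sys n P E d) {j : ℕ} (h1 : 1 ≤ j) (hj : j < n) {c : ℝ} (hc : yy P j ≤ c) :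
    (j : ℝ) * yy P j ≤ ((j : ℝ) + 1 + 7 * c) * yy P (j - 1) := by
  have h2 := y_rl h h1 hj
  have p0 := y_pos h hj
  have p1 := y_pos h (show j - 1 < n by omega)
  have hj' : (j : ℝ) < n := by exact_mod_cast hj
  have hj0 : (1 : ℝ) ≤ j := by exact_mod_cast h1
  set y := yy P j with hy
  set u := yy P (j - 1) with hu
  have h3 : 0 ≤ 6 * ((n : ℝ) - j + 1) * y * u ^ 2 := by
    have : 0 ≤ (n : ℝ) - j + 1 := by linarith
    positivity
  have h4 : (j : ℝ) * (j * y) ≤ j * ((j + 1 + 7 * y) * u) := by nlinarith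
  have h5 := le_of_mul_le_mul_left h4 (by linarith)
  refine h5.trans (mul_le_mul_of_nonneg_right ?_ p1.le)
  linarith

end

end Pool.Agent.Lib.MP_eeed5c_coC
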