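import Pool.Agent.Lib.MP_eeed5c_co_C.An1

/-!
# Upper part, large `n`: the conditions `hR` and `hρ`

NOTATION. `y_j = yy P j`.

PROOFS.
`up_hR` (`638 n < 1000 j`, `j ≤ n`). Divide by `P_j P_{j-1} > 0`:
`(8/3) j (n+2-j) y_{j-2} ≤ (3j-3-n) (t + (3/4)(3j-n))` where `t = (j+1) P_{j+1}/P_j` is `(j+1)/y_j` if
`j < n` and `0` if `j = n`.
(1) `100 j ≤ 77 n`: `z_up2` at `j-2`: `(n+2-j) y_{j-2} ≤ .9 (j-1)`; at `j`: `(j+1)/y_j ≥ (n-j)/.9`.
It is enough: `2.4 j (j-1) ≤ (3j-3-n)((10/9)(n-j) + (3/4)(3j-n))`; right side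
`= (3j-3-n)(41 j + 13 n)/36`. Difference times `36`:
`36.6 j^2 - 2 n j - 13 n^2 - 39 n - 36.6 j ≥ 0` for `.638 n < j`: increasing in `j`, at `j = .638 n` it is
`.6217 n^2 - 62.4 n > 0`.
(2) `77 n < 100 j < 100 n`: `z_le`: `(n+2-j) y_{j-2} ≤ j-1`, `(j+1)/y_j ≥ n-j`. Enough:
`(8/3) j (j-1) ≤ (3j-3-n)((n-j) + (3/4)(3j-n)) = (3j-3-n)(n+5j)/4`; difference times `12`:
`13 j^2 - 6 n j - 3 n^2 - 9 n - 13 j ≥ 0` for `j ≥ .77 n` (at `.77 n`: `.0877 n^2 - 19.1 n > 0`,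
increasing in `j`).
(3) `j = n`: `P_{n+1} = 0`; `2 P_{n-2}.. `: `2 y_{n-2} ≤ n-1` by `z_le`, enough
`(8/3) n (n-1) ≤ (2n-3)(3/4)(2n)`, i.e. `16 (n-1) ≤ 9 (2n-3)`, true.
`up_hρ` (`638 n < 1000 j`, `j ≤ n`). `rb n P j = (4/9)(j+1)P_{j+1}/((3j-n)P_j)`. `j = n`: it is `0`.
`j < n`: `(j+1) P_{j+1}/P_j = (j+1)/y_j ≤ (n-j)/.62` (`z_lo2`), and
`(4/9)(n-j)/.62 ≤ .72 (n-j) ≤ 3j-n` (`j ≥ .638 n`).
-/

set_option autoImplicit false

namespace Pool.Agent.Lib.MP_eeed5c_coC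

section

variable {n : ℕ} {P E d : ℕ → ℝ}

private theorem UpA_t (h : Sys n P E d) {j : ℕ} (hj : j < n) :
    ((j : ℝ) + 1) * P (j + 1) = ((j : ℝ) + 1) / yy P j * P j := by
  have h1 := y_pos h hj
  have h2 : P j = yy P j * P (j + 1) := by
    unfold yy
    rw [div_mul_cancel₀ _ (h.P_pos (j + 1) hj).ne']
  have h3 : ((j : ℝ) + 1) / yy P j * (yy P j * P (j + 1)) = ((j : ℝ) + 1) * P (j + 1) := by
    rw [← mul_assoc, div_mul_cancel₀ _ h1.ne']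
  rw [← h2] at h3
  exact h3.symm

private theorem UpA_key (h : Sys n P E d) {j : ℕ} (h2 : 2 ≤ j) (hj : j ≤ n) {t : ℝ}
    (ht : ((j : ℝ) + 1) * P (j + 1) = t * P j)
    (hk : (8 / 3) * (j : ℝ) * (((n : ℝ) + 2 - j) * yy P (j - 2)) ≤
      (3 * (j : ℝ) - 3 - n) * (t + (3 / 4) * (3 * (j : ℝ) - n))) :
    (8 / 3) * (j : ℝ) * ((n : ℝ) + 2 - j) * P j * P (j - 2) ≤
      (3 * (j : ℝ) - 3 - n) * P (j - 1) *
        (((j : ℝ) + 1) * P (j + 1) + (3 / 4) * (3 * (j : ℝ) - n) * P j) := by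
  have h1 : P (j - 1) = yy P (j - 1) * P j := by
    unfold yy
    rw [show j - 1 + 1 = j by omega, div_mul_cancel₀ _ (h.P_pos j hj).ne']
  rw [ht, h1, kap_P h h2 hj]
  have w0 := y_pos h (show j - 1 < n by omega)
  have p0 := h.P_pos j hj
  have h3 : 0 ≤ yy P (j - 1) * (P j * P j) := by positivity
  have h4 := mul_le_mul_of_nonneg_right hk h3
  linarith

theorem up_hR (h : Sys n P E d) (hn : 1500 ≤ n) {j : ℕ} (h1 : 638 * n < 1000 * j) (hj : j ≤ n) :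
    (8 / 3) * (j : ℝ) * ((n : ℝ) + 2 - j) * P j * P (j - 2) ≤
      (3 * (j : ℝ) - 3 - n) * P (j - 1) *
        (((j : ℝ) + 1) * P (j + 1) + (3 / 4) * (3 * (j : ℝ) - n) * P j) := by
  have hn' : (1500 : ℝ) ≤ n := by exact_mod_cast hn
  have h1' : 638 * (n : ℝ) < 1000 * j := by exact_mod_cast h1
  have hj' : (j : ℝ) ≤ n := by exact_mod_cast hj
  have h2 : 2 ≤ j := by omega
  have e1 : (((j - 2 : ℕ) : ℕ) : ℝ) = (j : ℝ) - 2 := by
    rw [Nat.cast_sub h2]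
    norm_num
  have hj0 : (0 : ℝ) ≤ 8 / 3 * j := by linarith
  have c0 : 0 ≤ 3 * (j : ℝ) - 3 - n := by linarith
  obtain ⟨s, hs⟩ : ∃ s : ℝ, (j : ℝ) = 638 / 1000 * n + s := ⟨j - 638 / 1000 * n, by ring⟩
  have s0 : 0 ≤ s := by linarith
  rcases Nat.lt_or_ge j n with hlt | hge
  · have y0 := y_pos h hlt
    refine UpA_key h h2 hj (UpA_t h hlt) ?_
    rcases Nat.lt_or_ge (77 * n) (100 * j) with h77 | h77
    · have z1 := z_le h (show j - 2 < n by omega)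
      have z2 := z_le h hlt
      rw [e1] at z1
      have t1 : (n : ℝ) - j ≤ ((j : ℝ) + 1) / yy P j := by
        rw [le_div_iff₀ y0]
        exact z2
      have t2 : (8 / 3) * (j : ℝ) * (((n : ℝ) + 2 - j) * yy P (j - 2)) ≤ 8 / 3 * j * (j - 1) := by
        refine mul_le_mul_of_nonneg_left ?_ hj0
        linarith
      have t3 : (3 * (j : ℝ) - 3 - n) * (((n : ℝ) - j) + (3 / 4) * (3 * (j : ℝ) - n)) ≤
          (3 * (j : ℝ) - 3 - n) * (((j : ℝ) + 1) / yy P j + (3 / 4) * (3 * (j : ℝ) - n)) :=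
        mul_le_mul_of_nonneg_left (by linarith) c0
      refine (t2.trans ?_).trans t3
      have h77' : 77 * (n : ℝ) < 100 * j := by exact_mod_cast h77
      obtain ⟨r, hr⟩ : ∃ r : ℝ, (j : ℝ) = 77 / 100 * n + r := ⟨j - 77 / 100 * n, by ring⟩
      have r0 : 0 ≤ r := by linarith
      rw [hr]
      nlinarith [mul_nonneg r0 (sub_nonneg.2 hn'), mul_nonneg r0 r0]
    · have z1 := z_up2 h hn (show 100 * (j - 2) ≤ 77 * n by omega)
      have z2 := z_up2 h hn h77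
      rw [e1] at z1
      have t1 : 10 / 9 * ((n : ℝ) - j) ≤ ((j : ℝ) + 1) / yy P j := by
        rw [le_div_iff₀ y0]
        linarith
      have t2 : (8 / 3) * (j : ℝ) * (((n : ℝ) + 2 - j) * yy P (j - 2)) ≤ 8 / 3 * j * (9 / 10 * (j - 1)) := by
        refine mul_le_mul_of_nonneg_left ?_ hj0
        linarith
      have t3 : (3 * (j : ℝ) - 3 - n) * (10 / 9 * ((n : ℝ) - j) + (3 / 4) * (3 * (j : ℝ) - n)) ≤
          (3 * (j : ℝ) - 3 - n) * (((j : ℝ) + 1) / yy P j + (3 / 4) * (3 * (j : ℝ) - n)) :=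
        mul_le_mul_of_nonneg_left (by linarith) c0
      refine (t2.trans ?_).trans t3
      rw [hs]
      nlinarith [mul_nonneg s0 (sub_nonneg.2 hn'), mul_nonneg s0 s0]
  · have hjn : j = n := le_antisymm hj hge
    have hP : P (j + 1) = 0 := h.P_zero _ (by omega)
    refine UpA_key h h2 hj (t := 0) (by rw [hP, mul_zero, zero_mul]) ?_
    have z1 := z_le h (show j - 2 < n by omega)
    rw [e1] at z1
    have hjn' : (j : ℝ) = n := by rw [hjn]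
    have t2 : (8 / 3) * (j : ℝ) * (((n : ℝ) + 2 - j) * yy P (j - 2)) ≤ 8 / 3 * j * (j - 1) := by
      refine mul_le_mul_of_nonneg_left ?_ hj0
      linarith
    refine t2.trans ?_
    rw [hjn']
    nlinarith

theorem up_hρ (h : Sys n P E d) (hn : 1500 ≤ n) {j : ℕ} (h1 : 638 * n < 1000 * j) (hj : j ≤ n) :
    rb n P j ≤ 1 := by
  have hn' : (1500 : ℝ) ≤ n := by exact_mod_cast hn
  have h1' : 638 * (n : ℝ) < 1000 * j := by exact_mod_cast h1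
  have hj' : (j : ℝ) ≤ n := by exact_mod_cast hj
  have p0 := h.P_pos j hj
  have c0 : 0 < 3 * (j : ℝ) - n := by linarith
  rw [rb, div_le_one (mul_pos c0 p0), mul_assoc]
  rcases Nat.lt_or_ge j n with hlt | hge
  · have y0 := y_pos h hlt
    have z2 := z_lo2 h hn (show 6346 * n ≤ 10000 * j by omega) hlt
    rw [UpA_t h hlt, ← mul_assoc]
    refine mul_le_mul_of_nonneg_right ?_ p0.le
    have t1 : ((j : ℝ) + 1) / yy P j ≤ ((n : ℝ) - j) / (62 / 100) := by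
      rw [div_le_div_iff₀ y0 (by norm_num)]
      linarith
    linarith
  · have hP : P (j + 1) = 0 := h.P_zero _ (by omega)
    rw [hP, mul_zero, mul_zero]
    exact (mul_pos c0 p0).le

end

end Pool.Agent.Lib.MP_eeed5c_coC
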