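import Pool.Agent.Lib.MP_eeed5c_co_C.StepI

/-!
# Windows: matchings with prescribed edges at a set of vertices

For a set `W` of vertices and a matching `N` let `tch W N` be the edges of `N` which meet `W`.

PROOF of `fiber_card`. `rest W C` is the set of vertices neither in `W` nor covered by `C`. If
`tch W N = C` then `N \ C` is a matching with `i - |C|` edges, all of them inside `rest W C` (they do
not meet `W`, and they do not meet a vertex covered by `C` because `N` is a matching). Conversely the
union of `C` with a matching inside `rest W C` is a matching with `tch = C`. The matchings inside the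
set `rest W C` correspond to the matchings of the induced graph (image under
`Sym2.map Subtype.val`). `C` must be a matching all of whose edges meet `W` (otherwise the fibre is
empty, which is why the hypotheses `hC`, `hCW` are there).
`rest_card`: the vertices covered by `C` are `2|C|` many; `W` is the disjoint union of its covered and
its uncovered vertices, the complement of `rest W C` is `W ∪ covered(C)`.
-/

set_option autoImplicit false
set_option linter.unusedSectionVars false

namespace Pool.Agent.Lib.MP_eeed5c_coC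

open Finset Pool.Agent.Lib.MP_eeed5c_co Pool.Agent.Lib.MP_eeed5c_coT

section

variable {V : Type*} [Fintype V]

open scoped Classical in
/-- The edges of `N` which meet `W`. -/
noncomputable def tch (W : Finset V) (N : Finset (Sym2 V)) : Finset (Sym2 V) :=
  N.filter fun e => ∃ w ∈ W, w ∈ e

/-- The vertices neither in `W` nor covered by `C`. -/
def rest (W : Finset V) (C : Finset (Sym2 V)) : Set V := {v | v ∉ W ∧ ∀ e ∈ C, v ∉ e}

noncomputable instance (W : Finset V) (C : Finset (Sym2 V)) : Fintype (rest W C) :=
  Fintype.ofFinite _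

/-- The inclusion on the pairs. -/
private def WinA_f (W : Finset V) (C : Finset (Sym2 V)) : Sym2 (rest W C) → Sym2 V :=
  Sym2.map Subtype.val

private theorem WinA_inj (W : Finset V) (C : Finset (Sym2 V)) : Function.Injective (WinA_f W C) :=
  Sym2.map.injective Subtype.val_injective

private theorem WinA_mem {W : Finset V} {C : Finset (Sym2 V)} {e : Sym2 (rest W C)} {v : V}
    (h : v ∈ WinA_f W C e) : v ∉ W ∧ ∀ f ∈ C, v ∉ f := by
  unfold WinA_f at h
  rw [Sym2.mem_map] at h
  obtain ⟨a, _, rfl⟩ := h
  exact a.2

private theorem WinA_mem' {W : Finset V} {C : Finset (Sym2 V)} {e : Sym2 (rest W C)}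
    {a : rest W C} : a.1 ∈ WinA_f W C e ↔ a ∈ e := by
  unfold WinA_f
  rw [Sym2.mem_map]
  constructor
  · rintro ⟨b, hb, hab⟩
    rw [← Subtype.ext hab]
    exact hb
  · intro h
    exact ⟨a, h, rfl⟩

private theorem WinA_edge (G : SimpleGraph V) (W : Finset V) (C : Finset (Sym2 V))
    (e : Sym2 (rest W C)) : WinA_f W C e ∈ G.edgeSet ↔ e ∈ (G.induce (rest W C)).edgeSet := by
  induction e using Sym2.ind with
  | _ a b => exact Iff.rfl

private theorem WinA_ex {W : Finset V} {C : Finset (Sym2 V)} (e : Sym2 V)
    (h : ∀ v ∈ e, v ∉ W ∧ ∀ f ∈ C, v ∉ f) : ∃ e', WinA_f W C e' = e := by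
  induction e using Sym2.ind with
  | _ a b =>
    exact ⟨s(⟨a, h a (Sym2.mem_mk_left a b)⟩, ⟨b, h b (Sym2.mem_mk_right a b)⟩), rfl⟩

open scoped Classical in
private theorem WinA_disj {W : Finset V} {C : Finset (Sym2 V)}
    (hCW : ∀ e ∈ C, ∃ w ∈ W, w ∈ e) (M : Finset (Sym2 (rest W C))) :
    Disjoint C (M.image (WinA_f W C)) := by
  rw [Finset.disjoint_left]
  intro e he h
  obtain ⟨e', _, rfl⟩ := Finset.mem_image.1 h
  obtain ⟨w, hw, hwe⟩ := hCW _ he
  exact (WinA_mem hwe).1 hw

open scoped Classical in
theorem fiber_card (G : SimpleGraph V) (W : Finset V) (C : Finset (Sym2 V)) (i : ℕ)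
    (hC : C ∈ mats G C.card) (hCW : ∀ e ∈ C, ∃ w ∈ W, w ∈ e) (hi : C.card ≤ i) :
    ((mats G i).filter fun N => tch W N = C).card =
      (mats (G.induce (rest W C)) (i - C.card)).card := by
  obtain ⟨hC1, _, hC3⟩ := mem_mats.1 hC
  symm
  refine Finset.card_bij (fun M _ => C ∪ M.image (WinA_f W C)) ?_ ?_ ?_
  · intro M hM
    obtain ⟨h1, h2, h3⟩ := mem_mats.1 hM
    have hcov : ∀ e ∈ C, ∀ v ∈ e, ∀ e', v ∉ WinA_f W C e' := by
      intro e he v hv e' hv'
      exact (WinA_mem hv').2 e he hv
    refine Finset.mem_filter.2 ⟨mem_mats.2 ⟨?_, ?_, ?_⟩, ?_⟩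
    · intro e he
      rcases Finset.mem_union.1 (Finset.mem_coe.1 he) with he | he
      · exact hC1 he
      · obtain ⟨e', he', rfl⟩ := Finset.mem_image.1 he
        exact (WinA_edge G W C e').2 (h1 he')
    · rw [Finset.card_union_of_disjoint (WinA_disj hCW M),
        Finset.card_image_of_injective _ (WinA_inj W C), h2]
      omega
    · intro e he f hf hne v hv hvf
      rcases Finset.mem_union.1 (Finset.mem_coe.1 he) with he | he
      · rcases Finset.mem_union.1 (Finset.mem_coe.1 hf) with hf | hf
        · exact hC3 he hf hne v hv hvf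
        · obtain ⟨f', _, rfl⟩ := Finset.mem_image.1 hf
          exact hcov e he v hv f' hvf
      · obtain ⟨e', he', rfl⟩ := Finset.mem_image.1 he
        rcases Finset.mem_union.1 (Finset.mem_coe.1 hf) with hf | hf
        · exact hcov f hf v hvf e' hv
        · obtain ⟨f', hf', rfl⟩ := Finset.mem_image.1 hf
          have h4 := WinA_mem hv
          have h5 : (⟨v, h4⟩ : rest W C) ∈ e' := WinA_mem'.1 hv
          have h6 : (⟨v, h4⟩ : rest W C) ∈ f' := WinA_mem'.1 hvf
          refine h3 he' hf' ?_ _ h5 h6
          intro h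
          exact hne (by rw [h])
    · ext e
      unfold tch
      rw [Finset.mem_filter, Finset.mem_union]
      constructor
      · rintro ⟨he | he, hw⟩
        · exact he
        · obtain ⟨e', _, rfl⟩ := Finset.mem_image.1 he
          obtain ⟨w, hw, hwe⟩ := hw
          exact absurd hw (WinA_mem hwe).1
      · intro he
        exact ⟨Or.inl he, hCW e he⟩
  · intro M _ M' _ h
    have h1 : (C ∪ M.image (WinA_f W C)) \ C = (C ∪ M'.image (WinA_f W C)) \ C := by
      have h2 : C ∪ M.image (WinA_f W C) = C ∪ M'.image (WinA_f W C) := h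
      rw [h2]
    rw [Finset.union_sdiff_cancel_left (WinA_disj hCW M),
      Finset.union_sdiff_cancel_left (WinA_disj hCW M')] at h1
    exact Finset.image_injective (WinA_inj W C) h1
  · intro N hN
    obtain ⟨hN0, hNC⟩ := Finset.mem_filter.1 hN
    obtain ⟨h1, h2, h3⟩ := mem_mats.1 hN0
    have hCN : ∀ e ∈ C, e ∈ N := by
      intro e he
      rw [← hNC] at he
      exact (Finset.mem_filter.1 he).1
    have hU : C ∪ (Finset.univ.filter fun e => WinA_f W C e ∈ N).image (WinA_f W C) = N := by
      ext e
      rw [Finset.mem_union]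
      constructor
      · rintro (he | he)
        · exact hCN e he
        · obtain ⟨e', he', rfl⟩ := Finset.mem_image.1 he
          exact (Finset.mem_filter.1 he').2
      · intro he
        by_cases hw : ∃ w ∈ W, w ∈ e
        · left
          rw [← hNC]
          exact Finset.mem_filter.2 ⟨he, hw⟩
        · right
          obtain ⟨e', rfl⟩ := WinA_ex (W := W) (C := C) e (by
            intro v hv
            refine ⟨fun hvW => hw ⟨v, hvW, hv⟩, fun f hf hvf => ?_⟩
            have h4 : e = f := edge_unique hN0 he (hCN f hf) hv hvf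
            rw [h4] at hw
            exact hw (hCW f hf))
          exact Finset.mem_image.2 ⟨e', Finset.mem_filter.2 ⟨Finset.mem_univ _, he⟩, rfl⟩
    refine ⟨Finset.univ.filter fun e => WinA_f W C e ∈ N, mem_mats.2 ⟨?_, ?_, ?_⟩, hU⟩
    · intro e he
      exact (WinA_edge G W C e).1 (h1 (Finset.mem_filter.1 (Finset.mem_coe.1 he)).2)
    · have h4 := congrArg Finset.card hU
      rw [Finset.card_union_of_disjoint (WinA_disj hCW _),
        Finset.card_image_of_injective _ (WinA_inj W C), h2] at h4
      omega
    · intro e he f hf hne v hv hvf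
      have he' := (Finset.mem_filter.1 (Finset.mem_coe.1 he)).2
      have hf' := (Finset.mem_filter.1 (Finset.mem_coe.1 hf)).2
      exact h3 he' hf' (fun h => hne (WinA_inj W C h)) v.1 (WinA_mem'.2 hv) (WinA_mem'.2 hvf)

open scoped Classical in
theorem rest_card (G : SimpleGraph V) (W : Finset V) (C : Finset (Sym2 V))
    (hC : C ∈ mats G C.card) (hCW : ∀ e ∈ C, ∃ w ∈ W, w ∈ e) :
    Fintype.card (rest W C) + 2 * C.card + (W.filter fun w => w ∈ free C).card =
      Fintype.card V := by
  have h1 := card_free hC
  have h2 : Fintype.card (rest W C) = ((free C).filter fun v => v ∉ W).card := by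
    rw [← Finset.card_univ]
    refine Finset.card_bij (fun v _ => v.1) ?_ ?_ ?_
    · intro v _
      exact Finset.mem_filter.2 ⟨mem_free.2 v.2.2, v.2.1⟩
    · intro v _ w _ h
      exact Subtype.ext h
    · intro v hv
      obtain ⟨hv1, hv2⟩ := Finset.mem_filter.1 hv
      exact ⟨⟨v, hv2, mem_free.1 hv1⟩, Finset.mem_univ _, rfl⟩
  have h3 : (W.filter fun w => w ∈ free C) = (free C).filter fun v => v ∈ W := by
    ext v
    rw [Finset.mem_filter, Finset.mem_filter]
    exact and_comm
  have h4 := Finset.card_filter_add_card_filter_not (s := free C) (fun v => v ∈ W)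
  rw [h2, h3]
  omega

theorem sub3_induce (G : SimpleGraph V) (hG : Sub3 G) (W : Finset V) (C : Finset (Sym2 V)) :
    Sub3 (G.induce (rest W C)) := by
  classical
  intro v
  refine le_trans ?_ (hG v.1)
  unfold dg
  refine Finset.card_le_card_of_injOn (fun u : rest W C => u.1) ?_ ?_
  · intro u hu
    have h1 := (Finset.mem_filter.1 (Finset.mem_coe.1 hu)).2
    exact Finset.mem_coe.2 (Finset.mem_filter.2 ⟨Finset.mem_univ _, h1⟩)
  · intro u _ w _ h
    exact Subtype.ext h

end

end Pool.Agent.Lib.MP_eeed5c_coC
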